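import Pool.Agent.J4H33.KL4
import Pool.Agent.Y851.PS.G6

/-!
# Primes at sparse sets of frequencies, V: the primes
-/

set_option autoImplicit false

namespace Pool.Agent.J4H33

open Finset Filter Pool.Agent.H376R2.MR Pool.Agent.Q240.KS Pool.Agent.Q211.KS
open Pool.Agent.Y851.PS (TF SPr xP g3 g3_nonneg g3_le mem_SPr)

theorem w_refine (s : ℝ) : w s = 1 / 2 * w (2 * s + 1) + w (2 * s) + 1 / 2 * w (2 * s - 1) := by
  unfold w
  rcases le_total 0 s with h0 | h0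
  · rw [abs_of_nonneg h0, abs_of_nonneg (by linarith : 0 ≤ 2 * s + 1), abs_of_nonneg (by linarith : 0 ≤ 2 * s)]
    rcases le_total s (1 / 2) with h1 | h1
    · rw [abs_of_nonpos (by linarith : 2 * s - 1 ≤ 0), max_eq_right (by linarith), max_eq_left (by linarith), max_eq_right (by linarith),
        max_eq_right (by linarith)]
      ring
    · rw [abs_of_nonneg (by linarith : 0 ≤ 2 * s - 1)]
      rcases le_total s 1 with h2 | h2
      · rw [max_eq_right (by linarith), max_eq_left (by linarith), max_eq_left (by linarith), max_eq_right (by linarith)]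
        ring
      · rw [max_eq_left (by linarith), max_eq_left (by linarith), max_eq_left (by linarith), max_eq_left (by linarith)]
        ring
  · rw [abs_of_nonpos h0, abs_of_nonpos (by linarith : 2 * s - 1 ≤ 0), abs_of_nonpos (by linarith : 2 * s ≤ 0)]
    rcases le_total (-(1 / 2)) s with h1 | h1
    · rw [abs_of_nonneg (by linarith : 0 ≤ 2 * s + 1), max_eq_right (by linarith), max_eq_right (by linarith), max_eq_right (by linarith),
        max_eq_left (by linarith)]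
      ring
    · rw [abs_of_nonpos (by linarith : 2 * s + 1 ≤ 0)]
      rcases le_total (-1) s with h2 | h2
      · rw [max_eq_right (by linarith), max_eq_right (by linarith), max_eq_left (by linarith), max_eq_left (by linarith)]
        ring
      · rw [max_eq_left (by linarith), max_eq_left (by linarith), max_eq_left (by linarith), max_eq_left (by linarith)]
        ring

/-- the coefficients of the trapezoid -/
noncomputable def gc (j : Fin 7) : ℝ := if j = 0 ∨ j = 6 then 1 / 2 else 1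

theorem gc_abs (j : Fin 7) : |gc j| ≤ 1 := by
  unfold gc
  split_ifs <;> norm_num

theorem g3_split (s : ℝ) : g3 s = ∑ j : Fin 7, gc j * w (2 * (s - ((j : ℕ) - 3 : ℝ) / 2)) := by
  unfold g3
  have h1 := w_refine (s - 1)
  have h2 := w_refine s
  have h3 := w_refine (s + 1)
  change w (s - 1) + w s + w (s + 1) = _
  rw [h1, h2, h3]
  simp only [Fin.sum_univ_succ, gc]
  simp
  ring_nf

theorem g3_zero {s : ℝ} (hs : 2 ≤ |s|) : g3 s = 0 := by
  unfold g3
  have key : ∀ t : ℝ, 1 ≤ |t| → w t = 0 := fun t ht => by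
    unfold w
    exact max_eq_left (by linarith)
  rcases le_abs.1 hs with h | h
  · rw [key _ (by rw [abs_of_nonneg (by linarith)]; linarith), key _ (by rw [abs_of_nonneg (by linarith)]; linarith),
      key _ (by rw [abs_of_nonneg (by linarith)]; linarith)]
    ring
  · rw [key _ (by rw [abs_of_nonpos (by linarith)]; linarith), key _ (by rw [abs_of_nonpos (by linarith)]; linarith),
      key _ (by rw [abs_of_nonpos (by linarith)]; linarith)]
    ring

theorem Pt_common (Y V : ℝ) (hV : V ≤ Y + 3 / 2) (k : ℤ) :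
    Pt V k = ∑ n ∈ Icc 1 ⌊Real.exp (Y + 3)⌋₊, ((ArithmeticFunction.vonMangoldt n / n * w (2 * (Real.log n - V)) : ℝ) : ℂ) *
      ch k (Real.log n) := by
  unfold Pt
  apply sum_subset
  · apply Icc_subset_Icc_right
    apply Nat.floor_mono
    exact Real.exp_le_exp.2 (by linarith)
  · intro n hn hn2
    rw [mem_Icc] at hn hn2
    have h1 : ⌊Real.exp (V + 3 / 2)⌋₊ < n := by
      by_contra h
      exact hn2 ⟨hn.1, by omega⟩
    have hn0 : (0 : ℝ) < n := by exact_mod_cast hn.1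
    have h2 : Real.exp (V + 3 / 2) < n := (Nat.floor_lt (Real.exp_pos _).le).1 h1
    have h3 : V + 3 / 2 < Real.log n := by rwa [Real.lt_log_iff_exp_lt hn0]
    have h4 : w (2 * (Real.log n - V)) = 0 := by
      unfold w
      apply max_eq_left
      rw [abs_of_nonneg (by linarith)]
      linarith
    rw [h4, mul_zero]; simp

/-- the nonprime part -/
noncomputable def NPt (Y : ℝ) (k : ℤ) : ℂ :=
  ∑ n ∈ (Icc 1 ⌊Real.exp (Y + 3)⌋₊).filter (fun n => ¬ n.Prime),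
    ((ArithmeticFunction.vonMangoldt n / n * g3 (Real.log n - Y) : ℝ) : ℂ) * ch k (Real.log n)

theorem TF_eq (Y : ℝ) (k : ℤ) : TF (SPr Y) (xP Y) (fun p : ℕ => Real.log p) k =
    ∑ j : Fin 7, (gc j : ℂ) * Pt (Y + ((j : ℕ) - 3 : ℝ) / 2) k - NPt Y k := by
  classical
  have h1 : ∑ j : Fin 7, (gc j : ℂ) * Pt (Y + ((j : ℕ) - 3 : ℝ) / 2) k =
      ∑ n ∈ Icc 1 ⌊Real.exp (Y + 3)⌋₊, ((ArithmeticFunction.vonMangoldt n / n * g3 (Real.log n - Y) : ℝ) : ℂ) * ch k (Real.log n) := by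
    have h2 : ∀ j : Fin 7, (gc j : ℂ) * Pt (Y + ((j : ℕ) - 3 : ℝ) / 2) k =
        ∑ n ∈ Icc 1 ⌊Real.exp (Y + 3)⌋₊, (gc j : ℂ) * (((ArithmeticFunction.vonMangoldt n / n *
          w (2 * (Real.log n - (Y + ((j : ℕ) - 3 : ℝ) / 2))) : ℝ) : ℂ) * ch k (Real.log n)) := by
      intro j
      rw [Pt_common Y _ (by
        have : (j : ℕ) ≤ 6 := by omega
        have h3 : ((j : ℕ) : ℝ) ≤ 6 := by exact_mod_cast this
        linarith) k, mul_sum]
    rw [sum_congr rfl fun j _ => h2 j, sum_comm]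
    apply sum_congr rfl
    intro n _
    rw [g3_split]
    push_cast
    rw [mul_sum, sum_mul]
    apply sum_congr rfl
    intro j _
    have e : Real.log (n : ℝ) - (Y + ((j : ℕ) - 3 : ℝ) / 2) = Real.log n - Y - ((j : ℕ) - 3 : ℝ) / 2 := by ring
    rw [e]
    ring
  rw [h1, ← sum_filter_add_sum_filter_not (Icc 1 ⌊Real.exp (Y + 3)⌋₊) Nat.Prime]
  unfold NPt
  rw [add_sub_cancel_right]
  unfold TF
  have hsub : SPr Y ⊆ (Icc 1 ⌊Real.exp (Y + 3)⌋₊).filter Nat.Prime := by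
    intro p hp
    unfold Pool.Agent.Y851.PS.SPr at hp
    rw [mem_filter, mem_Icc] at hp
    rw [mem_filter, mem_Icc]
    refine ⟨⟨hp.1.1, ?_⟩, hp.2.1⟩
    apply Nat.le_floor
    have hp0 : (0 : ℝ) < p := by exact_mod_cast hp.2.1.pos
    rw [← Real.log_le_iff_le_exp hp0]
    linarith [(abs_lt.1 hp.2.2).2]
  rw [← sum_subset hsub]
  · apply sum_congr rfl
    intro p hp
    unfold Pool.Agent.Y851.PS.SPr at hp
    rw [mem_filter] at hp
    unfold Pool.Agent.Y851.PS.xP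
    rw [ArithmeticFunction.vonMangoldt_apply_prime hp.2.1]
  · intro p hp hp2
    rw [mem_filter] at hp
    have h3 : 2 ≤ |Real.log p - Y| := by
      by_contra h
      exact hp2 (mem_SPr hp.2 (not_le.1 h))
    rw [g3_zero h3]; simp

theorem NPt_le {Y : ℝ} (hY : 0 ≤ Y) (k : ℤ) : ‖NPt Y k‖ ≤ 6 * Real.exp 3 * (Y + 2) * Real.exp (-(Y / 2)) := by
  classical
  unfold NPt
  refine (norm_sum_le _ _).trans ?_
  have h1 : ∀ n ∈ (Icc 1 ⌊Real.exp (Y + 3)⌋₊).filter (fun n => ¬ n.Prime),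
      ‖((ArithmeticFunction.vonMangoldt n / n * g3 (Real.log n - Y) : ℝ) : ℂ) * ch k (Real.log n)‖ ≤
      if n ≤ ⌊Real.exp (Y + 2)⌋₊ then 3 * Real.exp (2 - Y) * ArithmeticFunction.vonMangoldt n else 0 := by
    intro n hn
    rw [mem_filter, mem_Icc] at hn
    have hn0 : (0 : ℝ) < n := by exact_mod_cast hn.1.1
    rw [norm_mul, Pool.Agent.H376R2.MR.ls_norm_ch, mul_one, Complex.norm_real, Real.norm_eq_abs,
      abs_of_nonneg (mul_nonneg (div_nonneg ArithmeticFunction.vonMangoldt_nonneg hn0.le) (g3_nonneg _))]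
    by_cases hfar : 2 ≤ |Real.log n - Y|
    · rw [g3_zero hfar, mul_zero]
      split_ifs
      · have := ArithmeticFunction.vonMangoldt_nonneg (n := n)
        positivity
      · exact le_rfl
    · push Not at hfar
      have h2 := abs_lt.1 hfar
      have h3 : n ≤ ⌊Real.exp (Y + 2)⌋₊ := by
        apply Nat.le_floor
        rw [← Real.log_le_iff_le_exp hn0]
        linarith
      rw [if_pos h3]
      have h4 : Real.exp (Y - 2) ≤ n := by
        rw [← Real.le_log_iff_exp_le hn0]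
        linarith
      have h5 : ArithmeticFunction.vonMangoldt n / n ≤ ArithmeticFunction.vonMangoldt n * Real.exp (2 - Y) := by
        rw [div_le_iff₀ hn0]
        have h6 : Real.exp (2 - Y) * Real.exp (Y - 2) = 1 := by
          rw [← Real.exp_add]; simp
        have h7 := ArithmeticFunction.vonMangoldt_nonneg (n := n)
        calc ArithmeticFunction.vonMangoldt n = ArithmeticFunction.vonMangoldt n * (Real.exp (2 - Y) * Real.exp (Y - 2)) := by rw [h6, mul_one]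
          _ ≤ ArithmeticFunction.vonMangoldt n * (Real.exp (2 - Y) * n) := by gcongr
          _ = _ := by ring
      have h7 : 0 ≤ ArithmeticFunction.vonMangoldt n / (n : ℝ) := div_nonneg ArithmeticFunction.vonMangoldt_nonneg hn0.le
      calc ArithmeticFunction.vonMangoldt n / n * g3 (Real.log n - Y) ≤ (ArithmeticFunction.vonMangoldt n * Real.exp (2 - Y)) * 3 :=
            mul_le_mul h5 (g3_le _) (g3_nonneg _) (h7.trans h5)
        _ = _ := by ring
  refine (sum_le_sum h1).trans ?_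
  rw [← sum_filter, ← mul_sum]
  have h2 : ∑ n ∈ ((Icc 1 ⌊Real.exp (Y + 3)⌋₊).filter (fun n => ¬ n.Prime)).filter (fun n => n ≤ ⌊Real.exp (Y + 2)⌋₊),
      ArithmeticFunction.vonMangoldt n ≤ Chebyshev.psi (Real.exp (Y + 2)) - Chebyshev.theta (Real.exp (Y + 2)) := by
    rw [Chebyshev.psi_sub_theta_eq_sum_not_prime]
    apply sum_le_sum_of_subset_of_nonneg
    · intro n hn
      rw [mem_filter, mem_filter, mem_Icc] at hn
      rw [mem_filter, mem_Ioc]
      exact ⟨⟨by omega, hn.2⟩, hn.1.2⟩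
    · intro n _ _
      exact ArithmeticFunction.vonMangoldt_nonneg
  have h3 := Chebyshev.psi_sub_theta_le (x := Real.exp (Y + 2)) (Real.one_le_exp (by linarith))
  rw [Real.log_exp] at h3
  have h4 : √(Real.exp (Y + 2)) = Real.exp ((Y + 2) / 2) := by
    rw [Real.sqrt_eq_iff_mul_self_eq (Real.exp_pos _).le (Real.exp_pos _).le, ← Real.exp_add]
    congr 1; ring
  rw [h4] at h3
  calc 3 * Real.exp (2 - Y) * ∑ n ∈ ((Icc 1 ⌊Real.exp (Y + 3)⌋₊).filter (fun n => ¬ n.Prime)).filter (fun n => n ≤ ⌊Real.exp (Y + 2)⌋₊),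
      ArithmeticFunction.vonMangoldt n ≤ 3 * Real.exp (2 - Y) * (2 * Real.exp ((Y + 2) / 2) * (Y + 2)) :=
        mul_le_mul_of_nonneg_left (h2.trans h3) (by positivity)
    _ = 6 * (Y + 2) * (Real.exp (2 - Y) * Real.exp ((Y + 2) / 2)) := by ring
    _ = 6 * (Y + 2) * (Real.exp 3 * Real.exp (-(Y / 2))) := by
        rw [← Real.exp_add, ← Real.exp_add]
        congr 2; ring
    _ = _ := by ring

/-- sparse frequencies for the primes, as a property of the exponent `c` -/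
def KLS (c : ℝ) : Prop := ∀ B : ℕ, ∃ b : ℕ, ∀ᶠ Y : ℝ in atTop, ∀ L : Finset ℤ, (L.card : ℝ) ≤ Real.exp (c * Y) →
  (∀ k ∈ L, Y ^ b ≤ |(k : ℝ)| ∧ |(k : ℝ)| ≤ Real.exp Y) →
  ∑ k ∈ L, ‖TF (SPr Y) (xP Y) (fun p : ℕ => Real.log p) k‖ ^ 2 ≤ 1 / Y ^ B

theorem kls_of_klp {c₀ : ℝ} (hc₀ : 0 < c₀) (hc₀1 : c₀ ≤ 1 / 2) (h : KLP c₀) (c : ℝ) (hc : c < c₀) : KLS c := by
  classical
  intro B
  obtain ⟨b₀, hb₀⟩ := h (B + 1)
  obtain ⟨Y₀, hY₀⟩ := eventually_atTop.1 hb₀
  refine ⟨b₀ + 1, ?_⟩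
  have hd : 0 < c₀ - c := by linarith
  filter_upwards [eventually_ge_atTop (Y₀ + 2), eventually_ge_atTop 10, eventually_ge_atTop (2 ^ b₀ : ℝ),
    eventually_ge_atTop (8 * 7 * 2 ^ (B + 1) * 2 : ℝ), ev_poly_exp (B + 2) (1 / 4) (2 * 8 * (6 * Real.exp 3 * 2) ^ 2) (by norm_num),
    eventually_ge_atTop (2 * c₀ / (c₀ - c))] with Y g1 g2 g3' g4 g5 g6 L hL1 hL2
  have hY0 : 0 < Y := by linarith
  rw [div_le_iff₀ hd] at g6
  set E : ℝ := 6 * Real.exp 3 * (Y + 2) * Real.exp (-(Y / 2)) with hE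
  have hE0 : 0 ≤ E := by rw [hE]; positivity
  have hpt : ∀ k ∈ L, ‖TF (SPr Y) (xP Y) (fun p : ℕ => Real.log p) k‖ ^ 2 ≤
      8 * (∑ j : Fin 7, ‖Pt (Y + ((j : ℕ) - 3 : ℝ) / 2) k‖ ^ 2 + E ^ 2) := by
    intro k _
    have h1 : ‖TF (SPr Y) (xP Y) (fun p : ℕ => Real.log p) k‖ ≤ ∑ j : Fin 7, ‖Pt (Y + ((j : ℕ) - 3 : ℝ) / 2) k‖ + E := by
      rw [TF_eq]
      refine (norm_sub_le _ _).trans ?_
      apply add_le_add _ (NPt_le hY0.le k)
      refine (norm_sum_le _ _).trans (sum_le_sum fun j _ => ?_)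
      rw [norm_mul, Complex.norm_real, Real.norm_eq_abs]
      calc |gc j| * ‖Pt (Y + ((j : ℕ) - 3 : ℝ) / 2) k‖ ≤ 1 * ‖Pt (Y + ((j : ℕ) - 3 : ℝ) / 2) k‖ :=
            mul_le_mul_of_nonneg_right (gc_abs j) (norm_nonneg _)
        _ = _ := one_mul _
    have h2 : (∑ j : Fin 7, ‖Pt (Y + ((j : ℕ) - 3 : ℝ) / 2) k‖) ^ 2 ≤ 7 * ∑ j : Fin 7, ‖Pt (Y + ((j : ℕ) - 3 : ℝ) / 2) k‖ ^ 2 := by
      have := sq_sum_le_card_mul_sum_sq (s := (univ : Finset (Fin 7))) (f := fun j => ‖Pt (Y + ((j : ℕ) - 3 : ℝ) / 2) k‖)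
      rw [card_univ, Fintype.card_fin] at this
      exact_mod_cast this
    set S1 := ∑ j : Fin 7, ‖Pt (Y + ((j : ℕ) - 3 : ℝ) / 2) k‖ with hS1
    have hS10 : 0 ≤ S1 := sum_nonneg fun _ _ => norm_nonneg _
    calc ‖TF (SPr Y) (xP Y) (fun p : ℕ => Real.log p) k‖ ^ 2 ≤ (S1 + E) ^ 2 := pow_le_pow_left₀ (norm_nonneg _) h1 2
      _ ≤ 8 / 7 * S1 ^ 2 + 8 * E ^ 2 := by nlinarith [sq_nonneg (S1 - 7 * E)]
      _ ≤ _ := by linarith
  refine (sum_le_sum hpt).trans ?_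
  rw [← mul_sum, sum_add_distrib, sum_comm, sum_const, nsmul_eq_mul]
  have hj : ∀ j : Fin 7, ∑ k ∈ L, ‖Pt (Y + ((j : ℕ) - 3 : ℝ) / 2) k‖ ^ 2 ≤ 2 ^ (B + 1) / Y ^ (B + 1) := by
    intro j
    have hj6 : ((j : ℕ) : ℝ) ≤ 6 := by
      have : (j : ℕ) ≤ 6 := by omega
      exact_mod_cast this
    have hj0 : (0 : ℝ) ≤ ((j : ℕ) : ℝ) := Nat.cast_nonneg _
    obtain ⟨V, hV⟩ : ∃ V, V = Y + ((j : ℕ) - 3 : ℝ) / 2 := ⟨_, rfl⟩
    have hV1 : Y - 3 / 2 ≤ V := by rw [hV]; linarith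
    have hV2 : V ≤ Y + 3 / 2 := by rw [hV]; linarith
    rw [← hV]
    have hV0 : 0 < V := by linarith
    refine (hY₀ V (by linarith) L (hL1.trans (Real.exp_le_exp.2 ?_)) ?_).trans ?_
    · nlinarith
    · intro k hk
      obtain ⟨q1, q2⟩ := hL2 k hk
      constructor
      · refine le_trans ?_ q1
        calc V ^ b₀ ≤ (2 * Y) ^ b₀ := pow_le_pow_left₀ hV0.le (by linarith) _
          _ = 2 ^ b₀ * Y ^ b₀ := mul_pow _ _ _
          _ ≤ Y * Y ^ b₀ := mul_le_mul_of_nonneg_right g3' (by positivity)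
          _ = Y ^ (b₀ + 1) := by ring
      · refine q2.trans ?_
        have h10 : Real.exp (3 / 2) ≤ 10 := by
          have h0 : Real.exp (3 / 2 : ℝ) ^ 2 = Real.exp 1 ^ 3 := by
            rw [← Real.exp_nat_mul, ← Real.exp_nat_mul]; norm_num
          have h1 := Real.exp_one_lt_d9
          have h2 : Real.exp 1 ^ 3 ≤ 3 ^ 3 := pow_le_pow_left₀ (Real.exp_pos _).le (by linarith) 3
          have h3 := Real.exp_pos (3 / 2 : ℝ)
          nlinarith
        calc Real.exp Y = Real.exp (3 / 2) * Real.exp (Y - 3 / 2) := by rw [← Real.exp_add]; congr 1; ring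
          _ ≤ 10 * Real.exp V := mul_le_mul h10 (Real.exp_le_exp.2 hV1) (Real.exp_pos _).le (by norm_num)
    · rw [div_le_div_iff₀ (by positivity) (by positivity), one_mul, ← mul_pow]
      exact pow_le_pow_left₀ hY0.le (by linarith) _
  have h1 : ∑ j : Fin 7, ∑ k ∈ L, ‖Pt (Y + ((j : ℕ) - 3 : ℝ) / 2) k‖ ^ 2 ≤ 7 * (2 ^ (B + 1) / Y ^ (B + 1)) := by
    refine (sum_le_sum fun j _ => hj j).trans (le_of_eq ?_)
    rw [sum_const, card_univ, Fintype.card_fin, nsmul_eq_mul]; norm_num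
  have h2 : 8 * (7 * (2 ^ (B + 1) / Y ^ (B + 1))) ≤ 1 / 2 * (1 / Y ^ B) := by
    calc 8 * (7 * (2 ^ (B + 1) / Y ^ (B + 1))) = (8 * 7 * 2 ^ (B + 1) * 2) / Y * (1 / 2 * (1 / Y ^ B)) := by
          rw [pow_succ Y B]; field_simp
      _ ≤ 1 * (1 / 2 * (1 / Y ^ B)) := by
          apply mul_le_mul_of_nonneg_right _ (by positivity)
          rw [div_le_one hY0]; exact g4
      _ = _ := one_mul _
  have h3 : 8 * ((L.card : ℝ) * E ^ 2) ≤ 1 / 2 * (1 / Y ^ B) := by
    have hL3 : (L.card : ℝ) ≤ Real.exp (1 / 2 * Y) := hL1.trans (Real.exp_le_exp.2 (mul_le_mul_of_nonneg_right (by linarith) hY0.le))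
    have hE2 : E ≤ 6 * Real.exp 3 * 2 * Y * Real.exp (-(Y / 2)) := by
      rw [hE]
      apply mul_le_mul_of_nonneg_right _ (Real.exp_pos _).le
      have : 0 < Real.exp 3 := Real.exp_pos 3
      nlinarith
    have he : Real.exp (1 / 2 * Y) * Real.exp (-(Y / 2)) ^ 2 * Real.exp (1 / 4 * Y) ≤ 1 := by
      rw [← Real.exp_nat_mul, ← Real.exp_add, ← Real.exp_add, Real.exp_le_one_iff]
      push_cast
      linarith
    have hYB : 0 < Y ^ B := by positivity
    rw [mul_one_div, le_div_iff₀ hYB]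
    calc 8 * ((L.card : ℝ) * E ^ 2) * Y ^ B ≤ 8 * (Real.exp (1 / 2 * Y) * (6 * Real.exp 3 * 2 * Y * Real.exp (-(Y / 2))) ^ 2) * Y ^ B := by
          gcongr
      _ = 1 / 2 * ((2 * 8 * (6 * Real.exp 3 * 2) ^ 2) * Y ^ (B + 2)) * (Real.exp (1 / 2 * Y) * Real.exp (-(Y / 2)) ^ 2) := by ring
      _ ≤ 1 / 2 * Real.exp (1 / 4 * Y) * (Real.exp (1 / 2 * Y) * Real.exp (-(Y / 2)) ^ 2) := by gcongr
      _ = 1 / 2 * (Real.exp (1 / 2 * Y) * Real.exp (-(Y / 2)) ^ 2 * Real.exp (1 / 4 * Y)) := by ring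
      _ ≤ 1 / 2 * 1 := by linarith
      _ = 1 / 2 := by norm_num
  linarith

end Pool.Agent.J4H33
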