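import Pool.Agent.J4H33.Blk1
import Pool.Agent.J4H33.KL5

/-!
# The block theorem with a bilinear energy bound, II
-/

set_option autoImplicit false

namespace Pool.Agent.J4H33

open Finset Filter MeasureTheory intervalIntegral
open Pool.Agent.H376R2.MR (Fj FK ch Fj_nonneg Fj_le ls_norm_ch)
open Pool.Agent.Y851.PS
open Pool.Agent.Y851.PT

open Classical in
/-- **Trilinear counts in windows.** -/
theorem tri_win2 {γ ι : Type} (A : Finset ℕ) (C : Finset γ) (m : γ → ℝ) (S : Finset ι) (x l : ι → ℝ) (hx : ∀ i ∈ S, 0 ≤ x i)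
    (K : ℕ) (hK : 1 ≤ K) (h r P F₀ : ℝ) (hF₀ : 0 ≤ F₀)
    (hFS : ∀ s : ℝ, |s| ≤ 3 * r → |FS A C m S x l K s - 2 * Real.pi * (A.card * C.card)| ≤ 2 * Real.pi * F₀)
    (hh : 0 < h) (hh1 : h ≤ 1 / 2) (hKh : 1 ≤ K * h) (hr : 2 * h ≤ r) (hKr : 1 ≤ K * r)
    (hP : ∑ i ∈ S, x i ≤ P) (hv : ∀ a ∈ A, ∀ c ∈ C, ∀ i ∈ S, |l i - (Real.log a + m c)| ≤ 3) :
    |Sh A C m S x l h / h - A.card * C.card| ≤
      F₀ + 14 * (2600 + 112 * Real.log (3 * (K * h) + 3)) / (K * h) * (A.card * C.card + F₀) + 30 * P / (K * r ^ 2) * (A.card * C.card) := by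
  classical
  have hK0 : (0 : ℝ) < K := by exact_mod_cast hK
  have hpi := Real.pi_gt_d2
  have hpi2 := Real.pi_lt_d2
  have hpi0 := Real.pi_pos
  set D : ℝ := A.card * C.card with hD
  have hD0 : 0 ≤ D := by rw [hD]; exact mul_nonneg (Nat.cast_nonneg _) (Nat.cast_nonneg _)
  set F : Finset (ℕ × γ × ι) := A ×ˢ (C ×ˢ S) with hF
  set x' : ℕ × γ × ι → ℝ := fun t => x t.2.2 with hx'
  set l' : ℕ × γ × ι → ℝ := fun t => l t.2.2 - Real.log t.1 - m t.2.1 with hl'
  have hmem : ∀ t ∈ F, t.1 ∈ A ∧ t.2.1 ∈ C ∧ t.2.2 ∈ S := by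
    intro t ht
    rw [hF, mem_product, mem_product] at ht
    exact ht
  have hx0 : ∀ t ∈ F, 0 ≤ x' t := fun t ht => hx _ (hmem t ht).2.2
  have hsum3 : ∀ f : ℕ → γ → ι → ℝ, ∑ t ∈ F, f t.1 t.2.1 t.2.2 = ∑ a ∈ A, ∑ c ∈ C, ∑ i ∈ S, f a c i := by
    intro f
    rw [hF, sum_product]
    apply sum_congr rfl
    intro a _
    rw [sum_product]
  have hPtot : ∑ t ∈ F, x' t ≤ D * P := by
    rw [hsum3 (fun _ _ i => x i)]
    simp_rw [sum_const, nsmul_eq_mul]
    rw [hD]
    calc (A.card : ℝ) * (C.card * ∑ i ∈ S, x i) ≤ A.card * (C.card * P) := by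
          apply mul_le_mul_of_nonneg_left _ (Nat.cast_nonneg _)
          exact mul_le_mul_of_nonneg_left hP (Nat.cast_nonneg _)
      _ = _ := by ring
  -- cells
  have hcell : ∀ u : ℝ, |u - 0| ≤ 2 * r → ∑ t ∈ F.filter (fun t => u ≤ l' t ∧ l' t < u + 1 / K), x' t ≤ (14 * (D + F₀)) / K := by
    intro u hu
    rw [sub_zero] at hu
    have h1K : 1 / (K : ℝ) ≤ r := by rw [div_le_iff₀ hK0]; linarith
    have hs : |-(u + 1 / (2 * K))| ≤ 3 * r := by
      rw [abs_neg]
      have e : 1 / (2 * (K : ℝ)) = 1 / K / 2 := by field_simp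
      have h2 := abs_add_le u (1 / (2 * (K : ℝ)))
      have h3 : |1 / (2 * (K : ℝ))| = 1 / (2 * K) := abs_of_pos (by positivity)
      rw [h3, e] at h2
      rw [e]
      linarith
    have h1 := (abs_le.1 (hFS _ hs)).2
    have h2 : FS A C m S x l K (-(u + 1 / (2 * K))) = ∑ t ∈ F, x' t * Fj K (l' t - (u + 1 / (2 * K))) := by
      rw [hsum3 (fun a c i => x i * Fj K ((l i - Real.log a - m c) - (u + 1 / (2 * K))))]
      unfold FS
      apply sum_congr rfl; intro a _
      apply sum_congr rfl; intro c _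
      apply sum_congr rfl; intro i _
      rfl
    have h3 : ∑ t ∈ F.filter (fun t => u ≤ l' t ∧ l' t < u + 1 / K), x' t * (K / 2) ≤ FS A C m S x l K (-(u + 1 / (2 * K))) := by
      rw [h2]
      calc ∑ t ∈ F.filter (fun t => u ≤ l' t ∧ l' t < u + 1 / K), x' t * (K / 2)
          ≤ ∑ t ∈ F.filter (fun t => u ≤ l' t ∧ l' t < u + 1 / K), x' t * Fj K (l' t - (u + 1 / (2 * K))) := by
            apply sum_le_sum
            intro t ht
            rw [mem_filter] at ht
            apply mul_le_mul_of_nonneg_left _ (hx0 t ht.1)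
            apply Fj_near hK
            have e : 1 / (2 * (K : ℝ)) = 1 / K / 2 := by field_simp
            rw [abs_le, e]
            constructor <;> linarith [ht.2.1, ht.2.2]
        _ ≤ _ := by
            apply sum_le_sum_of_subset_of_nonneg (filter_subset _ _)
            intro t ht _
            exact mul_nonneg (hx0 t ht) (Fj_nonneg K _)
    rw [← sum_mul] at h3
    have h4 : FS A C m S x l K (-(u + 1 / (2 * K))) ≤ 7 * (D + F₀) := by
      have h5 : 2 * Real.pi * (D + F₀) ≤ 7 * (D + F₀) := mul_le_mul_of_nonneg_right (by linarith) (by positivity)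
      linarith
    rw [le_div_iff₀ hK0]
    linarith
  have hw := win_err2 F x' l' hx0 K hK (14 * (D + F₀)) 0 h r (D * P) hcell (by positivity) hh hh1 hKh hr hKr hPtot (by
    intro t ht
    obtain ⟨h1, h2, h3⟩ := hmem t ht
    have := hv _ h1 _ h2 _ h3
    rw [hl', sub_zero]
    have e : l t.2.2 - Real.log t.1 - m t.2.1 = l t.2.2 - (Real.log t.1 + m t.2.1) := by ring
    simp only
    rw [e]; exact this)
  -- identification
  have e1 : ∑ t ∈ F.filter (fun t => 0 - h < l' t ∧ l' t < 0), x' t = Sh A C m S x l h := by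
    rw [sum_filter]
    have h1 := hsum3 (fun a c i => if (0 - h < l i - Real.log a - m c ∧ l i - Real.log a - m c < 0) then x i else 0)
    rw [h1]
    unfold Sh
    apply sum_congr rfl; intro a _
    apply sum_congr rfl; intro c _
    rw [sum_filter]
    apply sum_congr rfl; intro i _
    by_cases hc : Real.log a + m c - h < l i ∧ l i < Real.log a + m c
    · rw [if_pos hc, if_pos ⟨by linarith [hc.1], by linarith [hc.2]⟩]
    · rw [if_neg hc, if_neg (fun h3 => hc ⟨by linarith [h3.1], by linarith [h3.2]⟩)]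
  have e2 : ∑ t ∈ F, x' t * Psi K h (l' t - 0) = (2 * Real.pi)⁻¹ * ∫ s in (0 : ℝ)..h, FS A C m S x l K s := by
    have h1 : ∀ s : ℝ, FS A C m S x l K s = ∑ t ∈ F, x' t * Fj K (l' t + s) := by
      intro s
      rw [hsum3 (fun a c i => x i * Fj K ((l i - Real.log a - m c) + s))]
      rfl
    simp_rw [h1]
    rw [intervalIntegral.integral_finsetSum]
    · rw [mul_sum]
      apply sum_congr rfl
      intro t _
      rw [intervalIntegral.integral_const_mul, sub_zero]
      unfold Psi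
      ring
    · intro t _
      apply Continuous.intervalIntegrable
      have := Fj_cont K
      fun_prop
  rw [e1, e2] at hw
  -- the integral
  have hint : |(2 * Real.pi)⁻¹ * (∫ s in (0 : ℝ)..h, FS A C m S x l K s) - h * D| ≤ h * F₀ := by
    have hc := FS_cont A C m S x l K
    have e3 : (2 * Real.pi)⁻¹ * (∫ s in (0 : ℝ)..h, FS A C m S x l K s) - h * D =
        (2 * Real.pi)⁻¹ * ∫ s in (0 : ℝ)..h, (FS A C m S x l K s - 2 * Real.pi * D) := by
      rw [intervalIntegral.integral_sub (hc.intervalIntegrable _ _) (by simp), intervalIntegral.integral_const, smul_eq_mul]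
      field_simp
      ring
    rw [e3, abs_mul, abs_of_pos (by positivity)]
    have h1 := intervalIntegral.norm_integral_le_of_norm_le_const (a := (0 : ℝ)) (b := h) (C := 2 * Real.pi * F₀)
      (f := fun s => FS A C m S x l K s - 2 * Real.pi * D) (by
      intro s hs
      rw [Set.uIoc_of_le hh.le] at hs
      rw [Real.norm_eq_abs]
      apply hFS
      rw [abs_of_pos hs.1]
      linarith [hs.2])
    rw [Real.norm_eq_abs, sub_zero, abs_of_pos hh] at h1
    calc (2 * Real.pi)⁻¹ * |∫ s in (0 : ℝ)..h, (FS A C m S x l K s - 2 * Real.pi * D)| ≤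
          (2 * Real.pi)⁻¹ * (2 * Real.pi * F₀ * h) := by gcongr
      _ = _ := by field_simp
  have e4 : Sh A C m S x l h / h - D = ((Sh A C m S x l h - (2 * Real.pi)⁻¹ * ∫ s in (0 : ℝ)..h, FS A C m S x l K s) +
      ((2 * Real.pi)⁻¹ * (∫ s in (0 : ℝ)..h, FS A C m S x l K s) - h * D)) / h := by
    field_simp
    ring
  rw [e4, abs_div, abs_of_pos hh, div_le_iff₀ hh]
  refine (abs_add_le _ _).trans ((add_le_add hw hint).trans (le_of_eq ?_))
  field_simp
  ring

end Pool.Agent.J4H33
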