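import Pool.Agent.Q211.KS.Near
import Pool.Agent.H376R2.MR.Mv

/-!
# Primes at sparse sets of frequencies, I: the products of ten factors

For a set `L` of at most `e^{cY}` integer frequencies `k`, `Y^b ≤ |k| ≤ 2 e^Y`, the products of Heath-Brown's identity satisfy
`∑_{k ∈ L} |EE(k)|² ≤ Y^{-B}`.
-/

set_option autoImplicit false

namespace Pool.Agent.J4H33

open Finset Filter Pool.Agent.H376R2.MR Pool.Agent.Q240.KS Pool.Agent.Q211.KS

/-- `∑ 1/k²` over large integers -/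
theorem sum_inv_sq_large (L : Finset ℤ) (D : ℕ) (hD : 1 ≤ D) (hL : ∀ k ∈ L, (D : ℤ) < |k|) :
    ∑ k ∈ L, 1 / (k : ℝ) ^ 2 ≤ 2 / (D : ℝ) := by
  classical
  have hmaps : ∀ k ∈ L, k.natAbs ∈ L.image Int.natAbs := fun k hk => mem_image_of_mem _ hk
  rw [← Finset.sum_fiberwise_of_maps_to hmaps]
  have h1 : ∀ j ∈ L.image Int.natAbs, ∑ k ∈ L.filter (fun k => k.natAbs = j), 1 / (k : ℝ) ^ 2 ≤ 2 * (1 / (j : ℝ) ^ 2) := by
    intro j _
    have h2 : ∀ k ∈ L.filter (fun k => k.natAbs = j), 1 / (k : ℝ) ^ 2 = 1 / (j : ℝ) ^ 2 := by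
      intro k hk
      rw [mem_filter] at hk
      have h3 : ((k.natAbs : ℕ) : ℝ) = |(k : ℝ)| := by
        rw [Nat.cast_natAbs]; push_cast; rfl
      rw [← hk.2, h3, sq_abs]
    rw [sum_congr rfl h2, sum_const, nsmul_eq_mul]
    apply mul_le_mul_of_nonneg_right _ (by positivity)
    have h4 : L.filter (fun k => k.natAbs = j) ⊆ {(j : ℤ), -(j : ℤ)} := by
      intro k hk
      rw [mem_filter] at hk
      rw [mem_insert, mem_singleton]
      omega
    have h5 := card_le_card h4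
    have h6 : ({(j : ℤ), -(j : ℤ)} : Finset ℤ).card ≤ 2 := card_le_two
    exact_mod_cast h5.trans h6
  refine (sum_le_sum h1).trans ?_
  rw [← mul_sum]
  have h2 := mv_sum_inv_sq (L.image Int.natAbs) D hD (by
    intro j hj
    rw [mem_image] at hj
    obtain ⟨k, hk, rfl⟩ := hj
    have := hL k hk
    rw [Int.abs_eq_natAbs] at this
    exact_mod_cast this)
  calc 2 * ∑ j ∈ L.image Int.natAbs, 1 / (j : ℝ) ^ 2 ≤ 2 * (1 / (D : ℝ)) := by linarith
    _ = 2 / D := by ring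

/-- polynomials against exponentials -/
theorem ev_poly_exp (n : ℕ) (a D : ℝ) (ha : 0 < a) : ∀ᶠ Y : ℝ in atTop, D * Y ^ n ≤ Real.exp (a * Y) := by
  have h1 := Real.tendsto_pow_mul_exp_neg_atTop_nhds_zero n
  have h2 : Tendsto (fun Y : ℝ => a * Y) atTop atTop := tendsto_id.const_mul_atTop ha
  have h3 := (h1.comp h2).eventually (gt_mem_nhds (show (0 : ℝ) < a ^ n / (|D| + 1) by positivity))
  filter_upwards [h3, eventually_gt_atTop 0] with Y hY hY0
  simp only [Function.comp] at hY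
  rw [lt_div_iff₀ (by positivity), mul_pow] at hY
  have h4 : Real.exp (-(a * Y)) * Real.exp (a * Y) = 1 := by
    rw [← Real.exp_add]; simp
  have h5 : 0 < a ^ n := by positivity
  have h6 : 0 < Real.exp (a * Y) := Real.exp_pos _
  have h7 : a ^ n * ((|D| + 1) * Y ^ n) ≤ a ^ n * Real.exp (a * Y) := by
    calc a ^ n * ((|D| + 1) * Y ^ n) = (a ^ n * Y ^ n * Real.exp (-(a * Y)) * (|D| + 1)) * Real.exp (a * Y) := by
          have : a ^ n * Y ^ n * Real.exp (-(a * Y)) * (|D| + 1) * Real.exp (a * Y) =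
            a ^ n * Y ^ n * (|D| + 1) * (Real.exp (-(a * Y)) * Real.exp (a * Y)) := by ring
          rw [this, h4]; ring
      _ ≤ a ^ n * Real.exp (a * Y) := mul_le_mul_of_nonneg_right hY.le h6.le
  have h8 := le_of_mul_le_mul_left h7 h5
  refine le_trans ?_ h8
  apply mul_le_mul_of_nonneg_right _ (by positivity)
  linarith [le_abs_self D]

theorem norm_EE_le (z : ℕ) (d : Fin 10 → ℕ) (k : ℤ) (b : Fin 10 → ℝ) (hb : ∀ i, ‖PF z (ty i) (d i) k‖ ≤ b i) :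
    ‖EE z d k‖ ≤ ∏ i, b i := by
  unfold EE
  rw [norm_prod]
  exact Finset.prod_le_prod (fun i _ => norm_nonneg _) fun i _ => hb i

/-- the smooth factors are small when they are long -/
theorem case_smooth (htri : S_TRI) (hsbv : S_SBV) : ∃ (D η : ℝ), 1 ≤ D ∧ 0 < η ∧ η ≤ 1 ∧ ∀ Y : ℝ, 400 ≤ Y → ∀ d ∈ DY Y,
    ∀ i₀ : Fin 10, 5 ≤ (i₀ : ℕ) → Y / 100 ≤ (d i₀ : ℝ) → ∀ k : ℤ, k ≠ 0 → |(k : ℝ)| ≤ 20 * Real.exp Y →
    ‖EE (zY Y) d k‖ ≤ D * Y ^ 2 * (1 / |(k : ℝ)| + Real.exp (-(η * Y))) := by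
  obtain ⟨C, η, hC, hη, hη2, hs⟩ := hsbv 4000
  refine ⟨2 ^ 9 * 50 * (50 * C), η / 2000, by nlinarith, by positivity, by linarith, ?_⟩
  intro Y hY d hd i₀ hi₀ hdi k hk0 hkY
  have hY0 : 0 < Y := by linarith
  unfold DY at hd
  rw [Finset.mem_filter, Fintype.mem_piFinset] at hd
  obtain ⟨hd1, hd2⟩ := hd
  have hdu : ∀ i, (d i : ℝ) ≤ 20 * (Y + 1) := by
    intro i
    have h1 := Finset.mem_range.1 (hd1 i)
    have h2 : d i ≤ ⌊20 * (Y + 1)⌋₊ := by omega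
    exact (Nat.cast_le.2 h2).trans (Nat.floor_le (by linarith))
  have hty : ty i₀ ≠ 0 := by
    unfold ty
    rw [if_neg (by omega)]
    split_ifs <;> decide
  have hkle : |(k : ℝ)| ≤ Real.exp ((4000 : ℕ) * (d i₀ : ℝ) / 20) := by
    refine hkY.trans ?_
    have h1 : (20 : ℝ) ≤ Real.exp 3 := by
      have h0 := Real.exp_one_gt_d9
      have h2 : Real.exp 3 = Real.exp 1 ^ 3 := by rw [← Real.exp_nat_mul]; norm_num
      rw [h2]
      calc (20 : ℝ) ≤ 2.7182818283 ^ 3 := by norm_num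
        _ ≤ Real.exp 1 ^ 3 := pow_le_pow_left₀ (by norm_num) h0.le 3
    calc 20 * Real.exp Y ≤ Real.exp 3 * Real.exp Y := mul_le_mul_of_nonneg_right h1 (Real.exp_pos _).le
      _ = Real.exp (3 + Y) := (Real.exp_add _ _).symm
      _ ≤ _ := by
        apply Real.exp_le_exp.2
        push_cast
        linarith
  have h1 := hs (zY Y) (ty i₀) (d i₀) k hty hk0 hkle
  have hk1 : (0 : ℝ) < |(k : ℝ)| := abs_pos.2 (by exact_mod_cast hk0)
  have h2 : ‖PF (zY Y) (ty i₀) (d i₀) k‖ ≤ 50 * C * Y * (1 / |(k : ℝ)| + Real.exp (-(η / 2000 * Y))) := by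
    refine h1.trans ?_
    have h3 : 1 + (d i₀ : ℝ) ≤ 50 * Y := by linarith [hdu i₀]
    have h4 : Real.exp (-(η * d i₀ / 20)) ≤ Real.exp (-(η / 2000 * Y)) := by
      apply Real.exp_le_exp.2
      have h7 : η * (Y / 100) ≤ η * d i₀ := mul_le_mul_of_nonneg_left hdi hη.le
      linarith
    calc C * (1 + (d i₀ : ℝ)) * (1 / |(k : ℝ)| + Real.exp (-(η * d i₀ / 20)))
        ≤ C * (50 * Y) * (1 / |(k : ℝ)| + Real.exp (-(η / 2000 * Y))) := by gcongr
      _ = _ := by ring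
  set P0 := ‖PF (zY Y) (ty i₀) (d i₀) k‖ with hP0
  have hb : ∀ i : Fin 10, ‖PF (zY Y) (ty i) (d i) k‖ ≤ if i = i₀ then P0 else (if i = 9 then 50 * Y else 2) := by
    intro i
    split_ifs with h3 h4
    · rw [h3]
    · rw [h4]
      have h5 := (htri (zY Y) (ty 9) (d 9) k).1
      linarith [hdu 9]
    · apply (htri (zY Y) (ty i) (d i) k).2.1
      unfold ty
      have h6 : (i : ℕ) < 10 := i.2
      have h7 : (i : ℕ) ≠ 9 := fun h => h4 (Fin.ext h)
      split_ifs <;> first | decide | omega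
  have h3 := norm_EE_le (zY Y) d k _ hb
  refine h3.trans ?_
  have h4 : ∏ i : Fin 10, (if i = i₀ then P0 else (if i = 9 then 50 * Y else 2)) ≤ P0 * (2 ^ 9 * (50 * Y)) := by
    rw [← Finset.mul_prod_erase univ _ (mem_univ i₀), if_pos rfl]
    apply mul_le_mul_of_nonneg_left _ (norm_nonneg _)
    have h5 : ∏ i ∈ univ.erase i₀, (if i = i₀ then P0 else (if i = 9 then 50 * Y else 2)) ≤
        ∏ i ∈ univ.erase i₀, (2 * (if i = 9 then 25 * Y else 1)) := by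
      apply Finset.prod_le_prod
      · intro i _
        split_ifs <;> positivity
      · intro i hi
        rw [mem_erase] at hi
        rw [if_neg hi.1]
        split_ifs <;> linarith
    refine h5.trans ?_
    rw [Finset.prod_mul_distrib, prod_const, card_erase_of_mem (mem_univ _), card_univ, Fintype.card_fin]
    have h6 : ∏ i ∈ univ.erase i₀, (if i = (9 : Fin 10) then 25 * Y else 1) ≤ 25 * Y := by
      rw [Finset.prod_ite_eq']
      split_ifs
      · exact le_rfl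
      · linarith
    have h7 : (0 : ℝ) ≤ 2 ^ (10 - 1) := by positivity
    calc (2 : ℝ) ^ (10 - 1) * ∏ i ∈ univ.erase i₀, (if i = (9 : Fin 10) then 25 * Y else 1) ≤ 2 ^ (10 - 1) * (25 * Y) :=
          mul_le_mul_of_nonneg_left h6 h7
      _ ≤ 2 ^ 9 * (50 * Y) := by norm_num; linarith
  refine h4.trans ?_
  calc P0 * (2 ^ 9 * (50 * Y)) ≤ (50 * C * Y * (1 / |(k : ℝ)| + Real.exp (-(η / 2000 * Y)))) * (2 ^ 9 * (50 * Y)) :=
        mul_le_mul_of_nonneg_right h2 (by positivity)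
    _ = _ := by ring

/-- the case of long Moebius factors -/
theorem case_mob (htri : S_TRI) (hkerv : S_KERV) (hhmg : S_HMG) (hmb : S_MB) : ∃ (η : ℝ), 0 < η ∧ η ≤ 1 ∧
    ∀ B : ℕ, ∃ D : ℝ, 0 ≤ D ∧ ∀ Y : ℝ, 400 ≤ Y → ∀ d ∈ DY Y, (∀ i : Fin 10, 5 ≤ (i : ℕ) → (d i : ℝ) < Y / 100) →
    ∀ L : Finset ℤ, (L.card : ℝ) ≤ Real.exp (η * Y) → (∀ k ∈ L, |(k : ℝ)| ≤ 20 * Real.exp Y) →
    ∑ k ∈ L, ‖EE (zY Y) d k‖ ^ 2 ≤ D * (Y / Y ^ B) ^ 2 := by
  classical
  obtain ⟨C', η', hC', hη', hη'2, hk⟩ := hkerv 6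
  refine ⟨0.19 * η', by positivity, by linarith, fun B => ?_⟩
  obtain ⟨C₃, hC₃, hm⟩ := hmb 6 B
  refine ⟨12 * C' * (C₃ * 6400) ^ 2, by positivity, ?_⟩
  intro Y hY d hd h5 L hcard hL
  have hY0 : 0 < Y := by linarith
  have hRHS : 0 ≤ 12 * C' * (C₃ * 6400) ^ 2 * (Y / Y ^ B) ^ 2 := by positivity
  unfold DY at hd
  rw [Finset.mem_filter, Fintype.mem_piFinset] at hd
  obtain ⟨hd1, hd2⟩ := hd
  have hdu : ∀ i, (d i : ℝ) ≤ 20 * (Y + 1) := by
    intro i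
    have h1 := Finset.mem_range.1 (hd1 i)
    have h2 : d i ≤ ⌊20 * (Y + 1)⌋₊ := by omega
    exact (Nat.cast_le.2 h2).trans (Nat.floor_le (by linarith))
  by_cases h4 : ∀ i : Fin 10, (i : ℕ) < 5 → (d i : ℝ) < 4 * Y + 9
  swap
  · push Not at h4
    obtain ⟨i, hi, hdi⟩ := h4
    have hz : ∀ k ∈ L, ‖EE (zY Y) d k‖ ^ 2 = 0 := by
      intro k _
      have hty : ty i = 0 := by
        unfold ty
        rw [if_pos hi]
      have h6 : PF (zY Y) (ty i) (d i) k = 0 := by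
        rw [hty]
        by_contra hc
        have := mob_short hc
        linarith
      have h7 : EE (zY Y) d k = 0 := by
        unfold EE
        exact Finset.prod_eq_zero (mem_univ i) h6
      rw [h7, norm_zero]; norm_num
    rw [sum_congr rfl hz, sum_const_zero]
    exact hRHS
  have h3 : ∀ j : Fin 10, (j : ℕ) < 5 → 3.8 * Y ≤ (d j : ℝ) := by
    intro j hj
    have h1 : ∑ i, (d i : ℝ) = d j + ∑ i ∈ univ.erase j, (d i : ℝ) :=
      (Finset.add_sum_erase univ (fun i => (d i : ℝ)) (Finset.mem_univ j)).symm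
    have h2 : ∑ i ∈ univ.erase j, (d i : ℝ) ≤
        ∑ i ∈ univ.erase j, (if (i : ℕ) < 5 then 4 * Y + 9 else Y / 100) := by
      refine Finset.sum_le_sum fun i _ => ?_
      split_ifs with hi
      · exact (h4 i hi).le
      · exact (h5 i (by omega)).le
    have h6 : ∑ i : Fin 10, (if (i : ℕ) < 5 then 4 * Y + 9 else Y / 100) =
        (4 * Y + 9) + ∑ i ∈ univ.erase j, (if (i : ℕ) < 5 then 4 * Y + 9 else Y / 100) := by
      rw [← Finset.add_sum_erase univ _ (Finset.mem_univ j), if_pos hj]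
    have h7 : ∑ i : Fin 10, (if (i : ℕ) < 5 then 4 * Y + 9 else Y / 100) =
        5 * (4 * Y + 9) + 5 * (Y / 100) := by
      simp only [Fin.sum_univ_succ, Fin.val_succ, Fin.val_zero]
      norm_num
      ring
    have h8 := (abs_le.1 hd2).1
    linarith
  have he1 : (40 : ℝ) ≤ Real.exp (0.14 * Y) := by
    have := Real.add_one_le_exp (0.14 * Y)
    linarith
  -- mean squares
  have hms : ∑ k ∈ L, ‖PF (zY Y) (ty 0) (d 0) k‖ ^ 2 ≤ 12 * C' := by
    have hty : ty 0 ≠ 2 := by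
      unfold ty
      rw [if_pos (by norm_num)]
      decide
    have hdi := h3 0 (by norm_num)
    apply sq_sum hC' hhmg htri hty
    have hN := hk (Real.exp ((d 0 : ℝ) / 20)) (Real.one_le_exp (by positivity))
    apply row_le (R := Real.exp ((d 0 : ℝ) / 20) ^ (-η')) hC' hN.1
    · intro k hk' l hl' hkl
      apply hN.2 (k - l) (sub_ne_zero.2 hkl)
      have h1 : |(((k - l : ℤ)) : ℝ)| ≤ |(k : ℝ)| + |(l : ℝ)| := by
        push_cast
        exact abs_sub _ _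
      rw [← Real.exp_nat_mul]
      have h2 : Real.exp (1.14 * Y) ≤ Real.exp (((6 : ℕ) : ℝ) * ((d 0 : ℝ) / 20)) := by
        apply Real.exp_le_exp.2
        push_cast
        linarith
      have h6 : Real.exp (1.14 * Y) = Real.exp (0.14 * Y) * Real.exp Y := by
        rw [← Real.exp_add]
        congr 1
        ring
      have h7 : 40 * Real.exp Y ≤ Real.exp (0.14 * Y) * Real.exp Y :=
        mul_le_mul_of_nonneg_right he1 (Real.exp_pos _).le
      linarith [hL k hk', hL l hl']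
    · positivity
    · have h1 : Real.exp ((d 0 : ℝ) / 20) ^ (-η') ≤ Real.exp (-(0.19 * η' * Y)) := by
        rw [← Real.exp_mul]
        apply Real.exp_le_exp.2
        have h6 : 0.19 * Y * η' ≤ (d 0 : ℝ) / 20 * η' := mul_le_mul_of_nonneg_right (by linarith) hη'.le
        linarith
      calc (L.card : ℝ) * Real.exp ((d 0 : ℝ) / 20) ^ (-η')
          ≤ Real.exp (0.19 * η' * Y) * Real.exp (-(0.19 * η' * Y)) :=
            mul_le_mul hcard h1 (by positivity) (Real.exp_pos _).le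
        _ = 1 := by
            rw [← Real.exp_add]
            simp
  -- pointwise
  have hEE : ∀ k ∈ L, ‖EE (zY Y) d k‖ ^ 2 ≤ (C₃ * 6400 * (Y / Y ^ B)) ^ 2 * ‖PF (zY Y) (ty 0) (d 0) k‖ ^ 2 := by
    intro k hk'
    have hb : ∀ i : Fin 10, ‖PF (zY Y) (ty i) (d i) k‖ ≤
        (![‖PF (zY Y) (ty 0) (d 0) k‖, C₃ / Y ^ B, 2, 2, 2, 2, 2, 2, 2,
          50 * Y] : Fin 10 → ℝ) i := by
      have hT : ∀ i : Fin 10, ty i ≠ 2 → ‖PF (zY Y) (ty i) (d i) k‖ ≤ 2 := fun i hi =>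
        (htri (zY Y) (ty i) (d i) k).2.1 hi
      have h2' : ‖PF (zY Y) (ty 1) (d 1) k‖ ≤ C₃ / Y ^ B := by
        have hd2' := h3 1 (by norm_num)
        have h1 := hm (zY Y) (d 1) k (by
          refine (hL k hk').trans ?_
          have h6 : Real.exp (1.14 * Y) = Real.exp (0.14 * Y) * Real.exp Y := by
            rw [← Real.exp_add]
            congr 1
            ring
          have h7 : 40 * Real.exp Y ≤ Real.exp (0.14 * Y) * Real.exp Y :=
            mul_le_mul_of_nonneg_right he1 (Real.exp_pos _).le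
          have h8 : Real.exp (1.14 * Y) ≤ Real.exp (((6 : ℕ) : ℝ) * (d 1 : ℝ) / 20) := by
            apply Real.exp_le_exp.2
            push_cast
            linarith
          have h9 := Real.exp_pos Y
          linarith)
        have h6 : ty 1 = 0 := by
          unfold ty
          rw [if_pos (by norm_num)]
        rw [h6]
        refine h1.trans ?_
        apply div_le_div_of_nonneg_left (by linarith) (by positivity)
        exact pow_le_pow_left₀ hY0.le (by linarith) _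
      have h9' : ‖PF (zY Y) (ty 9) (d 9) k‖ ≤ 50 * Y := by
        have h1 := (htri (zY Y) (ty 9) (d 9) k).1
        linarith [hdu 9]
      intro i
      fin_cases i
      · exact le_rfl
      · exact h2'
      · exact hT 2 (by decide)
      · exact hT 3 (by decide)
      · exact hT 4 (by decide)
      · exact hT 5 (by decide)
      · exact hT 6 (by decide)
      · exact hT 7 (by decide)
      · exact hT 8 (by decide)
      · exact h9'
    have h1 := norm_EE_le (zY Y) d k _ hb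
    have h2 : ∏ i : Fin 10, (![‖PF (zY Y) (ty 0) (d 0) k‖, C₃ / Y ^ B, 2, 2, 2, 2, 2, 2, 2,
          50 * Y] : Fin 10 → ℝ) i = C₃ * 6400 * (Y / Y ^ B) * ‖PF (zY Y) (ty 0) (d 0) k‖ := by
      simp [Fin.prod_univ_succ]
      ring
    rw [h2] at h1
    calc ‖EE (zY Y) d k‖ ^ 2 ≤ (C₃ * 6400 * (Y / Y ^ B) * ‖PF (zY Y) (ty 0) (d 0) k‖) ^ 2 :=
          pow_le_pow_left₀ (norm_nonneg _) h1 2
      _ = _ := by ring
  refine (sum_le_sum hEE).trans ?_
  rw [← mul_sum]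
  calc (C₃ * 6400 * (Y / Y ^ B)) ^ 2 * ∑ k ∈ L, ‖PF (zY Y) (ty 0) (d 0) k‖ ^ 2 ≤ (C₃ * 6400 * (Y / Y ^ B)) ^ 2 * (12 * C') :=
        mul_le_mul_of_nonneg_left hms (by positivity)
    _ = _ := by ring

/-- sparse frequencies for the products of ten factors, as a property of the exponent `c` -/
def KLE (c : ℝ) : Prop := ∀ B : ℕ, ∃ b : ℕ, ∀ᶠ Y : ℝ in atTop, ∀ d ∈ DY Y, ∀ L : Finset ℤ, (L.card : ℝ) ≤ Real.exp (c * Y) →
  (∀ k ∈ L, Y ^ b ≤ |(k : ℝ)| ∧ |(k : ℝ)| ≤ 20 * Real.exp Y) → ∑ k ∈ L, ‖EE (zY Y) d k‖ ^ 2 ≤ 1 / Y ^ B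

/-- **The products of ten factors at sparse sets of frequencies.** -/
theorem kl1 (htri : S_TRI) (hsbv : S_SBV) (hkerv : S_KERV) (hhmg : S_HMG) (hmb : S_MB) : ∃ c : ℝ, 0 < c ∧ c ≤ 1 ∧
    ∀ B : ℕ, ∃ b : ℕ, ∀ᶠ Y : ℝ in atTop, ∀ d ∈ DY Y, ∀ L : Finset ℤ, (L.card : ℝ) ≤ Real.exp (c * Y) →
      (∀ k ∈ L, Y ^ b ≤ |(k : ℝ)| ∧ |(k : ℝ)| ≤ 20 * Real.exp Y) → ∑ k ∈ L, ‖EE (zY Y) d k‖ ^ 2 ≤ 1 / Y ^ B := by
  classical
  obtain ⟨D, η, hD, hη, hη1, hcs⟩ := case_smooth htri hsbv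
  obtain ⟨η₂, hη₂, hη₂1, hcm⟩ := case_mob htri hkerv hhmg hmb
  refine ⟨min η₂ η, lt_min hη₂ hη, (min_le_right _ _).trans hη1, fun B => ?_⟩
  obtain ⟨D₂, hD₂, hcm'⟩ := hcm (B + 2)
  refine ⟨B + 5, ?_⟩
  filter_upwards [eventually_ge_atTop 400, eventually_ge_atTop (16 * D ^ 2), eventually_ge_atTop D₂,
    ev_poly_exp (B + 4) η (4 * D ^ 2) hη] with Y hY hYD hYD₂ hYe d hd L hcard hL
  have hY0 : 0 < Y := by linarith
  have hY1 : 1 ≤ Y := by linarith
  by_cases h5 : ∀ i : Fin 10, 5 ≤ (i : ℕ) → (d i : ℝ) < Y / 100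
  · have h1 := hcm' Y hY d hd h5 L (hcard.trans (Real.exp_le_exp.2 (mul_le_mul_of_nonneg_right (min_le_left _ _) hY0.le)))
      (fun k hk => (hL k hk).2)
    refine h1.trans ?_
    have h2 : Y / Y ^ (B + 2) = 1 / Y ^ (B + 1) := by
      rw [pow_succ Y (B + 1)]; field_simp
    rw [h2, one_div_pow, mul_one_div, div_le_div_iff₀ (by positivity) (by positivity), one_mul]
    have h3 : (Y ^ (B + 1)) ^ 2 = Y ^ B * (Y ^ (B + 1) * Y) := by ring
    rw [h3]
    have h4 : 1 ≤ Y ^ (B + 1) := one_le_pow₀ hY1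
    have h6 : D₂ ≤ Y ^ (B + 1) * Y := by nlinarith
    have h7 : 0 < Y ^ B := by positivity
    nlinarith
  · push Not at h5
    obtain ⟨i₀, hi₀, hdi⟩ := h5
    have hbY : 1 ≤ Y ^ (B + 5) := one_le_pow₀ hY1
    have hk0 : ∀ k ∈ L, k ≠ 0 := by
      intro k hk hc
      have h1 := (hL k hk).1
      rw [hc] at h1
      simp only [Int.cast_zero, abs_zero] at h1
      linarith
    have h1 : ∀ k ∈ L, ‖EE (zY Y) d k‖ ^ 2 ≤ 2 * D ^ 2 * Y ^ 4 * (1 / (k : ℝ) ^ 2) + 2 * D ^ 2 * Y ^ 4 * Real.exp (-(η * Y)) ^ 2 := by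
      intro k hk
      have h2 := hcs Y hY d hd i₀ hi₀ hdi k (hk0 k hk) (hL k hk).2
      have h3 : ‖EE (zY Y) d k‖ ^ 2 ≤ (D * Y ^ 2 * (1 / |(k : ℝ)| + Real.exp (-(η * Y)))) ^ 2 :=
        pow_le_pow_left₀ (norm_nonneg _) h2 2
      have h4 : (1 / |(k : ℝ)| + Real.exp (-(η * Y))) ^ 2 ≤ 2 * (1 / (k : ℝ) ^ 2) + 2 * Real.exp (-(η * Y)) ^ 2 := by
        have h5 : 1 / (k : ℝ) ^ 2 = (1 / |(k : ℝ)|) ^ 2 := by rw [one_div_pow, sq_abs]
        rw [h5]
        nlinarith [sq_nonneg (1 / |(k : ℝ)| - Real.exp (-(η * Y)))]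
      calc ‖EE (zY Y) d k‖ ^ 2 ≤ (D * Y ^ 2 * (1 / |(k : ℝ)| + Real.exp (-(η * Y)))) ^ 2 := h3
        _ = D ^ 2 * Y ^ 4 * (1 / |(k : ℝ)| + Real.exp (-(η * Y))) ^ 2 := by ring
        _ ≤ D ^ 2 * Y ^ 4 * (2 * (1 / (k : ℝ) ^ 2) + 2 * Real.exp (-(η * Y)) ^ 2) :=
            mul_le_mul_of_nonneg_left h4 (by positivity)
        _ = _ := by ring
    refine (sum_le_sum h1).trans ?_
    rw [sum_add_distrib, ← mul_sum, sum_const, nsmul_eq_mul]
    -- the first sum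
    obtain ⟨D', hD'⟩ : ∃ D' : ℕ, D' = ⌈Y ^ (B + 5)⌉₊ - 1 := ⟨_, rfl⟩
    have hbY2 : 2 ≤ Y ^ (B + 5) := by
      calc (2 : ℝ) ≤ Y := by linarith
        _ = Y ^ 1 := (pow_one Y).symm
        _ ≤ Y ^ (B + 5) := pow_le_pow_right₀ hY1 (by omega)
    have hceil1 : Y ^ (B + 5) ≤ (⌈Y ^ (B + 5)⌉₊ : ℕ) := Nat.le_ceil _
    have hceil2 : 2 ≤ ⌈Y ^ (B + 5)⌉₊ := by
      have : (2 : ℝ) ≤ (⌈Y ^ (B + 5)⌉₊ : ℕ) := hbY2.trans hceil1
      exact_mod_cast this
    have hD'1 : 1 ≤ D' := by omega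
    have hD'2 : Y ^ (B + 5) / 2 ≤ D' := by
      have h6 : ((⌈Y ^ (B + 5)⌉₊ : ℕ) : ℝ) = D' + 1 := by
        have : ⌈Y ^ (B + 5)⌉₊ = D' + 1 := by omega
        rw [this]; push_cast; ring
      linarith
    have h2 := sum_inv_sq_large L D' hD'1 (by
      intro k hk
      have h6 := (hL k hk).1
      have h7 : Y ^ (B + 5) ≤ ((k.natAbs : ℕ) : ℝ) := by
        rw [Nat.cast_natAbs]; push_cast; exact h6
      have h8 := Nat.ceil_le.2 h7
      rw [Int.abs_eq_natAbs]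
      have h9 : D' < k.natAbs := by omega
      exact_mod_cast h9)
    have h3 : ∑ k ∈ L, 1 / (k : ℝ) ^ 2 ≤ 4 / Y ^ (B + 5) := by
      refine h2.trans ?_
      rw [div_le_div_iff₀ (by positivity) (by positivity)]
      linarith
    have h4 : 2 * D ^ 2 * Y ^ 4 * ∑ k ∈ L, 1 / (k : ℝ) ^ 2 ≤ 1 / 2 * (1 / Y ^ B) := by
      calc 2 * D ^ 2 * Y ^ 4 * ∑ k ∈ L, 1 / (k : ℝ) ^ 2 ≤ 2 * D ^ 2 * Y ^ 4 * (4 / Y ^ (B + 5)) :=
            mul_le_mul_of_nonneg_left h3 (by positivity)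
        _ = (16 * D ^ 2) / Y * (1 / 2 * (1 / Y ^ B)) := by
            rw [pow_add Y B 5]; field_simp; norm_num
        _ ≤ 1 * (1 / 2 * (1 / Y ^ B)) := by
            apply mul_le_mul_of_nonneg_right _ (by positivity)
            rw [div_le_one hY0]; exact hYD
        _ = _ := one_mul _
    have h6 : (L.card : ℝ) * (2 * D ^ 2 * Y ^ 4 * Real.exp (-(η * Y)) ^ 2) ≤ 1 / 2 * (1 / Y ^ B) := by
      have hc2 : (L.card : ℝ) ≤ Real.exp (η * Y) :=
        hcard.trans (Real.exp_le_exp.2 (mul_le_mul_of_nonneg_right (min_le_right _ _) hY0.le))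
      have he : Real.exp (η * Y) * Real.exp (-(η * Y)) = 1 := by rw [← Real.exp_add]; simp
      have h7 : 4 * D ^ 2 * Y ^ (B + 4) * Real.exp (-(η * Y)) ≤ 1 := by
        calc 4 * D ^ 2 * Y ^ (B + 4) * Real.exp (-(η * Y)) ≤ Real.exp (η * Y) * Real.exp (-(η * Y)) :=
              mul_le_mul_of_nonneg_right hYe (Real.exp_pos _).le
          _ = 1 := he
      calc (L.card : ℝ) * (2 * D ^ 2 * Y ^ 4 * Real.exp (-(η * Y)) ^ 2)
          ≤ Real.exp (η * Y) * (2 * D ^ 2 * Y ^ 4 * Real.exp (-(η * Y)) ^ 2) :=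
            mul_le_mul_of_nonneg_right hc2 (by positivity)
        _ = (Real.exp (η * Y) * Real.exp (-(η * Y))) * (2 * D ^ 2 * Y ^ 4 * Real.exp (-(η * Y))) := by ring
        _ = 2 * D ^ 2 * Y ^ 4 * Real.exp (-(η * Y)) := by rw [he, one_mul]
        _ = (4 * D ^ 2 * Y ^ (B + 4) * Real.exp (-(η * Y))) * (1 / 2 * (1 / Y ^ B)) := by
            rw [pow_add Y B 4]; field_simp; ring
        _ ≤ 1 * (1 / 2 * (1 / Y ^ B)) := mul_le_mul_of_nonneg_right h7 (by positivity)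
        _ = _ := one_mul _
    linarith

end Pool.Agent.J4H33
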