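import Pool.Agent.H376R2.MR.Mom
import Pool.Agent.J4H33.KL1
import Pool.Agent.Y851.PS.G2

/-!
# Large values of Dirichlet polynomials over short sets of primes
-/

set_option autoImplicit false

namespace Pool.Agent.J4H33

open Finset Filter Pool.Agent.H376R2.MR
open Pool.Agent.Y851.PS (TF)

/-- the transform of a set of integers -/
noncomputable def TA (A : Finset ℕ) (k : ℤ) : ℂ := TF A (fun _ => 1) (fun n : ℕ => Real.log n) k

theorem TA_eq (A : Finset ℕ) (k : ℤ) : TA A k = ∑ a ∈ A, ch k (Real.log a) := by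
  unfold TA TF
  apply sum_congr rfl
  intro a _
  simp

theorem ch_prod (k : ℤ) {ℓ : ℕ} (p : Fin ℓ → ℕ) (hp : ∀ i, 0 < p i) :
    ∏ i, ch k (Real.log (p i)) = ch k (Real.log ((∏ i, p i : ℕ) : ℝ)) := by
  have h1 : Real.log ((∏ i, p i : ℕ) : ℝ) = ∑ i, Real.log (p i : ℝ) := by
    push_cast
    rw [Real.log_prod]
    intro i _
    exact_mod_cast (hp i).ne'
  rw [h1]
  unfold ch
  rw [← Complex.exp_sum]
  congr 1
  push_cast
  rw [mul_sum, ← Finset.sum_neg_distrib, Finset.sum_mul]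

theorem TA_pow (A : Finset ℕ) (hA : ∀ a ∈ A, a.Prime) (ℓ : ℕ) (k : ℤ) :
    TA A k ^ ℓ = DP ((Fintype.piFinset (fun _ : Fin ℓ => A)).image (fun p => ∏ i, p i)) (fun n => (ge A ℓ n : ℂ)) k := by
  rw [TA_eq, Finset.sum_pow']
  have h1 : ∀ p ∈ Fintype.piFinset (fun _ : Fin ℓ => A), ∏ i, ch k (Real.log (p i)) = ch k (Real.log ((∏ i, p i : ℕ) : ℝ)) := by
    intro p hp
    rw [Fintype.mem_piFinset] at hp
    exact ch_prod k p fun i => (hA _ (hp i)).pos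
  rw [sum_congr rfl h1]
  unfold DP
  rw [← Finset.sum_fiberwise_of_maps_to (g := fun p : Fin ℓ → ℕ => ∏ i, p i)
    (fun p hp => Finset.mem_image_of_mem _ hp)]
  apply Finset.sum_congr rfl
  intro n _
  unfold ge
  rw [Finset.sum_congr rfl (g := fun _ => ch k (Real.log n))]
  · rw [Finset.sum_const, nsmul_eq_mul]
  · intro p hp
    rw [Finset.mem_filter] at hp
    rw [hp.2]

theorem momA : ∃ C : ℝ, 0 < C ∧ ∀ (A : Finset ℕ) (ℓ K : ℕ) (V : ℝ), (∀ a ∈ A, a.Prime ∧ |Real.log a - V| ≤ 1 / 2) → 1 / 2 ≤ V →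
    1 ≤ K → ∑ k ∈ FK K, ‖TA A k‖ ^ (2 * ℓ) ≤
      C * (1 + (ℓ : ℝ)) * ((ℓ.factorial : ℝ) * (Real.exp ((V + 1 / 2) * ℓ) + K) * (A.card : ℝ) ^ ℓ) := by
  obtain ⟨C, hC, hmv⟩ := mv
  refine ⟨C, hC, ?_⟩
  intro A ℓ K V hA hV hK
  set t := (Fintype.piFinset (fun _ : Fin ℓ => A)).image (fun p => ∏ i, p i) with ht
  set N₁ : ℝ := Real.exp ((V - 1 / 2) * ℓ) with hN1
  set N₂ : ℝ := Real.exp ((V + 1 / 2) * ℓ) with hN2
  have hℓ0 : (0 : ℝ) ≤ ℓ := Nat.cast_nonneg ℓ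
  have h1 : (1 : ℝ) ≤ N₁ := Real.one_le_exp (mul_nonneg (by linarith) hℓ0)
  have h12 : N₁ ≤ N₂ := by
    apply Real.exp_le_exp.2
    apply mul_le_mul_of_nonneg_right (by linarith) hℓ0
  have hmem : ∀ n ∈ t, N₁ ≤ (n : ℝ) ∧ (n : ℝ) ≤ N₂ := by
    intro n hn
    rw [ht, Finset.mem_image] at hn
    obtain ⟨p, hp, rfl⟩ := hn
    rw [Fintype.mem_piFinset] at hp
    have hpos : (0 : ℝ) < ((∏ i, p i : ℕ) : ℝ) := by
      exact_mod_cast prod_pos fun i _ => (hA _ (hp i)).1.pos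
    have hlog : Real.log ((∏ i, p i : ℕ) : ℝ) = ∑ i, Real.log (p i : ℝ) := by
      push_cast
      rw [Real.log_prod]
      intro i _
      exact_mod_cast (hA _ (hp i)).1.ne_zero
    have hlow : (V - 1 / 2) * ℓ ≤ Real.log ((∏ i, p i : ℕ) : ℝ) := by
      rw [hlog]
      calc (V - 1 / 2) * ℓ = ∑ _i : Fin ℓ, (V - 1 / 2) := by
            rw [sum_const, card_univ, Fintype.card_fin, nsmul_eq_mul, mul_comm]
        _ ≤ _ := sum_le_sum fun i _ => by linarith [(abs_le.1 (hA _ (hp i)).2).1]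
    have hup : Real.log ((∏ i, p i : ℕ) : ℝ) ≤ (V + 1 / 2) * ℓ := by
      rw [hlog]
      calc ∑ i, Real.log (p i : ℝ) ≤ ∑ _i : Fin ℓ, (V + 1 / 2) := sum_le_sum fun i _ => by linarith [(abs_le.1 (hA _ (hp i)).2).2]
        _ = _ := by rw [sum_const, card_univ, Fintype.card_fin, nsmul_eq_mul, mul_comm]
    constructor
    · rw [hN1, ← Real.le_log_iff_exp_le hpos]; exact hlow
    · rw [hN2, ← Real.log_le_iff_le_exp hpos]; exact hup
  have hlog : Real.log (N₂ / N₁) = ℓ := by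
    rw [hN1, hN2, ← Real.exp_sub, Real.log_exp]
    ring
  have hm := hmv t (fun n => (ge A ℓ n : ℂ)) N₁ N₂ K h1 h12 hmem hK
  rw [hlog] at hm
  have hprime : ∀ a ∈ A, a.Prime := fun a ha => (hA a ha).1
  calc ∑ k ∈ FK K, ‖TA A k‖ ^ (2 * ℓ) = ∑ k ∈ FK K, ‖DP t (fun n => (ge A ℓ n : ℂ)) k‖ ^ 2 := by
        apply Finset.sum_congr rfl
        intro k _
        rw [← TA_pow A hprime, norm_pow, ← pow_mul, mul_comm]
    _ ≤ _ := hm
    _ ≤ C * (1 + (ℓ : ℝ)) * ∑ n ∈ t, ((ℓ.factorial : ℝ) * (N₂ + K)) * (ge A ℓ n : ℝ) := by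
        apply mul_le_mul_of_nonneg_left _ (by positivity)
        apply Finset.sum_le_sum
        intro n hn
        have hn2 := (hmem n hn).2
        have h : (ge A ℓ n : ℝ) ≤ ℓ.factorial := by exact_mod_cast smoo_ge_le _ hprime ℓ n
        rw [Complex.norm_natCast]
        have hge0 : (0 : ℝ) ≤ ge A ℓ n := Nat.cast_nonneg _
        calc (ge A ℓ n : ℝ) ^ 2 * ((n : ℝ) + K) ≤ ((ge A ℓ n : ℝ) * ℓ.factorial) * (N₂ + K) := by
              apply mul_le_mul _ (by linarith) (by positivity) (by positivity)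
              rw [pow_two]
              exact mul_le_mul_of_nonneg_left h hge0
          _ = _ := by ring
    _ = C * (1 + (ℓ : ℝ)) * (((ℓ.factorial : ℝ) * (N₂ + K)) * ∑ n ∈ t, (ge A ℓ n : ℝ)) := by
        rw [← Finset.mul_sum]
    _ = _ := by
        have h2 : ∑ n ∈ t, (ge A ℓ n : ℝ) = (A.card : ℝ) ^ ℓ := by
          have h3 : ∑ n ∈ t, ge A ℓ n = (Fintype.piFinset (fun _ : Fin ℓ => A)).card := by
            unfold ge
            exact (card_eq_sum_card_fiberwise fun p hp => mem_coe.2 (mem_image_of_mem _ (mem_coe.1 hp))).symm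
          rw [Fintype.card_piFinset, prod_const, card_univ, Fintype.card_fin] at h3
          exact_mod_cast h3
        rw [h2]

/-- **Few large values.** -/
theorem few (c C₁ ε β : ℝ) (hC₁ : 0 < C₁) (hε : 0 < ε) (hβ : 0 < β) (h : (1 + 2 * β) / C₁ + 2 * ε < c) :
    ∀ᶠ Y : ℝ in atTop, ∀ V : ℝ, C₁ * Real.log Y ≤ V → V ≤ Y → ∀ (A : Finset ℕ), (∀ a ∈ A, a.Prime ∧ |Real.log a - V| ≤ 1 / 2) →
      ∀ N : ℝ, (A.card : ℝ) ≤ N → Real.exp ((1 - ε) * V) ≤ N → ∀ K : ℕ, (K : ℝ) ≤ Real.exp Y →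
      (((FK K).filter (fun k => Y ^ (-β) * N ≤ ‖TA A k‖)).card : ℝ) ≤ Real.exp (c * Y) := by
  obtain ⟨C, hC, hmom⟩ := momA
  obtain ⟨s, hs⟩ : ∃ s, s = c - ((1 + 2 * β) / C₁ + 2 * ε) := ⟨_, rfl⟩
  have hs0 : 0 < s := by rw [hs]; linarith
  have hlogY : Tendsto (fun Y : ℝ => Real.log Y) atTop atTop := Real.tendsto_log_atTop
  have e1 : ∀ᶠ Y : ℝ in atTop, Real.log Y * (2 + 2 * β) ≤ s / 4 * Y := by
    have h1 := (Real.isLittleO_log_id_atTop).bound (show 0 < s / 4 / (2 + 2 * β) by positivity)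
    filter_upwards [h1, eventually_ge_atTop 1] with Y hY hY1
    rw [Real.norm_eq_abs, Real.norm_eq_abs, id, abs_of_nonneg (Real.log_nonneg hY1), abs_of_nonneg (by linarith)] at hY
    calc Real.log Y * (2 + 2 * β) ≤ (s / 4 / (2 + 2 * β) * Y) * (2 + 2 * β) := mul_le_mul_of_nonneg_right hY (by positivity)
      _ = s / 4 * Y := by field_simp
  filter_upwards [eventually_ge_atTop 3, e1, hlogY.eventually_ge_atTop (2 / C₁ + 1), hlogY.eventually_ge_atTop (4 / (C₁ * s)),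
    ev_poly_exp 1 (s / 4) (4 * C) (by positivity), eventually_ge_atTop (4 / s)] with Y hY3 g1 g2 g3 g4 g5 V hV1 hV2 A hA N hAN hcard K hK
  have hY0 : 0 < Y := by linarith
  obtain ⟨l, hl⟩ : ∃ l, l = Real.log Y := ⟨_, rfl⟩
  rw [← hl] at g1 g2 g3 hV1
  have hl0 : 0 < l := by
    have : 0 < 2 / C₁ := by positivity
    linarith
  have hVl : 4 / s ≤ V := by
    have h1 : C₁ * (4 / (C₁ * s)) ≤ C₁ * l := mul_le_mul_of_nonneg_left g3 hC₁.le
    have e : C₁ * (4 / (C₁ * s)) = 4 / s := by field_simp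
    linarith
  have hV2' : 2 ≤ V := by
    have h1 : C₁ * (2 / C₁ + 1) ≤ C₁ * l := mul_le_mul_of_nonneg_left g2 hC₁.le
    have e : C₁ * (2 / C₁ + 1) = 2 + C₁ := by field_simp
    linarith
  have hV0 : 0 < V := by linarith
  rcases Nat.eq_zero_or_pos K with hK0 | hKpos
  · subst hK0
    have : (FK 0).filter (fun k => Y ^ (-β) * N ≤ ‖TA A k‖) = ∅ := by
      unfold FK
      simp
    rw [this, card_empty]
    simpa using (Real.exp_pos _).le
  have hA0 : (0 : ℝ) < N := lt_of_lt_of_le (Real.exp_pos _) hcard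
  obtain ⟨ℓ, hℓ⟩ : ∃ ℓ : ℕ, ℓ = ⌈Y / V⌉₊ := ⟨_, rfl⟩
  have hYV : 0 ≤ Y / V := by positivity
  have hℓ1 : Y ≤ V * ℓ := by
    have h1 : Y / V ≤ ℓ := by rw [hℓ]; exact Nat.le_ceil _
    rw [div_le_iff₀ hV0] at h1
    linarith
  have hℓ2 : (ℓ : ℝ) ≤ Y / V + 1 := by rw [hℓ]; exact (Nat.ceil_lt_add_one hYV).le
  have hℓpos : 1 ≤ ℓ := by
    rcases Nat.eq_zero_or_pos ℓ with h0 | h0
    · rw [h0] at hℓ1
      simp at hℓ1
      linarith
    · exact h0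
  have hℓ0 : (0 : ℝ) < ℓ := by exact_mod_cast hℓpos
  have hVℓ : V * ℓ ≤ 2 * Y := by
    calc V * ℓ ≤ V * (Y / V + 1) := mul_le_mul_of_nonneg_left hℓ2 hV0.le
      _ = Y + V := by field_simp
      _ ≤ 2 * Y := by linarith
  have hℓY : (ℓ : ℝ) ≤ Y := by
    have h1 : Y / V ≤ Y / 2 := div_le_div_of_nonneg_left hY0.le (by norm_num) hV2'
    linarith
  have hℓl : (ℓ : ℝ) * l ≤ Y / C₁ + l := by
    have h1 : Y / V * l ≤ Y / C₁ := by
      rw [div_mul_eq_mul_div, div_le_div_iff₀ hV0 hC₁]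
      calc Y * l * C₁ = Y * (C₁ * l) := by ring
        _ ≤ Y * V := mul_le_mul_of_nonneg_left hV1 hY0.le
    calc (ℓ : ℝ) * l ≤ (Y / V + 1) * l := mul_le_mul_of_nonneg_right hℓ2 hl0.le
      _ = Y / V * l + l := by ring
      _ ≤ _ := by linarith
  have hℓh : (ℓ : ℝ) / 2 ≤ s / 4 * Y := by
    rw [div_le_iff₀ hs0] at hVl g5
    have h1 : Y / V ≤ s / 4 * Y := by
      rw [div_le_iff₀ hV0]
      nlinarith
    linarith
  have hfac : (ℓ.factorial : ℝ) ≤ Real.exp (ℓ * l) := by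
    have h1 : (ℓ.factorial : ℝ) ≤ (ℓ : ℝ) ^ ℓ := by exact_mod_cast Nat.factorial_le_pow ℓ
    refine h1.trans ?_
    calc (ℓ : ℝ) ^ ℓ ≤ Y ^ ℓ := pow_le_pow_left₀ hℓ0.le hℓY _
      _ = Real.exp (ℓ * l) := by rw [hl, Real.exp_nat_mul, Real.exp_log hY0]
  have hm := hmom A ℓ K V hA (by linarith) hKpos
  set F := (FK K).filter (fun k => Y ^ (-β) * N ≤ ‖TA A k‖) with hF
  have h1 : (F.card : ℝ) * (Y ^ (-β) * N) ^ (2 * ℓ) ≤ ∑ k ∈ FK K, ‖TA A k‖ ^ (2 * ℓ) := by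
    calc (F.card : ℝ) * (Y ^ (-β) * N) ^ (2 * ℓ) = ∑ _k ∈ F, (Y ^ (-β) * N) ^ (2 * ℓ) := by
          rw [sum_const, nsmul_eq_mul]
      _ ≤ ∑ k ∈ F, ‖TA A k‖ ^ (2 * ℓ) := by
          apply sum_le_sum
          intro k hk
          rw [hF, mem_filter] at hk
          exact pow_le_pow_left₀ (by positivity) hk.2 _
      _ ≤ _ := sum_le_sum_of_subset_of_nonneg (filter_subset _ _) fun k _ _ => by positivity
  have hANℓ : (A.card : ℝ) ^ ℓ ≤ N ^ ℓ := pow_le_pow_left₀ (Nat.cast_nonneg _) hAN ℓ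
  have h2 : (F.card : ℝ) * (Y ^ (-β) * N) ^ (2 * ℓ) ≤
      C * (1 + (ℓ : ℝ)) * ((ℓ.factorial : ℝ) * (Real.exp ((V + 1 / 2) * ℓ) + K) * N ^ ℓ) :=
    (h1.trans hm).trans (by gcongr)
  have hYβ : Y ^ (-β) = Real.exp (-(β * l)) := by
    rw [hl, Real.rpow_def_of_pos hY0]
    congr 1; ring
  have e2 : (Y ^ (-β) * N) ^ (2 * ℓ) = Real.exp (-(2 * β * (ℓ * l))) * N ^ ℓ * N ^ ℓ := by
    rw [hYβ, mul_pow, ← Real.exp_nat_mul, two_mul ℓ, pow_add, ← mul_assoc]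
    congr 2
    · congr 1
      push_cast; ring
  rw [e2] at h2
  have hAℓ : 0 < N ^ ℓ := by positivity
  have h3 : (F.card : ℝ) * (Real.exp (-(2 * β * (ℓ * l))) * N ^ ℓ) ≤
      C * (1 + (ℓ : ℝ)) * ((ℓ.factorial : ℝ) * (Real.exp ((V + 1 / 2) * ℓ) + K)) := by
    have h4 : ((F.card : ℝ) * (Real.exp (-(2 * β * (ℓ * l))) * N ^ ℓ)) * N ^ ℓ ≤
        (C * (1 + (ℓ : ℝ)) * ((ℓ.factorial : ℝ) * (Real.exp ((V + 1 / 2) * ℓ) + K))) * N ^ ℓ := by
      calc ((F.card : ℝ) * (Real.exp (-(2 * β * (ℓ * l))) * N ^ ℓ)) * N ^ ℓ =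
            (F.card : ℝ) * (Real.exp (-(2 * β * (ℓ * l))) * N ^ ℓ * N ^ ℓ) := by ring
        _ ≤ _ := h2
        _ = _ := by ring
    exact le_of_mul_le_mul_right h4 hAℓ
  have h4 : Real.exp ((1 - ε) * V * ℓ) ≤ N ^ ℓ := by
    calc Real.exp ((1 - ε) * V * ℓ) = Real.exp ((1 - ε) * V) ^ ℓ := by
          rw [← Real.exp_nat_mul]; congr 1; ring
      _ ≤ _ := pow_le_pow_left₀ (Real.exp_pos _).le hcard _
  have h5 : (F.card : ℝ) * (Real.exp (-(2 * β * (ℓ * l))) * Real.exp ((1 - ε) * V * ℓ)) ≤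
      C * (2 * Y) * (Real.exp (ℓ * l) * (2 * Real.exp ((V + 1 / 2) * ℓ))) := by
    refine le_trans ?_ (h3.trans ?_)
    · gcongr
    · have h6 : (K : ℝ) ≤ Real.exp ((V + 1 / 2) * ℓ) := by
        refine hK.trans (Real.exp_le_exp.2 ?_)
        linarith
      have h7 : 1 + (ℓ : ℝ) ≤ 2 * Y := by linarith
      gcongr
      linarith
  have h6 : (F.card : ℝ) ≤ 4 * C * Y * Real.exp ((1 + 2 * β) * (ℓ * l) + ℓ / 2 + ε * (V * ℓ)) := by
    have e3 : Real.exp (-(2 * β * (ℓ * l))) * Real.exp ((1 - ε) * V * ℓ) * Real.exp (2 * β * (ℓ * l) - (1 - ε) * V * ℓ) = 1 := by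
      rw [← Real.exp_add, ← Real.exp_add]
      simp
    calc (F.card : ℝ) = (F.card : ℝ) * (Real.exp (-(2 * β * (ℓ * l))) * Real.exp ((1 - ε) * V * ℓ)) * Real.exp (2 * β * (ℓ * l) - (1 - ε) * V * ℓ) := by
          rw [mul_assoc, e3, mul_one]
      _ ≤ C * (2 * Y) * (Real.exp (ℓ * l) * (2 * Real.exp ((V + 1 / 2) * ℓ))) * Real.exp (2 * β * (ℓ * l) - (1 - ε) * V * ℓ) :=
          mul_le_mul_of_nonneg_right h5 (Real.exp_pos _).le
      _ = 4 * C * Y * (Real.exp (ℓ * l) * Real.exp ((V + 1 / 2) * ℓ) * Real.exp (2 * β * (ℓ * l) - (1 - ε) * V * ℓ)) := by ring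
      _ = _ := by
          rw [← Real.exp_add, ← Real.exp_add]
          congr 2
          ring
  refine h6.trans ?_
  rw [pow_one] at g4
  calc 4 * C * Y * Real.exp ((1 + 2 * β) * (ℓ * l) + ℓ / 2 + ε * (V * ℓ)) ≤
        Real.exp (s / 4 * Y) * Real.exp ((1 + 2 * β) * (Y / C₁ + l) + s / 4 * Y + ε * (2 * Y)) := by
        apply mul_le_mul g4 (Real.exp_le_exp.2 _) (Real.exp_pos _).le (Real.exp_pos _).le
        have a1 : (1 + 2 * β) * (ℓ * l) ≤ (1 + 2 * β) * (Y / C₁ + l) := mul_le_mul_of_nonneg_left hℓl (by linarith)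
        have a2 : ε * (V * ℓ) ≤ ε * (2 * Y) := mul_le_mul_of_nonneg_left hVℓ hε.le
        linarith
    _ = Real.exp (s / 4 * Y + ((1 + 2 * β) * (Y / C₁ + l) + s / 4 * Y + ε * (2 * Y))) := (Real.exp_add _ _).symm
    _ ≤ Real.exp (c * Y) := by
        apply Real.exp_le_exp.2
        have a3 : (1 + 2 * β) * (Y / C₁) = (1 + 2 * β) / C₁ * Y := by ring
        have a4 : (1 + 2 * β) * l ≤ s / 4 * Y := by nlinarith
        have a5 : c = s + ((1 + 2 * β) / C₁ + 2 * ε) := by rw [hs]; ring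
        have a6 : c * Y = s * Y + (1 + 2 * β) / C₁ * Y + 2 * ε * Y := by rw [a5]; ring
        rw [a6, mul_add, a3]
        nlinarith

end Pool.Agent.J4H33
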