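import Pool.Agent.Y851.PT.P3
import Pool.Agent.J4H33.LV

/-!
# The block theorem with a bilinear energy bound, I: comparison of two scales, short windows
-/

set_option autoImplicit false

namespace Pool.Agent.J4H33

open Finset Filter
open Pool.Agent.H376R2.MR (Fj FK ch Fj_nonneg Fj_le ls_norm_ch)
open Pool.Agent.Y851.PS

/-- **Comparison of the scales `K` and `K₁`** -/
theorem freq3 {γ ι : Type} (A : Finset ℕ) (C : Finset γ) (mc : γ → ℝ) (S : Finset ι) (x l : ι → ℝ) (hx : ∀ i ∈ S, 0 ≤ x i)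
    (K K₁ : ℕ) (hK₁ : 1 ≤ K₁) (hK : K₁ ≤ K) (s s' : ℝ) (T : ℕ) (η EC P NA NC : ℝ) (hη : 0 ≤ η) (hEC0 : 0 ≤ EC) (hNA : 0 ≤ NA) (hNC : 0 ≤ NC)
    (hP : ∑ i ∈ S, x i ≤ P) (hEC : ∑ k ∈ FK K, wt K k * ‖TF C (fun _ => 1) mc k‖ ^ 2 ≤ EC * NC ^ 2)
    (hsup : ∑ k ∈ (FK K).filter (fun k : ℤ => ¬ |k| ≤ (T : ℤ)), wt K k * (‖TF S x l k‖ ^ 2 * ‖TA A k‖ ^ 2) ≤ η * NA ^ 2) :
    |FS A C mc S x l K s - FS A C mc S x l K₁ s'| ≤
      ((2 * T + 1) * T * (1 / K + 1 / K₁ + |s| + |s'|) * P) * (A.card * C.card) + √(4 * EC * η) * (NA * NC) := by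
  classical
  have hAc : (0 : ℝ) ≤ A.card := Nat.cast_nonneg _
  have hCc : (0 : ℝ) ≤ C.card := Nat.cast_nonneg _
  have hP0 : 0 ≤ P := (sum_nonneg hx).trans hP
  have h1 : |FS A C mc S x l K s - FS A C mc S x l K₁ s'| =
      ‖((FS A C mc S x l K s - FS A C mc S x l K₁ s' : ℝ) : ℂ)‖ := by
    rw [Complex.norm_real, Real.norm_eq_abs]
  rw [h1, FS_diff A C mc S x l K K₁ hK₁ hK, ← sum_filter_add_sum_filter_not (FK K) (fun k : ℤ => |k| ≤ (T : ℤ))]
  refine (norm_add_le _ _).trans ?_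
  apply add_le_add
  · -- low frequencies
    have h2 : ∀ k ∈ (FK K).filter (fun k : ℤ => |k| ≤ (T : ℤ)), ‖(WD K K₁ s s' k * GP C mc S x l k) *
        (starRingEnd ℂ) (TF A (fun _ => 1) (fun n : ℕ => Real.log n) k)‖ ≤
        T * (1 / K + 1 / K₁ + |s| + |s'|) * P * (A.card * C.card) := by
      intro k hk
      rw [mem_filter] at hk
      have a0 : |(k : ℝ)| ≤ T := by
        have : ((|k| : ℤ) : ℝ) ≤ ((T : ℤ) : ℝ) := by exact_mod_cast hk.2
        rwa [Int.cast_abs] at this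
      have a1 := WD_low K K₁ s s' k
      have a2 := TF_le S x l hx k
      have a3 := TF_le C (fun _ => (1 : ℝ)) mc (fun _ _ => zero_le_one) k
      have a4 := TF_le A (fun _ => (1 : ℝ)) (fun n : ℕ => Real.log n) (fun _ _ => zero_le_one) k
      rw [sum_const, nsmul_eq_mul, mul_one] at a3 a4
      have a5 : 0 ≤ 1 / (K : ℝ) + 1 / K₁ + |s| + |s'| := by positivity
      unfold GP
      rw [norm_mul, norm_mul, norm_mul, Complex.norm_conj, Complex.norm_conj]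
      calc ‖WD K K₁ s s' k‖ * (‖TF S x l k‖ * ‖TF C (fun _ => 1) mc k‖) * ‖TF A (fun _ => 1) (fun n : ℕ => Real.log n) k‖
          ≤ (T * (1 / K + 1 / K₁ + |s| + |s'|)) * (P * C.card) * A.card := by
            have b1 : ‖WD K K₁ s s' k‖ ≤ T * (1 / K + 1 / K₁ + |s| + |s'|) :=
              a1.trans (mul_le_mul_of_nonneg_right a0 a5)
            have b2 : ‖TF S x l k‖ ≤ P := a2.trans hP
            gcongr
        _ = _ := by ring
    refine (norm_sum_le _ _).trans ((sum_le_sum h2).trans ?_)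
    rw [sum_const, nsmul_eq_mul]
    have h3 : (((FK K).filter (fun k : ℤ => |k| ≤ (T : ℤ))).card : ℝ) ≤ 2 * T + 1 := by
      have h4 : (FK K).filter (fun k : ℤ => |k| ≤ (T : ℤ)) ⊆ (FK K).filter (fun k : ℤ => |0 - k| ≤ (T : ℤ)) := by
        intro k hk
        rw [mem_filter] at hk ⊢
        refine ⟨hk.1, ?_⟩
        rw [zero_sub, abs_neg]; exact hk.2
      have h5 := near_count (FK K) T 0
      have h6 : (((FK K).filter (fun k : ℤ => |k| ≤ (T : ℤ))).card : ℝ) ≤ ((FK K).filter (fun k : ℤ => |0 - k| ≤ (T : ℤ))).card := by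
        exact_mod_cast card_le_card h4
      linarith
    have h4 : 0 ≤ T * (1 / K + 1 / K₁ + |s| + |s'|) * P * (A.card * C.card) := by positivity
    calc (((FK K).filter (fun k : ℤ => |k| ≤ (T : ℤ))).card : ℝ) * (T * (1 / K + 1 / K₁ + |s| + |s'|) * P * (A.card * C.card))
        ≤ (2 * T + 1) * (T * (1 / K + 1 / K₁ + |s| + |s'|) * P * (A.card * C.card)) := mul_le_mul_of_nonneg_right h3 h4
      _ = _ := by ring
  · -- high frequencies
    set U := (FK K).filter (fun k : ℤ => ¬ |k| ≤ (T : ℤ)) with hU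
    have hUK : U ⊆ FK K := filter_subset _ _
    have hb : ∀ k ∈ U, ‖(WD K K₁ s s' k * GP C mc S x l k) * (starRingEnd ℂ) (TF A (fun _ => 1) (fun n : ℕ => Real.log n) k)‖ ≤
        2 * ((√(wt K k) * (‖TF S x l k‖ * ‖TA A k‖)) * (√(wt K k) * ‖TF C (fun _ => 1) mc k‖)) := by
      intro k _
      unfold GP
      rw [norm_mul, norm_mul, norm_mul, Complex.norm_conj, Complex.norm_conj]
      have h2 := WD_high K K₁ hK₁ hK s s' k
      have h3 := Real.mul_self_sqrt (wt_nonneg K k)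
      calc ‖WD K K₁ s s' k‖ * (‖TF S x l k‖ * ‖TF C (fun _ => 1) mc k‖) * ‖TF A (fun _ => 1) (fun n : ℕ => Real.log n) k‖
          ≤ (2 * wt K k) * (‖TF S x l k‖ * ‖TF C (fun _ => 1) mc k‖) * ‖TF A (fun _ => 1) (fun n : ℕ => Real.log n) k‖ := by gcongr
        _ = (2 * (√(wt K k) * √(wt K k))) * (‖TF S x l k‖ * ‖TF C (fun _ => 1) mc k‖) * ‖TA A k‖ := by rw [h3]; rfl
        _ = _ := by ring
    refine (norm_sum_le _ _).trans ((sum_le_sum hb).trans ?_)
    rw [← mul_sum]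
    have b2 := Finset.sum_mul_sq_le_sq_mul_sq U (fun k => √(wt K k) * (‖TF S x l k‖ * ‖TA A k‖)) (fun k => √(wt K k) * ‖TF C (fun _ => 1) mc k‖)
    have b3 : ∑ k ∈ U, (√(wt K k) * (‖TF S x l k‖ * ‖TA A k‖)) ^ 2 ≤ η * NA ^ 2 := by
      refine le_trans (le_of_eq ?_) hsup
      apply sum_congr rfl
      intro k _
      rw [mul_pow, Real.sq_sqrt (wt_nonneg _ _), mul_pow]
    have b4 : ∑ k ∈ U, (√(wt K k) * ‖TF C (fun _ => 1) mc k‖) ^ 2 ≤ EC * NC ^ 2 := by
      refine le_trans (le_of_eq ?_) ((sum_le_sum_of_subset_of_nonneg hUK (f := fun k => wt K k * ‖TF C (fun _ => 1) mc k‖ ^ 2)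
        (fun k _ _ => mul_nonneg (wt_nonneg _ _) (by positivity))).trans hEC)
      apply sum_congr rfl
      intro k _
      rw [mul_pow, Real.sq_sqrt (wt_nonneg _ _)]
    have b5 : 0 ≤ ∑ k ∈ U, (√(wt K k) * (‖TF S x l k‖ * ‖TA A k‖)) ^ 2 := sum_nonneg fun _ _ => by positivity
    have b6 : 0 ≤ ∑ k ∈ U, (√(wt K k) * ‖TF C (fun _ => 1) mc k‖) ^ 2 := sum_nonneg fun _ _ => by positivity
    set Sg := ∑ k ∈ U, (√(wt K k) * (‖TF S x l k‖ * ‖TA A k‖)) * (√(wt K k) * ‖TF C (fun _ => 1) mc k‖) with hS1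
    have hS10 : 0 ≤ Sg := sum_nonneg fun _ _ => by positivity
    have h4 : (2 * Sg) ^ 2 ≤ (√(4 * EC * η) * (NA * NC)) ^ 2 := by
      rw [mul_pow (√_), Real.sq_sqrt (by positivity)]
      calc (2 * Sg) ^ 2 = 4 * Sg ^ 2 := by ring
        _ ≤ 4 * ((η * NA ^ 2) * (EC * NC ^ 2)) := by
            have := b2.trans (mul_le_mul b3 b4 b6 (b5.trans b3))
            linarith
        _ = _ := by ring
    exact (pow_le_pow_iff_left₀ (by positivity) (by positivity) (by norm_num)).1 h4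

/-- the prime number theorem with any power of the logarithm -/
theorem theta_pow (m : ℕ) : ∃ Y₀ : ℝ, 1 ≤ Y₀ ∧ ∀ Y : ℝ, Y₀ ≤ Y → ∀ b : ℝ, 0 ≤ b → b ≤ Real.exp (Y + 1) →
    |Chebyshev.theta b - b| ≤ 1 / Y ^ m / 40 * Real.exp Y := by
  obtain ⟨N₀, hN₀⟩ := Filter.eventually_atTop.1 (Pool.Agent.W301.SS.pnt_unif (m + 1))
  obtain ⟨Y1, hY1⟩ := Filter.eventually_atTop.1 (ev_poly_exp m 1 80 one_pos)
  refine ⟨max (max 1 N₀) (max 320 Y1), (le_max_left _ _).trans (le_max_left _ _), ?_⟩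
  intro Y hY b hb0 hb
  have hY1' : 1 ≤ Y := ((le_max_left _ _).trans (le_max_left _ _)).trans hY
  have hY2 : (N₀ : ℝ) ≤ Y := ((le_max_right _ _).trans (le_max_left _ _)).trans hY
  have hY3 : 320 ≤ Y := ((le_max_left _ _).trans (le_max_right _ _)).trans hY
  have hY4 := hY1 Y (((le_max_right _ _).trans (le_max_right _ _)).trans hY)
  rw [one_mul] at hY4
  set N := ⌈Real.exp (Y + 1)⌉₊ with hN
  have hN1 : Real.exp (Y + 1) ≤ N := Nat.le_ceil _
  have hN2 : (N : ℝ) < Real.exp (Y + 1) + 1 := Nat.ceil_lt_add_one (Real.exp_pos _).le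
  have hYe : Y + 1 ≤ Real.exp Y := Real.add_one_le_exp Y
  have he1 : Real.exp (Y + 1) ≤ 3 * Real.exp Y := by
    rw [Real.exp_add]
    have := Real.exp_one_lt_d9
    have := Real.exp_pos Y
    nlinarith
  have hYe1 : Y ≤ Real.exp (Y + 1) := by
    have := Real.add_one_le_exp (Y + 1)
    linarith
  have hNN : N₀ ≤ N := by
    have : (N₀ : ℝ) ≤ N := by linarith
    exact_mod_cast this
  have hm : ⌊b⌋₊ ≤ 4 * N := by
    have h1 : (⌊b⌋₊ : ℝ) ≤ ((4 * N : ℕ) : ℝ) := by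
      push_cast
      have := Nat.floor_le hb0
      linarith [Real.exp_pos (Y + 1)]
    exact_mod_cast h1
  have h1 := hN₀ N hNN ⌊b⌋₊ hm
  have hlogN : Y ≤ Real.log N := by
    rw [Real.le_log_iff_exp_le (by linarith [Real.exp_pos (Y + 1)])]
    exact (Real.exp_le_exp.2 (by linarith)).trans hN1
  have hY0 : 0 < Y := by linarith
  have h2 : (N : ℝ) / Real.log N ^ (m + 1) ≤ 4 * Real.exp Y / Y ^ (m + 1) := by
    apply div_le_div₀ (by positivity) (by linarith) (by positivity) (pow_le_pow_left₀ hY0.le hlogN _)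
  have h3 : |((⌊b⌋₊ : ℕ) : ℝ) - b| ≤ 1 := by
    rw [abs_sub_comm, abs_of_nonneg (by linarith [Nat.floor_le hb0])]
    linarith [Nat.lt_floor_add_one b]
  rw [theta_floor b hb0]
  have h4 : Chebyshev.theta ((⌊b⌋₊ : ℕ) : ℝ) - b = (Chebyshev.theta ((⌊b⌋₊ : ℕ) : ℝ) - ((⌊b⌋₊ : ℕ) : ℝ)) + (((⌊b⌋₊ : ℕ) : ℝ) - b) := by ring
  rw [h4]
  refine (abs_add_le _ _).trans ?_
  have hYm : 0 < Y ^ m := by positivity
  have h5 : 4 * Real.exp Y / Y ^ (m + 1) ≤ 1 / Y ^ m / 80 * Real.exp Y := by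
    rw [pow_succ, div_le_iff₀ (by positivity)]
    have e : 1 / Y ^ m / 80 * Real.exp Y * (Y ^ m * Y) = Real.exp Y * (Y / 80) := by field_simp
    rw [e]
    have := Real.exp_pos Y
    nlinarith
  have h6 : 1 ≤ 1 / Y ^ m / 80 * Real.exp Y := by
    have e : 1 / Y ^ m / 80 * Real.exp Y = Real.exp Y / (80 * Y ^ m) := by field_simp
    rw [e, le_div_iff₀ (by positivity)]
    linarith
  have h7 : 1 / Y ^ m / 40 * Real.exp Y = 1 / Y ^ m / 80 * Real.exp Y + 1 / Y ^ m / 80 * Real.exp Y := by ring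
  rw [h7]
  linarith

open Classical in
/-- the sharp count of primes near `v` in a window -/
theorem pnt_core (Y δ h2 v : ℝ) (hY2 : 2 ≤ Y) (hδ : 0 < δ) (hh2 : 0 < h2) (hh21 : h2 ≤ 1 / 2) (hv : |v - Y| ≤ 1 / 2)
    (hth : ∀ b : ℝ, 0 ≤ b → b ≤ Real.exp (Y + 1) → |Chebyshev.theta b - b| ≤ δ / 40 * Real.exp Y)
    (hvb : v ≤ δ / 10 * Real.exp v) :
    |∑ p ∈ (SPr Y).filter (fun p : ℕ => v - h2 < Real.log p ∧ Real.log p < v), xP Y p - h2| ≤ h2 ^ 2 + δ := by
  have hv' := abs_le.1 hv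
  set a := Real.exp (v - h2) with ha
  set b := Real.exp v with hb
  have ha0 : 0 < a := Real.exp_pos _
  have hb0 : 0 < b := Real.exp_pos _
  have hab : a < b := by rw [ha, hb, Real.exp_lt_exp]; linarith
  have hbY : Real.exp Y ≤ 2 * b := by
    rw [hb]
    have h1 : Real.exp Y ≤ Real.exp (1 / 2 + v) := Real.exp_le_exp.2 (by linarith)
    rw [Real.exp_add] at h1
    have h2' : Real.exp (1 / 2 : ℝ) ≤ 2 := by
      have h3 : Real.exp (1 / 2 : ℝ) ^ 2 = Real.exp 1 := by rw [← Real.exp_nat_mul]; norm_num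
      have := Real.exp_one_lt_d9
      nlinarith [Real.exp_pos (1 / 2 : ℝ)]
    have := Real.exp_pos v
    nlinarith
  have hba : b ≤ 2 * a := by
    rw [hb, ha]
    have h1 : Real.exp v ≤ Real.exp (1 / 2 + (v - h2)) := Real.exp_le_exp.2 (by linarith)
    rw [Real.exp_add] at h1
    have h2' : Real.exp (1 / 2 : ℝ) ≤ 2 := by
      have h3 : Real.exp (1 / 2 : ℝ) ^ 2 = Real.exp 1 := by rw [← Real.exp_nat_mul]; norm_num
      have := Real.exp_one_lt_d9
      nlinarith [Real.exp_pos (1 / 2 : ℝ)]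
    have := Real.exp_pos (v - h2)
    nlinarith
  have hta := hth a ha0.le (Real.exp_le_exp.2 (by linarith))
  have htb := hth b hb0.le (Real.exp_le_exp.2 (by linarith))
  set F := (SPr Y).filter (fun p : ℕ => v - h2 < Real.log p ∧ Real.log p < v) with hF
  -- the elements
  have hFmem : ∀ p : ℕ, p ∈ F ↔ p.Prime ∧ a < p ∧ (p : ℝ) < b := by
    intro p
    rw [hF, mem_filter]
    constructor
    · rintro ⟨h1, h3, h4⟩
      unfold SPr at h1
      rw [mem_filter] at h1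
      have hp0 : (0 : ℝ) < p := by exact_mod_cast h1.2.1.pos
      refine ⟨h1.2.1, ?_, ?_⟩
      · rw [ha, ← Real.lt_log_iff_exp_lt hp0]; exact h3
      · rw [hb, ← Real.log_lt_iff_lt_exp hp0]; exact h4
    · rintro ⟨h1, h3, h4⟩
      have hp0 : (0 : ℝ) < p := by exact_mod_cast h1.pos
      have h5 : v - h2 < Real.log p := by rw [Real.lt_log_iff_exp_lt hp0]; exact h3
      have h6 : Real.log p < v := by rw [Real.log_lt_iff_lt_exp hp0]; exact h4
      refine ⟨mem_SPr h1 ?_, h5, h6⟩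
      rw [abs_lt]
      constructor <;> linarith
  have hxP : ∀ p ∈ F, xP Y p = Real.log p / p := by
    intro p hp
    rw [hFmem] at hp
    have hp0 : (0 : ℝ) < p := by exact_mod_cast hp.1.pos
    have h5 : v - h2 < Real.log p := by rw [Real.lt_log_iff_exp_lt hp0]; exact hp.2.1
    have h6 : Real.log p < v := by rw [Real.log_lt_iff_lt_exp hp0]; exact hp.2.2
    unfold xP
    rw [g3_one (by rw [abs_le]; constructor <;> linarith), mul_one]
  -- the sum of the logarithms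
  have hΘ1 : ∑ p ∈ F, Real.log (p : ℝ) ≤ Chebyshev.theta b - Chebyshev.theta a := by
    rw [Chebyshev.theta_eq_sum_Icc, Chebyshev.theta_eq_sum_Icc]
    have h1 : (Icc 0 ⌊a⌋₊).filter Nat.Prime ⊆ (Icc 0 ⌊b⌋₊).filter Nat.Prime := by
      intro p hp
      rw [mem_filter, mem_Icc] at hp ⊢
      exact ⟨⟨hp.1.1, hp.1.2.trans (Nat.floor_mono hab.le)⟩, hp.2⟩
    rw [← sum_sdiff_eq_sub h1]
    apply sum_le_sum_of_subset_of_nonneg
    · intro p hp
      rw [hFmem] at hp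
      rw [Finset.mem_sdiff, mem_filter, mem_filter, mem_Icc, mem_Icc]
      refine ⟨⟨⟨Nat.zero_le _, Nat.le_floor hp.2.2.le⟩, hp.1⟩, ?_⟩
      rintro ⟨⟨_, h3⟩, _⟩
      have h4 : (p : ℝ) ≤ a := (Nat.le_floor_iff ha0.le).1 h3
      linarith [hp.2.1]
    · intro p _ _
      exact Real.log_natCast_nonneg p
  have hΘ2 : Chebyshev.theta b - Chebyshev.theta a - v ≤ ∑ p ∈ F, Real.log (p : ℝ) := by
    rw [Chebyshev.theta_eq_sum_Icc, Chebyshev.theta_eq_sum_Icc]
    have h1 : (Icc 0 ⌊a⌋₊).filter Nat.Prime ⊆ (Icc 0 ⌊b⌋₊).filter Nat.Prime := by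
      intro p hp
      rw [mem_filter, mem_Icc] at hp ⊢
      exact ⟨⟨hp.1.1, hp.1.2.trans (Nat.floor_mono hab.le)⟩, hp.2⟩
    rw [← sum_sdiff_eq_sub h1]
    have h2' : (Icc 0 ⌊b⌋₊).filter Nat.Prime \ (Icc 0 ⌊a⌋₊).filter Nat.Prime ⊆ insert ⌊b⌋₊ F := by
      intro p hp
      rw [Finset.mem_sdiff, mem_filter, mem_filter, mem_Icc, mem_Icc] at hp
      rw [mem_insert, hFmem]
      by_cases h3 : p = ⌊b⌋₊
      · exact Or.inl h3
      · right
        refine ⟨hp.1.2, ?_, ?_⟩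
        · by_contra h4
          push Not at h4
          exact hp.2 ⟨⟨Nat.zero_le _, Nat.le_floor h4⟩, hp.1.2⟩
        · have h5 : p < ⌊b⌋₊ := lt_of_le_of_ne hp.1.1.2 h3
          have h6 : (p : ℝ) < (⌊b⌋₊ : ℕ) := by exact_mod_cast h5
          exact h6.trans_le (Nat.floor_le hb0.le)
    have h3 : ∑ p ∈ (Icc 0 ⌊b⌋₊).filter Nat.Prime \ (Icc 0 ⌊a⌋₊).filter Nat.Prime, Real.log (p : ℝ) ≤
        ∑ p ∈ insert ⌊b⌋₊ F, Real.log (p : ℝ) :=
      sum_le_sum_of_subset_of_nonneg h2' fun p _ _ => Real.log_natCast_nonneg p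
    have h4 : ∑ p ∈ insert ⌊b⌋₊ F, Real.log (p : ℝ) ≤ Real.log ((⌊b⌋₊ : ℕ) : ℝ) + ∑ p ∈ F, Real.log (p : ℝ) := by
      by_cases h5 : ⌊b⌋₊ ∈ F
      · rw [insert_eq_of_mem h5]
        linarith [Real.log_natCast_nonneg ⌊b⌋₊]
      · rw [sum_insert h5]
    have h5 : Real.log ((⌊b⌋₊ : ℕ) : ℝ) ≤ v := by
      have hb1 : 1 ≤ b := by rw [hb]; exact Real.one_le_exp (by linarith)
      have h6 : 1 ≤ ⌊b⌋₊ := by
        apply Nat.le_floor; simpa using hb1
      have h7 : (0 : ℝ) < (⌊b⌋₊ : ℕ) := by exact_mod_cast h6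
      rw [Real.log_le_iff_le_exp h7]
      exact Nat.floor_le hb0.le
    linarith
  -- upper and lower bounds
  have hup : ∑ p ∈ F, xP Y p ≤ (∑ p ∈ F, Real.log (p : ℝ)) / a := by
    rw [sum_div]
    apply sum_le_sum
    intro p hp
    rw [hxP p hp]
    rw [hFmem] at hp
    exact div_le_div_of_nonneg_left (Real.log_natCast_nonneg p) ha0 hp.2.1.le
  have hlow : (∑ p ∈ F, Real.log (p : ℝ)) / b ≤ ∑ p ∈ F, xP Y p := by
    rw [sum_div]
    apply sum_le_sum
    intro p hp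
    rw [hxP p hp]
    rw [hFmem] at hp
    exact div_le_div_of_nonneg_left (Real.log_natCast_nonneg p) (by exact_mod_cast hp.1.pos) hp.2.2.le
  have hta' := abs_le.1 hta
  have htb' := abs_le.1 htb
  have hEb : δ / 40 * Real.exp Y ≤ δ / 20 * b := by
    calc δ / 40 * Real.exp Y ≤ δ / 40 * (2 * b) := by gcongr
      _ = δ / 20 * b := by ring
  have hab1 : b = a * Real.exp h2 := by rw [ha, hb, ← Real.exp_add]; congr 1; ring
  have hexp1 : h2 ≤ Real.exp h2 - 1 := by linarith [Real.add_one_le_exp h2]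
  have hexp2 : Real.exp h2 - 1 ≤ h2 + h2 ^ 2 := by
    have h1 := Real.abs_exp_sub_one_sub_id_le (x := h2) (by rw [abs_of_pos hh2]; linarith)
    have := le_abs_self (Real.exp h2 - 1 - h2)
    linarith
  have hexp3 : 1 - Real.exp (-h2) ≥ h2 - h2 ^ 2 := by
    have h1 := Real.abs_exp_sub_one_sub_id_le (x := -h2) (by rw [abs_neg, abs_of_pos hh2]; linarith)
    rw [neg_sq] at h1
    have := le_abs_self (Real.exp (-h2) - 1 - (-h2))
    linarith
  have hab2 : a = b * Real.exp (-h2) := by rw [ha, hb, ← Real.exp_add]; congr 1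
  rw [abs_le]
  constructor
  · have h1 : (b - a - δ / 5 * b) / b ≤ (∑ p ∈ F, Real.log (p : ℝ)) / b := by
      apply div_le_div_of_nonneg_right _ hb0.le
      linarith
    have h3 : (b - a - δ / 5 * b) / b = 1 - Real.exp (-h2) - δ / 5 := by
      rw [hab2]; field_simp
    linarith
  · have h1 : (∑ p ∈ F, Real.log (p : ℝ)) / a ≤ (b - a + δ / 10 * b) / a := by
      apply div_le_div_of_nonneg_right _ ha0.le
      linarith
    have h3 : (b - a + δ / 10 * b) / a ≤ (b - a) / a + δ / 5 := by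
      rw [add_div]
      have : δ / 10 * b / a ≤ δ / 5 := by
        rw [div_le_iff₀ ha0]; nlinarith
      linarith
    have h4 : (b - a) / a = Real.exp h2 - 1 := by
      rw [hab1]; field_simp
    linarith


/-- **short windows** -/
theorem pnt_pow (m : ℕ) : ∃ Y₀ : ℝ, 2 ≤ Y₀ ∧ ∀ Y : ℝ, Y₀ ≤ Y → ∀ h2 : ℝ, 0 < h2 → h2 ≤ 1 / 2 → ∀ v : ℝ, |v - Y| ≤ 1 / 2 →
    |∑ p ∈ (SPr Y).filter (fun p : ℕ => v - h2 < Real.log p ∧ Real.log p < v), xP Y p - h2| ≤ h2 ^ 2 + 1 / Y ^ m := by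
  obtain ⟨Y1, h11, hY1⟩ := theta_pow m
  obtain ⟨Y2, hY2⟩ := Filter.eventually_atTop.1 (ev_poly_exp (m + 1) 1 40 one_pos)
  refine ⟨max Y1 (max Y2 2), (le_max_right _ _).trans (le_max_right _ _), ?_⟩
  intro Y hY h2 hh2 hh21 v hv
  have g1 : Y1 ≤ Y := (le_max_left _ _).trans hY
  have g2 : Y2 ≤ Y := ((le_max_left _ _).trans (le_max_right _ _)).trans hY
  have g3 : 2 ≤ Y := ((le_max_right _ _).trans (le_max_right _ _)).trans hY
  have hY0 : 0 < Y := by linarith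
  have h4 := hY2 Y g2
  rw [one_mul] at h4
  have hv' := abs_le.1 hv
  have hvb : v ≤ 1 / Y ^ m / 10 * Real.exp v := by
    have h5 : Real.exp Y ≤ 2 * Real.exp v := by
      have h1 : Real.exp Y ≤ Real.exp (1 / 2 + v) := Real.exp_le_exp.2 (by linarith)
      rw [Real.exp_add] at h1
      have h2' : Real.exp (1 / 2 : ℝ) ≤ 2 := by
        have h3 : Real.exp (1 / 2 : ℝ) ^ 2 = Real.exp 1 := by rw [← Real.exp_nat_mul]; norm_num
        have := Real.exp_one_lt_d9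
        nlinarith [Real.exp_pos (1 / 2 : ℝ)]
      have := Real.exp_pos v
      nlinarith
    have h6 : v ≤ 2 * Y := by linarith
    have e : 1 / Y ^ m / 10 * Real.exp v = Real.exp v / (10 * Y ^ m) := by field_simp
    rw [e, le_div_iff₀ (by positivity)]
    rw [pow_succ] at h4
    have hYm : 0 < Y ^ m := by positivity
    nlinarith
  exact pnt_core Y (1 / Y ^ m) h2 v g3 (by positivity) hh2 hh21 hv (hY1 Y g1) hvb

end Pool.Agent.J4H33
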