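import Pool.Agent.J4H33.Stm
import Pool.Agent.J4H33.KL1

/-!
# The block theorem with power saving, at short scales
-/

set_option autoImplicit false

namespace Pool.Agent.J4H33

open Finset Filter
open Pool.Agent.H376R2.MR (Fj FK ch Fj_nonneg Fj_le ls_norm_ch)
open Pool.Agent.Y851.PS
open Pool.Agent.Y851.PT (L0_exists)

/-- **The block theorem with power saving** -/
theorem block5 (c τ δ : ℝ) (hK : KLT c) (hτ : 0 < τ) (hτ1 : τ ≤ 1) (hδ : 0 < δ) (hδ1 : δ ≤ 1) : PB5 c τ δ := by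
  unfold PB5
  classical
  obtain ⟨L0, hL01, hL0⟩ := L0_exists (δ / 4) (by positivity)
  obtain ⟨η, hη, hK⟩ := hK
  obtain ⟨b₀, hb₀⟩ := hK 1
  obtain ⟨Q, Y1, hQ, hcell⟩ := SPr_cell (1 / 2) (by norm_num) (by norm_num)
  have hQ0 : 0 < Q := by linarith
  obtain ⟨Y3, hY32, hpnt⟩ := pnt_pow (2 * b₀ + 2)
  refine ⟨L0, 4 * b₀ + 5, η, hL01, hη, ?_⟩
  -- the eventual facts
  filter_upwards [hb₀, eventually_ge_atTop Y1, eventually_ge_atTop Y3, eventually_ge_atTop 10,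
    ev_const_pow (6400 * 1024) (τ / 2) (by positivity), ev_const_pow (16 * 144 * 40 + 8 * 224 * Q + 30 * 144 * 9 * 8) (3 / 4) (by norm_num),
    ev_poly_exp (2 * b₀ + 3) 1 20 one_pos, ev_poly_exp (2 * b₀ + 3) (1 / 2) 2 (by norm_num), ev_poly_exp 1 (η / 2) (80 * 64) (by positivity)]
    with Y hkls hYa hYc hY10 g3 g4 g6 g7 g8 K hKb hKe E hE hEP Bc κ hBc0 hBcs hκ0 hκB A NA hNA hfew γ C mc NC hNC hcC hmc hv h hh hhb hKh
  have hY0 : 0 < Y := by linarith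
  have hY1' : 1 ≤ Y := by linarith
  have hAc0 : (0 : ℝ) ≤ A.card := Nat.cast_nonneg _
  have hCc0 : (0 : ℝ) ≤ C.card := Nat.cast_nonneg _
  have hNA0 : 0 ≤ NA := hAc0.trans hNA
  have hNC0 : 0 ≤ NC := hCc0.trans hNC
  -- the small quantity
  obtain ⟨e₁, he₁⟩ : ∃ e₁ : ℝ, e₁ = Y ^ (-(τ / 4)) := ⟨_, rfl⟩
  have he₁0 : 0 < e₁ := by rw [he₁]; positivity
  have he₁1 : e₁ ≤ 1 := by
    rw [he₁]
    exact Real.rpow_le_one_of_one_le_of_nonpos hY1' (by linarith)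
  have hYinv : ∀ D : ℝ, 0 ≤ D → D ≤ Y ^ (3 / 4 : ℝ) → D / Y ≤ e₁ := by
    intro D _ hD
    rw [div_le_iff₀ hY0]
    have h1 : Y ^ (3 / 4 : ℝ) ≤ Y ^ (-(τ / 4)) * Y := by
      rw [← Real.rpow_add_one hY0.ne']
      exact Real.rpow_le_rpow_of_exponent_le hY1' (by linarith)
    rw [he₁]; linarith
  have hYp : ∀ n : ℕ, 0 < Y ^ n := fun n => by positivity
  have i1 : 144 * 40 / Y ≤ e₁ / 16 := by
    have := hYinv (16 * 144 * 40) (by norm_num) (by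
      have : 0 ≤ 8 * 224 * Q := by positivity
      linarith)
    have e : 144 * 40 / Y = (16 * 144 * 40 / Y) / 16 := by ring
    rw [e]; linarith
  have i2 : 224 * Q / Y ≤ e₁ / 8 := by
    have := hYinv (8 * 224 * Q) (by positivity) (by linarith)
    have e : 224 * Q / Y = (8 * 224 * Q / Y) / 8 := by ring
    rw [e]; linarith
  have i3 : 30 * 144 * 9 / Y ≤ e₁ / 8 := by
    have := hYinv (30 * 144 * 9 * 8) (by norm_num) (by
      have : 0 ≤ 8 * 224 * Q := by positivity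
      linarith)
    have e : 30 * 144 * 9 / Y = (30 * 144 * 9 * 8 / Y) / 8 := by ring
    rw [e]; linarith
  have i5 : 2 / Y ≤ e₁ / 64 := by
    have := hYinv 128 (by norm_num) (by
      have : 0 ≤ 8 * 224 * Q := by positivity
      linarith)
    have e : 2 / Y = (128 / Y) / 64 := by ring
    rw [e]; linarith
  have i4 : 2 / Y ≤ e₁ / 8 := by
    have := hYinv 16 (by norm_num) (by
      have : 0 ≤ 8 * 224 * Q := by positivity
      linarith)
    have e : 2 / Y = (16 / Y) / 8 := by ring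
    rw [e]; linarith
  -- parameters
  obtain ⟨T, hT⟩ : ∃ T : ℕ, T = ⌈Y ^ b₀⌉₊ := ⟨_, rfl⟩
  have hYb₀ : 1 ≤ Y ^ b₀ := one_le_pow₀ hY1'
  have hT1 : Y ^ b₀ ≤ T := by rw [hT]; exact Nat.le_ceil _
  have hT2 : (T : ℝ) ≤ 2 * Y ^ b₀ := by
    have := Nat.ceil_lt_add_one (show 0 ≤ Y ^ b₀ by positivity)
    rw [hT]; linarith
  obtain ⟨h2, hh2⟩ : ∃ h2 : ℝ, h2 = 1 / Y ^ (2 * b₀ + 1) := ⟨_, rfl⟩
  have hh20 : 0 < h2 := by rw [hh2]; positivity
  have hh2Y : h2 ≤ 1 / Y := by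
    rw [hh2]
    apply one_div_le_one_div_of_le hY0
    calc Y = Y ^ 1 := (pow_one Y).symm
      _ ≤ _ := pow_le_pow_right₀ hY1' (by omega)
  have hh21 : h2 ≤ 1 / 2 := by
    refine hh2Y.trans ?_
    rw [div_le_div_iff₀ hY0 (by norm_num)]; linarith
  obtain ⟨K₁, hK₁⟩ : ∃ K₁ : ℕ, K₁ = ⌈Y ^ (2 * b₀ + 3)⌉₊ := ⟨_, rfl⟩
  have hYb₃ : 1 ≤ Y ^ (2 * b₀ + 3) := one_le_pow₀ hY1'
  have hK₁a : Y ^ (2 * b₀ + 3) ≤ K₁ := by rw [hK₁]; exact Nat.le_ceil _
  have hK₁b : (K₁ : ℝ) ≤ 2 * Y ^ (2 * b₀ + 3) := by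
    have := Nat.ceil_lt_add_one (show 0 ≤ Y ^ (2 * b₀ + 3) by positivity)
    rw [hK₁]; linarith
  have hK₁0 : (0 : ℝ) < K₁ := by linarith
  have hK₁1 : 1 ≤ K₁ := by
    have : 0 < K₁ := by exact_mod_cast hK₁0
    omega
  have hK₁K : K₁ ≤ K := by
    have h1 : (K₁ : ℝ) ≤ K := by
      refine hK₁b.trans (le_trans ?_ hKb)
      calc 2 * Y ^ (2 * b₀ + 3) ≤ Y * Y ^ (2 * b₀ + 3) := mul_le_mul_of_nonneg_right (by linarith) (hYp _).le
        _ = Y ^ (2 * b₀ + 4) := by ring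
        _ ≤ Y ^ (4 * b₀ + 5) := pow_le_pow_right₀ hY1' (by omega)
    exact_mod_cast h1
  have hK1 : 1 ≤ K := hK₁1.trans hK₁K
  have hK0 : (0 : ℝ) < K := by exact_mod_cast hK1
  have hK₁h2 : Y ^ 2 ≤ K₁ * h2 := by
    calc Y ^ 2 = Y ^ (2 * b₀ + 3) * h2 := by
          rw [hh2, show 2 * b₀ + 3 = 2 + (2 * b₀ + 1) by ring, pow_add]
          field_simp
      _ ≤ _ := mul_le_mul_of_nonneg_right hK₁a hh20.le
  have hlogK₁ : 1 + Real.log (4 * K₁ + 2) ≤ 2 * Y := by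
    have h1 : Real.log (4 * K₁ + 2) ≤ Y := by
      rw [Real.log_le_iff_le_exp (by positivity)]
      rw [one_mul] at g6
      linarith
    linarith
  have hK₁c : 112 * Q * (1 + Real.log (4 * K₁ + 2)) / (K₁ * h2) ≤ e₁ / 8 := by
    refine le_trans ?_ i2
    rw [div_le_div_iff₀ (by positivity) hY0]
    calc 112 * Q * (1 + Real.log (4 * K₁ + 2)) * Y ≤ 112 * Q * (2 * Y) * Y := by gcongr
      _ = 224 * Q * Y ^ 2 := by ring
      _ ≤ 224 * Q * (K₁ * h2) := by gcongr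
  have hK₁d : 1 / (K₁ : ℝ) ≤ h2 := by
    rw [div_le_iff₀ hK₁0]
    have : 1 ≤ Y ^ 2 := one_le_pow₀ hY1'
    linarith
  have hK₁e : (K₁ : ℝ) ≤ Real.exp ((1 - 1 / 2) * Y) := by
    have e : (1 - 1 / 2 : ℝ) * Y = 1 / 2 * Y := by ring
    rw [e]; linarith
  obtain ⟨r, hr⟩ : ∃ r : ℝ, r = h2 / 3 := ⟨_, rfl⟩
  have hr0 : 0 < r := by rw [hr]; positivity
  have hrY : r * Y ^ (2 * b₀ + 1) = 1 / 3 := by
    rw [hr, hh2]; field_simp
  have hKr2' : Y / 9 ≤ K * r ^ 2 := by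
    have h1 : Y ^ (4 * b₀ + 5) * r ^ 2 = Y ^ 3 * (r * Y ^ (2 * b₀ + 1)) ^ 2 := by ring
    have h3 : Y ^ (4 * b₀ + 5) * r ^ 2 ≤ K * r ^ 2 := mul_le_mul_of_nonneg_right hKb (by positivity)
    rw [h1, hrY] at h3
    have h4 : Y ≤ Y ^ 3 := by
      calc Y = Y ^ 1 := (pow_one Y).symm
        _ ≤ Y ^ 3 := pow_le_pow_right₀ hY1' (by norm_num)
    linarith
  have hr1 : r ≤ 1 := by rw [hr]; linarith
  have hKr : 1 ≤ K * r := by
    have h3 : K * r ^ 2 ≤ K * r := by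
      have : r ^ 2 ≤ r := by
        calc r ^ 2 = r * r := by ring
          _ ≤ r * 1 := mul_le_mul_of_nonneg_left hr1 hr0.le
          _ = r := mul_one r
      exact mul_le_mul_of_nonneg_left this hK0.le
    linarith
  have hKr2 : 30 * 144 / (K * r ^ 2) ≤ e₁ / 8 := by
    refine le_trans ?_ i3
    rw [div_le_div_iff₀ (by positivity) hY0]
    linarith
  have hhr : 2 * h ≤ r := by
    have h1 : h * Y ^ (4 * b₀ + 5) ≤ 1 := hhb
    have h3 : 6 * Y ^ (2 * b₀ + 1) ≤ Y ^ (4 * b₀ + 5) := by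
      calc 6 * Y ^ (2 * b₀ + 1) ≤ Y * Y ^ (2 * b₀ + 1) := mul_le_mul_of_nonneg_right (by linarith) (hYp _).le
        _ = Y ^ (2 * b₀ + 2) := by ring
        _ ≤ Y ^ (4 * b₀ + 5) := pow_le_pow_right₀ hY1' (by omega)
    have h4 : h * (6 * Y ^ (2 * b₀ + 1)) ≤ 1 := (mul_le_mul_of_nonneg_left h3 hh.le).trans h1
    have h5 : (2 * h) * Y ^ (2 * b₀ + 1) ≤ r * Y ^ (2 * b₀ + 1) := by rw [hrY]; linarith
    exact le_of_mul_le_mul_right h5 (hYp _)
  have hl4 : ∀ p ∈ SPr Y, ∀ q ∈ SPr Y, |Real.log (p : ℝ) - Real.log q| ≤ 4 := by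
    intro p hp q hq
    unfold SPr at hp hq
    rw [mem_filter] at hp hq
    have h1 := abs_lt.1 hp.2.2
    have h3 := abs_lt.1 hq.2.2
    rw [abs_le]
    constructor <;> linarith
  have hv3 : ∀ a ∈ A, ∀ c ∈ C, ∀ p ∈ SPr Y, |Real.log (p : ℝ) - (Real.log a + mc c)| ≤ 3 := by
    intro a ha c hc p hp
    unfold SPr at hp
    rw [mem_filter] at hp
    have h1 := abs_lt.1 hp.2.2
    have h3 := abs_le.1 (hv a ha c hc)
    rw [abs_le]
    constructor <;> linarith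
  obtain ⟨D, hD⟩ : ∃ D : ℝ, D = A.card * C.card := ⟨_, rfl⟩
  have hD0 : 0 ≤ D := by rw [hD]; exact mul_nonneg hAc0 hCc0
  obtain ⟨N, hN⟩ : ∃ N : ℝ, N = NA * NC := ⟨_, rfl⟩
  have hDN : D ≤ N := by rw [hD, hN]; exact mul_le_mul hNA hNC hCc0 hNA0
  have hN0 : 0 ≤ N := hD0.trans hDN
  have hEC : ∑ k ∈ FK K, wt K k * ‖TF C (fun _ => (1 : ℝ)) mc k‖ ^ 2 ≤ (1600 * Bc) * NC ^ 2 := by
    have h1 := energy_le C (fun _ => (1 : ℝ)) mc (fun _ _ => zero_le_one) K hK1 (Bc * NC) NC (by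
      intro u
      rw [sum_const, nsmul_eq_mul, mul_one]
      have := hcC u
      exact this) (mul_nonneg hBc0.le hNC0) (by simpa using hNC) hmc
    refine h1.trans (le_of_eq ?_)
    ring
  -- the high frequencies
  have hsupC : ∀ k : ℤ, ‖TF C (fun _ => (1 : ℝ)) mc k‖ ≤ NC := by
    intro k
    have := TF_le C (fun _ => (1 : ℝ)) mc (fun _ _ => zero_le_one) k
    rw [sum_const, nsmul_eq_mul, mul_one] at this
    exact this.trans hNC
  have hLsum : ∑ k ∈ (LK A K (κ * NA)).filter (fun k : ℤ => ¬ |k| ≤ (T : ℤ)), (wt K k * (‖TF C (fun _ => (1 : ℝ)) mc k‖ * ‖TA A k‖)) *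
      ‖TF (SPr Y) (xP Y) (fun p : ℕ => Real.log p) k‖ ≤ (1 / Y + 40 * Real.exp (-(η / 2 * Y))) * (NA * NC) := by
    have hsq : √Bc ≤ Real.exp (η / 2 * Y) := by
      apply Real.sqrt_le_iff.2
      refine ⟨(Real.exp_pos _).le, hBcs.trans (le_of_eq ?_)⟩
      rw [← Real.exp_nat_mul]
      congr 1; push_cast; ring
    have h0 := hkls ((LK A K (κ * NA)).filter (fun k : ℤ => ¬ |k| ≤ (T : ℤ))) ?_ ?_
      (fun k => wt K k * (‖TF C (fun _ => (1 : ℝ)) mc k‖ * ‖TA A k‖)) (NA * NC) (NA * (40 * √Bc * NC)) ?_ (by positivity) (by positivity) ?_ ?_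
    · refine h0.trans ?_
      rw [pow_one]
      have h1 : √Bc * Real.exp (-(η * Y)) ≤ Real.exp (-(η / 2 * Y)) := by
        calc √Bc * Real.exp (-(η * Y)) ≤ Real.exp (η / 2 * Y) * Real.exp (-(η * Y)) := mul_le_mul_of_nonneg_right hsq (Real.exp_pos _).le
          _ = _ := by rw [← Real.exp_add]; congr 1; ring
      calc NA * NC / Y + NA * (40 * √Bc * NC) * Real.exp (-(η * Y)) = (1 / Y + 40 * (√Bc * Real.exp (-(η * Y)))) * (NA * NC) := by ring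
        _ ≤ _ := by gcongr
    · refine le_trans ?_ hfew
      exact_mod_cast card_le_card (filter_subset _ _)
    · intro k hk
      rw [mem_filter, LK, mem_filter, FK, mem_Ioo] at hk
      obtain ⟨⟨hk1, _⟩, hk2⟩ := hk
      have h1 : |k| < K := abs_lt.2 hk1
      have h3 : |(k : ℝ)| < K := by exact_mod_cast h1
      push Not at hk2
      have h4 : (T : ℝ) < |(k : ℝ)| := by exact_mod_cast hk2
      exact ⟨by linarith, by linarith⟩
    · intro k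
      have := wt_nonneg K k
      positivity
    · intro k _
      have h1 := wt_le K k
      have h2 := wt_nonneg K k
      have h3 := (TA_le A k).trans hNA
      calc wt K k * (‖TF C (fun _ => (1 : ℝ)) mc k‖ * ‖TA A k‖) ≤ 1 * (NC * NA) := by
            have := hsupC k
            gcongr
        _ = _ := by ring
    · have h1 : ∀ k ∈ (LK A K (κ * NA)).filter (fun k : ℤ => ¬ |k| ≤ (T : ℤ)), (wt K k * (‖TF C (fun _ => (1 : ℝ)) mc k‖ * ‖TA A k‖)) ^ 2 ≤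
          NA ^ 2 * (wt K k * ‖TF C (fun _ => (1 : ℝ)) mc k‖ ^ 2) := by
        intro k _
        have h1 := wt_le K k
        have h2 := wt_nonneg K k
        have h3 := (TA_le A k).trans hNA
        calc (wt K k * (‖TF C (fun _ => (1 : ℝ)) mc k‖ * ‖TA A k‖)) ^ 2 = wt K k * (wt K k * ‖TF C (fun _ => (1 : ℝ)) mc k‖ ^ 2) * ‖TA A k‖ ^ 2 := by ring
          _ ≤ 1 * (wt K k * ‖TF C (fun _ => (1 : ℝ)) mc k‖ ^ 2) * NA ^ 2 := by gcongr
          _ = _ := by ring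
      refine (sum_le_sum h1).trans ?_
      rw [← mul_sum]
      have h2 : ∑ k ∈ (LK A K (κ * NA)).filter (fun k : ℤ => ¬ |k| ≤ (T : ℤ)), wt K k * ‖TF C (fun _ => (1 : ℝ)) mc k‖ ^ 2 ≤ (1600 * Bc) * NC ^ 2 := by
        refine le_trans (sum_le_sum_of_subset_of_nonneg ((filter_subset _ _).trans (filter_subset _ _)) ?_) hEC
        intro k _ _
        have := wt_nonneg K k
        positivity
      calc NA ^ 2 * _ ≤ NA ^ 2 * ((1600 * Bc) * NC ^ 2) := mul_le_mul_of_nonneg_left h2 (by positivity)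
        _ = (NA * (40 * √Bc * NC)) ^ 2 := by
          rw [mul_pow, mul_pow, mul_pow, Real.sq_sqrt hBc0.le]; ring
  have hLnum : 2 * (1 / Y + 40 * Real.exp (-(η / 2 * Y))) ≤ e₁ / 32 := by
    have h1 : 80 * Real.exp (-(η / 2 * Y)) ≤ e₁ / 64 := by
      have h2 : Real.exp (η / 2 * Y) * Real.exp (-(η / 2 * Y)) = 1 := by rw [← Real.exp_add]; simp
      have h3 : 80 * 64 * Y * Real.exp (-(η / 2 * Y)) ≤ 1 := by
        rw [← h2]
        rw [pow_one] at g8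
        exact mul_le_mul_of_nonneg_right g8 (Real.exp_pos _).le
      have h4 : 1 / Y ≤ e₁ := by
        have : (0 : ℝ) ≤ 2 / Y := by positivity
        have e : 1 / Y = (2 / Y) / 2 := by ring
        rw [e]; linarith
      have h5 : 80 * 64 * Real.exp (-(η / 2 * Y)) ≤ 1 / Y := by
        rw [le_div_iff₀ hY0]; linarith
      linarith
    have e : 2 * (1 / Y + 40 * Real.exp (-(η / 2 * Y))) = 2 / Y + 80 * Real.exp (-(η / 2 * Y)) := by ring
    rw [e]; linarith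
  have hYτ2 : Y ^ (-τ) * Y ^ (τ / 2) = e₁ ^ 2 := by
    rw [he₁, ← Real.rpow_natCast, ← Real.rpow_mul hY0.le, ← Real.rpow_add hY0]
    congr 1; push_cast; ring
  have hsqrt : √(4 * (1600 * Bc) * (κ ^ 2 * E)) ≤ e₁ / 32 := by
    apply Real.sqrt_le_iff.2
    refine ⟨by positivity, ?_⟩
    have hYm : 0 < Y ^ (-τ) := by positivity
    calc 4 * (1600 * Bc) * (κ ^ 2 * E) = 6400 * (κ ^ 2 * Bc * E) := by ring
      _ ≤ 6400 * Y ^ (-τ) := by gcongr
      _ = Y ^ (-τ) * (6400 * 1024) / 1024 := by ring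
      _ ≤ Y ^ (-τ) * Y ^ (τ / 2) / 1024 := by gcongr
      _ = e₁ ^ 2 / 1024 := by rw [hYτ2]
      _ = (e₁ / 32) ^ 2 := by ring
  have hfreq : ∀ s s' : ℝ, |s| ≤ 3 * r → 0 ≤ s' → s' ≤ h2 → |FS A C mc (SPr Y) (xP Y) (fun p : ℕ => Real.log p) K s -
      FS A C mc (SPr Y) (xP Y) (fun p : ℕ => Real.log p) K₁ s'| ≤ e₁ / 8 * N := by
    intro s s' hs hs1 hs2
    refine (freq4 A C mc (SPr Y) (xP Y) (fun p : ℕ => Real.log p) (fun p _ => xP_nonneg Y p) K K₁ hK₁1 hK₁K s s'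
      T (1 / Y + 40 * Real.exp (-(η / 2 * Y))) E κ (1600 * Bc) 144 NA NC hE hκ0.le (by positivity) hNA0 hNC0 (SPr_total Y) hEC hEP hLsum).trans ?_
    rw [← hD, ← hN]
    have hs3 : |s| ≤ h2 := by rw [hr] at hs; linarith
    have hs4 : |s'| ≤ h2 := by rw [abs_of_nonneg hs1]; exact hs2
    have h1 : 1 / (K : ℝ) ≤ h2 := by
      refine le_trans ?_ hK₁d
      apply one_div_le_one_div_of_le hK₁0
      exact_mod_cast hK₁K
    have h3 : (2 * (T : ℝ) + 1) * T * (1 / K + 1 / K₁ + |s| + |s'|) * 144 ≤ e₁ / 16 := by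
      have h9 : h2 * (Y ^ b₀ * Y ^ b₀) = 1 / Y := by
        rw [hh2, ← pow_add, show 2 * b₀ + 1 = (b₀ + b₀) + 1 by ring, pow_succ Y (b₀ + b₀)]
        field_simp
      have h10 : 2 * (T : ℝ) + 1 ≤ 5 * Y ^ b₀ := by linarith
      calc (2 * (T : ℝ) + 1) * T * (1 / K + 1 / K₁ + |s| + |s'|) * 144 ≤ (5 * Y ^ b₀) * (2 * Y ^ b₀) * (h2 + h2 + h2 + h2) * 144 := by
            have := (hYp b₀).le
            gcongr
        _ = 144 * 40 * (h2 * (Y ^ b₀ * Y ^ b₀)) := by ring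
        _ = 144 * 40 / Y := by rw [h9]; ring
        _ ≤ e₁ / 16 := i1
    have hhi : 2 * (1 / Y + 40 * Real.exp (-(η / 2 * Y))) + √(4 * (1600 * Bc) * (κ ^ 2 * E)) ≤ e₁ / 16 := by linarith
    calc _ ≤ e₁ / 16 * D + e₁ / 16 * N := by gcongr
      _ ≤ e₁ / 16 * N + e₁ / 16 * N := by gcongr
      _ = _ := by ring
  -- the long scale
  have h5 := Sh_near A C mc (SPr Y) (xP Y) (fun p : ℕ => Real.log p) (fun p _ => xP_nonneg Y p) K₁ hK₁1 Q
    (hcell Y hYa K₁ hK₁1 hK₁e) hQ0.le h2 hh20.le (by linarith) hv3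
  have hYm : 1 / Y ^ (2 * b₀ + 2) ≤ h2 * (1 / Y) := by
    apply le_of_eq
    rw [hh2, show 2 * b₀ + 2 = (2 * b₀ + 1) + 1 by ring, pow_succ Y (2 * b₀ + 1)]
    field_simp
  have hpn := Sh_pnt A C mc Y h2 (h2 * (2 / Y)) hh20 hv (fun v hvY => by
    have h1 := hpnt Y hYc h2 hh20 hh21 v hvY
    have h3 : h2 ^ 2 + 1 / Y ^ (2 * b₀ + 2) ≤ h2 * (2 / Y) := by
      have h4 : h2 ^ 2 ≤ h2 * (1 / Y) := by
        rw [pow_two]; exact mul_le_mul_of_nonneg_left hh2Y hh20.le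
      have e : h2 * (2 / Y) = h2 * (1 / Y) + h2 * (1 / Y) := by ring
      rw [e]; linarith
    refine le_trans ?_ (h1.trans h3)
    apply le_of_eq
    congr 2)
  rw [← hD] at h5 hpn
  obtain ⟨I2, hI2⟩ : ∃ I2 : ℝ, I2 = ∫ s in (0 : ℝ)..h2, FS A C mc (SPr Y) (xP Y) (fun p : ℕ => Real.log p) K₁ s := ⟨_, rfl⟩
  obtain ⟨S2, hS2⟩ : ∃ S2 : ℝ, S2 = Sh A C mc (SPr Y) (xP Y) (fun p : ℕ => Real.log p) h2 := ⟨_, rfl⟩
  rw [← hI2, ← hS2] at h5
  rw [← hS2] at hpn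
  have hpi := Real.pi_gt_d2
  have hpi0 := Real.pi_pos
  have h6 : |(2 * Real.pi)⁻¹ * (I2 / h2) - D| ≤ e₁ / 4 * N := by
    have e : (2 * Real.pi)⁻¹ * (I2 / h2) - D = (S2 / h2 - D) - (S2 - (2 * Real.pi)⁻¹ * I2) / h2 := by ring
    rw [e]
    have h7 : |(S2 - (2 * Real.pi)⁻¹ * I2) / h2| ≤ e₁ / 8 * D := by
      rw [abs_div, abs_of_pos hh20, div_le_iff₀ hh20]
      refine h5.trans ?_
      have h8 : 112 * Q * (1 + Real.log (4 * K₁ + 2)) / K₁ ≤ e₁ / 8 * h2 := by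
        rw [div_le_iff₀ (by positivity)] at hK₁c ⊢
        linarith
      calc 112 * Q * (1 + Real.log (4 * K₁ + 2)) / K₁ * D ≤ (e₁ / 8 * h2) * D := mul_le_mul_of_nonneg_right h8 hD0
        _ = _ := by ring
    have h9 : |S2 / h2 - D| ≤ e₁ / 8 * D := by
      refine hpn.trans (mul_le_mul_of_nonneg_right ?_ hD0)
      rw [mul_comm, mul_div_assoc, div_self hh20.ne', mul_one]
      exact i4
    refine (abs_sub _ _).trans ?_
    have h10 : e₁ / 4 * D ≤ e₁ / 4 * N := mul_le_mul_of_nonneg_left hDN (by positivity)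
    linarith
  have hFS : ∀ s : ℝ, |s| ≤ 3 * r → |FS A C mc (SPr Y) (xP Y) (fun p : ℕ => Real.log p) K s - 2 * Real.pi * (A.card * C.card)| ≤
      2 * Real.pi * (e₁ / 2 * N) := by
    intro s hs
    rw [← hD]
    have h7 := avg_close (fun _ => FS A C mc (SPr Y) (xP Y) (fun p : ℕ => Real.log p) K s) _ continuous_const
      (FS_cont A C mc (SPr Y) (xP Y) (fun p : ℕ => Real.log p) K₁) 1 h2 (e₁ / 8 * N) one_pos hh20
      (fun _ s' _ _ h3 h4 => hfreq s s' hs h3 h4)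
    rw [intervalIntegral.integral_const, smul_eq_mul, sub_zero, one_mul, div_one, ← hI2] at h7
    have h8 : |I2 / h2 - 2 * Real.pi * D| ≤ 2 * Real.pi * (e₁ / 4 * N) := by
      have e : I2 / h2 - 2 * Real.pi * D = 2 * Real.pi * ((2 * Real.pi)⁻¹ * (I2 / h2) - D) := by
        field_simp
      rw [e, abs_mul, abs_of_pos (by positivity)]
      gcongr
    have e : FS A C mc (SPr Y) (xP Y) (fun p : ℕ => Real.log p) K s - 2 * Real.pi * D =
        (FS A C mc (SPr Y) (xP Y) (fun p : ℕ => Real.log p) K s - I2 / h2) + (I2 / h2 - 2 * Real.pi * D) := by ring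
    rw [e]
    refine (abs_add_le _ _).trans ((add_le_add h7 h8).trans ?_)
    have hδD : 0 ≤ e₁ * N := mul_nonneg he₁0.le hN0
    have h9 : 1 * (e₁ * N) ≤ 2 * Real.pi * (e₁ * N) := mul_le_mul_of_nonneg_right (by linarith) hδD
    have e5 : 2 * Real.pi * (e₁ / 4 * N) = 2 * Real.pi * (e₁ * N) / 4 := by ring
    have e6 : 2 * Real.pi * (e₁ / 2 * N) = 2 * Real.pi * (e₁ * N) / 2 := by ring
    rw [e5, e6]
    linarith
  have hfin := tri_win2 A C mc (SPr Y) (xP Y) (fun p : ℕ => Real.log p) (fun p _ => xP_nonneg Y p) K hK1 h r 144 (e₁ / 2 * N)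
    (by positivity) hFS hh (by linarith) (hL01.trans hKh) hhr hKr (SPr_total Y) hv3
  refine hfin.trans ?_
  rw [← hD, ← hN, ← he₁]
  have h7 := hL0 (K * h) hKh
  have h8 : 14 * (2600 + 112 * Real.log (3 * (K * h) + 3)) / (K * h) * (D + e₁ / 2 * N) ≤ δ / 4 * (D + e₁ / 2 * N) :=
    mul_le_mul_of_nonneg_right h7 (by positivity)
  have h9 : 30 * 144 / (K * r ^ 2) * D ≤ e₁ / 8 * N := mul_le_mul hKr2 hDN hD0 (by positivity)
  have h10 : δ / 4 * (e₁ / 2 * N) ≤ 1 / 4 * (e₁ / 2 * N) := mul_le_mul_of_nonneg_right (by linarith) (by positivity)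
  have h11 : 0 ≤ δ * D := by positivity
  have h12 : 0 ≤ e₁ * N := by positivity
  have e7 : δ / 4 * (D + e₁ / 2 * N) = δ * D / 4 + δ / 4 * (e₁ / 2 * N) := by ring
  rw [e7] at h8
  have e8 : e₁ / 2 * N = (e₁ * N) / 2 := by ring
  have e9 : e₁ / 8 * N = (e₁ * N) / 8 := by ring
  rw [e8] at h8 h10 ⊢
  rw [e9] at h9
  linarith

end Pool.Agent.J4H33
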