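import Pool.Agent.Y851.PT.P4
import Pool.Agent.J4H33.LV

/-!
# The energy of the primes at short scales, uniformly
-/

set_option autoImplicit false

namespace Pool.Agent.J4H33

open Finset Filter
open Pool.Agent.H376R2.MR (Fj FK ch Fj_nonneg Fj_le ls_norm_ch)
open Pool.Agent.Y851.PS
open Pool.Agent.Y851.PT

theorem EP2 : ∃ C₀ Y₀ : ℝ, 1 ≤ C₀ ∧ ∀ Y : ℝ, Y₀ ≤ Y → ∀ K : ℕ, 1 ≤ K → ∀ R : ℝ, 1 ≤ R → (K : ℝ) ≤ R * (Real.exp Y / Y) →
    ∑ k ∈ FK K, wt K k * ‖TF (SPr Y) (xP Y) (fun p : ℕ => Real.log p) k‖ ^ 2 ≤ C₀ * R := by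
  classical
  obtain ⟨C, Y₀, hC, hY₀, hpl⟩ := pairs_log
  refine ⟨320 * C + 1, Y₀, by linarith, fun Y hY K hK R hR hKR => ?_⟩
  have hfin : 320 * (C * R) ≤ (320 * C + 1) * R := by
    have e : (320 * C + 1) * R = 320 * (C * R) + R := by ring
    rw [e]; linarith
  refine le_trans ?_ hfin
  have hY1 : 1 ≤ Y := hY₀.trans hY
  have hK0 : (0 : ℝ) < K := by exact_mod_cast hK
  have hx0 := fun p => xP_nonneg Y p
  rw [energy_eq]
  -- number of scales
  set n : ℕ := Nat.clog 2 (4 * K) + 1 with hn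
  have hn1 : 4 * K ≤ 2 ^ (Nat.clog 2 (4 * K)) := Nat.le_pow_clog (by norm_num) _
  have hF : ∀ y : ℝ, |y| ≤ 4 → Fj K y ≤ ∑ i ∈ range n, (160 * K * (1 / 4) ^ i) * (if |y| ≤ 2 ^ i / K then (1 : ℝ) else 0) := by
    intro y hy
    have hnn : ∀ i ∈ range n, 0 ≤ (160 * K * (1 / 4 : ℝ) ^ i) * (if |y| ≤ 2 ^ i / K then (1 : ℝ) else 0) := by
      intro i _
      split_ifs <;> positivity
    rcases le_or_gt (K * |y|) 1 with h1 | h1
    · refine (Fj_le K y).trans ?_
      refine le_trans ?_ (single_le_sum hnn (mem_range.2 (show 0 < n by omega)))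
      rw [pow_zero, pow_zero, if_pos (by rw [le_div_iff₀ hK0]; linarith)]
      linarith
    · -- the dyadic scale
      have hex : ∃ i : ℕ, K * |y| ≤ 2 ^ i := ⟨Nat.clog 2 (4 * K), by
        have h2 : ((4 * K : ℕ) : ℝ) ≤ ((2 ^ (Nat.clog 2 (4 * K)) : ℕ) : ℝ) := by exact_mod_cast hn1
        push_cast at h2
        calc K * |y| ≤ K * 4 := by gcongr
          _ = 4 * K := by ring
          _ ≤ _ := h2⟩
      set i := Nat.find hex with hi
      have hi1 : K * |y| ≤ 2 ^ i := Nat.find_spec hex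
      have hi0 : i ≠ 0 := by
        intro h0
        rw [h0, pow_zero] at hi1
        linarith
      obtain ⟨j, hj⟩ := Nat.exists_eq_succ_of_ne_zero hi0
      have hj1 : ¬ K * |y| ≤ 2 ^ j := Nat.find_min hex (by omega)
      rw [not_le] at hj1
      have hin : i < n := by
        have h2 : i ≤ Nat.clog 2 (4 * K) := Nat.find_min' hex (by
          have h2 : ((4 * K : ℕ) : ℝ) ≤ ((2 ^ (Nat.clog 2 (4 * K)) : ℕ) : ℝ) := by exact_mod_cast hn1
          push_cast at h2
          calc K * |y| ≤ K * 4 := by gcongr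
            _ = 4 * K := by ring
            _ ≤ _ := h2)
        omega
      have hy0 : 0 < |y| := by
        by_contra hcon
        have : |y| = 0 := le_antisymm (not_lt.1 hcon) (abs_nonneg y)
        rw [this] at h1
        linarith
      have hyne : y ≠ 0 := abs_pos.1 hy0
      refine (Fj_dec hK hyne hy).trans ?_
      refine le_trans ?_ (single_le_sum hnn (mem_range.2 hin))
      rw [if_pos (by rw [le_div_iff₀ hK0]; linarith), mul_one]
      have h3 : (2 : ℝ) ^ i = 2 * 2 ^ j := by rw [hj, Nat.succ_eq_add_one, pow_succ]; ring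
      have h4 : ((2 : ℝ) ^ i) ^ 2 ≤ 4 * (K * |y|) ^ 2 := by
        rw [h3, mul_pow]
        have h5 : ((2 : ℝ) ^ j) ^ 2 ≤ (K * |y|) ^ 2 := pow_le_pow_left₀ (by positivity) hj1.le 2
        linarith
      have h5 : (1 / 4 : ℝ) ^ i = 1 / (2 ^ i) ^ 2 := by
        rw [one_div_pow, ← pow_mul, mul_comm i 2, pow_mul]
        norm_num
      rw [h5]
      have h6 : (K * |y|) ^ 2 = K ^ 2 * y ^ 2 := by rw [mul_pow, sq_abs]
      rw [h6] at h4
      have h7 : (0 : ℝ) < (2 ^ i) ^ 2 := by positivity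
      have e : 160 * (K : ℝ) * (1 / (2 ^ i) ^ 2) = 160 * K / (2 ^ i) ^ 2 := by ring
      rw [e, div_le_div_iff₀ (by positivity) h7]
      calc 40 * ((2 : ℝ) ^ i) ^ 2 ≤ 40 * (4 * (K ^ 2 * y ^ 2)) := by gcongr
        _ = 160 * K * (K * y ^ 2) := by ring
  calc ∑ p ∈ SPr Y, xP Y p * ∑ q ∈ SPr Y, xP Y q * Fj K (Real.log q - Real.log p)
      ≤ ∑ p ∈ SPr Y, xP Y p * ∑ q ∈ SPr Y, xP Y q * ∑ i ∈ range n, (160 * K * (1 / 4) ^ i) * (if |Real.log q - Real.log p| ≤ 2 ^ i / K then (1 : ℝ) else 0) := by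
        apply sum_le_sum
        intro p hp
        apply mul_le_mul_of_nonneg_left _ (hx0 p)
        apply sum_le_sum
        intro q hq
        apply mul_le_mul_of_nonneg_left _ (hx0 q)
        apply hF
        unfold SPr at hp hq
        rw [mem_filter] at hp hq
        have h1 := abs_lt.1 hp.2.2
        have h3 := abs_lt.1 hq.2.2
        rw [abs_le]
        constructor <;> linarith
    _ = ∑ p ∈ SPr Y, ∑ q ∈ SPr Y, ∑ i ∈ range n, (160 * K * (1 / 4) ^ i) *
        (if |Real.log q - Real.log p| ≤ 2 ^ i / K then xP Y p * xP Y q else 0) := by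
        apply sum_congr rfl
        intro p _
        rw [mul_sum]
        apply sum_congr rfl
        intro q _
        rw [mul_sum, mul_sum]
        apply sum_congr rfl
        intro i _
        split_ifs <;> ring
    _ = ∑ p ∈ SPr Y, ∑ i ∈ range n, ∑ q ∈ SPr Y, (160 * K * (1 / 4) ^ i) *
        (if |Real.log q - Real.log p| ≤ 2 ^ i / K then xP Y p * xP Y q else 0) :=
        sum_congr rfl fun p _ => sum_comm
    _ = ∑ i ∈ range n, ∑ p ∈ SPr Y, ∑ q ∈ SPr Y, (160 * K * (1 / 4) ^ i) *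
        (if |Real.log q - Real.log p| ≤ 2 ^ i / K then xP Y p * xP Y q else 0) := sum_comm
    _ = ∑ i ∈ range n, (160 * K * (1 / 4) ^ i) * ∑ p ∈ SPr Y, ∑ q ∈ (SPr Y).filter (fun q : ℕ => |Real.log q - Real.log p| ≤ 2 ^ i / K), xP Y p * xP Y q := by
        apply sum_congr rfl
        intro i _
        rw [mul_sum]
        apply sum_congr rfl
        intro p _
        rw [← mul_sum, sum_filter]
    _ ≤ ∑ i ∈ range n, (160 * K * (1 / 4) ^ i) * (C * (R * (2 ^ i / K))) := by
        apply sum_le_sum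
        intro i _
        apply mul_le_mul_of_nonneg_left _ (by positivity)
        have hrr : Y * Real.exp (-Y) ≤ R * (2 ^ i / K) := by
          have h1 : Y * Real.exp (-Y) ≤ R / K := by
            rw [le_div_iff₀ hK0]
            calc Y * Real.exp (-Y) * K ≤ Y * Real.exp (-Y) * (R * (Real.exp Y / Y)) := by gcongr
              _ = R := by
                rw [Real.exp_neg]
                have := Real.exp_pos Y
                field_simp
          have h2 : (1 : ℝ) ≤ 2 ^ i := one_le_pow₀ (by norm_num)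
          calc Y * Real.exp (-Y) ≤ R / K := h1
            _ = R * (1 / K) := by ring
            _ ≤ _ := by gcongr
        refine le_trans ?_ (hpl Y hY (R * (2 ^ i / K)) hrr)
        apply sum_le_sum
        intro p _
        apply sum_le_sum_of_subset_of_nonneg
        · intro q hq
          rw [mem_filter] at hq ⊢
          refine ⟨hq.1, hq.2.trans ?_⟩
          have : 0 ≤ (2 : ℝ) ^ i / K := by positivity
          nlinarith
        · intro q _ _
          exact mul_nonneg (hx0 p) (hx0 q)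
    _ = 160 * (C * R) * ∑ i ∈ range n, (1 / 2 : ℝ) ^ i := by
        rw [mul_sum]
        apply sum_congr rfl
        intro i _
        have h1 : (1 / 4 : ℝ) ^ i * 2 ^ i = (1 / 2) ^ i := by rw [← mul_pow]; norm_num
        have e : 160 * (K : ℝ) * (1 / 4) ^ i * (C * (R * (2 ^ i / K))) = 160 * (C * R) * ((1 / 4) ^ i * 2 ^ i) := by
          field_simp
        rw [e, h1]
    _ ≤ 160 * (C * R) * 2 := by
        apply mul_le_mul_of_nonneg_left _ (by positivity)
        have h1 := Summable.sum_le_tsum (range n) (fun i _ => (by positivity : (0 : ℝ) ≤ (1 / 2 : ℝ) ^ i)) (summable_geometric_of_lt_one (by norm_num) (by norm_num))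
        rw [tsum_geometric_of_lt_one (by norm_num) (by norm_num)] at h1
        norm_num at h1 ⊢
        linarith
    _ = 320 * (C * R) := by ring

end Pool.Agent.J4H33
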