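import Pool.Agent.J4H33.LV

/-!
# Few large values, with an arbitrary threshold, for short multipliers
-/

set_option autoImplicit false

namespace Pool.Agent.J4H33

open Finset Filter
open Pool.Agent.H376R2.MR (Fj FK ch ls_norm_ch)
open Pool.Agent.Y851.PS (TF)

/-- few large values: the threshold is `e^{-m/2} N` -/
theorem few3 (c c₁ ε v : ℝ) (hc₁ : 0 < c₁) (hε : 0 < ε) (hv1 : v ≤ 1) (h : c₁ + (1 + v) * ε < c) :
    ∀ᶠ Y : ℝ in atTop, ∀ V m : ℝ, 0 ≤ m → Real.log Y + m ≤ c₁ * V → m ≤ (c - (c₁ + (1 + v) * ε)) / 4 * Y → V ≤ v * Y →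
      ∀ (A : Finset ℕ), (∀ a ∈ A, a.Prime ∧ |Real.log a - V| ≤ 1 / 2) →
      ∀ N : ℝ, (A.card : ℝ) ≤ N → Real.exp ((1 - ε) * V) ≤ N → ∀ K : ℕ, (K : ℝ) ≤ Real.exp Y →
      (((FK K).filter (fun k => Real.exp (-(m / 2)) * N ≤ ‖TA A k‖)).card : ℝ) ≤ Real.exp (c * Y) := by
  obtain ⟨C, hC, hmom⟩ := momA
  obtain ⟨s, hs⟩ : ∃ s, s = c - (c₁ + (1 + v) * ε) := ⟨_, rfl⟩
  have hs0 : 0 < s := by rw [hs]; linarith
  rw [← hs]
  have hlogY : Tendsto (fun Y : ℝ => Real.log Y) atTop atTop := Real.tendsto_log_atTop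
  have e1 : ∀ᶠ Y : ℝ in atTop, Real.log Y ≤ s / 8 * Y := by
    have h1 := (Real.isLittleO_log_id_atTop).bound (show 0 < s / 8 by positivity)
    filter_upwards [h1, eventually_ge_atTop 1] with Y hY hY1
    rw [Real.norm_eq_abs, Real.norm_eq_abs, id, abs_of_nonneg (Real.log_nonneg hY1), abs_of_nonneg (by linarith)] at hY
    exact hY
  filter_upwards [eventually_ge_atTop 3, e1, hlogY.eventually_ge_atTop (2 * c₁), hlogY.eventually_ge_atTop (8 * c₁ / s),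
    ev_poly_exp 1 (s / 8) (4 * C) (by positivity), eventually_ge_atTop (8 / s)] with Y hY3 g1 g2 g3 g4 g5 V m hm0 hV1 hms hV2' A hA N hAN hcard K hK
  have hY0 : 0 < Y := by linarith
  have hV2 : V ≤ Y := by
    have := mul_le_mul_of_nonneg_right hv1 hY0.le
    linarith
  obtain ⟨l, hl⟩ : ∃ l, l = Real.log Y := ⟨_, rfl⟩
  rw [← hl] at g1 g2 g3 hV1
  have hl0 : 0 < l := by
    have : 0 < 2 * c₁ := by positivity
    linarith
  have hVl : 8 / s ≤ V := by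
    have h1 : c₁ * (8 / s) ≤ c₁ * V := by
      have e : c₁ * (8 / s) = 8 * c₁ / s := by ring
      rw [e]; linarith
    exact le_of_mul_le_mul_left h1 hc₁
  have hV2p : 2 ≤ V := by
    have h1 : c₁ * 2 ≤ c₁ * V := by linarith
    exact le_of_mul_le_mul_left h1 hc₁
  have hV0 : 0 < V := by linarith
  rcases Nat.eq_zero_or_pos K with hK0 | hKpos
  · subst hK0
    have : (FK 0).filter (fun k => Real.exp (-(m / 2)) * N ≤ ‖TA A k‖) = ∅ := by
      unfold FK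
      simp
    rw [this, card_empty]
    simpa using (Real.exp_pos _).le
  have hA0 : (0 : ℝ) < N := lt_of_lt_of_le (Real.exp_pos _) hcard
  obtain ⟨ℓ, hℓ⟩ : ∃ ℓ : ℕ, ℓ = ⌈Y / V⌉₊ := ⟨_, rfl⟩
  have hYV : 0 ≤ Y / V := by positivity
  have hℓ1 : Y ≤ V * ℓ := by
    have h1 : Y / V ≤ ℓ := by rw [hℓ]; exact Nat.le_ceil _
    rw [div_le_iff₀ hV0] at h1
    linarith
  have hℓ2 : (ℓ : ℝ) ≤ Y / V + 1 := by rw [hℓ]; exact (Nat.ceil_lt_add_one hYV).le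
  have hℓpos : 1 ≤ ℓ := by
    rcases Nat.eq_zero_or_pos ℓ with h0 | h0
    · rw [h0] at hℓ1
      simp at hℓ1
      linarith
    · exact h0
  have hℓ0 : (0 : ℝ) < ℓ := by exact_mod_cast hℓpos
  have hVℓ : V * ℓ ≤ (1 + v) * Y := by
    calc V * ℓ ≤ V * (Y / V + 1) := mul_le_mul_of_nonneg_left hℓ2 hV0.le
      _ = Y + V := by field_simp
      _ ≤ (1 + v) * Y := by linarith
  have hℓY : (ℓ : ℝ) ≤ Y := by
    have h1 : Y / V ≤ Y / 2 := div_le_div_of_nonneg_left hY0.le (by norm_num) hV2p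
    linarith
  have hℓl : (ℓ : ℝ) * (l + m) ≤ c₁ * Y + (l + m) := by
    have h1 : Y / V * (l + m) ≤ c₁ * Y := by
      rw [div_mul_eq_mul_div, div_le_iff₀ hV0]
      calc Y * (l + m) ≤ Y * (c₁ * V) := mul_le_mul_of_nonneg_left hV1 hY0.le
        _ = _ := by ring
    calc (ℓ : ℝ) * (l + m) ≤ (Y / V + 1) * (l + m) := mul_le_mul_of_nonneg_right hℓ2 (by linarith)
      _ = Y / V * (l + m) + (l + m) := by ring
      _ ≤ _ := by linarith
  have hℓh : (ℓ : ℝ) / 2 ≤ s / 8 * Y := by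
    rw [div_le_iff₀ hs0] at hVl g5
    have h1 : Y / V ≤ s / 8 * Y := by
      rw [div_le_iff₀ hV0]
      nlinarith
    linarith
  have hfac : (ℓ.factorial : ℝ) ≤ Real.exp (ℓ * l) := by
    have h1 : (ℓ.factorial : ℝ) ≤ (ℓ : ℝ) ^ ℓ := by exact_mod_cast Nat.factorial_le_pow ℓ
    refine h1.trans ?_
    calc (ℓ : ℝ) ^ ℓ ≤ Y ^ ℓ := pow_le_pow_left₀ hℓ0.le hℓY _
      _ = Real.exp (ℓ * l) := by rw [hl, Real.exp_nat_mul, Real.exp_log hY0]
  have hm := hmom A ℓ K V hA (by linarith) hKpos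
  set F := (FK K).filter (fun k => Real.exp (-(m / 2)) * N ≤ ‖TA A k‖) with hF
  have h1 : (F.card : ℝ) * (Real.exp (-(m / 2)) * N) ^ (2 * ℓ) ≤ ∑ k ∈ FK K, ‖TA A k‖ ^ (2 * ℓ) := by
    calc (F.card : ℝ) * (Real.exp (-(m / 2)) * N) ^ (2 * ℓ) = ∑ _k ∈ F, (Real.exp (-(m / 2)) * N) ^ (2 * ℓ) := by
          rw [sum_const, nsmul_eq_mul]
      _ ≤ ∑ k ∈ F, ‖TA A k‖ ^ (2 * ℓ) := by
          apply sum_le_sum
          intro k hk
          rw [hF, mem_filter] at hk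
          exact pow_le_pow_left₀ (by positivity) hk.2 _
      _ ≤ _ := sum_le_sum_of_subset_of_nonneg (filter_subset _ _) fun k _ _ => by positivity
  have hANℓ : (A.card : ℝ) ^ ℓ ≤ N ^ ℓ := pow_le_pow_left₀ (Nat.cast_nonneg _) hAN ℓ
  have h2 : (F.card : ℝ) * (Real.exp (-(m / 2)) * N) ^ (2 * ℓ) ≤
      C * (1 + (ℓ : ℝ)) * ((ℓ.factorial : ℝ) * (Real.exp ((V + 1 / 2) * ℓ) + K) * N ^ ℓ) :=
    (h1.trans hm).trans (by gcongr)
  have e2 : (Real.exp (-(m / 2)) * N) ^ (2 * ℓ) = Real.exp (-(ℓ * m)) * N ^ ℓ * N ^ ℓ := by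
    rw [mul_pow, ← Real.exp_nat_mul, two_mul ℓ, pow_add, ← mul_assoc]
    congr 2
    · congr 1
      push_cast; ring
  rw [e2] at h2
  have hAℓ : 0 < N ^ ℓ := by positivity
  have h3 : (F.card : ℝ) * (Real.exp (-(ℓ * m)) * N ^ ℓ) ≤
      C * (1 + (ℓ : ℝ)) * ((ℓ.factorial : ℝ) * (Real.exp ((V + 1 / 2) * ℓ) + K)) := by
    have h4 : ((F.card : ℝ) * (Real.exp (-(ℓ * m)) * N ^ ℓ)) * N ^ ℓ ≤
        (C * (1 + (ℓ : ℝ)) * ((ℓ.factorial : ℝ) * (Real.exp ((V + 1 / 2) * ℓ) + K))) * N ^ ℓ := by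
      calc ((F.card : ℝ) * (Real.exp (-(ℓ * m)) * N ^ ℓ)) * N ^ ℓ =
            (F.card : ℝ) * (Real.exp (-(ℓ * m)) * N ^ ℓ * N ^ ℓ) := by ring
        _ ≤ _ := h2
        _ = _ := by ring
    exact le_of_mul_le_mul_right h4 hAℓ
  have h4 : Real.exp ((1 - ε) * V * ℓ) ≤ N ^ ℓ := by
    calc Real.exp ((1 - ε) * V * ℓ) = Real.exp ((1 - ε) * V) ^ ℓ := by
          rw [← Real.exp_nat_mul]; congr 1; ring
      _ ≤ _ := pow_le_pow_left₀ (Real.exp_pos _).le hcard _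
  have h5 : (F.card : ℝ) * (Real.exp (-(ℓ * m)) * Real.exp ((1 - ε) * V * ℓ)) ≤
      C * (2 * Y) * (Real.exp (ℓ * l) * (2 * Real.exp ((V + 1 / 2) * ℓ))) := by
    refine le_trans ?_ (h3.trans ?_)
    · gcongr
    · have h6 : (K : ℝ) ≤ Real.exp ((V + 1 / 2) * ℓ) := by
        refine hK.trans (Real.exp_le_exp.2 ?_)
        linarith
      have h7 : 1 + (ℓ : ℝ) ≤ 2 * Y := by linarith
      gcongr
      linarith
  have h6 : (F.card : ℝ) ≤ 4 * C * Y * Real.exp (ℓ * (l + m) + ℓ / 2 + ε * (V * ℓ)) := by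
    have e3 : Real.exp (-(ℓ * m)) * Real.exp ((1 - ε) * V * ℓ) * Real.exp (ℓ * m - (1 - ε) * V * ℓ) = 1 := by
      rw [← Real.exp_add, ← Real.exp_add]
      simp
    calc (F.card : ℝ) = (F.card : ℝ) * (Real.exp (-(ℓ * m)) * Real.exp ((1 - ε) * V * ℓ)) * Real.exp (ℓ * m - (1 - ε) * V * ℓ) := by
          rw [mul_assoc, e3, mul_one]
      _ ≤ C * (2 * Y) * (Real.exp (ℓ * l) * (2 * Real.exp ((V + 1 / 2) * ℓ))) * Real.exp (ℓ * m - (1 - ε) * V * ℓ) :=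
          mul_le_mul_of_nonneg_right h5 (Real.exp_pos _).le
      _ = 4 * C * Y * (Real.exp (ℓ * l) * Real.exp ((V + 1 / 2) * ℓ) * Real.exp (ℓ * m - (1 - ε) * V * ℓ)) := by ring
      _ = _ := by
          rw [← Real.exp_add, ← Real.exp_add]
          congr 2
          ring
  refine h6.trans ?_
  rw [pow_one] at g4
  calc 4 * C * Y * Real.exp (ℓ * (l + m) + ℓ / 2 + ε * (V * ℓ)) ≤
        Real.exp (s / 8 * Y) * Real.exp ((c₁ * Y + (l + m)) + s / 8 * Y + ε * ((1 + v) * Y)) := by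
        apply mul_le_mul g4 (Real.exp_le_exp.2 _) (Real.exp_pos _).le (Real.exp_pos _).le
        have a2 : ε * (V * ℓ) ≤ ε * ((1 + v) * Y) := mul_le_mul_of_nonneg_left hVℓ hε.le
        linarith
    _ = Real.exp (s / 8 * Y + ((c₁ * Y + (l + m)) + s / 8 * Y + ε * ((1 + v) * Y))) := (Real.exp_add _ _).symm
    _ ≤ Real.exp (c * Y) := by
        apply Real.exp_le_exp.2
        have a5 : c = s + (c₁ + (1 + v) * ε) := by rw [hs]; ring
        have a6 : c * Y = s * Y + c₁ * Y + ε * ((1 + v) * Y) := by rw [a5]; ring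
        rw [a6]
        have a7 : 0 ≤ s * Y := by positivity
        linarith

end Pool.Agent.J4H33
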