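import Pool.Agent.J4H33.Stm
import Pool.Agent.J4H33.LV3

/-!
# The cut norm, with power saving in the density of the dilations, for short windows
-/

set_option autoImplicit false

namespace Pool.Agent.J4H33

open Finset Filter
open Pool.Agent.Y851.PS
open Pool.Agent.Y851.PT

/-- trivial bound for double sums (a copy of the lemma of `Pool.Agent.Y851.PT.P7`, which shortens the build path) -/
theorem dsum_le' {α β : Type} (A : Finset α) (C : Finset β) (Z : α → β → ℝ) (hZ : ∀ a ∈ A, ∀ c ∈ C, 0 ≤ Z a c) (L : ℝ)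
    (h : ∀ a ∈ A, ∑ c ∈ C, Z a c + C.card ≤ L) : |∑ a ∈ A, ∑ c ∈ C, (Z a c - 1)| ≤ L * A.card := by
  refine (abs_sum_le_sum_abs _ _).trans ?_
  have h1 : ∀ a ∈ A, |∑ c ∈ C, (Z a c - 1)| ≤ L := by
    intro a ha
    refine (abs_sum_le_sum_abs _ _).trans (le_trans ?_ (h a ha))
    have h2 : ∀ c ∈ C, |Z a c - 1| ≤ Z a c + 1 := by
      intro c hc
      have := hZ a ha c hc
      rw [abs_le]; constructor <;> linarith
    refine (sum_le_sum h2).trans (le_of_eq ?_)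
    rw [sum_add_distrib, sum_const, nsmul_eq_mul, mul_one]
  refine (sum_le_sum h1).trans (le_of_eq ?_)
  rw [sum_const, nsmul_eq_mul, mul_comm]

/-- **The cut norm, with power saving.** -/
theorem cutR (c : ℝ) (hBH : ∀ τ δ : ℝ, 0 < τ → τ ≤ 1 → 0 < δ → δ ≤ 1 / 10 → PBH c τ δ) : PCR c := by
  intro c₂ ε lam ϱ θ₁ β₀ B₀ δ' hc1 hε hc₂ hθ₁ hθ₁1 hcond hlam hlam1 hϱ hβ₀ hβ₀1 hB₀ hδ'
  classical
  have hB₀0 : 0 < B₀ := by linarith only [hB₀]
  obtain ⟨C0, hC0, hfm⟩ := fm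
  -- exponents
  obtain ⟨g, hg⟩ : ∃ g, g = c - (1 + θ₁) * ε - c₂ := ⟨_, rfl⟩
  have hg0 : 0 < g := by rw [hg]; linarith
  obtain ⟨c₁, hc₁⟩ : ∃ c₁, c₁ = c₂ + g / 2 := ⟨_, rfl⟩
  have hc₁0 : 0 < c₁ := by rw [hc₁]; positivity
  have hε1 : ε < 1 := by nlinarith only [mul_nonneg hθ₁ hε.le, hcond, hc1, hc₂]
  obtain ⟨μ, hμ⟩ : ∃ μ, μ = min ϱ (g / 8) := ⟨_, rfl⟩
  have hμ0 : 0 < μ := by rw [hμ]; exact lt_min hϱ (by positivity)
  have hμ1 : μ ≤ ϱ := by rw [hμ]; exact min_le_left _ _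
  have hμ2 : μ ≤ g / 8 := by rw [hμ]; exact min_le_right _ _
  have hμε : μ * ε ≤ g / 8 := by nlinarith only [mul_nonneg hμ0.le (sub_nonneg.2 hε1.le), hμ2]
  obtain ⟨v, hv⟩ : ∃ v, v = θ₁ + μ := ⟨_, rfl⟩
  have hv0 : 0 < v := by rw [hv]; positivity
  have hv1 : v ≤ 1 := by rw [hv]; linarith only [hμ1, hθ₁1]
  have hgc : 3 * g / 8 ≤ c - (c₁ + (1 + v) * ε) := by
    have e : c - (c₁ + (1 + v) * ε) = g / 2 - μ * ε := by rw [hc₁, hg, hv]; ring
    rw [e]; linarith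
  obtain ⟨τ, hτ⟩ : ∃ τ, τ = min 1 (g / (4 * c₂)) := ⟨_, rfl⟩
  have hτ0 : 0 < τ := by rw [hτ]; exact lt_min one_pos (by positivity)
  have hτ1 : τ ≤ 1 := by rw [hτ]; exact min_le_left _ _
  have hτ2 : τ * c₂ ≤ g / 4 := by
    have h1 : τ ≤ g / (4 * c₂) := by rw [hτ]; exact min_le_right _ _
    calc τ * c₂ ≤ g / (4 * c₂) * c₂ := mul_le_mul_of_nonneg_right h1 hc₂.le
      _ = g / 4 := by field_simp
  obtain ⟨Y₁, hY₁⟩ := eventually_atTop.1 (few3 c c₁ ε v hc₁0 hε hv1 (by linarith only [hgc, hg0]))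
  -- parameters
  obtain ⟨δb, hδb⟩ : ∃ δb, δb = min (1 / 10) (δ' / 8) := ⟨_, rfl⟩
  have hδb0 : 0 < δb := by rw [hδb]; exact lt_min (by norm_num) (by positivity)
  have hδb1 : δb ≤ 1 / 10 := by rw [hδb]; exact min_le_left _ _
  have hδb2 : δb ≤ δ' / 8 := by rw [hδb]; exact min_le_right _ _
  obtain ⟨L0, C₀, b, η, hL0, hC₀, hη, hblockH⟩ := hBH τ δb hτ0 hτ1 hδb0 hδb1
  have hC₀0 : 0 < C₀ := by linarith only [hC₀]
  have hL00 : 0 < L0 := by linarith only [hL0]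
  obtain ⟨Y₂, hY₂⟩ := eventually_atTop.1 hblockH
  obtain ⟨w, hw⟩ : ∃ w, w = min (1 / 8) (δb / 24) := ⟨_, rfl⟩
  have hw0 : 0 < w := by rw [hw]; exact lt_min (by norm_num) (by positivity)
  have hw1 : w ≤ 1 / 8 := by rw [hw]; exact min_le_left _ _
  obtain ⟨κ₀, hκ₀⟩ : ∃ κ₀, κ₀ = min β₀ (δ' / (8 * ((C0 + 2) * B₀))) := ⟨_, rfl⟩
  have hκ₀0 : 0 < κ₀ := by rw [hκ₀]; exact lt_min hβ₀ (by positivity)
  have hκ₀β : κ₀ ≤ β₀ := by rw [hκ₀]; exact min_le_left _ _
  have hκ₀1 : κ₀ ≤ 1 := hκ₀β.trans hβ₀1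
  have hκ₀B : (C0 + 2) * B₀ * κ₀ ≤ δ' / 8 := by
    have h1 : κ₀ ≤ δ' / (8 * ((C0 + 2) * B₀)) := by rw [hκ₀]; exact min_le_right _ _
    calc (C0 + 2) * B₀ * κ₀ ≤ (C0 + 2) * B₀ * (δ' / (8 * ((C0 + 2) * B₀))) := by gcongr
      _ = δ' / 8 := by field_simp
  have hlogκ₀ : 0 ≤ Real.log (1 / κ₀) := Real.log_nonneg (by rw [le_div_iff₀ hκ₀0]; linarith only [hκ₀1])
  have hlogβ₀ : 0 ≤ Real.log (1 / β₀) := Real.log_nonneg (by rw [le_div_iff₀ hβ₀]; linarith only [hβ₀1])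
  obtain ⟨JA, hJA⟩ : ∃ JA : ℕ, JA = ⌊Real.log (1 / β₀) / (w / 2)⌋₊ + 1 := ⟨_, rfl⟩
  have hJA0 : (0 : ℝ) < JA := by rw [hJA]; positivity
  obtain ⟨s, hs⟩ : ∃ s, s = min (min (1 / 8) (μ / 4)) (min (η / 4) (g / 64)) := ⟨_, rfl⟩
  have hs0 : 0 < s := by rw [hs]; exact lt_min (lt_min (by norm_num) (by positivity)) (lt_min (by positivity) (by positivity))
  have hs1 : s ≤ 1 / 8 := by rw [hs]; exact (min_le_left _ _).trans (min_le_left _ _)
  have hs5 : s ≤ μ / 4 := by rw [hs]; exact (min_le_left _ _).trans (min_le_right _ _)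
  have hs2 : s ≤ ϱ / 4 := by linarith only [hs5, hμ1]
  have hs3 : s ≤ η / 4 := by rw [hs]; exact (min_le_right _ _).trans (min_le_left _ _)
  have hs4 : s ≤ g / 64 := by rw [hs]; exact (min_le_right _ _).trans (min_le_right _ _)
  obtain ⟨Q₀, hQ₀⟩ : ∃ Q₀, Q₀ = 16 * B₀ * L0 := ⟨_, rfl⟩
  have hQ₀1 : 1 ≤ Q₀ := by
    have h1 := mul_le_mul hB₀ hL0 zero_le_one hB₀0.le
    rw [hQ₀]; linarith only [h1]
  have hQ₀0 : 0 < Q₀ := by linarith only [hQ₀1]
  have hClam : 1 ≤ C₀ / lam := by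
    rw [le_div_iff₀ hlam]; linarith only [hlam1, hC₀]
  obtain ⟨Q, hQ⟩ : ∃ Q, Q = Q₀ * (C₀ / lam) := ⟨_, rfl⟩
  have hQQ₀ : Q₀ ≤ Q := by rw [hQ]; exact le_mul_of_one_le_right hQ₀0.le hClam
  have hQ1 : 1 ≤ Q := by linarith only [hQ₀1, hQQ₀]
  have hQ0 : 0 < Q := by linarith only [hQ1]
  have hlogQ : 0 ≤ Real.log Q := Real.log_nonneg hQ1
  refine ⟨s, 8 * L0, hs0, by linarith only [hL0], ?_⟩
  have hT := Real.tendsto_log_atTop
  filter_upwards [eventually_ge_atTop 3, hT.eventually_ge_atTop (2 * max Y₁ (max Y₂ 10)),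
    hT.eventually_ge_atTop (8 * Real.log (1 / κ₀)), hT.eventually_ge_atTop (4 * Real.log (1 / κ₀) / ϱ),
    hT.eventually_ge_atTop (4 * Real.log Q / η), hT.eventually (ev_log_lin (Real.log Q) 2 (g / 64) (by positivity)),
    hT.eventually (ev_const_pow (8 * JA * (4 * (1 + 3 / w)) / δ') (τ / 4) (by positivity)),
    (Real.tendsto_log_atTop.comp hT).eventually_ge_atTop (4 * c₂ * (Real.log Q + c₁ * (Real.log (1 / β₀) + 1)) / g),
    hT.eventually_ge_atTop (4 * Real.log (1 / κ₀) / μ), ev_logpow b (ϱ / 2) (κ₀ ^ 2) (by positivity) (by positivity)]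
    with X hX3 hX1 hX2 hX4 hX5 hX6 hX7 hX8 hX9 hX10 D hD1 hDs R hR1 hR2 H hH1 hHR hH2 θ hθ1 hθ2' A C hA hC A' hA' C' hC'
  have hX0 : 0 < X := by linarith only [hX3]
  have hX1' : 1 < X := by linarith only [hX3]
  obtain ⟨ℓ, hℓ⟩ : ∃ ℓ, ℓ = Real.log X := ⟨_, rfl⟩
  simp only [Function.comp_apply] at hX8
  rw [← hℓ] at hX1 hX2 hX4 hX5 hX6 hX7 hX8 hX9 hX10 hHR hR2 hθ1
  have hθ2 : θ ≤ 1 - ϱ := hθ2'.trans hθ₁1
  have hℓm1 : 2 * Y₁ ≤ ℓ := by
    have := le_max_left Y₁ (max Y₂ 10)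
    linarith only [this, hX1]
  have hℓm2 : 2 * Y₂ ≤ ℓ := by
    have := (le_max_left Y₂ 10).trans (le_max_right Y₁ (max Y₂ 10))
    linarith only [this, hX1]
  have hℓ20 : 20 ≤ ℓ := by
    have := (le_max_right Y₂ 10).trans (le_max_right Y₁ (max Y₂ 10))
    linarith only [this, hX1]
  have hℓ0 : 0 < ℓ := by linarith only [hℓ20]
  have hℓ1 : 1 ≤ ℓ := by linarith only [hℓ20]
  have hlogℓ : 0 ≤ Real.log ℓ := Real.log_nonneg hℓ1
  have hH0 : 0 < H := lt_of_lt_of_le (by positivity) hH1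
  rw [div_le_iff₀ hμ0] at hX9
  rw [div_le_iff₀ hϱ] at hX4
  rw [div_le_iff₀ hη] at hX5
  rw [div_le_iff₀ hg0] at hX8
  rw [div_le_iff₀ hδ'] at hX7
  have hexpX : Real.exp ℓ = X := by rw [hℓ]; exact Real.exp_log hX0
  -- the density
  have hD0 : 0 < D := by linarith only [hD1]
  have hlogD0 : 0 ≤ Real.log D := Real.log_nonneg hD1
  have hlogD : Real.log D ≤ s * ℓ := by
    have := Real.log_le_log hD0 hDs
    rwa [Real.log_rpow hX0, ← hℓ] at this
  have hR0 : 0 < R := by linarith only [hR1]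
  have hlogR0 : 0 ≤ Real.log R := Real.log_nonneg hR1
  have hlogR : Real.log R ≤ Real.log ℓ := Real.log_le_log hR0 hR2
  have hlogθ : Real.log D + Real.log R + Real.log ℓ ≤ c₂ * (θ * ℓ) := by
    have h1 := Real.log_le_log (by positivity) hθ1
    rw [Real.log_mul (by positivity) hℓ0.ne', Real.log_mul hD0.ne' hR0.ne', Real.log_rpow (by positivity), Real.log_rpow hX0, ← hℓ] at h1
    exact h1
  have hθℓ : Real.log ℓ ≤ c₂ * (θ * ℓ) := by linarith only [hlogθ, hlogD0, hlogR0]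
  -- B
  obtain ⟨B, hB⟩ : ∃ B, B = B₀ * D := ⟨_, rfl⟩
  have hB1 : 1 ≤ B := by rw [hB]; exact one_le_mul_of_one_le_of_one_le hB₀ hD1
  have hB0 : 0 < B := by linarith only [hB1]
  rw [← hB] at hC
  obtain ⟨κ, hκ⟩ : ∃ κ, κ = κ₀ / D := ⟨_, rfl⟩
  have hκ0 : 0 < κ := by rw [hκ]; positivity
  have hκκ₀ : κ ≤ κ₀ := by
    rw [hκ]
    exact div_le_self hκ₀0.le hD1
  have hκβ₀ : κ ≤ β₀ := hκκ₀.trans hκ₀β
  have hκ1 : κ ≤ 1 := hκκ₀.trans hκ₀1
  have hκB : C0 * B * κ + 2 * B * κ ≤ δ' / 8 := by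
    calc C0 * B * κ + 2 * B * κ = (C0 + 2) * B₀ * κ₀ := by rw [hB, hκ]; field_simp
      _ ≤ δ' / 8 := hκ₀B
  obtain ⟨G, hG⟩ : ∃ G, G = Real.log (1 / κ) := ⟨_, rfl⟩
  have hlogκ : G = Real.log (1 / κ₀) + Real.log D := by
    rw [hG, hκ, one_div_div, Real.log_div hD0.ne' hκ₀0.ne', one_div, Real.log_inv]
    ring
  have hG0 : 0 ≤ G := by rw [hlogκ]; positivity
  have hβG : Real.log (1 / β₀) ≤ G := by
    rw [hG]
    apply Real.log_le_log (by positivity)
    exact one_div_le_one_div_of_le hκ0 hκβ₀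
  have hGs : G ≤ Real.log (1 / κ₀) + s * ℓ := by rw [hlogκ]; linarith only [hlogD]
  have hG2 : 2 * G ≤ ℓ / 2 := by
    have h1 : s * ℓ ≤ 1 / 8 * ℓ := mul_le_mul_of_nonneg_right hs1 hℓ0.le
    linarith only [h1, hGs, hX2, hℓ0]
  have hG3 : 2 * G ≤ ϱ * ℓ := by
    have h1 : s * ℓ ≤ ϱ / 4 * ℓ := mul_le_mul_of_nonneg_right hs2 hℓ0.le
    linarith only [h1, hGs, hX4, hℓ0, hϱ]
  obtain ⟨J, hJ⟩ : ∃ J : ℕ, J = ⌊G / (w / 2)⌋₊ + 1 := ⟨_, rfl⟩
  -- size of H
  have hXϱ : X ^ (1 - ϱ) * X ^ ϱ = X := by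
    rw [← Real.rpow_add hX0]
    have : 1 - ϱ + ϱ = 1 := by ring
    rw [this, Real.rpow_one]
  have hexpG : Real.exp (2 * G) = 1 / κ ^ 2 := by
    rw [hG, two_mul, Real.exp_add, Real.exp_log (by positivity)]
    field_simp
  have hD2 : D ^ 2 ≤ X ^ (ϱ / 2) := by
    calc D ^ 2 ≤ (X ^ s) ^ 2 := pow_le_pow_left₀ hD0.le hDs 2
      _ = X ^ (2 * s) := by
        rw [← Real.rpow_natCast, ← Real.rpow_mul hX0.le]
        congr 1; push_cast; ring
      _ ≤ X ^ (ϱ / 2) := Real.rpow_le_rpow_of_exponent_le hX1'.le (by linarith only [hs2])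
  have hHb : H * ℓ ^ b * Real.exp (2 * G) ≤ X := by
    rw [hexpG]
    have hXh : X ^ (ϱ / 2) * X ^ (ϱ / 2) = X ^ ϱ := by
      rw [← Real.rpow_add hX0]; congr 1; ring
    calc H * ℓ ^ b * (1 / κ ^ 2) ≤ X ^ (1 - ϱ) * (κ₀ ^ 2 * X ^ (ϱ / 2)) * (1 / κ ^ 2) := by gcongr
      _ = X ^ (1 - ϱ) * (X ^ (ϱ / 2) * D ^ 2) := by rw [hκ]; field_simp
      _ ≤ X ^ (1 - ϱ) * (X ^ (ϱ / 2) * X ^ (ϱ / 2)) := by gcongr
      _ = X := by rw [hXh, hXϱ]
  have hℓb1 : 1 ≤ ℓ ^ b := one_le_pow₀ hℓ1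
  have hexpG1 : 1 ≤ Real.exp (2 * G) := Real.one_le_exp (by positivity)
  have hHκ : H ≤ κ * X := by
    have h1 : 1 / κ ≤ Real.exp (2 * G) := by
      rw [hexpG]
      apply one_div_le_one_div_of_le (by positivity)
      calc κ ^ 2 = κ * κ := by ring
        _ ≤ κ * 1 := mul_le_mul_of_nonneg_left hκ1 hκ0.le
        _ = κ := mul_one _
    have h2 : H * (1 / κ) ≤ X := by
      calc H * (1 / κ) ≤ H * ℓ ^ b * Real.exp (2 * G) := by
            have : H * 1 ≤ H * ℓ ^ b := mul_le_mul_of_nonneg_left hℓb1 hH0.le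
            rw [mul_one] at this
            exact mul_le_mul this h1 (by positivity) (by positivity)
        _ ≤ X := hHb
    rw [mul_one_div, div_le_iff₀ hκ0] at h2
    linarith only [h2]
  have hZ0 : ∀ (a : ℕ) (c : ℝ), 0 ≤ ZH H (a * c) := fun a c => ZH_nonneg hH0.le _
  -- large elements
  obtain ⟨Cl, hCl⟩ : ∃ T, T = C'.filter (fun c => κ * X ^ (1 - θ) ≤ c) := ⟨_, rfl⟩
  obtain ⟨Cs, hCs⟩ : ∃ T, T = C'.filter (fun c => ¬ κ * X ^ (1 - θ) ≤ c) := ⟨_, rfl⟩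
  have hCl' : Cl ⊆ C := by rw [hCl]; exact (filter_subset _ _).trans hC'
  have hCs' : Cs ⊆ C := by rw [hCs]; exact (filter_subset _ _).trans hC'
  have hcA0 : (0 : ℝ) ≤ A.card := Nat.cast_nonneg _
  have hcC0 : (0 : ℝ) ≤ C.card := Nat.cast_nonneg _
  have hXθ0 : 0 < X ^ θ := by positivity
  have hlongκ : H / X ^ θ ≤ κ * X ^ (1 - θ) := by
    rw [div_le_iff₀ hXθ0]
    have e : κ * X ^ (1 - θ) * X ^ θ = κ * X := by
      rw [mul_assoc, ← Real.rpow_add hX0]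
      have : 1 - θ + θ = 1 := by ring
      rw [this, Real.rpow_one]
    rw [e]; exact hHκ
  have hCscard : (Cs.card : ℝ) ≤ 2 * B * κ * C.card := by
    have h1 := hC.long hX1' hH0 hB0.le 0 (κ * X ^ (1 - θ)) hlongκ
    have e : X ^ (1 - θ) * X ^ (θ - 1) = 1 := by
      rw [← Real.rpow_add hX0]
      have : 1 - θ + (θ - 1) = 0 := by ring
      rw [this, Real.rpow_zero]
    have e2 : 2 * B * (κ * X ^ (1 - θ)) * X ^ (θ - 1) * C.card = 2 * B * κ * C.card := by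
      calc 2 * B * (κ * X ^ (1 - θ)) * X ^ (θ - 1) * C.card = 2 * B * κ * (X ^ (1 - θ) * X ^ (θ - 1)) * C.card := by ring
        _ = _ := by rw [e, mul_one]
    rw [e2] at h1
    refine le_trans ?_ h1
    apply Nat.cast_le.2
    apply card_le_card
    intro c hc
    have hc2 := hCs' hc
    rw [hCs, mem_filter, not_le] at hc
    rw [mem_filter]
    exact ⟨hc2, (hC.pos c hc2).le, by linarith only [hc.2]⟩
  have hAcard : (A'.card : ℝ) ≤ A.card := by exact_mod_cast card_le_card hA'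
  have hClcard : (Cl.card : ℝ) ≤ C.card := by exact_mod_cast card_le_card hCl'
  -- first moments
  have hfmS : ∀ a ∈ A, ∑ c ∈ Cs, ZH H (a * c) ≤ C0 * B * κ * C.card := by
    intro a ha
    refine le_trans ?_ (hfm B H θ X hX1' hH0 hB0.le C hC a (hA.prime a ha).one_lt.le (hA.le a ha) κ hκ0)
    apply sum_le_sum_of_subset_of_nonneg
    · intro c hc
      have hc2 := hCs' hc
      rw [hCs, mem_filter, not_le] at hc
      rw [mem_filter]
      exact ⟨hc2, hc.2.le⟩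
    · intro c _ _; exact hZ0 a c
  -- indices
  have hidx : ∀ κ' : ℝ, 0 < κ' → ∀ s t : ℝ, 0 < s → κ' * X ^ t ≤ s → s ≤ X ^ t → ⌊(t * ℓ - Real.log s) / (w / 2)⌋₊ < ⌊Real.log (1 / κ') / (w / 2)⌋₊ + 1 ∧
      |Real.log s - (t * ℓ - (⌊(t * ℓ - Real.log s) / (w / 2)⌋₊ : ℝ) * (w / 2))| ≤ w / 2 := by
    intro κ' hκ' s t hs h1 h2
    have h3 : Real.log s ≤ t * ℓ := by
      have := Real.log_le_log hs h2
      rwa [Real.log_rpow hX0, ← hℓ] at this
    have h4 : t * ℓ - Real.log (1 / κ') ≤ Real.log s := by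
      have := Real.log_le_log (by positivity) h1
      rw [Real.log_mul hκ'.ne' (by positivity), Real.log_rpow hX0, ← hℓ] at this
      rw [one_div, Real.log_inv]
      linarith only [this]
    have h5 : 0 ≤ (t * ℓ - Real.log s) / (w / 2) := by
      apply div_nonneg _ (by positivity)
      linarith only [h3]
    have h6 := Nat.floor_le h5
    have h7 := Nat.lt_floor_add_one ((t * ℓ - Real.log s) / (w / 2))
    rw [le_div_iff₀ (by positivity)] at h6
    rw [div_lt_iff₀ (by positivity)] at h7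
    constructor
    · rw [Nat.lt_succ_iff]
      apply Nat.floor_mono
      apply div_le_div_of_nonneg_right _ (by positivity)
      linarith only [h4]
    · rw [abs_le]
      constructor <;> linarith only [h6, h7, hw0]
  have hAlp : ∀ a ∈ A', 1 ≤ a ∧ β₀ * X ^ θ ≤ a ∧ (a : ℝ) ≤ X ^ θ := by
    intro a ha
    exact ⟨(hA.prime a (hA' ha)).one_lt.le, hA.ge a (hA' ha), hA.le a (hA' ha)⟩
  have hClp : ∀ c ∈ Cl, 0 < c ∧ κ * X ^ (1 - θ) ≤ c ∧ c ≤ X ^ (1 - θ) := by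
    intro c hc
    rw [hCl, mem_filter] at hc
    exact ⟨hC.pos c (hC' hc.1), hc.2, hC.le c (hC' hc.1)⟩
  obtain ⟨NCl, hNCl⟩ : ∃ NCl : ℕ → ℝ, NCl = fun l => ((Cl.filter (fun c : ℝ => ⌊((1 - θ) * ℓ - Real.log c) / (w / 2)⌋₊ = l)).card : ℝ) +
      Real.exp (-(l * (w / 2))) * C.card := ⟨_, rfl⟩
  have hlarge : |∑ a ∈ A', ∑ c ∈ Cl, (ZH H (a * c) - 1)| ≤ δb * (A'.card * Cl.card) +
      JA * ∑ l ∈ range J, 2 * ℓ ^ (-(τ / 4)) * (2 * (A.card * NCl l)) := by
    apply block_sum2 A' Cl (fun a c => ZH H (a * c) - 1) (fun a : ℕ => ⌊(θ * ℓ - Real.log a) / (w / 2)⌋₊)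
      (fun c : ℝ => ⌊((1 - θ) * ℓ - Real.log c) / (w / 2)⌋₊) JA J
    · intro a ha
      obtain ⟨h1, h2, h3⟩ := hAlp a ha
      rw [hJA]
      exact (hidx β₀ hβ₀ a θ (by exact_mod_cast h1) h2 h3).1
    · intro c hc
      obtain ⟨h1, h2, h3⟩ := hClp c hc
      rw [hJ, hG]
      exact (hidx κ hκ0 c (1 - θ) h1 h2 h3).1
    · intro k l hk hl
      obtain ⟨A1, hA1⟩ : ∃ T, T = A'.filter (fun a : ℕ => ⌊(θ * ℓ - Real.log a) / (w / 2)⌋₊ = k) := ⟨_, rfl⟩
      obtain ⟨C1', hC1'⟩ : ∃ T, T = Cl.filter (fun c : ℝ => ⌊((1 - θ) * ℓ - Real.log c) / (w / 2)⌋₊ = l) := ⟨_, rfl⟩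
      obtain ⟨NC, hNC⟩ : ∃ NC, NC = NCl l := ⟨_, rfl⟩
      have hNCe : NC = (C1'.card : ℝ) + Real.exp (-(l * (w / 2))) * C.card := by rw [hNC, hNCl, hC1']
      rw [← hA1, ← hC1', ← hNC]
      have hA1l : A1 ⊆ A' := by rw [hA1]; exact filter_subset _ _
      have hC1l : C1' ⊆ Cl := by rw [hC1']; exact filter_subset _ _
      have hA1A : A1 ⊆ A := hA1l.trans hA'
      have hC1C : C1' ⊆ C := hC1l.trans hCl'
      have hA1c : (A1.card : ℝ) ≤ A.card := by exact_mod_cast card_le_card hA1A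
      have hNC1 : 0 ≤ Real.exp (-((l : ℝ) * (w / 2))) * (C.card : ℝ) := mul_nonneg (Real.exp_pos _).le hcC0
      have hC1c : (C1'.card : ℝ) ≤ NC := by rw [hNCe]; linarith only [hNC1]
      have hNCge : Real.exp (-((l : ℝ) * (w / 2))) * (C.card : ℝ) ≤ NC := by
        rw [hNCe]
        have : (0 : ℝ) ≤ (C1'.card : ℝ) := Nat.cast_nonneg _
        linarith only [this]
      have hNC0 : 0 ≤ NC := hNC1.trans hNCge
      have hpos : 0 ≤ 2 * ℓ ^ (-(τ / 4)) * (2 * ((A.card : ℝ) * NC)) := by positivity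
      rcases A1.eq_empty_or_nonempty with hA1e | ⟨a₁, ha₁⟩
      · rw [hA1e, sum_empty, abs_zero, card_empty, Nat.cast_zero, zero_mul, mul_zero, zero_add]
        exact hpos
      -- the main case
      have hk0 : (0 : ℝ) ≤ k := Nat.cast_nonneg k
      have hl0 : (0 : ℝ) ≤ l := Nat.cast_nonneg l
      obtain ⟨V, hV⟩ : ∃ V, V = θ * ℓ - k * (w / 2) := ⟨_, rfl⟩
      obtain ⟨U, hU⟩ : ∃ U, U = (1 - θ) * ℓ - l * (w / 2) := ⟨_, rfl⟩
      have hA1p : ∀ a ∈ A1, 1 ≤ a ∧ |Real.log a - V| ≤ w / 2 := by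
        intro a ha
        rw [hA1, mem_filter] at ha
        obtain ⟨h1, h2, h3⟩ := hAlp a ha.1
        have h4 := (hidx β₀ hβ₀ a θ (by exact_mod_cast h1) h2 h3).2
        rw [ha.2] at h4
        rw [hV]
        exact ⟨h1, h4⟩
      have hC1p : ∀ c ∈ C1', 0 < c ∧ |Real.log c - U| ≤ w / 2 := by
        intro c hc
        rw [hC1', mem_filter] at hc
        obtain ⟨h1, h2, h3⟩ := hClp c hc.1
        have h4 := (hidx κ hκ0 c (1 - θ) h1 h2 h3).2
        rw [hc.2] at h4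
        rw [hU]
        exact ⟨h1, h4⟩
      have hw2' : 0 < w / 2 := by linarith only [hw0]
      have hkw : (k : ℝ) * (w / 2) ≤ Real.log (1 / β₀) := by
        rw [hJA] at hk
        have h3 : k ≤ ⌊Real.log (1 / β₀) / (w / 2)⌋₊ := by omega
        have h4 : (k : ℝ) ≤ Real.log (1 / β₀) / (w / 2) := (Nat.cast_le.2 h3).trans (Nat.floor_le (by positivity))
        rwa [le_div_iff₀ hw2'] at h4
      have hkwG : (k : ℝ) * (w / 2) ≤ G := hkw.trans hβG
      have hlw : (l : ℝ) * (w / 2) ≤ G := by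
        rw [hJ] at hl
        have h3 : l ≤ ⌊G / (w / 2)⌋₊ := by omega
        have h4 : (l : ℝ) ≤ G / (w / 2) := (Nat.cast_le.2 h3).trans (Nat.floor_le (by positivity))
        rwa [le_div_iff₀ hw2'] at h4
      have hkw0 : 0 ≤ (k : ℝ) * (w / 2) := mul_nonneg hk0 hw2'.le
      have hlw0 : 0 ≤ (l : ℝ) * (w / 2) := mul_nonneg hl0 hw2'.le
      obtain ⟨Y, hYdef⟩ : ∃ Y, Y = V + U := ⟨_, rfl⟩
      have hYle : Y ≤ ℓ := by rw [hYdef, hV, hU]; linarith only [hkw0, hlw0]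
      have hYge : ℓ - 2 * G ≤ Y := by rw [hYdef, hV, hU]; linarith only [hkwG, hlw]
      have hYhalf : ℓ / 2 ≤ Y := by linarith only [hYge, hG2]
      have hY0 : 0 < Y := by linarith only [hYhalf, hℓ0]
      have hY1 : 1 ≤ Y := by linarith only [hYhalf, hℓ20]
      have hYY1 : Y₁ ≤ Y := by linarith only [hYhalf, hℓm1]
      have hYY2 : Y₂ ≤ Y := by linarith only [hYhalf, hℓm2]
      have hU0 : 0 ≤ U := by
        have h3 : ϱ * ℓ ≤ (1 - θ) * ℓ := mul_le_mul_of_nonneg_right (by linarith only [hθ2]) hℓ0.le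
        rw [hU]
        linarith only [h3, hlw, hG3, hG0]
      have hVY : V ≤ v * Y := by
        have h3 : θ * ℓ ≤ θ₁ * ℓ := mul_le_mul_of_nonneg_right hθ2' hℓ0.le
        have h4 : V ≤ θ₁ * ℓ := by rw [hV]; linarith only [h3, hkw0]
        have h5 : s * ℓ ≤ μ / 4 * ℓ := mul_le_mul_of_nonneg_right hs5 hℓ0.le
        have h6 : 2 * G ≤ μ * ℓ := by linarith only [h5, hGs, hX9]
        have h7 : v * (2 * G) ≤ 1 * (μ * ℓ) := mul_le_mul hv1 h6 (by linarith only [hG0]) zero_le_one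
        have h8 : v * (ℓ - 2 * G) ≤ v * Y := mul_le_mul_of_nonneg_left hYge hv0.le
        have h9 : v * ℓ = θ₁ * ℓ + μ * ℓ := by rw [hv]; ring
        linarith only [h4, h7, h8, h9]
      have hexpY1 : Real.exp Y ≤ X := by
        rw [← hexpX]; exact Real.exp_le_exp.2 hYle
      have hexpY2 : X ≤ Real.exp (2 * G) * Real.exp Y := by
        rw [← hexpX, ← Real.exp_add]
        exact Real.exp_le_exp.2 (by linarith only [hYge])
      have heY : 0 < Real.exp Y := Real.exp_pos Y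
      have hHle : H * Y ^ b ≤ Real.exp Y := by
        have h1 : H * Y ^ b ≤ H * ℓ ^ b := mul_le_mul_of_nonneg_left (pow_le_pow_left₀ hY0.le hYle b) hH0.le
        have h2 : Real.exp (2 * G) * (H * ℓ ^ b) ≤ Real.exp (2 * G) * Real.exp Y := by
          calc Real.exp (2 * G) * (H * ℓ ^ b) = H * ℓ ^ b * Real.exp (2 * G) := by ring
            _ ≤ X := hHb
            _ ≤ _ := hexpY2
        exact h1.trans (le_of_mul_le_mul_left h2 (Real.exp_pos _))
      have hHle2 : H ≤ Real.exp Y := by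
        refine le_trans ?_ hHle
        calc H = H * 1 := (mul_one H).symm
          _ ≤ H * Y ^ b := mul_le_mul_of_nonneg_left (one_le_pow₀ hY1) hH0.le
      have hYR : Y ≤ R / lam * H := by
        rw [div_mul_eq_mul_div, le_div_iff₀ hlam]
        have := mul_le_mul_of_nonneg_left hYle hlam.le
        linarith only [this, hHR]
      have hRlam : 1 ≤ R / lam := by
        rw [le_div_iff₀ hlam]
        linarith only [hlam1, hR1]
      have hratio : 1 ≤ Real.exp Y / H := by rw [le_div_iff₀ hH0, one_mul]; exact hHle2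
      -- K
      obtain ⟨K, hK⟩ : ∃ K : ℕ, K = ⌈2 * L0 * (Real.exp Y / H)⌉₊ := ⟨_, rfl⟩
      have hK1 : 2 * L0 * (Real.exp Y / H) ≤ K := by rw [hK]; exact Nat.le_ceil _
      have hLr : 1 ≤ L0 * (Real.exp Y / H) := by
        have := mul_le_mul hL0 hratio zero_le_one hL00.le
        linarith only [this]
      have hK2 : (K : ℝ) ≤ 8 * L0 * (Real.exp Y / H) := by
        have h1 : (K : ℝ) < 2 * L0 * (Real.exp Y / H) + 1 := by
          rw [hK]; exact Nat.ceil_lt_add_one (by positivity)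
        have e1 : 8 * L0 * (Real.exp Y / H) = 8 * (L0 * (Real.exp Y / H)) := by ring
        have e2 : 2 * L0 * (Real.exp Y / H) = 2 * (L0 * (Real.exp Y / H)) := by ring
        rw [e1]; rw [e2] at h1
        linarith only [h1, hLr]
      have hKpos : (0 : ℝ) < K := by
        have e2 : 2 * L0 * (Real.exp Y / H) = 2 * (L0 * (Real.exp Y / H)) := by ring
        rw [e2] at hK1
        linarith only [hK1, hLr]
      have hKnat : 1 ≤ K := by
        have : 0 < K := by exact_mod_cast hKpos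
        omega
      have hKe : (K : ℝ) ≤ Real.exp Y := by
        refine hK2.trans ?_
        calc 8 * L0 * (Real.exp Y / H) ≤ H * (Real.exp Y / H) := mul_le_mul_of_nonneg_right hH1 (by positivity)
          _ = Real.exp Y := by field_simp
      have hw4 : w / 2 ≤ 1 / 2 := by linarith only [hw1]
      -- the constants of the block
      obtain ⟨Bc, hBc⟩ : ∃ Bc, Bc = Q₀ * D := ⟨_, rfl⟩
      have hBc0 : 0 < Bc := by rw [hBc]; positivity
      have hlogBc : Real.log Bc ≤ Real.log Q + Real.log D := by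
        rw [hBc, Real.log_mul hQ₀0.ne' hD0.ne']
        linarith only [Real.log_le_log hQ₀0 hQQ₀]
      have hBcs : Bc ≤ Real.exp (η * Y) := by
        rw [← Real.log_le_iff_le_exp hBc0]
        refine hlogBc.trans ?_
        have h1 : s * ℓ ≤ η / 4 * ℓ := mul_le_mul_of_nonneg_right hs3 hℓ0.le
        have h2 : η * (ℓ / 2) ≤ η * Y := mul_le_mul_of_nonneg_left hYhalf hη.le
        linarith only [h1, h2, hlogD, hX5]
      obtain ⟨BE, hBE⟩ : ∃ BE, BE = Bc * (C₀ * (R / lam)) := ⟨_, rfl⟩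
      have hBE0 : 0 < BE := by rw [hBE]; positivity
      have hlogBE : Real.log BE = Real.log Q + Real.log D + Real.log R := by
        have e : BE = Q * D * R := by rw [hBE, hBc, hQ]; ring
        rw [e, Real.log_mul (by positivity) hR0.ne', Real.log_mul hQ0.ne' hD0.ne']
      obtain ⟨m, hm⟩ : ∃ m, m = Real.log BE + τ * Real.log Y := ⟨_, rfl⟩
      have hlogY0 : 0 ≤ Real.log Y := Real.log_nonneg hY1
      have hlogYℓ : Real.log Y ≤ Real.log ℓ := Real.log_le_log hY0 hYle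
      have hm0 : 0 ≤ m := by
        rw [hm, hlogBE]; positivity
      have hτY : τ * Real.log Y ≤ τ * Real.log ℓ := mul_le_mul_of_nonneg_left hlogYℓ hτ0.le
      have hκm : Real.exp (-(m / 2)) ^ 2 * Bc * (C₀ * (R / lam)) ≤ Y ^ (-τ) := by
        apply le_of_eq
        rw [mul_assoc, ← hBE, ← Real.exp_nat_mul, Real.rpow_def_of_pos hY0]
        have e : BE = Real.exp (Real.log BE) := (Real.exp_log hBE0).symm
        calc Real.exp ((2 : ℕ) * -(m / 2)) * BE = Real.exp ((2 : ℕ) * -(m / 2)) * Real.exp (Real.log BE) := by rw [← e]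
          _ = _ := by
            rw [← Real.exp_add, hm]
            congr 1; push_cast; ring
      -- few large values
      have hVge : θ * ℓ - (Real.log (1 / β₀) + 1) ≤ V := by
        rw [hV]; linarith only [hkw]
      have hcV : Real.log Y + m ≤ c₁ * V := by
        have h1 : c₁ * (θ * ℓ - (Real.log (1 / β₀) + 1)) ≤ c₁ * V := mul_le_mul_of_nonneg_left hVge hc₁0.le
        have h2 : c₁ * (θ * ℓ) = c₂ * (θ * ℓ) + g / 2 * (θ * ℓ) := by rw [hc₁]; ring
        have h3 : τ * Real.log ℓ + (Real.log Q + c₁ * (Real.log (1 / β₀) + 1)) ≤ g / 2 * (θ * ℓ) := by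
          have h4 : c₂ * (τ * Real.log ℓ + (Real.log Q + c₁ * (Real.log (1 / β₀) + 1))) ≤ c₂ * (g / 2 * (θ * ℓ)) := by
            have h5 : τ * c₂ * Real.log ℓ ≤ g / 4 * Real.log ℓ := mul_le_mul_of_nonneg_right hτ2 hlogℓ
            have h6 : g / 2 * Real.log ℓ ≤ g / 2 * (c₂ * (θ * ℓ)) := mul_le_mul_of_nonneg_left hθℓ (by positivity)
            linarith only [h5, h6, hX8]
          exact le_of_mul_le_mul_left h4 hc₂
        rw [hm, hlogBE]
        linarith only [h1, h2, h3, hlogθ, hlogYℓ, hτY]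
      have hmY : m ≤ (c - (c₁ + (1 + v) * ε)) / 4 * Y := by
        refine le_trans ?_ (mul_le_mul_of_nonneg_right (show 3 * g / 8 / 4 ≤ (c - (c₁ + (1 + v) * ε)) / 4 by linarith only [hgc]) hY0.le)
        have h1 : s * ℓ ≤ g / 64 * ℓ := mul_le_mul_of_nonneg_right hs4 hℓ0.le
        have h2 : τ * Real.log ℓ ≤ 1 * Real.log ℓ := mul_le_mul_of_nonneg_right hτ1 hlogℓ
        have h3 : 3 * g / 32 * (ℓ / 2) ≤ 3 * g / 32 * Y := mul_le_mul_of_nonneg_left hYhalf (by positivity)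
        rw [hm, hlogBE]
        have h4 : 0 ≤ g * ℓ := by positivity
        linarith only [h1, h2, h3, h4, hτY, hlogD, hX6, hlogR]
      have hNA : Real.exp ((1 - ε) * V) ≤ (A.card : ℝ) := by
        refine le_trans ?_ hA.card
        rw [Real.rpow_def_of_pos hX0, ← hℓ, ← Real.exp_mul]
        apply Real.exp_le_exp.2
        have h1 : (1 - ε) * V ≤ (1 - ε) * (θ * ℓ) := mul_le_mul_of_nonneg_left (by rw [hV]; linarith only [hkw0]) (by linarith only [hε1])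
        linarith only [h1]
      have hfw := hY₁ Y hYY1 V m hm0 hcV hmY hVY A1 (fun a ha => ⟨hA.prime a (hA1A ha), ((hA1p a ha).2).trans hw4⟩) A.card hA1c hNA K hKe
      have hcell : ∀ u : ℝ, ((C1'.filter (fun c => u ≤ Real.log c ∧ Real.log c < u + 1 / K)).card : ℝ) ≤ Bc * NC / K := by
        intro u
        obtain ⟨q, hq⟩ : ∃ q, q = 8 * L0 * Real.exp (-((l : ℝ) * (w / 2))) * X ^ (1 - θ) / K := ⟨_, rfl⟩
        have hXU : Real.exp U = Real.exp (-((l : ℝ) * (w / 2))) * X ^ (1 - θ) := by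
          rw [Real.rpow_def_of_pos hX0, ← hℓ, ← Real.exp_add, hU]
          congr 1; ring
        have h1 := cell2 hC hC1C hX1' hH0 hB0.le hKnat (Real.exp (U + w / 2)) q (by
          intro c hc
          obtain ⟨q1, q2⟩ := hC1p c hc
          rw [← Real.log_le_iff_le_exp q1]
          linarith only [(abs_le.1 q2).2]) (by
          rw [hq]
          apply div_le_div_of_nonneg_right _ hKpos.le
          have h2 : Real.exp (w / 2) ≤ 2 := by
            have h3 : Real.exp (w / 2) ≤ Real.exp (1 / 2) := Real.exp_le_exp.2 hw4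
            have h4 : Real.exp (1 / 2 : ℝ) * Real.exp (1 / 2) = Real.exp 1 := by rw [← Real.exp_add]; norm_num
            have h5 := Real.exp_one_lt_d9
            have h6 := Real.exp_pos (1 / 2 : ℝ)
            nlinarith only [h3, h4, h5, h6]
          have hEp : 0 < Real.exp (-((l : ℝ) * (w / 2))) * X ^ (1 - θ) := by positivity
          calc 2 * Real.exp (U + w / 2) = 2 * (Real.exp (-((l : ℝ) * (w / 2))) * X ^ (1 - θ)) * Real.exp (w / 2) := by rw [Real.exp_add, hXU]; ring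
            _ ≤ 2 * (Real.exp (-((l : ℝ) * (w / 2))) * X ^ (1 - θ)) * 2 := mul_le_mul_of_nonneg_left h2 (by positivity)
            _ ≤ 8 * L0 * (Real.exp (-((l : ℝ) * (w / 2))) * X ^ (1 - θ)) := by nlinarith only [hEp, hL0]
            _ = _ := by ring) (by
          rw [hq, div_le_div_iff₀ hXθ0 hKpos]
          have h2 : H * (K : ℝ) ≤ 8 * L0 * Real.exp Y := by
            have h3 : H * (K : ℝ) ≤ H * (8 * L0 * (Real.exp Y / H)) := mul_le_mul_of_nonneg_left hK2 hH0.le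
            have e1 : H * (8 * L0 * (Real.exp Y / H)) = 8 * L0 * Real.exp Y := by field_simp
            linarith only [h3, e1]
          have h3 : Real.exp Y ≤ Real.exp (-((l : ℝ) * (w / 2))) * X ^ (1 - θ) * X ^ θ := by
            rw [← hXU, Real.rpow_def_of_pos hX0, ← hℓ, ← Real.exp_add]
            apply Real.exp_le_exp.2
            rw [hYdef, hV]
            linarith only [hkw0]
          calc H * (K : ℝ) ≤ 8 * L0 * Real.exp Y := h2
            _ ≤ 8 * L0 * (Real.exp (-((l : ℝ) * (w / 2))) * X ^ (1 - θ) * X ^ θ) := mul_le_mul_of_nonneg_left h3 (by positivity)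
            _ = _ := by ring) u
        refine h1.trans ?_
        have e : X ^ (1 - θ) * X ^ (θ - 1) = 1 := by
          rw [← Real.rpow_add hX0]
          have : 1 - θ + (θ - 1) = 0 := by ring
          rw [this, Real.rpow_zero]
        calc 2 * B * q * X ^ (θ - 1) * (C.card : ℝ) = (16 * B * L0) * (Real.exp (-((l : ℝ) * (w / 2))) * C.card) / K * (X ^ (1 - θ) * X ^ (θ - 1)) := by
              rw [hq]; ring
          _ = Bc * (Real.exp (-((l : ℝ) * (w / 2))) * C.card) / K := by rw [e, mul_one, hBc, hQ₀, hB]; ring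
          _ ≤ Bc * NC / K := by gcongr
      have hres := hY₂ Y hYY2 H hH1 hHle K hK1 hK2 (R / lam) hRlam hYR Bc (Real.exp (-(m / 2))) hBc0 hBcs (Real.exp_pos _) hκm A1 A.card hA1c (fun a ha => (hA1p a ha).1) hfw C1' NC hC1c
        (fun c hc => (hC1p c hc).1) hcell
        (by
          intro c hc c' hc'
          have h1 := abs_le.1 (hC1p c hc).2
          have h2 := abs_le.1 (hC1p c' hc').2
          rw [abs_le]; constructor <;> linarith only [h1.1, h1.2, h2.1, h2.2, hw4])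
        (by
          intro a ha c hc
          have h1 := abs_le.1 (hA1p a ha).2
          have h2 := abs_le.1 (hC1p c hc).2
          rw [← hw, abs_le, hYdef]; constructor <;> linarith only [h1.1, h1.2, h2.1, h2.2])
      refine hres.trans ?_
      have hYτ : Y ^ (-(τ / 4)) ≤ 2 * ℓ ^ (-(τ / 4)) := by
        have h1 : Y ^ (-(τ / 4)) ≤ (ℓ / 2) ^ (-(τ / 4)) := Real.rpow_le_rpow_of_nonpos (by positivity) hYhalf (by linarith only [hτ0])
        have h2 : (ℓ / 2) ^ (-(τ / 4)) = ℓ ^ (-(τ / 4)) * 2 ^ (τ / 4) := by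
          rw [Real.div_rpow hℓ0.le (by norm_num), Real.rpow_neg (by norm_num : (0 : ℝ) ≤ 2), div_inv_eq_mul]
        have h3 : (2 : ℝ) ^ (τ / 4) ≤ 2 := by
          calc (2 : ℝ) ^ (τ / 4) ≤ 2 ^ (1 : ℝ) := Real.rpow_le_rpow_of_exponent_le (by norm_num) (by linarith only [hτ1])
            _ = 2 := Real.rpow_one 2
        rw [h2] at h1
        have h4 : 0 < ℓ ^ (-(τ / 4)) := by positivity
        have h5 : ℓ ^ (-(τ / 4)) * 2 ^ (τ / 4) ≤ ℓ ^ (-(τ / 4)) * 2 := mul_le_mul_of_nonneg_left h3 h4.le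
        linarith only [h1, h5]
      have h6 := mul_le_mul_of_nonneg_right hYτ (show 0 ≤ 2 * ((A.card : ℝ) * NC) by positivity)
      linarith only [h6]
  -- the sum over the blocks
  have hNsum : ∑ l ∈ range J, NCl l ≤ (1 + 3 / w) * C.card := by
    rw [hNCl, sum_add_distrib, ← sum_mul, add_mul, one_mul]
    apply add_le_add
    · have h1 : (Cl.card : ℝ) = ∑ l ∈ range J, ((Cl.filter (fun c : ℝ => ⌊((1 - θ) * ℓ - Real.log c) / (w / 2)⌋₊ = l)).card : ℝ) := by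
        exact_mod_cast card_eq_sum_card_fiberwise (fun c hc => mem_coe.2 (mem_range.2 (by
          obtain ⟨h1, h2, h3⟩ := hClp c (mem_coe.1 hc)
          rw [hJ, hG]
          exact (hidx κ hκ0 c (1 - θ) h1 h2 h3).1)))
      rw [← h1]; exact hClcard
    · exact mul_le_mul_of_nonneg_right (geo_exp w hw0 (by linarith only [hw1]) J) hcC0
  -- assembly
  have e1 : ∑ a ∈ A', ∑ c ∈ C', (ZH H (a * c) - 1) = ∑ a ∈ A', ∑ c ∈ Cl, (ZH H (a * c) - 1) + ∑ a ∈ A', ∑ c ∈ Cs, (ZH H (a * c) - 1) := by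
    rw [hCl, hCs, ← sum_add_distrib]
    apply sum_congr rfl
    intro a _
    rw [← sum_filter_add_sum_filter_not C' (fun c => κ * X ^ (1 - θ) ≤ c)]
  have b2 := dsum_le' A' Cs (fun (a : ℕ) (c : ℝ) => ZH H (a * c)) (fun a _ c _ => hZ0 a c) (δ' / 8 * C.card) (by
    intro a ha
    have h1 := hfmS a (hA' ha)
    have h2 : C0 * B * κ * (C.card : ℝ) + 2 * B * κ * C.card ≤ δ' / 8 * C.card := by
      rw [← add_mul]
      exact mul_le_mul_of_nonneg_right hκB hcC0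
    linarith only [h1, h2, hCscard])
  have c1 : δb * ((A'.card : ℝ) * Cl.card) ≤ δ' / 8 * (A.card * C.card) :=
    mul_le_mul hδb2 (mul_le_mul hAcard hClcard (Nat.cast_nonneg _) (Nat.cast_nonneg _))
      (mul_nonneg (Nat.cast_nonneg _) (Nat.cast_nonneg _)) (by linarith only [hδ'])
  have c2 : (JA : ℝ) * ∑ l ∈ range J, 2 * ℓ ^ (-(τ / 4)) * (2 * (A.card * NCl l)) ≤ δ' / 8 * (A.card * C.card) := by
    have e2 : ∑ l ∈ range J, 2 * ℓ ^ (-(τ / 4)) * (2 * ((A.card : ℝ) * NCl l)) = 4 * ℓ ^ (-(τ / 4)) * A.card * ∑ l ∈ range J, NCl l := by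
      rw [mul_sum]
      apply sum_congr rfl
      intro l _
      ring
    rw [e2]
    have h1 : ℓ ^ (-(τ / 4)) * ℓ ^ (τ / 4) = 1 := by
      rw [← Real.rpow_add hℓ0, neg_add_cancel, Real.rpow_zero]
    have h2 : 0 < ℓ ^ (-(τ / 4)) := by positivity
    calc (JA : ℝ) * (4 * ℓ ^ (-(τ / 4)) * A.card * ∑ l ∈ range J, NCl l) ≤ JA * (4 * ℓ ^ (-(τ / 4)) * A.card * ((1 + 3 / w) * C.card)) := by
          gcongr
      _ = (ℓ ^ (-(τ / 4)) / 8) * (8 * JA * (4 * (1 + 3 / w))) * (A.card * C.card) := by ring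
      _ ≤ (ℓ ^ (-(τ / 4)) / 8) * (ℓ ^ (τ / 4) * δ') * (A.card * C.card) := by gcongr
      _ = (ℓ ^ (-(τ / 4)) * ℓ ^ (τ / 4)) * (δ' / 8 * (A.card * C.card)) := by ring
      _ = _ := by rw [h1, one_mul]
  have c3 : δ' / 8 * (C.card : ℝ) * A'.card ≤ δ' / 8 * (A.card * C.card) := by
    calc δ' / 8 * (C.card : ℝ) * A'.card ≤ δ' / 8 * C.card * A.card :=
          mul_le_mul_of_nonneg_left hAcard (mul_nonneg (by linarith only [hδ']) hcC0)
      _ = _ := by ring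
  have hpos : 0 ≤ δ' * ((A.card : ℝ) * C.card) := mul_nonneg hδ'.le (mul_nonneg hcA0 hcC0)
  change |∑ a ∈ A', ∑ c ∈ C', (ZH H (a * c) - 1)| ≤ δ' * (A.card * C.card)
  rw [e1]
  refine (abs_add_le _ _).trans ?_
  linarith only [hlarge, b2, c1, c2, c3, hpos]

end Pool.Agent.J4H33
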