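import Pool.Agent.J4H33.LKb
import Pool.Agent.Y851.PT.P6

/-!
# Multipliers, blocks and cells
-/

set_option autoImplicit false

namespace Pool.Agent.J4H33

open Finset Filter
open Pool.Agent.Y851.PS
open Pool.Agent.Y851.PT

/-- the sets of multipliers -/
structure Am (β₀ ε θ X : ℝ) (A : Finset ℕ) : Prop where
  prime : ∀ a ∈ A, a.Prime
  ge : ∀ a ∈ A, β₀ * X ^ θ ≤ (a : ℝ)
  le : ∀ a ∈ A, (a : ℝ) ≤ X ^ θ
  card : (X ^ θ) ^ (1 - ε) ≤ (A.card : ℝ)

theorem Am.pos {β₀ ε θ X : ℝ} {A : Finset ℕ} (hX : 1 < X) (hA : Am β₀ ε θ X A) : (0 : ℝ) < A.card := by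
  have hX0 : 0 < X := by linarith
  exact lt_of_lt_of_le (by positivity) hA.card

theorem ev_log_lin (a b s : ℝ) (hs : 0 < s) : ∀ᶠ x : ℝ in atTop, a + b * Real.log x ≤ s * x := by
  have h1 := (Real.isLittleO_log_id_atTop).bound (show 0 < s / (2 * (|b| + 1)) by positivity)
  filter_upwards [h1, eventually_ge_atTop 1, eventually_ge_atTop (2 * |a| / s)] with x hx hx1 hx2
  rw [Real.norm_eq_abs, Real.norm_eq_abs, id, abs_of_nonneg (Real.log_nonneg hx1), abs_of_nonneg (show (0 : ℝ) ≤ x by linarith)] at hx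
  rw [div_le_iff₀ hs] at hx2
  have h2 : b * Real.log x ≤ |b| * Real.log x := mul_le_mul_of_nonneg_right (le_abs_self b) (Real.log_nonneg hx1)
  have h3 : |b| * Real.log x ≤ |b| * (s / (2 * (|b| + 1)) * x) := mul_le_mul_of_nonneg_left hx (abs_nonneg b)
  have h4 : |b| * (s / (2 * (|b| + 1)) * x) ≤ s / 2 * x := by
    have e : |b| * (s / (2 * (|b| + 1)) * x) = (|b| / (|b| + 1)) * (s / 2 * x) := by field_simp
    rw [e]
    have h5 : |b| / (|b| + 1) ≤ 1 := by
      rw [div_le_one (by positivity)]; linarith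
    have h6 : 0 ≤ s / 2 * x := by positivity
    calc _ ≤ 1 * (s / 2 * x) := mul_le_mul_of_nonneg_right h5 h6
      _ = _ := one_mul _
  have h5 := le_abs_self a
  linarith

theorem block_sum2 {α β : Type} (A : Finset α) (C : Finset β) (G : α → β → ℝ) (i : α → ℕ) (j : β → ℕ) (JA JC : ℕ)
    (hi : ∀ a ∈ A, i a < JA) (hj : ∀ c ∈ C, j c < JC) (δ : ℝ) (E : ℕ → ℝ)
    (h : ∀ k l : ℕ, k < JA → l < JC → |∑ a ∈ A.filter (fun a => i a = k), ∑ c ∈ C.filter (fun c => j c = l), G a c| ≤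
      δ * ((A.filter (fun a => i a = k)).card * (C.filter (fun c => j c = l)).card) + E l) :
    |∑ a ∈ A, ∑ c ∈ C, G a c| ≤ δ * (A.card * C.card) + JA * ∑ l ∈ range JC, E l := by
  have e1 : ∑ a ∈ A, ∑ c ∈ C, G a c = ∑ k ∈ range JA, ∑ l ∈ range JC, ∑ a ∈ A.filter (fun a => i a = k), ∑ c ∈ C.filter (fun c => j c = l), G a c := by
    rw [← sum_fiberwise_of_maps_to (s := A) (t := range JA) (g := i) (fun a ha => mem_range.2 (hi a ha))]
    apply sum_congr rfl
    intro k _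
    rw [sum_comm]
    rw [← sum_fiberwise_of_maps_to (s := C) (t := range JC) (g := j) (fun c hc => mem_range.2 (hj c hc))]
    apply sum_congr rfl
    intro l _
    rw [sum_comm]
  have c1 : (A.card : ℝ) = ∑ k ∈ range JA, ((A.filter (fun a => i a = k)).card : ℝ) := by
    exact_mod_cast card_eq_sum_card_fiberwise (fun a ha => mem_coe.2 (mem_range.2 (hi a (mem_coe.1 ha))))
  have c2 : (C.card : ℝ) = ∑ l ∈ range JC, ((C.filter (fun c => j c = l)).card : ℝ) := by
    exact_mod_cast card_eq_sum_card_fiberwise (fun c hc => mem_coe.2 (mem_range.2 (hj c (mem_coe.1 hc))))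
  rw [e1]
  refine (abs_sum_le_sum_abs _ _).trans ?_
  have h1 : ∀ k ∈ range JA, |∑ l ∈ range JC, ∑ a ∈ A.filter (fun a => i a = k), ∑ c ∈ C.filter (fun c => j c = l), G a c| ≤
      δ * ((A.filter (fun a => i a = k)).card * C.card) + ∑ l ∈ range JC, E l := by
    intro k hk
    refine (abs_sum_le_sum_abs _ _).trans ?_
    refine (sum_le_sum fun l hl => h k l (mem_range.1 hk) (mem_range.1 hl)).trans (le_of_eq ?_)
    rw [sum_add_distrib, ← mul_sum, ← mul_sum, ← c2]
  refine (sum_le_sum h1).trans (le_of_eq ?_)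
  rw [sum_add_distrib, sum_const, card_range, nsmul_eq_mul, ← mul_sum, ← sum_mul, ← c1]

/-- spread sets in the logarithmic scale, below `R` -/
theorem cell2 {B H θ X : ℝ} {C C1 : Finset ℝ} (h : SpH B H θ X C) (hC1 : C1 ⊆ C) (hX : 1 < X) (hH : 0 < H) (hB : 0 ≤ B) {K : ℕ}
    (hK1 : 1 ≤ K) (R q : ℝ) (hR : ∀ c ∈ C1, c ≤ R) (hq1 : 2 * R / K ≤ q) (hq2 : H / X ^ θ ≤ q) (u : ℝ) :
    ((C1.filter (fun c => u ≤ Real.log c ∧ Real.log c < u + 1 / K)).card : ℝ) ≤ 2 * B * q * X ^ (θ - 1) * C.card := by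
  classical
  have hX0 : 0 < X := by linarith
  have hK0 : (0 : ℝ) < K := by exact_mod_cast hK1
  have hK1r : (1 : ℝ) ≤ K := by exact_mod_cast hK1
  have hcard0 : (0 : ℝ) ≤ C.card := Nat.cast_nonneg _
  have hXθ : 0 < X ^ θ := by positivity
  have hq0 : 0 ≤ q := le_trans (by positivity) hq2
  rcases (C1.filter (fun c => u ≤ Real.log c ∧ Real.log c < u + 1 / K)).eq_empty_or_nonempty with h0 | ⟨c0, hc0⟩
  · rw [h0, card_empty, Nat.cast_zero]
    positivity
  · rw [mem_filter] at hc0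
    have hc0p := h.pos c0 (hC1 hc0.1)
    have hu : Real.exp u ≤ R := by
      have h1 : Real.exp u ≤ c0 := by
        rw [← Real.le_log_iff_exp_le hc0p]; exact hc0.2.1
      exact h1.trans (hR c0 hc0.1)
    have h1 := h.long hX hH hB (Real.exp u) q hq2
    refine le_trans ?_ h1
    apply Nat.cast_le.2
    apply card_le_card
    intro c hc
    rw [mem_filter] at hc ⊢
    have hcp := h.pos c (hC1 hc.1)
    refine ⟨hC1 hc.1, ?_, ?_⟩
    · rw [← Real.le_log_iff_exp_le hcp]; exact hc.2.1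
    · have h3 : c < Real.exp (u + 1 / K) := by
        rw [← Real.log_lt_iff_lt_exp hcp]; exact hc.2.2
      rw [Real.exp_add] at h3
      have h4 : Real.exp (1 / (K : ℝ)) ≤ 1 + 2 * (1 / K) := by
        have h5 : 1 / (K : ℝ) ≤ 1 := by rw [div_le_iff₀ hK0]; linarith
        have h6 : 0 ≤ 1 / (K : ℝ) := by positivity
        have h7 := Real.exp_bound' h6 h5 (n := 2) (by norm_num)
        have h8 : Real.exp (1 / (K : ℝ)) ≤ 1 + 1 / K + (1 / K) ^ 2 * 3 / 4 := by
          refine h7.trans (le_of_eq ?_)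
          rw [sum_range_succ, sum_range_succ, sum_range_zero]
          norm_num [Nat.factorial]
        nlinarith
      have h5 : Real.exp u * (2 * (1 / K)) ≤ q := by
        refine le_trans ?_ hq1
        calc Real.exp u * (2 * (1 / K)) ≤ R * (2 * (1 / K)) := by gcongr
          _ = _ := by ring
      have h6 : Real.exp u * Real.exp (1 / (K : ℝ)) ≤ Real.exp u * (1 + 2 * (1 / K)) := by gcongr
      linarith

theorem geo_exp (w : ℝ) (hw : 0 < w) (hw1 : w ≤ 1) (J : ℕ) : ∑ l ∈ range J, Real.exp (-(l * (w / 2))) ≤ 3 / w := by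
  have e : ∀ l ∈ range J, Real.exp (-((l : ℕ) * (w / 2))) = Real.exp (-(w / 2)) ^ l := by
    intro l _
    rw [← Real.exp_nat_mul]; congr 1; ring
  rw [sum_congr rfl e]
  have h1 : Real.exp (-(w / 2)) < 1 := by
    rw [Real.exp_lt_one_iff]; linarith
  have h0 : 0 < Real.exp (-(w / 2)) := Real.exp_pos _
  have h2 : Real.exp (-(w / 2)) * (1 + w / 2) ≤ 1 := by
    have h3 := Real.add_one_le_exp (w / 2)
    calc Real.exp (-(w / 2)) * (1 + w / 2) ≤ Real.exp (-(w / 2)) * Real.exp (w / 2) := by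
          apply mul_le_mul_of_nonneg_left _ h0.le
          linarith
      _ = 1 := by rw [← Real.exp_add]; simp
  have h3 : (∑ l ∈ range J, Real.exp (-(w / 2)) ^ l) * (1 - Real.exp (-(w / 2))) ≤ 1 := by
    have := geom_sum_mul_neg (Real.exp (-(w / 2))) J
    rw [this]
    have : 0 ≤ Real.exp (-(w / 2)) ^ J := by positivity
    linarith
  have h4 : 0 ≤ ∑ l ∈ range J, Real.exp (-(w / 2)) ^ l := sum_nonneg fun _ _ => by positivity
  have h5 : w / 3 ≤ 1 - Real.exp (-(w / 2)) := by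
    by_contra hcon
    push Not at hcon
    have h6 : 1 - w / 3 < Real.exp (-(w / 2)) := by linarith
    have h7 : (1 - w / 3) * (1 + w / 2) < Real.exp (-(w / 2)) * (1 + w / 2) := mul_lt_mul_of_pos_right h6 (by linarith)
    nlinarith
  rw [le_div_iff₀ hw]
  have h6 : (∑ l ∈ range J, Real.exp (-(w / 2)) ^ l) * (w / 3) ≤ 1 := (mul_le_mul_of_nonneg_left h5 h4).trans h3
  linarith

end Pool.Agent.J4H33
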