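import Mathlib

/-!
# A weighted union of exceptional sets

For every `b` in a finite set `B` (with weights `w b`) an exceptional set of `b y` is given which is covered by few intervals
of length `b ℓ`. Then for all `y` outside few intervals of length `ℓ` the weight of the `b` for which `b y` is exceptional is
small.
-/

set_option autoImplicit false

namespace Pool.Agent.J4H33.Fac

open Finset

/-- the cells met by the intervals attached to `b` -/
noncomputable def cells (U : ℕ → Finset ℝ) (ℓ : ℝ) (b : ℕ) : Finset ℤ :=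
  (U b).image (fun u => ⌊u / (b * ℓ)⌋) ∪ (U b).image (fun u => ⌊u / (b * ℓ)⌋ + 1)

theorem cells_card (U : ℕ → Finset ℝ) (ℓ : ℝ) (b : ℕ) : (cells U ℓ b).card ≤ 2 * (U b).card := by
  classical
  unfold cells
  refine (card_union_le _ _).trans ?_
  have h1 := card_image_le (s := U b) (f := fun u => ⌊u / (b * ℓ)⌋)
  have h2 := card_image_le (s := U b) (f := fun u => ⌊u / (b * ℓ)⌋ + 1)
  omega

theorem cells_mem (U : ℕ → Finset ℝ) (ℓ : ℝ) (hℓ : 0 < ℓ) (b : ℕ) (hb : 0 < b) (y u : ℝ) (hu : u ∈ U b) (h1 : u ≤ b * y)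
    (h2 : b * y ≤ u + b * ℓ) : ⌊y / ℓ⌋ ∈ cells U ℓ b := by
  classical
  have hb0 : (0 : ℝ) < b := by exact_mod_cast hb
  have hbl : (0 : ℝ) < b * ℓ := by positivity
  obtain ⟨t, ht⟩ : ∃ t, t = u / (b * ℓ) := ⟨_, rfl⟩
  have h3 : t ≤ y / ℓ := by
    rw [ht, div_le_div_iff₀ hbl hℓ]
    nlinarith
  have h4 : y / ℓ ≤ t + 1 := by
    have h5 : t + 1 = (u + b * ℓ) / (b * ℓ) := by rw [ht]; field_simp
    rw [h5, div_le_div_iff₀ hℓ hbl]
    nlinarith
  have h6 : ⌊t⌋ ≤ ⌊y / ℓ⌋ := Int.floor_le_floor h3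
  have h7 : ⌊y / ℓ⌋ ≤ ⌊t⌋ + 1 := by
    rw [← Int.floor_add_one]
    exact Int.floor_le_floor h4
  unfold cells
  rw [mem_union, mem_image, mem_image]
  have h8 : ⌊y / ℓ⌋ = ⌊t⌋ ∨ ⌊y / ℓ⌋ = ⌊t⌋ + 1 := by omega
  rcases h8 with h8 | h8
  · left; exact ⟨u, hu, by rw [h8, ht]⟩
  · right; exact ⟨u, hu, by rw [h8, ht]⟩

open Classical in
theorem weighted_union (B : Finset ℕ) (hB : ∀ b ∈ B, 0 < b) (w : ℕ → ℝ) (hw : ∀ b ∈ B, 0 ≤ w b) (U : ℕ → Finset ℝ) (ℓ N κ : ℝ)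
    (hℓ : 0 < ℓ) (hκ : 0 < κ) (hU : ∀ b ∈ B, ((U b).card : ℝ) ≤ N) (hW : 0 < ∑ b ∈ B, w b) :
    ∃ V : Finset ℝ, (V.card : ℝ) ≤ 2 * N / κ ∧ ∀ y : ℝ, (∀ v ∈ V, ¬ (v ≤ y ∧ y ≤ v + ℓ)) →
      ∑ b ∈ B.filter (fun b => ∃ u ∈ U b, u ≤ b * y ∧ b * y ≤ u + b * ℓ), w b ≤ κ * ∑ b ∈ B, w b := by
  obtain ⟨W, hWdef⟩ : ∃ W, W = ∑ b ∈ B, w b := ⟨_, rfl⟩
  rw [← hWdef] at hW ⊢
  obtain ⟨G, hG⟩ : ∃ G : Finset ℤ, G = (B.biUnion (fun b => cells U ℓ b)).filter
      (fun m => κ * W < ∑ b ∈ B.filter (fun b => m ∈ cells U ℓ b), w b) := ⟨_, rfl⟩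
  have hcount : κ * W * (G.card : ℝ) ≤ 2 * N * W := by
    calc κ * W * (G.card : ℝ) = ∑ _m ∈ G, κ * W := by rw [sum_const, nsmul_eq_mul]; ring
      _ ≤ ∑ m ∈ G, ∑ b ∈ B.filter (fun b => m ∈ cells U ℓ b), w b := by
          apply sum_le_sum
          intro m hm
          rw [hG, mem_filter] at hm
          exact hm.2.le
      _ = ∑ m ∈ G, ∑ b ∈ B, if m ∈ cells U ℓ b then w b else 0 := by
          apply sum_congr rfl
          intro m _
          rw [sum_filter]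
      _ = ∑ b ∈ B, ∑ m ∈ G, if m ∈ cells U ℓ b then w b else 0 := sum_comm
      _ ≤ ∑ b ∈ B, 2 * N * w b := by
          apply sum_le_sum
          intro b hb
          rw [← sum_filter, sum_const, nsmul_eq_mul]
          have h1 : ((G.filter (fun m => m ∈ cells U ℓ b)).card : ℝ) ≤ 2 * N := by
            have h2 : (G.filter (fun m => m ∈ cells U ℓ b)).card ≤ (cells U ℓ b).card := by
              apply card_le_card
              intro m hm
              exact (mem_filter.1 hm).2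
            have h3 : ((G.filter (fun m => m ∈ cells U ℓ b)).card : ℝ) ≤ 2 * (U b).card := by
              exact_mod_cast h2.trans (cells_card U ℓ b)
            linarith [hU b hb]
          exact mul_le_mul_of_nonneg_right h1 (hw b hb)
      _ = _ := by rw [← mul_sum, hWdef]
  refine ⟨G.image (fun m : ℤ => (m : ℝ) * ℓ), ?_, fun y hy => ?_⟩
  · have h1 : (((G.image (fun m : ℤ => (m : ℝ) * ℓ)).card : ℝ)) ≤ G.card := by exact_mod_cast card_image_le
    refine h1.trans ?_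
    rw [le_div_iff₀ hκ]
    have h2 : (G.card : ℝ) * κ * W ≤ 2 * N * W := by linarith [hcount]
    exact le_of_mul_le_mul_right h2 hW
  · by_contra hcon
    push Not at hcon
    obtain ⟨m, hm⟩ : ∃ m : ℤ, m = ⌊y / ℓ⌋ := ⟨_, rfl⟩
    have hsub : B.filter (fun b => ∃ u ∈ U b, u ≤ b * y ∧ b * y ≤ u + b * ℓ) ⊆ B.filter (fun b => m ∈ cells U ℓ b) := by
      intro b hb
      rw [mem_filter] at hb ⊢
      obtain ⟨hb1, u, hu, h1, h2⟩ := hb
      exact ⟨hb1, by rw [hm]; exact cells_mem U ℓ hℓ b (hB b hb1) y u hu h1 h2⟩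
    have hlt : κ * W < ∑ b ∈ B.filter (fun b => m ∈ cells U ℓ b), w b :=
      hcon.trans_le (sum_le_sum_of_subset_of_nonneg hsub (fun b hb _ => hw b (mem_filter.1 hb).1))
    have hne : (B.filter (fun b => m ∈ cells U ℓ b)).Nonempty := by
      rw [nonempty_iff_ne_empty]
      intro h
      rw [h, sum_empty] at hlt
      have : 0 < κ * W := by positivity
      linarith
    obtain ⟨b, hb⟩ := hne
    rw [mem_filter] at hb
    have hmG : m ∈ G := by
      rw [hG, mem_filter]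
      exact ⟨mem_biUnion.2 ⟨b, hb.1, hb.2⟩, hlt⟩
    refine hy ((m : ℝ) * ℓ) (mem_image.2 ⟨m, hmG, rfl⟩) ⟨?_, ?_⟩
    · rw [hm]
      have h1 := Int.floor_le (y / ℓ)
      rwa [le_div_iff₀ hℓ] at h1
    · rw [hm]
      have h1 := (Int.lt_floor_add_one (y / ℓ)).le
      rw [div_le_iff₀ hℓ] at h1
      linarith

end Pool.Agent.J4H33.Fac
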