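import Pool.Agent.J4H33.Blk0

/-!
# Comparison of two scales
-/

set_option autoImplicit false

namespace Pool.Agent.J4H33

open Finset Filter
open Pool.Agent.H376R2.MR (Fj FK ch Fj_nonneg Fj_le ls_norm_ch)
open Pool.Agent.Y851.PS
open Pool.Agent.Y851.PT (L0_exists)

/-- the frequencies at which the transform of `A` is large -/
noncomputable def LK (A : Finset ℕ) (K : ℕ) (t : ℝ) : Finset ℤ := (FK K).filter (fun k => t ≤ ‖TA A k‖)

theorem TA_le (A : Finset ℕ) (k : ℤ) : ‖TA A k‖ ≤ A.card := by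
  have := TF_le A (fun _ => (1 : ℝ)) (fun n : ℕ => Real.log n) (fun _ _ => zero_le_one) k
  rwa [sum_const, nsmul_eq_mul, mul_one] at this

theorem ev_const_pow (D a : ℝ) (ha : 0 < a) : ∀ᶠ Y : ℝ in atTop, D ≤ Y ^ a := (tendsto_rpow_atTop ha).eventually_ge_atTop D

/-- **Comparison of the scales `K` and `K₁`** -/
theorem freq4 {γ ι : Type} (A : Finset ℕ) (C : Finset γ) (mc : γ → ℝ) (S : Finset ι) (x l : ι → ℝ) (hx : ∀ i ∈ S, 0 ≤ x i)
    (K K₁ : ℕ) (hK₁ : 1 ≤ K₁) (hK : K₁ ≤ K) (s s' : ℝ) (T : ℕ) (V E κ EC P NA NC : ℝ) (hE0 : 0 ≤ E) (hκ : 0 ≤ κ) (hEC0 : 0 ≤ EC) (hNA : 0 ≤ NA) (hNC : 0 ≤ NC)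
    (hP : ∑ i ∈ S, x i ≤ P) (hEC : ∑ k ∈ FK K, wt K k * ‖TF C (fun _ => 1) mc k‖ ^ 2 ≤ EC * NC ^ 2)
    (hE : ∑ k ∈ FK K, wt K k * ‖TF S x l k‖ ^ 2 ≤ E)
    (hsup : ∑ k ∈ (LK A K (κ * NA)).filter (fun k : ℤ => ¬ |k| ≤ (T : ℤ)), (wt K k * (‖TF C (fun _ => 1) mc k‖ * ‖TA A k‖)) * ‖TF S x l k‖ ≤ V * (NA * NC)) :
    |FS A C mc S x l K s - FS A C mc S x l K₁ s'| ≤
      ((2 * T + 1) * T * (1 / K + 1 / K₁ + |s| + |s'|) * P) * (A.card * C.card) + (2 * V + √(4 * EC * (κ ^ 2 * E))) * (NA * NC) := by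
  classical
  have hAc : (0 : ℝ) ≤ A.card := Nat.cast_nonneg _
  have hCc : (0 : ℝ) ≤ C.card := Nat.cast_nonneg _
  have hP0 : 0 ≤ P := (sum_nonneg hx).trans hP
  have h1 : |FS A C mc S x l K s - FS A C mc S x l K₁ s'| =
      ‖((FS A C mc S x l K s - FS A C mc S x l K₁ s' : ℝ) : ℂ)‖ := by
    rw [Complex.norm_real, Real.norm_eq_abs]
  rw [h1, FS_diff A C mc S x l K K₁ hK₁ hK, ← sum_filter_add_sum_filter_not (FK K) (fun k : ℤ => |k| ≤ (T : ℤ))]
  refine (norm_add_le _ _).trans ?_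
  apply add_le_add
  · -- low frequencies
    have h2 : ∀ k ∈ (FK K).filter (fun k : ℤ => |k| ≤ (T : ℤ)), ‖(WD K K₁ s s' k * GP C mc S x l k) *
        (starRingEnd ℂ) (TF A (fun _ => 1) (fun n : ℕ => Real.log n) k)‖ ≤
        T * (1 / K + 1 / K₁ + |s| + |s'|) * P * (A.card * C.card) := by
      intro k hk
      rw [mem_filter] at hk
      have a0 : |(k : ℝ)| ≤ T := by
        have : ((|k| : ℤ) : ℝ) ≤ ((T : ℤ) : ℝ) := by exact_mod_cast hk.2
        rwa [Int.cast_abs] at this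
      have a1 := WD_low K K₁ s s' k
      have a2 := TF_le S x l hx k
      have a3 := TF_le C (fun _ => (1 : ℝ)) mc (fun _ _ => zero_le_one) k
      have a4 := TF_le A (fun _ => (1 : ℝ)) (fun n : ℕ => Real.log n) (fun _ _ => zero_le_one) k
      rw [sum_const, nsmul_eq_mul, mul_one] at a3 a4
      have a5 : 0 ≤ 1 / (K : ℝ) + 1 / K₁ + |s| + |s'| := by positivity
      unfold GP
      rw [norm_mul, norm_mul, norm_mul, Complex.norm_conj, Complex.norm_conj]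
      calc ‖WD K K₁ s s' k‖ * (‖TF S x l k‖ * ‖TF C (fun _ => 1) mc k‖) * ‖TF A (fun _ => 1) (fun n : ℕ => Real.log n) k‖
          ≤ (T * (1 / K + 1 / K₁ + |s| + |s'|)) * (P * C.card) * A.card := by
            have b1 : ‖WD K K₁ s s' k‖ ≤ T * (1 / K + 1 / K₁ + |s| + |s'|) :=
              a1.trans (mul_le_mul_of_nonneg_right a0 a5)
            have b2 : ‖TF S x l k‖ ≤ P := a2.trans hP
            gcongr
        _ = _ := by ring
    refine (norm_sum_le _ _).trans ((sum_le_sum h2).trans ?_)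
    rw [sum_const, nsmul_eq_mul]
    have h3 : (((FK K).filter (fun k : ℤ => |k| ≤ (T : ℤ))).card : ℝ) ≤ 2 * T + 1 := by
      have h4 : (FK K).filter (fun k : ℤ => |k| ≤ (T : ℤ)) ⊆ (FK K).filter (fun k : ℤ => |0 - k| ≤ (T : ℤ)) := by
        intro k hk
        rw [mem_filter] at hk ⊢
        refine ⟨hk.1, ?_⟩
        rw [zero_sub, abs_neg]; exact hk.2
      have h5 := near_count (FK K) T 0
      have h6 : (((FK K).filter (fun k : ℤ => |k| ≤ (T : ℤ))).card : ℝ) ≤ ((FK K).filter (fun k : ℤ => |0 - k| ≤ (T : ℤ))).card := by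
        exact_mod_cast card_le_card h4
      linarith
    have h4 : 0 ≤ T * (1 / K + 1 / K₁ + |s| + |s'|) * P * (A.card * C.card) := by positivity
    calc (((FK K).filter (fun k : ℤ => |k| ≤ (T : ℤ))).card : ℝ) * (T * (1 / K + 1 / K₁ + |s| + |s'|) * P * (A.card * C.card))
        ≤ (2 * T + 1) * (T * (1 / K + 1 / K₁ + |s| + |s'|) * P * (A.card * C.card)) := mul_le_mul_of_nonneg_right h3 h4
      _ = _ := by ring
  · -- high frequencies
    obtain ⟨U, hU⟩ : ∃ U, U = (FK K).filter (fun k : ℤ => ¬ |k| ≤ (T : ℤ)) := ⟨_, rfl⟩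
    rw [← hU]
    have hUK : U ⊆ FK K := by rw [hU]; exact filter_subset _ _
    obtain ⟨F, hF⟩ : ∃ F : ℤ → ℝ, F = fun k => wt K k * (‖TF C (fun _ => 1) mc k‖ * ‖TA A k‖) * ‖TF S x l k‖ := ⟨_, rfl⟩
    have hb : ∀ k ∈ U, ‖(WD K K₁ s s' k * GP C mc S x l k) * (starRingEnd ℂ) (TF A (fun _ => 1) (fun n : ℕ => Real.log n) k)‖ ≤
        2 * F k := by
      intro k _
      unfold GP
      rw [norm_mul, norm_mul, norm_mul, Complex.norm_conj, Complex.norm_conj]
      have h2 := WD_high K K₁ hK₁ hK s s' k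
      calc ‖WD K K₁ s s' k‖ * (‖TF S x l k‖ * ‖TF C (fun _ => 1) mc k‖) * ‖TF A (fun _ => 1) (fun n : ℕ => Real.log n) k‖
          ≤ (2 * wt K k) * (‖TF S x l k‖ * ‖TF C (fun _ => 1) mc k‖) * ‖TF A (fun _ => 1) (fun n : ℕ => Real.log n) k‖ := by gcongr
        _ = (2 * wt K k) * (‖TF S x l k‖ * ‖TF C (fun _ => 1) mc k‖) * ‖TA A k‖ := rfl
        _ = _ := by rw [hF]; ring
    refine (norm_sum_le _ _).trans ((sum_le_sum hb).trans ?_)
    rw [← mul_sum, ← sum_filter_add_sum_filter_not U (fun k => κ * NA ≤ ‖TA A k‖), add_mul, mul_add]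
    apply add_le_add
    · have e : U.filter (fun k => κ * NA ≤ ‖TA A k‖) = (LK A K (κ * NA)).filter (fun k : ℤ => ¬ |k| ≤ (T : ℤ)) := by
        rw [hU]
        unfold LK
        rw [filter_filter, filter_filter]
        apply filter_congr
        intro k _
        tauto
      rw [e, hF, mul_assoc]
      exact mul_le_mul_of_nonneg_left hsup (by norm_num)
    · obtain ⟨W, hW⟩ : ∃ W, W = U.filter (fun k => ¬ κ * NA ≤ ‖TA A k‖) := ⟨_, rfl⟩
      rw [← hW]
      have hWK : W ⊆ FK K := by rw [hW]; exact (filter_subset _ _).trans hUK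
      have b1 : ∑ k ∈ W, F k ≤ (κ * NA) * ∑ k ∈ W, (√(wt K k) * ‖TF S x l k‖) * (√(wt K k) * ‖TF C (fun _ => 1) mc k‖) := by
        rw [mul_sum]
        apply sum_le_sum
        intro k hk
        rw [hW, mem_filter, not_le] at hk
        have h3 := Real.mul_self_sqrt (wt_nonneg K k)
        have h4 := wt_nonneg K k
        rw [hF]
        calc wt K k * (‖TF C (fun _ => 1) mc k‖ * ‖TA A k‖) * ‖TF S x l k‖ ≤ wt K k * (‖TF C (fun _ => 1) mc k‖ * (κ * NA)) * ‖TF S x l k‖ := by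
              have := hk.2.le
              gcongr
          _ = (√(wt K k) * √(wt K k)) * (‖TF C (fun _ => 1) mc k‖ * (κ * NA)) * ‖TF S x l k‖ := by rw [h3]
          _ = _ := by ring
      have b2 := Finset.sum_mul_sq_le_sq_mul_sq W (fun k => √(wt K k) * ‖TF S x l k‖) (fun k => √(wt K k) * ‖TF C (fun _ => 1) mc k‖)
      have b3 : ∑ k ∈ W, (√(wt K k) * ‖TF S x l k‖) ^ 2 ≤ E := by
        refine le_trans (le_of_eq ?_) ((sum_le_sum_of_subset_of_nonneg hWK (f := fun k => wt K k * ‖TF S x l k‖ ^ 2)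
          (fun k _ _ => mul_nonneg (wt_nonneg _ _) (by positivity))).trans hE)
        apply sum_congr rfl
        intro k _
        rw [mul_pow, Real.sq_sqrt (wt_nonneg _ _)]
      have b4 : ∑ k ∈ W, (√(wt K k) * ‖TF C (fun _ => 1) mc k‖) ^ 2 ≤ EC * NC ^ 2 := by
        refine le_trans (le_of_eq ?_) ((sum_le_sum_of_subset_of_nonneg hWK (f := fun k => wt K k * ‖TF C (fun _ => 1) mc k‖ ^ 2)
          (fun k _ _ => mul_nonneg (wt_nonneg _ _) (by positivity))).trans hEC)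
        apply sum_congr rfl
        intro k _
        rw [mul_pow, Real.sq_sqrt (wt_nonneg _ _)]
      have b5 : 0 ≤ ∑ k ∈ W, (√(wt K k) * ‖TF S x l k‖) ^ 2 := sum_nonneg fun _ _ => by positivity
      have b6 : 0 ≤ ∑ k ∈ W, (√(wt K k) * ‖TF C (fun _ => 1) mc k‖) ^ 2 := sum_nonneg fun _ _ => by positivity
      obtain ⟨Sg, hSg⟩ : ∃ Sg, Sg = ∑ k ∈ W, (√(wt K k) * ‖TF S x l k‖) * (√(wt K k) * ‖TF C (fun _ => 1) mc k‖) := ⟨_, rfl⟩
      rw [← hSg] at b1 b2
      have hS10 : 0 ≤ Sg := by rw [hSg]; exact sum_nonneg fun _ _ => by positivity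
      have h4 : (2 * (κ * NA * Sg)) ^ 2 ≤ (√(4 * EC * (κ ^ 2 * E)) * (NA * NC)) ^ 2 := by
        rw [mul_pow (√_), Real.sq_sqrt (by positivity)]
        calc (2 * (κ * NA * Sg)) ^ 2 = 4 * (κ ^ 2 * NA ^ 2) * Sg ^ 2 := by ring
          _ ≤ 4 * (κ ^ 2 * NA ^ 2) * (E * (EC * NC ^ 2)) := by
              have := b2.trans (mul_le_mul b3 b4 b6 (b5.trans b3))
              gcongr
          _ = _ := by ring
      have h5 := (pow_le_pow_iff_left₀ (by positivity) (by positivity) (by norm_num)).1 h4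
      linarith

end Pool.Agent.J4H33
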