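import Pool.Agent.J4H33.G1
import Pool.Agent.J4H33.G2
import Pool.Agent.J4H33.EP

/-!
# Windows of arbitrary length in a block, for arbitrary phases
-/

set_option autoImplicit false

namespace Pool.Agent.J4H33

open Finset Filter
open Pool.Agent.H376R2.MR (Fj FK ch)
open Pool.Agent.Y851.PS
open Pool.Agent.Y851.PT

/-- windows in a block, for arbitrary phases -/
def PBHg (c τ δ : ℝ) : Prop :=
    ∃ (L0 C₀ : ℝ) (b : ℕ) (η : ℝ), 1 ≤ L0 ∧ 1 ≤ C₀ ∧ 0 < η ∧ ∀ᶠ Y : ℝ in atTop,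
    ∀ H : ℝ, 8 * L0 ≤ H → H * Y ^ b ≤ Real.exp Y → ∀ K : ℕ, 2 * L0 * (Real.exp Y / H) ≤ K → (K : ℝ) ≤ 8 * L0 * (Real.exp Y / H) →
    ∀ R : ℝ, 1 ≤ R → Y ≤ R * H →
    ∀ Bc κ : ℝ, 0 < Bc → Bc ≤ Real.exp (η * Y) → 0 < κ → κ ^ 2 * Bc * (C₀ * R) ≤ Y ^ (-τ) →
    ∀ (A : Finset ℕ) (φ : ℕ → ℝ) (NA : ℝ), (A.card : ℝ) ≤ NA → ((LG A φ K (κ * NA)).card : ℝ) ≤ Real.exp (c * Y) →
    ∀ (C : Finset ℝ) (NC : ℝ), (C.card : ℝ) ≤ NC → (∀ c ∈ C, 0 < c) →
    (∀ u : ℝ, ((C.filter (fun c => u ≤ Real.log c ∧ Real.log c < u + 1 / K)).card : ℝ) ≤ Bc * NC / K) →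
    (∀ c ∈ C, ∀ c' ∈ C, |Real.log c - Real.log c'| ≤ 4) → (∀ a ∈ A, ∀ c ∈ C, |φ a + Real.log c - Y| ≤ min (1 / 8) (δ / 24)) →
    |∑ a ∈ A, ∑ c ∈ C, (ZH H (Real.exp (φ a) * c) - 1)| ≤ δ * (A.card * C.card) + Y ^ (-(τ / 4)) * (2 * (NA * NC))

theorem Sh_one {γ ι : Type} (A : Finset ℕ) (φ : ℕ → ℝ) (C : Finset γ) (mc : γ → ℝ) (S : Finset ι) (x l : ι → ℝ) (h : ℝ) :
    Sh {1} (A ×ˢ C) (mp φ mc) S x l h = ∑ a ∈ A, ∑ c ∈ C, ∑ i ∈ S.filter (fun i => φ a + mc c - h < l i ∧ l i < φ a + mc c), x i := by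
  unfold Sh mp
  rw [sum_singleton, sum_product, Nat.cast_one, Real.log_one]
  simp only [zero_add]

/-- **The counts in a block.** -/
theorem blockH5g (c τ δ : ℝ) (hB : PB5g c τ (δ / 4)) (hδ : 0 < δ) (hδ1 : δ ≤ 1 / 10) : PBHg c τ δ := by
  unfold PBHg
  unfold PB5g at hB
  classical
  obtain ⟨L0, b, η, hL0, hη, hblock⟩ := hB
  obtain ⟨C₁, YE, hC₁, hEP⟩ := EP2
  have hL00 : 0 < L0 := by linarith
  refine ⟨L0, C₁ * (8 * L0), b + 1, η, hL0, one_le_mul_of_one_le_of_one_le hC₁ (by linarith only [hL0]), hη, ?_⟩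
  set w := min (1 / 8) (δ / 24) with hw
  have hw0 : 0 < w := lt_min (by norm_num) (by positivity)
  have hw1 : w ≤ 1 / 8 := min_le_left _ _
  have hw2 : w ≤ δ / 24 := min_le_right _ _
  filter_upwards [hblock, eventually_ge_atTop YE, eventually_ge_atTop 10, eventually_ge_atTop (16 / w)]
    with Y hb hYE hY10 hYw H hH1 hH2 K hK1 hK2 R hR1 hRH Bc κ hBc0 hBcs hκ0 hκB A φ NA hNA hfew C NC hNC hC0 hcell hCC hAC
  have hY3 : 3 ≤ Y := by linarith
  have hY0 : 0 < Y := by linarith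
  have hH0 : 0 < H := lt_of_lt_of_le (by positivity) hH1
  have heY : 0 < Real.exp Y := Real.exp_pos Y
  have hKpos : (0 : ℝ) < K := lt_of_lt_of_le (by positivity) hK1
  have hKnat : 1 ≤ K := by
    have : 0 < K := by exact_mod_cast hKpos
    omega
  -- size of `K`
  have hKe : (K : ℝ) ≤ Real.exp Y := by
    refine hK2.trans ?_
    calc 8 * L0 * (Real.exp Y / H) ≤ H * (Real.exp Y / H) := mul_le_mul_of_nonneg_right hH1 (by positivity)
      _ = Real.exp Y := by field_simp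
  have hKR2 : (K : ℝ) ≤ (8 * L0 * R) * (Real.exp Y / Y) := by
    refine hK2.trans ?_
    have h1 : Real.exp Y / H ≤ R * (Real.exp Y / Y) := by
      rw [← mul_div_assoc, div_le_div_iff₀ hH0 hY0]
      calc Real.exp Y * Y ≤ Real.exp Y * (R * H) := mul_le_mul_of_nonneg_left hRH heY.le
        _ = R * Real.exp Y * H := by ring
    calc 8 * L0 * (Real.exp Y / H) ≤ 8 * L0 * (R * (Real.exp Y / Y)) := mul_le_mul_of_nonneg_left h1 (by positivity)
      _ = _ := by ring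
  have hEPY := hEP Y hYE K hKnat (8 * L0 * R) (one_le_mul_of_one_le_of_one_le (by linarith only [hL0]) hR1) hKR2
  have hE0 : 0 ≤ C₁ * (8 * L0 * R) := by positivity
  have hYb1 : 1 ≤ Y ^ b := one_le_pow₀ (by linarith)
  have hrat : Y ^ (b + 1) ≤ Real.exp Y / H := by
    rw [le_div_iff₀ hH0, mul_comm]; exact hH2
  have hKb : Y ^ b ≤ K := by
    refine le_trans ?_ hK1
    have h1 : Y ^ b ≤ Y ^ (b + 1) := pow_le_pow_right₀ (by linarith) (by omega)
    have h2 : 1 * (Real.exp Y / H) ≤ 2 * L0 * (Real.exp Y / H) := mul_le_mul_of_nonneg_right (by linarith) (by positivity)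
    linarith
  -- the windows
  set h₁ := H * Real.exp (-(Y + w)) with hh₁
  have hh₁0 : 0 < h₁ := by positivity
  set t := H * Real.exp (-(Y - w)) with ht
  have ht0 : 0 < t := by positivity
  have hexpw : Real.exp w ≤ 2 := by
    have h1 : Real.exp w ≤ Real.exp (1 / 2) := Real.exp_le_exp.2 (by linarith)
    have h2 : Real.exp (1 / 2 : ℝ) ≤ 2 := by
      have h3 : Real.exp (1 / 2 : ℝ) * Real.exp (1 / 2) = Real.exp 1 := by rw [← Real.exp_add]; norm_num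
      have h4 := Real.exp_one_lt_d9
      have h5 := Real.exp_pos (1 / 2 : ℝ)
      nlinarith only [h3, h4, h5]
    linarith only [h1, h2]
  have htle : t ≤ 2 / Y ^ (b + 1) := by
    rw [ht]
    have e : Real.exp (-(Y - w)) = Real.exp w / Real.exp Y := by
      rw [← Real.exp_sub]; congr 1; ring
    rw [e]
    calc H * (Real.exp w / Real.exp Y) ≤ H * (2 / Real.exp Y) := by gcongr
      _ = 2 * (H / Real.exp Y) := by ring
      _ ≤ 2 * (1 / Y ^ (b + 1)) := by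
        apply mul_le_mul_of_nonneg_left _ (by norm_num)
        rw [div_le_div_iff₀ heY (by positivity), one_mul]
        exact hH2
      _ = _ := by ring
  have htY : t * Y ^ b ≤ 2 / Y := by
    calc t * Y ^ b ≤ 2 / Y ^ (b + 1) * Y ^ b := mul_le_mul_of_nonneg_right htle (by positivity)
      _ = 2 / Y := by rw [pow_succ]; field_simp
  have htw : t ≤ w / 8 := by
    have h1 : t ≤ 2 / Y := by
      refine le_trans ?_ htY
      calc t = t * 1 := (mul_one t).symm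
        _ ≤ _ := mul_le_mul_of_nonneg_left hYb1 ht0.le
    refine h1.trans ?_
    rw [div_le_iff₀ hw0] at hYw
    rw [div_le_iff₀ hY0]
    linarith
  set h₂ := (1 + w) * t with hh₂
  have hh₂0 : 0 < h₂ := by positivity
  have hh₂t : h₂ ≤ 2 * t := by rw [hh₂]; exact mul_le_mul_of_nonneg_right (by linarith only [hw1]) ht0.le
  have hh₂Y : h₂ * Y ^ b ≤ 1 := by
    calc h₂ * Y ^ b ≤ 2 * t * Y ^ b := mul_le_mul_of_nonneg_right hh₂t (by positivity)
      _ = 2 * (t * Y ^ b) := by ring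
      _ ≤ 2 * (2 / Y) := by gcongr
      _ ≤ 1 := by
        rw [← mul_div_assoc, div_le_one hY0]; linarith
  have hh₁t : h₁ ≤ t := by
    rw [hh₁, ht]
    apply mul_le_mul_of_nonneg_left _ hH0.le
    rw [Real.exp_le_exp]; linarith
  have hh₁₂ : h₁ ≤ h₂ := by
    rw [hh₂]; nlinarith only [mul_pos hw0 ht0, hh₁t]
  have hKh₁ : L0 ≤ K * h₁ := by
    have e : h₁ = H * (1 / (Real.exp Y * Real.exp w)) := by
      rw [hh₁, neg_add, Real.exp_add, Real.exp_neg, Real.exp_neg]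
      field_simp
    calc L0 = (2 * L0 * (Real.exp Y / H)) * (H * (1 / (Real.exp Y * 2))) := by field_simp
      _ ≤ K * h₁ := by
        rw [e]
        have h1 : H * (1 / (Real.exp Y * 2)) ≤ H * (1 / (Real.exp Y * Real.exp w)) := by gcongr
        apply mul_le_mul hK1 h1 (by positivity) hKpos.le
  have hKh₂ : L0 ≤ K * h₂ := hKh₁.trans (by gcongr)
  have hκB' : κ ^ 2 * Bc * (C₁ * (8 * L0 * R)) ≤ Y ^ (-τ) := by
    refine le_trans (le_of_eq ?_) hκB
    ring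
  have hv : ∀ a ∈ A, ∀ c ∈ C, |φ a + Real.log c - Y| ≤ 1 / 2 := fun a ha c hc => (hAC a ha c hc).trans (by linarith)
  have hh₁Y : h₁ * Y ^ b ≤ 1 := (mul_le_mul_of_nonneg_right hh₁₂ (by positivity)).trans hh₂Y
  have r1 := hb K hKb hKe _ hE0 hEPY Bc κ hBc0 hBcs hκ0 hκB' A φ NA hNA hfew ℝ C Real.log NC hNC hcell hCC hv h₁ hh₁0 hh₁Y hKh₁
  have r2 := hb K hKb hKe _ hE0 hEPY Bc κ hBc0 hBcs hκ0 hκB' A φ NA hNA hfew ℝ C Real.log NC hNC hcell hCC hv h₂ hh₂0 hh₂Y hKh₂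
  -- comparison
  have hAC0 : (0 : ℝ) ≤ A.card * C.card := mul_nonneg (Nat.cast_nonneg _) (Nat.cast_nonneg _)
  have hex : ∀ a ∈ A, ∀ c ∈ C, Real.exp (φ a) * c = Real.exp (φ a + Real.log c) := by
    intro a ha c hc
    rw [Real.exp_add, Real.exp_log (hC0 c hc)]
  have hlow : Sh {1} (A ×ˢ C) (mp φ Real.log) (SPr Y) (xP Y) (fun p : ℕ => Real.log p) h₁ / h₁ ≤ Real.exp (3 * w) * ∑ a ∈ A, ∑ c ∈ C, ZH H (Real.exp (φ a) * c) := by
    rw [Sh_one]
    simp_rw [sum_div, mul_sum]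
    apply sum_le_sum
    intro a ha
    apply sum_le_sum
    intro c hc
    rw [hex a ha c hc]
    have := win_lowH (v := φ a + Real.log c) hH0 hw0 (by linarith) (hAC a ha c hc) (by linarith) hh₁ (by linarith)
    unfold SW at this
    rw [sum_div] at this
    convert this
  have hupp : ∑ a ∈ A, ∑ c ∈ C, ZH H (Real.exp (φ a) * c) ≤ Real.exp (3 * w) * (Sh {1} (A ×ˢ C) (mp φ Real.log) (SPr Y) (xP Y) (fun p : ℕ => Real.log p) h₂ / h₂) := by
    rw [Sh_one]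
    simp_rw [sum_div, mul_sum]
    apply sum_le_sum
    intro a ha
    apply sum_le_sum
    intro c hc
    rw [hex a ha c hc]
    have := win_uppH (v := φ a + Real.log c) hH0 hw0 (by linarith) (hAC a ha c hc) hY3 (by linarith) hh₂
    unfold SW at this
    rw [sum_div, mul_sum] at this
    convert this
  have hexp : Real.exp (3 * w) ≤ 1 + δ / 4 := by
    have h1 : Real.exp (3 * w) * (1 - 3 * w) ≤ 1 := by
      have h2 := Real.one_sub_le_exp_neg (3 * w)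
      have h3 := Real.exp_pos (3 * w)
      calc Real.exp (3 * w) * (1 - 3 * w) ≤ Real.exp (3 * w) * Real.exp (-(3 * w)) := by gcongr
        _ = 1 := by rw [← Real.exp_add, add_neg_cancel, Real.exp_zero]
    have h2 : 1 ≤ (1 + δ / 4) * (1 - 3 * w) := by nlinarith only [hw0, hw2, hδ, hδ1, mul_nonneg hδ.le (sub_nonneg.2 hw2)]
    have h3 : 0 < 1 - 3 * w := by linarith
    by_contra hcon
    push Not at hcon
    have := mul_lt_mul_of_pos_right hcon h3
    linarith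
  have hexp1 : 1 ≤ Real.exp (3 * w) := Real.one_le_exp (by positivity)
  set Sz := ∑ a ∈ A, ∑ c ∈ C, ZH H (Real.exp (φ a) * c) with hSz
  have hSz0 : 0 ≤ Sz := sum_nonneg fun a _ => sum_nonneg fun c _ => ZH_nonneg hH0.le _
  have e0 : ∑ a ∈ A, ∑ c ∈ C, (ZH H (Real.exp (φ a) * c) - 1) = Sz - A.card * C.card := by
    rw [hSz]
    simp_rw [sum_sub_distrib, sum_const, nsmul_eq_mul]
    ring
  rw [e0]
  set D : ℝ := A.card * C.card with hD
  set s1 := Sh {1} (A ×ˢ C) (mp φ Real.log) (SPr Y) (xP Y) (fun p : ℕ => Real.log p) h₁ / h₁ with hs1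
  set s2 := Sh {1} (A ×ˢ C) (mp φ Real.log) (SPr Y) (xP Y) (fun p : ℕ => Real.log p) h₂ / h₂ with hs2
  have hN0 : 0 ≤ NA * NC := mul_nonneg ((Nat.cast_nonneg _).trans hNA) ((Nat.cast_nonneg _).trans hNC)
  obtain ⟨R, hR⟩ : ∃ R : ℝ, R = Y ^ (-(τ / 4)) * (NA * NC) := ⟨_, rfl⟩
  have hR0 : 0 ≤ R := by rw [hR]; positivity
  have e2 : Y ^ (-(τ / 4)) * (2 * (NA * NC)) = 2 * R := by rw [hR]; ring
  rw [e2]
  rw [← hR] at r1 r2
  clear_value D s1 s2 Sz
  have r1' := (abs_le.1 r1).1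
  have r2' := (abs_le.1 r2).2
  rw [abs_le]
  constructor
  · have h1 : (1 - δ / 4) * D - R ≤ (1 + δ / 4) * Sz := by
      have h2 : Real.exp (3 * w) * Sz ≤ (1 + δ / 4) * Sz := mul_le_mul_of_nonneg_right hexp hSz0
      linarith
    by_contra hcon
    push Not at hcon
    have h3 : Sz < (1 - δ) * D - 2 * R := by linarith
    have h4 : (1 + δ / 4) * Sz < (1 + δ / 4) * ((1 - δ) * D - 2 * R) := mul_lt_mul_of_pos_left h3 (by positivity)
    have h5 : (1 + δ / 4) * ((1 - δ) * D) ≤ (1 - δ / 4) * D := by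
      have : (1 + δ / 4) * (1 - δ) ≤ 1 - δ / 4 := by nlinarith only [hδ]
      calc (1 + δ / 4) * ((1 - δ) * D) = ((1 + δ / 4) * (1 - δ)) * D := by ring
        _ ≤ _ := mul_le_mul_of_nonneg_right this hAC0
    have h6 : 0 ≤ δ / 4 * (2 * R) := by positivity
    have e3 : (1 + δ / 4) * ((1 - δ) * D - 2 * R) = (1 + δ / 4) * ((1 - δ) * D) - 2 * R - δ / 4 * (2 * R) := by ring
    rw [e3] at h4
    linarith
  · have h1 : s2 ≤ (1 + δ / 4) * D + R := by linarith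
    have h2 : Sz ≤ (1 + δ / 4) * ((1 + δ / 4) * D + R) := by
      refine hupp.trans ?_
      have h3 : Real.exp (3 * w) * s2 ≤ Real.exp (3 * w) * ((1 + δ / 4) * D + R) := by gcongr
      refine h3.trans ?_
      gcongr
    have h3 : (1 + δ / 4) * ((1 + δ / 4) * D) ≤ (1 + δ) * D := by
      have : (1 + δ / 4) * (1 + δ / 4) ≤ 1 + δ := by nlinarith only [hδ, hδ1]
      calc (1 + δ / 4) * ((1 + δ / 4) * D) = ((1 + δ / 4) * (1 + δ / 4)) * D := by ring
        _ ≤ _ := mul_le_mul_of_nonneg_right this hAC0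
    have h4 : (1 + δ / 4) * R ≤ 2 * R := mul_le_mul_of_nonneg_right (by linarith) hR0
    have e3 : (1 + δ / 4) * ((1 + δ / 4) * D + R) = (1 + δ / 4) * ((1 + δ / 4) * D) + (1 + δ / 4) * R := by ring
    rw [e3] at h2
    linarith

end Pool.Agent.J4H33
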