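import Pool.Agent.J4H33.LV3
import Pool.Agent.J4H33.G1

/-!
# Few large values of the transforms with phases `α log a`
-/

set_option autoImplicit false

namespace Pool.Agent.J4H33

open Finset Filter Pool.Agent.H376R2.MR
open Pool.Agent.Y851.PS (TF wt wt_nonneg wt_le FK_mono energy_le)

theorem TG_pow (α : ℝ) (A : Finset ℕ) (hA : ∀ a ∈ A, a.Prime) (ℓ : ℕ) (k : ℤ) :
    TG A (fun n : ℕ => α * Real.log n) k ^ ℓ = TF ((Fintype.piFinset (fun _ : Fin ℓ => A)).image (fun p => ∏ i, p i))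
      (fun n => (ge A ℓ n : ℝ)) (fun n : ℕ => α * Real.log n) k := by
  have h0 : TG A (fun n : ℕ => α * Real.log n) k = ∑ a ∈ A, ch k (α * Real.log a) := by
    unfold TG TF
    apply sum_congr rfl
    intro a _
    simp
  rw [h0, Finset.sum_pow']
  have h1 : ∀ p ∈ Fintype.piFinset (fun _ : Fin ℓ => A), ∏ i, ch k (α * Real.log (p i)) = ch k (α * Real.log ((∏ i, p i : ℕ) : ℝ)) := by
    intro p hp
    rw [Fintype.mem_piFinset] at hp
    have h1 : Real.log ((∏ i, p i : ℕ) : ℝ) = ∑ i, Real.log (p i : ℝ) := by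
      push_cast
      rw [Real.log_prod]
      intro i _
      exact_mod_cast (hA _ (hp i)).ne_zero
    rw [h1, mul_sum]
    unfold ch
    rw [← Complex.exp_sum]
    congr 1
    push_cast
    rw [mul_sum, ← Finset.sum_neg_distrib, Finset.sum_mul]
  rw [sum_congr rfl h1]
  unfold TF
  rw [← Finset.sum_fiberwise_of_maps_to (g := fun p : Fin ℓ → ℕ => ∏ i, p i)
    (fun p hp => Finset.mem_image_of_mem _ hp)]
  apply Finset.sum_congr rfl
  intro n _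
  unfold ge
  rw [Finset.sum_congr rfl (g := fun _ => ch k (α * Real.log n))]
  · rw [Finset.sum_const, nsmul_eq_mul]
    push_cast
    rfl
  · intro p hp
    rw [Finset.mem_filter] at hp
    rw [hp.2]

/-- integers in short logarithmic cells -/
theorem cell_log (α : ℝ) (hα : α ≠ 0) (t : Finset ℕ) (N : ℝ) (hN : 1 ≤ N) (ht : ∀ n ∈ t, 1 ≤ n ∧ (n : ℝ) ≤ N) (K : ℕ) (hK : 1 ≤ K) (u : ℝ) :
    ((t.filter (fun n : ℕ => u ≤ α * Real.log n ∧ α * Real.log n < u + 1 / K)).card : ℝ) ≤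
      (Real.exp (1 / |α|) / |α|) * N / K + 1 := by
  classical
  have hα0 : 0 < |α| := abs_pos.2 hα
  have hK0 : (0 : ℝ) < K := by exact_mod_cast hK
  have hK1 : (1 : ℝ) ≤ K := by exact_mod_cast hK
  obtain ⟨s, hs⟩ : ∃ s, s = t.filter (fun n : ℕ => u ≤ α * Real.log n ∧ α * Real.log n < u + 1 / K) := ⟨_, rfl⟩
  rw [← hs]
  rcases s.eq_empty_or_nonempty with h0 | h0
  · rw [h0, card_empty, Nat.cast_zero]
    positivity
  obtain ⟨n₀, hn₀, hmin⟩ := s.exists_min_image id h0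
  simp only [id] at hmin
  have hst : ∀ n ∈ s, 1 ≤ n ∧ (n : ℝ) ≤ N ∧ u ≤ α * Real.log n ∧ α * Real.log n < u + 1 / K := by
    intro n hn
    rw [hs, mem_filter] at hn
    exact ⟨(ht n hn.1).1, (ht n hn.1).2, hn.2⟩
  obtain ⟨g1, g2, g3, g4⟩ := hst n₀ hn₀
  have hn₀0 : (0 : ℝ) < n₀ := by exact_mod_cast g1
  obtain ⟨d, hd⟩ : ∃ d, d = 1 / (K * |α|) := ⟨_, rfl⟩
  have hd0 : 0 < d := by rw [hd]; positivity
  have hd1 : d ≤ 1 / |α| := by
    rw [hd]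
    apply one_div_le_one_div_of_le hα0
    exact le_mul_of_one_le_left hα0.le hK1
  have hclose : ∀ n ∈ s, (n : ℝ) ≤ n₀ * Real.exp d := by
    intro n hn
    obtain ⟨k1, k2, k3, k4⟩ := hst n hn
    have hn0 : (0 : ℝ) < n := by exact_mod_cast k1
    have h1 : |α * Real.log n - α * Real.log n₀| ≤ 1 / K := by
      rw [abs_le]; constructor <;> linarith
    rw [← mul_sub, abs_mul] at h1
    have h2 : |Real.log (n : ℝ) - Real.log n₀| ≤ d := by
      rw [hd, le_div_iff₀ (by positivity)]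
      rw [le_div_iff₀ hK0] at h1
      linarith
    have h3 := (abs_le.1 h2).2
    rw [← Real.log_le_log_iff hn0 (by positivity), Real.log_mul hn₀0.ne' (Real.exp_pos _).ne', Real.log_exp]
    linarith
  have hexp : Real.exp d - 1 ≤ Real.exp (1 / |α|) / |α| / K := by
    have h1 : Real.exp d - 1 ≤ d * Real.exp d := by
      have h2 := Real.one_sub_le_exp_neg d
      have h3 := Real.exp_pos d
      have h4 : Real.exp d * (1 - d) ≤ 1 := by
        calc Real.exp d * (1 - d) ≤ Real.exp d * Real.exp (-d) := mul_le_mul_of_nonneg_left h2 h3.le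
          _ = 1 := by rw [← Real.exp_add, add_neg_cancel, Real.exp_zero]
      linarith
    have h2 : Real.exp d ≤ Real.exp (1 / |α|) := Real.exp_le_exp.2 hd1
    calc Real.exp d - 1 ≤ d * Real.exp d := h1
      _ ≤ d * Real.exp (1 / |α|) := mul_le_mul_of_nonneg_left h2 hd0.le
      _ = _ := by rw [hd]; field_simp
  have hcard : s.card ≤ ⌊(n₀ : ℝ) * Real.exp d⌋₊ - n₀ + 1 := by
    have h1 : s ⊆ Icc n₀ ⌊(n₀ : ℝ) * Real.exp d⌋₊ := by
      intro n hn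
      rw [mem_Icc]
      exact ⟨hmin n hn, Nat.le_floor (hclose n hn)⟩
    have h2 := card_le_card h1
    rw [Nat.card_Icc] at h2
    omega
  have hfl : n₀ ≤ ⌊(n₀ : ℝ) * Real.exp d⌋₊ := Nat.le_floor (hclose n₀ hn₀)
  have h5 : (s.card : ℝ) ≤ (⌊(n₀ : ℝ) * Real.exp d⌋₊ : ℝ) - n₀ + 1 := by
    have : (s.card : ℝ) ≤ ((⌊(n₀ : ℝ) * Real.exp d⌋₊ - n₀ + 1 : ℕ) : ℝ) := by exact_mod_cast hcard
    rw [Nat.cast_add, Nat.cast_sub hfl, Nat.cast_one] at this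
    exact this
  have h6 : (⌊(n₀ : ℝ) * Real.exp d⌋₊ : ℝ) ≤ n₀ * Real.exp d := Nat.floor_le (by positivity)
  have h7 : (n₀ : ℝ) * (Real.exp d - 1) ≤ N * (Real.exp (1 / |α|) / |α| / K) := by
    apply mul_le_mul g2 hexp _ (by linarith)
    have := Real.add_one_le_exp d
    linarith
  have e : Real.exp (1 / |α|) / |α| * N / K = N * (Real.exp (1 / |α|) / |α| / K) := by ring
  rw [e]
  linarith

theorem momG (α : ℝ) (hα : α ≠ 0) : ∃ C : ℝ, 0 < C ∧ ∀ (A : Finset ℕ) (ℓ K : ℕ) (V : ℝ), (∀ a ∈ A, a.Prime ∧ |Real.log a - V| ≤ 1 / 2) → 1 / 2 ≤ V →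
    1 ≤ K → ∑ k ∈ FK K, ‖TG A (fun n : ℕ => α * Real.log n) k‖ ^ (2 * ℓ) ≤
      C * (1 + (ℓ : ℝ)) * ((ℓ.factorial : ℝ) * (Real.exp ((V + 1 / 2) * ℓ) + K) * (A.card : ℝ) ^ ℓ) := by
  classical
  have hα0 : 0 < |α| := abs_pos.2 hα
  obtain ⟨Cα, hCα⟩ : ∃ Cα, Cα = Real.exp (1 / |α|) / |α| := ⟨_, rfl⟩
  have hCα0 : 0 < Cα := by rw [hCα]; positivity
  refine ⟨3200 * (|α| + 2) * (Cα + 2), by positivity, ?_⟩
  intro A ℓ K V hA hV hK
  obtain ⟨φ, hφ⟩ : ∃ φ : ℕ → ℝ, φ = fun n : ℕ => α * Real.log n := ⟨_, rfl⟩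
  rw [← hφ]
  set t := (Fintype.piFinset (fun _ : Fin ℓ => A)).image (fun p => ∏ i, p i) with ht
  set N₂ : ℝ := Real.exp ((V + 1 / 2) * ℓ) with hN2
  have hℓ0 : (0 : ℝ) ≤ ℓ := Nat.cast_nonneg ℓ
  have hK0 : (0 : ℝ) < K := by exact_mod_cast hK
  have h2 : (1 : ℝ) ≤ N₂ := Real.one_le_exp (mul_nonneg (by linarith) hℓ0)
  have hmem : ∀ n ∈ t, 1 ≤ n ∧ (V - 1 / 2) * ℓ ≤ Real.log n ∧ Real.log n ≤ (V + 1 / 2) * ℓ := by
    intro n hn
    rw [ht, Finset.mem_image] at hn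
    obtain ⟨p, hp, rfl⟩ := hn
    rw [Fintype.mem_piFinset] at hp
    have hpos : 0 < (∏ i, p i : ℕ) := prod_pos fun i _ => (hA _ (hp i)).1.pos
    have hlog : Real.log ((∏ i, p i : ℕ) : ℝ) = ∑ i, Real.log (p i : ℝ) := by
      push_cast
      rw [Real.log_prod]
      intro i _
      exact_mod_cast (hA _ (hp i)).1.ne_zero
    refine ⟨hpos, ?_, ?_⟩
    · rw [hlog]
      calc (V - 1 / 2) * ℓ = ∑ _i : Fin ℓ, (V - 1 / 2) := by
            rw [sum_const, card_univ, Fintype.card_fin, nsmul_eq_mul, mul_comm]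
        _ ≤ _ := sum_le_sum fun i _ => by linarith [(abs_le.1 (hA _ (hp i)).2).1]
    · rw [hlog]
      calc ∑ i, Real.log (p i : ℝ) ≤ ∑ _i : Fin ℓ, (V + 1 / 2) := sum_le_sum fun i _ => by linarith [(abs_le.1 (hA _ (hp i)).2).2]
        _ = _ := by rw [sum_const, card_univ, Fintype.card_fin, nsmul_eq_mul, mul_comm]
  have hmem2 : ∀ n ∈ t, 1 ≤ n ∧ (n : ℝ) ≤ N₂ := by
    intro n hn
    obtain ⟨g1, g2, g3⟩ := hmem n hn
    have hn0 : (0 : ℝ) < n := by exact_mod_cast g1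
    exact ⟨g1, by rw [hN2, ← Real.log_le_iff_le_exp hn0]; exact g3⟩
  have hprime : ∀ a ∈ A, a.Prime := fun a ha => (hA a ha).1
  obtain ⟨x, hx⟩ : ∃ x : ℕ → ℝ, x = fun n => (ge A ℓ n : ℝ) := ⟨_, rfl⟩
  have hx0 : ∀ n, 0 ≤ x n := fun n => by rw [hx]; exact Nat.cast_nonneg _
  have hxf : ∀ n, x n ≤ ℓ.factorial := fun n => by
    rw [hx]; exact Nat.cast_le.2 (smoo_ge_le _ hprime ℓ n)
  have hsum : ∑ n ∈ t, x n = (A.card : ℝ) ^ ℓ := by
    have h3 : ∑ n ∈ t, ge A ℓ n = (Fintype.piFinset (fun _ : Fin ℓ => A)).card := by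
      unfold ge
      exact (card_eq_sum_card_fiberwise fun p hp => mem_coe.2 (mem_image_of_mem _ (mem_coe.1 hp))).symm
    rw [Fintype.card_piFinset, prod_const, card_univ, Fintype.card_fin] at h3
    rw [hx]
    simp only
    rw [← Nat.cast_sum, h3, Nat.cast_pow]
  have hpow : ∀ k : ℤ, ‖TG A φ k‖ ^ (2 * ℓ) = ‖TF t x φ k‖ ^ 2 := by
    intro k
    rw [mul_comm 2 ℓ, pow_mul, ← norm_pow, hφ, TG_pow α A hprime, ← ht, hx]
  -- blocks
  obtain ⟨jj, hjj⟩ : ∃ jj : ℕ → ℤ, jj = fun n => ⌊φ n⌋ := ⟨_, rfl⟩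
  obtain ⟨Js, hJs⟩ : ∃ Js, Js = t.image jj := ⟨_, rfl⟩
  have hJc : (Js.card : ℝ) ≤ (|α| + 2) * (1 + ℓ) := by
    obtain ⟨lo, hlo⟩ : ∃ lo, lo = α * (V * ℓ) - |α| * (1 / 2 * ℓ) := ⟨_, rfl⟩
    obtain ⟨hi, hhi⟩ : ∃ hi, hi = α * (V * ℓ) + |α| * (1 / 2 * ℓ) := ⟨_, rfl⟩
    have hr : ∀ n ∈ t, lo ≤ φ n ∧ φ n ≤ hi := by
      intro n hn
      obtain ⟨g1, g2, g3⟩ := hmem n hn
      have h3 : |Real.log n - V * ℓ| ≤ 1 / 2 * ℓ := by
        rw [abs_le]; constructor <;> linarith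
      have h4 : |α * Real.log n - α * (V * ℓ)| ≤ |α| * (1 / 2 * ℓ) := by
        rw [← mul_sub, abs_mul]
        exact mul_le_mul_of_nonneg_left h3 hα0.le
      rw [abs_le] at h4
      rw [hφ, hlo, hhi]
      constructor <;> linarith [h4.1, h4.2]
    have hsub : Js ⊆ Icc ⌊lo⌋ ⌊hi⌋ := by
      intro j hj
      rw [hJs, mem_image] at hj
      obtain ⟨n, hn, rfl⟩ := hj
      rw [mem_Icc, hjj]
      exact ⟨Int.floor_mono (hr n hn).1, Int.floor_mono (hr n hn).2⟩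
    have h3 := card_le_card hsub
    rw [Int.card_Icc] at h3
    have hlohi : lo ≤ hi := by
      rw [hlo, hhi]
      have : 0 ≤ |α| * (1 / 2 * ℓ) := by positivity
      linarith
    have h4 : ⌊lo⌋ ≤ ⌊hi⌋ := Int.floor_mono hlohi
    have h5 : ((⌊hi⌋ + 1 - ⌊lo⌋).toNat : ℝ) = (⌊hi⌋ : ℝ) + 1 - ⌊lo⌋ := by
      have : ((⌊hi⌋ + 1 - ⌊lo⌋).toNat : ℤ) = ⌊hi⌋ + 1 - ⌊lo⌋ := Int.toNat_of_nonneg (by omega)
      have h6 : (((⌊hi⌋ + 1 - ⌊lo⌋).toNat : ℤ) : ℝ) = ((⌊hi⌋ + 1 - ⌊lo⌋ : ℤ) : ℝ) := by rw [this]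
      push_cast at h6
      exact h6
    have h6 : (Js.card : ℝ) ≤ (⌊hi⌋ : ℝ) + 1 - ⌊lo⌋ := by
      rw [← h5]; exact_mod_cast h3
    have h7 := Int.floor_le hi
    have h8 := Int.lt_floor_add_one lo
    have h9 : hi - lo = |α| * ℓ := by rw [hlo, hhi]; ring
    have h10 : 0 ≤ |α| * ℓ := by positivity
    nlinarith only [h6, h7, h8, h9, h10, hα0, hℓ0]
  have hdec : ∀ k : ℤ, TF t x φ k = ∑ j ∈ Js, TF (t.filter (fun n => jj n = j)) x φ k := by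
    intro k
    unfold TF
    rw [hJs]
    exact (sum_fiberwise_of_maps_to (fun n hn => mem_image_of_mem _ hn) _).symm
  have hCS : ∀ k : ℤ, ‖TF t x φ k‖ ^ 2 ≤ Js.card * ∑ j ∈ Js, ‖TF (t.filter (fun n => jj n = j)) x φ k‖ ^ 2 := by
    intro k
    rw [hdec k]
    calc ‖∑ j ∈ Js, TF (t.filter (fun n => jj n = j)) x φ k‖ ^ 2 ≤ (∑ j ∈ Js, ‖TF (t.filter (fun n => jj n = j)) x φ k‖) ^ 2 :=
          pow_le_pow_left₀ (norm_nonneg _) (norm_sum_le _ _) 2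
      _ ≤ _ := sq_sum_le_card_mul_sum_sq
  have hK2 : 1 ≤ 2 * K := by omega
  obtain ⟨Q, hQ⟩ : ∃ Q, Q = (ℓ.factorial : ℝ) * (Cα * N₂ + 2 * K) := ⟨_, rfl⟩
  have hQ0 : 0 ≤ Q := by rw [hQ]; positivity
  have hblock : ∀ j ∈ Js, ∑ k ∈ FK K, ‖TF (t.filter (fun n => jj n = j)) x φ k‖ ^ 2 ≤ 2 * ((∑ n ∈ t.filter (fun n => jj n = j), x n) * (1600 * Q)) := by
    intro j _
    obtain ⟨tj, htj⟩ : ∃ tj, tj = t.filter (fun n => jj n = j) := ⟨_, rfl⟩
    rw [← htj]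
    have htjt : tj ⊆ t := by rw [htj]; exact filter_subset _ _
    have h3 := energy_le tj x φ (fun n _ => hx0 n) (2 * K) hK2 Q (∑ n ∈ tj, x n) (by
      intro u
      have h4 := cell_log α hα tj N₂ h2 (fun n hn => hmem2 n (htjt hn)) (2 * K) hK2 u
      rw [← hCα] at h4
      calc ∑ i ∈ tj.filter (fun i => u ≤ φ i ∧ φ i < u + 1 / ((2 * K : ℕ) : ℝ)), x i
          ≤ ∑ i ∈ tj.filter (fun i => u ≤ φ i ∧ φ i < u + 1 / ((2 * K : ℕ) : ℝ)), (ℓ.factorial : ℝ) := sum_le_sum fun i _ => hxf i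
        _ = (ℓ.factorial : ℝ) * ((tj.filter (fun i => u ≤ φ i ∧ φ i < u + 1 / ((2 * K : ℕ) : ℝ))).card : ℝ) := by
            rw [sum_const, nsmul_eq_mul, mul_comm]
        _ ≤ (ℓ.factorial : ℝ) * (Cα * N₂ / ((2 * K : ℕ) : ℝ) + 1) := by
            apply mul_le_mul_of_nonneg_left _ (Nat.cast_nonneg _)
            rw [hφ]
            exact h4
        _ = Q / ((2 * K : ℕ) : ℝ) := by
            rw [hQ]
            push_cast
            field_simp) hQ0 le_rfl (by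
      intro n hn m hm
      rw [htj, mem_filter, hjj] at hn hm
      have e1 := Int.floor_le (φ n)
      have e2 := Int.lt_floor_add_one (φ n)
      have e3 := Int.floor_le (φ m)
      have e4 := Int.lt_floor_add_one (φ m)
      have e5 : (⌊φ n⌋ : ℝ) = ⌊φ m⌋ := by
        have q1 : ⌊φ n⌋ = j := hn.2
        have q2 : ⌊φ m⌋ = j := hm.2
        rw [q1, q2]
      rw [abs_le]
      constructor <;> linarith)
    have h5 : ∑ k ∈ FK K, ‖TF tj x φ k‖ ^ 2 ≤ 2 * ∑ k ∈ FK (2 * K), wt (2 * K) k * ‖TF tj x φ k‖ ^ 2 := by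
      rw [mul_sum]
      refine le_trans (sum_le_sum (g := fun k => 2 * (wt (2 * K) k * ‖TF tj x φ k‖ ^ 2)) ?_) (sum_le_sum_of_subset_of_nonneg (FK_mono (by omega)) ?_)
      · intro k hk
        rw [FK, mem_Ioo] at hk
        have h6 : |(k : ℝ)| < K := by
          have : |k| < (K : ℤ) := abs_lt.2 hk
          exact_mod_cast this
        have h7 : 1 / 2 ≤ wt (2 * K) k := by
          unfold wt
          refine le_trans ?_ (le_max_right _ _)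
          have h8 : |(k : ℝ)| / ((2 * K : ℕ) : ℝ) ≤ 1 / 2 := by
            push_cast
            rw [div_le_iff₀ (by positivity)]
            linarith
          linarith
        have h8 : 0 ≤ ‖TF tj x φ k‖ ^ 2 := by positivity
        nlinarith only [h7, h8]
      · intro k _ _
        have := wt_nonneg (2 * K) k
        positivity
    linarith
  have hJ0 : (0 : ℝ) ≤ Js.card := Nat.cast_nonneg _
  calc ∑ k ∈ FK K, ‖TG A φ k‖ ^ (2 * ℓ) = ∑ k ∈ FK K, ‖TF t x φ k‖ ^ 2 := sum_congr rfl fun k _ => hpow k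
    _ ≤ ∑ k ∈ FK K, Js.card * ∑ j ∈ Js, ‖TF (t.filter (fun n => jj n = j)) x φ k‖ ^ 2 := sum_le_sum fun k _ => hCS k
    _ = Js.card * ∑ j ∈ Js, ∑ k ∈ FK K, ‖TF (t.filter (fun n => jj n = j)) x φ k‖ ^ 2 := by
        rw [← mul_sum, sum_comm]
    _ ≤ Js.card * ∑ j ∈ Js, 2 * ((∑ n ∈ t.filter (fun n => jj n = j), x n) * (1600 * Q)) :=
        mul_le_mul_of_nonneg_left (sum_le_sum hblock) hJ0
    _ = Js.card * (3200 * Q) * ∑ j ∈ Js, ∑ n ∈ t.filter (fun n => jj n = j), x n := by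
        rw [mul_sum, mul_sum]
        apply sum_congr rfl
        intro j _
        ring
    _ = Js.card * (3200 * Q) * (A.card : ℝ) ^ ℓ := by
        rw [hJs, sum_fiberwise_of_maps_to (fun n hn => mem_image_of_mem _ hn), hsum]
    _ ≤ ((|α| + 2) * (1 + ℓ)) * (3200 * Q) * (A.card : ℝ) ^ ℓ := by gcongr
    _ ≤ ((|α| + 2) * (1 + ℓ)) * (3200 * ((ℓ.factorial : ℝ) * ((Cα + 2) * (N₂ + K)))) * (A.card : ℝ) ^ ℓ := by
        have h3 : Cα * N₂ + 2 * K ≤ (Cα + 2) * (N₂ + K) := by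
          nlinarith only [hCα0, h2, hK0, mul_pos hCα0 hK0]
        rw [hQ]
        gcongr
    _ = _ := by ring

/-- few large values: the threshold is `e^{-m/2} N` -/
theorem few3g (α : ℝ) (hα : α ≠ 0) (c c₁ ε v : ℝ) (hc₁ : 0 < c₁) (hε : 0 < ε) (hv1 : v ≤ 1) (h : c₁ + (1 + v) * ε < c) :
    ∀ᶠ Y : ℝ in atTop, ∀ V m : ℝ, 0 ≤ m → Real.log Y + m ≤ c₁ * V → m ≤ (c - (c₁ + (1 + v) * ε)) / 4 * Y → V ≤ v * Y →
      ∀ (A : Finset ℕ), (∀ a ∈ A, a.Prime ∧ |Real.log a - V| ≤ 1 / 2) →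
      ∀ N : ℝ, (A.card : ℝ) ≤ N → Real.exp ((1 - ε) * V) ≤ N → ∀ K : ℕ, (K : ℝ) ≤ Real.exp Y →
      ((LG A (fun n : ℕ => α * Real.log n) K (Real.exp (-(m / 2)) * N)).card : ℝ) ≤ Real.exp (c * Y) := by
  obtain ⟨C, hC, hmom⟩ := momG α hα
  obtain ⟨s, hs⟩ : ∃ s, s = c - (c₁ + (1 + v) * ε) := ⟨_, rfl⟩
  have hs0 : 0 < s := by rw [hs]; linarith
  rw [← hs]
  have hlogY : Tendsto (fun Y : ℝ => Real.log Y) atTop atTop := Real.tendsto_log_atTop
  have e1 : ∀ᶠ Y : ℝ in atTop, Real.log Y ≤ s / 8 * Y := by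
    have h1 := (Real.isLittleO_log_id_atTop).bound (show 0 < s / 8 by positivity)
    filter_upwards [h1, eventually_ge_atTop 1] with Y hY hY1
    rw [Real.norm_eq_abs, Real.norm_eq_abs, id, abs_of_nonneg (Real.log_nonneg hY1), abs_of_nonneg (by linarith)] at hY
    exact hY
  filter_upwards [eventually_ge_atTop 3, e1, hlogY.eventually_ge_atTop (2 * c₁), hlogY.eventually_ge_atTop (8 * c₁ / s),
    ev_poly_exp 1 (s / 8) (4 * C) (by positivity), eventually_ge_atTop (8 / s)] with Y hY3 g1 g2 g3 g4 g5 V m hm0 hV1 hms hV2' A hA N hAN hcard K hK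
  unfold LG
  have hY0 : 0 < Y := by linarith
  have hV2 : V ≤ Y := by
    have := mul_le_mul_of_nonneg_right hv1 hY0.le
    linarith
  obtain ⟨l, hl⟩ : ∃ l, l = Real.log Y := ⟨_, rfl⟩
  rw [← hl] at g1 g2 g3 hV1
  have hl0 : 0 < l := by
    have : 0 < 2 * c₁ := by positivity
    linarith
  have hVl : 8 / s ≤ V := by
    have h1 : c₁ * (8 / s) ≤ c₁ * V := by
      have e : c₁ * (8 / s) = 8 * c₁ / s := by ring
      rw [e]; linarith
    exact le_of_mul_le_mul_left h1 hc₁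
  have hV2p : 2 ≤ V := by
    have h1 : c₁ * 2 ≤ c₁ * V := by linarith
    exact le_of_mul_le_mul_left h1 hc₁
  have hV0 : 0 < V := by linarith
  rcases Nat.eq_zero_or_pos K with hK0 | hKpos
  · subst hK0
    have : (FK 0).filter (fun k => Real.exp (-(m / 2)) * N ≤ ‖TG A (fun n : ℕ => α * Real.log n) k‖) = ∅ := by
      unfold FK
      simp
    rw [this, card_empty]
    simpa using (Real.exp_pos _).le
  have hA0 : (0 : ℝ) < N := lt_of_lt_of_le (Real.exp_pos _) hcard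
  obtain ⟨ℓ, hℓ⟩ : ∃ ℓ : ℕ, ℓ = ⌈Y / V⌉₊ := ⟨_, rfl⟩
  have hYV : 0 ≤ Y / V := by positivity
  have hℓ1 : Y ≤ V * ℓ := by
    have h1 : Y / V ≤ ℓ := by rw [hℓ]; exact Nat.le_ceil _
    rw [div_le_iff₀ hV0] at h1
    linarith
  have hℓ2 : (ℓ : ℝ) ≤ Y / V + 1 := by rw [hℓ]; exact (Nat.ceil_lt_add_one hYV).le
  have hℓpos : 1 ≤ ℓ := by
    rcases Nat.eq_zero_or_pos ℓ with h0 | h0
    · rw [h0] at hℓ1
      simp at hℓ1
      linarith
    · exact h0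
  have hℓ0 : (0 : ℝ) < ℓ := by exact_mod_cast hℓpos
  have hVℓ : V * ℓ ≤ (1 + v) * Y := by
    calc V * ℓ ≤ V * (Y / V + 1) := mul_le_mul_of_nonneg_left hℓ2 hV0.le
      _ = Y + V := by field_simp
      _ ≤ (1 + v) * Y := by linarith
  have hℓY : (ℓ : ℝ) ≤ Y := by
    have h1 : Y / V ≤ Y / 2 := div_le_div_of_nonneg_left hY0.le (by norm_num) hV2p
    linarith
  have hℓl : (ℓ : ℝ) * (l + m) ≤ c₁ * Y + (l + m) := by
    have h1 : Y / V * (l + m) ≤ c₁ * Y := by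
      rw [div_mul_eq_mul_div, div_le_iff₀ hV0]
      calc Y * (l + m) ≤ Y * (c₁ * V) := mul_le_mul_of_nonneg_left hV1 hY0.le
        _ = _ := by ring
    calc (ℓ : ℝ) * (l + m) ≤ (Y / V + 1) * (l + m) := mul_le_mul_of_nonneg_right hℓ2 (by linarith)
      _ = Y / V * (l + m) + (l + m) := by ring
      _ ≤ _ := by linarith
  have hℓh : (ℓ : ℝ) / 2 ≤ s / 8 * Y := by
    rw [div_le_iff₀ hs0] at hVl g5
    have h1 : Y / V ≤ s / 8 * Y := by
      rw [div_le_iff₀ hV0]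
      nlinarith
    linarith
  have hfac : (ℓ.factorial : ℝ) ≤ Real.exp (ℓ * l) := by
    have h1 : (ℓ.factorial : ℝ) ≤ (ℓ : ℝ) ^ ℓ := by exact_mod_cast Nat.factorial_le_pow ℓ
    refine h1.trans ?_
    calc (ℓ : ℝ) ^ ℓ ≤ Y ^ ℓ := pow_le_pow_left₀ hℓ0.le hℓY _
      _ = Real.exp (ℓ * l) := by rw [hl, Real.exp_nat_mul, Real.exp_log hY0]
  have hm := hmom A ℓ K V hA (by linarith) hKpos
  set F := (FK K).filter (fun k => Real.exp (-(m / 2)) * N ≤ ‖TG A (fun n : ℕ => α * Real.log n) k‖) with hF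
  have h1 : (F.card : ℝ) * (Real.exp (-(m / 2)) * N) ^ (2 * ℓ) ≤ ∑ k ∈ FK K, ‖TG A (fun n : ℕ => α * Real.log n) k‖ ^ (2 * ℓ) := by
    calc (F.card : ℝ) * (Real.exp (-(m / 2)) * N) ^ (2 * ℓ) = ∑ _k ∈ F, (Real.exp (-(m / 2)) * N) ^ (2 * ℓ) := by
          rw [sum_const, nsmul_eq_mul]
      _ ≤ ∑ k ∈ F, ‖TG A (fun n : ℕ => α * Real.log n) k‖ ^ (2 * ℓ) := by
          apply sum_le_sum
          intro k hk
          rw [hF, mem_filter] at hk
          exact pow_le_pow_left₀ (by positivity) hk.2 _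
      _ ≤ _ := sum_le_sum_of_subset_of_nonneg (filter_subset _ _) fun k _ _ => by positivity
  have hANℓ : (A.card : ℝ) ^ ℓ ≤ N ^ ℓ := pow_le_pow_left₀ (Nat.cast_nonneg _) hAN ℓ
  have h2 : (F.card : ℝ) * (Real.exp (-(m / 2)) * N) ^ (2 * ℓ) ≤
      C * (1 + (ℓ : ℝ)) * ((ℓ.factorial : ℝ) * (Real.exp ((V + 1 / 2) * ℓ) + K) * N ^ ℓ) :=
    (h1.trans hm).trans (by gcongr)
  have e2 : (Real.exp (-(m / 2)) * N) ^ (2 * ℓ) = Real.exp (-(ℓ * m)) * N ^ ℓ * N ^ ℓ := by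
    rw [mul_pow, ← Real.exp_nat_mul, two_mul ℓ, pow_add, ← mul_assoc]
    congr 2
    · congr 1
      push_cast; ring
  rw [e2] at h2
  have hAℓ : 0 < N ^ ℓ := by positivity
  have h3 : (F.card : ℝ) * (Real.exp (-(ℓ * m)) * N ^ ℓ) ≤
      C * (1 + (ℓ : ℝ)) * ((ℓ.factorial : ℝ) * (Real.exp ((V + 1 / 2) * ℓ) + K)) := by
    have h4 : ((F.card : ℝ) * (Real.exp (-(ℓ * m)) * N ^ ℓ)) * N ^ ℓ ≤
        (C * (1 + (ℓ : ℝ)) * ((ℓ.factorial : ℝ) * (Real.exp ((V + 1 / 2) * ℓ) + K))) * N ^ ℓ := by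
      calc ((F.card : ℝ) * (Real.exp (-(ℓ * m)) * N ^ ℓ)) * N ^ ℓ =
            (F.card : ℝ) * (Real.exp (-(ℓ * m)) * N ^ ℓ * N ^ ℓ) := by ring
        _ ≤ _ := h2
        _ = _ := by ring
    exact le_of_mul_le_mul_right h4 hAℓ
  have h4 : Real.exp ((1 - ε) * V * ℓ) ≤ N ^ ℓ := by
    calc Real.exp ((1 - ε) * V * ℓ) = Real.exp ((1 - ε) * V) ^ ℓ := by
          rw [← Real.exp_nat_mul]; congr 1; ring
      _ ≤ _ := pow_le_pow_left₀ (Real.exp_pos _).le hcard _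
  have h5 : (F.card : ℝ) * (Real.exp (-(ℓ * m)) * Real.exp ((1 - ε) * V * ℓ)) ≤
      C * (2 * Y) * (Real.exp (ℓ * l) * (2 * Real.exp ((V + 1 / 2) * ℓ))) := by
    refine le_trans ?_ (h3.trans ?_)
    · gcongr
    · have h6 : (K : ℝ) ≤ Real.exp ((V + 1 / 2) * ℓ) := by
        refine hK.trans (Real.exp_le_exp.2 ?_)
        linarith
      have h7 : 1 + (ℓ : ℝ) ≤ 2 * Y := by linarith
      gcongr
      linarith
  have h6 : (F.card : ℝ) ≤ 4 * C * Y * Real.exp (ℓ * (l + m) + ℓ / 2 + ε * (V * ℓ)) := by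
    have e3 : Real.exp (-(ℓ * m)) * Real.exp ((1 - ε) * V * ℓ) * Real.exp (ℓ * m - (1 - ε) * V * ℓ) = 1 := by
      rw [← Real.exp_add, ← Real.exp_add]
      simp
    calc (F.card : ℝ) = (F.card : ℝ) * (Real.exp (-(ℓ * m)) * Real.exp ((1 - ε) * V * ℓ)) * Real.exp (ℓ * m - (1 - ε) * V * ℓ) := by
          rw [mul_assoc, e3, mul_one]
      _ ≤ C * (2 * Y) * (Real.exp (ℓ * l) * (2 * Real.exp ((V + 1 / 2) * ℓ))) * Real.exp (ℓ * m - (1 - ε) * V * ℓ) :=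
          mul_le_mul_of_nonneg_right h5 (Real.exp_pos _).le
      _ = 4 * C * Y * (Real.exp (ℓ * l) * Real.exp ((V + 1 / 2) * ℓ) * Real.exp (ℓ * m - (1 - ε) * V * ℓ)) := by ring
      _ = _ := by
          rw [← Real.exp_add, ← Real.exp_add]
          congr 2
          ring
  refine h6.trans ?_
  rw [pow_one] at g4
  calc 4 * C * Y * Real.exp (ℓ * (l + m) + ℓ / 2 + ε * (V * ℓ)) ≤
        Real.exp (s / 8 * Y) * Real.exp ((c₁ * Y + (l + m)) + s / 8 * Y + ε * ((1 + v) * Y)) := by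
        apply mul_le_mul g4 (Real.exp_le_exp.2 _) (Real.exp_pos _).le (Real.exp_pos _).le
        have a2 : ε * (V * ℓ) ≤ ε * ((1 + v) * Y) := mul_le_mul_of_nonneg_left hVℓ hε.le
        linarith
    _ = Real.exp (s / 8 * Y + ((c₁ * Y + (l + m)) + s / 8 * Y + ε * ((1 + v) * Y))) := (Real.exp_add _ _).symm
    _ ≤ Real.exp (c * Y) := by
        apply Real.exp_le_exp.2
        have a5 : c = s + (c₁ + (1 + v) * ε) := by rw [hs]; ring
        have a6 : c * Y = s * Y + c₁ * Y + ε * ((1 + v) * Y) := by rw [a5]; ring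
        rw [a6]
        have a7 : 0 ≤ s * Y := by positivity
        linarith

end Pool.Agent.J4H33
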