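import Pool.Agent.J4H33.CutB
import Pool.Agent.Y851.PU.Q3

/-!
# The net of short windows
-/

set_option autoImplicit false

namespace Pool.Agent.J4H33

open Finset Filter
open Pool.Agent.Y851.PS
open Pool.Agent.Y851.PT
open Pool.Agent.Y851.PU

/-- **good points** -/
theorem geo_coverR (ρ β η ζ δ : ℝ) (Q : ℕ) (hρ : 0 < ρ) (hρ1 : ρ ≤ 1) (hβ : 0 < β)
    (hη : 0 < η) (hη1 : η ≤ 1 / 4) (hζ : 0 < ζ) (hζ1 : ζ ≤ 1) (hδ : 0 < δ) (hQ0 : 1 / (η * β) ≤ Q) (hQ : (Q : ℝ) + 2 ≤ ζ / η ^ 2) :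
    ∀ᶠ X : ℝ in atTop, ∀ D : ℝ, 1 ≤ D → D ≤ X ^ (ρ / 4) → ∀ H₀ : ℝ, 0 < H₀ → H₀ ≤ X ^ (1 - ρ) → ∀ θ : ℝ, ∀ Bad : Finset ℕ,
    (Bad.card : ℝ) ≤ δ / 2 * (X / (H₀ * D)) →
    ∃ U : Finset ℝ, (U.card : ℝ) ≤ δ * (X / (H₀ * D)) ∧ ∀ y : ℝ, 0 < y → y ≤ X ^ (1 - θ) →
      (∀ u ∈ U, ¬ (u ≤ y ∧ y ≤ u + H₀ / X ^ θ)) →
      ∃ k1 : ℕ, 1 ≤ k1 ∧ k1 ≤ ⌊X / (η * (η * H₀))⌋₊ ∧ k1 ∉ Bad ∧
      ∀ H : ℝ, H₀ ≤ H → H ≤ X ^ (1 - ρ) →
        Geo (X ^ θ) β η ζ (η * (η * H₀ / X ^ θ)) (η * H₀) H y k1 Q := by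
  have hev1 : ∀ᶠ X : ℝ in atTop, 4 / β ≤ X ^ (ρ / 2) := (tendsto_rpow_atTop (half_pos hρ)).eventually_ge_atTop _
  have hev2 : ∀ᶠ X : ℝ in atTop, Real.exp (Real.log 2 * (1 + η) / η) / β ≤ X ^ (1 - ρ / 2) :=
    (tendsto_rpow_atTop (show 0 < 1 - ρ / 2 by linarith only [hρ1])).eventually_ge_atTop _
  have hev3 : ∀ᶠ X : ℝ in atTop, 8 / δ ≤ X ^ (ρ / 4) := (tendsto_rpow_atTop (show 0 < ρ / 4 by positivity)).eventually_ge_atTop _
  filter_upwards [hev1, hev2, hev3, eventually_ge_atTop 3]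
    with X hX1 hX2 hX3' hX5 D hD1 hDX H₀ hH₀ hH₀X θ Bad hBad
  have hX0 : 0 < X := by linarith only [hX5]
  have hX1' : 1 ≤ X := by linarith only [hX5]
  have hD0 : 0 < D := by linarith only [hD1]
  have hX3'' : D * (8 / δ) ≤ X ^ (ρ / 2) := by
    have e : X ^ (ρ / 2) = X ^ (ρ / 4) * X ^ (ρ / 4) := by
      rw [← Real.rpow_add hX0]; congr 1; ring
    rw [e]
    exact mul_le_mul hDX hX3' (by positivity) (by positivity)
  have hX3 : D ≤ δ / 4 * X ^ (ρ / 2) := by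
    have h1 := mul_le_mul_of_nonneg_left hX3'' (show 0 ≤ δ / 4 by positivity)
    have e : δ / 4 * (D * (8 / δ)) = 2 * D := by field_simp; norm_num
    rw [e] at h1
    linarith only [h1, hD0]
  have hX4 : H₀ * D ≤ δ / 8 * X := by
    have e : X ^ (1 - ρ) * X ^ ρ = X := by
      rw [← Real.rpow_add hX0]
      have : 1 - ρ + ρ = 1 := by ring
      rw [this, Real.rpow_one]
    have h1 : D ≤ δ / 8 * X ^ (ρ / 2) := by
      have h1 := mul_le_mul_of_nonneg_left hX3'' (show 0 ≤ δ / 8 by positivity)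
      have e : δ / 8 * (D * (8 / δ)) = D := by field_simp
      rwa [e] at h1
    have h2 : X ^ (ρ / 2) ≤ X ^ ρ := Real.rpow_le_rpow_of_exponent_le hX1' (by linarith only [hρ])
    calc H₀ * D ≤ X ^ (1 - ρ) * (δ / 8 * X ^ ρ) := by
          apply mul_le_mul hH₀X (h1.trans (mul_le_mul_of_nonneg_left h2 (by positivity))) hD0.le (by positivity)
      _ = δ / 8 * (X ^ (1 - ρ) * X ^ ρ) := by ring
      _ = δ / 8 * X := by rw [e]
  obtain ⟨P, hP⟩ : ∃ P, P = X ^ θ := ⟨_, rfl⟩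
  have hP0 : 0 < P := by rw [hP]; positivity
  rw [← hP]
  obtain ⟨l, hl⟩ : ∃ l, l = η * (η * H₀ / P) := ⟨_, rfl⟩
  have hl0 : 0 < l := by rw [hl]; positivity
  obtain ⟨h, hh⟩ : ∃ h, h = η * H₀ := ⟨_, rfl⟩
  have hh0 : 0 < h := by rw [hh]; positivity
  obtain ⟨L, hL⟩ : ∃ L, L = H₀ / P := ⟨_, rfl⟩
  have hL0 : 0 < L := by rw [hL]; positivity
  have hlL : l = η ^ 2 * L := by rw [hl, hL]; ring
  have hη2 : 0 < η ^ 2 := pow_pos hη 2
  have hQl : ((Q : ℝ) + 1) * η ^ 2 ≤ 1 := by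
    rw [le_div_iff₀ hη2] at hQ
    have e : ((Q : ℝ) + 2) * η ^ 2 = (Q + 1) * η ^ 2 + η ^ 2 := by ring
    rw [e] at hQ
    linarith only [hQ, hζ1, hη2]
  have hQlL : ((Q : ℝ) + 1) * l ≤ L := by
    rw [hlL]
    calc ((Q : ℝ) + 1) * (η ^ 2 * L) = ((Q : ℝ) + 1) * η ^ 2 * L := by ring
      _ ≤ 1 * L := mul_le_mul_of_nonneg_right hQl hL0.le
      _ = L := one_mul L
  have hlL1 : l ≤ L := by
    refine le_trans ?_ hQlL
    have : ((Q : ℝ) + 1) * l = Q * l + l := by ring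
    rw [this]
    have h1 : 0 ≤ (Q : ℝ) * l := mul_nonneg (Nat.cast_nonneg _) hl0.le
    linarith only [h1]
  rw [← hl, ← hh, ← hL]
  obtain ⟨T, hT⟩ : ∃ T, T = X ^ (1 - θ) := ⟨_, rfl⟩
  have hTl : T = X / (η * h) * l := by
    rw [hT, Real.rpow_sub hX0, Real.rpow_one, hl, hh, ← hP]
    field_simp
  rw [← hT]
  obtain ⟨K, hK⟩ : ∃ K, K = ⌊X / (η * h)⌋₊ := ⟨_, rfl⟩
  rw [← hK]
  obtain ⟨Y, hY⟩ : ∃ Y, Y = X ^ (1 - ρ / 2) / P := ⟨_, rfl⟩
  have hY0 : 0 < Y := by rw [hY]; positivity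
  -- the exceptional intervals
  refine ⟨Bad.image (fun k : ℕ => ((k : ℝ) - Q - 1) * l) ∪ (range (⌊Y / L⌋₊ + 1)).image (fun i : ℕ => (i : ℝ) * L) ∪ {T - L}, ?_, ?_⟩
  · have h1 : ((Bad.image (fun k : ℕ => ((k : ℝ) - Q - 1) * l) ∪ (range (⌊Y / L⌋₊ + 1)).image (fun i : ℕ => (i : ℝ) * L) ∪ {T - L}).card : ℝ) ≤
        Bad.card + ((⌊Y / L⌋₊ : ℝ) + 1) + 1 := by
      have g1 := card_union_le (Bad.image (fun k : ℕ => ((k : ℝ) - Q - 1) * l) ∪ (range (⌊Y / L⌋₊ + 1)).image (fun i : ℕ => (i : ℝ) * L)) {T - L}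
      have g2 := card_union_le (Bad.image (fun k : ℕ => ((k : ℝ) - Q - 1) * l)) ((range (⌊Y / L⌋₊ + 1)).image (fun i : ℕ => (i : ℝ) * L))
      have g3 : (Bad.image (fun k : ℕ => ((k : ℝ) - Q - 1) * l)).card ≤ Bad.card := card_image_le
      have g4 : ((range (⌊Y / L⌋₊ + 1)).image (fun i : ℕ => (i : ℝ) * L)).card ≤ ⌊Y / L⌋₊ + 1 := card_image_le.trans (by rw [card_range])
      have g5 : ({T - L} : Finset ℝ).card = 1 := card_singleton _
      have g6 : (Bad.image (fun k : ℕ => ((k : ℝ) - Q - 1) * l) ∪ (range (⌊Y / L⌋₊ + 1)).image (fun i : ℕ => (i : ℝ) * L) ∪ {T - L}).card ≤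
        Bad.card + (⌊Y / L⌋₊ + 1) + 1 := by omega
      exact_mod_cast g6
    have h2 : (⌊Y / L⌋₊ : ℝ) ≤ Y / L := Nat.floor_le (by positivity)
    have h3 : Y / L = X ^ (1 - ρ / 2) / H₀ := by rw [hY, hL]; field_simp
    have h4 : D * X ^ (1 - ρ / 2) ≤ δ / 4 * X := by
      have e : X ^ (ρ / 2) * X ^ (1 - ρ / 2) = X := by
        rw [← Real.rpow_add hX0]
        have : ρ / 2 + (1 - ρ / 2) = 1 := by ring
        rw [this, Real.rpow_one]
      calc D * X ^ (1 - ρ / 2) ≤ (δ / 4 * X ^ (ρ / 2)) * X ^ (1 - ρ / 2) := mul_le_mul_of_nonneg_right hX3 (by positivity)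
        _ = δ / 4 * (X ^ (ρ / 2) * X ^ (1 - ρ / 2)) := by ring
        _ = δ / 4 * X := by rw [e]
    have h5 : X ^ (1 - ρ / 2) / H₀ ≤ δ / 4 * (X / (H₀ * D)) := by
      rw [← mul_div_assoc, div_le_div_iff₀ hH₀ (by positivity)]
      calc X ^ (1 - ρ / 2) * (H₀ * D) = (D * X ^ (1 - ρ / 2)) * H₀ := by ring
        _ ≤ δ / 4 * X * H₀ := mul_le_mul_of_nonneg_right h4 hH₀.le
    have h6 : (2 : ℝ) ≤ δ / 4 * (X / (H₀ * D)) := by
      rw [← mul_div_assoc, le_div_iff₀ (by positivity)]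
      linarith only [hX4]
    have h2' := h2.trans (le_of_eq h3)
    linarith only [h1, h2', h5, h6, hBad]
  · intro y hy0 hyT hyU
    have hyY : Y < y := by
      by_contra hcon
      push Not at hcon
      have h1 : y / L ≤ Y / L := div_le_div_of_nonneg_right hcon hL0.le
      refine hyU ((⌊y / L⌋₊ : ℝ) * L) (mem_union_left _ (mem_union_right _ (mem_image_of_mem (fun i : ℕ => (i : ℝ) * L) ?_))) ⟨?_, ?_⟩
      · rw [mem_range, Nat.lt_succ_iff]
        exact Nat.floor_mono h1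
      · rw [← le_div_iff₀ hL0]
        exact Nat.floor_le (by positivity)
      · have h2 := Nat.lt_floor_add_one (y / L)
        rw [div_lt_iff₀ hL0, add_mul, one_mul] at h2
        exact h2.le
    have hyT2 : y < T - L := by
      have := hyU (T - L) (mem_union_right _ (mem_singleton_self _))
      by_contra hcon
      push Not at hcon
      exact this ⟨hcon, by linarith only [hyT]⟩
    obtain ⟨k1, hk1⟩ : ∃ k1, k1 = ⌈y / l⌉₊ + Q := ⟨_, rfl⟩
    have hc1 := Nat.le_ceil (y / l)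
    have hc2 := Nat.ceil_lt_add_one (show 0 ≤ y / l by positivity)
    rw [div_le_iff₀ hl0] at hc1
    have hk1a : y + Q * l ≤ k1 * l := by
      rw [hk1]
      push_cast
      rw [add_mul]
      linarith only [hc1]
    have hk1b : (k1 : ℝ) * l ≤ y + (Q + 1) * l := by
      have h1 : (k1 : ℝ) ≤ y / l + (Q + 1) := by
        rw [hk1]
        push_cast
        linarith only [hc2]
      have h2 := mul_le_mul_of_nonneg_right h1 hl0.le
      have e : (y / l + ((Q : ℝ) + 1)) * l = y + (Q + 1) * l := by field_simp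
      rw [e] at h2
      exact h2
    have hk1pos : 1 ≤ k1 := by
      have : 0 < ⌈y / l⌉₊ := Nat.ceil_pos.2 (by positivity)
      omega
    refine ⟨k1, hk1pos, ?_, ?_, ?_⟩
    · rw [hK]
      apply Nat.le_floor
      have h1 : (k1 : ℝ) * l ≤ X / (η * h) * l := by
        rw [← hTl]
        linarith only [hk1b, hyT2, hQlL]
      exact le_of_mul_le_mul_right h1 hl0
    · intro hbad
      refine hyU (((k1 : ℝ) - Q - 1) * l) (mem_union_left _ (mem_union_left _ (mem_image_of_mem (fun k : ℕ => ((k : ℝ) - Q - 1) * l) hbad))) ⟨?_, ?_⟩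
      · have e : ((k1 : ℝ) - Q - 1) * l = k1 * l - (Q + 1) * l := by ring
        rw [e]; linarith only [hk1b]
      · have e : ((k1 : ℝ) - Q - 1) * l = k1 * l - Q * l - l := by ring
        rw [e]; linarith only [hk1a, hlL1]
    · intro H hH1 hH2
      have hPl : P * l / η ^ 2 = H₀ := by rw [hl]; field_simp
      have hhP : h / (β * P) = 1 / (η * β) * l := by rw [hh, hl]; field_simp
      refine ⟨hP0, hβ, hη, hη1, hζ, hl0, ?_, ?_, ?_, hk1b, hQ, ?_, ?_⟩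
      · rw [hh, hl]; field_simp
      · rw [hPl]; exact hH1
      · rw [hhP]
        have : 1 / (η * β) * l ≤ Q * l := mul_le_mul_of_nonneg_right hQ0 hl0.le
        linarith only [this, hk1a]
      · have h1 : (1 + ζ) * (H / (β * P)) ≤ 2 * (H / (β * P)) := by
          apply mul_le_mul_of_nonneg_right (by linarith only [hζ1])
          have : 0 < H := lt_of_lt_of_le hH₀ hH1
          positivity
        have h2 : H / (β * P) ≤ X ^ (1 - ρ) / (β * P) := div_le_div_of_nonneg_right hH2 (by positivity)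
        have h3 : X ^ (1 - ρ) / (β * P) ≤ Y / 4 := by
          rw [hY, div_div, div_le_div_iff₀ (by positivity) (by positivity)]
          have e : X ^ (1 - ρ / 2) = X ^ (ρ / 2) * X ^ (1 - ρ) := by rw [← Real.rpow_add hX0]; congr 1; ring
          rw [e]
          have h4 : 4 / β * β ≤ X ^ (ρ / 2) * β := mul_le_mul_of_nonneg_right hX1 hβ.le
          have h5 : 4 / β * β = 4 := by field_simp
          rw [h5] at h4
          have h6 : 4 * (X ^ (1 - ρ) * P) ≤ X ^ (ρ / 2) * β * (X ^ (1 - ρ) * P) := mul_le_mul_of_nonneg_right h4 (by positivity)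
          have e1 : X ^ (1 - ρ) * (P * 4) = 4 * (X ^ (1 - ρ) * P) := by ring
          have e2 : X ^ (ρ / 2) * X ^ (1 - ρ) * (β * P) = X ^ (ρ / 2) * β * (X ^ (1 - ρ) * P) := by ring
          rw [e1, e2]
          exact h6
        linarith only [h1, h2, h3, hyY]
      · have h1 : X ^ (1 - ρ / 2) ≤ P * y := by
          rw [hY, div_lt_iff₀ hP0] at hyY
          linarith only [hyY]
        have h2 : Real.exp (Real.log 2 * (1 + η) / η) ≤ β * P * y := by
          rw [div_le_iff₀ hβ] at hX2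
          have h3 : X ^ (1 - ρ / 2) * β ≤ P * y * β := mul_le_mul_of_nonneg_right h1 hβ.le
          have e : β * P * y = P * y * β := by ring
          rw [e]; linarith only [hX2, h3]
        have h3 : Real.log 2 * (1 + η) / η ≤ Real.log (β * P * y) := by
          rw [Real.le_log_iff_exp_le (by positivity)]
          exact h2
        rw [div_le_iff₀ hη] at h3
        linarith only [h3]

end Pool.Agent.J4H33
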