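import Pool.Agent.J4H33.Stm
import Pool.Agent.J4H33.Net3
import Pool.Agent.Y851.PU.Q6

/-!
# All lengths at once, with power saving in the exceptional set
-/

set_option autoImplicit false

namespace Pool.Agent.J4H33

open Finset Filter
open Pool.Agent.Y851.PS
open Pool.Agent.Y851.PT
open Pool.Agent.Y851.PU

/-- dense subsets of the net are spread -/
theorem subnet (X H θ η R : ℝ) (hX : 0 < X) (hH : 0 < H) (hη : 0 < η) (hη1 : η ≤ 1 / 2) (hXH : 2 ≤ X / (η * H))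
    (S : Finset ℕ) (hS : S ⊆ Icc 1 ⌊X / (η * H)⌋₊) (hR : (⌊X / (η * H)⌋₊ : ℝ) ≤ R * S.card) :
    SpH (12 * R) H θ X (S.image (fun k : ℕ => (k : ℝ) * (η * (H / X ^ θ)))) := by
  classical
  have hXθ : 0 < X ^ θ := by positivity
  have hnet := net_spread X H θ η 1 hX hH hη hη1 (by linarith) (by norm_num) hXH
  rw [one_mul] at hnet
  obtain ⟨l, hl⟩ : ∃ l, l = η * (H / X ^ θ) := ⟨_, rfl⟩
  have hl0 : 0 < l := by rw [hl]; positivity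
  rw [← hl] at hnet ⊢
  obtain ⟨K, hK⟩ : ∃ K : ℕ, K = ⌊X / (η * H)⌋₊ := ⟨_, rfl⟩
  rw [← hK] at hnet hS hR
  have hinj : Function.Injective (fun k : ℕ => (k : ℝ) * l) := by
    intro k k' h
    have h1 : (k : ℝ) * l = k' * l := h
    exact_mod_cast mul_right_cancel₀ hl0.ne' h1
  have hcard : (((Icc 1 K).image (fun k : ℕ => (k : ℝ) * l)).card : ℝ) = K := by
    rw [card_image_of_injective _ hinj, Nat.card_Icc]
    simp
  have hsub : S.image (fun k : ℕ => (k : ℝ) * l) ⊆ (Icc 1 K).image (fun k : ℕ => (k : ℝ) * l) := image_subset_image hS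
  refine ⟨fun c hc => hnet.pos c (hsub hc), fun c hc => hnet.le c (hsub hc), fun u => ?_⟩
  have h1 := hnet.spread u
  rw [hcard] at h1
  have h2 : (((S.image (fun k : ℕ => (k : ℝ) * l)).filter (fun c => u ≤ c ∧ c ≤ u + H / X ^ θ)).card : ℝ) ≤
      ((((Icc 1 K).image (fun k : ℕ => (k : ℝ) * l)).filter (fun c => u ≤ c ∧ c ≤ u + H / X ^ θ)).card : ℝ) := by
    exact_mod_cast card_le_card (filter_subset_filter _ hsub)
  refine h2.trans (h1.trans ?_)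
  rw [card_image_of_injective _ hinj]
  have h3 : 0 ≤ 12 * (H / X) := by positivity
  calc 12 * (H / X) * (K : ℝ) ≤ 12 * (H / X) * (R * S.card) := mul_le_mul_of_nonneg_left hR h3
    _ = _ := by ring

/-- **the cut norm for dense subsets of the net** -/
theorem cutSub3 (c c₂ ε lam ρ θ₁ β₀ η R₀ δ' : ℝ) (hCR : PCR c) (hc1 : c ≤ 1) (hε : 0 < ε) (hc₂ : 0 < c₂) (hθ₁ : 0 ≤ θ₁) (hθ₁1 : θ₁ ≤ 1 - ρ)
    (hcond : c₂ + (1 + θ₁) * ε < c) (hlam : 0 < lam) (hlam1 : lam ≤ 1) (hρ : 0 < ρ) (hβ₀ : 0 < β₀) (hβ₀1 : β₀ ≤ 1) (hη : 0 < η) (hη1 : η ≤ 1 / 4)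
    (hR₀ : 1 ≤ R₀) (hδ' : 0 < δ') :
    ∃ s H₁ : ℝ, 0 < s ∧ 1 ≤ H₁ ∧ ∀ᶠ X : ℝ in atTop, ∀ D : ℝ, 1 ≤ D → D ≤ X ^ s → ∀ R : ℝ, 1 ≤ R → R ≤ Real.log X →
    ∀ H₀ : ℝ, H₁ ≤ H₀ → lam * Real.log X ≤ R * H₀ → H₀ ≤ X ^ (1 - ρ) →
    ∀ θ : ℝ, D * R * Real.log X ≤ (X ^ θ) ^ c₂ → θ ≤ θ₁ → ∀ A : Finset ℕ, Am β₀ ε θ X A →
    ∀ S : Finset ℕ, S ⊆ Icc 1 ⌊X / (η * (η * H₀))⌋₊ →
    (⌊X / (η * (η * H₀))⌋₊ : ℝ) ≤ R₀ * D * S.card →
    Cut A S (fun (a k : ℕ) => ZH (η * H₀) (a * (k * (η * (η * H₀ / X ^ θ))))) δ' := by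
  obtain ⟨s, H₁, hs, hH₁, hcutR⟩ := hCR c₂ ε (η * lam) ρ θ₁ β₀ (12 * R₀) δ' hc1 hε hc₂ hθ₁ hθ₁1 hcond (by positivity)
    (by nlinarith only [hη, hη1, hlam, hlam1]) hρ hβ₀ hβ₀1 (by linarith) hδ'
  refine ⟨s, H₁ / η, hs, ?_, ?_⟩
  · rw [le_div_iff₀ hη]; linarith
  filter_upwards [hcutR, eventually_gt_atTop 1] with X h1 h4 D hD1 hDs R hR1 hR2 H₀ hH₀ hHR hHX θ hθ1 hθ2 A hA S hS hSR
  have hX0 : 0 < X := by linarith only [h4]
  have hlog : 0 < Real.log X := Real.log_pos h4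
  rw [div_le_iff₀ hη] at hH₀
  have hH₀0 : 0 < H₀ := by
    by_contra hcon
    push Not at hcon
    nlinarith only [hcon, hH₀, hH₁, hη]
  have hh0 : 0 < η * H₀ := by positivity
  have hXρ : X ^ (1 - ρ) ≤ X := by
    calc X ^ (1 - ρ) ≤ X ^ (1 : ℝ) := Real.rpow_le_rpow_of_exponent_le h4.le (by linarith only [hρ])
      _ = X := Real.rpow_one X
  have hηH : η * H₀ ≤ H₀ := by nlinarith only [hη1, hH₀0]
  have h3 : 2 * (η * (η * H₀)) ≤ X := by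
    have h5 : η * (η * H₀) ≤ 1 / 4 * H₀ := mul_le_mul hη1 hηH hh0.le (by norm_num)
    linarith only [h5, hHX, hXρ, hH₀0]
  have hsp := subnet X (η * H₀) θ η (R₀ * D) hX0 hh0 hη (by linarith only [hη1])
    (by rw [le_div_iff₀ (by positivity)]; exact h3) S hS hSR
  have hinj : Function.Injective (fun k : ℕ => (k : ℝ) * (η * (η * H₀ / X ^ θ))) := by
    intro k k' h
    have h5 : (k : ℝ) * (η * (η * H₀ / X ^ θ)) = k' * (η * (η * H₀ / X ^ θ)) := h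
    have h6 : 0 < η * (η * H₀ / X ^ θ) := by positivity
    exact_mod_cast mul_right_cancel₀ h6.ne' h5
  have e : 12 * (R₀ * D) = 12 * R₀ * D := by ring
  rw [e] at hsp
  have hcut := h1 D hD1 hDs R hR1 hR2 (η * H₀) (by linarith only [hH₀]) (by
    calc η * lam * Real.log X = η * (lam * Real.log X) := by ring
      _ ≤ η * (R * H₀) := mul_le_mul_of_nonneg_left hHR hη.le
      _ = R * (η * H₀) := by ring) (hηH.trans hHX) θ hθ1 hθ2 A _ hA hsp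
  have hres := cut_image (A := A) (C := S) (fun k : ℕ => (k : ℝ) * (η * (η * H₀ / X ^ θ))) hinj hcut
  exact hres

/-- the maximal inequality for functions whose sums over all large sets are small -/
theorem big_leaders (E : ℕ → ℝ) (hE : ∀ k, 0 ≤ E k) (K : ℕ) (hK : 1 ≤ K) (t R : ℝ) (ht : 0 < t) (hR : 1 ≤ R)
    (h : ∀ S : Finset ℕ, S ⊆ Icc 1 K → (K : ℝ) ≤ R * S.card → ∑ k ∈ S, E k ≤ t * S.card) :
    ∃ G : Finset ℕ, G ⊆ Icc 1 K ∧ (G.card : ℝ) ≤ 2 * (K / R) + 1 ∧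
      ∀ k ∈ Icc 1 K, k ∉ G → ∀ m : ℕ, 1 ≤ m → m ≤ k → ∑ j ∈ Ioc (k - m) k, E j ≤ 2 * t * m := by
  classical
  have hR0 : 0 < R := by linarith
  have hK0 : (0 : ℝ) < K := by exact_mod_cast hK
  obtain ⟨Bad, hBad⟩ : ∃ Bad, Bad = (Icc 1 K).filter (fun k => t < E k) := ⟨_, rfl⟩
  have hBadsub : Bad ⊆ Icc 1 K := by rw [hBad]; exact filter_subset _ _
  have hq0 : 0 < (K : ℝ) / R := by positivity
  obtain ⟨q, hq⟩ : ∃ q : ℕ, q = ⌈(K : ℝ) / R⌉₊ := ⟨_, rfl⟩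
  have hq1 : (K : ℝ) / R ≤ q := by rw [hq]; exact Nat.le_ceil _
  have hq2 : (q : ℝ) ≤ K / R + 1 := by rw [hq]; exact (Nat.ceil_lt_add_one hq0.le).le
  have hqK : q ≤ K := by
    rw [hq]
    apply Nat.ceil_le.2
    rw [div_le_iff₀ hR0]
    nlinarith only [hK0, hR]
  have hBadc : Bad.card ≤ q := by
    by_contra hcon
    push Not at hcon
    have hb1 : (K : ℝ) ≤ R * Bad.card := by
      have h1 : (q : ℝ) ≤ Bad.card := by exact_mod_cast hcon.le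
      have h2 : (K : ℝ) / R ≤ Bad.card := hq1.trans h1
      rw [div_le_iff₀ hR0] at h2
      linarith
    have h3 := h Bad hBadsub hb1
    have hne : Bad.Nonempty := by
      rw [← card_pos]; omega
    have h4 : t * Bad.card < ∑ k ∈ Bad, E k := by
      calc t * Bad.card = ∑ _k ∈ Bad, t := by rw [sum_const, nsmul_eq_mul, mul_comm]
        _ < ∑ k ∈ Bad, E k := by
          apply sum_lt_sum_of_nonempty hne
          intro k hk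
          rw [hBad, mem_filter] at hk
          exact hk.2
    linarith
  obtain ⟨S, hBS, hSK, hSq⟩ := exists_subsuperset_card_eq hBadsub hBadc (by rw [Nat.card_Icc]; omega)
  have hSum : ∑ k ∈ Bad, E k ≤ t * q := by
    have h1 := h S hSK (by
      rw [hSq]
      rw [div_le_iff₀ hR0] at hq1
      linarith)
    rw [hSq] at h1
    exact (sum_le_sum_of_subset_of_nonneg hBS fun k _ _ => hE k).trans h1
  obtain ⟨f, hf⟩ : ∃ f : ℕ → ℝ, ∀ k, f k = if k ∈ Bad then E k else 0 := ⟨_, fun _ => rfl⟩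
  have hf0 : ∀ k, 0 ≤ f k := fun k => by
    rw [hf]; split_ifs
    · exact hE k
    · exact le_rfl
  have hfsum : ∑ k ∈ Icc 1 K, f k ≤ t * q := by
    refine le_trans (le_of_eq ?_) hSum
    simp_rw [hf]
    rw [← sum_filter, filter_mem_eq_inter, inter_eq_right.2 hBadsub]
  have hmax := maximal f hf0 t ht K (t * q) hfsum
  refine ⟨(Icc 1 K).filter (Ld f t), filter_subset _ _, ?_, ?_⟩
  · refine hmax.trans ?_
    rw [mul_comm, mul_div_assoc, div_self ht.ne', mul_one]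
    linarith
  · intro k hk hkG m hm1 hm2
    have h1 : ¬ Ld f t k := fun hcon => hkG (mem_filter.2 ⟨hk, hcon⟩)
    have h2 := not_Ld h1 hm1 hm2
    have h3 : ∀ j ∈ Ioc (k - m) k, E j ≤ t + f j := by
      intro j hj
      rw [hf]
      split_ifs with h4
      · linarith
      · rw [hBad, mem_filter, not_and, not_lt] at h4
        rw [mem_Ioc] at hj
        rw [mem_Icc] at hk
        have := h4 (mem_Icc.2 ⟨by omega, by omega⟩)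
        linarith
    refine (sum_le_sum h3).trans ?_
    rw [sum_add_distrib, sum_const, nsmul_eq_mul]
    have hc : ((Ioc (k - m) k).card : ℝ) = m := by
      rw [Nat.card_Ioc]
      congr 1
      omega
    rw [hc]
    linarith

open Classical in
/-- **All lengths at once**, with a small exceptional set. -/
theorem unifR (c c₂ ε lam ρ θ₁ β δ : ℝ) (hCR : PCR c) (hc1 : c ≤ 1) (hε : 0 < ε) (hc₂ : 0 < c₂) (hθ₁ : 0 ≤ θ₁) (hθ₁1 : θ₁ ≤ 1 - ρ)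
    (hcond : c₂ + (1 + θ₁) * ε < c) (hlam : 0 < lam) (hlam1 : lam ≤ 1)
    (hρ : 0 < ρ) (hρ1 : ρ ≤ 1) (hβ : 0 < β) (hβ1 : β ≤ 1) (hδ : 0 < δ)
    (hδ1 : δ ≤ 1) : ∃ s H₁ : ℝ, 0 < s ∧ 1 ≤ H₁ ∧ ∀ᶠ X : ℝ in atTop, ∀ D : ℝ, 1 ≤ D → D ≤ X ^ s → ∀ R : ℝ, 1 ≤ R → R ≤ Real.log X →
    ∀ H₀ : ℝ, H₁ ≤ H₀ → lam * Real.log X ≤ R * H₀ → H₀ ≤ X ^ (1 - ρ) →
    ∀ θ : ℝ, D * R * Real.log X ≤ (X ^ θ) ^ c₂ → θ ≤ θ₁ →
    ∀ A : Finset ℕ, Am β ε θ X A →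
    ∃ U : Finset ℝ, (U.card : ℝ) ≤ δ * (X / (H₀ * D)) ∧ ∀ y : ℝ, 0 < y → y ≤ X ^ (1 - θ) →
      (∀ u ∈ U, ¬ (u ≤ y ∧ y ≤ u + H₀ / X ^ θ)) → ∀ H : ℝ, H₀ ≤ H → H ≤ X ^ (1 - ρ) →
      |∑ a ∈ A, ZH H (a * y) - A.card| ≤ δ * A.card := by
  obtain ⟨σ, hσ⟩ : ∃ σ, σ = δ / 4 := ⟨_, rfl⟩
  have hσ0 : 0 < σ := by rw [hσ]; positivity
  obtain ⟨η, ζ, Q, hη, hη1, hζ, hζ1, hQ0, hQ, -, hF1, hF2, hF3⟩ := params β σ 1 hβ hβ1 hσ0 (by rw [hσ]; linarith only [hδ1]) one_pos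
  obtain ⟨J, hJ⟩ : ∃ J, J = ⌊Real.log (1 / β) / Real.log (1 + η)⌋₊ + 1 := ⟨_, rfl⟩
  have hJ0 : (0 : ℝ) < J := by rw [hJ]; push_cast; positivity
  have hJ1 : (1 : ℝ) ≤ J := by
    rw [hJ]; push_cast
    have := Nat.cast_nonneg (α := ℝ) ⌊Real.log (1 / β) / Real.log (1 + η)⌋₊
    linarith
  obtain ⟨R₀, hR₀⟩ : ∃ R₀, R₀ = 8 * J / (δ * η ^ 2) + 1 := ⟨_, rfl⟩
  have hR₀1 : 1 ≤ R₀ := by
    have : 0 ≤ 8 * J / (δ * η ^ 2) := by positivity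
    rw [hR₀]; linarith
  obtain ⟨δ', hδ'⟩ : ∃ δ', δ' = σ / (8 * J) := ⟨_, rfl⟩
  have hδ'0 : 0 < δ' := by rw [hδ']; positivity
  obtain ⟨s₀, H₁, hs₀, hH₁, hsub2⟩ := cutSub3 c c₂ ε lam ρ θ₁ β η R₀ δ' hCR hc1 hε hc₂ hθ₁ hθ₁1 hcond hlam hlam1 hρ hβ hβ1 hη hη1 hR₀1 hδ'0
  obtain ⟨s, hs⟩ : ∃ s, s = min s₀ (ρ / 4) := ⟨_, rfl⟩
  have hs1 : s ≤ s₀ := by rw [hs]; exact min_le_left _ _
  have hs2 : s ≤ ρ / 4 := by rw [hs]; exact min_le_right _ _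
  refine ⟨s, H₁, by rw [hs]; exact lt_min hs₀ (by positivity), hH₁, ?_⟩
  have hev : ∀ᶠ X : ℝ in atTop, 4 * J / δ ≤ X ^ (ρ / 2) := (tendsto_rpow_atTop (half_pos hρ)).eventually_ge_atTop _
  filter_upwards [hsub2, geo_coverR ρ β η ζ δ Q hρ hρ1 hβ hη hη1 hζ hζ1 hδ hQ0 hQ, eventually_ge_atTop 3, hev]
    with X h1 h2' hX3 hX5 D hD1 hDs R hR1 hR2 H₀ hH₀ hHR hHX θ hθ1 hθ2 A hA
  have h3 : 1 < X := by linarith only [hX3]
  have hX0 : 0 < X := by linarith only [h3]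
  have hlog : 0 < Real.log X := Real.log_pos h3
  have hA0 := hA.pos h3
  have hD0 : 0 < D := by linarith only [hD1]
  have hH₀0 : 0 < H₀ := by linarith only [hH₀, hH₁]
  have hcut := h1 D hD1 (hDs.trans (Real.rpow_le_rpow_of_exponent_le h3.le hs1)) R hR1 hR2 H₀ hH₀ hHR hHX θ hθ1 hθ2 A hA
  have hDρ : D ≤ X ^ (ρ / 4) := hDs.trans (Real.rpow_le_rpow_of_exponent_le h3.le hs2)
  have h2 := h2' D hD1 hDρ H₀ hH₀0 hHX θ
  obtain ⟨K, hK⟩ : ∃ K, K = ⌊X / (η * (η * H₀))⌋₊ := ⟨_, rfl⟩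
  obtain ⟨l, hl⟩ : ∃ l, l = η * (η * H₀ / X ^ θ) := ⟨_, rfl⟩
  obtain ⟨h, hh⟩ : ∃ h, h = η * H₀ := ⟨_, rfl⟩
  have hh0 : 0 < h := by rw [hh]; positivity
  simp_rw [← hK, ← hl, ← hh] at hcut
  simp_rw [← hl, ← hh] at h2
  have hKle : (K : ℝ) ≤ X / H₀ / η ^ 2 := by
    have h4 : (K : ℝ) ≤ X / (η * (η * H₀)) := by rw [hK]; exact Nat.floor_le (by positivity)
    refine h4.trans (le_of_eq ?_)
    field_simp
  have hK1 : 1 ≤ K := by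
    rw [hK]
    apply Nat.le_floor
    rw [Nat.cast_one, le_div_iff₀ (by positivity), one_mul]
    have hXρ : X ^ (1 - ρ) ≤ X := by
      calc X ^ (1 - ρ) ≤ X ^ (1 : ℝ) := Real.rpow_le_rpow_of_exponent_le h3.le (by linarith only [hρ])
        _ = X := Real.rpow_one X
    have h5 : η * H₀ ≤ H₀ := by nlinarith only [hη1, hH₀0]
    have h6 : η * (η * H₀) ≤ η * H₀ := mul_le_mul_of_nonneg_left h5 hη.le
    linarith only [h5, h6, hHX, hXρ]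
  -- bad points
  obtain ⟨t, ht⟩ : ∃ t, t = σ * A.card / (4 * J) := ⟨_, rfl⟩
  have ht0 : 0 < t := by rw [ht]; positivity
  obtain ⟨E, hE⟩ : ∃ E : ℕ → ℕ → ℝ, ∀ i k, E i k = |∑ a ∈ A.filter (fun a : ℕ => cls (X ^ θ) β η (a : ℝ) = i), (ZH h (a * (k * l)) - 1)| :=
    ⟨_, fun _ _ => rfl⟩
  have hG : ∀ i, ∃ G : Finset ℕ, G ⊆ Icc 1 K ∧ (G.card : ℝ) ≤ 2 * (K / (R₀ * D)) + 1 ∧
      ∀ k ∈ Icc 1 K, k ∉ G → ∀ m : ℕ, 1 ≤ m → m ≤ k → ∑ j ∈ Ioc (k - m) k, E i j ≤ 2 * t * m := by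
    intro i
    apply big_leaders (E i) (fun k => by rw [hE]; exact abs_nonneg _) K hK1 t (R₀ * D) ht0 (one_le_mul_of_one_le_of_one_le hR₀1 hD1)
    intro S hS hSR
    have h4 := cut_class (hcut S hS hSR) (fun a : ℕ => cls (X ^ θ) β η (a : ℝ) = i)
    simp_rw [hE]
    refine h4.trans (le_of_eq ?_)
    rw [hδ', ht]
    field_simp
    ring
  choose G hG1 hG2 hG3 using hG
  obtain ⟨Bad, hBad⟩ : ∃ Bad : Finset ℕ, Bad = (range J).biUnion G := ⟨_, rfl⟩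
  have hBadc : (Bad.card : ℝ) ≤ δ / 2 * (X / (H₀ * D)) := by
    have g1 : (Bad.card : ℝ) ≤ ∑ i ∈ range J, ((G i).card : ℝ) := by
      rw [hBad]
      exact_mod_cast card_biUnion_le
    have g2 : ∑ i ∈ range J, ((G i).card : ℝ) ≤ J * (2 * (K / (R₀ * D)) + 1) := by
      refine (sum_le_sum fun i _ => hG2 i).trans (le_of_eq ?_)
      rw [sum_const, card_range, nsmul_eq_mul]
    have g3 : J * (2 * (K / (R₀ * D))) ≤ δ / 4 * (X / (H₀ * D)) := by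
      have hR₀2 : 8 * J / (δ * η ^ 2) ≤ R₀ := by rw [hR₀]; linarith
      have hR₀0 : 0 < R₀ := by linarith
      rw [div_le_iff₀ (by positivity)] at hR₀2
      calc J * (2 * (K / (R₀ * D))) = 2 * J / (R₀ * D) * K := by ring
        _ ≤ 2 * J / (R₀ * D) * (X / H₀ / η ^ 2) := by gcongr
        _ = (8 * J) * (X / (4 * R₀ * D * H₀ * η ^ 2)) := by field_simp; norm_num
        _ ≤ (R₀ * (δ * η ^ 2)) * (X / (4 * R₀ * D * H₀ * η ^ 2)) := by gcongr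
        _ = δ / 4 * (X / (H₀ * D)) := by field_simp
    have g4 : (J : ℝ) * 1 ≤ δ / 4 * (X / (H₀ * D)) := by
      rw [← mul_div_assoc, le_div_iff₀ (by positivity)]
      have e : X ^ (1 - ρ) * (X ^ (ρ / 2) * X ^ (ρ / 2)) = X := by
        rw [← Real.rpow_add hX0, ← Real.rpow_add hX0]
        have : 1 - ρ + (ρ / 2 + ρ / 2) = 1 := by ring
        rw [this, Real.rpow_one]
      have h6 : D ≤ X ^ (ρ / 2) := hDρ.trans (Real.rpow_le_rpow_of_exponent_le h3.le (by linarith only [hρ]))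
      have h7 : (J : ℝ) ≤ δ / 4 * X ^ (ρ / 2) := by
        rw [div_le_iff₀ hδ] at hX5
        linarith only [hX5]
      calc (J : ℝ) * 1 * (H₀ * D) = J * (H₀ * D) := by ring
        _ ≤ (δ / 4 * X ^ (ρ / 2)) * (X ^ (1 - ρ) * X ^ (ρ / 2)) := by gcongr
        _ = δ / 4 * (X ^ (1 - ρ) * (X ^ (ρ / 2) * X ^ (ρ / 2))) := by ring
        _ = δ / 4 * X := by rw [e]
    have e : J * (2 * (K / (R₀ * D)) + 1) = J * (2 * (K / (R₀ * D))) + J * 1 := by ring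
    rw [e] at g2
    linarith only [g1, g2, g3, g4]
  obtain ⟨U, hU1, hU2⟩ := h2 Bad hBadc
  refine ⟨U, hU1, fun y hy0 hyT hyU => ?_⟩
  obtain ⟨k1, hk1, hk1K, hk1B, hgeo⟩ := hU2 y hy0 hyT hyU
  have hK' : K = ⌊X / (η * h)⌋₊ := by rw [hK, hh]
  rw [← hK'] at hk1K
  have hmem : k1 ∈ Icc 1 K := mem_Icc.2 ⟨hk1, hk1K⟩
  have hn1 : ∀ i < J, k1 ∉ G i := fun i hi hcon => hk1B (by
    rw [hBad, mem_biUnion]
    exact ⟨i, mem_range.2 hi, hcon⟩)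
  intro H hH1 hH2
  have g := hgeo H hH1 hH2
  have hm1 := family g A (fun a : ℕ => (a : ℝ)) σ (2 * t) J hJ hA.ge (fun a ha => hA.le a ha) (by positivity) (by
    intro i hi m hm1 hm2
    have := hG3 i k1 hmem (hn1 i hi) m hm1 hm2
    simp_rw [hE] at this
    exact this) hF1 hF2 hF3 hζ1
  have e1 : σ * (A.card : ℝ) + 2 * J * (2 * t) = δ / 2 * A.card := by
    rw [ht, hσ]
    field_simp
    norm_num
  rw [e1] at hm1
  refine hm1.trans ?_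
  apply mul_le_mul_of_nonneg_right _ hA0.le
  linarith only [hδ]

end Pool.Agent.J4H33
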