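import Pool.Agent.J4H33.LX3
import Pool.Agent.Q298.KS.Tri
import Pool.Agent.Q298.KS.Sbv
import Pool.Agent.Q298.KS.Mb
import Pool.Agent.Q298.KS.Sb1
import Pool.Agent.Q298.KS.Sb2
import Pool.Agent.Q298.KS.Sb3
import Pool.Agent.Q14.KS.Smo
import Pool.Agent.Q209.KS.Ker
import Pool.Agent.Q209.KS.Hu
import Pool.Agent.Q211.KS.Lvh
import Pool.Agent.Q222.KS.KERV
import Pool.Agent.Q257.KS.HB
import Pool.Agent.Q95.KS.Tup

/-!
# Primes at sparse sets of frequencies: the unconditional statement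
-/

set_option autoImplicit false

namespace Pool.Agent.J4H33

/-- **Primes at sparse sets of frequencies**: sets of at most `e^{cY}` frequencies, `c < 1/3`. -/
theorem kls (c : ℝ) (hc : c < 1 / 3) : KLS c :=
  kls_third Pool.Agent.Q298.KS.tri Pool.Agent.Q298.KS.sbv Pool.Agent.Q222.KS.kerv Pool.Agent.Q209.KS.hmg Pool.Agent.Q298.KS.mb
    (Pool.Agent.Q95.KS.tup Pool.Agent.Q257.KS.hb) (Pool.Agent.Q298.KS.sb1 Pool.Agent.Q14.KS.smo) Pool.Agent.Q298.KS.sb2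
    Pool.Agent.Q298.KS.sb3
    (Pool.Agent.Q211.KS.lvh (Pool.Agent.Q209.KS.hu Pool.Agent.Q209.KS.hmg (Pool.Agent.Q209.KS.ker Pool.Agent.Q14.KS.smo))) c hc


end Pool.Agent.J4H33
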