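import Pool.Agent.J4H33.CutB

/-!
# Statements of the main steps
-/

set_option autoImplicit false

namespace Pool.Agent.J4H33

open Finset Filter
open Pool.Agent.H376R2.MR (Fj FK ch Fj_nonneg Fj_le ls_norm_ch)
open Pool.Agent.Y851.PS
open Pool.Agent.Y851.PT

/-- weighted sums over sparse sets of frequencies, for the primes -/
def KLT (c : ℝ) : Prop := ∃ η : ℝ, 0 < η ∧ ∀ B : ℕ, ∃ b : ℕ, ∀ᶠ Y : ℝ in atTop, ∀ L : Finset ℤ,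
  (L.card : ℝ) ≤ Real.exp (c * Y) → (∀ k ∈ L, Y ^ b ≤ |(k : ℝ)| ∧ |(k : ℝ)| ≤ Real.exp Y) →
  ∀ (f : ℤ → ℝ) (S Q : ℝ), (∀ k, 0 ≤ f k) → 0 ≤ S → 0 ≤ Q → (∀ k ∈ L, f k ≤ S) → ∑ k ∈ L, f k ^ 2 ≤ Q ^ 2 →
  ∑ k ∈ L, f k * ‖TF (SPr Y) (xP Y) (fun p : ℕ => Real.log p) k‖ ≤ S / Y ^ B + Q * Real.exp (-(η * Y))

/-- the block theorem -/
def PB5 (c τ δ : ℝ) : Prop :=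
    ∃ (L0 : ℝ) (b : ℕ) (η : ℝ), 1 ≤ L0 ∧ 0 < η ∧ ∀ᶠ Y : ℝ in atTop, ∀ K : ℕ, Y ^ b ≤ K → (K : ℝ) ≤ Real.exp Y → ∀ E : ℝ, 0 ≤ E →
    ∑ k ∈ FK K, wt K k * ‖TF (SPr Y) (xP Y) (fun p : ℕ => Real.log p) k‖ ^ 2 ≤ E →
    ∀ Bc κ : ℝ, 0 < Bc → Bc ≤ Real.exp (η * Y) → 0 < κ → κ ^ 2 * Bc * E ≤ Y ^ (-τ) →
    ∀ (A : Finset ℕ) (NA : ℝ), (A.card : ℝ) ≤ NA → ((LK A K (κ * NA)).card : ℝ) ≤ Real.exp (c * Y) →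
    ∀ (γ : Type) (C : Finset γ) (mc : γ → ℝ) (NC : ℝ), (C.card : ℝ) ≤ NC →
    (∀ u : ℝ, ((C.filter (fun c => u ≤ mc c ∧ mc c < u + 1 / K)).card : ℝ) ≤ Bc * NC / K) →
    (∀ c ∈ C, ∀ c' ∈ C, |mc c - mc c'| ≤ 4) → (∀ a ∈ A, ∀ c ∈ C, |Real.log a + mc c - Y| ≤ 1 / 2) →
    ∀ h : ℝ, 0 < h → h * Y ^ b ≤ 1 → L0 ≤ K * h →
    |Sh A C mc (SPr Y) (xP Y) (fun p : ℕ => Real.log p) h / h - A.card * C.card| ≤ δ * (A.card * C.card) + Y ^ (-(τ / 4)) * (NA * NC)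

/-- windows in a block -/
def PBH (c τ δ : ℝ) : Prop :=
    ∃ (L0 C₀ : ℝ) (b : ℕ) (η : ℝ), 1 ≤ L0 ∧ 1 ≤ C₀ ∧ 0 < η ∧ ∀ᶠ Y : ℝ in atTop,
    ∀ H : ℝ, 8 * L0 ≤ H → H * Y ^ b ≤ Real.exp Y → ∀ K : ℕ, 2 * L0 * (Real.exp Y / H) ≤ K → (K : ℝ) ≤ 8 * L0 * (Real.exp Y / H) →
    ∀ R : ℝ, 1 ≤ R → Y ≤ R * H →
    ∀ Bc κ : ℝ, 0 < Bc → Bc ≤ Real.exp (η * Y) → 0 < κ → κ ^ 2 * Bc * (C₀ * R) ≤ Y ^ (-τ) →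
    ∀ (A : Finset ℕ) (NA : ℝ), (A.card : ℝ) ≤ NA → (∀ a ∈ A, 1 ≤ a) → ((LK A K (κ * NA)).card : ℝ) ≤ Real.exp (c * Y) →
    ∀ (C : Finset ℝ) (NC : ℝ), (C.card : ℝ) ≤ NC → (∀ c ∈ C, 0 < c) →
    (∀ u : ℝ, ((C.filter (fun c => u ≤ Real.log c ∧ Real.log c < u + 1 / K)).card : ℝ) ≤ Bc * NC / K) →
    (∀ c ∈ C, ∀ c' ∈ C, |Real.log c - Real.log c'| ≤ 4) → (∀ a ∈ A, ∀ c ∈ C, |Real.log a + Real.log c - Y| ≤ min (1 / 8) (δ / 24)) →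
    |∑ a ∈ A, ∑ c ∈ C, (ZH H (a * c) - 1)| ≤ δ * (A.card * C.card) + Y ^ (-(τ / 4)) * (2 * (NA * NC))

/-- the cut norm -/
def PCR (c : ℝ) : Prop :=
    ∀ c₂ ε lam ϱ θ₁ β₀ B₀ δ' : ℝ, c ≤ 1 → 0 < ε → 0 < c₂ → 0 ≤ θ₁ → θ₁ ≤ 1 - ϱ → c₂ + (1 + θ₁) * ε < c → 0 < lam → lam ≤ 1 →
    0 < ϱ → 0 < β₀ → β₀ ≤ 1 → 1 ≤ B₀ → 0 < δ' →
    ∃ s H₁ : ℝ, 0 < s ∧ 1 ≤ H₁ ∧ ∀ᶠ X : ℝ in atTop, ∀ D : ℝ, 1 ≤ D → D ≤ X ^ s → ∀ R : ℝ, 1 ≤ R → R ≤ Real.log X →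
    ∀ H : ℝ, H₁ ≤ H → lam * Real.log X ≤ R * H → H ≤ X ^ (1 - ϱ) →
    ∀ θ : ℝ, D * R * Real.log X ≤ (X ^ θ) ^ c₂ → θ ≤ θ₁ →
    ∀ (A : Finset ℕ) (C : Finset ℝ), Am β₀ ε θ X A →
    SpH (B₀ * D) H θ X C → Cut A C (fun a c => ZH H (a * c)) δ'

end Pool.Agent.J4H33
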