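import Pool.Agent.J4H33.KT4
import Pool.Agent.J4H33.LX4
import Pool.Agent.J4H33.Stm

/-!
# Primes at sparse sets of frequencies, weighted first moments
-/

set_option autoImplicit false

namespace Pool.Agent.J4H33

open Finset Filter Pool.Agent.H376R2.MR Pool.Agent.Q240.KS Pool.Agent.Q211.KS
open Pool.Agent.Y851.PS (TF SPr xP g3 g3_nonneg g3_le mem_SPr)

theorem klt_of_ktp {c₀ : ℝ} (hc₀ : 0 < c₀) (hc₀1 : c₀ ≤ 1 / 2) (h : KTP c₀) (c : ℝ) (hc : c < c₀) : KLT c := by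
  classical
  obtain ⟨η, hη, h⟩ := h
  obtain ⟨η', hη'⟩ : ∃ η', η' = min (η / 4) (1 / 16) := ⟨_, rfl⟩
  have hη'0 : 0 < η' := by rw [hη']; exact lt_min (by positivity) (by norm_num)
  have hη'1 : η' ≤ η / 4 := by rw [hη']; exact min_le_left _ _
  have hη'2 : η' ≤ 1 / 16 := by rw [hη']; exact min_le_right _ _
  refine ⟨η', hη'0, fun B => ?_⟩
  obtain ⟨b₀, hb₀⟩ := h (B + 1)
  obtain ⟨Y₀, hY₀⟩ := eventually_atTop.1 hb₀
  refine ⟨b₀ + 1, ?_⟩
  have hd : 0 < c₀ - c := by linarith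
  filter_upwards [eventually_ge_atTop (Y₀ + 2), eventually_ge_atTop 10, eventually_ge_atTop (2 ^ b₀ : ℝ),
    eventually_ge_atTop (7 * 2 ^ (B + 1) : ℝ), ev_poly_exp 1 (1 / 8) (2 * (6 * Real.exp 3 * 2)) (by norm_num),
    eventually_ge_atTop (2 * c₀ / (c₀ - c)), ev_poly_exp 0 (η / 4) 14 (by positivity)]
    with Y g1 g2 g3' g4 g5 g6 g7 L hL1 hL2 f S Q hf0 hS hQ hfS hfQ
  have hY0 : 0 < Y := by linarith
  rw [div_le_iff₀ hd] at g6
  rw [pow_zero, mul_one] at g7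
  rw [pow_one] at g5
  obtain ⟨E, hE⟩ : ∃ E, E = 6 * Real.exp 3 * (Y + 2) * Real.exp (-(Y / 2)) := ⟨_, rfl⟩
  have hE0 : 0 ≤ E := by rw [hE]; positivity
  have hpt : ∀ k ∈ L, f k * ‖TF (SPr Y) (xP Y) (fun p : ℕ => Real.log p) k‖ ≤
      ∑ j : Fin 7, f k * ‖Pt (Y + ((j : ℕ) - 3 : ℝ) / 2) k‖ + E * f k := by
    intro k _
    have h1 : ‖TF (SPr Y) (xP Y) (fun p : ℕ => Real.log p) k‖ ≤ ∑ j : Fin 7, ‖Pt (Y + ((j : ℕ) - 3 : ℝ) / 2) k‖ + E := by
      rw [TF_eq, hE]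
      refine (norm_sub_le _ _).trans ?_
      apply add_le_add _ (NPt_le hY0.le k)
      refine (norm_sum_le _ _).trans (sum_le_sum fun j _ => ?_)
      rw [norm_mul, Complex.norm_real, Real.norm_eq_abs]
      calc |gc j| * ‖Pt (Y + ((j : ℕ) - 3 : ℝ) / 2) k‖ ≤ 1 * ‖Pt (Y + ((j : ℕ) - 3 : ℝ) / 2) k‖ :=
            mul_le_mul_of_nonneg_right (gc_abs j) (norm_nonneg _)
        _ = _ := by rw [one_mul]
    calc f k * ‖TF (SPr Y) (xP Y) (fun p : ℕ => Real.log p) k‖ ≤ f k * (∑ j : Fin 7, ‖Pt (Y + ((j : ℕ) - 3 : ℝ) / 2) k‖ + E) :=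
          mul_le_mul_of_nonneg_left h1 (hf0 k)
      _ = _ := by rw [mul_add, mul_sum]; ring
  refine (sum_le_sum hpt).trans ?_
  rw [sum_add_distrib, sum_comm, ← mul_sum]
  have hj : ∀ j : Fin 7, ∑ k ∈ L, f k * ‖Pt (Y + ((j : ℕ) - 3 : ℝ) / 2) k‖ ≤ S * (2 ^ (B + 1) / Y ^ (B + 1)) + Q * Real.exp (-(η / 2 * Y)) := by
    intro j
    have hj6 : ((j : ℕ) : ℝ) ≤ 6 := by
      have : (j : ℕ) ≤ 6 := by omega
      exact_mod_cast this
    have hj0 : (0 : ℝ) ≤ ((j : ℕ) : ℝ) := Nat.cast_nonneg _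
    obtain ⟨V, hV⟩ : ∃ V, V = Y + ((j : ℕ) - 3 : ℝ) / 2 := ⟨_, rfl⟩
    have hV1 : Y - 3 / 2 ≤ V := by rw [hV]; linarith
    have hV2 : V ≤ Y + 3 / 2 := by rw [hV]; linarith
    rw [← hV]
    have hV0 : 0 < V := by linarith
    refine (hY₀ V (by linarith) L (hL1.trans (Real.exp_le_exp.2 ?_)) ?_ f S Q hf0 hS hQ hfS hfQ).trans ?_
    · nlinarith
    · intro k hk
      obtain ⟨q1, q2⟩ := hL2 k hk
      constructor
      · refine le_trans ?_ q1
        calc V ^ b₀ ≤ (2 * Y) ^ b₀ := pow_le_pow_left₀ hV0.le (by linarith) _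
          _ = 2 ^ b₀ * Y ^ b₀ := mul_pow _ _ _
          _ ≤ Y * Y ^ b₀ := mul_le_mul_of_nonneg_right g3' (by positivity)
          _ = Y ^ (b₀ + 1) := by ring
      · refine q2.trans ?_
        have h10 : Real.exp (3 / 2) ≤ 10 := by
          have h0 : Real.exp (3 / 2 : ℝ) ^ 2 = Real.exp 1 ^ 3 := by
            rw [← Real.exp_nat_mul, ← Real.exp_nat_mul]; norm_num
          have h1 := Real.exp_one_lt_d9
          have h2 : Real.exp 1 ^ 3 ≤ 3 ^ 3 := pow_le_pow_left₀ (Real.exp_pos _).le (by linarith) 3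
          have h3 := Real.exp_pos (3 / 2 : ℝ)
          nlinarith
        calc Real.exp Y = Real.exp (3 / 2) * Real.exp (Y - 3 / 2) := by rw [← Real.exp_add]; congr 1; ring
          _ ≤ 10 * Real.exp V := mul_le_mul h10 (Real.exp_le_exp.2 hV1) (Real.exp_pos _).le (by norm_num)
    · apply add_le_add
      · rw [div_eq_mul_one_div]
        apply mul_le_mul_of_nonneg_left _ hS
        rw [div_le_div_iff₀ (by positivity) (by positivity), one_mul, ← mul_pow]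
        exact pow_le_pow_left₀ hY0.le (by linarith) _
      · apply mul_le_mul_of_nonneg_left _ hQ
        apply Real.exp_le_exp.2
        nlinarith
  have h1 := sum_le_sum fun j (_ : j ∈ (univ : Finset (Fin 7))) => hj j
  rw [sum_const, card_univ, Fintype.card_fin, nsmul_eq_mul] at h1
  push_cast at h1
  have h2 : 7 * (S * (2 ^ (B + 1) / Y ^ (B + 1))) ≤ S / Y ^ B := by
    calc 7 * (S * (2 ^ (B + 1) / Y ^ (B + 1))) = (S / Y ^ B) * ((7 * 2 ^ (B + 1)) / Y) := by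
          rw [pow_succ Y B]; field_simp
      _ ≤ (S / Y ^ B) * 1 := by
          apply mul_le_mul_of_nonneg_left _ (by positivity)
          rw [div_le_one hY0]; exact g4
      _ = _ := mul_one _
  have h3 : 7 * (Q * Real.exp (-(η / 2 * Y))) ≤ 1 / 2 * (Q * Real.exp (-(η' * Y))) := by
    have e1 : 14 * Real.exp (-(η / 2 * Y)) ≤ Real.exp (-(η' * Y)) := by
      calc 14 * Real.exp (-(η / 2 * Y)) ≤ Real.exp (η / 4 * Y) * Real.exp (-(η / 2 * Y)) :=
            mul_le_mul_of_nonneg_right g7 (Real.exp_pos _).le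
        _ = Real.exp (-(η / 4 * Y)) := by rw [← Real.exp_add]; congr 1; ring
        _ ≤ _ := by
          apply Real.exp_le_exp.2
          have := mul_le_mul_of_nonneg_right hη'1 hY0.le
          linarith
    have := mul_le_mul_of_nonneg_left e1 hQ
    linarith
  have h4 : ∑ k ∈ L, f k ≤ Q * Real.exp (1 / 4 * Y) := by
    have h5 := cs_w L f (fun _ => 1) Q (Real.exp (1 / 4 * Y)) hf0 (fun _ => zero_le_one) hQ (Real.exp_pos _).le hfQ (by
      simp only [one_pow, sum_const, nsmul_eq_mul, mul_one]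
      refine hL1.trans ?_
      rw [← Real.exp_nat_mul]
      apply Real.exp_le_exp.2
      push_cast
      have := mul_le_mul_of_nonneg_right (show c ≤ 1 / 2 by linarith) hY0.le
      linarith)
    simpa using h5
  have h5 : E * ∑ k ∈ L, f k ≤ 1 / 2 * (Q * Real.exp (-(η' * Y))) := by
    have e1 : 2 * E * Real.exp (1 / 4 * Y) ≤ Real.exp (-(η' * Y)) := by
      have e2 : 2 * E ≤ Real.exp (1 / 8 * Y) * Real.exp (-(Y / 2)) := by
        rw [hE]
        have h6 : 2 * (6 * Real.exp 3 * (Y + 2)) ≤ Real.exp (1 / 8 * Y) := by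
          refine le_trans ?_ g5
          have : 0 < Real.exp 3 := Real.exp_pos 3
          nlinarith
        calc 2 * (6 * Real.exp 3 * (Y + 2) * Real.exp (-(Y / 2))) = 2 * (6 * Real.exp 3 * (Y + 2)) * Real.exp (-(Y / 2)) := by ring
          _ ≤ _ := mul_le_mul_of_nonneg_right h6 (Real.exp_pos _).le
      calc 2 * E * Real.exp (1 / 4 * Y) ≤ Real.exp (1 / 8 * Y) * Real.exp (-(Y / 2)) * Real.exp (1 / 4 * Y) :=
            mul_le_mul_of_nonneg_right e2 (Real.exp_pos _).le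
        _ = Real.exp (-(1 / 8 * Y)) := by rw [← Real.exp_add, ← Real.exp_add]; congr 1; ring
        _ ≤ _ := by
          apply Real.exp_le_exp.2
          have := mul_le_mul_of_nonneg_right hη'2 hY0.le
          linarith
    calc E * ∑ k ∈ L, f k ≤ E * (Q * Real.exp (1 / 4 * Y)) := mul_le_mul_of_nonneg_left h4 hE0
      _ = 1 / 2 * (Q * (2 * E * Real.exp (1 / 4 * Y))) := by ring
      _ ≤ _ := by
        apply mul_le_mul_of_nonneg_left _ (by norm_num)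
        exact mul_le_mul_of_nonneg_left e1 hQ
  linarith

/-- **Primes at sparse sets of frequencies, weighted first moments**: `c < 1/3`. -/
theorem klt (c : ℝ) (hc : c < 1 / 3) : KLT c := by
  obtain ⟨c₀, h1, h2⟩ := exists_between (max_lt hc (show (0 : ℝ) < 1 / 3 by norm_num))
  have h0 : 0 < c₀ := lt_of_le_of_lt (le_max_right _ _) h1
  have hE := kle_third Pool.Agent.Q298.KS.tri Pool.Agent.Q298.KS.sbv Pool.Agent.Q222.KS.kerv Pool.Agent.Q209.KS.hmg Pool.Agent.Q298.KS.mb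
    (Pool.Agent.Q298.KS.sb1 Pool.Agent.Q14.KS.smo) Pool.Agent.Q298.KS.sb2
    Pool.Agent.Q298.KS.sb3
    (Pool.Agent.Q211.KS.lvh (Pool.Agent.Q209.KS.hu Pool.Agent.Q209.KS.hmg (Pool.Agent.Q209.KS.ker Pool.Agent.Q14.KS.smo))) c₀ h0.le h2
  have hT := kte_third Pool.Agent.Q298.KS.tri Pool.Agent.Q298.KS.sbv Pool.Agent.Q222.KS.kerv Pool.Agent.Q209.KS.hmg Pool.Agent.Q298.KS.mb
    (Pool.Agent.Q298.KS.sb1 Pool.Agent.Q14.KS.smo) Pool.Agent.Q298.KS.sb2
    Pool.Agent.Q298.KS.sb3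
    (Pool.Agent.Q211.KS.lvh (Pool.Agent.Q209.KS.hu Pool.Agent.Q209.KS.hmg (Pool.Agent.Q209.KS.ker Pool.Agent.Q14.KS.smo))) c₀ h0.le h2
  exact klt_of_ktp h0 (by linarith) (ktp_of_kta Pool.Agent.Q298.KS.tri (Pool.Agent.Q95.KS.tup Pool.Agent.Q257.KS.hb) h0.le (by linarith)
    (kla_of_kle hE) (kta_of_kte hT)) c (lt_of_le_of_lt (le_max_left _ _) h1)

end Pool.Agent.J4H33
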