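import Pool.Agent.J4H33.G6
import Pool.Agent.J4H33.KT5

/-!
# Windows of the numbers `a ^ q * p`, one class at a time
-/

set_option autoImplicit false

namespace Pool.Agent.J4H33

open Finset Filter
open Pool.Agent.Y851.PS
open Pool.Agent.Y851.PT

theorem mr_eq (α : ℝ) {a : ℕ} (ha : 1 ≤ a) : mr α a = (a : ℝ) ^ α := by
  have ha0 : (0 : ℝ) < a := by exact_mod_cast ha
  unfold mr
  rw [Real.rpow_def_of_pos ha0]
  congr 1; ring

open Classical in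
theorem step1 (q γ ε t ρ β δ' : ℝ) (J : ℕ) (hJ : 1 ≤ J) (hq : 0 < q) (hγ : 0 < γ) (hε : 0 < ε) (ht : 0 < t) (htq : t * (1 + q) < 1)
    (hcond : γ + (1 + t / (1 - q * t)) * ε < 1 / 3) (hρ : 0 < ρ) (hβ : 0 < β) (hβ1 : β ≤ 1) (hδ' : 0 < δ') :
    ∃ s H₁ X₀ : ℝ, 0 < s ∧ 1 ≤ H₁ ∧ ∀ X : ℝ, X₀ ≤ X → ∀ M D h₀ : ℝ, 1 ≤ D → D ≤ X ^ s → H₁ * M ^ q ≤ h₀ →
      D * Real.log X * max 1 (M ^ q * Real.log X / h₀) ≤ M ^ γ → 0 < M → M ≤ X ^ t →
      ∀ A : Finset ℕ, (∀ a ∈ A, a.Prime ∧ β * M ≤ (a : ℝ) ∧ (a : ℝ) ≤ M) → M ^ (1 - ε) ≤ (A.card : ℝ) → ∀ cl : ℕ → ℕ,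
      ∃ U : Finset ℝ, (U.card : ℝ) ≤ X / (h₀ * D) ∧ ∀ x : ℝ, 0 < x → x ≤ X → (∀ u ∈ U, ¬ (u ≤ x ∧ x ≤ u + h₀)) →
        ∀ H : ℝ, h₀ / (2 * M ^ q) ≤ H → H ≤ X ^ (1 - ρ) / (β * M) ^ q → ∀ k < J,
          |∑ a ∈ A.filter (fun a => cl a = k), ZH H (mr (-q) a * x) - ((A.filter (fun a => cl a = k)).card : ℝ)| ≤ δ' * A.card := by
  obtain ⟨c, hc1, hc2⟩ := exists_between hcond
  have hKLT := klt c hc2
  have hPCR : PCRg c (-q) := by
    apply cutRg c (-q) (neg_ne_zero.2 hq.ne')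
    intro τ δ hτ hτ1 hδ hδ1
    apply blockH5g c τ δ _ hδ hδ1
    exact block5g c τ (δ / 4) hKLT hτ hτ1 (by positivity) (by linarith)
  have hqt : 0 < 1 - q * t := by nlinarith only [htq, ht]
  obtain ⟨θ₁, hθ₁⟩ : ∃ θ₁, θ₁ = t / (1 - q * t) := ⟨_, rfl⟩
  have hθ₁0 : 0 < θ₁ := by rw [hθ₁]; positivity
  have hθ₁1 : θ₁ < 1 := by
    rw [hθ₁, div_lt_one hqt]
    linarith only [htq]
  have hθ₁t : (1 - q * t) * θ₁ = t := by rw [hθ₁]; field_simp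
  rw [← hθ₁] at hc1
  obtain ⟨ρ₁, hρ₁⟩ : ∃ ρ₁, ρ₁ = min ρ (1 - θ₁) := ⟨_, rfl⟩
  have hρ₁0 : 0 < ρ₁ := by rw [hρ₁]; exact lt_min hρ (by linarith)
  have hρ₁1 : ρ₁ ≤ ρ := by rw [hρ₁]; exact min_le_left _ _
  have hρ₁2 : ρ₁ ≤ 1 - θ₁ := by rw [hρ₁]; exact min_le_right _ _
  have hJ0 : (0 : ℝ) < J := by exact_mod_cast hJ
  have hβq : 0 < β ^ q := by positivity
  have hβq1 : β ^ q ≤ 1 := Real.rpow_le_one hβ.le hβ1 hq.le
  obtain ⟨δ₁, hδ₁⟩ : ∃ δ₁, δ₁ = min (min δ' 1) (β ^ q / (2 * J)) := ⟨_, rfl⟩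
  have hδ₁0 : 0 < δ₁ := by rw [hδ₁]; exact lt_min (lt_min hδ' one_pos) (by positivity)
  have hδ₁1 : δ₁ ≤ δ' := by rw [hδ₁]; exact (min_le_left _ _).trans (min_le_left _ _)
  have hδ₁2 : δ₁ ≤ 1 := by rw [hδ₁]; exact (min_le_left _ _).trans (min_le_right _ _)
  have hδ₁3 : δ₁ ≤ β ^ q / (2 * J) := by rw [hδ₁]; exact min_le_right _ _
  obtain ⟨s₁, H₁, hs₁, hH₁, hU⟩ := unifRg c (-q) γ ε (1 / 2) ρ₁ θ₁ β (β ^ q) δ₁ hPCR (by linarith) hε hγ hθ₁0.le (by linarith) hc1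
    (by norm_num) (by norm_num) hρ₁0 (by linarith) hβ hβ1 hβq hβq1 hδ₁0 hδ₁2
  obtain ⟨Z₀, hZ₀⟩ := eventually_atTop.1 (hU.and (eventually_ge_atTop 3))
  have e1 : ∀ᶠ X : ℝ in atTop, max Z₀ 3 ≤ X ^ (1 - q * t) := (tendsto_rpow_atTop hqt).eventually_ge_atTop _
  have e2 : ∀ᶠ X : ℝ in atTop, max (1 / (1 - q * t)) ((1 / β) ^ γ) ≤ Real.log X := Real.tendsto_log_atTop.eventually_ge_atTop _
  obtain ⟨X₀, hX₀⟩ := eventually_atTop.1 ((e1.and e2).and (eventually_ge_atTop 3))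
  refine ⟨s₁ * (1 - q * t), 2 * H₁ + 1 / (1 - q * t), X₀, by positivity, ?_, fun X hX M D h₀ hD1 hDs hh₀ hM hM0 hMX A hA1 hA2 cl => ?_⟩
  · have : 0 < 1 / (1 - q * t) := by positivity
    linarith
  obtain ⟨⟨g1, g2⟩, g3⟩ := hX₀ X hX
  have g1a := (le_max_left _ _).trans g1
  have g1b := (le_max_right _ _).trans g1
  have g2a := (le_max_left _ _).trans g2
  have g2b := (le_max_right _ _).trans g2
  have hX0 : 0 < X := by linarith only [g3]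
  have hX1 : 1 < X := by linarith only [g3]
  have hD0 : 0 < D := by linarith only [hD1]
  have hMq0 : 0 < M ^ q := by positivity
  have hh₀1 : 2 * H₁ * M ^ q ≤ h₀ := by
    refine le_trans ?_ hh₀
    apply mul_le_mul_of_nonneg_right _ hMq0.le
    have : 0 < 1 / (1 - q * t) := by positivity
    linarith only [this]
  have hh₀2 : 1 / (1 - q * t) * M ^ q ≤ h₀ := by
    refine le_trans ?_ hh₀
    apply mul_le_mul_of_nonneg_right _ hMq0.le
    linarith only [hH₁]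
  have hh₀0 : 0 < h₀ := lt_of_lt_of_le (by positivity) hh₀2
  have hlog0 : 0 < Real.log X := Real.log_pos hX1
  obtain ⟨R, hR⟩ : ∃ R, R = max 1 (M ^ q * Real.log X / h₀) := ⟨_, rfl⟩
  rw [← hR] at hM
  have hR1 : 1 ≤ R := by rw [hR]; exact le_max_left _ _
  have hR0 : 0 < R := by linarith only [hR1]
  have hβM : 1 ≤ β * M := by
    have h1 : (1 / β) ^ γ ≤ M ^ γ := by
      refine g2b.trans (le_trans ?_ hM)
      calc Real.log X = 1 * Real.log X * 1 := by ring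
        _ ≤ D * Real.log X * R := by gcongr
    have h2 : 1 / β ≤ M := (Real.rpow_le_rpow_iff (by positivity) hM0.le hγ).1 h1
    rw [div_le_iff₀ hβ] at h2
    linarith only [h2]
  have hβM0 : 0 < β * M := by positivity
  obtain ⟨P, hP⟩ : ∃ P, P = (β * M) ^ q := ⟨_, rfl⟩
  have hP0 : 0 < P := by rw [hP]; positivity
  have hP1 : 1 ≤ P := by rw [hP]; exact Real.one_le_rpow hβM hq.le
  have hPβ : P = β ^ q * M ^ q := by rw [hP, Real.mul_rpow hβ.le hM0.le]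
  have hPM : P ≤ M ^ q := by
    rw [hPβ]
    calc β ^ q * M ^ q ≤ 1 * M ^ q := mul_le_mul_of_nonneg_right hβq1 hMq0.le
      _ = M ^ q := one_mul _
  have hPX : P ≤ X ^ (q * t) := by
    refine hPM.trans ?_
    calc M ^ q ≤ (X ^ t) ^ q := Real.rpow_le_rpow hM0.le hMX hq.le
      _ = X ^ (q * t) := by rw [← Real.rpow_mul hX0.le]; congr 1; ring
  obtain ⟨Z, hZ⟩ : ∃ Z, Z = X / P := ⟨_, rfl⟩
  have hZ0 : 0 < Z := by rw [hZ]; positivity
  have hZX : X ^ (1 - q * t) ≤ Z := by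
    rw [hZ, le_div_iff₀ hP0]
    calc X ^ (1 - q * t) * P ≤ X ^ (1 - q * t) * X ^ (q * t) := by gcongr
      _ = X := by
        rw [← Real.rpow_add hX0]
        have : 1 - q * t + q * t = 1 := by ring
        rw [this, Real.rpow_one]
  have hZle : Z ≤ X := by rw [hZ]; exact div_le_self hX0.le hP1
  obtain ⟨h1, hZ3⟩ := hZ₀ Z (g1a.trans hZX)
  have hZ1 : 1 < Z := by linarith only [hZ3]
  have hlogZ : 0 < Real.log Z := Real.log_pos hZ1
  have hlogZX : Real.log Z ≤ Real.log X := Real.log_le_log hZ0 hZle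
  have hlogZX2 : (1 - q * t) * Real.log X ≤ Real.log Z := by
    have := Real.log_le_log (by positivity) hZX
    rwa [Real.log_rpow hX0] at this
  have hlogZ1 : 1 ≤ Real.log Z := by
    refine le_trans ?_ hlogZX2
    rw [div_le_iff₀ hqt] at g2a
    linarith only [g2a]
  obtain ⟨θ, hθ⟩ : ∃ θ, θ = -Real.log P / Real.log Z := ⟨_, rfl⟩
  have hZθ : Z ^ θ = P⁻¹ := by
    rw [Real.rpow_def_of_pos hZ0, hθ, mul_div_cancel₀ _ hlogZ.ne', Real.exp_neg, Real.exp_log hP0]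
  have hZθ1 : Z ^ (1 - θ) = X := by
    rw [Real.rpow_sub hZ0, Real.rpow_one, hZθ, hZ]
    field_simp
  obtain ⟨θₐ, hθₐ⟩ : ∃ θₐ, θₐ = Real.log M / Real.log Z := ⟨_, rfl⟩
  have hZM : Z ^ θₐ = M := by
    rw [Real.rpow_def_of_pos hZ0, hθₐ, mul_div_cancel₀ _ hlogZ.ne', Real.exp_log hM0]
  have hθₐ1 : θₐ ≤ θ₁ := by
    have h2 : Z ^ θₐ ≤ Z ^ θ₁ := by
      rw [hZM]
      refine hMX.trans ?_
      calc X ^ t = (X ^ (1 - q * t)) ^ θ₁ := by rw [← Real.rpow_mul hX0.le, hθ₁t]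
        _ ≤ Z ^ θ₁ := Real.rpow_le_rpow (by positivity) hZX hθ₁0.le
    exact (Real.rpow_le_rpow_left_iff hZ1).1 h2
  have hDZ : D ≤ Z ^ s₁ := by
    refine hDs.trans ?_
    calc X ^ (s₁ * (1 - q * t)) = (X ^ (1 - q * t)) ^ s₁ := by rw [← Real.rpow_mul hX0.le]; congr 1; ring
      _ ≤ Z ^ s₁ := Real.rpow_le_rpow (by positivity) hZX hs₁.le
  have hR2 : R ≤ Real.log Z := by
    rw [hR]
    apply max_le hlogZ1
    refine le_trans ?_ hlogZX2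
    rw [div_le_iff₀ hh₀0]
    have h2 : M ^ q ≤ (1 - q * t) * h₀ := by
      have h3 : (1 - q * t) * (1 / (1 - q * t) * M ^ q) ≤ (1 - q * t) * h₀ := mul_le_mul_of_nonneg_left hh₀2 hqt.le
      have e : (1 - q * t) * (1 / (1 - q * t) * M ^ q) = M ^ q := by field_simp
      rwa [e] at h3
    calc M ^ q * Real.log X ≤ ((1 - q * t) * h₀) * Real.log X := mul_le_mul_of_nonneg_right h2 hlog0.le
      _ = _ := by ring
  obtain ⟨H₀, hH₀⟩ : ∃ H₀, H₀ = h₀ / (2 * M ^ q) := ⟨_, rfl⟩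
  have hH₀0 : 0 < H₀ := by rw [hH₀]; positivity
  have hH₀1 : H₁ ≤ H₀ := by
    rw [hH₀, le_div_iff₀ (by positivity)]
    linarith only [hh₀1]
  have hR3 : 1 / 2 * Real.log Z ≤ R * H₀ := by
    have h2 : M ^ q * Real.log X / h₀ ≤ R := by rw [hR]; exact le_max_right _ _
    calc 1 / 2 * Real.log Z ≤ 1 / 2 * Real.log X := by gcongr
      _ = (M ^ q * Real.log X / h₀) * H₀ := by rw [hH₀]; field_simp
      _ ≤ R * H₀ := mul_le_mul_of_nonneg_right h2 hH₀0.le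
  rw [← hH₀, ← hP]
  have hrange : X ^ (1 - ρ) / P ≤ Z ^ (1 - ρ₁) := by
    rw [hZ, Real.div_rpow hX0.le hP0.le]
    apply div_le_div₀ (by positivity) (Real.rpow_le_rpow_of_exponent_le hX1.le (by linarith only [hρ₁1])) (by positivity)
    calc P ^ (1 - ρ₁) ≤ P ^ (1 : ℝ) := Real.rpow_le_rpow_of_exponent_le hP1 (by linarith only [hρ₁0])
      _ = P := Real.rpow_one P
  by_cases hbig : H₀ ≤ Z ^ (1 - ρ₁)
  · have h2 := h1 D hD1 hDZ R hR1 hR2 H₀ hH₀1 hR3 hbig θₐ (by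
      rw [hZM]
      refine le_trans ?_ hM
      calc D * R * Real.log Z ≤ D * R * Real.log X := by gcongr
        _ = D * Real.log X * R := by ring) hθₐ1 A ⟨fun a ha => (hA1 a ha).1, fun a ha => by
          rw [hZM]
          exact (hA1 a ha).2.1, fun a ha => by
          rw [hZM]; exact (hA1 a ha).2.2, by rw [hZM]; exact hA2⟩ θ (by
        intro a ha
        obtain ⟨a1, a2, a3⟩ := hA1 a ha
        have ha0 : (0 : ℝ) < a := lt_of_lt_of_le hβM0 a2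
        rw [mr_eq _ a1.one_lt.le, Real.rpow_neg ha0.le, hZθ]
        have q1 : P ≤ (a : ℝ) ^ q := by rw [hP]; exact Real.rpow_le_rpow hβM0.le a2 hq.le
        have q2 : (a : ℝ) ^ q ≤ M ^ q := Real.rpow_le_rpow ha0.le a3 hq.le
        constructor
        · have e : β ^ q * P⁻¹ = (M ^ q)⁻¹ := by rw [hPβ]; field_simp
          rw [e]
          exact inv_anti₀ (by positivity) q2
        · exact inv_anti₀ hP0 q1)
    have h3 : ∀ k : ℕ, ∃ U : Finset ℝ, (U.card : ℝ) ≤ δ₁ * (Z / (H₀ * D)) ∧ ∀ y : ℝ, 0 < y → y ≤ Z ^ (1 - θ) →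
      (∀ u ∈ U, ¬ (u ≤ y ∧ y ≤ u + H₀ / Z ^ θ)) → ∀ H : ℝ, H₀ ≤ H → H ≤ Z ^ (1 - ρ₁) →
      |∑ a ∈ A.filter (fun a => cl a = k), ZH H (mr (-q) a * y) - ((A.filter (fun a => cl a = k)).card : ℝ)| ≤ δ₁ * A.card :=
      fun k => h2 _ (filter_subset _ _)
    choose U hU1 hU2 using h3
    refine ⟨(range J).biUnion U, ?_, ?_⟩
    · have g4 : (((range J).biUnion U).card : ℝ) ≤ ∑ i ∈ range J, ((U i).card : ℝ) := by
        exact_mod_cast card_biUnion_le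
      refine g4.trans ((sum_le_sum fun i _ => hU1 i).trans ?_)
      rw [sum_const, card_range, nsmul_eq_mul]
      have e : (Z / (H₀ * D)) = 2 / β ^ q * (X / (h₀ * D)) := by
        rw [hZ, hH₀, hPβ]
        field_simp
      rw [e]
      have h5 : 0 ≤ X / (h₀ * D) := by positivity
      calc (J : ℝ) * (δ₁ * (2 / β ^ q * (X / (h₀ * D)))) ≤ J * ((β ^ q / (2 * J)) * (2 / β ^ q * (X / (h₀ * D)))) := by gcongr
        _ = X / (h₀ * D) := by field_simp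
    · intro x hx0 hxX hxU H hH1 hH2 k hk
      have h4 := hU2 k x hx0 (by rw [hZθ1]; exact hxX) (by
        intro u hu hcon
        apply hxU u (mem_biUnion.2 ⟨k, mem_range.2 hk, hu⟩)
        refine ⟨hcon.1, hcon.2.trans ?_⟩
        have h5 : H₀ / Z ^ θ ≤ h₀ := by
          rw [hZθ, div_inv_eq_mul, hH₀, div_mul_eq_mul_div, div_le_iff₀ (by positivity)]
          have h6 : P ≤ 2 * M ^ q := by linarith only [hPM, hMq0]
          exact mul_le_mul_of_nonneg_left h6 hh₀0.le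
        linarith only [h5]) H hH1 (hH2.trans hrange)
      exact h4.trans (mul_le_mul_of_nonneg_right hδ₁1 (Nat.cast_nonneg _))
  · refine ⟨∅, by rw [card_empty, Nat.cast_zero]; positivity, fun x _ _ _ H hH1 hH2 => ?_⟩
    exfalso
    apply hbig
    exact hH1.trans (hH2.trans hrange)

end Pool.Agent.J4H33
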