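import Pool.Agent.J4H33.G7
import Pool.Agent.Y851.PT.P12

/-!
# The number of the elements `a ^ q * p` of short intervals
-/

set_option autoImplicit false

namespace Pool.Agent.J4H33

open Finset Filter
open Pool.Agent.Y851.PS
open Pool.Agent.Y851.PT

/-- the number of primes `p` with `x - h < a ^ q * p < x` -/
noncomputable def cntq (q h x : ℝ) (a : ℕ) : ℝ := (Set.ncard {p : ℕ | p.Prime ∧ x - h < (a : ℝ) ^ q * p ∧ (a : ℝ) ^ q * p < x} : ℝ)

/-- the expected density -/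
noncomputable def wq (q x : ℝ) (a : ℕ) : ℝ := 1 / ((a : ℝ) ^ q * Real.log (x / (a : ℝ) ^ q))

theorem zh_le {H H' y c : ℝ} (hH : 0 < H) (hHH : H ≤ H') (hc : H' ≤ c * H) : ZH H y ≤ c * ZH H' y := by
  have hH' : 0 < H' := by linarith
  have h1 := ZH_mono (x := y) (x' := y) hH hH' le_rfl (by linarith)
  have h2 := ZH_nonneg hH'.le y
  have h3 : H * ZH H y ≤ H * (c * ZH H' y) := by
    calc H * ZH H y ≤ H' * ZH H' y := h1
      _ ≤ c * H * ZH H' y := mul_le_mul_of_nonneg_right hc h2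
      _ = _ := by ring
  exact le_of_mul_le_mul_left h3 hH

theorem cntq_eq {q h x : ℝ} {a : ℕ} (ha : 1 ≤ a) (hh : 0 < h) (hl : 0 < Real.log (x / (a : ℝ) ^ q)) :
    cntq q h x a = h * (wq q x a * ZH (h / (a : ℝ) ^ q) (x / (a : ℝ) ^ q)) := by
  have ha0 : (0 : ℝ) < a := by exact_mod_cast ha
  have haq : 0 < (a : ℝ) ^ q := by positivity
  have hset : {p : ℕ | p.Prime ∧ x - h < (a : ℝ) ^ q * p ∧ (a : ℝ) ^ q * p < x} =
      {p : ℕ | p.Prime ∧ x / (a : ℝ) ^ q - h / (a : ℝ) ^ q < p ∧ (p : ℝ) < x / (a : ℝ) ^ q} := by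
    ext p
    change (p.Prime ∧ x - h < (a : ℝ) ^ q * p ∧ (a : ℝ) ^ q * p < x) ↔ (p.Prime ∧ x / (a : ℝ) ^ q - h / (a : ℝ) ^ q < p ∧ (p : ℝ) < x / (a : ℝ) ^ q)
    rw [← sub_div, div_lt_iff₀ haq, lt_div_iff₀ haq, mul_comm (p : ℝ)]
  have e : (NH (h / (a : ℝ) ^ q) (x / (a : ℝ) ^ q) : ℝ) = (Set.ncard {p : ℕ | p.Prime ∧ x - h < (a : ℝ) ^ q * p ∧ (a : ℝ) ^ q * p < x} : ℝ) := by
    rw [hset]; rfl
  unfold cntq wq
  rw [ZH_eq, e]
  field_simp

theorem mr_neg {q x : ℝ} {a : ℕ} (ha : 1 ≤ a) : mr (-q) a * x = x / (a : ℝ) ^ q := by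
  have ha0 : (0 : ℝ) < a := by exact_mod_cast ha
  rw [mr_eq _ ha, Real.rpow_neg ha0.le]
  field_simp

/-- the class of `a` -/
noncomputable def clq (q b₀ μ : ℝ) (a : ℕ) : ℕ := ⌊(q * Real.log a - q * b₀) / μ⌋₊

open Classical in
theorem step2 (q β M x h μ δ' : ℝ) (hq : 0 < q) (hβ : 0 < β) (hM : 0 < M) (hh : 0 < h) (hμ : 0 < μ)
    (hδ' : 0 ≤ δ') (J : ℕ) (hJ : J = ⌊q * Real.log (1 / β) / μ⌋₊ + 1)
    (A : Finset ℕ) (hA : ∀ a ∈ A, 1 ≤ a ∧ β * M ≤ (a : ℝ) ∧ (a : ℝ) ≤ M)
    (hx : 2 ≤ Real.log x - q * Real.log M) (hx2 : q * Real.log (1 / β) ≤ Real.log x - q * Real.log M) (hx0 : 0 < x)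
    (h1 : ∀ k < J, (A.filter (fun a => clq q (Real.log (β * M)) μ a = k)).Nonempty →
      |∑ a ∈ A.filter (fun a => clq q (Real.log (β * M)) μ a = k), ZH (h / Real.exp (q * Real.log (β * M) + μ * k)) (x / (a : ℝ) ^ q) -
        ((A.filter (fun a => clq q (Real.log (β * M)) μ a = k)).card : ℝ)| ≤ δ' * A.card)
    (h2 : ∀ k < J, (A.filter (fun a => clq q (Real.log (β * M)) μ a = k)).Nonempty →
      |∑ a ∈ A.filter (fun a => clq q (Real.log (β * M)) μ a = k), ZH (Real.exp (-μ) * (h / Real.exp (q * Real.log (β * M) + μ * k))) (x / (a : ℝ) ^ q) -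
        ((A.filter (fun a => clq q (Real.log (β * M)) μ a = k)).card : ℝ)| ≤ δ' * A.card) :
    |∑ a ∈ A, cntq q h x a - h * ∑ a ∈ A, wq q x a| ≤
      (Real.exp (3 * μ) - 1 + Real.exp (2 * μ) * (δ' * (J * (2 * (1 / β) ^ q)))) * (h * ∑ a ∈ A, wq q x a) := by
  obtain ⟨b₀, hb₀⟩ : ∃ b₀, b₀ = Real.log (β * M) := ⟨_, rfl⟩
  rw [← hb₀] at h1 h2
  have hβM : 0 < β * M := by positivity
  have hb₀M : b₀ = Real.log M - Real.log (1 / β) := by
    rw [hb₀, Real.log_mul hβ.ne' hM.ne', one_div, Real.log_inv]; ring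
  -- logarithms
  have hlog : ∀ a ∈ A, b₀ ≤ Real.log a ∧ Real.log a ≤ Real.log M := by
    intro a ha
    obtain ⟨a1, a2, a3⟩ := hA a ha
    have ha0 : (0 : ℝ) < a := by exact_mod_cast a1
    exact ⟨by rw [hb₀]; exact Real.log_le_log hβM a2, Real.log_le_log ha0 a3⟩
  have hpow : ∀ a ∈ A, (a : ℝ) ^ q = Real.exp (q * Real.log a) := by
    intro a ha
    have ha0 : (0 : ℝ) < a := by exact_mod_cast (hA a ha).1
    rw [Real.rpow_def_of_pos ha0]; congr 1; ring
  have hlx : ∀ a ∈ A, Real.log (x / (a : ℝ) ^ q) = Real.log x - q * Real.log a := by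
    intro a ha
    rw [hpow a ha, Real.log_div hx0.ne' (Real.exp_pos _).ne', Real.log_exp]
  have hlx2 : ∀ a ∈ A, 2 ≤ Real.log x - q * Real.log a := by
    intro a ha
    have := mul_le_mul_of_nonneg_left (hlog a ha).2 hq.le
    linarith
  have hw0 : ∀ a ∈ A, 0 < wq q x a := by
    intro a ha
    unfold wq
    rw [hlx a ha, hpow a ha]
    have := hlx2 a ha
    have h4 := Real.exp_pos (q * Real.log a)
    apply one_div_pos.2
    apply mul_pos h4
    linarith
  have hcl : ∀ a ∈ A, clq q b₀ μ a < J ∧ q * b₀ + μ * (clq q b₀ μ a) ≤ q * Real.log a ∧ q * Real.log a ≤ q * b₀ + μ * (clq q b₀ μ a) + μ := by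
    intro a ha
    have g1 := hlog a ha
    have g2 : 0 ≤ (q * Real.log a - q * b₀) / μ := by
      apply div_nonneg _ hμ.le
      have := mul_le_mul_of_nonneg_left g1.1 hq.le
      linarith
    have g3 := Nat.floor_le g2
    have g4 := Nat.lt_floor_add_one ((q * Real.log a - q * b₀) / μ)
    rw [le_div_iff₀ hμ] at g3
    rw [div_lt_iff₀ hμ] at g4
    unfold clq
    refine ⟨?_, by linarith, by linarith⟩
    rw [hJ, Nat.lt_succ_iff]
    apply Nat.floor_mono
    apply div_le_div_of_nonneg_right _ hμ.le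
    have := mul_le_mul_of_nonneg_left g1.2 hq.le
    rw [hb₀M]
    linarith
  obtain ⟨W, hW⟩ : ∃ W, W = ∑ a ∈ A, wq q x a := ⟨_, rfl⟩
  have hW0 : 0 ≤ W := by rw [hW]; exact sum_nonneg fun a ha => (hw0 a ha).le
  rw [← hW]
  obtain ⟨Ak, hAk⟩ : ∃ Ak : ℕ → Finset ℕ, Ak = fun k => A.filter (fun a => clq q b₀ μ a = k) := ⟨_, rfl⟩
  have hAkA : ∀ k, Ak k ⊆ A := fun k => by rw [hAk]; exact filter_subset _ _
  have hAkk : ∀ k, ∀ a ∈ Ak k, clq q b₀ μ a = k := fun k a ha => by
    rw [hAk, mem_filter] at ha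
    exact ha.2
  obtain ⟨w0, hw0'⟩ : ∃ w0 : ℕ → ℝ, w0 = fun k : ℕ => 1 / (Real.exp (q * b₀ + μ * k) * (Real.log x - (q * b₀ + μ * k))) := ⟨_, rfl⟩
  have hμe : 1 + μ ≤ Real.exp μ := by have := Real.add_one_le_exp μ; linarith
  -- comparison in a class
  have hcmp : ∀ k, ∀ a ∈ Ak k, w0 k ≤ Real.exp μ * wq q x a ∧ wq q x a ≤ Real.exp μ * w0 k ∧ 0 < w0 k ∧
      ∀ a' ∈ A, w0 k ≤ (2 * (1 / β) ^ q) * wq q x a' := by
    intro k a ha
    have haA := hAkA k ha
    obtain ⟨g1, g2, g3⟩ := hcl a haA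
    rw [hAkk k a ha] at g2 g3
    have g4 := hlx2 a haA
    obtain ⟨Bk, hBk⟩ : ∃ Bk, Bk = q * b₀ + μ * k := ⟨_, rfl⟩
    have hwk : w0 k = 1 / (Real.exp Bk * (Real.log x - Bk)) := by rw [hw0', hBk]
    rw [← hBk] at g2 g3
    have hΛ : 2 ≤ Real.log x - Bk := by linarith
    have hΛ0 : 0 < Real.log x - Bk := by linarith
    have hwa : wq q x a = 1 / (Real.exp (q * Real.log a) * (Real.log x - q * Real.log a)) := by
      unfold wq; rw [hlx a haA, hpow a haA]
    have p1 : 0 < Real.log x - q * Real.log a := by linarith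
    have p2 := Real.exp_pos Bk
    have p3 := Real.exp_pos (q * Real.log a)
    have p4 := Real.exp_pos μ
    rw [hwk, hwa]
    refine ⟨?_, ?_, by positivity, ?_⟩
    · rw [mul_one_div, div_le_div_iff₀ (by positivity) (by positivity), one_mul]
      have e1 : Real.exp (q * Real.log a) ≤ Real.exp Bk * Real.exp μ := by
        rw [← Real.exp_add]; exact Real.exp_le_exp.2 g3
      calc Real.exp (q * Real.log a) * (Real.log x - q * Real.log a) ≤ (Real.exp Bk * Real.exp μ) * (Real.log x - Bk) := by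
            apply mul_le_mul e1 (by linarith) p1.le (by positivity)
        _ = _ := by ring
    · rw [mul_one_div, div_le_div_iff₀ (by positivity) (by positivity), one_mul]
      have e1 : Real.exp Bk ≤ Real.exp (q * Real.log a) := Real.exp_le_exp.2 g2
      have e2 : Real.log x - Bk ≤ Real.exp μ * (Real.log x - q * Real.log a) := by
        calc Real.log x - Bk ≤ (1 + μ) * (Real.log x - q * Real.log a) := by nlinarith only [g3, g4, hμ]
          _ ≤ _ := mul_le_mul_of_nonneg_right hμe p1.le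
      calc Real.exp Bk * (Real.log x - Bk) ≤ Real.exp (q * Real.log a) * (Real.exp μ * (Real.log x - q * Real.log a)) := by
            apply mul_le_mul e1 e2 hΛ0.le p3.le
        _ = _ := by ring
    · intro a' ha'
      have hwa' : wq q x a' = 1 / (Real.exp (q * Real.log a') * (Real.log x - q * Real.log a')) := by
        unfold wq; rw [hlx a' ha', hpow a' ha']
      have q1 := hlx2 a' ha'
      have q0 : 0 < Real.log x - q * Real.log a' := by linarith
      have q2 := hlog a' ha'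
      have q3 := Real.exp_pos (q * Real.log a')
      rw [hwa', mul_one_div, div_le_div_iff₀ (by positivity) (by positivity), one_mul]
      have e0 : (1 / β) ^ q = Real.exp (q * Real.log (1 / β)) := by
        rw [Real.rpow_def_of_pos (by positivity)]; congr 1; ring
      have hkμ : 0 ≤ μ * k := mul_nonneg hμ.le (Nat.cast_nonneg k)
      have e1 : Real.exp (q * Real.log a') ≤ (1 / β) ^ q * Real.exp Bk := by
        rw [e0, ← Real.exp_add]
        apply Real.exp_le_exp.2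
        have := mul_le_mul_of_nonneg_left q2.2 hq.le
        have e3 : q * Real.log M = q * b₀ + q * Real.log (1 / β) := by rw [hb₀M]; ring
        linarith
      have e2 : Real.log x - q * Real.log a' ≤ 2 * (Real.log x - Bk) := by
        have t1 := mul_le_mul_of_nonneg_left q2.1 hq.le
        have t2 := mul_le_mul_of_nonneg_left (hlog a haA).2 hq.le
        have e3 : q * Real.log M = q * b₀ + q * Real.log (1 / β) := by rw [hb₀M]; ring
        linarith
      calc Real.exp (q * Real.log a') * (Real.log x - q * Real.log a') ≤ ((1 / β) ^ q * Real.exp Bk) * (2 * (Real.log x - Bk)) := by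
            apply mul_le_mul e1 e2 q0.le (by positivity)
        _ = _ := by ring
  -- the bounds in a class
  have hclass : ∀ k < J, ∑ a ∈ Ak k, cntq q h x a ≤ h * (Real.exp (3 * μ) * ∑ a ∈ Ak k, wq q x a + Real.exp (2 * μ) * (δ' * ((2 * (1 / β) ^ q) * W))) ∧
      h * (Real.exp (-(3 * μ)) * ∑ a ∈ Ak k, wq q x a - δ' * ((2 * (1 / β) ^ q) * W)) ≤ ∑ a ∈ Ak k, cntq q h x a := by
    intro k hk
    have hc0 : 0 ≤ δ' * ((2 * (1 / β) ^ q) * W) := by positivity
    rcases (Ak k).eq_empty_or_nonempty with hem | hne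
    · rw [hem, sum_empty, sum_empty, mul_zero, zero_add, mul_zero, zero_sub]
      constructor
      · have := Real.exp_pos (2 * μ); positivity
      · have : 0 ≤ h * (δ' * ((2 * (1 / β) ^ q) * W)) := mul_nonneg hh.le hc0
        linarith
    obtain ⟨a₀, ha₀⟩ := hne
    obtain ⟨u1, u2, u3, u4⟩ := hcmp k a₀ ha₀
    have hw0W : w0 k * A.card ≤ (2 * (1 / β) ^ q) * W := by
      rw [hW, mul_sum]
      calc w0 k * A.card = ∑ _a ∈ A, w0 k := by rw [sum_const, nsmul_eq_mul, mul_comm]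
        _ ≤ _ := sum_le_sum fun a' ha' => u4 a' ha'
    have g1 := h1 k hk (by rw [hAk] at ha₀; exact ⟨a₀, ha₀⟩)
    have g2 := h2 k hk (by rw [hAk] at ha₀; exact ⟨a₀, ha₀⟩)
    have hAk' : A.filter (fun a => clq q b₀ μ a = k) = Ak k := by rw [hAk]
    rw [hAk'] at g1 g2
    obtain ⟨Hp, hHp⟩ : ∃ Hp, Hp = h / Real.exp (q * b₀ + μ * k) := ⟨_, rfl⟩
    rw [← hHp] at g1 g2
    have hHp0 : 0 < Hp := by rw [hHp]; have := Real.exp_pos (q * b₀ + μ * k); positivity
    have hterm : ∀ a ∈ Ak k, cntq q h x a ≤ h * (Real.exp (2 * μ) * w0 k * ZH Hp (x / (a : ℝ) ^ q)) ∧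
        h * (Real.exp (-(2 * μ)) * w0 k * ZH (Real.exp (-μ) * Hp) (x / (a : ℝ) ^ q)) ≤ cntq q h x a := by
      intro a ha
      have haA := hAkA k ha
      obtain ⟨v1, v2, v3, v4⟩ := hcmp k a ha
      obtain ⟨c1, c2, c3⟩ := hcl a haA
      rw [hAkk k a ha] at c2 c3
      have hl : 0 < Real.log (x / (a : ℝ) ^ q) := by
        rw [hlx a haA]; have := hlx2 a haA; linarith
      rw [cntq_eq (hA a haA).1 hh hl]
      have ha0 : (0 : ℝ) < a := by exact_mod_cast (hA a haA).1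
      have haq : 0 < (a : ℝ) ^ q := by positivity
      have hha0 : 0 < h / (a : ℝ) ^ q := by positivity
      have hB1 : Real.exp (q * b₀ + μ * k) ≤ (a : ℝ) ^ q := by
        rw [hpow a haA]; exact Real.exp_le_exp.2 c2
      have hB2 : (a : ℝ) ^ q ≤ Real.exp μ * Real.exp (q * b₀ + μ * k) := by
        rw [hpow a haA, ← Real.exp_add]; exact Real.exp_le_exp.2 (by linarith)
      have hBp := Real.exp_pos (q * b₀ + μ * k)
      have hee : Real.exp (-μ) * Real.exp μ = 1 := by rw [← Real.exp_add]; simp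
      have d1 : h / (a : ℝ) ^ q ≤ Hp := by rw [hHp]; exact div_le_div_of_nonneg_left hh.le hBp hB1
      have d2 : Hp ≤ Real.exp μ * (h / (a : ℝ) ^ q) := by
        rw [hHp, mul_div_assoc', div_le_div_iff₀ hBp haq]
        calc h * (a : ℝ) ^ q ≤ h * (Real.exp μ * Real.exp (q * b₀ + μ * k)) := mul_le_mul_of_nonneg_left hB2 hh.le
          _ = _ := by ring
      have d3 : Real.exp (-μ) * Hp ≤ h / (a : ℝ) ^ q := by
        calc Real.exp (-μ) * Hp ≤ Real.exp (-μ) * (Real.exp μ * (h / (a : ℝ) ^ q)) := mul_le_mul_of_nonneg_left d2 (Real.exp_pos _).le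
          _ = h / (a : ℝ) ^ q := by rw [← mul_assoc, hee, one_mul]
      have d4 : h / (a : ℝ) ^ q ≤ Real.exp μ * (Real.exp (-μ) * Hp) := by
        rw [← mul_assoc, mul_comm (Real.exp μ), hee, one_mul]; exact d1
      have z1 := zh_le (y := x / (a : ℝ) ^ q) hha0 d1 d2
      have z2 := zh_le (y := x / (a : ℝ) ^ q) (mul_pos (Real.exp_pos (-μ)) hHp0) d3 d4
      have z0 := ZH_nonneg hHp0.le (x / (a : ℝ) ^ q)
      have z00 := ZH_nonneg hha0.le (x / (a : ℝ) ^ q)
      have z3 := ZH_nonneg (mul_pos (Real.exp_pos (-μ)) hHp0).le (x / (a : ℝ) ^ q)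
      have hwp := hw0 a haA
      have hem := Real.exp_pos (-μ)
      have hep := Real.exp_pos μ
      constructor
      · apply mul_le_mul_of_nonneg_left _ hh.le
        calc wq q x a * ZH (h / (a : ℝ) ^ q) (x / (a : ℝ) ^ q) ≤ (Real.exp μ * w0 k) * (Real.exp μ * ZH Hp (x / (a : ℝ) ^ q)) :=
              mul_le_mul v2 z1 z00 (by positivity)
          _ = Real.exp (2 * μ) * w0 k * ZH Hp (x / (a : ℝ) ^ q) := by rw [two_mul, Real.exp_add]; ring
      · apply mul_le_mul_of_nonneg_left _ hh.le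
        have v1' : Real.exp (-μ) * w0 k ≤ wq q x a := by
          calc Real.exp (-μ) * w0 k ≤ Real.exp (-μ) * (Real.exp μ * wq q x a) := mul_le_mul_of_nonneg_left v1 hem.le
            _ = wq q x a := by rw [← mul_assoc, hee, one_mul]
        have z2' : Real.exp (-μ) * ZH (Real.exp (-μ) * Hp) (x / (a : ℝ) ^ q) ≤ ZH (h / (a : ℝ) ^ q) (x / (a : ℝ) ^ q) := by
          calc Real.exp (-μ) * ZH (Real.exp (-μ) * Hp) (x / (a : ℝ) ^ q) ≤ Real.exp (-μ) * (Real.exp μ * ZH (h / (a : ℝ) ^ q) (x / (a : ℝ) ^ q)) :=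
                mul_le_mul_of_nonneg_left z2 hem.le
            _ = _ := by rw [← mul_assoc, hee, one_mul]
        calc Real.exp (-(2 * μ)) * w0 k * ZH (Real.exp (-μ) * Hp) (x / (a : ℝ) ^ q) =
              (Real.exp (-μ) * w0 k) * (Real.exp (-μ) * ZH (Real.exp (-μ) * Hp) (x / (a : ℝ) ^ q)) := by
              rw [show -(2 * μ) = -μ + -μ by ring, Real.exp_add]; ring
          _ ≤ _ := mul_le_mul v1' z2' (by positivity) hwp.le
    have hcard1 : w0 k * ((Ak k).card : ℝ) ≤ Real.exp μ * ∑ a ∈ Ak k, wq q x a := by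
      rw [mul_sum]
      calc w0 k * ((Ak k).card : ℝ) = ∑ _a ∈ Ak k, w0 k := by rw [sum_const, nsmul_eq_mul, mul_comm]
        _ ≤ _ := sum_le_sum fun a ha => (hcmp k a ha).1
    have hcard2 : ∑ a ∈ Ak k, wq q x a ≤ Real.exp μ * (w0 k * ((Ak k).card : ℝ)) := by
      calc ∑ a ∈ Ak k, wq q x a ≤ ∑ _a ∈ Ak k, Real.exp μ * w0 k := sum_le_sum fun a ha => (hcmp k a ha).2.1
        _ = _ := by rw [sum_const, nsmul_eq_mul]; ring
    constructor
    · calc ∑ a ∈ Ak k, cntq q h x a ≤ ∑ a ∈ Ak k, h * (Real.exp (2 * μ) * w0 k * ZH Hp (x / (a : ℝ) ^ q)) := sum_le_sum fun a ha => (hterm a ha).1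
        _ = h * (Real.exp (2 * μ) * (w0 k * ∑ a ∈ Ak k, ZH Hp (x / (a : ℝ) ^ q))) := by
            simp_rw [mul_sum]
            apply sum_congr rfl
            intro a _
            ring
        _ ≤ h * (Real.exp (2 * μ) * (w0 k * ((Ak k).card + δ' * A.card))) := by
            have := (abs_le.1 g1).2
            have hep := Real.exp_pos (2 * μ)
            have h5 : ∑ a ∈ Ak k, ZH Hp (x / (a : ℝ) ^ q) ≤ (Ak k).card + δ' * A.card := by linarith
            gcongr
        _ = h * (Real.exp (2 * μ) * (w0 k * (Ak k).card) + Real.exp (2 * μ) * (δ' * (w0 k * A.card))) := by ring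
        _ ≤ h * (Real.exp (2 * μ) * (Real.exp μ * ∑ a ∈ Ak k, wq q x a) + Real.exp (2 * μ) * (δ' * ((2 * (1 / β) ^ q) * W))) := by
            gcongr
        _ = _ := by
            rw [show 3 * μ = 2 * μ + μ by ring, Real.exp_add]; ring
    · calc h * (Real.exp (-(3 * μ)) * ∑ a ∈ Ak k, wq q x a - δ' * ((2 * (1 / β) ^ q) * W))
          ≤ h * (Real.exp (-(3 * μ)) * (Real.exp μ * (w0 k * ((Ak k).card : ℝ))) - δ' * (w0 k * A.card)) := by
            apply mul_le_mul_of_nonneg_left _ hh.le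
            have t1 := mul_le_mul_of_nonneg_left hcard2 (Real.exp_pos (-(3 * μ))).le
            have t2 := mul_le_mul_of_nonneg_left hw0W hδ'
            linarith
        _ ≤ h * (Real.exp (-(2 * μ)) * (w0 k * ((Ak k).card - δ' * A.card))) := by
            apply mul_le_mul_of_nonneg_left _ hh.le
            have e1 : Real.exp (-(3 * μ)) * (Real.exp μ * (w0 k * ((Ak k).card : ℝ))) = Real.exp (-(2 * μ)) * (w0 k * ((Ak k).card : ℝ)) := by
              rw [← mul_assoc, ← Real.exp_add]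
              congr 2; ring
            rw [e1]
            have e2 : Real.exp (-(2 * μ)) ≤ 1 := Real.exp_le_one_iff.2 (by linarith)
            have e3 : 0 ≤ δ' * (w0 k * A.card) := by positivity
            have e4 := mul_le_mul_of_nonneg_right e2 e3
            have e5 : Real.exp (-(2 * μ)) * (w0 k * (((Ak k).card : ℝ) - δ' * A.card)) =
              Real.exp (-(2 * μ)) * (w0 k * ((Ak k).card : ℝ)) - Real.exp (-(2 * μ)) * (δ' * (w0 k * A.card)) := by ring
            rw [e5]; linarith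
        _ ≤ h * (Real.exp (-(2 * μ)) * (w0 k * ∑ a ∈ Ak k, ZH (Real.exp (-μ) * Hp) (x / (a : ℝ) ^ q))) := by
            have := (abs_le.1 g2).1
            have hep := Real.exp_pos (-(2 * μ))
            have h5 : (Ak k).card - δ' * A.card ≤ ∑ a ∈ Ak k, ZH (Real.exp (-μ) * Hp) (x / (a : ℝ) ^ q) := by linarith
            gcongr
        _ = ∑ a ∈ Ak k, h * (Real.exp (-(2 * μ)) * w0 k * ZH (Real.exp (-μ) * Hp) (x / (a : ℝ) ^ q)) := by
            simp_rw [mul_sum]
            apply sum_congr rfl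
            intro a _
            ring
        _ ≤ _ := sum_le_sum fun a ha => (hterm a ha).2
  -- summation
  have hsum : ∀ f : ℕ → ℝ, ∑ k ∈ range J, ∑ a ∈ Ak k, f a = ∑ a ∈ A, f a := by
    intro f
    rw [hAk]
    exact sum_fiberwise_of_maps_to (fun a ha => mem_range.2 (hcl a ha).1) _
  obtain ⟨Q, hQ⟩ : ∃ Q, Q = δ' * (J * (2 * (1 / β) ^ q)) := ⟨_, rfl⟩
  have hQ0 : 0 ≤ Q := by rw [hQ]; positivity
  have hup : ∑ a ∈ A, cntq q h x a ≤ h * (Real.exp (3 * μ) * W + Real.exp (2 * μ) * (Q * W)) := by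
    rw [← hsum]
    refine (sum_le_sum fun k hk => (hclass k (mem_range.1 hk)).1).trans (le_of_eq ?_)
    rw [← mul_sum, sum_add_distrib, ← mul_sum, hsum, ← hW, sum_const, card_range, nsmul_eq_mul, hQ]
    ring
  have hlow : h * (Real.exp (-(3 * μ)) * W - Q * W) ≤ ∑ a ∈ A, cntq q h x a := by
    rw [← hsum (fun a => cntq q h x a)]
    refine le_trans (le_of_eq ?_) (sum_le_sum fun k hk => (hclass k (mem_range.1 hk)).2)
    rw [← mul_sum, sum_sub_distrib, ← mul_sum, hsum, ← hW, sum_const, card_range, nsmul_eq_mul, hQ]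
    ring
  rw [← hQ]
  have hhW : 0 ≤ h * W := by positivity
  rw [abs_le]
  have t1 : 1 - Real.exp (-(3 * μ)) ≤ Real.exp (3 * μ) - 1 := by
    have a1 := Real.add_one_le_exp (3 * μ)
    have a2 := Real.add_one_le_exp (-(3 * μ))
    linarith
  have t2 : Q ≤ Real.exp (2 * μ) * Q := by
    have a1 : 1 ≤ Real.exp (2 * μ) := Real.one_le_exp (by positivity)
    calc Q = 1 * Q := (one_mul Q).symm
      _ ≤ _ := mul_le_mul_of_nonneg_right a1 hQ0
  constructor
  · have t3 : (1 - Real.exp (-(3 * μ)) + Q) * (h * W) ≤ (Real.exp (3 * μ) - 1 + Real.exp (2 * μ) * Q) * (h * W) :=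
      mul_le_mul_of_nonneg_right (by linarith) hhW
    have e : h * (Real.exp (-(3 * μ)) * W - Q * W) = h * W - (1 - Real.exp (-(3 * μ)) + Q) * (h * W) := by ring
    rw [e] at hlow
    linarith
  · have e : h * (Real.exp (3 * μ) * W + Real.exp (2 * μ) * (Q * W)) = h * W + (Real.exp (3 * μ) - 1 + Real.exp (2 * μ) * Q) * (h * W) := by ring
    rw [e] at hup
    linarith

end Pool.Agent.J4H33
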