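import Pool.Agent.J4H33.G8

/-!
# The number of the elements `a ^ q * p` of almost all short intervals
-/

set_option autoImplicit false

namespace Pool.Agent.J4H33

open Finset Filter
open Pool.Agent.Y851.PS
open Pool.Agent.Y851.PT

theorem clq_lt (q β M μ : ℝ) (hq : 0 < q) (hβ : 0 < β) (hM : 0 < M) (hμ : 0 < μ) (a : ℕ) (ha : 1 ≤ a ∧ β * M ≤ (a : ℝ) ∧ (a : ℝ) ≤ M) :
    clq q (Real.log (β * M)) μ a < ⌊q * Real.log (1 / β) / μ⌋₊ + 1 ∧
      q * Real.log (β * M) + μ * (clq q (Real.log (β * M)) μ a) ≤ q * Real.log a := by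
  obtain ⟨a1, a2, a3⟩ := ha
  have ha0 : (0 : ℝ) < a := by exact_mod_cast a1
  have g1 : Real.log (β * M) ≤ Real.log a := Real.log_le_log (by positivity) a2
  have g2 : Real.log a ≤ Real.log M := Real.log_le_log ha0 a3
  have hb₀M : Real.log (β * M) = Real.log M - Real.log (1 / β) := by
    rw [Real.log_mul hβ.ne' hM.ne', one_div, Real.log_inv]; ring
  have h1 := mul_le_mul_of_nonneg_left g1 hq.le
  have h2 := mul_le_mul_of_nonneg_left g2 hq.le
  have g3 : 0 ≤ (q * Real.log a - q * Real.log (β * M)) / μ := by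
    apply div_nonneg _ hμ.le
    linarith
  have g4 := Nat.floor_le g3
  rw [le_div_iff₀ hμ] at g4
  unfold clq
  refine ⟨?_, by linarith⟩
  rw [Nat.lt_succ_iff]
  apply Nat.floor_mono
  apply div_le_div_of_nonneg_right _ hμ.le
  rw [hb₀M]
  linarith

theorem ZH_small {H y L : ℝ} (hH : 0 < H) (hy : Real.log y ≤ L) (hy0 : 0 < y) (hL : 0 < L) : ZH H y ≤ Real.exp L * L / H := by
  by_cases h2 : y < 2
  · unfold ZH
    rw [PH_empty h2]
    simp only [card_empty, Nat.cast_zero, zero_mul, zero_div]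
    have := Real.exp_pos L
    positivity
  · push Not at h2
    have h3 : ((PH H y).card : ℝ) ≤ Real.exp L := by
      have h4 : (PH H y).card ≤ ⌊y⌋₊ := by
        unfold PH
        refine (card_filter_le _ _).trans ?_
        rw [Nat.card_Icc]
        omega
      have h5 : (⌊y⌋₊ : ℝ) ≤ y := Nat.floor_le hy0.le
      have h6 : y ≤ Real.exp L := (Real.log_le_iff_le_exp hy0).1 hy
      have h7 : ((PH H y).card : ℝ) ≤ (⌊y⌋₊ : ℝ) := by exact_mod_cast h4
      linarith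
    unfold ZH
    apply div_le_div_of_nonneg_right _ hH.le
    have h4 : 0 ≤ Real.log y := Real.log_nonneg (by linarith)
    exact mul_le_mul h3 hy h4 (Real.exp_pos L).le

theorem prodw (q γ ε t ρ β δ : ℝ) (hq : 0 < q) (hγ : 0 < γ) (hε : 0 < ε) (ht : 0 < t) (htq : t * (1 + q) < 1)
    (hcond : γ + (1 + t / (1 - q * t)) * ε < 1 / 3) (hρ : 0 < ρ) (hβ : 0 < β) (hβ1 : β ≤ 1) (hδ : 0 < δ) (hδ1 : δ ≤ 1) :
    ∃ s H₁ X₀ : ℝ, 0 < s ∧ ∀ X : ℝ, X₀ ≤ X → ∀ M D h₀ : ℝ, 1 ≤ D → D ≤ X ^ s → H₁ * M ^ q ≤ h₀ →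
      D * Real.log X * max 1 (M ^ q * Real.log X / h₀) ≤ M ^ γ → 0 < M → M ≤ X ^ t →
      ∀ A : Finset ℕ, (∀ a ∈ A, a.Prime ∧ β * M ≤ (a : ℝ) ∧ (a : ℝ) ≤ M) → M ^ (1 - ε) ≤ (A.card : ℝ) →
      ∃ U : Finset ℝ, (U.card : ℝ) ≤ X / (h₀ * D) ∧ ∀ x : ℝ, 0 < x → x ≤ X → (∀ u ∈ U, ¬ (u ≤ x ∧ x ≤ u + h₀)) →
        ∀ h : ℝ, h₀ ≤ h → h ≤ X ^ (1 - ρ) →
          M ^ q < x ∧ |∑ a ∈ A, cntq q h x a - h * ∑ a ∈ A, wq q x a| ≤ δ * (h * ∑ a ∈ A, wq q x a) := by
  classical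
  have hlogβ : 0 ≤ Real.log (1 / β) := Real.log_nonneg (by rw [le_div_iff₀ hβ]; linarith)
  obtain ⟨μ, hμ⟩ : ∃ μ, μ = δ / 12 := ⟨_, rfl⟩
  have hμ0 : 0 < μ := by rw [hμ]; positivity
  obtain ⟨J, hJ⟩ : ∃ J : ℕ, J = ⌊q * Real.log (1 / β) / μ⌋₊ + 1 := ⟨_, rfl⟩
  have hJ1 : 1 ≤ J := by omega
  have hJ0 : (0 : ℝ) < J := by exact_mod_cast hJ1
  have hβq : 0 < β ^ q := by positivity
  have hβq1 : β ^ q ≤ 1 := Real.rpow_le_one hβ.le hβ1 hq.le
  obtain ⟨δ', hδ'⟩ : ∃ δ', δ' = δ * β ^ q / (12 * J) := ⟨_, rfl⟩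
  have hδ'0 : 0 < δ' := by rw [hδ']; positivity
  obtain ⟨s, H₁, X₀, hs, hH₁, hstep⟩ := step1 q γ ε t ρ β δ' J hJ1 hq hγ hε ht htq hcond hρ hβ hβ1 hδ'0
  obtain ⟨L, hL⟩ : ∃ L, L = max 2 (q * Real.log (1 / β)) := ⟨_, rfl⟩
  have hL2 : 2 ≤ L := by rw [hL]; exact le_max_left _ _
  have hLβ : q * Real.log (1 / β) ≤ L := by rw [hL]; exact le_max_right _ _
  have hL0 : 0 < 2 * L := by linarith
  refine ⟨s, H₁ + 4 * (Real.exp (2 * L) * (2 * L)), max X₀ 3, hs, fun X hX M D h₀ hD1 hDs hh₀ hM hM0 hMX A hA1 hA2 => ?_⟩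
  have hXX := (le_max_left _ _).trans hX
  have hX3 := (le_max_right _ _).trans hX
  have hX0 : 0 < X := by linarith
  have hMq0 : 0 < M ^ q := by positivity
  have hEL : 0 < Real.exp (2 * L) * (2 * L) := by have := Real.exp_pos (2 * L); positivity
  have hh₀1 : H₁ * M ^ q ≤ h₀ := by
    refine le_trans ?_ hh₀
    apply mul_le_mul_of_nonneg_right _ hMq0.le
    linarith
  have hh₀2 : 4 * (Real.exp (2 * L) * (2 * L)) * M ^ q ≤ h₀ := by
    refine le_trans ?_ hh₀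
    apply mul_le_mul_of_nonneg_right _ hMq0.le
    linarith
  have hh₀0 : 0 < h₀ := lt_of_lt_of_le (by positivity) hh₀1
  obtain ⟨U, hU1, hU2⟩ := hstep X hXX M D h₀ hD1 hDs hh₀1 hM hM0 hMX A hA1 hA2 (clq q (Real.log (β * M)) μ)
  refine ⟨U, hU1, fun x hx0 hxX hxU h hh1 hh2 => ?_⟩
  have hcl := hU2 x hx0 hxX hxU
  have hAp : ∀ a ∈ A, 1 ≤ a ∧ β * M ≤ (a : ℝ) ∧ (a : ℝ) ≤ M := fun a ha => ⟨(hA1 a ha).1.one_lt.le, (hA1 a ha).2⟩
  have hA0 : (0 : ℝ) < A.card := lt_of_lt_of_le (by positivity) hA2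
  have hβM0 : 0 < β * M := by positivity
  have hP0 : 0 < (β * M) ^ q := by positivity
  have hPM : (β * M) ^ q ≤ M ^ q := Real.rpow_le_rpow hβM0.le (by nlinarith) hq.le
  obtain ⟨b₀, hb₀⟩ : ∃ b₀, b₀ = Real.log (β * M) := ⟨_, rfl⟩
  have hb₀M : q * b₀ = q * Real.log M - q * Real.log (1 / β) := by
    rw [hb₀, Real.log_mul hβ.ne' hM0.ne', one_div, Real.log_inv]; ring
  have hPe : (β * M) ^ q = Real.exp (q * b₀) := by
    rw [Real.rpow_def_of_pos hβM0, hb₀]; congr 1; ring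
  have hMe : M ^ q = Real.exp (q * Real.log M) := by
    rw [Real.rpow_def_of_pos hM0]; congr 1; ring
  rw [← hb₀] at hcl
  -- the size of `x`
  have hlx : L ≤ Real.log x - q * Real.log M := by
    by_contra hcon
    push Not at hcon
    obtain ⟨H, hH⟩ : ∃ H, H = h₀ / (2 * M ^ q) := ⟨_, rfl⟩
    have hH0 : 0 < H := by rw [hH]; positivity
    have hH1 : 2 * (Real.exp (2 * L) * (2 * L)) ≤ H := by
      rw [hH, le_div_iff₀ (by positivity)]
      linarith
    have hrange : H ≤ X ^ (1 - ρ) / (β * M) ^ q := by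
      rw [hH]
      apply div_le_div₀ (by positivity) (hh1.trans hh2) hP0
      linarith
    have h1 := hcl H (by rw [hH]) hrange
    have hz : ∀ a ∈ A, ZH H (mr (-q) a * x) ≤ 1 / 2 := by
      intro a ha
      rw [mr_neg (hAp a ha).1]
      have ha0 : (0 : ℝ) < a := by exact_mod_cast (hAp a ha).1
      have haq : 0 < (a : ℝ) ^ q := by positivity
      have h2 : Real.log (x / (a : ℝ) ^ q) ≤ 2 * L := by
        rw [Real.log_div hx0.ne' haq.ne', Real.log_rpow ha0]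
        have h3 : b₀ ≤ Real.log a := by rw [hb₀]; exact Real.log_le_log hβM0 (hAp a ha).2.1
        have h4 := mul_le_mul_of_nonneg_left h3 hq.le
        linarith
      refine (ZH_small hH0 h2 (by positivity) hL0).trans ?_
      rw [div_le_iff₀ hH0]
      linarith
    have h2 : ∑ a ∈ A, ZH H (mr (-q) a * x) ≤ 1 / 2 * A.card := by
      refine (sum_le_sum hz).trans (le_of_eq ?_)
      rw [sum_const, nsmul_eq_mul, mul_comm]
    have hmaps : ∀ a ∈ A, clq q b₀ μ a ∈ range J := fun a ha => mem_range.2 (by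
      rw [hb₀, hJ]; exact (clq_lt q β M μ hq hβ hM0 hμ0 a (hAp a ha)).1)
    have h3 : ∑ a ∈ A, ZH H (mr (-q) a * x) = ∑ k ∈ range J, ∑ a ∈ A.filter (fun a => clq q b₀ μ a = k), ZH H (mr (-q) a * x) :=
      (sum_fiberwise_of_maps_to hmaps _).symm
    have h4 : (A.card : ℝ) = ∑ k ∈ range J, ((A.filter (fun a => clq q b₀ μ a = k)).card : ℝ) := by
      exact_mod_cast card_eq_sum_card_fiberwise (fun a ha => mem_coe.2 (hmaps a (mem_coe.1 ha)))
    have h5 : ∑ k ∈ range J, (((A.filter (fun a => clq q b₀ μ a = k)).card : ℝ) - δ' * A.card) ≤ ∑ a ∈ A, ZH H (mr (-q) a * x) := by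
      rw [h3]
      apply sum_le_sum
      intro k hk
      have := (abs_le.1 (h1 k (mem_range.1 hk))).1
      linarith
    rw [sum_sub_distrib, ← h4, sum_const, card_range, nsmul_eq_mul] at h5
    have h6 : (J : ℝ) * (δ' * A.card) ≤ 1 / 4 * A.card := by
      have e : (J : ℝ) * (δ' * A.card) = (δ * β ^ q / 12) * A.card := by rw [hδ']; field_simp
      rw [e]
      apply mul_le_mul_of_nonneg_right _ hA0.le
      have : δ * β ^ q ≤ 1 * 1 := mul_le_mul hδ1 hβq1 hβq.le zero_le_one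
      linarith
    linarith
  have hxM : M ^ q < x := by
    rw [hMe, ← Real.lt_log_iff_exp_lt hx0]
    linarith
  refine ⟨hxM, ?_⟩
  have hh0 : 0 < h := by linarith
  have hcomp := step2 q β M x h μ δ' hq hβ hM0 hh0 hμ0 hδ'0.le J hJ A hAp (by linarith) (by linarith) hx0 (by
    intro k hk hne
    rw [← hb₀]
    have h1 := hcl (h / Real.exp (q * b₀ + μ * k)) (by
      obtain ⟨a₁, ha₁⟩ := hne
      rw [mem_filter] at ha₁
      have h2 := (clq_lt q β M μ hq hβ hM0 hμ0 a₁ (hAp a₁ ha₁.1)).2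
      rw [ha₁.2, ← hb₀] at h2
      have h3 : Real.log a₁ ≤ Real.log M := Real.log_le_log (by exact_mod_cast (hAp a₁ ha₁.1).1) (hAp a₁ ha₁.1).2.2
      have h4 := mul_le_mul_of_nonneg_left h3 hq.le
      apply div_le_div₀ hh0.le hh1 (Real.exp_pos _)
      have h5 : Real.exp (q * b₀ + μ * k) ≤ M ^ q := by rw [hMe]; exact Real.exp_le_exp.2 (by linarith)
      linarith) (by
      rw [hPe]
      apply div_le_div₀ (by positivity) hh2 (Real.exp_pos _)
      apply Real.exp_le_exp.2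
      have : 0 ≤ μ * k := mul_nonneg hμ0.le (Nat.cast_nonneg k)
      linarith) k hk
    rw [sum_congr rfl (g := fun a : ℕ => ZH (h / Real.exp (q * b₀ + μ * k)) (x / (a : ℝ) ^ q))] at h1
    · exact h1
    · intro a ha
      rw [mr_neg (hAp a (filter_subset _ _ ha)).1]) (by
    intro k hk hne
    rw [← hb₀]
    have hμe : 1 / 2 ≤ Real.exp (-μ) := by
      have := Real.one_sub_le_exp_neg μ
      have h3 : μ ≤ 1 / 2 := by rw [hμ]; linarith
      linarith
    have hμe1 : Real.exp (-μ) ≤ 1 := Real.exp_le_one_iff.2 (by linarith)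
    have h1 := hcl (Real.exp (-μ) * (h / Real.exp (q * b₀ + μ * k))) (by
      obtain ⟨a₁, ha₁⟩ := hne
      rw [mem_filter] at ha₁
      have h2 := (clq_lt q β M μ hq hβ hM0 hμ0 a₁ (hAp a₁ ha₁.1)).2
      rw [ha₁.2, ← hb₀] at h2
      have h3 : Real.log a₁ ≤ Real.log M := Real.log_le_log (by exact_mod_cast (hAp a₁ ha₁.1).1) (hAp a₁ ha₁.1).2.2
      have h4 := mul_le_mul_of_nonneg_left h3 hq.le
      have h5 : Real.exp (q * b₀ + μ * k) ≤ M ^ q := by rw [hMe]; exact Real.exp_le_exp.2 (by linarith)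
      calc h₀ / (2 * M ^ q) = 1 / 2 * (h₀ / M ^ q) := by ring
        _ ≤ Real.exp (-μ) * (h / Real.exp (q * b₀ + μ * k)) := by
          apply mul_le_mul hμe _ (by positivity) (Real.exp_pos _).le
          exact div_le_div₀ hh0.le hh1 (Real.exp_pos _) h5) (by
      have h6 : h / Real.exp (q * b₀ + μ * k) ≤ X ^ (1 - ρ) / (β * M) ^ q := by
        rw [hPe]
        apply div_le_div₀ (by positivity) hh2 (Real.exp_pos _)
        apply Real.exp_le_exp.2
        have : 0 ≤ μ * k := mul_nonneg hμ0.le (Nat.cast_nonneg k)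
        linarith
      have h7 : 0 ≤ h / Real.exp (q * b₀ + μ * k) := div_nonneg hh0.le (Real.exp_pos _).le
      refine le_trans ?_ h6
      calc Real.exp (-μ) * (h / Real.exp (q * b₀ + μ * k)) ≤ 1 * (h / Real.exp (q * b₀ + μ * k)) := mul_le_mul_of_nonneg_right hμe1 h7
        _ = _ := one_mul _) k hk
    rw [sum_congr rfl (g := fun a : ℕ => ZH (Real.exp (-μ) * (h / Real.exp (q * b₀ + μ * k))) (x / (a : ℝ) ^ q))] at h1
    · exact h1
    · intro a ha
      rw [mr_neg (hAp a (filter_subset _ _ ha)).1])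
  refine hcomp.trans ?_
  have hW0 : 0 ≤ h * ∑ a ∈ A, wq q x a := by
    apply mul_nonneg hh0.le
    apply sum_nonneg
    intro a ha
    unfold wq
    have ha0 : (0 : ℝ) < a := by exact_mod_cast (hAp a ha).1
    have haq : 0 < (a : ℝ) ^ q := by positivity
    have h3 : Real.log a ≤ Real.log M := Real.log_le_log ha0 (hAp a ha).2.2
    have h4 := mul_le_mul_of_nonneg_left h3 hq.le
    have h5 : 0 ≤ Real.log (x / (a : ℝ) ^ q) := by
      rw [Real.log_div hx0.ne' haq.ne', Real.log_rpow ha0]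
      linarith
    positivity
  apply mul_le_mul_of_nonneg_right _ hW0
  -- the constants
  have e3 : 3 * μ = δ / 4 := by rw [hμ]; ring
  have k1 : Real.exp (3 * μ) - 1 ≤ δ / 2 := by
    rw [e3]
    have h2 := Real.one_sub_le_exp_neg (δ / 4)
    have h3 := Real.exp_pos (δ / 4)
    have h4 : Real.exp (δ / 4) * (1 - δ / 4) ≤ 1 := by
      calc Real.exp (δ / 4) * (1 - δ / 4) ≤ Real.exp (δ / 4) * Real.exp (-(δ / 4)) := mul_le_mul_of_nonneg_left h2 h3.le
        _ = 1 := by rw [← Real.exp_add, add_neg_cancel, Real.exp_zero]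
    nlinarith
  have k2 : Real.exp (2 * μ) ≤ 3 := by
    have h2 : Real.exp (2 * μ) ≤ Real.exp 1 := Real.exp_le_exp.2 (by rw [hμ]; linarith)
    have h3 := Real.exp_one_lt_d9
    linarith
  have k3 : Real.exp (2 * μ) * (δ' * (J * (2 * (1 / β) ^ q))) ≤ δ / 2 := by
    have e : δ' * (J * (2 * (1 / β) ^ q)) = δ / 6 := by
      rw [hδ', one_div, Real.inv_rpow hβ.le]
      field_simp
      norm_num
    rw [e]
    nlinarith
  linarith

end Pool.Agent.J4H33
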