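import Pool.Agent.J4H33.Uni4
import Pool.Agent.J4H33.KT5
import Pool.Agent.J4H33.Blk6
import Pool.Agent.J4H33.Blk7
import Pool.Agent.J4H33.Cut3

/-!
# Chains of primes with multipliers in sparse sets: the recursion
-/

set_option autoImplicit false

namespace Pool.Agent.J4H33

open Finset Filter
open Pool.Agent.Y851.PT

/-- the number of chains -/
noncomputable def chn : List (Finset ℕ × ℝ) → ℕ → ℝ
  | [], _ => 1
  | (S :: L), n => ∑ a ∈ S.1, ∑ p ∈ PH S.2 ((a : ℝ) * n), chn L p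

/-- the expected number of chains -/
noncomputable def ech (l : ℝ) : List (Finset ℕ × ℝ) → ℝ
  | [] => 1
  | (S :: L) => (S.1.card * (S.2 / l)) * ech l L

theorem chn_nonneg (L : List (Finset ℕ × ℝ)) : ∀ n, 0 ≤ chn L n := by
  induction L with
  | nil => intro n; unfold chn; norm_num
  | cons S L ih =>
    intro n
    unfold chn
    exact sum_nonneg fun a _ => sum_nonneg fun p _ => ih p

theorem ech_nonneg (l : ℝ) (hl : 0 < l) (L : List (Finset ℕ × ℝ)) (hL : ∀ S ∈ L, 0 ≤ S.2) : 0 ≤ ech l L := by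
  induction L with
  | nil => unfold ech; norm_num
  | cons S L ih =>
    unfold ech
    have h1 := ih fun T hT => hL T (List.mem_cons_of_mem _ hT)
    have h2 := hL S List.mem_cons_self
    positivity

/-- the number of primes in a window, trivially -/
theorem PH_card_le {H x : ℝ} (hH : 0 ≤ H) (hx : 0 ≤ x) : ((PH H x).card : ℝ) ≤ H + 1 := by
  classical
  rcases (PH H x).eq_empty_or_nonempty with h0 | h0
  · rw [h0, card_empty, Nat.cast_zero]; linarith
  obtain ⟨m, hm, hmin⟩ := (PH H x).exists_min_image id h0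
  obtain ⟨M, hM, hmax⟩ := (PH H x).exists_max_image id h0
  simp only [id] at hmin hmax
  have hsub : PH H x ⊆ Icc m M := fun p hp => mem_Icc.2 ⟨hmin p hp, hmax p hp⟩
  have h1 := card_le_card hsub
  rw [Nat.card_Icc] at h1
  have hmM := hmin M hM
  rw [mem_PH hx] at hm hM
  have h2 : ((PH H x).card : ℝ) ≤ (M : ℝ) + 1 - m := by
    have h3 : ((PH H x).card : ℝ) ≤ ((M + 1 - m : ℕ) : ℝ) := by exact_mod_cast h1
    rw [Nat.cast_sub (by omega), Nat.cast_add, Nat.cast_one] at h3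
    exact h3
  linarith [hm.2.1, hM.2.2]

/-- the trivial bound -/
theorem chn_le (l : ℝ) (hl : 1 ≤ l) (L : List (Finset ℕ × ℝ)) (hL : ∀ S ∈ L, 1 ≤ S.2) : ∀ n, chn L n ≤ (2 * l) ^ L.length * ech l L := by
  induction L with
  | nil => intro n; unfold chn ech; simp
  | cons S L ih =>
    intro n
    have hl0 : 0 < l := by linarith
    have ih' := ih fun T hT => hL T (List.mem_cons_of_mem _ hT)
    have hS := hL S List.mem_cons_self
    have hE := ech_nonneg l hl0 L fun T hT => by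
      have := hL T (List.mem_cons_of_mem _ hT); linarith
    unfold chn ech
    rw [List.length_cons, pow_succ]
    have hq : 0 ≤ (2 * l) ^ L.length * ech l L := by positivity
    calc ∑ a ∈ S.1, ∑ p ∈ PH S.2 ((a : ℝ) * n), chn L p ≤ ∑ a ∈ S.1, ∑ p ∈ PH S.2 ((a : ℝ) * n), (2 * l) ^ L.length * ech l L :=
          sum_le_sum fun a _ => sum_le_sum fun p _ => ih' p
      _ = ∑ a ∈ S.1, ((PH S.2 ((a : ℝ) * n)).card : ℝ) * ((2 * l) ^ L.length * ech l L) := by
          apply sum_congr rfl; intro a _; rw [sum_const, nsmul_eq_mul]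
      _ ≤ ∑ _a ∈ S.1, (2 * S.2) * ((2 * l) ^ L.length * ech l L) := by
          apply sum_le_sum
          intro a _
          apply mul_le_mul_of_nonneg_right _ hq
          have := PH_card_le (H := S.2) (x := (a : ℝ) * n) (by linarith) (by positivity)
          linarith
      _ = S.1.card * ((2 * S.2) * ((2 * l) ^ L.length * ech l L)) := by rw [sum_const, nsmul_eq_mul]
      _ = (2 * l) ^ L.length * (2 * l) * (S.1.card * (S.2 / l) * ech l L) := by field_simp

/-- backward counting -/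
theorem back_count {H M β : ℝ} (hM : 0 < M) (hβ : 0 < β) (hβ1 : β ≤ 1) (hMH : M ≤ H) {a : ℕ} (ha : β * M ≤ (a : ℝ)) (T : Finset ℕ) (p : ℕ) :
    ((T.filter (fun n : ℕ => p ∈ PH H ((a : ℝ) * n))).card : ℝ) ≤ 2 * H / (β * M) := by
  classical
  have hβM : 0 < β * M := by positivity
  have ha0 : (0 : ℝ) < a := by linarith
  have hH0 : 0 < H := by linarith
  have hone : 1 ≤ H / (β * M) := by
    rw [one_le_div hβM]
    calc β * M ≤ 1 * M := mul_le_mul_of_nonneg_right hβ1 hM.le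
      _ ≤ H := by linarith
  rcases (T.filter (fun n : ℕ => p ∈ PH H ((a : ℝ) * n))).eq_empty_or_nonempty with h0 | h0
  · rw [h0, card_empty, Nat.cast_zero]; positivity
  obtain ⟨m, hm, hmin⟩ := (T.filter (fun n : ℕ => p ∈ PH H ((a : ℝ) * n))).exists_min_image id h0
  obtain ⟨K, hK, hmax⟩ := (T.filter (fun n : ℕ => p ∈ PH H ((a : ℝ) * n))).exists_max_image id h0
  simp only [id] at hmin hmax
  have hsub : T.filter (fun n : ℕ => p ∈ PH H ((a : ℝ) * n)) ⊆ Icc m K := fun n hn => mem_Icc.2 ⟨hmin n hn, hmax n hn⟩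
  have h1 := card_le_card hsub
  rw [Nat.card_Icc] at h1
  have hmK := hmin K hK
  rw [mem_filter, mem_PH (by positivity)] at hm hK
  have h2 : ((T.filter (fun n : ℕ => p ∈ PH H ((a : ℝ) * n))).card : ℝ) ≤ (K : ℝ) + 1 - m := by
    have h3 : ((T.filter (fun n : ℕ => p ∈ PH H ((a : ℝ) * n))).card : ℝ) ≤ ((K + 1 - m : ℕ) : ℝ) := by exact_mod_cast h1
    rw [Nat.cast_sub (by omega), Nat.cast_add, Nat.cast_one] at h3
    exact h3
  have h3 : (a : ℝ) * (K - m) ≤ H := by linarith [hm.2.2.1, hm.2.2.2, hK.2.2.1, hK.2.2.2]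
  have h4 : (K : ℝ) - m ≤ H / (β * M) := by
    rw [le_div_iff₀ hβM]
    have h5 : (0 : ℝ) ≤ (K : ℝ) - m := by
      have : (m : ℝ) ≤ K := by exact_mod_cast hmK
      linarith
    nlinarith
  have e : 2 * H / (β * M) = 2 * (H / (β * M)) := by ring
  rw [e]
  linarith

/-- a good step -/
def Stp (l δ₂ η₀ N : ℝ) (S : Finset ℕ × ℝ) : Prop :=
  ∃ Bad : Finset ℕ, (Bad.card : ℝ) ≤ η₀ * N ∧ ∀ n ∈ Icc 1 ⌊N⌋₊, n ∉ Bad →
    |∑ a ∈ S.1, ((PH S.2 ((a : ℝ) * n)).card : ℝ) - S.1.card * (S.2 / l)| ≤ δ₂ * (S.1.card * (S.2 / l))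

/-- good steps -/
def Stps (l δ₂ η₀ M : ℝ) : ℝ → List (Finset ℕ × ℝ) → Prop
  | _, [] => True
  | N, (S :: L) => Stp l δ₂ η₀ N S ∧ Stps l δ₂ η₀ M (N * M) L

/-- the mean of the excess -/
theorem chn_L1 (l δ₂ η₀ M β : ℝ) (hl : 1 ≤ l) (hδ₂ : 0 ≤ δ₂) (hη₀ : 0 ≤ η₀) (hM : 1 ≤ M) (hβ : 0 < β) (hβ1 : β ≤ 1)
    (L : List (Finset ℕ × ℝ)) (hL : ∀ S ∈ L, (∀ a ∈ S.1, β * M ≤ (a : ℝ) ∧ (a : ℝ) ≤ M) ∧ M ≤ S.2) :
    ∀ N : ℝ, 0 ≤ N → Stps l δ₂ η₀ M N L →
    ∑ n ∈ Icc 1 ⌊N⌋₊, max 0 (|chn L n - ech l L| - ((1 + δ₂) ^ L.length - 1) * ech l L) ≤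
      (2 * η₀ * L.length * (2 * l / β) ^ L.length) * (N * ech l L) := by
  classical
  have hl0 : 0 < l := by linarith
  have hM0 : 0 < M := by linarith
  induction L with
  | nil =>
    intro N hN _
    unfold chn ech
    simp
  | cons S L ih =>
    intro N hN hSt
    obtain ⟨⟨Bad, hBad1, hBad2⟩, hSt2⟩ := hSt
    have hLL : ∀ T ∈ L, (∀ a ∈ T.1, β * M ≤ (a : ℝ) ∧ (a : ℝ) ≤ M) ∧ M ≤ T.2 := fun T hT => hL T (List.mem_cons_of_mem _ hT)
    obtain ⟨hSa, hSH⟩ := hL S List.mem_cons_self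
    have hind := ih hLL (N * M) (by positivity) hSt2
    obtain ⟨H, hH⟩ : ∃ H, H = S.2 := ⟨_, rfl⟩
    obtain ⟨A, hA⟩ : ∃ A, A = S.1 := ⟨_, rfl⟩
    rw [← hH] at hSH hBad2
    rw [← hA] at hSa hBad2
    have hH0 : 0 < H := by linarith
    obtain ⟨E, hE⟩ : ∃ E, E = ech l L := ⟨_, rfl⟩
    have hE0 : 0 ≤ E := by rw [hE]; exact ech_nonneg l hl0 L fun T hT => by have := (hLL T hT).2; linarith
    obtain ⟨F, hF⟩ : ∃ F : ℝ, F = A.card * (H / l) := ⟨_, rfl⟩
    have hF0 : 0 ≤ F := by rw [hF]; positivity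
    have hEF : ech l (S :: L) = F * E := by rw [hF, hE, hA, hH]; rfl
    obtain ⟨g, hg⟩ : ∃ g : ℕ → ℝ, g = fun p => max 0 (|chn L p - E| - ((1 + δ₂) ^ L.length - 1) * E) := ⟨_, rfl⟩
    have hg0 : ∀ p, 0 ≤ g p := fun p => by rw [hg]; exact le_max_left _ _
    rw [← hE] at hind
    have hind' : ∑ n ∈ Icc 1 ⌊N * M⌋₊, g n ≤ (2 * η₀ * L.length * (2 * l / β) ^ L.length) * (N * M * E) := by rw [hg]; exact hind
    obtain ⟨B, hB⟩ : ∃ B : ℕ → ℝ, B = fun n : ℕ => ∑ a ∈ A, ∑ p ∈ PH H ((a : ℝ) * n), g p := ⟨_, rfl⟩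
    have hB0 : ∀ n, 0 ≤ B n := fun n => by rw [hB]; exact sum_nonneg fun a _ => sum_nonneg fun p _ => hg0 p
    have hchn : ∀ n, chn (S :: L) n = ∑ a ∈ A, ∑ p ∈ PH H ((a : ℝ) * n), chn L p := fun n => by rw [hA, hH]; rfl
    have hpw1 : 1 ≤ (1 + δ₂) ^ L.length := one_le_pow₀ (by linarith)
    obtain ⟨dL, hdL⟩ : ∃ dL, dL = (1 + δ₂) ^ L.length - 1 := ⟨_, rfl⟩
    have hdL0 : 0 ≤ dL := by rw [hdL]; linarith
    have hpow : (1 + δ₂) ^ (S :: L).length - 1 = dL * (1 + δ₂) + δ₂ := by rw [List.length_cons, pow_succ, hdL]; ring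
    have htriv : ∀ n, chn (S :: L) n ≤ (2 * l) ^ (L.length + 1) * (F * E) := fun n => by
      have := chn_le l hl (S :: L) (fun T hT => by have := (hL T hT).2; linarith) n
      rw [hEF, List.length_cons] at this
      exact this
    -- pointwise bound
    have hpt : ∀ n ∈ Icc 1 ⌊N⌋₊, max 0 (|chn (S :: L) n - ech l (S :: L)| - ((1 + δ₂) ^ (S :: L).length - 1) * ech l (S :: L)) ≤
        B n + (if n ∈ Bad then 2 * ((2 * l) ^ (L.length + 1) * (F * E)) else 0) := by
      intro n hn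
      rw [hEF, hpow]
      by_cases hnb : n ∈ Bad
      · rw [if_pos hnb]
        have h1 := htriv n
        have h2 := chn_nonneg (S :: L) n
        have h3 : F * E ≤ (2 * l) ^ (L.length + 1) * (F * E) := by
          have : 1 ≤ (2 * l) ^ (L.length + 1) := one_le_pow₀ (by linarith)
          calc F * E = 1 * (F * E) := (one_mul _).symm
            _ ≤ _ := mul_le_mul_of_nonneg_right this (by positivity)
        have h4 : |chn (S :: L) n - F * E| ≤ 2 * ((2 * l) ^ (L.length + 1) * (F * E)) := by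
          have : 0 ≤ F * E := by positivity
          rw [abs_le]; constructor <;> linarith
        have h5 : 0 ≤ (dL * (1 + δ₂) + δ₂) * (F * E) := by positivity
        have h6 := hB0 n
        apply max_le
        · have h7 := abs_nonneg (chn (S :: L) n - F * E)
          linarith
        · linarith
      · rw [if_neg hnb, add_zero]
        have h1 := hBad2 n hn hnb
        rw [← hF] at h1
        apply max_le (hB0 n)
        obtain ⟨c, hc⟩ : ∃ c : ℝ, c = ∑ a ∈ A, ((PH H ((a : ℝ) * n)).card : ℝ) := ⟨_, rfl⟩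
        rw [← hc] at h1
        have hcF := (abs_le.1 h1).2
        have h2 : chn (S :: L) n - F * E = ∑ a ∈ A, ∑ p ∈ PH H ((a : ℝ) * n), (chn L p - E) + (c - F) * E := by
          rw [hchn, hc]
          simp_rw [sum_sub_distrib, sum_const, nsmul_eq_mul]
          rw [← sum_mul]
          ring
        have h3 : |∑ a ∈ A, ∑ p ∈ PH H ((a : ℝ) * n), (chn L p - E)| ≤ B n + dL * (c * E) := by
          calc |∑ a ∈ A, ∑ p ∈ PH H ((a : ℝ) * n), (chn L p - E)| ≤ ∑ a ∈ A, ∑ p ∈ PH H ((a : ℝ) * n), |chn L p - E| :=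
                (abs_sum_le_sum_abs _ _).trans (sum_le_sum fun a _ => abs_sum_le_sum_abs _ _)
            _ ≤ ∑ a ∈ A, ∑ p ∈ PH H ((a : ℝ) * n), (g p + dL * E) := by
                apply sum_le_sum; intro a _; apply sum_le_sum; intro p _
                have := le_max_right 0 (|chn L p - E| - ((1 + δ₂) ^ L.length - 1) * E)
                rw [hg, hdL]
                simp only
                linarith
            _ = B n + dL * (c * E) := by
                rw [hB, hc]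
                simp_rw [sum_add_distrib, sum_const, nsmul_eq_mul]
                rw [← sum_mul]
                ring
        have h4 : |chn (S :: L) n - F * E| ≤ B n + dL * (c * E) + (δ₂ * F) * E := by
          rw [h2]
          refine (abs_add_le _ _).trans (add_le_add h3 ?_)
          rw [abs_mul, abs_of_nonneg hE0]
          exact mul_le_mul_of_nonneg_right h1 hE0
        have h5 : dL * (c * E) ≤ dL * (((1 + δ₂) * F) * E) := by
          apply mul_le_mul_of_nonneg_left _ hdL0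
          apply mul_le_mul_of_nonneg_right _ hE0
          linarith
        have e : (dL * (1 + δ₂) + δ₂) * (F * E) = dL * (((1 + δ₂) * F) * E) + (δ₂ * F) * E := by ring
        rw [e]
        linarith
    -- summation of `B`
    have hBsum : ∑ n ∈ Icc 1 ⌊N⌋₊, B n ≤ (2 * l / β) * (2 * η₀ * L.length * (2 * l / β) ^ L.length) * (N * (F * E)) := by
      have hexch : ∑ n ∈ Icc 1 ⌊N⌋₊, B n ≤ ∑ a ∈ A, ∑ p ∈ Icc 1 ⌊N * M⌋₊, g p * (2 * H / (β * M)) := by
        rw [hB, sum_comm]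
        apply sum_le_sum
        intro a ha
        obtain ⟨ha1, ha2⟩ := hSa a ha
        have hsub : ∀ n ∈ Icc 1 ⌊N⌋₊, PH H ((a : ℝ) * n) ⊆ Icc 1 ⌊N * M⌋₊ := by
          intro n hn p hp
          rw [mem_Icc] at hn
          have hnN : (n : ℝ) ≤ N := (Nat.le_floor_iff hN).1 hn.2
          rw [mem_PH (by positivity)] at hp
          rw [mem_Icc]
          refine ⟨hp.1.one_lt.le, Nat.le_floor ?_⟩
          have h1 : (a : ℝ) * n ≤ M * N := mul_le_mul ha2 hnN (Nat.cast_nonneg _) (by linarith)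
          linarith [hp.2.2]
        calc ∑ n ∈ Icc 1 ⌊N⌋₊, ∑ p ∈ PH H ((a : ℝ) * n), g p = ∑ n ∈ Icc 1 ⌊N⌋₊, ∑ p ∈ Icc 1 ⌊N * M⌋₊, (if p ∈ PH H ((a : ℝ) * n) then g p else 0) := by
              apply sum_congr rfl
              intro n hn
              rw [← sum_filter, filter_mem_eq_inter, inter_eq_right.2 (hsub n hn)]
          _ = ∑ p ∈ Icc 1 ⌊N * M⌋₊, ∑ n ∈ Icc 1 ⌊N⌋₊, (if p ∈ PH H ((a : ℝ) * n) then g p else 0) := sum_comm
          _ = ∑ p ∈ Icc 1 ⌊N * M⌋₊, g p * (((Icc 1 ⌊N⌋₊).filter (fun n : ℕ => p ∈ PH H ((a : ℝ) * n))).card : ℝ) := by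
              apply sum_congr rfl
              intro p _
              rw [← sum_filter, sum_const, nsmul_eq_mul, mul_comm]
          _ ≤ _ := by
              apply sum_le_sum
              intro p _
              exact mul_le_mul_of_nonneg_left (back_count hM0 hβ hβ1 hSH ha1 _ p) (hg0 p)
      refine hexch.trans ?_
      rw [sum_const, nsmul_eq_mul, ← sum_mul]
      calc (A.card : ℝ) * ((∑ p ∈ Icc 1 ⌊N * M⌋₊, g p) * (2 * H / (β * M)))
          ≤ A.card * (((2 * η₀ * L.length * (2 * l / β) ^ L.length) * (N * M * E)) * (2 * H / (β * M))) := by gcongr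
        _ = _ := by rw [hF]; field_simp
    calc ∑ n ∈ Icc 1 ⌊N⌋₊, max 0 (|chn (S :: L) n - ech l (S :: L)| - ((1 + δ₂) ^ (S :: L).length - 1) * ech l (S :: L))
        ≤ ∑ n ∈ Icc 1 ⌊N⌋₊, (B n + (if n ∈ Bad then 2 * ((2 * l) ^ (L.length + 1) * (F * E)) else 0)) := sum_le_sum hpt
      _ = ∑ n ∈ Icc 1 ⌊N⌋₊, B n + (((Icc 1 ⌊N⌋₊).filter (fun n => n ∈ Bad)).card : ℝ) * (2 * ((2 * l) ^ (L.length + 1) * (F * E))) := by
          rw [sum_add_distrib, ← sum_filter, sum_const, nsmul_eq_mul]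
      _ ≤ (2 * l / β) * (2 * η₀ * L.length * (2 * l / β) ^ L.length) * (N * (F * E)) + (η₀ * N) * (2 * ((2 * l / β) ^ (L.length + 1) * (F * E))) := by
          apply add_le_add hBsum
          have h1 : (((Icc 1 ⌊N⌋₊).filter (fun n => n ∈ Bad)).card : ℝ) ≤ Bad.card := by
            exact_mod_cast card_le_card (fun n hn => (mem_filter.1 hn).2)
          have h2 : (2 * l) ^ (L.length + 1) ≤ (2 * l / β) ^ (L.length + 1) := by
            apply pow_le_pow_left₀ (by positivity)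
            rw [le_div_iff₀ hβ]
            have : 2 * l * β ≤ 2 * l * 1 := mul_le_mul_of_nonneg_left hβ1 (by positivity)
            linarith
          apply mul_le_mul (h1.trans hBad1) _ (by positivity) (by positivity)
          gcongr
      _ = _ := by
          rw [hEF, List.length_cons]
          push_cast
          ring

end Pool.Agent.J4H33
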