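import Pool.Agent.J4H33.H1

/-!
# Chains of primes with multipliers in sparse sets
-/

set_option autoImplicit false

namespace Pool.Agent.J4H33

open Finset Filter
open Pool.Agent.Y851.PT

/-- the conditions on a step -/
structure Adms (β ε ρ N M : ℝ) (S : Finset ℕ × ℝ) : Prop where
  prime : ∀ a ∈ S.1, a.Prime ∧ β * M ≤ (a : ℝ) ∧ (a : ℝ) ≤ M
  card : M ^ (1 - ε) ≤ (S.1.card : ℝ)
  ge : M ≤ S.2
  le : S.2 ≤ N ^ (1 - ρ)

theorem step_good (k : ℕ) (γ ε ρ β δ₂ : ℝ) (hγ : 0 < γ) (hε : 0 < ε) (hcond : γ + ε < 1 / 3) (hρ : 0 < ρ) (hβ : 0 < β) (hβ1 : β ≤ 1)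
    (hδ₂ : 0 < δ₂) (hδ₂1 : δ₂ ≤ 1) :
    ∃ t N₀ : ℝ, 0 < t ∧ ∀ N : ℝ, N₀ ≤ N → ∀ M D : ℝ, 1 ≤ D → 0 < M → 2 * D * Real.log N ≤ M ^ γ → (Real.log N) ^ 2 ≤ M ^ γ → M ≤ N ^ t →
      ∀ Nx : ℝ, N ≤ Nx → Nx * M ≤ N ^ (1 + k * t) → ∀ S : Finset ℕ × ℝ, Adms β ε ρ N M S → Stp (Real.log N) δ₂ (3 / D) Nx S := by
  classical
  obtain ⟨x₀, hx₀⟩ : ∃ x₀, x₀ = δ₂ / 4 := ⟨_, rfl⟩
  have hx₀0 : 0 < x₀ := by rw [hx₀]; positivity
  have hx₀1 : x₀ ≤ 1 / 4 := by rw [hx₀]; linarith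
  obtain ⟨θ₁, hθ₁⟩ : ∃ θ₁, θ₁ = min (1 / 2) ((1 / 3 - γ - ε) / (2 * ε)) := ⟨_, rfl⟩
  have hθ₁0 : 0 < θ₁ := by
    rw [hθ₁]
    apply lt_min (by norm_num)
    apply div_pos (by linarith) (by positivity)
  have hθ₁1 : θ₁ ≤ 1 / 2 := by rw [hθ₁]; exact min_le_left _ _
  have hθ₁ε : θ₁ * ε ≤ (1 / 3 - γ - ε) / 2 := by
    have h1 : θ₁ ≤ (1 / 3 - γ - ε) / (2 * ε) := by rw [hθ₁]; exact min_le_right _ _
    calc θ₁ * ε ≤ (1 / 3 - γ - ε) / (2 * ε) * ε := mul_le_mul_of_nonneg_right h1 hε.le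
      _ = _ := by field_simp
  have hcond2 : γ + (1 + θ₁) * ε < 1 / 3 := by linarith
  obtain ⟨c, hc1, hc2⟩ := exists_between hcond2
  have hKLT := klt c hc2
  have hPCR : PCR c := by
    apply cutR
    intro τ δ hτ hτ1 hδ hδ1
    apply blockH5 c τ δ _ hδ hδ1
    exact block5 c τ (δ / 4) hKLT hτ hτ1 (by positivity) (by linarith)
  obtain ⟨ρ₁, hρ₁⟩ : ∃ ρ₁, ρ₁ = min ρ (1 - θ₁) := ⟨_, rfl⟩
  have hρ₁0 : 0 < ρ₁ := by rw [hρ₁]; exact lt_min hρ (by linarith)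
  have hρ₁1 : ρ₁ ≤ ρ := by rw [hρ₁]; exact min_le_left _ _
  have hρ₁2 : ρ₁ ≤ 1 - θ₁ := by rw [hρ₁]; exact min_le_right _ _
  obtain ⟨s, H₁, hs, hH₁, hU⟩ := unifR c γ ε 1 ρ₁ θ₁ β x₀ hPCR (by linarith) hε hγ hθ₁0.le (by linarith) hc1
    one_pos le_rfl hρ₁0 (by linarith) hβ hβ1 hx₀0 (by linarith)
  obtain ⟨Z₀, hZ₀⟩ := eventually_atTop.1 (hU.and (eventually_ge_atTop 3))
  obtain ⟨t, ht⟩ : ∃ t, t = min (min θ₁ (x₀ / (k + 1))) (min s x₀) := ⟨_, rfl⟩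
  have hk0 : (0 : ℝ) < k + 1 := by positivity
  have ht0 : 0 < t := by rw [ht]; exact lt_min (lt_min hθ₁0 (by positivity)) (lt_min hs hx₀0)
  have ht1 : t ≤ θ₁ := by rw [ht]; exact (min_le_left _ _).trans (min_le_left _ _)
  have ht2 : t ≤ x₀ / (k + 1) := by rw [ht]; exact (min_le_left _ _).trans (min_le_right _ _)
  have ht3 : t ≤ s := by rw [ht]; exact (min_le_right _ _).trans (min_le_left _ _)
  have ht4 : t ≤ x₀ := by rw [ht]; exact (min_le_right _ _).trans (min_le_right _ _)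
  have hkt : (k : ℝ) * t ≤ x₀ := by
    rw [le_div_iff₀ hk0] at ht2
    nlinarith
  obtain ⟨N₀, hN₀⟩ := eventually_atTop.1 ((Real.tendsto_log_atTop.eventually_ge_atTop (max H₁ 2)).and (eventually_ge_atTop (max Z₀ 3)))
  refine ⟨t, N₀, ht0, fun N hN M D hD1 hM0 hMD hMl hMN Nx hNx hNxM S hS => ?_⟩
  obtain ⟨g1, g2⟩ := hN₀ N hN
  have g1a := (le_max_left _ _).trans g1
  have g1b := (le_max_right _ _).trans g1
  have g2a := (le_max_left _ _).trans g2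
  have g2b := (le_max_right _ _).trans g2
  have hN0 : 0 < N := by linarith
  have hN1 : 1 < N := by linarith
  obtain ⟨l, hl⟩ : ∃ l, l = Real.log N := ⟨_, rfl⟩
  rw [← hl] at hMD hMl g1a g1b ⊢
  have hl0 : 0 < l := by linarith
  have hD0 : 0 < D := by linarith
  have hl2 : 2 * l ≤ l ^ 2 := by nlinarith
  have hMγ1 : 1 ≤ M ^ γ := by nlinarith
  have hM1 : 1 ≤ M := by
    by_contra hcon
    push Not at hcon
    have := Real.rpow_lt_one hM0.le hcon hγ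
    linarith
  have hMM : M ^ γ ≤ M := by
    calc M ^ γ ≤ M ^ (1 : ℝ) := Real.rpow_le_rpow_of_exponent_le hM1 (by linarith)
      _ = M := Real.rpow_one M
  have hM2l : 2 * l ≤ M := by linarith
  have hDN : D ≤ N ^ t := by
    have h1 : D ≤ M ^ γ := by nlinarith
    exact h1.trans (hMM.trans hMN)
  obtain ⟨Z, hZ⟩ : ∃ Z, Z = Nx * M := ⟨_, rfl⟩
  rw [← hZ] at hNxM
  have hNx0 : 0 < Nx := by linarith
  have hNZ : N ≤ Z := by
    rw [hZ]
    calc N ≤ Nx := hNx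
      _ = Nx * 1 := (mul_one _).symm
      _ ≤ Nx * M := mul_le_mul_of_nonneg_left hM1 hNx0.le
  have hZ0 : 0 < Z := by linarith
  have hZ1 : 1 < Z := by linarith
  obtain ⟨h1, -⟩ := hZ₀ Z (g2a.trans hNZ)
  have hlogZ : 0 < Real.log Z := Real.log_pos hZ1
  have hlogZ1 : l ≤ Real.log Z := by rw [hl]; exact Real.log_le_log hN0 hNZ
  have hlogZ2 : Real.log Z ≤ (1 + x₀) * l := by
    have := Real.log_le_log hZ0 hNxM
    rw [Real.log_rpow hN0, ← hl] at this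
    refine this.trans ?_
    apply mul_le_mul_of_nonneg_right _ hl0.le
    linarith
  have hlogZ3 : Real.log Z ≤ 2 * l := by nlinarith
  obtain ⟨θ, hθ⟩ : ∃ θ, θ = Real.log M / Real.log Z := ⟨_, rfl⟩
  have hZM : Z ^ θ = M := by
    rw [Real.rpow_def_of_pos hZ0, hθ, mul_div_cancel₀ _ hlogZ.ne', Real.exp_log hM0]
  have hZM' : Z ^ (1 - θ) = Nx := by
    rw [Real.rpow_sub hZ0, Real.rpow_one, hZM, hZ]; field_simp
  have hNtZ : ∀ e : ℝ, 0 ≤ e → N ^ e ≤ Z ^ e := fun e he => Real.rpow_le_rpow hN0.le hNZ he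
  have hθ1 : θ ≤ θ₁ := by
    have h2 : Z ^ θ ≤ Z ^ θ₁ := by
      rw [hZM]
      exact hMN.trans ((Real.rpow_le_rpow_of_exponent_le hN1.le ht1).trans (hNtZ _ hθ₁0.le))
    exact (Real.rpow_le_rpow_left_iff hZ1).1 h2
  obtain ⟨U, hU1, hU2⟩ := h1 D hD1 (hDN.trans ((Real.rpow_le_rpow_of_exponent_le hN1.le ht3).trans (hNtZ _ hs.le))) 1 le_rfl (by linarith) M (by linarith)
    (by linarith) (hMN.trans ((Real.rpow_le_rpow_of_exponent_le hN1.le (by linarith)).trans (hNtZ _ (by linarith)))) θ (by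
      rw [hZM]
      calc D * 1 * Real.log Z ≤ D * 1 * (2 * l) := by gcongr
        _ = 2 * D * l := by ring
        _ ≤ M ^ γ := hMD) hθ1 S.1 ⟨fun a ha => (hS.prime a ha).1, fun a ha => by rw [hZM]; exact (hS.prime a ha).2.1,
        fun a ha => by rw [hZM]; exact (hS.prime a ha).2.2, by rw [hZM]; exact hS.card⟩
  rw [hZM, hZM', div_self hM0.ne'] at hU2
  -- the bad integers
  refine ⟨U.biUnion (fun u => {⌈u⌉₊, ⌈u⌉₊ + 1}) ∪ Icc 1 ⌊N ^ (1 - x₀)⌋₊, ?_, ?_⟩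
  · have h2 : ((U.biUnion (fun u => ({⌈u⌉₊, ⌈u⌉₊ + 1} : Finset ℕ)) ∪ Icc 1 ⌊N ^ (1 - x₀)⌋₊).card : ℝ) ≤ 2 * U.card + N ^ (1 - x₀) := by
      have a1 := card_union_le (U.biUnion (fun u => ({⌈u⌉₊, ⌈u⌉₊ + 1} : Finset ℕ))) (Icc 1 ⌊N ^ (1 - x₀)⌋₊)
      have a2 : (U.biUnion (fun u => ({⌈u⌉₊, ⌈u⌉₊ + 1} : Finset ℕ))).card ≤ 2 * U.card := by
        refine (card_biUnion_le).trans ?_
        calc ∑ u ∈ U, ({⌈u⌉₊, ⌈u⌉₊ + 1} : Finset ℕ).card ≤ ∑ _u ∈ U, 2 := sum_le_sum fun u _ => card_le_two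
          _ = 2 * U.card := by rw [sum_const, smul_eq_mul, mul_comm]
      have a3 : (Icc 1 ⌊N ^ (1 - x₀)⌋₊).card = ⌊N ^ (1 - x₀)⌋₊ := by rw [Nat.card_Icc]; omega
      have a4 : (⌊N ^ (1 - x₀)⌋₊ : ℝ) ≤ N ^ (1 - x₀) := Nat.floor_le (by positivity)
      have a5 : ((U.biUnion (fun u => ({⌈u⌉₊, ⌈u⌉₊ + 1} : Finset ℕ)) ∪ Icc 1 ⌊N ^ (1 - x₀)⌋₊).card : ℝ) ≤ ((2 * U.card + ⌊N ^ (1 - x₀)⌋₊ : ℕ) : ℝ) := by
        exact_mod_cast (by omega : (U.biUnion (fun u => ({⌈u⌉₊, ⌈u⌉₊ + 1} : Finset ℕ)) ∪ Icc 1 ⌊N ^ (1 - x₀)⌋₊).card ≤ 2 * U.card + ⌊N ^ (1 - x₀)⌋₊)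
      push_cast at a5
      linarith
    refine h2.trans ?_
    have h3 : (U.card : ℝ) ≤ Nx / D := by
      have e : Z / (M * D) = Nx / D := by rw [hZ]; field_simp
      rw [e] at hU1
      have h4 : 0 ≤ Nx / D := by positivity
      nlinarith
    have h5 : N ^ (1 - x₀) ≤ Nx / D := by
      rw [le_div_iff₀ hD0]
      calc N ^ (1 - x₀) * D ≤ N ^ (1 - x₀) * N ^ x₀ := by
            apply mul_le_mul_of_nonneg_left _ (by positivity)
            exact hDN.trans (Real.rpow_le_rpow_of_exponent_le hN1.le ht4)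
        _ = N := by
          rw [← Real.rpow_add hN0]
          have : 1 - x₀ + x₀ = 1 := by ring
          rw [this, Real.rpow_one]
        _ ≤ Nx := hNx
    have e : 3 / D * Nx = 2 * (Nx / D) + Nx / D := by ring
    rw [e]
    linarith
  · intro n hn hnb
    rw [mem_Icc] at hn
    rw [mem_union, not_or, mem_biUnion, mem_Icc] at hnb
    obtain ⟨hb1, hb2⟩ := hnb
    have hn0 : (0 : ℝ) < n := by exact_mod_cast (by omega : 0 < n)
    have hnNx : (n : ℝ) ≤ Nx := (Nat.le_floor_iff hNx0.le).1 hn.2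
    have hnbig : N ^ (1 - x₀) < n := by
      have h2 : ⌊N ^ (1 - x₀)⌋₊ < n := by
        by_contra hcon
        exact hb2 ⟨hn.1, by omega⟩
      exact (Nat.floor_lt (by positivity)).1 h2
    have hgood := hU2 n hn0 hnNx (by
      intro u hu hcon
      apply hb1
      refine ⟨u, hu, ?_⟩
      rw [mem_insert, mem_singleton]
      have h2 : ⌈u⌉₊ ≤ n := Nat.ceil_le.2 hcon.1
      have h3 : n ≤ ⌈u⌉₊ + 1 := by
        have h4 := Nat.le_ceil u
        have h5 : (n : ℝ) ≤ (⌈u⌉₊ : ℝ) + 1 := by linarith [hcon.2]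
        exact_mod_cast h5
      omega) S.2 hS.ge (hS.le.trans ((Real.rpow_le_rpow_of_exponent_le hN1.le (by linarith)).trans (hNtZ _ (by linarith))))
    obtain ⟨H, hH⟩ : ∃ H, H = S.2 := ⟨_, rfl⟩
    obtain ⟨A, hA⟩ : ∃ A, A = S.1 := ⟨_, rfl⟩
    have hH0 : 0 < H := by rw [hH]; linarith [hS.ge]
    rw [← hH, ← hA] at hgood ⊢
    have hA0 : (0 : ℝ) ≤ A.card := Nat.cast_nonneg _
    obtain ⟨c', hc'⟩ : ∃ c' : ℝ, c' = ∑ a ∈ A, ((PH H ((a : ℝ) * n)).card : ℝ) := ⟨_, rfl⟩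
    rw [← hc']
    have hc'0 : 0 ≤ c' := by rw [hc']; exact sum_nonneg fun _ _ => Nat.cast_nonneg _
    have hlogb : ∀ a ∈ A, (1 - x₀) * l ≤ Real.log ((a : ℝ) * n) ∧ Real.log ((a : ℝ) * n) ≤ (1 + x₀) * l := by
      intro a ha
      rw [hA] at ha
      obtain ⟨a1, a2, a3⟩ := hS.prime a ha
      have ha1 : (1 : ℝ) ≤ a := by exact_mod_cast a1.one_lt.le
      constructor
      · have h2 : N ^ (1 - x₀) ≤ (a : ℝ) * n := by nlinarith
        have h3 := Real.log_le_log (by positivity) h2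
        rwa [Real.log_rpow hN0, ← hl] at h3
      · refine le_trans ?_ hlogZ2
        apply Real.log_le_log (by positivity)
        rw [hZ, mul_comm Nx]
        exact mul_le_mul a3 hnNx hn0.le (by linarith)
    have hup : (1 - x₀) * l / H * c' ≤ ∑ a ∈ A, ZH H ((a : ℝ) * n) := by
      rw [hc', mul_sum]
      apply sum_le_sum
      intro a ha
      unfold ZH
      have := (hlogb a ha).1
      calc (1 - x₀) * l / H * ((PH H ((a : ℝ) * n)).card : ℝ) = ((PH H ((a : ℝ) * n)).card : ℝ) * ((1 - x₀) * l) / H := by ring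
        _ ≤ _ := by gcongr
    have hlo : ∑ a ∈ A, ZH H ((a : ℝ) * n) ≤ (1 + x₀) * l / H * c' := by
      rw [hc', mul_sum]
      apply sum_le_sum
      intro a ha
      unfold ZH
      have := (hlogb a ha).2
      calc ((PH H ((a : ℝ) * n)).card : ℝ) * Real.log ((a : ℝ) * n) / H ≤ ((PH H ((a : ℝ) * n)).card : ℝ) * ((1 + x₀) * l) / H := by gcongr
        _ = _ := by ring
    obtain ⟨r1, r2⟩ := abs_le.1 hgood
    have q1 : (1 - x₀) * (c' * (l / H)) ≤ (1 + x₀) * A.card := by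
      have e : (1 - x₀) * l / H * c' = (1 - x₀) * (c' * (l / H)) := by ring
      rw [e] at hup; linarith
    have q2 : (1 - x₀) * A.card ≤ (1 + x₀) * (c' * (l / H)) := by
      have e : (1 + x₀) * l / H * c' = (1 + x₀) * (c' * (l / H)) := by ring
      rw [e] at hlo; linarith
    have hv0 : 0 ≤ c' * (l / H) := by positivity
    have q3 : c' * (l / H) ≤ (1 + 4 * x₀) * A.card := by
      by_contra hcon
      push Not at hcon
      have h2 : (1 - x₀) * ((1 + 4 * x₀) * A.card) < (1 - x₀) * (c' * (l / H)) := mul_lt_mul_of_pos_left hcon (by linarith)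
      have h3 : (1 + x₀) * (A.card : ℝ) ≤ (1 - x₀) * ((1 + 4 * x₀) * A.card) := by
        have : (1 + x₀) ≤ (1 - x₀) * (1 + 4 * x₀) := by nlinarith
        calc (1 + x₀) * (A.card : ℝ) ≤ ((1 - x₀) * (1 + 4 * x₀)) * A.card := mul_le_mul_of_nonneg_right this hA0
          _ = _ := by ring
      linarith
    have q4 : (1 - 4 * x₀) * A.card ≤ c' * (l / H) := by
      by_contra hcon
      push Not at hcon
      have h2 : (1 + x₀) * (c' * (l / H)) < (1 + x₀) * ((1 - 4 * x₀) * A.card) := mul_lt_mul_of_pos_left hcon (by linarith)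
      have h3 : (1 + x₀) * ((1 - 4 * x₀) * A.card) ≤ (1 - x₀) * (A.card : ℝ) := by
        have : (1 + x₀) * (1 - 4 * x₀) ≤ (1 - x₀) := by nlinarith
        calc (1 + x₀) * ((1 - 4 * x₀) * A.card) = ((1 + x₀) * (1 - 4 * x₀)) * A.card := by ring
          _ ≤ _ := mul_le_mul_of_nonneg_right this hA0
      linarith
    have e4 : 4 * x₀ = δ₂ := by rw [hx₀]; ring
    rw [e4] at q3 q4
    have ec : c' = c' * (l / H) * (H / l) := by field_simp
    have hHl : 0 < H / l := by positivity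
    rw [abs_le]
    constructor
    · have := mul_le_mul_of_nonneg_right q4 hHl.le
      rw [← ec] at this
      linarith
    · have := mul_le_mul_of_nonneg_right q3 hHl.le
      rw [← ec] at this
      linarith

theorem stps_of (l δ₂ η₀ M N : ℝ) (k : ℕ) (P : Finset ℕ × ℝ → Prop)
    (h : ∀ i : ℕ, i < k → ∀ S, P S → Stp l δ₂ η₀ (N * M ^ i) S) (L : List (Finset ℕ × ℝ)) :
    ∀ i : ℕ, i + L.length ≤ k → (∀ S ∈ L, P S) → Stps l δ₂ η₀ M (N * M ^ i) L := by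
  induction L with
  | nil => intro i _ _; unfold Stps; trivial
  | cons S L ih =>
    intro i hi hL
    rw [List.length_cons] at hi
    unfold Stps
    refine ⟨h i (by omega) S (hL S List.mem_cons_self), ?_⟩
    have e : N * M ^ i * M = N * M ^ (i + 1) := by ring
    rw [e]
    exact ih (i + 1) (by omega) fun T hT => hL T (List.mem_cons_of_mem _ hT)

theorem ech_pos (l : ℝ) (hl : 0 < l) (L : List (Finset ℕ × ℝ)) (hL : ∀ S ∈ L, 0 < (S.1.card : ℝ) ∧ 0 < S.2) : 0 < ech l L := by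
  induction L with
  | nil => unfold ech; norm_num
  | cons S L ih =>
    unfold ech
    have h1 := ih fun T hT => hL T (List.mem_cons_of_mem _ hT)
    obtain ⟨h2, h3⟩ := hL S List.mem_cons_self
    positivity

/-- **Chains.** -/
theorem chains_main (k : ℕ) (hk : 1 ≤ k) (γ ε ρ β δ : ℝ) (hγ : 0 < γ) (hε : 0 < ε) (hcond : γ + ε < 1 / 3) (hρ : 0 < ρ) (hβ : 0 < β) (hβ1 : β ≤ 1)
    (hδ : 0 < δ) (hδ1 : δ ≤ 1) :
    ∃ t N₀ : ℝ, 0 < t ∧ ∀ N : ℝ, N₀ ≤ N → ∀ M D : ℝ, 1 ≤ D → 0 < M → D * (Real.log N) ^ (k + 1) ≤ M ^ γ → M ≤ N ^ t →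
      ∀ L : List (Finset ℕ × ℝ), L.length = k → (∀ S ∈ L, Adms β ε ρ N M S) →
      (((Icc 1 ⌊N⌋₊).filter (fun n => ¬ |chn L n - ech (Real.log N) L| ≤ δ * ech (Real.log N) L)).card : ℝ) ≤ N / D := by
  classical
  have hk0 : (0 : ℝ) < k := by exact_mod_cast hk
  obtain ⟨γ', hγ'⟩ : ∃ γ', γ' = (γ + (1 / 3 - ε)) / 2 := ⟨_, rfl⟩
  have hγ'1 : γ < γ' := by rw [hγ']; linarith
  have hγ'2 : γ' + ε < 1 / 3 := by rw [hγ']; linarith
  obtain ⟨δ₂, hδ₂⟩ : ∃ δ₂, δ₂ = δ / (4 * k) := ⟨_, rfl⟩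
  have hδ₂0 : 0 < δ₂ := by rw [hδ₂]; positivity
  have hk1 : (1 : ℝ) ≤ k := by exact_mod_cast hk
  have hkδ : (k : ℝ) * δ₂ = δ / 4 := by rw [hδ₂]; field_simp
  have hδ₂1 : δ₂ ≤ 1 := by nlinarith
  obtain ⟨t, N₁, ht0, hstep⟩ := step_good k γ' ε ρ β δ₂ (by linarith) hε hγ'2 hρ hβ hβ1 hδ₂0 hδ₂1
  obtain ⟨K, hK⟩ : ∃ K : ℝ, K = 12 * k / δ * (2 / β) ^ k := ⟨_, rfl⟩
  have hK1 : 1 ≤ K := by
    have h1 : 1 ≤ 12 * k / δ := by rw [le_div_iff₀ hδ]; linarith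
    have h2 : 1 ≤ (2 / β) ^ k := one_le_pow₀ (by rw [le_div_iff₀ hβ]; linarith)
    rw [hK]; exact one_le_mul_of_one_le_of_one_le h1 h2
  have hexp : 0 < (γ' - γ) / γ := div_pos (by linarith) hγ
  have e1 : ∀ᶠ N : ℝ in atTop, 2 * K ≤ (Real.log N) ^ ((γ' - γ) / γ) :=
    ((tendsto_rpow_atTop hexp).comp Real.tendsto_log_atTop).eventually_ge_atTop _
  obtain ⟨N₀, hN₀⟩ := eventually_atTop.1 (e1.and ((eventually_ge_atTop (max N₁ 3)).and (Real.tendsto_log_atTop.eventually_ge_atTop 2)))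
  refine ⟨t, N₀, ht0, fun N hN M D hD1 hM0 hMD hMN L hL hLS => ?_⟩
  obtain ⟨g1, g2, g3⟩ := hN₀ N hN
  have g2a := (le_max_left _ _).trans g2
  have g2b := (le_max_right _ _).trans g2
  have hN0 : 0 < N := by linarith
  have hN1 : 1 < N := by linarith
  obtain ⟨l, hl⟩ : ∃ l, l = Real.log N := ⟨_, rfl⟩
  rw [← hl] at g1 g3 hMD ⊢
  have hl0 : 0 < l := by linarith
  have hl1 : 1 ≤ l := by linarith
  have hD0 : 0 < D := by linarith
  have hlk : 1 ≤ l ^ (k + 1) := one_le_pow₀ hl1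
  have hlk1 : l ≤ l ^ (k + 1) := by
    calc l = l ^ 1 := (pow_one l).symm
      _ ≤ l ^ (k + 1) := pow_le_pow_right₀ hl1 (by omega)
  have hlk2 : l ^ 2 ≤ l ^ (k + 1) := pow_le_pow_right₀ hl1 (by omega)
  have hMγl : l ^ (k + 1) ≤ M ^ γ := by nlinarith
  have hM1 : 1 ≤ M := by
    by_contra hcon
    push Not at hcon
    have := Real.rpow_lt_one hM0.le hcon hγ
    linarith
  have hMdiff : 2 * K ≤ M ^ (γ' - γ) := by
    refine g1.trans ?_
    have h1 : l ≤ M ^ γ := hlk1.trans hMγl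
    calc l ^ ((γ' - γ) / γ) ≤ (M ^ γ) ^ ((γ' - γ) / γ) := Real.rpow_le_rpow hl0.le h1 hexp.le
      _ = M ^ (γ' - γ) := by
        rw [← Real.rpow_mul hM0.le]
        congr 1
        field_simp
  have hMγ' : M ^ γ' = M ^ γ * M ^ (γ' - γ) := by
    rw [← Real.rpow_add hM0]; congr 1; ring
  obtain ⟨D₀, hD₀⟩ : ∃ D₀, D₀ = D * (K * l ^ k) := ⟨_, rfl⟩
  have hlk3 : 1 ≤ l ^ k := one_le_pow₀ hl1
  have hD₀1 : 1 ≤ D₀ := by
    rw [hD₀]
    exact one_le_mul_of_one_le_of_one_le hD1 (one_le_mul_of_one_le_of_one_le hK1 hlk3)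
  have hD₀0 : 0 < D₀ := by linarith
  have hc1 : 2 * D₀ * l ≤ M ^ γ' := by
    rw [hMγ']
    calc 2 * D₀ * l = (D * l ^ (k + 1)) * (2 * K) := by rw [hD₀]; ring
      _ ≤ M ^ γ * M ^ (γ' - γ) := by
        apply mul_le_mul hMD hMdiff (by linarith) (by positivity)
  have hMγγ' : M ^ γ ≤ M ^ γ' := Real.rpow_le_rpow_of_exponent_le hM1 hγ'1.le
  have hSt : Stps l δ₂ (3 / D₀) M (N * M ^ 0) L := by
    apply stps_of l δ₂ (3 / D₀) M N k (Adms β ε ρ N M) _ L 0 (by omega) hLS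
    intro i hi S hS
    rw [hl]
    apply hstep N g2a M D₀ hD₀1 hM0 (by rw [← hl]; exact hc1) (by rw [← hl]; linarith) hMN (N * M ^ i) _ _ S hS
    · calc N = N * 1 := (mul_one N).symm
        _ ≤ N * M ^ i := mul_le_mul_of_nonneg_left (one_le_pow₀ hM1) hN0.le
    · calc N * M ^ i * M = N * M ^ (i + 1) := by ring
        _ ≤ N * M ^ k := mul_le_mul_of_nonneg_left (pow_le_pow_right₀ hM1 (by omega)) hN0.le
        _ ≤ N * (N ^ t) ^ k := mul_le_mul_of_nonneg_left (pow_le_pow_left₀ hM0.le hMN k) hN0.le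
        _ = N ^ (1 + k * t) := by
          rw [← Real.rpow_natCast, ← Real.rpow_mul hN0.le, Real.rpow_add hN0, Real.rpow_one, mul_comm t]
  rw [pow_zero, mul_one] at hSt
  have hL1 := chn_L1 l δ₂ (3 / D₀) M β hl1 hδ₂0.le (by positivity) hM1 hβ hβ1 L
    (fun S hS => ⟨fun a ha => ((hLS S hS).prime a ha).2, (hLS S hS).ge⟩) N hN0.le hSt
  rw [hL] at hL1
  have hE0 : 0 < ech l L := ech_pos l hl0 L fun S hS => ⟨lt_of_lt_of_le (by positivity) (hLS S hS).card, by linarith [(hLS S hS).ge]⟩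
  obtain ⟨E, hE⟩ : ∃ E, E = ech l L := ⟨_, rfl⟩
  rw [← hE] at hL1 hE0 ⊢
  obtain ⟨B, hB⟩ : ∃ B, B = (Icc 1 ⌊N⌋₊).filter (fun n => ¬ |chn L n - E| ≤ δ * E) := ⟨_, rfl⟩
  rw [← hB]
  have hpw : (1 + δ₂) ^ k - 1 ≤ δ / 2 := by
    have h1 : (1 + δ₂) ^ k ≤ Real.exp (k * δ₂) := by
      rw [Real.exp_nat_mul]
      apply pow_le_pow_left₀ (by linarith)
      have := Real.add_one_le_exp δ₂
      linarith
    rw [hkδ] at h1
    have h2 : Real.exp (δ / 4) ≤ 1 + δ / 2 := by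
      have h2 := Real.one_sub_le_exp_neg (δ / 4)
      have h3 := Real.exp_pos (δ / 4)
      have h4 : Real.exp (δ / 4) * (1 - δ / 4) ≤ 1 := by
        calc Real.exp (δ / 4) * (1 - δ / 4) ≤ Real.exp (δ / 4) * Real.exp (-(δ / 4)) := mul_le_mul_of_nonneg_left h2 h3.le
          _ = 1 := by rw [← Real.exp_add, add_neg_cancel, Real.exp_zero]
      nlinarith
    linarith
  have hmark : (B.card : ℝ) * (δ / 2 * E) ≤ (2 * (3 / D₀) * k * (2 * l / β) ^ k) * (N * E) := by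
    refine le_trans ?_ hL1
    calc (B.card : ℝ) * (δ / 2 * E) = ∑ _n ∈ B, δ / 2 * E := by rw [sum_const, nsmul_eq_mul]
      _ ≤ ∑ n ∈ B, max 0 (|chn L n - E| - ((1 + δ₂) ^ k - 1) * E) := by
          apply sum_le_sum
          intro n hn
          rw [hB, mem_filter, not_le] at hn
          refine le_trans ?_ (le_max_right _ _)
          have h1 : ((1 + δ₂) ^ k - 1) * E ≤ δ / 2 * E := mul_le_mul_of_nonneg_right hpw hE0.le
          linarith [hn.2]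
      _ ≤ _ := sum_le_sum_of_subset_of_nonneg (by rw [hB]; exact filter_subset _ _) fun n _ _ => le_max_left _ _
  have hfin : (B.card : ℝ) * (δ / 2) ≤ (2 * (3 / D₀) * k * (2 * l / β) ^ k) * N := by
    have e2 : (B.card : ℝ) * (δ / 2 * E) = ((B.card : ℝ) * (δ / 2)) * E := by ring
    have e3 : (2 * (3 / D₀) * k * (2 * l / β) ^ k) * (N * E) = ((2 * (3 / D₀) * k * (2 * l / β) ^ k) * N) * E := by ring
    rw [e2, e3] at hmark
    exact le_of_mul_le_mul_right hmark hE0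
  have e4 : (2 * (3 / D₀) * k * (2 * l / β) ^ k) * N = δ / 2 * (N / D) := by
    have e5 : (2 * l / β) ^ k = (2 / β) ^ k * l ^ k := by rw [← mul_pow]; congr 1; ring
    rw [e5, hD₀, hK]
    have h2β : (2 / β) ^ k ≠ 0 := by positivity
    field_simp
    norm_num
  rw [e4, mul_comm (B.card : ℝ)] at hfin
  exact le_of_mul_le_mul_left hfin (by positivity)

end Pool.Agent.J4H33
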