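import Pool.Agent.J4H33.H2

/-!
# Long chains of primes with multipliers in sparse sets
-/

set_option autoImplicit false

namespace Pool.Agent.J4H33

open Finset Filter
open Pool.Agent.Y851.PT

/-- **Few numbers start few chains**, for chains of arbitrary length -/
theorem rich_bound (l η₀ M β : ℝ) (hl : 1 ≤ l) (hη₀ : 0 ≤ η₀) (hM : 1 ≤ M) (hβ : 0 < β) (hβ1 : β ≤ 1)
    (L : List (Finset ℕ × ℝ)) (hL : ∀ S ∈ L, (∀ a ∈ S.1, β * M ≤ (a : ℝ) ∧ (a : ℝ) ≤ M) ∧ M ≤ S.2 ∧ 0 < (S.1.card : ℝ)) :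
    ∀ N : ℝ, 0 ≤ N → Stps l (1 / 2) η₀ M N L →
    (((Icc 1 ⌊N⌋₊).filter (fun n => chn L n < (1 / 4) ^ L.length * ech l L)).card : ℝ) ≤ η₀ * ((8 * l / β) ^ L.length - 1) * N := by
  classical
  have hl0 : 0 < l := by linarith
  have hM0 : 0 < M := by linarith
  have hr : 8 ≤ 8 * l / β := by
    rw [le_div_iff₀ hβ]
    nlinarith
  induction L with
  | nil =>
    intro N hN _
    unfold chn ech
    simp
  | cons S L ih =>
    intro N hN hSt
    obtain ⟨⟨Bad, hBad1, hBad2⟩, hSt2⟩ := hSt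
    have hLL : ∀ T ∈ L, (∀ a ∈ T.1, β * M ≤ (a : ℝ) ∧ (a : ℝ) ≤ M) ∧ M ≤ T.2 ∧ 0 < (T.1.card : ℝ) := fun T hT => hL T (List.mem_cons_of_mem _ hT)
    obtain ⟨hSa, hSH, hSc⟩ := hL S List.mem_cons_self
    have hind := ih hLL (N * M) (by positivity) hSt2
    obtain ⟨H, hH⟩ : ∃ H, H = S.2 := ⟨_, rfl⟩
    obtain ⟨A, hA⟩ : ∃ A, A = S.1 := ⟨_, rfl⟩
    rw [← hH] at hSH hBad2
    rw [← hA] at hSa hSc hBad2
    have hH0 : 0 < H := by linarith
    obtain ⟨E, hE⟩ : ∃ E, E = ech l L := ⟨_, rfl⟩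
    have hE0 : 0 < E := by
      rw [hE]
      exact ech_pos l hl0 L fun T hT => ⟨(hLL T hT).2.2, by linarith [(hLL T hT).2.1]⟩
    obtain ⟨F, hF⟩ : ∃ F : ℝ, F = A.card * (H / l) := ⟨_, rfl⟩
    have hF0 : 0 < F := by rw [hF]; positivity
    have hEF : ech l (S :: L) = F * E := by rw [hF, hE, hA, hH]; rfl
    have hchn : ∀ n, chn (S :: L) n = ∑ a ∈ A, ∑ p ∈ PH H ((a : ℝ) * n), chn L p := fun n => by rw [hA, hH]; rfl
    obtain ⟨q, hq⟩ : ∃ q : ℝ, q = (1 / 4) ^ L.length := ⟨_, rfl⟩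
    have hq0 : 0 < q := by rw [hq]; positivity
    rw [← hE, ← hq] at hind
    obtain ⟨P, hP⟩ : ∃ P : Finset ℕ, P = (Icc 1 ⌊N * M⌋₊).filter (fun p => chn L p < q * E) := ⟨_, rfl⟩
    rw [← hP] at hind
    obtain ⟨Q, hQ⟩ : ∃ Q : Finset ℕ, Q = ((Icc 1 ⌊N⌋₊).filter (fun n => chn (S :: L) n < (1 / 4) ^ (S :: L).length * ech l (S :: L))) \ Bad := ⟨_, rfl⟩
    have hsub0 : ∀ a ∈ A, ∀ n ∈ Icc 1 ⌊N⌋₊, PH H ((a : ℝ) * n) ⊆ Icc 1 ⌊N * M⌋₊ := by
      intro a ha n hn p hp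
      rw [mem_Icc] at hn
      have hnN : (n : ℝ) ≤ N := (Nat.le_floor_iff hN).1 hn.2
      rw [mem_PH (by positivity)] at hp
      rw [mem_Icc]
      refine ⟨hp.1.one_lt.le, Nat.le_floor ?_⟩
      have h1 : (a : ℝ) * n ≤ M * N := mul_le_mul (hSa a ha).2 hnN (Nat.cast_nonneg _) (by linarith)
      linarith [hp.2.2]
    -- every element of `Q` has many bad neighbours
    have hdeg : ∀ n ∈ Q, 1 / 4 * F ≤ ∑ a ∈ A, ((P.filter (fun p => p ∈ PH H ((a : ℝ) * n))).card : ℝ) := by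
      intro n hn
      rw [hQ, Finset.mem_sdiff, mem_filter] at hn
      obtain ⟨⟨hn1, hn2⟩, hn3⟩ := hn
      have h1 := hBad2 n hn1 hn3
      rw [← hF] at h1
      have h2 := (abs_le.1 h1).1
      rw [hEF, List.length_cons, pow_succ, ← hq, hchn] at hn2
      -- split the windows
      have h3 : ∀ a ∈ A, ((PH H ((a : ℝ) * n)).card : ℝ) = ((P.filter (fun p => p ∈ PH H ((a : ℝ) * n))).card : ℝ) +
          (((PH H ((a : ℝ) * n)).filter (fun p => ¬ chn L p < q * E)).card : ℝ) := by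
        intro a ha
        have e1 : P.filter (fun p => p ∈ PH H ((a : ℝ) * n)) = (PH H ((a : ℝ) * n)).filter (fun p => chn L p < q * E) := by
          ext p
          rw [hP, mem_filter, mem_filter, mem_filter]
          constructor
          · rintro ⟨⟨-, h⟩, h'⟩; exact ⟨h', h⟩
          · rintro ⟨h', h⟩; exact ⟨⟨hsub0 a ha n hn1 h', h⟩, h'⟩
        rw [e1, ← Nat.cast_add, card_filter_add_card_filter_not]
      have h4 : ∑ a ∈ A, (((PH H ((a : ℝ) * n)).filter (fun p => ¬ chn L p < q * E)).card : ℝ) * (q * E) ≤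
          ∑ a ∈ A, ∑ p ∈ PH H ((a : ℝ) * n), chn L p := by
        apply sum_le_sum
        intro a _
        calc (((PH H ((a : ℝ) * n)).filter (fun p => ¬ chn L p < q * E)).card : ℝ) * (q * E)
            = ∑ _p ∈ (PH H ((a : ℝ) * n)).filter (fun p => ¬ chn L p < q * E), q * E := by rw [sum_const, nsmul_eq_mul]
          _ ≤ ∑ p ∈ (PH H ((a : ℝ) * n)).filter (fun p => ¬ chn L p < q * E), chn L p := by
              apply sum_le_sum
              intro p hp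
              exact not_lt.1 (mem_filter.1 hp).2
          _ ≤ _ := sum_le_sum_of_subset_of_nonneg (filter_subset _ _) fun p _ _ => chn_nonneg L p
      rw [← sum_mul] at h4
      obtain ⟨G, hG⟩ : ∃ G, G = ∑ a ∈ A, (((PH H ((a : ℝ) * n)).filter (fun p => ¬ chn L p < q * E)).card : ℝ) := ⟨_, rfl⟩
      rw [← hG] at h4
      have h5 : G * (q * E) < 1 / 4 * F * (q * E) := by
        calc G * (q * E) ≤ _ := h4
          _ < q * (1 / 4) * (F * E) := hn2
          _ = _ := by ring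
      have h6 : G < 1 / 4 * F := lt_of_mul_lt_mul_right h5 (by positivity)
      have h7 : ∑ a ∈ A, ((PH H ((a : ℝ) * n)).card : ℝ) = ∑ a ∈ A, ((P.filter (fun p => p ∈ PH H ((a : ℝ) * n))).card : ℝ) + G := by
        rw [hG, ← sum_add_distrib]
        exact sum_congr rfl h3
      rw [h7] at h2
      linarith
    -- double counting
    have hdc : (Q.card : ℝ) * (1 / 4 * F) ≤ P.card * (A.card * (2 * H / (β * M))) := by
      calc (Q.card : ℝ) * (1 / 4 * F) = ∑ _n ∈ Q, 1 / 4 * F := by rw [sum_const, nsmul_eq_mul]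
        _ ≤ ∑ n ∈ Q, ∑ a ∈ A, ((P.filter (fun p => p ∈ PH H ((a : ℝ) * n))).card : ℝ) := sum_le_sum hdeg
        _ = ∑ a ∈ A, ∑ n ∈ Q, ((P.filter (fun p => p ∈ PH H ((a : ℝ) * n))).card : ℝ) := sum_comm
        _ = ∑ a ∈ A, ∑ p ∈ P, ((Q.filter (fun n : ℕ => p ∈ PH H ((a : ℝ) * n))).card : ℝ) := by
            apply sum_congr rfl
            intro a _
            simp_rw [card_filter]
            push_cast
            exact sum_comm
        _ ≤ ∑ a ∈ A, ∑ _p ∈ P, 2 * H / (β * M) := by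
            apply sum_le_sum
            intro a ha
            apply sum_le_sum
            intro p _
            exact back_count hM0 hβ hβ1 hSH (hSa a ha).1 Q p
        _ = _ := by rw [sum_const, sum_const, nsmul_eq_mul, nsmul_eq_mul]; ring
    have hQ1 : (Q.card : ℝ) ≤ η₀ * ((8 * l / β) ^ L.length - 1) * N * (8 * l / β) := by
      have h1 : (Q.card : ℝ) * (1 / 4 * F) ≤ (η₀ * ((8 * l / β) ^ L.length - 1) * (N * M)) * (A.card * (2 * H / (β * M))) :=
        hdc.trans (mul_le_mul_of_nonneg_right hind (by positivity))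
      have h2 : (η₀ * ((8 * l / β) ^ L.length - 1) * (N * M)) * (A.card * (2 * H / (β * M))) =
          (η₀ * ((8 * l / β) ^ L.length - 1) * N * (8 * l / β)) * (1 / 4 * F) := by
        rw [hF]; field_simp; ring
      rw [h2] at h1
      exact le_of_mul_le_mul_right h1 (by positivity)
    have hcard : (((Icc 1 ⌊N⌋₊).filter (fun n => chn (S :: L) n < (1 / 4) ^ (S :: L).length * ech l (S :: L))).card : ℝ) ≤ Bad.card + Q.card := by
      rw [hQ, ← Nat.cast_add]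
      apply Nat.cast_le.2
      obtain ⟨T, hT⟩ : ∃ T, T = (Icc 1 ⌊N⌋₊).filter (fun n => chn (S :: L) n < (1 / 4) ^ (S :: L).length * ech l (S :: L)) := ⟨_, rfl⟩
      rw [← hT]
      calc T.card ≤ (Bad ∪ T \ Bad).card := card_le_card fun n hn => by
            by_cases h : n ∈ Bad
            · exact mem_union_left _ h
            · exact mem_union_right _ (Finset.mem_sdiff.2 ⟨hn, h⟩)
        _ ≤ _ := card_union_le _ _
    refine hcard.trans ((add_le_add hBad1 hQ1).trans ?_)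
    rw [List.length_cons, pow_succ]
    have h1 : 0 ≤ η₀ * N * (8 * l / β - 2) := by
      have : 0 ≤ 8 * l / β - 2 := by linarith
      positivity
    nlinarith [h1]

/-- **Long chains.** -/
theorem long_main (γ ε ρ β : ℝ) (hγ : 0 < γ) (hε : 0 < ε) (hcond : γ + ε < 1 / 3) (hρ : 0 < ρ) (hβ : 0 < β) (hβ1 : β ≤ 1) :
    ∃ t N₀ : ℝ, 0 < t ∧ ∀ N : ℝ, N₀ ≤ N → ∀ (k : ℕ) (M D : ℝ), 1 ≤ k → 1 ≤ D → 0 < M → D * (8 / β * Real.log N) ^ (k + 1) ≤ M ^ γ → M ^ k ≤ N ^ t →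
      ∀ L : List (Finset ℕ × ℝ), L.length = k → (∀ S ∈ L, Adms β ε ρ N M S) →
      (((Icc 1 ⌊N⌋₊).filter (fun n => chn L n < (1 / 4) ^ k * ech (Real.log N) L)).card : ℝ) ≤ N / D := by
  classical
  obtain ⟨t, N₁, ht0, hstep⟩ := step_good 1 γ ε ρ β (1 / 2) hγ hε hcond hρ hβ hβ1 (by norm_num) (by norm_num)
  obtain ⟨N₀, hN₀⟩ := eventually_atTop.1 ((eventually_ge_atTop (max N₁ 3)).and (Real.tendsto_log_atTop.eventually_ge_atTop 2))
  refine ⟨t, N₀, ht0, fun N hN k M D hk hD1 hM0 hMD hMN L hL hLS => ?_⟩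
  obtain ⟨g2, g3⟩ := hN₀ N hN
  have g2a := (le_max_left _ _).trans g2
  have g2b := (le_max_right _ _).trans g2
  have hN0 : 0 < N := by linarith
  have hN1 : 1 < N := by linarith
  obtain ⟨l, hl⟩ : ∃ l, l = Real.log N := ⟨_, rfl⟩
  rw [← hl] at g3 hMD ⊢
  have hl0 : 0 < l := by linarith
  have hl1 : 1 ≤ l := by linarith
  have hD0 : 0 < D := by linarith
  have hβ8 : 8 ≤ 8 / β := by rw [le_div_iff₀ hβ]; linarith
  obtain ⟨r, hr⟩ : ∃ r, r = 8 / β * l := ⟨_, rfl⟩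
  rw [← hr] at hMD
  have hrl : 8 * l ≤ r := by rw [hr]; exact mul_le_mul_of_nonneg_right hβ8 hl0.le
  have hr1 : 1 ≤ r := by linarith
  have hr0 : 0 < r := by linarith
  have hrk : r ^ 2 ≤ r ^ (k + 1) := pow_le_pow_right₀ hr1 (by omega)
  have hMr : r ^ (k + 1) ≤ M ^ γ := by
    have : 0 < r ^ (k + 1) := by positivity
    nlinarith
  have hM1 : 1 ≤ M := by
    by_contra hcon
    push Not at hcon
    have h1 := Real.rpow_lt_one hM0.le hcon hγ
    have h2 : 1 ≤ r ^ (k + 1) := one_le_pow₀ hr1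
    linarith
  obtain ⟨D₀, hD₀⟩ : ∃ D₀, D₀ = 3 * D * r ^ k := ⟨_, rfl⟩
  have hrk1 : 1 ≤ r ^ k := one_le_pow₀ hr1
  have hD₀1 : 1 ≤ D₀ := by
    rw [hD₀]
    exact one_le_mul_of_one_le_of_one_le (by linarith) hrk1
  have hD₀0 : 0 < D₀ := by linarith
  have hMN1 : M ≤ N ^ t := by
    refine le_trans ?_ hMN
    calc M = M ^ 1 := (pow_one M).symm
      _ ≤ M ^ k := pow_le_pow_right₀ hM1 hk
  have hSt : Stps l (1 / 2) (3 / D₀) M (N * M ^ 0) L := by
    apply stps_of l (1 / 2) (3 / D₀) M N k (Adms β ε ρ N M) _ L 0 (by omega) hLS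
    intro i hi S hS
    rw [hl]
    apply hstep N g2a M D₀ hD₀1 hM0 _ _ hMN1 (N * M ^ i) _ _ S hS
    · rw [← hl, hD₀]
      calc 2 * (3 * D * r ^ k) * l = D * r ^ k * (6 * l) := by ring
        _ ≤ D * r ^ k * r := mul_le_mul_of_nonneg_left (by linarith) (by positivity)
        _ = D * r ^ (k + 1) := by rw [pow_succ]; ring
        _ ≤ M ^ γ := hMD
    · rw [← hl]
      have : l ^ 2 ≤ r ^ 2 := pow_le_pow_left₀ hl0.le (by linarith) 2
      linarith
    · calc N = N * 1 := (mul_one N).symm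
        _ ≤ N * M ^ i := mul_le_mul_of_nonneg_left (one_le_pow₀ hM1) hN0.le
    · calc N * M ^ i * M = N * M ^ (i + 1) := by ring
        _ ≤ N * M ^ k := mul_le_mul_of_nonneg_left (pow_le_pow_right₀ hM1 (by omega)) hN0.le
        _ ≤ N * N ^ t := mul_le_mul_of_nonneg_left hMN hN0.le
        _ = N ^ (1 + (1 : ℕ) * t) := by
          rw [Nat.cast_one, one_mul, Real.rpow_add hN0, Real.rpow_one]
  rw [pow_zero, mul_one] at hSt
  have h1 := rich_bound l (3 / D₀) M β hl1 (by positivity) hM1 hβ hβ1 L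
    (fun S hS => ⟨fun a ha => ((hLS S hS).prime a ha).2, (hLS S hS).ge, lt_of_lt_of_le (by positivity) (hLS S hS).card⟩) N hN0.le hSt
  rw [hL] at h1
  refine h1.trans ?_
  have e1 : 8 * l / β = r := by rw [hr]; ring
  rw [e1]
  calc 3 / D₀ * (r ^ k - 1) * N ≤ 3 / D₀ * r ^ k * N := by
        apply mul_le_mul_of_nonneg_right _ hN0.le
        exact mul_le_mul_of_nonneg_left (by linarith) (by positivity)
    _ = N / D := by rw [hD₀]; field_simp

end Pool.Agent.J4H33
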