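import Pool.Agent.J4H33.LF
import Pool.Agent.J4H33.G8

/-!
# Arbitrary weights on the integers and almost all prime multipliers
-/

set_option autoImplicit false

namespace Pool.Agent.J4H33.DU

open Finset Filter
open Pool.Agent.Results.MP_711652_nt.SparseDilates (density)
open Pool.Agent.J4H33.LF (density_nonneg density_le)

theorem density_step {H H' y c : ℝ} (hH : 0 < H) (hHH : H ≤ H') (hc : H' ≤ c * H) : density H y ≤ c * density H' y := by
  have hden : ∀ H x : ℝ, density H x = Pool.Agent.Y851.PT.ZH H x := fun H x => (Pool.Agent.Y851.PT.ZH_eq H x).symm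
  rw [hden, hden]
  exact zh_le hH hHH hc

/-- the weighted mean at one multiplier -/
noncomputable def TW (w : ℕ → ℝ) (N H : ℝ) (a : ℕ) : ℝ := ∑ n ∈ Icc 1 ⌊N⌋₊, w n * density H ((a : ℝ) * n)

/-- the total weight -/
noncomputable def SW (w : ℕ → ℝ) (N : ℝ) : ℝ := ∑ n ∈ Icc 1 ⌊N⌋₊, w n

/-- integer points of intervals -/
theorem int_points (U : Finset ℝ) (ℓ : ℝ) (hℓ : 0 ≤ ℓ) (N : ℝ) :
    (((Icc 1 ⌊N⌋₊).filter (fun n : ℕ => ∃ u ∈ U, u ≤ (n : ℝ) ∧ (n : ℝ) ≤ u + ℓ)).card : ℝ) ≤ U.card * (ℓ + 1) := by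
  classical
  have h1 : (Icc 1 ⌊N⌋₊).filter (fun n : ℕ => ∃ u ∈ U, u ≤ (n : ℝ) ∧ (n : ℝ) ≤ u + ℓ) ⊆
      U.biUnion (fun u => (Icc 1 ⌊N⌋₊).filter (fun n : ℕ => u ≤ (n : ℝ) ∧ (n : ℝ) ≤ u + ℓ)) := by
    intro n hn
    rw [mem_filter] at hn
    obtain ⟨h1, u, hu, h2⟩ := hn
    rw [mem_biUnion]
    exact ⟨u, hu, mem_filter.2 ⟨h1, h2⟩⟩
  have h2 : ∀ u : ℝ, (((Icc 1 ⌊N⌋₊).filter (fun n : ℕ => u ≤ (n : ℝ) ∧ (n : ℝ) ≤ u + ℓ)).card : ℝ) ≤ ℓ + 1 := by
    intro u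
    obtain ⟨W, hW⟩ : ∃ W, W = (Icc 1 ⌊N⌋₊).filter (fun n : ℕ => u ≤ (n : ℝ) ∧ (n : ℝ) ≤ u + ℓ) := ⟨_, rfl⟩
    rw [← hW]
    rcases W.eq_empty_or_nonempty with h0 | h0
    · rw [h0, card_empty, Nat.cast_zero]; linarith
    obtain ⟨m, hm, hmin⟩ := W.exists_min_image id h0
    obtain ⟨K, hK, hmax⟩ := W.exists_max_image id h0
    simp only [id] at hmin hmax
    have hsub : W ⊆ Icc m K := fun n hn => mem_Icc.2 ⟨hmin n hn, hmax n hn⟩
    have h3 := card_le_card hsub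
    rw [Nat.card_Icc] at h3
    have hmK := hmin K hK
    rw [hW, mem_filter] at hm hK
    have h4 : (W.card : ℝ) ≤ ((K + 1 - m : ℕ) : ℝ) := by exact_mod_cast h3
    rw [Nat.cast_sub (by omega), Nat.cast_add, Nat.cast_one] at h4
    linarith [hm.2.1, hK.2.2]
  calc (((Icc 1 ⌊N⌋₊).filter (fun n : ℕ => ∃ u ∈ U, u ≤ (n : ℝ) ∧ (n : ℝ) ≤ u + ℓ)).card : ℝ)
      ≤ ((U.biUnion (fun u => (Icc 1 ⌊N⌋₊).filter (fun n : ℕ => u ≤ (n : ℝ) ∧ (n : ℝ) ≤ u + ℓ))).card : ℝ) := by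
        exact_mod_cast card_le_card h1
    _ ≤ ∑ u ∈ U, (((Icc 1 ⌊N⌋₊).filter (fun n : ℕ => u ≤ (n : ℝ) ∧ (n : ℝ) ≤ u + ℓ)).card : ℝ) := by
        exact_mod_cast card_biUnion_le
    _ ≤ ∑ _u ∈ U, (ℓ + 1) := sum_le_sum fun u _ => h2 u
    _ = _ := by rw [sum_const, nsmul_eq_mul]

/-- **The sum over a set of multipliers.** -/
theorem set_sum (w : ℕ → ℝ) (hw0 : ∀ n, 0 ≤ w n) (hw1 : ∀ n, w n ≤ 1) (N X H δ₁ ℓ : ℝ) (hN : 0 ≤ N) (hX : 3 ≤ X) (hH : 1 ≤ H)
    (hℓ : 0 ≤ ℓ) (A : Finset ℕ) (hA : ∀ a ∈ A, ∀ n ∈ Icc 1 ⌊N⌋₊, (a : ℝ) * n ≤ X) (U : Finset ℝ)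
    (hU1 : (U.card : ℝ) * (ℓ + 1) * (2 * Real.log X) ≤ δ₁ * SW w N)
    (hU2 : ∀ y : ℝ, 0 < y → y ≤ N → (∀ u ∈ U, ¬ (u ≤ y ∧ y ≤ u + ℓ)) → |∑ a ∈ A, density H (a * y) - A.card| ≤ δ₁ * A.card) :
    |∑ a ∈ A, TW w N H a - A.card * SW w N| ≤ 2 * δ₁ * (A.card * SW w N) := by
  classical
  have hlogX : 1 ≤ Real.log X := by
    rw [Real.le_log_iff_exp_le (by linarith)]
    linarith [Real.exp_one_lt_d9]
  have hA0 : (0 : ℝ) ≤ A.card := Nat.cast_nonneg _
  obtain ⟨E, hE⟩ : ∃ E, E = (Icc 1 ⌊N⌋₊).filter (fun n : ℕ => ∃ u ∈ U, u ≤ (n : ℝ) ∧ (n : ℝ) ≤ u + ℓ) := ⟨_, rfl⟩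
  have hEc : (E.card : ℝ) ≤ U.card * (ℓ + 1) := by rw [hE]; exact int_points U ℓ hℓ N
  have e1 : ∑ a ∈ A, TW w N H a - A.card * SW w N = ∑ n ∈ Icc 1 ⌊N⌋₊, w n * (∑ a ∈ A, density H ((a : ℝ) * n) - A.card) := by
    unfold TW SW
    rw [sum_comm, mul_sum, ← sum_sub_distrib]
    apply sum_congr rfl
    intro n _
    rw [← mul_sum]
    ring
  rw [e1]
  have hpt : ∀ n ∈ Icc 1 ⌊N⌋₊, |w n * (∑ a ∈ A, density H ((a : ℝ) * n) - A.card)| ≤
      w n * (δ₁ * A.card) + (if n ∈ E then 2 * Real.log X * A.card else 0) := by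
    intro n hn
    rw [abs_mul, abs_of_nonneg (hw0 n)]
    have hn' := mem_Icc.1 hn
    have hn0 : (0 : ℝ) < n := by exact_mod_cast (by omega : 0 < n)
    have hnN : (n : ℝ) ≤ N := (Nat.le_floor_iff hN).1 hn'.2
    by_cases hne : n ∈ E
    · rw [if_pos hne]
      have h1 : |∑ a ∈ A, density H ((a : ℝ) * n) - A.card| ≤ 2 * Real.log X * A.card := by
        have h2 : 0 ≤ ∑ a ∈ A, density H ((a : ℝ) * n) := sum_nonneg fun a _ => density_nonneg _ _ (by linarith)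
        have h3 : ∑ a ∈ A, density H ((a : ℝ) * n) ≤ 2 * Real.log X * A.card := by
          calc ∑ a ∈ A, density H ((a : ℝ) * n) ≤ ∑ _a ∈ A, 2 * Real.log X :=
                sum_le_sum fun a ha => density_le _ _ _ hH (hA a ha n hn) (by linarith)
            _ = _ := by rw [sum_const, nsmul_eq_mul, mul_comm]
        have h4 : (A.card : ℝ) ≤ 2 * Real.log X * A.card := by nlinarith
        rw [abs_le]
        constructor <;> linarith
      calc w n * |∑ a ∈ A, density H ((a : ℝ) * n) - A.card| ≤ 1 * (2 * Real.log X * A.card) :=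
            mul_le_mul (hw1 n) h1 (abs_nonneg _) zero_le_one
        _ = 2 * Real.log X * A.card := one_mul _
        _ ≤ _ := by
            have : 0 ≤ w n * (δ₁ * A.card) := by
              by_cases hδ : 0 ≤ δ₁
              · have := hw0 n; positivity
              · exfalso
                push Not at hδ
                -- a negative `δ₁` is impossible
                have h5 : 0 ≤ (U.card : ℝ) * (ℓ + 1) * (2 * Real.log X) := by positivity
                have h6 : 0 < (U.card : ℝ) * (ℓ + 1) * (2 * Real.log X) := by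
                  have hUc : 0 < (U.card : ℝ) := by
                    rw [hE, mem_filter] at hne
                    obtain ⟨_, u, hu, _⟩ := hne
                    exact_mod_cast card_pos.2 ⟨u, hu⟩
                  have : 0 < ℓ + 1 := by linarith
                  have : 0 < Real.log X := by linarith
                  positivity
                have h7 : 0 ≤ SW w N := sum_nonneg fun n _ => hw0 n
                nlinarith
            linarith
    · rw [if_neg hne, add_zero]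
      apply mul_le_mul_of_nonneg_left _ (hw0 n)
      apply hU2 n hn0 hnN
      intro u hu hcon
      apply hne
      rw [hE, mem_filter]
      exact ⟨hn, u, hu, hcon⟩
  refine (abs_sum_le_sum_abs _ _).trans ((sum_le_sum hpt).trans ?_)
  rw [sum_add_distrib, ← sum_mul, ← sum_filter, sum_const, nsmul_eq_mul]
  have h1 : (((Icc 1 ⌊N⌋₊).filter (fun n => n ∈ E)).card : ℝ) ≤ E.card := by
    exact_mod_cast card_le_card (fun n hn => (mem_filter.1 hn).2)
  have h2 : (((Icc 1 ⌊N⌋₊).filter (fun n => n ∈ E)).card : ℝ) * (2 * Real.log X * A.card) ≤ δ₁ * SW w N * A.card := by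
    calc (((Icc 1 ⌊N⌋₊).filter (fun n => n ∈ E)).card : ℝ) * (2 * Real.log X * A.card)
        ≤ (U.card * (ℓ + 1)) * (2 * Real.log X * A.card) := mul_le_mul_of_nonneg_right (h1.trans hEc) (by positivity)
      _ = (U.card * (ℓ + 1) * (2 * Real.log X)) * A.card := by ring
      _ ≤ _ := mul_le_mul_of_nonneg_right hU1 hA0
  have e2 : (∑ n ∈ Icc 1 ⌊N⌋₊, w n) = SW w N := rfl
  rw [e2]
  calc SW w N * (δ₁ * A.card) + _ ≤ SW w N * (δ₁ * A.card) + δ₁ * SW w N * A.card := add_le_add le_rfl h2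
    _ = _ := by ring

end Pool.Agent.J4H33.DU
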