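import Pool.Agent.J4H33.H4

/-!
# Arbitrary weights on the integers and almost all prime multipliers: the theorem
-/

set_option autoImplicit false

namespace Pool.Agent.J4H33.DU

open Finset Filter
open Pool.Agent.Results.MP_711652_nt.SparseDilates (density)
open Pool.Agent.J4H33.LF (density_nonneg density_le)

/-- from sets to elements -/
theorem few_bad (T : ℕ → ℝ) (P : Finset ℕ) (S δ₁ K : ℝ) (hS : 0 < S) (hδ : 0 < δ₁) (hK : 0 < K)
    (h : ∀ A ⊆ P, K ≤ (A.card : ℝ) → |∑ a ∈ A, T a - A.card * S| ≤ 2 * δ₁ * (A.card * S)) :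
    ((P.filter (fun a => ¬ |T a - S| ≤ 3 * δ₁ * S)).card : ℝ) ≤ 2 * K := by
  classical
  have hup : ((P.filter (fun a => (1 + 3 * δ₁) * S < T a)).card : ℝ) < K := by
    by_contra hcon
    push Not at hcon
    have h1 := h _ (filter_subset _ _) hcon
    obtain ⟨A, hA⟩ : ∃ A, A = P.filter (fun a => (1 + 3 * δ₁) * S < T a) := ⟨_, rfl⟩
    rw [← hA] at h1 hcon
    have hc : 0 < (A.card : ℝ) := by linarith
    have h2 : ∑ _a ∈ A, (1 + 3 * δ₁) * S ≤ ∑ a ∈ A, T a := sum_le_sum fun a ha => by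
      rw [hA] at ha; exact (mem_filter.1 ha).2.le
    rw [sum_const, nsmul_eq_mul] at h2
    have h3 := (abs_le.1 h1).2
    have h4 : 0 < δ₁ * (A.card * S) := by positivity
    nlinarith
  have hlo : ((P.filter (fun a => T a < (1 - 3 * δ₁) * S)).card : ℝ) < K := by
    by_contra hcon
    push Not at hcon
    have h1 := h _ (filter_subset _ _) hcon
    obtain ⟨A, hA⟩ : ∃ A, A = P.filter (fun a => T a < (1 - 3 * δ₁) * S) := ⟨_, rfl⟩
    rw [← hA] at h1 hcon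
    have hc : 0 < (A.card : ℝ) := by linarith
    have h2 : ∑ a ∈ A, T a ≤ ∑ _a ∈ A, (1 - 3 * δ₁) * S := sum_le_sum fun a ha => by
      rw [hA] at ha; exact (mem_filter.1 ha).2.le
    rw [sum_const, nsmul_eq_mul] at h2
    have h3 := (abs_le.1 h1).1
    have h4 : 0 < δ₁ * (A.card * S) := by positivity
    nlinarith
  have hsub : P.filter (fun a => ¬ |T a - S| ≤ 3 * δ₁ * S) ⊆ P.filter (fun a => (1 + 3 * δ₁) * S < T a) ∪ P.filter (fun a => T a < (1 - 3 * δ₁) * S) := by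
    intro a ha
    rw [mem_filter] at ha
    rw [mem_union, mem_filter, mem_filter]
    by_contra hcon
    push Not at hcon
    apply ha.2
    have h1 := hcon.1 ha.1
    have h2 := hcon.2 ha.1
    rw [abs_le]
    constructor <;> linarith
  have h1 : ((P.filter (fun a => ¬ |T a - S| ≤ 3 * δ₁ * S)).card : ℝ) ≤
      ((P.filter (fun a => (1 + 3 * δ₁) * S < T a)).card : ℝ) + ((P.filter (fun a => T a < (1 - 3 * δ₁) * S)).card : ℝ) := by
    exact_mod_cast (card_le_card hsub).trans (card_union_le _ _)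
  linarith

/-- **Arbitrary weights, almost all prime multipliers.** -/
theorem dual (γ ε θ ρ β δ : ℝ) (hγ : 0 < γ) (hε : 0 < ε) (hθ : 0 < θ) (hcond : γ + (1 + θ) * ε < 1 / 3) (hρ : 0 < ρ) (hβ : 0 < β)
    (hδ : 0 < δ) (hδ1 : δ ≤ 1) :
    ∃ s N₀ : ℝ, 0 < s ∧ ∀ N : ℝ, N₀ ≤ N → ∀ M D H₀ : ℝ, 1 ≤ D → 0 < H₀ → 0 < M → M ≤ N ^ θ →
      D * max 1 (M / H₀) ≤ N ^ s → D * max 1 (M / H₀) * Real.log N ^ 3 ≤ M ^ γ →
      ∀ w : ℕ → ℝ, (∀ n, 0 ≤ w n) → (∀ n, w n ≤ 1) → N / D ≤ SW w N →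
      ∃ B : Finset ℕ, (B.card : ℝ) ≤ M ^ (1 - ε) * Real.log N ∧
        ∀ a : ℕ, a.Prime → β * M ≤ (a : ℝ) → (a : ℝ) ≤ M → a ∉ B → ∀ H : ℝ, H₀ ≤ H → H ≤ N ^ (1 - ρ) →
          |TW w N H a - SW w N| ≤ δ * SW w N := by
  classical
  -- constants
  obtain ⟨κ, hκ⟩ : ∃ κ, κ = (1 / 3 - γ - (1 + θ) * ε) / 4 := ⟨_, rfl⟩
  have hκ0 : 0 < κ := by rw [hκ]; linarith
  obtain ⟨θ₁, hθ₁⟩ : ∃ θ₁, θ₁ = θ / (1 + θ) := ⟨_, rfl⟩
  have hθp : 0 < 1 + θ := by linarith
  have hθ₁0 : 0 < θ₁ := by rw [hθ₁]; positivity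
  have hθ₁1 : θ₁ < 1 := by rw [hθ₁, div_lt_one hθp]; linarith
  have hθ₁θ : θ₁ ≤ θ := by rw [hθ₁]; exact div_le_self hθ.le (by linarith)
  have hcond2 : γ + (1 + θ₁) * (ε + κ) < 1 / 3 := by
    have h1 : (1 + θ₁) * (ε + κ) ≤ (1 + θ) * ε + 2 * κ := by nlinarith
    linarith
  obtain ⟨ρ', hρ'⟩ : ∃ ρ', ρ' = min ρ 1 / 2 := ⟨_, rfl⟩
  have hρ'0 : 0 < ρ' := by rw [hρ']; have : 0 < min ρ 1 := lt_min hρ one_pos; positivity
  have hρ'1 : 2 * ρ' ≤ ρ := by rw [hρ']; have := min_le_left ρ 1; linarith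
  have hρ'2 : ρ' ≤ 1 / 2 := by rw [hρ']; have := min_le_right ρ 1; linarith
  obtain ⟨δ₁, hδ₁⟩ : ∃ δ₁, δ₁ = δ / 8 := ⟨_, rfl⟩
  have hδ₁0 : 0 < δ₁ := by rw [hδ₁]; positivity
  have hδ₁1 : δ₁ ≤ 1 / 8 := by rw [hδ₁]; linarith
  obtain ⟨s₀, H₁, X₀, hs₀, hSD⟩ := Pool.Agent.Results.MP_711652_nt.SparseDilates.result γ (ε + κ) θ₁ ρ' β δ₁ hγ (by linarith) hθ₁0 hθ₁1
    hcond2 hρ'0 hβ hδ₁0
  -- the length of the net
  obtain ⟨lx, hlx⟩ : ∃ lx, lx = Real.log (1 + δ₁) := ⟨_, rfl⟩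
  have hlx0 : 0 < lx := by rw [hlx]; exact Real.log_pos (by linarith)
  obtain ⟨Cn, hCn⟩ : ∃ Cn : ℝ, Cn = 2 * (1 / lx + 1) := ⟨_, rfl⟩
  have hCn0 : 0 < Cn := by rw [hCn]; positivity
  -- eventual conditions
  have ev1 : ∀ᶠ N : ℝ in atTop, (1 + θ) ^ 2 * (4 / δ₁) ≤ Real.log N := Real.tendsto_log_atTop.eventually_ge_atTop _
  have ev2 : ∀ᶠ N : ℝ in atTop, (4 / δ₁) * ((1 + θ) * Real.log N) ≤ N ^ (s₀ / 2) := by
    have h1 : Tendsto (fun N : ℝ => Real.log N / N ^ (s₀ / 2)) atTop (nhds 0) := (isLittleO_log_rpow_atTop (by positivity)).tendsto_div_nhds_zero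
    have hC : 0 < 4 / δ₁ * (1 + θ) := by positivity
    have h2 := h1.eventually (gt_mem_nhds (show (0 : ℝ) < 1 / (4 / δ₁ * (1 + θ)) by positivity))
    filter_upwards [h2, eventually_gt_atTop 1] with N h2 hN
    have h3 : 0 < N ^ (s₀ / 2) := by positivity
    rw [div_lt_div_iff₀ h3 hC, one_mul] at h2
    have e : 4 / δ₁ * ((1 + θ) * Real.log N) = Real.log N * (4 / δ₁ * (1 + θ)) := by ring
    rw [e]
    exact h2.le
  have ev3 : ∀ᶠ N : ℝ in atTop, 2 ≤ N ^ ρ' := (tendsto_rpow_atTop hρ'0).eventually_ge_atTop 2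
  have ev4 : ∀ᶠ N : ℝ in atTop, Cn * 2 ≤ (Real.log N ^ 3) ^ (κ / γ) := by
    have h1 : Tendsto (fun N : ℝ => (Real.log N ^ 3) ^ (κ / γ)) atTop atTop :=
      (tendsto_rpow_atTop (div_pos hκ0 hγ)).comp ((tendsto_pow_atTop (by norm_num)).comp Real.tendsto_log_atTop)
    exact h1.eventually_ge_atTop _
  obtain ⟨N₀, hN₀⟩ := eventually_atTop.1 (ev1.and (ev2.and (ev3.and (ev4.and ((eventually_ge_atTop (max X₀ 3)).and
    (Real.tendsto_log_atTop.eventually_ge_atTop (max (max H₁ 2) (1 + θ))))))))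
  refine ⟨s₀ / 2, N₀, by positivity, fun N hN M D H₀ hD1 hH₀ hM0 hMN hR1 hR2 w hw0 hw1 hwS => ?_⟩
  obtain ⟨g1, g2, g3, g4, g5, g6⟩ := hN₀ N hN
  have g5a := (le_max_left _ _).trans g5
  have g5b := (le_max_right _ _).trans g5
  have g6a := (le_max_left _ _).trans ((le_max_left _ _).trans g6)
  have g6b := (le_max_right _ _).trans ((le_max_left _ _).trans g6)
  have g6c := (le_max_right _ _).trans g6
  have hN0 : 0 < N := by linarith
  have hN1 : 1 < N := by linarith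
  obtain ⟨l, hl⟩ : ∃ l, l = Real.log N := ⟨_, rfl⟩
  rw [← hl] at g1 g2 g4 g6a g6b g6c hR2 ⊢
  have hl0 : 0 < l := by linarith
  obtain ⟨K, hK⟩ : ∃ K, K = max 1 (M / H₀) := ⟨_, rfl⟩
  rw [← hK] at hR1 hR2
  have hK1 : 1 ≤ K := by rw [hK]; exact le_max_left _ _
  have hK2 : M / H₀ ≤ K := by rw [hK]; exact le_max_right _ _
  have hD0 : 0 < D := by linarith
  have hR0 : 1 ≤ D * K := one_le_mul_of_one_le_of_one_le hD1 hK1
  have hl3 : 1 ≤ l ^ 3 := one_le_pow₀ (by linarith)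
  have hMγ1 : l ^ 3 ≤ M ^ γ := by
    calc l ^ 3 = 1 * l ^ 3 := (one_mul _).symm
      _ ≤ D * K * l ^ 3 := mul_le_mul_of_nonneg_right hR0 (by positivity)
      _ ≤ M ^ γ := hR2
  have hM1 : 1 ≤ M := by
    by_contra hcon
    push Not at hcon
    have := Real.rpow_lt_one hM0.le hcon hγ
    linarith
  have hMM : M ^ γ ≤ M := by
    calc M ^ γ ≤ M ^ (1 : ℝ) := Real.rpow_le_rpow_of_exponent_le hM1 (by nlinarith)
      _ = M := Real.rpow_one M
  -- `H₀` is large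
  have hH₀l : l ^ 3 ≤ H₀ := by
    have h1 : M / H₀ * l ^ 3 ≤ M ^ γ := by
      calc M / H₀ * l ^ 3 ≤ K * l ^ 3 := mul_le_mul_of_nonneg_right hK2 (by positivity)
        _ = 1 * K * l ^ 3 := by ring
        _ ≤ D * K * l ^ 3 := by gcongr
        _ ≤ M ^ γ := hR2
    have h2 : M / H₀ * l ^ 3 ≤ M := h1.trans hMM
    rw [div_mul_eq_mul_div, div_le_iff₀ hH₀] at h2
    exact le_of_mul_le_mul_left h2 hM0
  have hll3 : l ≤ l ^ 3 := by
    calc l = l ^ 1 := (pow_one l).symm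
      _ ≤ l ^ 3 := pow_le_pow_right₀ (by linarith) (by norm_num)
  have hH₀1 : 1 ≤ H₀ := by linarith
  -- `X`
  obtain ⟨X, hX⟩ : ∃ X, X = N * M := ⟨_, rfl⟩
  have hNX : N ≤ X := by rw [hX]; exact le_mul_of_one_le_right hN0.le hM1
  have hX0 : 0 < X := by linarith
  have hX3 : 3 ≤ X := by linarith
  have hlogX1 : l ≤ Real.log X := by rw [hl]; exact Real.log_le_log hN0 hNX
  have hlogX2 : Real.log X ≤ (1 + θ) * l := by
    rw [hX, Real.log_mul hN0.ne' hM0.ne', ← hl]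
    have h1 : Real.log M ≤ θ * l := by
      have := Real.log_le_log hM0 hMN
      rwa [Real.log_rpow hN0, ← hl] at this
    linarith
  have hlogX0 : 0 < Real.log X := by linarith
  have hXM : X / M = N := by rw [hX]; field_simp
  have hMX : M ≤ X ^ θ₁ := by
    have h1 : M ^ (1 - θ₁) ≤ N ^ θ₁ := by
      have e : θ * (1 - θ₁) = θ₁ := by rw [hθ₁]; field_simp; ring
      calc M ^ (1 - θ₁) ≤ (N ^ θ) ^ (1 - θ₁) := Real.rpow_le_rpow hM0.le hMN (by linarith)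
        _ = N ^ θ₁ := by rw [← Real.rpow_mul hN0.le, e]
    calc M = M ^ ((1 - θ₁) + θ₁) := by rw [show (1 - θ₁) + θ₁ = 1 by ring, Real.rpow_one]
      _ = M ^ (1 - θ₁) * M ^ θ₁ := Real.rpow_add hM0 _ _
      _ ≤ N ^ θ₁ * M ^ θ₁ := mul_le_mul_of_nonneg_right h1 (by positivity)
      _ = X ^ θ₁ := by rw [hX, Real.mul_rpow hN0.le hM0.le]
  obtain ⟨D', hD'⟩ : ∃ D', D' = 4 / δ₁ * (D * K) * Real.log X := ⟨_, rfl⟩
  have h4δ : 1 ≤ 4 / δ₁ := by rw [one_le_div hδ₁0]; linarith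
  have hD'1 : 1 ≤ D' := by
    rw [hD']
    exact one_le_mul_of_one_le_of_one_le (one_le_mul_of_one_le_of_one_le h4δ hR0) (by linarith)
  have hD'0 : 0 < D' := by linarith
  have hD's : D' ≤ X ^ s₀ := by
    calc D' ≤ 4 / δ₁ * (D * K) * ((1 + θ) * l) := by rw [hD']; exact mul_le_mul_of_nonneg_left hlogX2 (by positivity)
      _ = (D * K) * (4 / δ₁ * ((1 + θ) * l)) := by ring
      _ ≤ N ^ (s₀ / 2) * N ^ (s₀ / 2) := mul_le_mul hR1 g2 (by positivity) (by positivity)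
      _ = N ^ s₀ := by rw [← Real.rpow_add hN0]; congr 1; ring
      _ ≤ X ^ s₀ := Real.rpow_le_rpow hN0.le hNX hs₀.le
  have hmax : max 1 (Real.log X / H₀) = 1 := by
    apply max_eq_left
    rw [div_le_one (by linarith)]
    calc Real.log X ≤ (1 + θ) * l := hlogX2
      _ ≤ l * l := mul_le_mul_of_nonneg_right g6c hl0.le
      _ = l ^ 2 := by ring
      _ ≤ l ^ 3 := pow_le_pow_right₀ (by linarith) (by norm_num)
      _ ≤ H₀ := hH₀l
  have hmain : D' * Real.log X * max 1 (Real.log X / H₀) ≤ M ^ γ := by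
    rw [hmax, mul_one, hD']
    calc 4 / δ₁ * (D * K) * Real.log X * Real.log X ≤ 4 / δ₁ * (D * K) * ((1 + θ) * l) * ((1 + θ) * l) := by gcongr
      _ = D * K * (((1 + θ) ^ 2 * (4 / δ₁)) * l ^ 2) := by ring
      _ ≤ D * K * (l * l ^ 2) := by
          apply mul_le_mul_of_nonneg_left _ (by positivity)
          exact mul_le_mul_of_nonneg_right g1 (by positivity)
      _ = D * K * l ^ 3 := by ring
      _ ≤ M ^ γ := hR2
  -- the set of the primes
  obtain ⟨P, hP⟩ : ∃ P : Finset ℕ, P = (Icc 1 ⌊M⌋₊).filter (fun a : ℕ => a.Prime ∧ β * M ≤ (a : ℝ)) := ⟨_, rfl⟩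
  have hPmem : ∀ a ∈ P, a.Prime ∧ β * M ≤ (a : ℝ) ∧ (a : ℝ) ≤ M := by
    intro a ha
    rw [hP, mem_filter, mem_Icc] at ha
    exact ⟨ha.2.1, ha.2.2, (Nat.le_floor_iff hM0.le).1 ha.1.2⟩
  have hS0 : 0 < SW w N := lt_of_lt_of_le (by positivity) hwS
  -- one length
  have hone : ∀ H : ℝ, H₀ ≤ H → H ≤ X ^ (1 - ρ') →
      ((P.filter (fun a => ¬ |TW w N H a - SW w N| ≤ 3 * δ₁ * SW w N)).card : ℝ) ≤ 2 * M ^ (1 - (ε + κ)) := by
    intro H hH1 hH2
    apply few_bad (TW w N H) P (SW w N) δ₁ _ hS0 hδ₁0 (by positivity)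
    intro A hAP hAc
    obtain ⟨U, hU1, hU2⟩ := hSD X (g5a.trans hNX) M D' H₀ hD'1 hD's (by linarith) hmain hM0 hMX A (fun a ha => hPmem a (hAP ha)) hAc
    rw [hXM] at hU2
    apply set_sum w hw0 hw1 N X H δ₁ (H₀ / M) hN0.le hX3 (by linarith) (by positivity) A _ U _ _
    · intro a ha n hn
      obtain ⟨_, _, ha3⟩ := hPmem a (hAP ha)
      have hnN : (n : ℝ) ≤ N := (Nat.le_floor_iff hN0.le).1 (mem_Icc.1 hn).2
      rw [hX, mul_comm N]
      exact mul_le_mul ha3 hnN (Nat.cast_nonneg _) hM0.le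
    · -- the count of the exceptional integers
      have h1 : (U.card : ℝ) * (H₀ / M + 1) ≤ 2 * N * K / D' := by
        have h2 : (U.card : ℝ) * (H₀ / M + 1) ≤ X / (H₀ * D') * (H₀ / M + 1) := mul_le_mul_of_nonneg_right hU1 (by positivity)
        have h3 : X / (H₀ * D') * (H₀ / M + 1) = N * (1 + M / H₀) / D' := by rw [hX]; field_simp
        rw [h3] at h2
        refine h2.trans ?_
        apply div_le_div_of_nonneg_right _ hD'0.le
        calc N * (1 + M / H₀) ≤ N * (K + K) := by gcongr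
          _ = 2 * N * K := by ring
      calc (U.card : ℝ) * (H₀ / M + 1) * (2 * Real.log X) ≤ 2 * N * K / D' * (2 * Real.log X) := mul_le_mul_of_nonneg_right h1 (by positivity)
        _ = δ₁ * (N / D) := by rw [hD']; field_simp; ring
        _ ≤ _ := mul_le_mul_of_nonneg_left hwS hδ₁0.le
    · intro y hy0 hyN hyU
      exact hU2 y hy0 hyN hyU H hH1 hH2
  -- the net
  obtain ⟨J, hJ⟩ : ∃ J : ℕ, J = ⌊l / lx⌋₊ + 2 := ⟨_, rfl⟩
  obtain ⟨Hj, hHj⟩ : ∃ Hj : ℕ → ℝ, Hj = fun j => H₀ * (1 + δ₁) ^ j := ⟨_, rfl⟩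
  obtain ⟨Bj, hBj⟩ : ∃ Bj : ℕ → Finset ℕ, Bj = fun j => if Hj j ≤ X ^ (1 - ρ') then P.filter (fun a => ¬ |TW w N (Hj j) a - SW w N| ≤ 3 * δ₁ * SW w N) else ∅ := ⟨_, rfl⟩
  have hBjc : ∀ j, ((Bj j).card : ℝ) ≤ 2 * M ^ (1 - (ε + κ)) := by
    intro j
    rw [hBj]
    simp only
    split_ifs with hc
    · apply hone _ _ hc
      rw [hHj]
      exact le_mul_of_one_le_right hH₀.le (one_le_pow₀ (by linarith))
    · rw [card_empty, Nat.cast_zero]; positivity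
  refine ⟨(range J).biUnion Bj, ?_, ?_⟩
  · have h1 : (((range J).biUnion Bj).card : ℝ) ≤ J * (2 * M ^ (1 - (ε + κ))) := by
      calc (((range J).biUnion Bj).card : ℝ) ≤ ∑ j ∈ range J, ((Bj j).card : ℝ) := by exact_mod_cast card_biUnion_le
        _ ≤ ∑ _j ∈ range J, 2 * M ^ (1 - (ε + κ)) := sum_le_sum fun j _ => hBjc j
        _ = _ := by rw [sum_const, card_range, nsmul_eq_mul]
    have h2 : (J : ℝ) ≤ Cn / 2 * l * 2 := by
      have h3 : (⌊l / lx⌋₊ : ℝ) ≤ l / lx := Nat.floor_le (by positivity)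
      rw [hJ, hCn]
      push_cast
      have e : 2 * (1 / lx + 1) / 2 * l * 2 = 2 * (l / lx) + 2 * l := by ring
      rw [e]
      have : 0 ≤ l / lx := by positivity
      linarith
    have h4 : Cn * 2 ≤ M ^ κ := by
      refine g4.trans ?_
      calc (l ^ 3) ^ (κ / γ) ≤ (M ^ γ) ^ (κ / γ) := Real.rpow_le_rpow (by positivity) hMγ1 (by positivity)
        _ = M ^ κ := by rw [← Real.rpow_mul hM0.le]; congr 1; field_simp
    refine h1.trans ?_
    calc (J : ℝ) * (2 * M ^ (1 - (ε + κ))) ≤ (Cn / 2 * l * 2) * (2 * M ^ (1 - (ε + κ))) := mul_le_mul_of_nonneg_right h2 (by positivity)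
      _ = (Cn * 2) * M ^ (1 - (ε + κ)) * l := by ring
      _ ≤ M ^ κ * M ^ (1 - (ε + κ)) * l := by gcongr
      _ = M ^ (1 - ε) * l := by
        rw [← Real.rpow_add hM0]; congr 2; ring
  · intro a ha1 ha2 ha3 haB H hH1 hH2
    have haP : a ∈ P := by
      rw [hP, mem_filter, mem_Icc]
      exact ⟨⟨ha1.one_lt.le, Nat.le_floor ha3⟩, ha1, ha2⟩
    have hH0 : 0 < H := by linarith
    -- the index
    obtain ⟨j, hj⟩ : ∃ j : ℕ, j = ⌊Real.log (H / H₀) / lx⌋₊ := ⟨_, rfl⟩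
    have hHH : 1 ≤ H / H₀ := by rw [one_le_div hH₀]; exact hH1
    have hlog0 : 0 ≤ Real.log (H / H₀) := Real.log_nonneg hHH
    have hj1 : (j : ℝ) ≤ Real.log (H / H₀) / lx := by rw [hj]; exact Nat.floor_le (by positivity)
    have hj2 : Real.log (H / H₀) / lx < j + 1 := by rw [hj]; exact Nat.lt_floor_add_one _
    have hexp : ∀ i : ℕ, (1 + δ₁) ^ i = Real.exp (i * lx) := by
      intro i
      rw [hlx, mul_comm, Real.exp_mul, Real.exp_log (by linarith), Real.rpow_natCast]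
    have hHj1 : Hj j ≤ H := by
      rw [hHj]
      simp only
      rw [hexp, mul_comm, ← le_div_iff₀ hH₀]
      rw [← Real.exp_log (show 0 < H / H₀ by positivity)]
      apply Real.exp_le_exp.2
      rwa [le_div_iff₀ hlx0] at hj1
    have hHj2 : H ≤ Hj (j + 1) := by
      rw [hHj]
      simp only
      rw [hexp, mul_comm, ← div_le_iff₀ hH₀]
      rw [← Real.exp_log (show 0 < H / H₀ by positivity)]
      apply Real.exp_le_exp.2
      rw [div_lt_iff₀ hlx0] at hj2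
      push_cast
      exact hj2.le
    have hstep : Hj (j + 1) = (1 + δ₁) * Hj j := by rw [hHj]; simp only; rw [pow_succ]; ring
    have hHj0 : 0 < Hj j := by rw [hHj]; simp only; positivity
    have hNρ : N ^ (1 - ρ) * 2 ≤ X ^ (1 - ρ') := by
      calc N ^ (1 - ρ) * 2 ≤ N ^ (1 - 2 * ρ') * N ^ ρ' := by
            apply mul_le_mul _ g3 (by norm_num) (by positivity)
            exact Real.rpow_le_rpow_of_exponent_le hN1.le (by linarith)
        _ = N ^ (1 - ρ') := by rw [← Real.rpow_add hN0]; congr 1; ring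
        _ ≤ X ^ (1 - ρ') := Real.rpow_le_rpow hN0.le hNX (by linarith)
    have hpos : 0 < N ^ (1 - ρ) := by positivity
    have hb1 : Hj j ≤ X ^ (1 - ρ') := by linarith
    have hb2 : Hj (j + 1) ≤ X ^ (1 - ρ') := by
      rw [hstep]
      calc (1 + δ₁) * Hj j ≤ 2 * Hj j := mul_le_mul_of_nonneg_right (by linarith) hHj0.le
        _ ≤ N ^ (1 - ρ) * 2 := by linarith
        _ ≤ _ := hNρ
    have hjJ : j + 1 < J := by
      have h1 : Real.log (H / H₀) ≤ l := by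
        rw [hl]
        apply Real.log_le_log (by positivity)
        rw [div_le_iff₀ hH₀]
        calc H ≤ N ^ (1 - ρ) := hH2
          _ ≤ N ^ (1 : ℝ) := Real.rpow_le_rpow_of_exponent_le hN1.le (by linarith)
          _ = N := Real.rpow_one N
          _ ≤ N * H₀ := le_mul_of_one_le_right hN0.le hH₀1
      have h2 : j ≤ ⌊l / lx⌋₊ := by
        rw [hj]
        apply Nat.floor_le_floor
        exact div_le_div_of_nonneg_right h1 hlx0.le
      omega
    rw [mem_biUnion] at haB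
    push Not at haB
    have hn1 := haB j (mem_range.2 (by omega))
    have hn2 := haB (j + 1) (mem_range.2 hjJ)
    rw [hBj] at hn1 hn2
    simp only at hn1 hn2
    rw [if_pos hb1, mem_filter, not_and_not_right] at hn1
    rw [if_pos hb2, mem_filter, not_and_not_right] at hn2
    have r1 := (abs_le.1 (hn1 haP)).1
    have r2 := (abs_le.1 (hn2 haP)).2
    -- comparison
    have q1 : TW w N H a ≤ (1 + δ₁) * TW w N (Hj (j + 1)) a := by
      unfold TW
      rw [mul_sum]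
      apply sum_le_sum
      intro n _
      have := density_step (y := (a : ℝ) * n) hH0 hHj2 (c := 1 + δ₁) (by rw [hstep]; exact mul_le_mul_of_nonneg_left hHj1 (by linarith))
      calc w n * density H (a * n) ≤ w n * ((1 + δ₁) * density (Hj (j + 1)) (a * n)) := mul_le_mul_of_nonneg_left this (hw0 n)
        _ = _ := by ring
    have q2 : TW w N (Hj j) a ≤ (1 + δ₁) * TW w N H a := by
      unfold TW
      rw [mul_sum]
      apply sum_le_sum
      intro n _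
      have := density_step (y := (a : ℝ) * n) hHj0 hHj1 (c := 1 + δ₁) (by rw [← hstep]; exact hHj2)
      calc w n * density (Hj j) (a * n) ≤ w n * ((1 + δ₁) * density H (a * n)) := mul_le_mul_of_nonneg_left this (hw0 n)
        _ = _ := by ring
    obtain ⟨S, hS⟩ : ∃ S, S = SW w N := ⟨_, rfl⟩
    rw [← hS] at r1 r2 hS0 ⊢
    have e8 : δ = 8 * δ₁ := by rw [hδ₁]; ring
    rw [e8, abs_le]
    constructor
    · have h1 : (1 - 3 * δ₁) * S ≤ (1 + δ₁) * TW w N H a := by linarith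
      by_contra hcon
      push Not at hcon
      have h2 : TW w N H a < (1 - 8 * δ₁) * S := by linarith
      have h3 : (1 + δ₁) * TW w N H a < (1 + δ₁) * ((1 - 8 * δ₁) * S) := mul_lt_mul_of_pos_left h2 (by linarith)
      have hsq : 0 ≤ δ₁ ^ 2 := sq_nonneg δ₁
      have h4 : (1 + δ₁) * (1 - 8 * δ₁) ≤ 1 - 3 * δ₁ := by
        have e9 : (1 + δ₁) * (1 - 8 * δ₁) = 1 - 7 * δ₁ - 8 * δ₁ ^ 2 := by ring
        rw [e9]; linarith only [hsq, hδ₁0]
      have h5 := mul_le_mul_of_nonneg_right h4 hS0.le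
      linarith
    · have h1 : TW w N (Hj (j + 1)) a ≤ (1 + 3 * δ₁) * S := by linarith
      have h2 : (1 + δ₁) * TW w N (Hj (j + 1)) a ≤ (1 + δ₁) * ((1 + 3 * δ₁) * S) := mul_le_mul_of_nonneg_left h1 (by linarith)
      have hsq : δ₁ ^ 2 ≤ 1 * δ₁ := by
        rw [sq]; exact mul_le_mul_of_nonneg_right (by linarith only [hδ₁1]) hδ₁0.le
      have h4 : (1 + δ₁) * (1 + 3 * δ₁) ≤ 1 + 8 * δ₁ := by
        have e9 : (1 + δ₁) * (1 + 3 * δ₁) = 1 + 4 * δ₁ + 3 * δ₁ ^ 2 := by ring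
        rw [e9]; linarith only [hsq, hδ₁0]
      have h5 := mul_le_mul_of_nonneg_right h4 hS0.le
      linarith

end Pool.Agent.J4H33.DU
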