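import Pool.Agent.J4H33.H5
import Pool.Agent.J4H33.H1

/-!
# Chains of primes with prescribed multipliers: one step
-/

set_option autoImplicit false

namespace Pool.Agent.J4H33.DU

open Finset Filter
open Pool.Agent.Y851.PT
open Pool.Agent.Results.MP_711652_nt.SparseDilates (density)

/-- the weighted number of primes -/
noncomputable def CW (w : ℕ → ℝ) (N H : ℝ) (a : ℕ) : ℝ := ∑ n ∈ Icc 1 ⌊N⌋₊, w n * ((PH H ((a : ℝ) * n)).card : ℝ)

theorem density_eq_ZH (H x : ℝ) : density H x = ZH H x := (ZH_eq H x).symm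

/-- the number of primes instead of the density -/
theorem dual_count (γ ε ρ β δ : ℝ) (hγ : 0 < γ) (hε : 0 < ε) (hcond : γ + ε < 1 / 3) (hρ : 0 < ρ) (hβ : 0 < β)
    (hδ : 0 < δ) (hδ1 : δ ≤ 1) :
    ∃ t N₀ : ℝ, 0 < t ∧ ∀ N : ℝ, N₀ ≤ N → ∀ M D : ℝ, 1 ≤ D → 0 < M → D * Real.log N ^ 3 ≤ M ^ γ → M ≤ N ^ t →
      ∀ w : ℕ → ℝ, (∀ n, 0 ≤ w n) → (∀ n, w n ≤ 1) → N / D ≤ SW w N →
      ∃ B : Finset ℕ, (B.card : ℝ) ≤ M ^ (1 - ε) * Real.log N ∧
        ∀ a : ℕ, a.Prime → β * M ≤ (a : ℝ) → (a : ℝ) ≤ M → a ∉ B → ∀ H : ℝ, M ≤ H → H ≤ N ^ (1 - ρ) →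
          |CW w N H a - H / Real.log N * SW w N| ≤ δ * (H / Real.log N * SW w N) := by
  classical
  obtain ⟨x₀, hx₀⟩ : ∃ x₀, x₀ = δ / 16 := ⟨_, rfl⟩
  have hx₀0 : 0 < x₀ := by rw [hx₀]; positivity
  have hx₀1 : x₀ ≤ 1 / 16 := by rw [hx₀]; linarith
  obtain ⟨θ, hθ⟩ : ∃ θ, θ = (1 / 3 - γ - ε) / (2 * ε) := ⟨_, rfl⟩
  have hθ0 : 0 < θ := by rw [hθ]; apply div_pos (by linarith) (by positivity)
  have hθε : θ * ε = (1 / 3 - γ - ε) / 2 := by rw [hθ]; field_simp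
  have hcond2 : γ + (1 + θ) * ε < 1 / 3 := by linarith
  obtain ⟨s, N₁, hs, hdual⟩ := dual γ ε θ ρ β x₀ hγ hε hθ0 hcond2 hρ hβ hx₀0 (by linarith)
  obtain ⟨t, ht⟩ : ∃ t, t = min (min θ s) (x₀ / 2) := ⟨_, rfl⟩
  have ht0 : 0 < t := by rw [ht]; exact lt_min (lt_min hθ0 hs) (by positivity)
  have ht1 : t ≤ θ := by rw [ht]; exact (min_le_left _ _).trans (min_le_left _ _)
  have ht2 : t ≤ s := by rw [ht]; exact (min_le_left _ _).trans (min_le_right _ _)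
  have ht3 : t ≤ x₀ / 2 := by rw [ht]; exact min_le_right _ _
  have ev : ∀ᶠ N : ℝ in atTop, (2 / x₀) * Real.log N ≤ N ^ (x₀ / 2) := by
    have h1 : Tendsto (fun N : ℝ => Real.log N / N ^ (x₀ / 2)) atTop (nhds 0) := (isLittleO_log_rpow_atTop (by positivity)).tendsto_div_nhds_zero
    have hC : 0 < 2 / x₀ := by positivity
    have h2 := h1.eventually (gt_mem_nhds (show (0 : ℝ) < 1 / (2 / x₀) by positivity))
    filter_upwards [h2, eventually_gt_atTop 1] with N h2 hN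
    have h3 : 0 < N ^ (x₀ / 2) := by positivity
    rw [div_lt_div_iff₀ h3 hC, one_mul, mul_comm] at h2
    exact h2.le
  obtain ⟨N₀, hN₀⟩ := eventually_atTop.1 (ev.and ((Real.tendsto_log_atTop.eventually_ge_atTop 2).and (eventually_ge_atTop (max N₁ 3))))
  refine ⟨t, N₀, ht0, fun N hN M D hD1 hM0 hMD hMN w hw0 hw1 hwS => ?_⟩
  obtain ⟨g1, g2, g3⟩ := hN₀ N hN
  have g3a := (le_max_left _ _).trans g3
  have g3b := (le_max_right _ _).trans g3
  have hN0 : 0 < N := by linarith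
  have hN1 : 1 < N := by linarith
  obtain ⟨l, hl⟩ : ∃ l, l = Real.log N := ⟨_, rfl⟩
  rw [← hl] at hMD g1 g2 ⊢
  have hl0 : 0 < l := by linarith
  have hD0 : 0 < D := by linarith
  have hl3 : 1 ≤ l ^ 3 := one_le_pow₀ (by linarith)
  have hMγ1 : D ≤ M ^ γ := by
    calc D = D * 1 := (mul_one _).symm
      _ ≤ D * l ^ 3 := mul_le_mul_of_nonneg_left hl3 hD0.le
      _ ≤ M ^ γ := hMD
  have hM1 : 1 ≤ M := by
    by_contra hcon
    push Not at hcon
    have := Real.rpow_lt_one hM0.le hcon hγ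
    linarith
  have hMM : M ^ γ ≤ M := by
    calc M ^ γ ≤ M ^ (1 : ℝ) := Real.rpow_le_rpow_of_exponent_le hM1 (by linarith)
      _ = M := Real.rpow_one M
  have hDN : D ≤ N ^ t := hMγ1.trans (hMM.trans hMN)
  have hmax : max 1 (M / M) = 1 := by rw [div_self hM0.ne', max_self]
  obtain ⟨B, hB, hBad⟩ := hdual N g3a M D M hD1 hM0 hM0 (hMN.trans (Real.rpow_le_rpow_of_exponent_le hN1.le ht1))
    (by rw [hmax, mul_one]; exact hDN.trans (Real.rpow_le_rpow_of_exponent_le hN1.le ht2))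
    (by rw [hmax, mul_one, ← hl]; exact hMD) w hw0 hw1 hwS
  refine ⟨B, by rw [hl]; exact hB, fun a ha1 ha2 ha3 haB H hH1 hH2 => ?_⟩
  have hgood := hBad a ha1 ha2 ha3 haB H hH1 hH2
  obtain ⟨S, hS⟩ : ∃ S, S = SW w N := ⟨_, rfl⟩
  rw [← hS] at hgood hwS ⊢
  have hS0 : 0 < S := lt_of_lt_of_le (by positivity) hwS
  have hH0 : 0 < H := by linarith
  have haR : (1 : ℝ) ≤ a := by exact_mod_cast ha1.one_lt.le
  obtain ⟨c, hc⟩ : ∃ c, c = CW w N H a := ⟨_, rfl⟩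
  rw [← hc]
  have hlogM : Real.log M ≤ t * l := by
    have := Real.log_le_log hM0 hMN
    rwa [Real.log_rpow hN0, ← hl] at this
  have hlogX : ∀ n ∈ Icc 1 ⌊N⌋₊, Real.log ((a : ℝ) * n) ≤ (1 + x₀) * l := by
    intro n hn
    rw [mem_Icc] at hn
    have hn0 : (0 : ℝ) < n := by exact_mod_cast (by omega : 0 < n)
    have hnN : (n : ℝ) ≤ N := (Nat.le_floor_iff hN0.le).1 hn.2
    have h1 : Real.log ((a : ℝ) * n) ≤ Real.log (M * N) := by
      apply Real.log_le_log (by positivity)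
      exact mul_le_mul ha3 hnN hn0.le hM0.le
    rw [Real.log_mul hM0.ne' hN0.ne', ← hl] at h1
    have h2 : t * l ≤ x₀ * l := mul_le_mul_of_nonneg_right (by linarith) hl0.le
    linarith
  -- lower bound
  have hup : TW w N H a ≤ (1 + x₀) * l / H * c := by
    rw [hc]
    unfold TW CW
    rw [mul_sum]
    apply sum_le_sum
    intro n hn
    rw [density_eq_ZH]
    unfold ZH
    have h1 := hlogX n hn
    calc w n * (((PH H ((a : ℝ) * n)).card : ℝ) * Real.log ((a : ℝ) * n) / H) ≤ w n * (((PH H ((a : ℝ) * n)).card : ℝ) * ((1 + x₀) * l) / H) := by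
          apply mul_le_mul_of_nonneg_left _ (hw0 n)
          gcongr
      _ = (1 + x₀) * l / H * (w n * ((PH H ((a : ℝ) * n)).card : ℝ)) := by ring
  -- upper bound
  have hlo : (1 - x₀) * l / H * (c - N ^ (1 - x₀) * (2 * H)) ≤ TW w N H a := by
    obtain ⟨T₁, hT₁⟩ : ∃ T₁, T₁ = (Icc 1 ⌊N⌋₊).filter (fun n : ℕ => (n : ℝ) ≤ N ^ (1 - x₀)) := ⟨_, rfl⟩
    have e1 : c = ∑ n ∈ T₁, w n * ((PH H ((a : ℝ) * n)).card : ℝ) +
        ∑ n ∈ (Icc 1 ⌊N⌋₊).filter (fun n : ℕ => ¬ (n : ℝ) ≤ N ^ (1 - x₀)), w n * ((PH H ((a : ℝ) * n)).card : ℝ) := by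
      rw [hc, hT₁]; unfold CW; rw [sum_filter_add_sum_filter_not]
    have e2 : ∑ n ∈ T₁, w n * ((PH H ((a : ℝ) * n)).card : ℝ) ≤ N ^ (1 - x₀) * (2 * H) := by
      calc ∑ n ∈ T₁, w n * ((PH H ((a : ℝ) * n)).card : ℝ) ≤ ∑ _n ∈ T₁, 2 * H := by
            apply sum_le_sum
            intro n _
            have h1 := PH_card_le (H := H) (x := (a : ℝ) * n) hH0.le (by positivity)
            calc w n * ((PH H ((a : ℝ) * n)).card : ℝ) ≤ 1 * ((PH H ((a : ℝ) * n)).card : ℝ) := mul_le_mul_of_nonneg_right (hw1 n) (Nat.cast_nonneg _)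
              _ ≤ 2 * H := by linarith
        _ = T₁.card * (2 * H) := by rw [sum_const, nsmul_eq_mul]
        _ ≤ N ^ (1 - x₀) * (2 * H) := by
          apply mul_le_mul_of_nonneg_right _ (by positivity)
          have h2 : T₁ ⊆ Icc 1 ⌊N ^ (1 - x₀)⌋₊ := by
            intro n hn
            rw [hT₁, mem_filter, mem_Icc] at hn
            exact mem_Icc.2 ⟨hn.1.1, Nat.le_floor hn.2⟩
          have h3 := card_le_card h2
          rw [Nat.card_Icc, Nat.add_sub_cancel] at h3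
          have h4 : (⌊N ^ (1 - x₀)⌋₊ : ℝ) ≤ N ^ (1 - x₀) := Nat.floor_le (by positivity)
          have h5 : (T₁.card : ℝ) ≤ (⌊N ^ (1 - x₀)⌋₊ : ℝ) := by exact_mod_cast h3
          linarith
    have e3 : (1 - x₀) * l / H * ∑ n ∈ (Icc 1 ⌊N⌋₊).filter (fun n : ℕ => ¬ (n : ℝ) ≤ N ^ (1 - x₀)), w n * ((PH H ((a : ℝ) * n)).card : ℝ) ≤ TW w N H a := by
      unfold TW
      rw [mul_sum]
      calc ∑ n ∈ (Icc 1 ⌊N⌋₊).filter (fun n : ℕ => ¬ (n : ℝ) ≤ N ^ (1 - x₀)), (1 - x₀) * l / H * (w n * ((PH H ((a : ℝ) * n)).card : ℝ))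
          ≤ ∑ n ∈ (Icc 1 ⌊N⌋₊).filter (fun n : ℕ => ¬ (n : ℝ) ≤ N ^ (1 - x₀)), w n * density H ((a : ℝ) * n) := by
            apply sum_le_sum
            intro n hn
            rw [mem_filter, mem_Icc] at hn
            obtain ⟨hn1, hn2⟩ := hn
            push Not at hn2
            rw [density_eq_ZH]
            unfold ZH
            have hn0 : (0 : ℝ) < n := by exact_mod_cast (by omega : 0 < n)
            have h1 : (1 - x₀) * l ≤ Real.log ((a : ℝ) * n) := by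
              have h2 : N ^ (1 - x₀) ≤ (a : ℝ) * n := by nlinarith
              have h3 := Real.log_le_log (by positivity) h2
              rwa [Real.log_rpow hN0, ← hl] at h3
            calc (1 - x₀) * l / H * (w n * ((PH H ((a : ℝ) * n)).card : ℝ)) = w n * (((PH H ((a : ℝ) * n)).card : ℝ) * ((1 - x₀) * l) / H) := by ring
              _ ≤ w n * (((PH H ((a : ℝ) * n)).card : ℝ) * Real.log ((a : ℝ) * n) / H) := by
                apply mul_le_mul_of_nonneg_left _ (hw0 n)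
                gcongr
        _ ≤ ∑ n ∈ Icc 1 ⌊N⌋₊, w n * density H ((a : ℝ) * n) := by
            apply sum_le_sum_of_subset_of_nonneg (filter_subset _ _)
            intro n _ _
            exact mul_nonneg (hw0 n) (Pool.Agent.J4H33.LF.density_nonneg H _ hH0)
    have hq : 0 ≤ (1 - x₀) * l / H := by
      have : 0 ≤ 1 - x₀ := by linarith
      positivity
    refine le_trans (mul_le_mul_of_nonneg_left ?_ hq) e3
    linarith
  obtain ⟨r1, r2⟩ := abs_le.1 hgood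
  obtain ⟨E, hE⟩ : ∃ E, E = H / l * S := ⟨_, rfl⟩
  rw [← hE]
  have hE0 : 0 < E := by rw [hE]; positivity
  -- the small integers are negligible
  have hsmall : N ^ (1 - x₀) * (2 * H) ≤ x₀ * E := by
    have h1 : N ^ (1 - x₀) * (2 * l * D / x₀) ≤ N := by
      calc N ^ (1 - x₀) * (2 * l * D / x₀) = N ^ (1 - x₀) * ((2 / x₀ * l) * D) := by ring
        _ ≤ N ^ (1 - x₀) * (N ^ (x₀ / 2) * N ^ (x₀ / 2)) := by
          apply mul_le_mul_of_nonneg_left _ (by positivity)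
          apply mul_le_mul g1 _ hD0.le (by positivity)
          exact hDN.trans (Real.rpow_le_rpow_of_exponent_le hN1.le ht3)
        _ = N := by
          rw [← Real.rpow_add hN0, ← Real.rpow_add hN0]
          have : 1 - x₀ + (x₀ / 2 + x₀ / 2) = 1 := by ring
          rw [this, Real.rpow_one]
    have h2 : N ^ (1 - x₀) * (2 * l / x₀) ≤ S := by
      refine le_trans ?_ hwS
      rw [le_div_iff₀ hD0]
      calc N ^ (1 - x₀) * (2 * l / x₀) * D = N ^ (1 - x₀) * (2 * l * D / x₀) := by ring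
        _ ≤ N := h1
    have h3 : N ^ (1 - x₀) * (2 * H) = x₀ * (H / l * (N ^ (1 - x₀) * (2 * l / x₀))) := by field_simp
    rw [h3, hE]
    gcongr
  have hq1 : (1 - x₀) * S * (H / l) ≤ (1 + x₀) * c := by
    have h1 : (1 - x₀) * S ≤ (1 + x₀) * l / H * c := by linarith
    have h2 := mul_le_mul_of_nonneg_right h1 (show 0 ≤ H / l by positivity)
    calc (1 - x₀) * S * (H / l) ≤ (1 + x₀) * l / H * c * (H / l) := h2
      _ = (1 + x₀) * c := by field_simp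
  have hq2 : (1 - x₀) * (c - N ^ (1 - x₀) * (2 * H)) ≤ (1 + x₀) * E := by
    have h1 : (1 - x₀) * l / H * (c - N ^ (1 - x₀) * (2 * H)) ≤ (1 + x₀) * S := by linarith
    have h2 := mul_le_mul_of_nonneg_right h1 (show 0 ≤ H / l by positivity)
    calc (1 - x₀) * (c - N ^ (1 - x₀) * (2 * H)) = (1 - x₀) * l / H * (c - N ^ (1 - x₀) * (2 * H)) * (H / l) := by field_simp
      _ ≤ (1 + x₀) * S * (H / l) := h2
      _ = (1 + x₀) * E := by rw [hE]; ring
  have hq1' : (1 - x₀) * E ≤ (1 + x₀) * c := by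
    calc (1 - x₀) * E = (1 - x₀) * S * (H / l) := by rw [hE]; ring
      _ ≤ _ := hq1
  have e16 : δ = 16 * x₀ := by rw [hx₀]; ring
  rw [e16, abs_le]
  have hx2 : x₀ ^ 2 ≤ 1 / 16 * x₀ := by rw [sq]; exact mul_le_mul_of_nonneg_right hx₀1 hx₀0.le
  have hx2' : 0 ≤ x₀ ^ 2 := sq_nonneg _
  constructor
  · by_contra hcon
    push Not at hcon
    have h1 : c < (1 - 16 * x₀) * E := by linarith
    have h2 : (1 + x₀) * c < (1 + x₀) * ((1 - 16 * x₀) * E) := mul_lt_mul_of_pos_left h1 (by linarith)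
    have h3 : (1 + x₀) * (1 - 16 * x₀) ≤ 1 - x₀ := by
      have e9 : (1 + x₀) * (1 - 16 * x₀) = 1 - 15 * x₀ - 16 * x₀ ^ 2 := by ring
      rw [e9]; linarith
    have h4 := mul_le_mul_of_nonneg_right h3 hE0.le
    linarith
  · by_contra hcon
    push Not at hcon
    have h1 : (1 + 16 * x₀) * E < c := by linarith
    have h2 : (1 + 15 * x₀) * E < c - N ^ (1 - x₀) * (2 * H) := by linarith
    have h3 : (1 - x₀) * ((1 + 15 * x₀) * E) < (1 - x₀) * (c - N ^ (1 - x₀) * (2 * H)) := mul_lt_mul_of_pos_left h2 (by linarith)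
    have h4 : 1 + x₀ ≤ (1 - x₀) * (1 + 15 * x₀) := by
      have e9 : (1 - x₀) * (1 + 15 * x₀) = 1 + 14 * x₀ - 15 * x₀ ^ 2 := by ring
      rw [e9]; linarith
    have h5 := mul_le_mul_of_nonneg_right h4 hE0.le
    linarith

/-- the push-forward -/
noncomputable def PW (w : ℕ → ℝ) (N H : ℝ) (a : ℕ) (p : ℕ) : ℝ := ∑ n ∈ (Icc 1 ⌊N⌋₊).filter (fun n : ℕ => p ∈ PH H ((a : ℝ) * n)), w n

theorem PW_nonneg (w : ℕ → ℝ) (hw0 : ∀ n, 0 ≤ w n) (N H : ℝ) (a p : ℕ) : 0 ≤ PW w N H a p := sum_nonneg fun n _ => hw0 n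

theorem PW_le (w : ℕ → ℝ) (hw1 : ∀ n, w n ≤ 1) {N H M β : ℝ} (hM : 0 < M) (hβ : 0 < β) (hβ1 : β ≤ 1) (hMH : M ≤ H) {a : ℕ}
    (ha : β * M ≤ (a : ℝ)) (p : ℕ) : PW w N H a p ≤ 2 * H / (β * M) := by
  refine le_trans ?_ (back_count (p := p) hM hβ hβ1 hMH ha (Icc 1 ⌊N⌋₊))
  unfold PW
  calc ∑ n ∈ (Icc 1 ⌊N⌋₊).filter (fun n : ℕ => p ∈ PH H ((a : ℝ) * n)), w n
      ≤ ∑ _n ∈ (Icc 1 ⌊N⌋₊).filter (fun n : ℕ => p ∈ PH H ((a : ℝ) * n)), (1 : ℝ) := sum_le_sum fun n _ => hw1 n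
    _ = _ := by rw [sum_const, nsmul_eq_mul, mul_one]

theorem PW_sum (w f : ℕ → ℝ) {N H M : ℝ} (hN : 0 ≤ N) {a : ℕ} (ha : (a : ℝ) ≤ M) :
    ∑ n ∈ Icc 1 ⌊N⌋₊, w n * ∑ p ∈ PH H ((a : ℝ) * n), f p = ∑ p ∈ Icc 1 ⌊N * M⌋₊, PW w N H a p * f p := by
  classical
  have h1 : ∀ n ∈ Icc 1 ⌊N⌋₊, w n * ∑ p ∈ PH H ((a : ℝ) * n), f p =
      ∑ p ∈ Icc 1 ⌊N * M⌋₊, if p ∈ PH H ((a : ℝ) * n) then w n * f p else 0 := by
    intro n hn
    rw [← sum_filter, mul_sum]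
    apply sum_congr _ fun _ _ => rfl
    ext p
    rw [mem_filter, mem_Icc]
    constructor
    · intro hp
      have h2 := (mem_PH (H := H) (show (0 : ℝ) ≤ (a : ℝ) * n by positivity) p).1 hp
      refine ⟨⟨h2.1.one_lt.le, ?_⟩, hp⟩
      apply Nat.le_floor
      have hnN : (n : ℝ) ≤ N := (Nat.le_floor_iff hN).1 (mem_Icc.1 hn).2
      have h3 : (a : ℝ) * n ≤ M * N := mul_le_mul ha hnN (Nat.cast_nonneg _) ((Nat.cast_nonneg _).trans ha)
      linarith [h2.2.2]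
    · exact fun h => h.2
  rw [sum_congr rfl h1, sum_comm]
  apply sum_congr rfl
  intro p _
  unfold PW
  rw [sum_mul, sum_filter]

theorem PW_card (w : ℕ → ℝ) {N H M : ℝ} (hN : 0 ≤ N) {a : ℕ} (ha : (a : ℝ) ≤ M) :
    SW (PW w N H a) (N * M) = CW w N H a := by
  have h := PW_sum w (fun _ => 1) (H := H) hN ha
  simp only [mul_one, sum_const, nsmul_eq_mul] at h
  exact h.symm

end Pool.Agent.J4H33.DU
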