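import Pool.Agent.J4H33.H6

/-!
# Chains of primes with prescribed multipliers: fixed lengths of the windows
-/

set_option autoImplicit false

namespace Pool.Agent.J4H33.DU

open Finset Filter
open Pool.Agent.Y851.PT

/-- the number of chains with prescribed multipliers -/
noncomputable def pch : List ℕ → List ℝ → ℕ → ℝ
  | (a :: A), (H :: L), n => ∑ p ∈ PH H ((a : ℝ) * n), pch A L p
  | _, _, _ => 1

/-- the product of the expected numbers of primes -/
noncomputable def pex (l : ℝ) (L : List ℝ) : ℝ := (L.map (fun H => H / l)).prod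

/-- all lists of length `k` -/
def lsts (P : Finset ℕ) : ℕ → Finset (List ℕ)
  | 0 => {[]}
  | (k + 1) => (P ×ˢ lsts P k).image (fun x => x.1 :: x.2)

theorem mem_lsts (P : Finset ℕ) : ∀ (k : ℕ) (L : List ℕ), L.length = k → (∀ a ∈ L, a ∈ P) → L ∈ lsts P k := by
  intro k
  induction k with
  | zero =>
    intro L hL _
    rw [List.length_eq_zero_iff] at hL
    rw [hL]
    unfold lsts
    exact mem_singleton_self _
  | succ k ih =>
    intro L hL hP
    obtain _ | ⟨a, L⟩ := L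
    · simp at hL
    rw [List.length_cons] at hL
    unfold lsts
    rw [mem_image]
    refine ⟨(a, L), ?_, rfl⟩
    rw [mem_product]
    exact ⟨hP a List.mem_cons_self, ih L (by omega) fun b hb => hP b (List.mem_cons_of_mem _ hb)⟩

theorem card_lsts (P : Finset ℕ) (k : ℕ) : (lsts P k).card ≤ P.card ^ k := by
  induction k with
  | zero => unfold lsts; simp
  | succ k ih =>
    unfold lsts
    calc ((P ×ˢ lsts P k).image (fun x => x.1 :: x.2)).card ≤ (P ×ˢ lsts P k).card := card_image_le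
      _ = P.card * (lsts P k).card := card_product _ _
      _ ≤ P.card * P.card ^ k := Nat.mul_le_mul_left _ ih
      _ = P.card ^ (k + 1) := by ring

theorem pex_nonneg {l : ℝ} (hl : 0 < l) : ∀ L : List ℝ, (∀ H ∈ L, 0 ≤ H) → 0 ≤ pex l L := by
  intro L
  induction L with
  | nil => intro _; unfold pex; simp
  | cons H L ih =>
    intro h
    unfold pex
    rw [List.map_cons, List.prod_cons]
    have h1 := ih fun H' hH' => h H' (List.mem_cons_of_mem _ hH')
    have h2 := h H List.mem_cons_self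
    unfold pex at h1
    positivity

theorem pex_cons (l H : ℝ) (L : List ℝ) : pex l (H :: L) = H / l * pex l L := by
  unfold pex
  rw [List.map_cons, List.prod_cons]

/-- changing `l` -/
theorem pex_le {l l' u : ℝ} (hl : 0 < l) (hll : l ≤ l') (hu : l' ≤ (1 + u) * l) (hu0 : 0 ≤ u) : ∀ L : List ℝ, (∀ H ∈ L, 0 ≤ H) →
    pex l' L ≤ pex l L ∧ pex l L ≤ (1 + u) ^ L.length * pex l' L := by
  intro L
  induction L with
  | nil => intro _; unfold pex; simp
  | cons H L ih =>
    intro h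
    have hH := h H List.mem_cons_self
    have hL : ∀ H' ∈ L, 0 ≤ H' := fun H' hH' => h H' (List.mem_cons_of_mem _ hH')
    obtain ⟨h1, h2⟩ := ih hL
    have hl' : 0 < l' := by linarith
    have p1 := pex_nonneg hl L hL
    have p2 := pex_nonneg hl' L hL
    rw [pex_cons, pex_cons, List.length_cons, pow_succ]
    constructor
    · apply mul_le_mul _ h1 p2 (by positivity)
      exact div_le_div_of_nonneg_left hH hl hll
    · have h3 : H / l ≤ (1 + u) * (H / l') := by
        rw [div_le_iff₀ hl]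
        calc H = H / l' * l' := by field_simp
          _ ≤ H / l' * ((1 + u) * l) := mul_le_mul_of_nonneg_left hu (by positivity)
          _ = (1 + u) * (H / l') * l := by ring
      calc H / l * pex l L ≤ ((1 + u) * (H / l')) * ((1 + u) ^ L.length * pex l' L) := mul_le_mul h3 h2 p1 (by positivity)
        _ = _ := by ring

theorem pow_small {t : ℝ} (ht : 0 ≤ t) : ∀ n : ℕ, 2 * (n * t) ≤ 1 → (1 + t) ^ n ≤ 1 + 2 * (n * t) := by
  intro n
  induction n with
  | zero => intro _; simp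
  | succ n ih =>
    intro h
    push_cast at h ⊢
    have hn : 2 * (n * t) ≤ 1 := by nlinarith
    have h1 := ih hn
    rw [pow_succ]
    have h2 : (1 + t) ^ n * (1 + t) ≤ (1 + 2 * (n * t)) * (1 + t) := mul_le_mul_of_nonneg_right h1 (by linarith)
    have h3 : 2 * (n * t) * t ≤ 1 * t := mul_le_mul_of_nonneg_right hn ht
    nlinarith

/-- **Prescribed multipliers, fixed lengths of the windows.** -/
theorem tuples (k : ℕ) : ∀ (γ ε ρ β δ : ℝ), 0 < γ → 0 < ε → γ + ε < 1 / 3 → 0 < ρ → ρ ≤ 1 → 0 < β → β ≤ 1 → 0 < δ → δ ≤ 1 →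
    ∃ t N₀ : ℝ, 0 < t ∧ ∀ N : ℝ, N₀ ≤ N → ∀ M D : ℝ, 1 ≤ D → 0 < M → D * (8 / β * Real.log N) ^ (k + 2) ≤ M ^ γ → M ≤ N ^ t →
      ∀ w : ℕ → ℝ, (∀ n, 0 ≤ w n) → (∀ n, w n ≤ 1) → N / D ≤ SW w N →
      ∀ L : List ℝ, L.length = k → (∀ H ∈ L, M ≤ H ∧ H ≤ N ^ (1 - ρ)) →
      ∃ B : Finset (List ℕ), (B.card : ℝ) ≤ k * 2 ^ k * (M ^ (k - ε) * Real.log N) ∧
        ∀ A : List ℕ, A.length = k → (∀ a ∈ A, a.Prime ∧ β * M ≤ (a : ℝ) ∧ (a : ℝ) ≤ M) → A ∉ B →
          |∑ n ∈ Icc 1 ⌊N⌋₊, w n * pch A L n - SW w N * pex (Real.log N) L| ≤ δ * (SW w N * pex (Real.log N) L) := by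
  classical
  induction k with
  | zero =>
    intro γ ε ρ β δ hγ hε hcond hρ hρ1 hβ hβ1 hδ hδ1
    refine ⟨1, 3, one_pos, fun N hN M D hD1 hM0 hMD hMN w hw0 hw1 hwS L hL _ => ⟨∅, by simp, fun A hA _ _ => ?_⟩⟩
    rw [List.length_eq_zero_iff] at hA hL
    subst hA hL
    have hS0 : 0 ≤ SW w N := sum_nonneg fun n _ => hw0 n
    have e : ∑ n ∈ Icc 1 ⌊N⌋₊, w n * pch [] [] n = SW w N := by
      unfold SW
      apply sum_congr rfl
      intro n _
      unfold pch
      rw [mul_one]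
    unfold pex
    rw [List.map_nil, List.prod_nil, mul_one, e, sub_self, abs_zero]
    positivity
  | succ k ih =>
    intro γ ε ρ β δ hγ hε hcond hρ hρ1 hβ hβ1 hδ hδ1
    obtain ⟨x, hx⟩ : ∃ x, x = δ / 4 := ⟨_, rfl⟩
    have hx0 : 0 < x := by rw [hx]; positivity
    have hx1 : x ≤ 1 / 4 := by rw [hx]; linarith
    obtain ⟨t₁, N₁, ht₁, hcount⟩ := dual_count γ ε ρ β x hγ hε hcond hρ hβ hx0 (by linarith)
    obtain ⟨t₂, N₂, ht₂, hih⟩ := ih γ ε ρ β x hγ hε hcond hρ hρ1 hβ hβ1 hx0 (by linarith)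
    obtain ⟨t, ht⟩ : ∃ t, t = min (min t₁ t₂) (x / (2 * (k + 2))) := ⟨_, rfl⟩
    have hk0 : (0 : ℝ) < k + 2 := by positivity
    have ht0 : 0 < t := by rw [ht]; exact lt_min (lt_min ht₁ ht₂) (by positivity)
    have ht1 : t ≤ t₁ := by rw [ht]; exact (min_le_left _ _).trans (min_le_left _ _)
    have ht2 : t ≤ t₂ := by rw [ht]; exact (min_le_left _ _).trans (min_le_right _ _)
    have ht3 : t ≤ x / (2 * (k + 2)) := by rw [ht]; exact min_le_right _ _
    have ht4 : 2 * ((k + 2) * t) ≤ x := by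
      rw [le_div_iff₀ (by positivity)] at ht3
      linarith
    have ht5 : (1 + t) ^ (k + 2) ≤ 1 + x := by
      have h1 := pow_small ht0.le (k + 2) (by push_cast; linarith)
      push_cast at h1
      linarith
    have ht6 : (1 + t) ^ k ≤ 1 + x := (pow_le_pow_right₀ (by linarith) (by omega)).trans ht5
    have ht7 : t ≤ 1 := by nlinarith [Nat.cast_nonneg (α := ℝ) k]
    obtain ⟨N₀, hN₀⟩ := eventually_atTop.1 ((Real.tendsto_log_atTop.eventually_ge_atTop 2).and (eventually_ge_atTop (max (max N₁ N₂) 3)))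
    refine ⟨t, N₀, ht0, fun N hN M D hD1 hM0 hMD hMN w hw0 hw1 hwS L hL hLH => ?_⟩
    obtain ⟨g2, g3⟩ := hN₀ N hN
    have g3a := (le_max_left _ _).trans ((le_max_left _ _).trans g3)
    have g3b := (le_max_right _ _).trans ((le_max_left _ _).trans g3)
    have g3c := (le_max_right _ _).trans g3
    have hN0 : 0 < N := by linarith
    have hN1 : 1 < N := by linarith
    obtain ⟨l, hl⟩ : ∃ l, l = Real.log N := ⟨_, rfl⟩
    rw [← hl] at hMD g2 ⊢
    have hl0 : 0 < l := by linarith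
    have hD0 : 0 < D := by linarith
    have h8β : 1 ≤ 8 / β := by rw [one_le_div hβ]; linarith
    have h8l : 1 ≤ 8 / β * l := by nlinarith
    have hbase : D * l ^ 3 ≤ M ^ γ := by
      refine le_trans ?_ hMD
      apply mul_le_mul_of_nonneg_left _ hD0.le
      calc l ^ 3 ≤ (8 / β * l) ^ 3 := by
            apply pow_le_pow_left₀ hl0.le
            exact le_mul_of_one_le_left hl0.le h8β
        _ ≤ (8 / β * l) ^ (k + 1 + 2) := pow_le_pow_right₀ h8l (by omega)
    have hl3 : 1 ≤ l ^ 3 := one_le_pow₀ (by linarith)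
    have hMγ1 : 1 ≤ M ^ γ := by
      calc (1 : ℝ) ≤ D * l ^ 3 := one_le_mul_of_one_le_of_one_le hD1 hl3
        _ ≤ _ := hbase
    have hM1 : 1 ≤ M := by
      by_contra hcon
      push Not at hcon
      have := Real.rpow_lt_one hM0.le hcon hγ
      linarith
    -- the first multiplier
    obtain _ | ⟨H, L⟩ := L
    · simp at hL
    rw [List.length_cons] at hL
    have hLk : L.length = k := by omega
    have hH1 := hLH H List.mem_cons_self
    have hLH' : ∀ H' ∈ L, M ≤ H' ∧ H' ≤ N ^ (1 - ρ) := fun H' hH' => hLH H' (List.mem_cons_of_mem _ hH')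
    have hH0 : 0 < H := by linarith [hH1.1]
    obtain ⟨B₁, hB₁, hB₁'⟩ := hcount N g3a M D hD1 hM0 (by rw [← hl]; exact hbase) (hMN.trans (Real.rpow_le_rpow_of_exponent_le hN1.le ht1)) w hw0 hw1 hwS
    rw [← hl] at hB₁ hB₁'
    obtain ⟨S, hS⟩ : ∃ S, S = SW w N := ⟨_, rfl⟩
    rw [← hS] at hwS hB₁' ⊢
    have hS0 : 0 < S := lt_of_lt_of_le (by positivity) hwS
    -- the new scale
    obtain ⟨N', hN'⟩ : ∃ N', N' = N * M := ⟨_, rfl⟩
    have hNN' : N ≤ N' := by rw [hN']; exact le_mul_of_one_le_right hN0.le hM1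
    have hN'0 : 0 < N' := by linarith
    have hN'1 : 1 < N' := by linarith
    obtain ⟨l', hl'⟩ : ∃ l', l' = Real.log N' := ⟨_, rfl⟩
    have hll' : l ≤ l' := by rw [hl, hl']; exact Real.log_le_log hN0 hNN'
    have hl'l : l' ≤ (1 + t) * l := by
      rw [hl', hN', Real.log_mul hN0.ne' hM0.ne', ← hl]
      have h1 : Real.log M ≤ t * l := by
        have := Real.log_le_log hM0 hMN
        rwa [Real.log_rpow hN0, ← hl] at this
      linarith
    have hl'0 : 0 < l' := by linarith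
    obtain ⟨G, hG⟩ : ∃ G, G = 2 * H / (β * M) := ⟨_, rfl⟩
    have hG0 : 0 < G := by rw [hG]; positivity
    obtain ⟨D', hD'⟩ : ∃ D', D' = 4 / β * l * D := ⟨_, rfl⟩
    have h4β : 1 ≤ 4 / β := by rw [one_le_div hβ]; linarith
    have hD'1 : 1 ≤ D' := by
      rw [hD']
      exact one_le_mul_of_one_le_of_one_le (one_le_mul_of_one_le_of_one_le h4β (by linarith)) hD1
    have hcondk : D' * (8 / β * l') ^ (k + 2) ≤ M ^ γ := by
      calc D' * (8 / β * l') ^ (k + 2) ≤ D' * (8 / β * ((1 + t) * l)) ^ (k + 2) := by gcongr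
        _ = D' * ((1 + t) ^ (k + 2) * (8 / β * l) ^ (k + 2)) := by rw [← mul_pow]; congr 2; ring
        _ ≤ D' * (2 * (8 / β * l) ^ (k + 2)) := by
          apply mul_le_mul_of_nonneg_left _ (by linarith)
          apply mul_le_mul_of_nonneg_right _ (by positivity)
          linarith
        _ = D * (8 / β * l) ^ (k + 1 + 2) := by rw [hD']; ring
        _ ≤ M ^ γ := hMD
    have hMN' : M ≤ N' ^ t₂ := hMN.trans ((Real.rpow_le_rpow_of_exponent_le hN1.le ht2).trans (Real.rpow_le_rpow hN0.le hNN' ht₂.le))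
    have hLH'' : ∀ H' ∈ L, M ≤ H' ∧ H' ≤ N' ^ (1 - ρ) := fun H' hH' =>
      ⟨(hLH' H' hH').1, (hLH' H' hH').2.trans (Real.rpow_le_rpow hN0.le hNN' (by linarith))⟩
    have hfam : ∀ a : ℕ, ∃ B : Finset (List ℕ), (B.card : ℝ) ≤ k * 2 ^ k * (M ^ (k - ε) * l') ∧
        (a.Prime → β * M ≤ (a : ℝ) → (a : ℝ) ≤ M → a ∉ B₁ → ∀ A : List ℕ, A.length = k → (∀ a ∈ A, a.Prime ∧ β * M ≤ (a : ℝ) ∧ (a : ℝ) ≤ M) → A ∉ B →
          |∑ n ∈ Icc 1 ⌊N'⌋₊, PW w N H a n * pch A L n - CW w N H a * pex l' L| ≤ x * (CW w N H a * pex l' L)) := by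
      intro a
      by_cases ha : a.Prime ∧ β * M ≤ (a : ℝ) ∧ (a : ℝ) ≤ M ∧ a ∉ B₁
      · obtain ⟨ha1, ha2, ha3, ha4⟩ := ha
        have hc := hB₁' a ha1 ha2 ha3 ha4 H hH1.1 hH1.2
        have hCS : SW (PW w N H a) N' = CW w N H a := by rw [hN']; exact PW_card w hN0.le ha3
        have hSWd : SW (fun n => PW w N H a n / G) N' = CW w N H a / G := by
          rw [← hCS]; unfold SW; rw [sum_div]
        obtain ⟨B, hB, hB'⟩ := hih N' (g3b.trans hNN') M D' hD'1 hM0 (by rw [← hl']; exact hcondk) hMN' (fun n => PW w N H a n / G)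
          (fun n => div_nonneg (PW_nonneg w hw0 _ _ _ _) hG0.le)
          (fun n => by
            rw [div_le_one hG0, hG]
            exact PW_le w hw1 hM0 hβ hβ1 hH1.1 ha2 n)
          (by
            rw [hSWd]
            have h1 : (1 - x) * (H / l * S) ≤ CW w N H a := by linarith [(abs_le.1 hc).1]
            have h2 : 1 / 2 * (H / l * (N / D)) ≤ CW w N H a := by
              refine le_trans ?_ h1
              apply mul_le_mul (by linarith) _ (by positivity) (by linarith)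
              gcongr
            rw [le_div_iff₀ hG0]
            refine le_trans (le_of_eq ?_) h2
            rw [hN', hD', hG]
            field_simp
            ring) L hLk hLH''
        rw [← hl'] at hB hB'
        refine ⟨B, hB, fun _ _ _ _ A hA1 hA2 hA3 => ?_⟩
        have h1 := hB' A hA1 hA2 hA3
        rw [hSWd] at h1
        have e1 : ∑ n ∈ Icc 1 ⌊N'⌋₊, PW w N H a n / G * pch A L n = (∑ n ∈ Icc 1 ⌊N'⌋₊, PW w N H a n * pch A L n) / G := by
          rw [sum_div]
          apply sum_congr rfl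
          intro n _
          ring
        rw [e1] at h1
        have e2 : (∑ n ∈ Icc 1 ⌊N'⌋₊, PW w N H a n * pch A L n) / G - CW w N H a / G * pex l' L =
            (∑ n ∈ Icc 1 ⌊N'⌋₊, PW w N H a n * pch A L n - CW w N H a * pex l' L) / G := by ring
        have e3 : x * (CW w N H a / G * pex l' L) = x * (CW w N H a * pex l' L) / G := by ring
        rw [e2, e3, abs_div, abs_of_pos hG0, div_le_div_iff_of_pos_right hG0] at h1
        exact h1
      · refine ⟨∅, by rw [card_empty, Nat.cast_zero]; positivity, fun h1 h2 h3 h4 => absurd ⟨h1, h2, h3, h4⟩ ha⟩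
    choose Bf hBf hBf' using hfam
    obtain ⟨P, hP⟩ : ∃ P : Finset ℕ, P = (Icc 1 ⌊M⌋₊).filter (fun a : ℕ => a.Prime ∧ β * M ≤ (a : ℝ)) := ⟨_, rfl⟩
    have hPc : (P.card : ℝ) ≤ M := by
      have h1 : P.card ≤ ⌊M⌋₊ := by
        rw [hP]
        refine (card_filter_le _ _).trans ?_
        rw [Nat.card_Icc, Nat.add_sub_cancel]
      have h2 : (⌊M⌋₊ : ℝ) ≤ M := Nat.floor_le hM0.le
      have h3 : (P.card : ℝ) ≤ (⌊M⌋₊ : ℝ) := by exact_mod_cast h1
      linarith
    refine ⟨(B₁ ×ˢ lsts P k).image (fun x => x.1 :: x.2) ∪ P.biUnion (fun a => (Bf a).image (fun A => a :: A)), ?_, ?_⟩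
    · have h1 : (((B₁ ×ˢ lsts P k).image (fun x => x.1 :: x.2) ∪ P.biUnion (fun a => (Bf a).image (fun A => a :: A))).card : ℝ) ≤
          (B₁.card : ℝ) * (P.card : ℝ) ^ k + ∑ a ∈ P, ((Bf a).card : ℝ) := by
        have a1 := card_union_le ((B₁ ×ˢ lsts P k).image (fun x => x.1 :: x.2)) (P.biUnion (fun a => (Bf a).image (fun A => a :: A)))
        have a2 : ((B₁ ×ˢ lsts P k).image (fun x => x.1 :: x.2)).card ≤ B₁.card * P.card ^ k := by
          refine card_image_le.trans ?_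
          rw [card_product]
          exact Nat.mul_le_mul_left _ (card_lsts P k)
        have a3 : (P.biUnion (fun a => (Bf a).image (fun A => a :: A))).card ≤ ∑ a ∈ P, (Bf a).card :=
          card_biUnion_le.trans (sum_le_sum fun a _ => card_image_le)
        exact_mod_cast a1.trans (Nat.add_le_add a2 a3)
      refine h1.trans ?_
      have h2 : (B₁.card : ℝ) * (P.card : ℝ) ^ k ≤ M ^ (1 - ε) * l * M ^ k := by
        apply mul_le_mul hB₁ _ (by positivity) (by positivity)
        exact pow_le_pow_left₀ (Nat.cast_nonneg _) hPc k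
      have h3 : ∑ a ∈ P, ((Bf a).card : ℝ) ≤ M * (k * 2 ^ k * (M ^ (k - ε) * l')) := by
        calc ∑ a ∈ P, ((Bf a).card : ℝ) ≤ ∑ _a ∈ P, k * 2 ^ k * (M ^ (k - ε) * l') := sum_le_sum fun a _ => hBf a
          _ = P.card * (k * 2 ^ k * (M ^ (k - ε) * l')) := by rw [sum_const, nsmul_eq_mul]
          _ ≤ _ := mul_le_mul_of_nonneg_right hPc (by positivity)
      have e1 : M ^ (1 - ε) * l * M ^ k = M ^ (((k + 1 : ℕ) : ℝ) - ε) * l := by
        rw [← Real.rpow_natCast, mul_right_comm, ← Real.rpow_add hM0]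
        congr 2
        push_cast
        ring
      have e2 : M * (k * 2 ^ k * (M ^ (k - ε) * l')) = k * 2 ^ k * (M ^ (((k + 1 : ℕ) : ℝ) - ε) * l') := by
        have : M ^ (((k + 1 : ℕ) : ℝ) - ε) = M * M ^ (k - ε) := by
          have h5 : ((k + 1 : ℕ) : ℝ) - ε = 1 + (k - ε) := by push_cast; ring
          rw [h5, Real.rpow_add hM0, Real.rpow_one]
        rw [this]; ring
      rw [e1] at h2
      rw [e2] at h3
      have hl2 : l' ≤ 2 * l := by nlinarith
      have hQ : 0 ≤ M ^ (((k + 1 : ℕ) : ℝ) - ε) := by positivity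
      have h4 : (k : ℝ) * 2 ^ k * (M ^ (((k + 1 : ℕ) : ℝ) - ε) * l') ≤ k * 2 ^ k * (M ^ (((k + 1 : ℕ) : ℝ) - ε) * (2 * l)) := by gcongr
      have h5 : M ^ (((k + 1 : ℕ) : ℝ) - ε) * l ≤ 2 ^ (k + 1) * (M ^ (((k + 1 : ℕ) : ℝ) - ε) * l) :=
        le_mul_of_one_le_left (by positivity) (one_le_pow₀ (by norm_num))
      have e3 : ((k + 1 : ℕ) : ℝ) * 2 ^ (k + 1) * (M ^ (((k + 1 : ℕ) : ℝ) - ε) * l) =
          2 ^ (k + 1) * (M ^ (((k + 1 : ℕ) : ℝ) - ε) * l) + k * 2 ^ k * (M ^ (((k + 1 : ℕ) : ℝ) - ε) * (2 * l)) := by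
        push_cast; ring
      rw [e3]
      linarith
    · intro A hA hAP hAB
      obtain _ | ⟨a, A⟩ := A
      · simp at hA
      rw [List.length_cons] at hA
      have hAk : A.length = k := by omega
      obtain ⟨ha1, ha2, ha3⟩ := hAP a List.mem_cons_self
      have hAP' : ∀ a ∈ A, a.Prime ∧ β * M ≤ (a : ℝ) ∧ (a : ℝ) ≤ M := fun b hb => hAP b (List.mem_cons_of_mem _ hb)
      have hPmem : ∀ a : ℕ, a.Prime → β * M ≤ (a : ℝ) → (a : ℝ) ≤ M → a ∈ P := by
        intro a h1 h2 h3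
        rw [hP, mem_filter, mem_Icc]
        exact ⟨⟨h1.one_lt.le, Nat.le_floor h3⟩, h1, h2⟩
      rw [mem_union, not_or] at hAB
      have haB : a ∉ B₁ := by
        intro hcon
        apply hAB.1
        rw [mem_image]
        exact ⟨(a, A), mem_product.2 ⟨hcon, mem_lsts P k A hAk fun b hb => hPmem b (hAP' b hb).1 (hAP' b hb).2.1 (hAP' b hb).2.2⟩, rfl⟩
      have hAB' : A ∉ Bf a := by
        intro hcon
        apply hAB.2
        rw [mem_biUnion]
        exact ⟨a, hPmem a ha1 ha2 ha3, mem_image.2 ⟨A, hcon, rfl⟩⟩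
      have hT := hBf' a ha1 ha2 ha3 haB A hAk hAP' hAB'
      have hC := hB₁' a ha1 ha2 ha3 haB H hH1.1 hH1.2
      have e1 : ∑ n ∈ Icc 1 ⌊N⌋₊, w n * pch (a :: A) (H :: L) n = ∑ n ∈ Icc 1 ⌊N'⌋₊, PW w N H a n * pch A L n := by
        rw [hN', ← PW_sum w (pch A L) hN0.le ha3]
        apply sum_congr rfl
        intro n _
        rw [pch]
      rw [e1, pex_cons]
      obtain ⟨T, hTd⟩ : ∃ T, T = ∑ n ∈ Icc 1 ⌊N'⌋₊, PW w N H a n * pch A L n := ⟨_, rfl⟩
      obtain ⟨C, hCd⟩ : ∃ C, C = CW w N H a := ⟨_, rfl⟩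
      rw [← hTd, ← hCd] at hT
      rw [← hCd] at hC
      rw [← hTd]
      have hLn : ∀ H' ∈ L, 0 ≤ H' := fun H' hH' => by linarith [(hLH' H' hH').1]
      obtain ⟨p1, p2⟩ := pex_le hl0 hll' hl'l ht0.le L hLn
      rw [hLk] at p2
      have p3 := pex_nonneg hl'0 L hLn
      obtain ⟨E', hE'⟩ : ∃ E', E' = pex l' L := ⟨_, rfl⟩
      obtain ⟨E, hE⟩ : ∃ E, E = pex l L := ⟨_, rfl⟩
      rw [← hE'] at hT p1 p2 p3
      rw [← hE] at p1 p2 ⊢
      obtain ⟨F, hF⟩ : ∃ F, F = H / l * S := ⟨_, rfl⟩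
      rw [← hF] at hC
      have hF0 : 0 ≤ F := by rw [hF]; positivity
      have e4 : S * (H / l * E) = F * E := by rw [hF]; ring
      rw [e4]
      obtain ⟨r1, r2⟩ := abs_le.1 hT
      obtain ⟨s1, s2⟩ := abs_le.1 hC
      have p2' : E ≤ (1 + x) * E' := p2.trans (mul_le_mul_of_nonneg_right ht6 p3)
      have hE0 : 0 ≤ E := p3.trans p1
      have e5 : δ = 4 * x := by rw [hx]; ring
      rw [e5, abs_le]
      have hx2 : x ^ 2 ≤ 1 / 4 * x := by rw [sq]; exact mul_le_mul_of_nonneg_right hx1 hx0.le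
      constructor
      · -- lower bound
        have q1 : (1 - x) * (C * E') ≤ T := by linarith
        have q2 : (1 - x) * F ≤ C := by linarith
        have q3 : (1 - x) * ((1 - x) * F * E') ≤ T := by
          refine le_trans ?_ q1
          apply mul_le_mul_of_nonneg_left _ (by linarith)
          exact mul_le_mul_of_nonneg_right q2 p3
        have q4 : (1 - x) * E ≤ E' := by
          have h1 : (1 - x) * E ≤ (1 - x) * ((1 + x) * E') := mul_le_mul_of_nonneg_left p2' (by linarith)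
          have h2 : (1 - x) * ((1 + x) * E') = E' - x ^ 2 * E' := by ring
          have h3 : 0 ≤ x ^ 2 * E' := by positivity
          linarith
        have q5 : (1 - x) * ((1 - x) * F * ((1 - x) * E)) ≤ T := by
          refine le_trans ?_ q3
          apply mul_le_mul_of_nonneg_left _ (by linarith)
          apply mul_le_mul_of_nonneg_left q4
          exact mul_nonneg (by linarith) hF0
        have q6 : (1 - 4 * x) * (F * E) ≤ (1 - x) * ((1 - x) * F * ((1 - x) * E)) := by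
          have h1 : 1 - 4 * x ≤ (1 - x) * ((1 - x) * (1 - x)) := by
            have e9 : (1 - x) * ((1 - x) * (1 - x)) = 1 - 3 * x + 3 * x ^ 2 - x * x ^ 2 := by ring
            rw [e9]
            have : x * x ^ 2 ≤ x * 1 := mul_le_mul_of_nonneg_left (by linarith) hx0.le
            have : 0 ≤ x ^ 2 := sq_nonneg x
            linarith
          calc (1 - 4 * x) * (F * E) ≤ ((1 - x) * ((1 - x) * (1 - x))) * (F * E) := mul_le_mul_of_nonneg_right h1 (mul_nonneg hF0 hE0)
            _ = _ := by ring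
        linarith
      · -- upper bound
        have q1 : T ≤ (1 + x) * (C * E') := by linarith
        have q2 : C ≤ (1 + x) * F := by linarith
        have q3 : T ≤ (1 + x) * ((1 + x) * F * E) := by
          refine q1.trans ?_
          apply mul_le_mul_of_nonneg_left _ (by linarith)
          exact mul_le_mul q2 p1 p3 (mul_nonneg (by linarith) hF0)
        have q6 : (1 + x) * ((1 + x) * F * E) ≤ (1 + 4 * x) * (F * E) := by
          have h1 : (1 + x) * (1 + x) ≤ 1 + 4 * x := by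
            have e9 : (1 + x) * (1 + x) = 1 + 2 * x + x ^ 2 := by ring
            rw [e9]; linarith
          calc (1 + x) * ((1 + x) * F * E) = ((1 + x) * (1 + x)) * (F * E) := by ring
            _ ≤ _ := mul_le_mul_of_nonneg_right h1 (mul_nonneg hF0 hE0)
        linarith

end Pool.Agent.J4H33.DU
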