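import Pool.Agent.J4H33.H7

/-!
# Chains of primes with prescribed multipliers: all lengths of the windows at once
-/

set_option autoImplicit false

namespace Pool.Agent.J4H33.DU

open Finset Filter
open Pool.Agent.Y851.PT

theorem PH_mono' {H H' x : ℝ} (hx : 0 ≤ x) (h : H ≤ H') : PH H x ⊆ PH H' x := by
  intro p hp
  rw [mem_PH hx] at hp ⊢
  exact ⟨hp.1, by linarith [hp.2.1], hp.2.2⟩

theorem pch_nonneg : ∀ (A : List ℕ) (L : List ℝ) (n : ℕ), 0 ≤ pch A L n := by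
  intro A
  induction A with
  | nil => intro L n; unfold pch; exact zero_le_one
  | cons a A ih =>
    intro L n
    obtain _ | ⟨H, L⟩ := L
    · unfold pch; exact zero_le_one
    · unfold pch
      exact sum_nonneg fun p _ => ih L p

theorem pch_mono : ∀ (A : List ℕ) (L L' : List ℝ), List.Forall₂ (fun a b => a ≤ b) L L' → ∀ n, pch A L n ≤ pch A L' n := by
  intro A
  induction A with
  | nil => intro L L' _ n; unfold pch; exact le_rfl
  | cons a A ih =>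
    intro L L' h n
    obtain _ | ⟨h1, h2⟩ := h
    · unfold pch; exact le_rfl
    · rename_i H H' L L'
      unfold pch
      calc ∑ p ∈ PH H ((a : ℝ) * n), pch A L p ≤ ∑ p ∈ PH H ((a : ℝ) * n), pch A L' p := sum_le_sum fun p _ => ih L L' h2 p
        _ ≤ ∑ p ∈ PH H' ((a : ℝ) * n), pch A L' p :=
          sum_le_sum_of_subset_of_nonneg (PH_mono' (by positivity) h1) fun p _ _ => pch_nonneg A L' p

theorem pex_mono {l : ℝ} (hl : 0 < l) : ∀ (L L' : List ℝ), List.Forall₂ (fun a b => a ≤ b) L L' → (∀ H ∈ L, 0 ≤ H) → pex l L ≤ pex l L' := by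
  intro L
  induction L with
  | nil => intro L' h _; cases h; exact le_rfl
  | cons H L ih =>
    intro L' h h0
    obtain _ | ⟨h1, h2⟩ := h
    rename_i H' L'
    rw [pex_cons, pex_cons]
    have hL : ∀ H ∈ L, 0 ≤ H := fun H' hH' => h0 H' (List.mem_cons_of_mem _ hH')
    have hH := h0 H List.mem_cons_self
    apply mul_le_mul _ (ih L' h2 hL) (pex_nonneg hl L hL) (div_nonneg (by linarith) hl.le)
    gcongr

theorem pex_scale (l c : ℝ) : ∀ L : List ℝ, pex l (L.map (fun H => c * H)) = c ^ L.length * pex l L := by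
  intro L
  induction L with
  | nil => unfold pex; simp
  | cons H L ih =>
    rw [List.map_cons, pex_cons, pex_cons, ih, List.length_cons, pow_succ]
    ring

/-- **Prescribed multipliers, all lengths of the windows.** -/
theorem allH (k : ℕ) (γ ε ρ β δ : ℝ) (hγ : 0 < γ) (hε : 0 < ε) (hcond : γ + ε < 1 / 3) (hρ : 0 < ρ) (hβ : 0 < β) (hδ : 0 < δ) :
    ∃ t N₀ : ℝ, 0 < t ∧ ∀ N : ℝ, N₀ ≤ N → ∀ M D : ℝ, 1 ≤ D → 0 < M → D * Real.log N ^ (k + 2) ≤ M ^ γ → M ≤ N ^ t →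
      ∀ w : ℕ → ℝ, (∀ n, 0 ≤ w n) → (∀ n, w n ≤ 1) → N / D ≤ SW w N →
      ∃ B : Finset (List ℕ), (B.card : ℝ) ≤ M ^ (k - ε) * Real.log N ^ (k + 1) ∧
        ∀ (A : List ℕ) (L : List ℝ), A.length = k → L.length = k → (∀ a ∈ A, a.Prime ∧ β * M ≤ (a : ℝ) ∧ (a : ℝ) ≤ M) →
          (∀ H ∈ L, M ≤ H ∧ H ≤ N ^ (1 - ρ)) → A ∉ B →
          |∑ n ∈ Icc 1 ⌊N⌋₊, w n * pch A L n - SW w N * pex (Real.log N) L| ≤ δ * (SW w N * pex (Real.log N) L) := by
  classical
  obtain ⟨κ, hκ⟩ : ∃ κ, κ = (1 / 3 - γ - ε) / 4 := ⟨_, rfl⟩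
  have hκ0 : 0 < κ := by rw [hκ]; linarith
  obtain ⟨β₁, hβ₁⟩ : ∃ β₁, β₁ = min β 1 := ⟨_, rfl⟩
  have hβ₁0 : 0 < β₁ := by rw [hβ₁]; exact lt_min hβ one_pos
  have hβ₁1 : β₁ ≤ β := by rw [hβ₁]; exact min_le_left _ _
  have hβ₁2 : β₁ ≤ 1 := by rw [hβ₁]; exact min_le_right _ _
  obtain ⟨δ₁, hδ₁⟩ : ∃ δ₁, δ₁ = min δ 1 := ⟨_, rfl⟩
  have hδ₁0 : 0 < δ₁ := by rw [hδ₁]; exact lt_min hδ one_pos
  have hδ₁1 : δ₁ ≤ δ := by rw [hδ₁]; exact min_le_left _ _
  have hδ₁2 : δ₁ ≤ 1 := by rw [hδ₁]; exact min_le_right _ _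
  obtain ⟨ρ', hρ'⟩ : ∃ ρ', ρ' = min ρ 1 / 2 := ⟨_, rfl⟩
  have hρ'0 : 0 < ρ' := by rw [hρ']; have : 0 < min ρ 1 := lt_min hρ one_pos; positivity
  have hρ'1 : 2 * ρ' ≤ ρ := by rw [hρ']; have := min_le_left ρ 1; linarith
  have hρ'2 : ρ' ≤ 1 / 2 := by rw [hρ']; have := min_le_right ρ 1; linarith
  obtain ⟨x, hx⟩ : ∃ x, x = δ₁ / (4 * (k + 1)) := ⟨_, rfl⟩
  have hk1 : (0 : ℝ) < k + 1 := by positivity
  have hx0 : 0 < x := by rw [hx]; positivity
  have hxk : 4 * ((k + 1) * x) = δ₁ := by rw [hx]; field_simp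
  have hx1 : x ≤ 1 := by nlinarith [Nat.cast_nonneg (α := ℝ) k]
  have hpow : (1 + x) ^ (k + 1) ≤ 1 + δ₁ / 2 := by
    have h1 := pow_small hx0.le (k + 1) (by push_cast; linarith)
    push_cast at h1
    linarith
  obtain ⟨t₁, N₁, ht₁, htup⟩ := tuples k (γ + κ) (ε + κ) ρ' β₁ x (by linarith) (by linarith) (by linarith) hρ'0 (by linarith) hβ₁0 hβ₁2 hx0 hx1
  obtain ⟨lx, hlx⟩ : ∃ lx, lx = Real.log (1 + x) := ⟨_, rfl⟩
  have hlx0 : 0 < lx := by rw [hlx]; exact Real.log_pos (by linarith)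
  obtain ⟨Cn, hCn⟩ : ∃ Cn : ℝ, Cn = 1 / lx + 2 := ⟨_, rfl⟩
  have hCn0 : 0 < Cn := by rw [hCn]; positivity
  have ev1 : ∀ᶠ N : ℝ in atTop, max ((8 / β₁) ^ (k + 2)) (Cn ^ k * (k * 2 ^ k)) ≤ Real.log N ^ (κ / γ) := by
    have h1 : Tendsto (fun N : ℝ => Real.log N ^ (κ / γ)) atTop atTop := (tendsto_rpow_atTop (div_pos hκ0 hγ)).comp Real.tendsto_log_atTop
    exact h1.eventually_ge_atTop _
  have ev3 : ∀ᶠ N : ℝ in atTop, 2 ≤ N ^ ρ' := (tendsto_rpow_atTop hρ'0).eventually_ge_atTop 2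
  obtain ⟨N₀, hN₀⟩ := eventually_atTop.1 (ev1.and (ev3.and ((Real.tendsto_log_atTop.eventually_ge_atTop 2).and (eventually_ge_atTop (max N₁ 3)))))
  refine ⟨t₁, N₀, ht₁, fun N hN M D hD1 hM0 hMD hMN w hw0 hw1 hwS => ?_⟩
  obtain ⟨g1, g4, g2, g3⟩ := hN₀ N hN
  have g1a := (le_max_left _ _).trans g1
  have g1b := (le_max_right _ _).trans g1
  have g3a := (le_max_left _ _).trans g3
  have g3b := (le_max_right _ _).trans g3
  have hN0 : 0 < N := by linarith
  have hN1 : 1 < N := by linarith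
  obtain ⟨l, hl⟩ : ∃ l, l = Real.log N := ⟨_, rfl⟩
  rw [← hl] at hMD g2 g1a g1b ⊢
  have hl0 : 0 < l := by linarith
  have hl1 : 1 ≤ l := by linarith
  have hD0 : 0 < D := by linarith
  have hlγ : l ≤ M ^ γ := by
    calc l = 1 * l ^ 1 := by ring
      _ ≤ D * l ^ (k + 2) := mul_le_mul hD1 (pow_le_pow_right₀ hl1 (by omega)) (by positivity) hD0.le
      _ ≤ M ^ γ := hMD
  have hM1 : 1 ≤ M := by
    by_contra hcon
    push Not at hcon
    have := Real.rpow_lt_one hM0.le hcon hγ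
    linarith
  have hMκ : l ^ (κ / γ) ≤ M ^ κ := by
    calc l ^ (κ / γ) ≤ (M ^ γ) ^ (κ / γ) := Real.rpow_le_rpow hl0.le hlγ (by positivity)
      _ = M ^ κ := by rw [← Real.rpow_mul hM0.le]; congr 1; field_simp
  have hcondt : D * (8 / β₁ * l) ^ (k + 2) ≤ M ^ (γ + κ) := by
    calc D * (8 / β₁ * l) ^ (k + 2) = (D * l ^ (k + 2)) * (8 / β₁) ^ (k + 2) := by rw [mul_pow]; ring
      _ ≤ M ^ γ * M ^ κ := mul_le_mul hMD (g1a.trans hMκ) (by positivity) (by positivity)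
      _ = M ^ (γ + κ) := (Real.rpow_add hM0 _ _).symm
  -- the net
  obtain ⟨h, hh⟩ : ∃ h : ℕ → ℝ, h = fun j => M * (1 + x) ^ j := ⟨_, rfl⟩
  have hhM : ∀ j, M ≤ h j := by
    intro j; rw [hh]; exact le_mul_of_one_le_right hM0.le (one_le_pow₀ (by linarith))
  obtain ⟨J, hJ⟩ : ∃ J : ℕ, J = ⌊l / lx⌋₊ + 2 := ⟨_, rfl⟩
  have hfam : ∀ js : List ℕ, ∃ B : Finset (List ℕ), (B.card : ℝ) ≤ k * 2 ^ k * (M ^ (k - (ε + κ)) * l) ∧
      (js.length = k → (∀ j ∈ js, h j ≤ N ^ (1 - ρ')) → ∀ A : List ℕ, A.length = k → (∀ a ∈ A, a.Prime ∧ β * M ≤ (a : ℝ) ∧ (a : ℝ) ≤ M) → A ∉ B →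
        |∑ n ∈ Icc 1 ⌊N⌋₊, w n * pch A (js.map h) n - SW w N * pex l (js.map h)| ≤ x * (SW w N * pex l (js.map h))) := by
    intro js
    by_cases hjs : js.length = k ∧ ∀ j ∈ js, h j ≤ N ^ (1 - ρ')
    · obtain ⟨B, hB, hB'⟩ := htup N g3a M D hD1 hM0 (by rw [← hl]; exact hcondt) hMN w hw0 hw1 hwS (js.map h) (by rw [List.length_map]; exact hjs.1) (by
        intro H hH
        rw [List.mem_map] at hH
        obtain ⟨j, hj1, hj2⟩ := hH
        rw [← hj2]
        exact ⟨hhM j, hjs.2 j hj1⟩)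
      rw [← hl] at hB hB'
      refine ⟨B, hB, fun _ _ A hA1 hA2 hA3 => hB' A hA1 (fun a ha => ?_) hA3⟩
      obtain ⟨q1, q2, q3⟩ := hA2 a ha
      exact ⟨q1, (mul_le_mul_of_nonneg_right hβ₁1 hM0.le).trans q2, q3⟩
    · exact ⟨∅, by rw [card_empty, Nat.cast_zero]; positivity, fun h1 h2 => absurd ⟨h1, h2⟩ hjs⟩
  choose Bf hBf hBf' using hfam
  refine ⟨(lsts (range J) k).biUnion Bf, ?_, ?_⟩
  · have h1 : (((lsts (range J) k).biUnion Bf).card : ℝ) ≤ (J : ℝ) ^ k * (k * 2 ^ k * (M ^ (k - (ε + κ)) * l)) := by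
      calc (((lsts (range J) k).biUnion Bf).card : ℝ) ≤ ∑ js ∈ lsts (range J) k, ((Bf js).card : ℝ) := by exact_mod_cast card_biUnion_le
        _ ≤ ∑ _js ∈ lsts (range J) k, k * 2 ^ k * (M ^ (k - (ε + κ)) * l) := sum_le_sum fun j _ => hBf j
        _ = (lsts (range J) k).card * (k * 2 ^ k * (M ^ (k - (ε + κ)) * l)) := by rw [sum_const, nsmul_eq_mul]
        _ ≤ _ := by
          apply mul_le_mul_of_nonneg_right _ (by positivity)
          have := card_lsts (range J) k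
          rw [card_range] at this
          exact_mod_cast this
    have h2 : (J : ℝ) ≤ Cn * l := by
      have h3 : (⌊l / lx⌋₊ : ℝ) ≤ l / lx := Nat.floor_le (by positivity)
      rw [hJ, hCn]
      push_cast
      have e : (1 / lx + 2) * l = l / lx + 2 * l := by ring
      rw [e]
      linarith
    have h3 : (J : ℝ) ^ k ≤ (Cn * l) ^ k := pow_le_pow_left₀ (Nat.cast_nonneg _) h2 k
    refine h1.trans ?_
    calc (J : ℝ) ^ k * (k * 2 ^ k * (M ^ (k - (ε + κ)) * l)) ≤ (Cn * l) ^ k * (k * 2 ^ k * (M ^ (k - (ε + κ)) * l)) :=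
          mul_le_mul_of_nonneg_right h3 (by positivity)
      _ = (Cn ^ k * (k * 2 ^ k)) * (M ^ (k - (ε + κ)) * l ^ (k + 1)) := by rw [mul_pow]; ring
      _ ≤ M ^ κ * (M ^ (k - (ε + κ)) * l ^ (k + 1)) := mul_le_mul_of_nonneg_right (g1b.trans hMκ) (by positivity)
      _ = M ^ (k - ε) * l ^ (k + 1) := by
        rw [← mul_assoc, ← Real.rpow_add hM0]; congr 2; ring
  · intro A L hA hL hAP hLH hAB
    have hLM : ∀ H ∈ L, 0 < H := fun H hH => by linarith [(hLH H hH).1]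
    obtain ⟨idx, hidx⟩ : ∃ idx : ℝ → ℕ, idx = fun H => ⌊Real.log (H / M) / lx⌋₊ := ⟨_, rfl⟩
    have hexp : ∀ i : ℕ, (1 + x) ^ i = Real.exp (i * lx) := by
      intro i
      rw [hlx, mul_comm, Real.exp_mul, Real.exp_log (by linarith), Real.rpow_natCast]
    have hidx1 : ∀ H ∈ L, h (idx H) ≤ H := by
      intro H hH
      have hHM : 1 ≤ H / M := by rw [one_le_div hM0]; exact (hLH H hH).1
      have hlog0 : 0 ≤ Real.log (H / M) := Real.log_nonneg hHM
      have hj1 : (idx H : ℝ) ≤ Real.log (H / M) / lx := by rw [hidx]; exact Nat.floor_le (by positivity)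
      rw [hh]
      simp only
      rw [hexp, mul_comm, ← le_div_iff₀ hM0]
      have := hLM H hH
      rw [← Real.exp_log (show 0 < H / M by positivity)]
      apply Real.exp_le_exp.2
      rwa [le_div_iff₀ hlx0] at hj1
    have hidx2 : ∀ H ∈ L, H ≤ h (idx H + 1) := by
      intro H hH
      have hj2 : Real.log (H / M) / lx < idx H + 1 := by rw [hidx]; exact Nat.lt_floor_add_one _
      rw [hh]
      simp only
      rw [hexp, mul_comm, ← div_le_iff₀ hM0]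
      have := hLM H hH
      rw [← Real.exp_log (show 0 < H / M by positivity)]
      apply Real.exp_le_exp.2
      rw [div_lt_iff₀ hlx0] at hj2
      push_cast
      exact hj2.le
    have hstep : ∀ j, h (j + 1) = (1 + x) * h j := by intro j; rw [hh]; simp only; rw [pow_succ]; ring
    have hNρ : N ^ (1 - ρ) * 2 ≤ N ^ (1 - ρ') := by
      calc N ^ (1 - ρ) * 2 ≤ N ^ (1 - 2 * ρ') * N ^ ρ' := by
            apply mul_le_mul _ g4 (by norm_num) (by positivity)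
            exact Real.rpow_le_rpow_of_exponent_le hN1.le (by linarith)
        _ = N ^ (1 - ρ') := by rw [← Real.rpow_add hN0]; congr 1; ring
    have hpos : 0 < N ^ (1 - ρ) := by positivity
    have hb1 : ∀ H ∈ L, h (idx H) ≤ N ^ (1 - ρ') := by
      intro H hH
      have a1 := hidx1 H hH
      have a2 := (hLH H hH).2
      linarith
    have hb2 : ∀ H ∈ L, h (idx H + 1) ≤ N ^ (1 - ρ') := by
      intro H hH
      have a1 := hidx1 H hH
      have a2 := (hLH H hH).2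
      have a3 : 0 < h (idx H) := lt_of_lt_of_le hM0 (hhM _)
      rw [hstep]
      calc (1 + x) * h (idx H) ≤ 2 * h (idx H) := mul_le_mul_of_nonneg_right (by linarith) a3.le
        _ ≤ N ^ (1 - ρ) * 2 := by linarith
        _ ≤ _ := hNρ
    have hjJ : ∀ H ∈ L, idx H + 1 < J := by
      intro H hH
      have hH0 := hLM H hH
      have h1 : Real.log (H / M) ≤ l := by
        rw [hl]
        apply Real.log_le_log (by positivity)
        rw [div_le_iff₀ hM0]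
        calc H ≤ N ^ (1 - ρ) := (hLH H hH).2
          _ ≤ N ^ (1 : ℝ) := Real.rpow_le_rpow_of_exponent_le hN1.le (by linarith)
          _ = N := Real.rpow_one N
          _ ≤ N * M := le_mul_of_one_le_right hN0.le hM1
      have h2 : idx H ≤ ⌊l / lx⌋₊ := by
        rw [hidx]
        apply Nat.floor_le_floor
        exact div_le_div_of_nonneg_right h1 hlx0.le
      omega
    obtain ⟨js, hjs⟩ : ∃ js, js = L.map idx := ⟨_, rfl⟩
    obtain ⟨js', hjs'⟩ : ∃ js', js' = L.map (fun H => idx H + 1) := ⟨_, rfl⟩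
    have hjsk : js.length = k := by rw [hjs, List.length_map, hL]
    have hjsk' : js'.length = k := by rw [hjs', List.length_map, hL]
    have m1 : js ∈ lsts (range J) k := by
      apply mem_lsts _ _ _ hjsk
      intro j hj
      rw [hjs, List.mem_map] at hj
      obtain ⟨H, hH, e⟩ := hj
      rw [← e, mem_range]
      have := hjJ H hH
      omega
    have m2 : js' ∈ lsts (range J) k := by
      apply mem_lsts _ _ _ hjsk'
      intro j hj
      rw [hjs', List.mem_map] at hj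
      obtain ⟨H, hH, e⟩ := hj
      rw [← e, mem_range]
      exact hjJ H hH
    have hn1 : A ∉ Bf js := fun hcon => hAB (mem_biUnion.2 ⟨js, m1, hcon⟩)
    have hn2 : A ∉ Bf js' := fun hcon => hAB (mem_biUnion.2 ⟨js', m2, hcon⟩)
    have r1 := hBf' js hjsk (by
      intro j hj
      rw [hjs, List.mem_map] at hj
      obtain ⟨H, hH, e⟩ := hj
      rw [← e]
      exact hb1 H hH) A hA hAP hn1
    have r2 := hBf' js' hjsk' (by
      intro j hj
      rw [hjs', List.mem_map] at hj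
      obtain ⟨H, hH, e⟩ := hj
      rw [← e]
      exact hb2 H hH) A hA hAP hn2
    obtain ⟨L₁, hL₁⟩ : ∃ L₁, L₁ = js.map h := ⟨_, rfl⟩
    obtain ⟨L₂, hL₂⟩ : ∃ L₂, L₂ = js'.map h := ⟨_, rfl⟩
    rw [← hL₁] at r1
    rw [← hL₂] at r2
    have f1 : List.Forall₂ (fun a b : ℝ => a ≤ b) L₁ L := by
      rw [hL₁, hjs, List.map_map, List.forall₂_map_left_iff, List.forall₂_same]
      exact hidx1
    have f2 : List.Forall₂ (fun a b : ℝ => a ≤ b) L L₂ := by
      rw [hL₂, hjs', List.map_map, List.forall₂_map_right_iff, List.forall₂_same]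
      exact hidx2
    have e12 : L₂ = L₁.map (fun H => (1 + x) * H) := by
      rw [hL₁, hL₂, hjs, hjs', List.map_map, List.map_map, List.map_map]
      apply List.map_congr_left
      intro H _
      simp only [Function.comp]
      exact hstep _
    have hL₁k : L₁.length = k := by rw [hL₁, List.length_map, hjsk]
    have hL₁0 : ∀ H ∈ L₁, 0 ≤ H := by
      intro H hH
      rw [hL₁, List.mem_map] at hH
      obtain ⟨j, _, e⟩ := hH
      rw [← e]
      exact hM0.le.trans (hhM j)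
    have E1 := pex_mono hl0 L₁ L f1 hL₁0
    have E2 := pex_mono hl0 L L₂ f2 (fun H hH => (hLM H hH).le)
    have E3 : pex l L₂ = (1 + x) ^ k * pex l L₁ := by rw [e12, pex_scale, hL₁k]
    obtain ⟨S, hS⟩ : ∃ S, S = SW w N := ⟨_, rfl⟩
    rw [← hS] at r1 r2 ⊢
    have hS0 : 0 ≤ S := by rw [hS]; exact sum_nonneg fun n _ => hw0 n
    have T1 : ∑ n ∈ Icc 1 ⌊N⌋₊, w n * pch A L₁ n ≤ ∑ n ∈ Icc 1 ⌊N⌋₊, w n * pch A L n :=
      sum_le_sum fun n _ => mul_le_mul_of_nonneg_left (pch_mono A L₁ L f1 n) (hw0 n)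
    have T2 : ∑ n ∈ Icc 1 ⌊N⌋₊, w n * pch A L n ≤ ∑ n ∈ Icc 1 ⌊N⌋₊, w n * pch A L₂ n :=
      sum_le_sum fun n _ => mul_le_mul_of_nonneg_left (pch_mono A L L₂ f2 n) (hw0 n)
    obtain ⟨E, hE⟩ : ∃ E, E = pex l L := ⟨_, rfl⟩
    obtain ⟨Ea, hEa⟩ : ∃ Ea, Ea = pex l L₁ := ⟨_, rfl⟩
    rw [← hE] at E1 E2 ⊢
    rw [← hEa] at E1 E3 r1
    rw [E3] at E2 r2
    have hEa0 : 0 ≤ Ea := by rw [hEa]; exact pex_nonneg hl0 L₁ hL₁0
    have hE0 : 0 ≤ E := hEa0.trans E1
    obtain ⟨T, hT⟩ : ∃ T, T = ∑ n ∈ Icc 1 ⌊N⌋₊, w n * pch A L n := ⟨_, rfl⟩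
    rw [← hT] at T1 T2 ⊢
    have u1 := (abs_le.1 r1).1
    have u2 := (abs_le.1 r2).2
    have hp0 : 1 ≤ (1 + x) ^ k := one_le_pow₀ (by linarith)
    have hpk : (1 + x) ^ (k + 1) = (1 + x) * (1 + x) ^ k := by rw [pow_succ]; ring
    rw [hpk] at hpow
    rw [abs_le]
    constructor
    · -- lower bound
      have q1 : (1 - x) * (S * Ea) ≤ T := by linarith
      have q2 : (1 - δ₁ / 2) * E ≤ Ea := by
        have h1 : (1 - δ₁ / 2) * E ≤ (1 - δ₁ / 2) * ((1 + x) ^ k * Ea) := mul_le_mul_of_nonneg_left E2 (by linarith)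
        have h2 : (1 + x) ^ k ≤ 1 + δ₁ / 2 := by
          have : (1 + x) ^ k ≤ (1 + x) * (1 + x) ^ k := le_mul_of_one_le_left (by linarith) (by linarith)
          linarith
        have h3 : (1 - δ₁ / 2) * ((1 + x) ^ k * Ea) ≤ (1 - δ₁ / 2) * ((1 + δ₁ / 2) * Ea) :=
          mul_le_mul_of_nonneg_left (mul_le_mul_of_nonneg_right h2 hEa0) (by linarith)
        have h4 : (1 - δ₁ / 2) * ((1 + δ₁ / 2) * Ea) = Ea - (δ₁ / 2) ^ 2 * Ea := by ring
        have h5 : 0 ≤ (δ₁ / 2) ^ 2 * Ea := by positivity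
        linarith
      have q3 : (1 - x) * ((1 - δ₁ / 2) * (S * E)) ≤ T := by
        refine le_trans ?_ q1
        apply mul_le_mul_of_nonneg_left _ (by linarith)
        calc (1 - δ₁ / 2) * (S * E) = S * ((1 - δ₁ / 2) * E) := by ring
          _ ≤ S * Ea := mul_le_mul_of_nonneg_left q2 hS0
      have q4 : (1 - δ) * (S * E) ≤ (1 - x) * ((1 - δ₁ / 2) * (S * E)) := by
        have hx4 : x ≤ δ₁ / 4 := by nlinarith [Nat.cast_nonneg (α := ℝ) k]
        have h1 : 1 - δ ≤ (1 - x) * (1 - δ₁ / 2) := by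
          have e9 : (1 - x) * (1 - δ₁ / 2) = 1 - x - δ₁ / 2 + x * (δ₁ / 2) := by ring
          rw [e9]
          have : 0 ≤ x * (δ₁ / 2) := by positivity
          linarith
        calc (1 - δ) * (S * E) ≤ ((1 - x) * (1 - δ₁ / 2)) * (S * E) := mul_le_mul_of_nonneg_right h1 (mul_nonneg hS0 hE0)
          _ = _ := by ring
      linarith
    · have q1 : T ≤ (1 + x) * (S * ((1 + x) ^ k * Ea)) := by linarith
      have q2 : (1 + x) * (S * ((1 + x) ^ k * Ea)) ≤ (1 + δ₁ / 2) * (S * E) := by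
        calc (1 + x) * (S * ((1 + x) ^ k * Ea)) = ((1 + x) * (1 + x) ^ k) * (S * Ea) := by ring
          _ ≤ (1 + δ₁ / 2) * (S * Ea) := mul_le_mul_of_nonneg_right hpow (mul_nonneg hS0 hEa0)
          _ ≤ (1 + δ₁ / 2) * (S * E) := by
            apply mul_le_mul_of_nonneg_left _ (by linarith)
            exact mul_le_mul_of_nonneg_left E1 hS0
      have q3 : (1 + δ₁ / 2) * (S * E) ≤ (1 + δ) * (S * E) := mul_le_mul_of_nonneg_right (by linarith) (mul_nonneg hS0 hE0)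
      linarith

end Pool.Agent.J4H33.DU
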