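import Pool.Agent.J4H33.KL1
import Pool.Agent.Helper482.Stk.M_f1

/-!
# Primes at sparse sets of frequencies, II: from Heath-Brown's identity to tent windows
-/

set_option autoImplicit false

namespace Pool.Agent.J4H33

open Finset Filter Pool.Agent.H376R2.MR Pool.Agent.Q240.KS Pool.Agent.Q211.KS
open Pool.Agent.Helper482.Stk (fc)

theorem ed_le (d : Fin 10 → ℕ) : |((ed d : ℤ) : ℝ)| ≤ 31 := by
  have h1 : |ed d| ≤ 31 := by
    unfold ed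
    refine (abs_sum_le_sum_abs _ _).trans ?_
    have h2 : ∀ j ∈ Icc 1 5, |(-1 : ℤ) ^ (j + 1) * ((Nat.choose 5 j : ℕ) : ℤ) *
        (if ∀ i : Fin 10, ((j ≤ (i : ℕ) ∧ (i : ℕ) < 5) ∨ (4 + j ≤ (i : ℕ) ∧ (i : ℕ) < 9)) → d i = 0 then 1 else 0)| ≤
        ((Nat.choose 5 j : ℕ) : ℤ) := by
      intro j _
      rw [abs_mul, abs_mul, abs_pow, abs_neg, abs_one, one_pow, one_mul, Nat.abs_cast]
      have h3 : |(if ∀ i : Fin 10, ((j ≤ (i : ℕ) ∧ (i : ℕ) < 5) ∨ (4 + j ≤ (i : ℕ) ∧ (i : ℕ) < 9)) → d i = 0 then (1 : ℤ) else 0)| ≤ 1 := by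
        split_ifs <;> simp
      calc ((Nat.choose 5 j : ℕ) : ℤ) * _ ≤ ((Nat.choose 5 j : ℕ) : ℤ) * 1 := mul_le_mul_of_nonneg_left h3 (by positivity)
        _ = _ := mul_one _
    refine (sum_le_sum h2).trans ?_
    decide
  have h2 : ((|ed d| : ℤ) : ℝ) ≤ 31 := by exact_mod_cast h1
  rwa [Int.cast_abs] at h2

theorem card_DY {Y : ℝ} (hY : 1 ≤ Y) : ((DY Y).card : ℝ) ≤ (50 * Y) ^ 10 := by
  classical
  unfold DY
  refine (Nat.cast_le.2 (card_filter_le _ _)).trans ?_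
  rw [Fintype.card_piFinset, prod_const, card_range, card_univ, Fintype.card_fin]
  push_cast
  apply pow_le_pow_left₀ (by positivity)
  have := Nat.floor_le (show 0 ≤ 20 * (Y + 1) by linarith)
  linarith

theorem AA_sq {z : ℕ} {Y : ℝ} (k : ℤ) :
    ‖AA z Y k‖ ^ 2 ≤ 31 ^ 2 * ((DY Y).card : ℝ) * ∑ d ∈ DY Y, ‖EE z d k‖ ^ 2 := by
  unfold AA
  have h1 : ‖∑ d ∈ DY Y, (ed d : ℂ) * EE z d k‖ ≤ ∑ d ∈ DY Y, 31 * ‖EE z d k‖ := by
    refine (norm_sum_le _ _).trans (sum_le_sum fun d _ => ?_)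
    rw [norm_mul]
    apply mul_le_mul_of_nonneg_right _ (norm_nonneg _)
    have h2 := ed_le d
    have h3 : ‖((ed d : ℤ) : ℂ)‖ = |((ed d : ℤ) : ℝ)| := Complex.norm_intCast _
    rw [h3]; exact h2
  have h2 : (∑ d ∈ DY Y, 31 * ‖EE z d k‖) ^ 2 ≤ ((DY Y).card : ℝ) * ∑ d ∈ DY Y, (31 * ‖EE z d k‖) ^ 2 := sq_sum_le_card_mul_sum_sq
  calc ‖∑ d ∈ DY Y, (ed d : ℂ) * EE z d k‖ ^ 2 ≤ (∑ d ∈ DY Y, 31 * ‖EE z d k‖) ^ 2 :=
        pow_le_pow_left₀ (norm_nonneg _) h1 2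
    _ ≤ ((DY Y).card : ℝ) * ∑ d ∈ DY Y, (31 * ‖EE z d k‖) ^ 2 := h2
    _ = _ := by
      simp_rw [mul_pow]
      rw [← mul_sum]; ring

theorem AA_triv (htri : S_TRI) {Y : ℝ} (hY : 1 ≤ Y) (k : ℤ) : ‖AA (zY Y) Y k‖ ≤ 31 * (50 * Y) ^ 10 * (2 ^ 9 * (100 * Y)) := by
  classical
  have hY0 : 0 < Y := by linarith
  have hE : ∀ d ∈ DY Y, ‖EE (zY Y) d k‖ ≤ 2 ^ 9 * (100 * Y) := by
    intro d hd
    unfold DY at hd
    rw [Finset.mem_filter, Fintype.mem_piFinset] at hd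
    obtain ⟨hd1, hd2⟩ := hd
    have hdu : ∀ i, (d i : ℝ) ≤ 20 * (Y + 1) := by
      intro i
      have h1 := Finset.mem_range.1 (hd1 i)
      have h2 : d i ≤ ⌊20 * (Y + 1)⌋₊ := by omega
      exact (Nat.cast_le.2 h2).trans (Nat.floor_le (by linarith))
    have hb : ∀ i : Fin 10, ‖PF (zY Y) (ty i) (d i) k‖ ≤ if i = 9 then 100 * Y else 2 := by
      intro i
      split_ifs with h4
      · rw [h4]
        have h5 := (htri (zY Y) (ty 9) (d 9) k).1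
        linarith [hdu 9]
      · apply (htri (zY Y) (ty i) (d i) k).2.1
        unfold ty
        have h6 : (i : ℕ) < 10 := i.2
        have h7 : (i : ℕ) ≠ 9 := fun h => h4 (Fin.ext h)
        split_ifs <;> first | decide | omega
    refine (norm_EE_le (zY Y) d k _ hb).trans (le_of_eq ?_)
    rw [Finset.prod_ite, prod_const, prod_const]
    have e1 : (univ.filter (fun i : Fin 10 => i = 9)).card = 1 := by decide
    have e2 : (univ.filter (fun i : Fin 10 => ¬ i = 9)).card = 9 := by decide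
    rw [e1, e2]
    ring
  unfold AA
  refine (norm_sum_le _ _).trans ?_
  have h1 : ∀ d ∈ DY Y, ‖(ed d : ℂ) * EE (zY Y) d k‖ ≤ 31 * (2 ^ 9 * (100 * Y)) := by
    intro d hd
    rw [norm_mul]
    have h3 : ‖((ed d : ℤ) : ℂ)‖ = |((ed d : ℤ) : ℝ)| := Complex.norm_intCast _
    rw [h3]
    exact mul_le_mul (ed_le d) (hE d hd) (norm_nonneg _) (by norm_num)
  refine (sum_le_sum h1).trans ?_
  rw [sum_const, nsmul_eq_mul]
  calc ((DY Y).card : ℝ) * (31 * (2 ^ 9 * (100 * Y))) ≤ (50 * Y) ^ 10 * (31 * (2 ^ 9 * (100 * Y))) :=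
        mul_le_mul_of_nonneg_right (card_DY hY) (by positivity)
    _ = _ := by ring

/-- sparse frequencies for the Dirichlet polynomial of Heath-Brown's identity, as a property of the exponent `c` -/
def KLA (c : ℝ) : Prop := ∀ B : ℕ, ∃ b : ℕ, ∀ᶠ Y : ℝ in atTop, ∀ L : Finset ℤ, (L.card : ℝ) ≤ Real.exp (c * Y) →
  (∀ k ∈ L, Y ^ b ≤ |(k : ℝ)| ∧ |(k : ℝ)| ≤ 20 * Real.exp Y) → ∑ k ∈ L, ‖AA (zY Y) Y k‖ ^ 2 ≤ 1 / Y ^ B

theorem kla_of_kle {c : ℝ} (h : KLE c) : KLA c := by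
  intro B
  obtain ⟨b, hb⟩ := h (B + 21)
  refine ⟨b, ?_⟩
  filter_upwards [hb, eventually_ge_atTop 1, eventually_ge_atTop (31 ^ 2 * 50 ^ 20)] with Y h1 hY1 hY2 L hL1 hL2
  have hY0 : 0 < Y := by linarith
  calc ∑ k ∈ L, ‖AA (zY Y) Y k‖ ^ 2 ≤ ∑ k ∈ L, 31 ^ 2 * ((DY Y).card : ℝ) * ∑ d ∈ DY Y, ‖EE (zY Y) d k‖ ^ 2 :=
        sum_le_sum fun k _ => AA_sq k
    _ = 31 ^ 2 * ((DY Y).card : ℝ) * ∑ d ∈ DY Y, ∑ k ∈ L, ‖EE (zY Y) d k‖ ^ 2 := by rw [← mul_sum, sum_comm]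
    _ ≤ 31 ^ 2 * ((DY Y).card : ℝ) * ∑ d ∈ DY Y, 1 / Y ^ (B + 21) := by
        apply mul_le_mul_of_nonneg_left _ (by positivity)
        exact sum_le_sum fun d hd => h1 d hd L hL1 hL2
    _ = 31 ^ 2 * ((DY Y).card : ℝ) * (((DY Y).card : ℝ) * (1 / Y ^ (B + 21))) := by rw [sum_const, nsmul_eq_mul]
    _ ≤ 31 ^ 2 * ((50 * Y) ^ 10) * (((50 * Y) ^ 10) * (1 / Y ^ (B + 21))) := by
        have := card_DY hY1
        gcongr
    _ = (31 ^ 2 * 50 ^ 20) / Y * (1 / Y ^ B) := by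
        rw [pow_add Y B 21]; field_simp
    _ ≤ 1 * (1 / Y ^ B) := by
        apply mul_le_mul_of_nonneg_right _ (by positivity)
        rw [div_le_one hY0]; exact hY2
    _ = _ := one_mul _

end Pool.Agent.J4H33
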