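import Pool.Agent.J4H33.KL2

/-!
# Primes at sparse sets of frequencies, III: the Fourier series of the tent, and tent windows
-/

set_option autoImplicit false

namespace Pool.Agent.J4H33

open Finset Filter Pool.Agent.H376R2.MR Pool.Agent.Q240.KS Pool.Agent.Q211.KS MeasureTheory
open Pool.Agent.Helper482.Stk (fc)

/-- the periodic tent of half-width `1/2` -/
noncomputable def tp (t : ℝ) : ℂ := ((w (2 * ‖(t : AddCircle (2 * Real.pi))‖) : ℝ) : ℂ)

theorem w_cont : Continuous w := by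
  unfold w
  fun_prop

theorem tp_cont : Continuous tp := by
  unfold tp
  apply Complex.continuous_ofReal.comp
  apply w_cont.comp
  apply continuous_const.mul
  exact continuous_norm.comp (AddCircle.continuous_mk' _)

theorem tp_per : Function.Periodic tp (2 * Real.pi) := by
  intro t
  unfold tp
  rw [AddCircle.coe_add_period]

theorem w_abs (s : ℝ) : w (2 * |s|) = w (2 * s) := by
  unfold w
  rw [abs_mul, abs_mul, abs_abs]

theorem tp_eq {t : ℝ} (ht : |t| ≤ Real.pi) : tp t = ((w (2 * t) : ℝ) : ℂ) := by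
  unfold tp
  have h : ‖(t : AddCircle (2 * Real.pi))‖ = |t| := by
    have hpi := Real.pi_pos
    rw [AddCircle.norm_coe_eq_abs_iff (2 * Real.pi) (by positivity)]
    rw [abs_of_pos (by positivity : 0 < 2 * Real.pi)]
    linarith
  rw [h, w_abs]

theorem tp_norm (t : ℝ) : ‖tp t‖ ≤ 1 := by
  unfold tp
  rw [Complex.norm_real, Real.norm_eq_abs, abs_of_nonneg (w_nonneg _)]
  exact w_le_one _

/-- the kernel -/
theorem ker_deriv (n : ℤ) (t : ℝ) : HasDerivAt (fun t : ℝ => Complex.exp (-(Complex.I * n * t))) (-(Complex.I * n) * Complex.exp (-(Complex.I * n * t))) t := by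
  have h1 : HasDerivAt (fun t : ℝ => -(Complex.I * n * (t : ℂ))) (-(Complex.I * n)) t := by
    have h2 := (Complex.ofRealCLM.hasDerivAt (x := t)).const_mul (-(Complex.I * n))
    simp only [Complex.ofRealCLM_apply, Complex.ofReal_one, mul_one] at h2
    simpa only [neg_mul] using h2
  exact h1.cexp.congr_deriv (by ring)

theorem int_right (n : ℤ) (hn : n ≠ 0) : ∫ t in (0 : ℝ)..(1 / 2), ((1 - 2 * t : ℝ) : ℂ) * Complex.exp (-(Complex.I * n * t)) =
    -(2 / (n : ℂ) ^ 2) * Complex.exp (-(Complex.I * n * (1 / 2 : ℝ))) - Complex.I / n + 2 / (n : ℂ) ^ 2 := by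
  have hn' : (n : ℂ) ≠ 0 := by exact_mod_cast hn
  have hd : ∀ t ∈ Set.uIcc (0 : ℝ) (1 / 2), HasDerivAt (fun t : ℝ => (Complex.I / n * ((1 - 2 * t : ℝ) : ℂ) - 2 / (n : ℂ) ^ 2) *
      Complex.exp (-(Complex.I * n * t))) (((1 - 2 * t : ℝ) : ℂ) * Complex.exp (-(Complex.I * n * t))) t := by
    intro t _
    have h1 : HasDerivAt (fun t : ℝ => (Complex.I / n * ((1 - 2 * t : ℝ) : ℂ) - 2 / (n : ℂ) ^ 2)) (Complex.I / n * (-2)) t := by
      have h2 : HasDerivAt (fun t : ℝ => ((1 - 2 * t : ℝ) : ℂ)) (-2) t := by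
        have h3 : HasDerivAt (fun t : ℝ => 1 - 2 * t) (-2) t := by
          simpa using ((hasDerivAt_id t).const_mul 2).const_sub 1
        have h4 := h3.ofReal_comp
        simpa using h4
      exact (h2.const_mul _).sub_const _
    refine (h1.mul (ker_deriv n t)).congr_deriv ?_
    have hI : Complex.I * Complex.I = -1 := Complex.I_mul_I
    have e1 : Complex.I / n * (Complex.I * n) = -1 := by
      rw [div_mul_eq_mul_div, ← mul_assoc, hI]; field_simp
    have e2 : 2 / (n : ℂ) ^ 2 * (Complex.I * n) = 2 * (Complex.I / n) := by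
      field_simp
    linear_combination (-((1 - 2 * t : ℝ) : ℂ) * Complex.exp (-(Complex.I * n * t))) * e1 + Complex.exp (-(Complex.I * n * t)) * e2
  rw [intervalIntegral.integral_eq_sub_of_hasDerivAt hd (Continuous.intervalIntegrable (by fun_prop) _ _)]
  push_cast
  simp
  ring

theorem int_left (n : ℤ) (hn : n ≠ 0) : ∫ t in (-(1 / 2) : ℝ)..0, ((1 + 2 * t : ℝ) : ℂ) * Complex.exp (-(Complex.I * n * t)) =
    Complex.I / n + 2 / (n : ℂ) ^ 2 - (2 / (n : ℂ) ^ 2) * Complex.exp (-(Complex.I * n * (-(1 / 2) : ℝ))) := by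
  have hn' : (n : ℂ) ≠ 0 := by exact_mod_cast hn
  have hd : ∀ t ∈ Set.uIcc (-(1 / 2) : ℝ) 0, HasDerivAt (fun t : ℝ => (Complex.I / n * ((1 + 2 * t : ℝ) : ℂ) + 2 / (n : ℂ) ^ 2) *
      Complex.exp (-(Complex.I * n * t))) (((1 + 2 * t : ℝ) : ℂ) * Complex.exp (-(Complex.I * n * t))) t := by
    intro t _
    have h1 : HasDerivAt (fun t : ℝ => (Complex.I / n * ((1 + 2 * t : ℝ) : ℂ) + 2 / (n : ℂ) ^ 2)) (Complex.I / n * 2) t := by
      have h2 : HasDerivAt (fun t : ℝ => ((1 + 2 * t : ℝ) : ℂ)) 2 t := by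
        have h3 : HasDerivAt (fun t : ℝ => 1 + 2 * t) 2 t := by
          simpa using ((hasDerivAt_id t).const_mul 2).const_add 1
        have h4 := h3.ofReal_comp
        simpa using h4
      exact (h2.const_mul _).add_const _
    refine (h1.mul (ker_deriv n t)).congr_deriv ?_
    have hI : Complex.I * Complex.I = -1 := Complex.I_mul_I
    have e1 : Complex.I / n * (Complex.I * n) = -1 := by
      rw [div_mul_eq_mul_div, ← mul_assoc, hI]; field_simp
    have e2 : 2 / (n : ℂ) ^ 2 * (Complex.I * n) = 2 * (Complex.I / n) := by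
      field_simp
    linear_combination (-((1 + 2 * t : ℝ) : ℂ) * Complex.exp (-(Complex.I * n * t))) * e1 - Complex.exp (-(Complex.I * n * t)) * e2
  rw [intervalIntegral.integral_eq_sub_of_hasDerivAt hd (Continuous.intervalIntegrable (by fun_prop) _ _)]
  push_cast
  simp

theorem ker_norm (n : ℤ) (t : ℝ) : ‖Complex.exp (-(Complex.I * n * t))‖ = 1 := by
  have : -(Complex.I * n * (t : ℂ)) = ((-(n * t) : ℝ) : ℂ) * Complex.I := by push_cast; ring
  rw [this]
  exact Complex.norm_exp_ofReal_mul_I _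

/-- the Fourier coefficients -/
theorem fc_tp (n : ℤ) (hn : n ≠ 0) : ‖fc tp n‖ ≤ 2 / (n : ℝ) ^ 2 := by
  have hn' : (n : ℂ) ≠ 0 := by exact_mod_cast hn
  have hnr : (n : ℝ) ≠ 0 := by exact_mod_cast hn
  have hpi := Real.pi_gt_three
  have hc : Continuous (fun t : ℝ => tp t * Complex.exp (-(Complex.I * n * t))) := tp_cont.mul (by fun_prop)
  have hint : ∀ a b : ℝ, IntervalIntegrable (fun t : ℝ => tp t * Complex.exp (-(Complex.I * n * t))) volume a b :=
    fun a b => hc.intervalIntegrable _ _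
  have e : ∫ t in (-Real.pi)..Real.pi, tp t * Complex.exp (-(Complex.I * n * t)) =
      (Complex.I / n + 2 / (n : ℂ) ^ 2 - (2 / (n : ℂ) ^ 2) * Complex.exp (-(Complex.I * n * (-(1 / 2) : ℝ)))) +
      (-(2 / (n : ℂ) ^ 2) * Complex.exp (-(Complex.I * n * (1 / 2 : ℝ))) - Complex.I / n + 2 / (n : ℂ) ^ 2) := by
    rw [← intervalIntegral.integral_add_adjacent_intervals (hint (-Real.pi) (-(1 / 2))) (hint (-(1 / 2)) Real.pi),
      ← intervalIntegral.integral_add_adjacent_intervals (hint (-(1 / 2)) 0) (hint 0 Real.pi),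
      ← intervalIntegral.integral_add_adjacent_intervals (hint 0 (1 / 2)) (hint (1 / 2) Real.pi)]
    have z1 : ∫ t in (-Real.pi)..(-(1 / 2)), tp t * Complex.exp (-(Complex.I * n * t)) = 0 := by
      rw [intervalIntegral.integral_congr (g := fun _ => (0 : ℂ))]
      · simp
      · intro t ht
        rw [Set.uIcc_of_le (by linarith)] at ht
        show tp t * _ = 0
        rw [tp_eq (by rw [abs_le]; constructor <;> linarith [ht.1, ht.2])]
        have : w (2 * t) = 0 := by
          unfold w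
          apply max_eq_left
          rw [abs_of_nonpos (by linarith [ht.2])]
          linarith [ht.2]
        rw [this]; simp
    have z2 : ∫ t in (1 / 2 : ℝ)..Real.pi, tp t * Complex.exp (-(Complex.I * n * t)) = 0 := by
      rw [intervalIntegral.integral_congr (g := fun _ => (0 : ℂ))]
      · simp
      · intro t ht
        rw [Set.uIcc_of_le (by linarith)] at ht
        show tp t * _ = 0
        rw [tp_eq (by rw [abs_le]; constructor <;> linarith [ht.1, ht.2])]
        have : w (2 * t) = 0 := by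
          unfold w
          apply max_eq_left
          rw [abs_of_nonneg (by linarith [ht.1])]
          linarith [ht.1]
        rw [this]; simp
    have z3 : ∫ t in (-(1 / 2) : ℝ)..0, tp t * Complex.exp (-(Complex.I * n * t)) =
        ∫ t in (-(1 / 2) : ℝ)..0, ((1 + 2 * t : ℝ) : ℂ) * Complex.exp (-(Complex.I * n * t)) := by
      apply intervalIntegral.integral_congr
      intro t ht
      rw [Set.uIcc_of_le (by norm_num)] at ht
      show tp t * _ = _ * _
      rw [tp_eq (by rw [abs_le]; constructor <;> linarith [ht.1, ht.2])]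
      have : w (2 * t) = 1 + 2 * t := by
        unfold w
        rw [abs_of_nonpos (by linarith [ht.2]), max_eq_right (by linarith [ht.1])]
        ring
      rw [this]
    have z4 : ∫ t in (0 : ℝ)..(1 / 2), tp t * Complex.exp (-(Complex.I * n * t)) =
        ∫ t in (0 : ℝ)..(1 / 2), ((1 - 2 * t : ℝ) : ℂ) * Complex.exp (-(Complex.I * n * t)) := by
      apply intervalIntegral.integral_congr
      intro t ht
      rw [Set.uIcc_of_le (by norm_num)] at ht
      show tp t * _ = _ * _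
      rw [tp_eq (by rw [abs_le]; constructor <;> linarith [ht.1, ht.2])]
      have : w (2 * t) = 1 - 2 * t := by
        unfold w
        rw [abs_of_nonneg (by linarith [ht.1]), max_eq_right (by linarith [ht.2])]
      rw [this]
    rw [z1, z2, z3, z4, int_left n hn, int_right n hn]
    ring
  unfold Pool.Agent.Helper482.Stk.fc
  rw [e, norm_mul]
  have e2 : (Complex.I / n + 2 / (n : ℂ) ^ 2 - (2 / (n : ℂ) ^ 2) * Complex.exp (-(Complex.I * n * (-(1 / 2) : ℝ)))) +
      (-(2 / (n : ℂ) ^ 2) * Complex.exp (-(Complex.I * n * (1 / 2 : ℝ))) - Complex.I / n + 2 / (n : ℂ) ^ 2) =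
      2 / (n : ℂ) ^ 2 * (2 - Complex.exp (-(Complex.I * n * (-(1 / 2) : ℝ))) - Complex.exp (-(Complex.I * n * (1 / 2 : ℝ)))) := by ring
  rw [e2, norm_mul]
  have h1 : ‖(2 - Complex.exp (-(Complex.I * n * (-(1 / 2) : ℝ))) - Complex.exp (-(Complex.I * n * (1 / 2 : ℝ))))‖ ≤ 4 := by
    refine (norm_sub_le _ _).trans ?_
    have h2 := norm_sub_le (2 : ℂ) (Complex.exp (-(Complex.I * n * (-(1 / 2) : ℝ))))
    have h3 := ker_norm n (-(1 / 2))
    have h4 := ker_norm n (1 / 2)
    have h5 : ‖(2 : ℂ)‖ = 2 := by simp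
    linarith
  have h2 : ‖2 / (n : ℂ) ^ 2‖ = 2 / (n : ℝ) ^ 2 := by
    rw [norm_div, norm_pow]
    have h3 : ‖((n : ℤ) : ℂ)‖ = |((n : ℤ) : ℝ)| := Complex.norm_intCast _
    rw [h3, sq_abs]; simp
  have h3 : ‖(1 / (2 * (Real.pi : ℂ)))‖ = 1 / (2 * Real.pi) := by
    have : (1 / (2 * (Real.pi : ℂ))) = ((1 / (2 * Real.pi) : ℝ) : ℂ) := by push_cast; rfl
    rw [this, Complex.norm_real, Real.norm_of_nonneg (by positivity)]
  rw [h2, h3]
  have h4 : 1 / (2 * Real.pi) ≤ 1 / 4 := by
    apply one_div_le_one_div_of_le (by norm_num)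
    linarith
  calc 1 / (2 * Real.pi) * (2 / (n : ℝ) ^ 2 * ‖(2 - Complex.exp (-(Complex.I * n * (-(1 / 2) : ℝ))) - Complex.exp (-(Complex.I * n * (1 / 2 : ℝ))))‖)
      ≤ 1 / 4 * (2 / (n : ℝ) ^ 2 * 4) := by gcongr
    _ = 2 / (n : ℝ) ^ 2 := by ring

theorem fc_tp0 (n : ℤ) : ‖fc tp n‖ ≤ 1 := by
  unfold Pool.Agent.Helper482.Stk.fc
  have hpi := Real.pi_pos
  have h1 : ‖∫ t in (-Real.pi)..Real.pi, tp t * Complex.exp (-(Complex.I * n * t))‖ ≤ 1 * |Real.pi - (-Real.pi)| := by
    refine intervalIntegral.norm_integral_le_of_norm_le_const fun t _ => ?_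
    rw [norm_mul, ker_norm, mul_one]
    exact tp_norm t
  have h3 : ‖(1 / (2 * (Real.pi : ℂ)))‖ = 1 / (2 * Real.pi) := by
    have : (1 / (2 * (Real.pi : ℂ))) = ((1 / (2 * Real.pi) : ℝ) : ℂ) := by push_cast; rfl
    rw [this, Complex.norm_real, Real.norm_of_nonneg (by positivity)]
  rw [norm_mul, h3]
  rw [show Real.pi - -Real.pi = 2 * Real.pi by ring, abs_of_pos Real.two_pi_pos, one_mul] at h1
  calc 1 / (2 * Real.pi) * _ ≤ 1 / (2 * Real.pi) * (2 * Real.pi) := by gcongr
    _ = 1 := by field_simp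

theorem fc_tp_summable : Summable (fun n : ℤ => ‖fc tp n‖) := by
  have h1 : Summable (fun n : ℤ => 2 * (1 / (n : ℝ) ^ 2)) := (Real.summable_one_div_int_pow.2 (by norm_num)).mul_left 2
  apply Summable.of_norm_bounded_eventually h1
  have h2 : ∀ᶠ n : ℤ in cofinite, n ≠ 0 := by
    rw [eventually_cofinite]
    simp
  filter_upwards [h2] with n hn
  rw [norm_norm]
  refine (fc_tp n hn).trans (le_of_eq ?_)
  ring

theorem fc_tp_sum (J : Finset ℤ) : ∑ j ∈ J, ‖fc tp j‖ ≤ 9 := by
  classical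
  have h1 : ∀ j ∈ J.erase 0, ‖fc tp j‖ ≤ 2 * (1 / (j : ℝ) ^ 2) := by
    intro j hj
    rw [mem_erase] at hj
    refine (fc_tp j hj.1).trans (le_of_eq ?_)
    ring
  have h2 := sum_le_sum h1
  rw [← mul_sum] at h2
  have h3 := sum_inv_sq (J.erase 0) (notMem_erase _ _)
  have h4 : ∑ j ∈ J, ‖fc tp j‖ ≤ 1 + ∑ j ∈ J.erase 0, ‖fc tp j‖ := by
    by_cases h0 : (0 : ℤ) ∈ J
    · rw [← add_sum_erase J _ h0]
      linarith [fc_tp0 0]
    · rw [erase_eq_of_notMem h0]
      linarith
  linarith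

end Pool.Agent.J4H33
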