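import Pool.Agent.J4H33.KL3

/-!
# Primes at sparse sets of frequencies, IV: tent windows of the von Mangoldt function
-/

set_option autoImplicit false

namespace Pool.Agent.J4H33

open Finset Filter Pool.Agent.H376R2.MR Pool.Agent.Q240.KS Pool.Agent.Q211.KS
open Pool.Agent.Helper482.Stk (fc)

/-- `∑ Λ(n)/n w(2(log n - Y)) n^{-ik}` -/
noncomputable def Pt (Y : ℝ) (k : ℤ) : ℂ :=
  ∑ n ∈ Icc 1 ⌊Real.exp (Y + 3 / 2)⌋₊, ((ArithmeticFunction.vonMangoldt n / n * w (2 * (Real.log n - Y)) : ℝ) : ℂ) *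
    ch k (Real.log n)

theorem ch_shift (k j : ℤ) (x Y : ℝ) : ch k x * Complex.exp (Complex.I * j * ((x - Y : ℝ) : ℂ)) =
    Complex.exp (-(Complex.I * j * Y)) * ch (k - j) x := by
  unfold ch
  rw [← Complex.exp_add, ← Complex.exp_add]
  congr 1
  push_cast
  ring

theorem Pt_hasSum (Y : ℝ) (a : ℕ → ℝ)
    (h1 : ∀ k : ℤ, AA (zY Y) Y k = DP (Icc 1 ⌊Real.exp (Y + 3 / 2)⌋₊) (fun n => ((a n : ℝ) : ℂ)) k)
    (h2 : ∀ n : ℕ, 1 ≤ n → |Real.log n - Y| ≤ 1 / 2 → a n = ArithmeticFunction.vonMangoldt n / n)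
    (h3 : ∀ n : ℕ, 1 ≤ n → 3 / 2 < |Real.log n - Y| → a n = 0) (k : ℤ) :
    HasSum (fun j : ℤ => fc tp j * Complex.exp (-(Complex.I * j * Y)) * AA (zY Y) Y (k - j)) (Pt Y k) := by
  have hpi := Real.pi_gt_three
  have key : ∀ n ∈ Icc 1 ⌊Real.exp (Y + 3 / 2)⌋₊, HasSum (fun j : ℤ => fc tp j * Complex.exp (-(Complex.I * j * Y)) *
      (((a n : ℝ) : ℂ) * ch (k - j) (Real.log n)))
      (((ArithmeticFunction.vonMangoldt n / n * w (2 * (Real.log n - Y)) : ℝ) : ℂ) * ch k (Real.log n)) := by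
    intro n hn
    rw [mem_Icc] at hn
    have e1 : ((ArithmeticFunction.vonMangoldt n / n * w (2 * (Real.log n - Y)) : ℝ) : ℂ) = ((a n : ℝ) : ℂ) * tp (Real.log n - Y) := by
      rcases le_or_gt |Real.log n - Y| (1 / 2) with g | g
      · rw [h2 n hn.1 g, tp_eq (by linarith)]
        push_cast; ring
      · have hw : w (2 * (Real.log n - Y)) = 0 := by
          unfold w
          apply max_eq_left
          rw [abs_mul, abs_two]
          linarith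
        rw [hw, mul_zero]
        rcases le_or_gt |Real.log n - Y| (3 / 2) with g2 | g2
        · rw [tp_eq (by linarith), hw]; simp
        · rw [h3 n hn.1 g2]; simp
    have e2 := (Pool.Agent.Helper482.Stk.M_f1.fc_hasSum tp tp_cont tp_per fc_tp_summable (Real.log n - Y)).mul_left
      (((a n : ℝ) : ℂ) * ch k (Real.log n))
    rw [e1]
    have e4 : (fun j : ℤ => fc tp j * Complex.exp (-(Complex.I * j * Y)) * (((a n : ℝ) : ℂ) * ch (k - j) (Real.log n))) =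
        (fun j : ℤ => ((a n : ℝ) : ℂ) * ch k (Real.log n) * (fc tp j * Complex.exp (Complex.I * j * ((Real.log n - Y : ℝ) : ℂ)))) := by
      funext j
      have e3 := ch_shift k j (Real.log n) Y
      calc fc tp j * Complex.exp (-(Complex.I * j * Y)) * (((a n : ℝ) : ℂ) * ch (k - j) (Real.log n)) =
            fc tp j * ((a n : ℝ) : ℂ) * (Complex.exp (-(Complex.I * j * Y)) * ch (k - j) (Real.log n)) := by ring
        _ = fc tp j * ((a n : ℝ) : ℂ) * (ch k (Real.log n) * Complex.exp (Complex.I * j * ((Real.log n - Y : ℝ) : ℂ))) := by rw [e3]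
        _ = _ := by ring
    have e5 : ((a n : ℝ) : ℂ) * tp (Real.log n - Y) * ch k (Real.log n) = ((a n : ℝ) : ℂ) * ch k (Real.log n) * tp (Real.log n - Y) := by ring
    rw [e4, e5]
    exact e2
  have h4 := hasSum_sum key
  have e6 : (fun j : ℤ => fc tp j * Complex.exp (-(Complex.I * j * Y)) * AA (zY Y) Y (k - j)) =
      (fun j : ℤ => ∑ n ∈ Icc 1 ⌊Real.exp (Y + 3 / 2)⌋₊, fc tp j * Complex.exp (-(Complex.I * j * Y)) *
        (((a n : ℝ) : ℂ) * ch (k - j) (Real.log n))) := by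
    funext j
    rw [h1]
    unfold DP
    rw [mul_sum]
  rw [e6]
  exact h4

/-- finite sums -/
noncomputable def GJ (Y : ℝ) (J : Finset ℤ) (k : ℤ) : ℂ := ∑ j ∈ J, fc tp j * Complex.exp (-(Complex.I * j * Y)) * AA (zY Y) Y (k - j)

theorem exp_norm1 (j : ℤ) (Y : ℝ) : ‖Complex.exp (-(Complex.I * j * Y))‖ = 1 := ker_norm j Y

theorem GJ_bound (Y : ℝ) (L J : Finset ℤ) (M S : ℝ) (hM : ∀ k, ‖AA (zY Y) Y k‖ ≤ M) (hL2 : ∀ k ∈ L, 2 ≤ |k|)
    (hS : ∀ j : ℤ, ∑ k ∈ L.filter (fun k => 2 * |j| ≤ |k|), ‖AA (zY Y) Y (k - j)‖ ^ 2 ≤ S) :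
    ∑ k ∈ L, ‖GJ Y J k‖ ^ 2 ≤ 200 * S + 2 * (16 * M) ^ 2 * ∑ k ∈ L, 1 / (k : ℝ) ^ 2 := by
  classical
  have hM0 : 0 ≤ M := (norm_nonneg _).trans (hM 0)
  have hS0 : 0 ≤ S := le_trans (sum_nonneg fun _ _ => by positivity) (hS 0)
  -- pointwise
  have hpt : ∀ k ∈ L, ‖GJ Y J k‖ ^ 2 ≤ 2 * (9 * ∑ j ∈ J, ‖fc tp j‖ * (if 2 * |j| ≤ |k| then ‖AA (zY Y) Y (k - j)‖ ^ 2 else 0)) +
      2 * (16 * M) ^ 2 * (1 / (k : ℝ) ^ 2) := by
    intro k hk
    have hk2 := hL2 k hk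
    have hkr : (2 : ℝ) ≤ |(k : ℝ)| := by
      have : ((2 : ℤ) : ℝ) ≤ ((|k| : ℤ) : ℝ) := by exact_mod_cast hk2
      rw [Int.cast_abs] at this
      exact_mod_cast this
    have h1 : ‖GJ Y J k‖ ≤ ∑ j ∈ J.filter (fun j => 2 * |j| ≤ |k|), ‖fc tp j‖ * ‖AA (zY Y) Y (k - j)‖ +
        ∑ j ∈ J.filter (fun j => ¬ 2 * |j| ≤ |k|), ‖fc tp j‖ * ‖AA (zY Y) Y (k - j)‖ := by
      rw [sum_filter_add_sum_filter_not]
      unfold GJ
      refine (norm_sum_le _ _).trans (le_of_eq (sum_congr rfl fun j _ => ?_))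
      rw [norm_mul, norm_mul, exp_norm1, mul_one]
    -- the far part
    have h2 : ∑ j ∈ J.filter (fun j => ¬ 2 * |j| ≤ |k|), ‖fc tp j‖ * ‖AA (zY Y) Y (k - j)‖ ≤ 16 * M / |(k : ℝ)| := by
      obtain ⟨D, hD⟩ : ∃ D : ℕ, D = k.natAbs / 2 := ⟨_, rfl⟩
      have hkn : 2 ≤ k.natAbs := by
        rw [Int.abs_eq_natAbs] at hk2
        exact_mod_cast hk2
      have hD1 : 1 ≤ D := by omega
      have hcast : ((k.natAbs : ℕ) : ℝ) = |(k : ℝ)| := by
        rw [Nat.cast_natAbs]; push_cast; rfl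
      have hD2 : |(k : ℝ)| / 4 ≤ D := by
        have : k.natAbs ≤ 4 * D := by omega
        have h3 : ((k.natAbs : ℕ) : ℝ) ≤ 4 * D := by exact_mod_cast this
        rw [hcast] at h3
        linarith
      have hfar : ∀ j ∈ J.filter (fun j => ¬ 2 * |j| ≤ |k|), (D : ℤ) < |j| := by
        intro j hj
        rw [mem_filter] at hj
        have h3 := hj.2
        rw [Int.abs_eq_natAbs, Int.abs_eq_natAbs] at h3
        rw [Int.abs_eq_natAbs]
        have h4 : ¬ 2 * j.natAbs ≤ k.natAbs := by exact_mod_cast h3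
        have h5 : D < j.natAbs := by omega
        exact_mod_cast h5
      have h3 := sum_inv_sq_large _ D hD1 hfar
      have hD0 : (0 : ℝ) < D := by exact_mod_cast hD1
      calc ∑ j ∈ J.filter (fun j => ¬ 2 * |j| ≤ |k|), ‖fc tp j‖ * ‖AA (zY Y) Y (k - j)‖
          ≤ ∑ j ∈ J.filter (fun j => ¬ 2 * |j| ≤ |k|), 2 * M * (1 / (j : ℝ) ^ 2) := by
            apply sum_le_sum
            intro j hj
            have h4 := hfar j hj
            have hj0 : j ≠ 0 := by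
              rintro rfl
              simp at h4
              omega
            calc ‖fc tp j‖ * ‖AA (zY Y) Y (k - j)‖ ≤ (2 / (j : ℝ) ^ 2) * M :=
                  mul_le_mul (fc_tp j hj0) (hM _) (norm_nonneg _) (by positivity)
              _ = _ := by ring
        _ = 2 * M * ∑ j ∈ J.filter (fun j => ¬ 2 * |j| ≤ |k|), 1 / (j : ℝ) ^ 2 := by rw [mul_sum]
        _ ≤ 2 * M * (2 / D) := mul_le_mul_of_nonneg_left h3 (by positivity)
        _ ≤ 2 * M * (2 / (|(k : ℝ)| / 4)) := by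
            apply mul_le_mul_of_nonneg_left _ (by positivity)
            exact div_le_div_of_nonneg_left (by norm_num) (by positivity) hD2
        _ = _ := by field_simp; ring
    -- the near part
    have h3 : (∑ j ∈ J.filter (fun j => 2 * |j| ≤ |k|), ‖fc tp j‖ * ‖AA (zY Y) Y (k - j)‖) ^ 2 ≤
        9 * ∑ j ∈ J, ‖fc tp j‖ * (if 2 * |j| ≤ |k| then ‖AA (zY Y) Y (k - j)‖ ^ 2 else 0) := by
      have h4 := Finset.sum_sq_le_sum_mul_sum_of_sq_le_mul (J.filter (fun j => 2 * |j| ≤ |k|))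
        (r := fun j => ‖fc tp j‖ * ‖AA (zY Y) Y (k - j)‖) (f := fun j => ‖fc tp j‖) (g := fun j => ‖fc tp j‖ * ‖AA (zY Y) Y (k - j)‖ ^ 2)
        (fun j _ => norm_nonneg _) (fun j _ => by positivity) (fun j _ => le_of_eq (by ring))
      refine h4.trans ?_
      have h5 := fc_tp_sum (J.filter (fun j => 2 * |j| ≤ |k|))
      have h6 : ∑ j ∈ J.filter (fun j => 2 * |j| ≤ |k|), ‖fc tp j‖ * ‖AA (zY Y) Y (k - j)‖ ^ 2 =
          ∑ j ∈ J, ‖fc tp j‖ * (if 2 * |j| ≤ |k| then ‖AA (zY Y) Y (k - j)‖ ^ 2 else 0) := by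
        rw [sum_filter]
        apply sum_congr rfl
        intro j _
        split_ifs <;> simp
      rw [h6]
      apply mul_le_mul_of_nonneg_right h5
      exact sum_nonneg fun j _ => mul_nonneg (norm_nonneg _) (by split_ifs <;> positivity)
    set a1 := ∑ j ∈ J.filter (fun j => 2 * |j| ≤ |k|), ‖fc tp j‖ * ‖AA (zY Y) Y (k - j)‖ with ha1
    set a2 := ∑ j ∈ J.filter (fun j => ¬ 2 * |j| ≤ |k|), ‖fc tp j‖ * ‖AA (zY Y) Y (k - j)‖ with ha2
    have ha10 : 0 ≤ a1 := sum_nonneg fun _ _ => by positivity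
    have ha20 : 0 ≤ a2 := sum_nonneg fun _ _ => by positivity
    have h7 : a2 ^ 2 ≤ (16 * M) ^ 2 * (1 / (k : ℝ) ^ 2) := by
      calc a2 ^ 2 ≤ (16 * M / |(k : ℝ)|) ^ 2 := pow_le_pow_left₀ ha20 h2 2
        _ = _ := by rw [div_pow, sq_abs]; ring
    calc ‖GJ Y J k‖ ^ 2 ≤ (a1 + a2) ^ 2 := pow_le_pow_left₀ (norm_nonneg _) h1 2
      _ ≤ 2 * a1 ^ 2 + 2 * a2 ^ 2 := by nlinarith [sq_nonneg (a1 - a2)]
      _ ≤ _ := by linarith
  refine (sum_le_sum hpt).trans ?_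
  rw [sum_add_distrib, ← mul_sum, ← mul_sum, ← mul_sum, sum_comm]
  have h4 : ∑ j ∈ J, ∑ k ∈ L, ‖fc tp j‖ * (if 2 * |j| ≤ |k| then ‖AA (zY Y) Y (k - j)‖ ^ 2 else 0) ≤ 9 * S := by
    calc ∑ j ∈ J, ∑ k ∈ L, ‖fc tp j‖ * (if 2 * |j| ≤ |k| then ‖AA (zY Y) Y (k - j)‖ ^ 2 else 0)
        ≤ ∑ j ∈ J, ‖fc tp j‖ * S := by
          apply sum_le_sum
          intro j _
          rw [← mul_sum, ← sum_filter]
          exact mul_le_mul_of_nonneg_left (hS j) (norm_nonneg _)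
      _ = (∑ j ∈ J, ‖fc tp j‖) * S := by rw [sum_mul]
      _ ≤ 9 * S := mul_le_mul_of_nonneg_right (fc_tp_sum J) hS0
  linarith

/-- sparse frequencies for tent windows, as a property of the exponent `c` -/
def KLP (c : ℝ) : Prop := ∀ B : ℕ, ∃ b : ℕ, ∀ᶠ Y : ℝ in atTop, ∀ L : Finset ℤ, (L.card : ℝ) ≤ Real.exp (c * Y) →
  (∀ k ∈ L, Y ^ b ≤ |(k : ℝ)| ∧ |(k : ℝ)| ≤ 10 * Real.exp Y) → ∑ k ∈ L, ‖Pt Y k‖ ^ 2 ≤ 1 / Y ^ B

/-- **Tent windows at sparse sets of frequencies.** -/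
theorem klp_of_kla (htri : S_TRI) (htup : S_TUP) {c : ℝ} (h : KLA c) : KLP c := by
  classical
  intro B
  obtain ⟨b, hb⟩ := h (B + 1)
  obtain ⟨Y₀, hY₀⟩ := htup 1 one_pos
  obtain ⟨C1, hC1⟩ : ∃ C1 : ℝ, C1 = 31 * 50 ^ 10 * (2 ^ 9 * 100) := ⟨_, rfl⟩
  have hC10 : 0 < C1 := by rw [hC1]; norm_num
  refine ⟨b + B + 25, ?_⟩
  filter_upwards [hb, eventually_ge_atTop Y₀, eventually_ge_atTop 400, eventually_ge_atTop (2 * (2 * (16 * C1) ^ 2 * 4))]
    with Y h1 hY1 hY2 hY3 L hL1 hL2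
  have hY0 : 0 < Y := by linarith
  have hY11 : 1 ≤ Y := by linarith
  obtain ⟨a, ha1, ha2, -, ha4⟩ := hY₀ Y hY1
  have hpow2 : 2 * Y ^ b ≤ Y ^ (b + B + 25) := by
    have e : Y ^ (b + B + 25) = Y ^ b * Y ^ (B + 25) := by rw [← pow_add]; congr 1
    rw [e]
    have h2 : 2 ≤ Y ^ (B + 25) := by
      calc (2 : ℝ) ≤ Y := by linarith
        _ = Y ^ 1 := (pow_one Y).symm
        _ ≤ _ := pow_le_pow_right₀ hY11 (by omega)
    have h3 : 0 < Y ^ b := by positivity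
    nlinarith
  have hbY2 : 2 ≤ Y ^ (b + B + 25) := by
    calc (2 : ℝ) ≤ Y := by linarith
      _ = Y ^ 1 := (pow_one Y).symm
      _ ≤ _ := pow_le_pow_right₀ hY11 (by omega)
  have hL3 : ∀ k ∈ L, (2 : ℤ) ≤ |k| := by
    intro k hk
    have h2 := (hL2 k hk).1
    have h3 : ((2 : ℤ) : ℝ) ≤ ((|k| : ℤ) : ℝ) := by
      rw [Int.cast_abs]
      push_cast
      linarith
    exact_mod_cast h3
  have hM : ∀ k, ‖AA (zY Y) Y k‖ ≤ C1 * Y ^ 11 := by
    intro k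
    refine (AA_triv htri hY11 k).trans (le_of_eq ?_)
    rw [hC1]; ring
  have hS : ∀ j : ℤ, ∑ k ∈ L.filter (fun k => 2 * |j| ≤ |k|), ‖AA (zY Y) Y (k - j)‖ ^ 2 ≤ 1 / Y ^ (B + 1) := by
    intro j
    have hinj : Function.Injective (fun k : ℤ => k - j) := fun x y hxy => by simpa using hxy
    have e : ∑ k ∈ L.filter (fun k => 2 * |j| ≤ |k|), ‖AA (zY Y) Y (k - j)‖ ^ 2 =
        ∑ k ∈ (L.filter (fun k => 2 * |j| ≤ |k|)).image (fun k => k - j), ‖AA (zY Y) Y k‖ ^ 2 := by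
      rw [sum_image fun x _ y _ hxy => hinj hxy]
    rw [e]
    apply h1
    · rw [card_image_of_injective _ hinj]
      exact (Nat.cast_le.2 (card_filter_le _ _)).trans hL1
    · intro k' hk'
      rw [mem_image] at hk'
      obtain ⟨k, hk, rfl⟩ := hk'
      rw [mem_filter] at hk
      obtain ⟨g1, g2⟩ := hL2 k hk.1
      have g3 : 2 * |(j : ℝ)| ≤ |(k : ℝ)| := by
        have : ((2 * |j| : ℤ) : ℝ) ≤ ((|k| : ℤ) : ℝ) := by exact_mod_cast hk.2
        push_cast at this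
        exact this
      have g4 : |(k : ℝ)| - |(j : ℝ)| ≤ |(((k - j : ℤ)) : ℝ)| := by
        push_cast
        exact abs_sub_abs_le_abs_sub _ _
      have g5 : |(((k - j : ℤ)) : ℝ)| ≤ |(k : ℝ)| + |(j : ℝ)| := by
        push_cast
        exact abs_sub _ _
      constructor
      · linarith
      · linarith [Real.exp_pos Y]
  -- the bound for finite sums
  have hfin : ∀ J : Finset ℤ, ∑ k ∈ L, ‖GJ Y J k‖ ^ 2 ≤ 200 * (1 / Y ^ (B + 1)) + 2 * (16 * (C1 * Y ^ 11)) ^ 2 * ∑ k ∈ L, 1 / (k : ℝ) ^ 2 :=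
    fun J => GJ_bound Y L J _ _ hM hL3 hS
  have hlim : Tendsto (fun J : Finset ℤ => ∑ k ∈ L, ‖GJ Y J k‖ ^ 2) atTop (nhds (∑ k ∈ L, ‖Pt Y k‖ ^ 2)) := by
    apply tendsto_finsetSum
    intro k _
    have := Pt_hasSum Y a ha1 ha2 ha4 k
    exact (this.norm).pow 2
  have hle := le_of_tendsto' hlim hfin
  refine hle.trans ?_
  -- the sum of 1/k^2
  obtain ⟨D', hD'⟩ : ∃ D' : ℕ, D' = ⌈Y ^ (b + B + 25)⌉₊ - 1 := ⟨_, rfl⟩
  have hceil1 : Y ^ (b + B + 25) ≤ (⌈Y ^ (b + B + 25)⌉₊ : ℕ) := Nat.le_ceil _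
  have hceil2 : 2 ≤ ⌈Y ^ (b + B + 25)⌉₊ := by
    have : (2 : ℝ) ≤ (⌈Y ^ (b + B + 25)⌉₊ : ℕ) := hbY2.trans hceil1
    exact_mod_cast this
  have hD'1 : 1 ≤ D' := by omega
  have hD'2 : Y ^ (b + B + 25) / 2 ≤ D' := by
    have h6 : ((⌈Y ^ (b + B + 25)⌉₊ : ℕ) : ℝ) = D' + 1 := by
      have : ⌈Y ^ (b + B + 25)⌉₊ = D' + 1 := by omega
      rw [this]; push_cast; ring
    linarith
  have hD'0 : (0 : ℝ) < D' := by exact_mod_cast hD'1
  have h2 := sum_inv_sq_large L D' hD'1 (by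
    intro k hk
    have h6 := (hL2 k hk).1
    have h7 : Y ^ (b + B + 25) ≤ ((k.natAbs : ℕ) : ℝ) := by
      rw [Nat.cast_natAbs]; push_cast; exact h6
    have h8 := Nat.ceil_le.2 h7
    rw [Int.abs_eq_natAbs]
    have h9 : D' < k.natAbs := by omega
    exact_mod_cast h9)
  have h3 : ∑ k ∈ L, 1 / (k : ℝ) ^ 2 ≤ 4 / Y ^ (B + 25) := by
    refine h2.trans ?_
    rw [div_le_div_iff₀ hD'0 (by positivity)]
    have h4 : Y ^ (B + 25) ≤ Y ^ (b + B + 25) := pow_le_pow_right₀ hY11 (by omega)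
    linarith
  have h4 : 2 * (16 * (C1 * Y ^ 11)) ^ 2 * ∑ k ∈ L, 1 / (k : ℝ) ^ 2 ≤ 1 / 2 * (1 / Y ^ B) := by
    calc 2 * (16 * (C1 * Y ^ 11)) ^ 2 * ∑ k ∈ L, 1 / (k : ℝ) ^ 2 ≤ 2 * (16 * (C1 * Y ^ 11)) ^ 2 * (4 / Y ^ (B + 25)) :=
          mul_le_mul_of_nonneg_left h3 (by positivity)
      _ = (2 * (2 * (16 * C1) ^ 2 * 4)) / Y * (1 / Y ^ 2) * (1 / 2 * (1 / Y ^ B)) := by
          rw [pow_add Y B 25]; field_simp
      _ ≤ 1 * 1 * (1 / 2 * (1 / Y ^ B)) := by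
          apply mul_le_mul_of_nonneg_right _ (by positivity)
          apply mul_le_mul
          · rw [div_le_one hY0]; exact hY3
          · rw [div_le_one (by positivity)]; exact one_le_pow₀ hY11
          · positivity
          · norm_num
      _ = _ := by ring
  have h5 : 200 * (1 / Y ^ (B + 1)) ≤ 1 / 2 * (1 / Y ^ B) := by
    rw [pow_succ]
    have e : 200 * (1 / (Y ^ B * Y)) = (400 / Y) * (1 / 2 * (1 / Y ^ B)) := by field_simp; norm_num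
    rw [e]
    calc (400 / Y) * (1 / 2 * (1 / Y ^ B)) ≤ 1 * (1 / 2 * (1 / Y ^ B)) := by
          apply mul_le_mul_of_nonneg_right _ (by positivity)
          rw [div_le_one hY0]; exact hY2
      _ = _ := one_mul _
  linarith

end Pool.Agent.J4H33
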