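import Pool.Agent.J4H33.LX3

/-!
# Sparse sets of frequencies with weights, I: the products of ten factors

For weights `f ≤ S` on a set `L` of at most `e^{cY}` frequencies, `c < 1/3`,
`∑ f(k) |EE(k)| ≤ S Y^{-B} + (∑ f^2)^{1/2} e^{-ηY}`.
-/

set_option autoImplicit false

namespace Pool.Agent.J4H33

open Finset Filter Topology Pool.Agent.H376R2.MR Pool.Agent.Q240.KS Pool.Agent.Q211.KS

/-- the case of long Moebius factors, first moments -/
theorem case_mob1 (htri : S_TRI) (hkerv : S_KERV) (hhmg : S_HMG) (hmb : S_MB) : ∃ (η : ℝ), 0 < η ∧ η ≤ 1 ∧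
    ∀ B : ℕ, ∃ D : ℝ, 0 ≤ D ∧ ∀ Y : ℝ, 400 ≤ Y → ∀ d ∈ DY Y, (∀ i : Fin 10, 5 ≤ (i : ℕ) → (d i : ℝ) < Y / 100) →
    ∀ L : Finset ℤ, (L.card : ℝ) ≤ Real.exp (η * Y) → (∀ k ∈ L, |(k : ℝ)| ≤ 20 * Real.exp Y) →
    ∑ k ∈ L, ‖EE (zY Y) d k‖ ≤ D * (Y / Y ^ B) := by
  classical
  obtain ⟨C', η', hC', hη', hη'2, hk⟩ := hkerv 6
  refine ⟨0.19 * η', by positivity, by linarith, fun B => ?_⟩
  obtain ⟨C₃, hC₃, hm⟩ := hmb 6 B
  refine ⟨12 * C' * (C₃ * 3200), by positivity, ?_⟩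
  intro Y hY d hd h5 L hcard hL
  have hY0 : 0 < Y := by linarith
  have hRHS : 0 ≤ 12 * C' * (C₃ * 3200) * (Y / Y ^ B) := by positivity
  unfold DY at hd
  rw [Finset.mem_filter, Fintype.mem_piFinset] at hd
  obtain ⟨hd1, hd2⟩ := hd
  have hdu : ∀ i, (d i : ℝ) ≤ 20 * (Y + 1) := by
    intro i
    have h1 := Finset.mem_range.1 (hd1 i)
    have h2 : d i ≤ ⌊20 * (Y + 1)⌋₊ := by omega
    exact (Nat.cast_le.2 h2).trans (Nat.floor_le (by linarith))
  by_cases h4 : ∀ i : Fin 10, (i : ℕ) < 5 → (d i : ℝ) < 4 * Y + 9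
  swap
  · push Not at h4
    obtain ⟨i, hi, hdi⟩ := h4
    have hz : ∀ k ∈ L, ‖EE (zY Y) d k‖ = 0 := by
      intro k _
      have hty : ty i = 0 := by
        unfold ty
        rw [if_pos hi]
      have h6 : PF (zY Y) (ty i) (d i) k = 0 := by
        rw [hty]
        by_contra hc
        have := mob_short hc
        linarith
      have h7 : EE (zY Y) d k = 0 := by
        unfold EE
        exact Finset.prod_eq_zero (mem_univ i) h6
      rw [h7, norm_zero]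
    rw [sum_congr rfl hz, sum_const_zero]
    exact hRHS
  have h3 : ∀ j : Fin 10, (j : ℕ) < 5 → 3.8 * Y ≤ (d j : ℝ) := by
    intro j hj
    have h1 : ∑ i, (d i : ℝ) = d j + ∑ i ∈ univ.erase j, (d i : ℝ) :=
      (Finset.add_sum_erase univ (fun i => (d i : ℝ)) (Finset.mem_univ j)).symm
    have h2 : ∑ i ∈ univ.erase j, (d i : ℝ) ≤
        ∑ i ∈ univ.erase j, (if (i : ℕ) < 5 then 4 * Y + 9 else Y / 100) := by
      refine Finset.sum_le_sum fun i _ => ?_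
      split_ifs with hi
      · exact (h4 i hi).le
      · exact (h5 i (by omega)).le
    have h6 : ∑ i : Fin 10, (if (i : ℕ) < 5 then 4 * Y + 9 else Y / 100) =
        (4 * Y + 9) + ∑ i ∈ univ.erase j, (if (i : ℕ) < 5 then 4 * Y + 9 else Y / 100) := by
      rw [← Finset.add_sum_erase univ _ (Finset.mem_univ j), if_pos hj]
    have h7 : ∑ i : Fin 10, (if (i : ℕ) < 5 then 4 * Y + 9 else Y / 100) =
        5 * (4 * Y + 9) + 5 * (Y / 100) := by
      simp only [Fin.sum_univ_succ, Fin.val_succ, Fin.val_zero]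
      norm_num
      ring
    have h8 := (abs_le.1 hd2).1
    linarith
  have he1 : (40 : ℝ) ≤ Real.exp (0.14 * Y) := by
    have := Real.add_one_le_exp (0.14 * Y)
    linarith
  -- mean squares of two factors
  have hms : ∀ i₀ : Fin 10, (i₀ : ℕ) < 5 → ∑ k ∈ L, ‖PF (zY Y) (ty i₀) (d i₀) k‖ ^ 2 ≤ 12 * C' := by
    intro i₀ hi₀
    have hty : ty i₀ ≠ 2 := by
      unfold ty
      rw [if_pos hi₀]
      decide
    have hdi := h3 i₀ hi₀
    apply sq_sum hC' hhmg htri hty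
    have hN := hk (Real.exp ((d i₀ : ℝ) / 20)) (Real.one_le_exp (by positivity))
    apply row_le (R := Real.exp ((d i₀ : ℝ) / 20) ^ (-η')) hC' hN.1
    · intro k hk' l hl' hkl
      apply hN.2 (k - l) (sub_ne_zero.2 hkl)
      have h1 : |(((k - l : ℤ)) : ℝ)| ≤ |(k : ℝ)| + |(l : ℝ)| := by
        push_cast
        exact abs_sub _ _
      rw [← Real.exp_nat_mul]
      have h2 : Real.exp (1.14 * Y) ≤ Real.exp (((6 : ℕ) : ℝ) * ((d i₀ : ℝ) / 20)) := by
        apply Real.exp_le_exp.2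
        push_cast
        linarith
      have h6 : Real.exp (1.14 * Y) = Real.exp (0.14 * Y) * Real.exp Y := by
        rw [← Real.exp_add]
        congr 1
        ring
      have h7 : 40 * Real.exp Y ≤ Real.exp (0.14 * Y) * Real.exp Y :=
        mul_le_mul_of_nonneg_right he1 (Real.exp_pos _).le
      linarith [hL k hk', hL l hl']
    · positivity
    · have h1 : Real.exp ((d i₀ : ℝ) / 20) ^ (-η') ≤ Real.exp (-(0.19 * η' * Y)) := by
        rw [← Real.exp_mul]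
        apply Real.exp_le_exp.2
        have h6 : 0.19 * Y * η' ≤ (d i₀ : ℝ) / 20 * η' := mul_le_mul_of_nonneg_right (by linarith) hη'.le
        linarith
      calc (L.card : ℝ) * Real.exp ((d i₀ : ℝ) / 20) ^ (-η')
          ≤ Real.exp (0.19 * η' * Y) * Real.exp (-(0.19 * η' * Y)) :=
            mul_le_mul hcard h1 (by positivity) (Real.exp_pos _).le
        _ = 1 := by
            rw [← Real.exp_add]
            simp
  have hm0 := hms 0 (by norm_num)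
  have hm2 := hms 2 (by norm_num)
  -- pointwise
  have hEE : ∀ k ∈ L, ‖EE (zY Y) d k‖ ≤ (C₃ * 3200 * (Y / Y ^ B)) * (‖PF (zY Y) (ty 0) (d 0) k‖ * ‖PF (zY Y) (ty 2) (d 2) k‖) := by
    intro k hk'
    have hb : ∀ i : Fin 10, ‖PF (zY Y) (ty i) (d i) k‖ ≤
        (![‖PF (zY Y) (ty 0) (d 0) k‖, C₃ / Y ^ B, ‖PF (zY Y) (ty 2) (d 2) k‖, 2, 2, 2, 2, 2, 2,
          50 * Y] : Fin 10 → ℝ) i := by
      have hT : ∀ i : Fin 10, ty i ≠ 2 → ‖PF (zY Y) (ty i) (d i) k‖ ≤ 2 := fun i hi =>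
        (htri (zY Y) (ty i) (d i) k).2.1 hi
      have h2' : ‖PF (zY Y) (ty 1) (d 1) k‖ ≤ C₃ / Y ^ B := by
        have hd2' := h3 1 (by norm_num)
        have h1 := hm (zY Y) (d 1) k (by
          refine (hL k hk').trans ?_
          have h6 : Real.exp (1.14 * Y) = Real.exp (0.14 * Y) * Real.exp Y := by
            rw [← Real.exp_add]
            congr 1
            ring
          have h7 : 40 * Real.exp Y ≤ Real.exp (0.14 * Y) * Real.exp Y :=
            mul_le_mul_of_nonneg_right he1 (Real.exp_pos _).le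
          have h8 : Real.exp (1.14 * Y) ≤ Real.exp (((6 : ℕ) : ℝ) * (d 1 : ℝ) / 20) := by
            apply Real.exp_le_exp.2
            push_cast
            linarith
          have h9 := Real.exp_pos Y
          linarith)
        have h6 : ty 1 = 0 := by
          unfold ty
          rw [if_pos (by norm_num)]
        rw [h6]
        refine h1.trans ?_
        apply div_le_div_of_nonneg_left (by linarith) (by positivity)
        exact pow_le_pow_left₀ hY0.le (by linarith) _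
      have h9' : ‖PF (zY Y) (ty 9) (d 9) k‖ ≤ 50 * Y := by
        have h1 := (htri (zY Y) (ty 9) (d 9) k).1
        linarith [hdu 9]
      intro i
      fin_cases i
      · exact le_rfl
      · exact h2'
      · exact le_rfl
      · exact hT 3 (by decide)
      · exact hT 4 (by decide)
      · exact hT 5 (by decide)
      · exact hT 6 (by decide)
      · exact hT 7 (by decide)
      · exact hT 8 (by decide)
      · exact h9'
    have h1 := norm_EE_le (zY Y) d k _ hb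
    have h2 : ∏ i : Fin 10, (![‖PF (zY Y) (ty 0) (d 0) k‖, C₃ / Y ^ B, ‖PF (zY Y) (ty 2) (d 2) k‖, 2, 2, 2, 2, 2, 2,
          50 * Y] : Fin 10 → ℝ) i = C₃ * 3200 * (Y / Y ^ B) * (‖PF (zY Y) (ty 0) (d 0) k‖ * ‖PF (zY Y) (ty 2) (d 2) k‖) := by
      simp [Fin.prod_univ_succ]
      ring
    rw [h2] at h1
    exact h1
  refine (sum_le_sum hEE).trans ?_
  rw [← mul_sum]
  have hcs : ∑ k ∈ L, ‖PF (zY Y) (ty 0) (d 0) k‖ * ‖PF (zY Y) (ty 2) (d 2) k‖ ≤ 12 * C' := by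
    have h1 : ∀ k ∈ L, ‖PF (zY Y) (ty 0) (d 0) k‖ * ‖PF (zY Y) (ty 2) (d 2) k‖ ≤
        1 / 2 * ‖PF (zY Y) (ty 0) (d 0) k‖ ^ 2 + 1 / 2 * ‖PF (zY Y) (ty 2) (d 2) k‖ ^ 2 := by
      intro k _
      nlinarith [sq_nonneg (‖PF (zY Y) (ty 0) (d 0) k‖ - ‖PF (zY Y) (ty 2) (d 2) k‖)]
    refine (sum_le_sum h1).trans ?_
    rw [sum_add_distrib, ← mul_sum, ← mul_sum]
    linarith
  calc (C₃ * 3200 * (Y / Y ^ B)) * ∑ k ∈ L, ‖PF (zY Y) (ty 0) (d 0) k‖ * ‖PF (zY Y) (ty 2) (d 2) k‖ ≤ (C₃ * 3200 * (Y / Y ^ B)) * (12 * C') :=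
        mul_le_mul_of_nonneg_left hcs (by positivity)
    _ = _ := by ring

/-- a long smooth factor excludes the neighbourhood of the line one -/
theorem near_empty (hsbv : S_SBV) (ε₃ : ℝ) (hε₃ : 0 < ε₃) : ∃ ε₀ : ℝ, 0 < ε₀ ∧ ∀ ε₁ : ℝ, 0 < ε₁ → ε₁ ≤ ε₀ → ∀ᶠ Y : ℝ in atTop,
    ∀ d ∈ DY Y, (∃ i : Fin 10, 5 ≤ (i : ℕ) ∧ Y / 100 ≤ (d i : ℝ)) → ∀ k : ℤ, Real.exp (ε₃ * Y) ≤ |(k : ℝ)| → |(k : ℝ)| ≤ 20 * Real.exp Y →
    ¬ ∀ i, Real.exp (-(ε₁ * Y)) ≤ ‖PF (zY Y) (ty i) (d i) k‖ := by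
  obtain ⟨C, η, hC, hη, hη2, hs⟩ := hsbv 4000
  refine ⟨min (ε₃ / 3) (η / 6000), lt_min (by positivity) (by positivity), ?_⟩
  intro ε₀ hε₀0 hε₀
  have e1 : ε₀ ≤ ε₃ / 3 := hε₀.trans (min_le_left _ _)
  have e2 : ε₀ ≤ η / 6000 := hε₀.trans (min_le_right _ _)
  filter_upwards [eventually_ge_atTop 400, ev_poly_exp 1 ε₀ (200 * C) hε₀0] with Y hY hp1 d hd hlong k₁ g1 g2 hPF
  have hY0 : 0 < Y := by linarith
  rw [pow_one] at hp1
  unfold DY at hd
  rw [Finset.mem_filter, Fintype.mem_piFinset] at hd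
  obtain ⟨hd1, hd2⟩ := hd
  have hdu : ∀ i, (d i : ℝ) ≤ 20 * (Y + 1) := by
    intro i
    have h1 := Finset.mem_range.1 (hd1 i)
    have h2 : d i ≤ ⌊20 * (Y + 1)⌋₊ := by omega
    exact (Nat.cast_le.2 h2).trans (Nat.floor_le (by linarith))
  have h20 : (20 : ℝ) ≤ Real.exp 3 := by
    have h0 := Real.exp_one_gt_d9
    have h2 : Real.exp 3 = Real.exp 1 ^ 3 := by rw [← Real.exp_nat_mul]; norm_num
    rw [h2]
    calc (20 : ℝ) ≤ 2.7182818283 ^ 3 := by norm_num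
      _ ≤ Real.exp 1 ^ 3 := pow_le_pow_left₀ (by norm_num) h0.le 3
  obtain ⟨i, hi, hcon⟩ := hlong
  have hty : ty i ≠ 0 := by
    unfold ty
    rw [if_neg (by omega)]
    split_ifs <;> decide
  have hk1 : 0 < |(k₁ : ℝ)| := lt_of_lt_of_le (Real.exp_pos _) g1
  have hk0 : k₁ ≠ 0 := by
    rintro rfl
    simp at hk1
  have hkle : |(k₁ : ℝ)| ≤ Real.exp ((4000 : ℕ) * (d i : ℝ) / 20) := by
    refine g2.trans ?_
    calc 20 * Real.exp Y ≤ Real.exp 3 * Real.exp Y := mul_le_mul_of_nonneg_right h20 (Real.exp_pos _).le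
      _ = Real.exp (3 + Y) := (Real.exp_add _ _).symm
      _ ≤ _ := by
        apply Real.exp_le_exp.2
        push_cast
        linarith
  have h1 := (hPF i).trans (hs (zY Y) (ty i) (d i) k₁ hty hk0 hkle)
  have h2 : 1 / |(k₁ : ℝ)| ≤ Real.exp (-(3 * ε₀ * Y)) := by
    rw [div_le_iff₀ hk1]
    calc (1 : ℝ) = Real.exp (-(3 * ε₀ * Y)) * Real.exp (3 * ε₀ * Y) := by rw [← Real.exp_add]; simp
      _ ≤ Real.exp (-(3 * ε₀ * Y)) * |(k₁ : ℝ)| := by
        apply mul_le_mul_of_nonneg_left _ (Real.exp_pos _).le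
        refine le_trans (Real.exp_le_exp.2 ?_) g1
        apply mul_le_mul_of_nonneg_right _ hY0.le
        linarith
  have h3 : Real.exp (-(η * d i / 20)) ≤ Real.exp (-(3 * ε₀ * Y)) := by
    apply Real.exp_le_exp.2
    have h7 : η * (Y / 100) ≤ η * d i := mul_le_mul_of_nonneg_left hcon hη.le
    have h8 : 3 * ε₀ * Y ≤ η / 2000 * Y := mul_le_mul_of_nonneg_right (by linarith) hY0.le
    linarith
  have h4 : Real.exp (-(ε₀ * Y)) ≤ C * (50 * Y) * (2 * Real.exp (-(3 * ε₀ * Y))) := by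
    refine h1.trans ?_
    have h6 : 1 + (d i : ℝ) ≤ 50 * Y := by linarith [hdu i]
    have h7 : 1 / |(k₁ : ℝ)| + Real.exp (-(η * d i / 20)) ≤ 2 * Real.exp (-(3 * ε₀ * Y)) := by linarith
    gcongr
  have h6 : C * (50 * Y) * (2 * Real.exp (-(3 * ε₀ * Y))) ≤ 1 / 2 * Real.exp (-(2 * ε₀ * Y)) := by
    calc C * (50 * Y) * (2 * Real.exp (-(3 * ε₀ * Y))) = 1 / 2 * ((200 * C * Y) * Real.exp (-(3 * ε₀ * Y))) := by ring
      _ ≤ 1 / 2 * (Real.exp (ε₀ * Y) * Real.exp (-(3 * ε₀ * Y))) := by gcongr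
      _ = _ := by rw [← Real.exp_add]; congr 2; ring
  have h7 : Real.exp (-(2 * ε₀ * Y)) ≤ Real.exp (-(ε₀ * Y)) := by
    apply Real.exp_le_exp.2
    have : 0 < ε₀ * Y := by positivity
    linarith
  linarith [Real.exp_pos (-(ε₀ * Y)), Real.exp_pos (-(2 * ε₀ * Y))]

/-- the low frequencies with a long smooth factor -/
theorem low_smooth (htri : S_TRI) (h1 : S_SB1) : ∃ D : ℝ, 1 ≤ D ∧ ∀ Y : ℝ, 400 ≤ Y → ∀ d ∈ DY Y,
    ∀ i₀ : Fin 10, 5 ≤ (i₀ : ℕ) → Y / 100 ≤ (d i₀ : ℝ) → ∀ k : ℤ, k ≠ 0 → |(k : ℝ)| ≤ Real.exp (Y / 2000 - 1) →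
    ‖EE (zY Y) d k‖ ≤ D * Y ^ 2 * (1 / (k : ℝ) ^ 2 + Real.exp (-(Y / 1000))) := by
  obtain ⟨C, hC, hs⟩ := h1
  refine ⟨2 ^ 9 * 50 * (50 * C), by nlinarith, ?_⟩
  intro Y hY d hd i₀ hi₀ hdi k hk0 hkY
  have hY0 : 0 < Y := by linarith
  unfold DY at hd
  rw [Finset.mem_filter, Fintype.mem_piFinset] at hd
  obtain ⟨hd1, hd2⟩ := hd
  have hdu : ∀ i, (d i : ℝ) ≤ 20 * (Y + 1) := by
    intro i
    have h1 := Finset.mem_range.1 (hd1 i)
    have h2 : d i ≤ ⌊20 * (Y + 1)⌋₊ := by omega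
    exact (Nat.cast_le.2 h2).trans (Nat.floor_le (by linarith))
  have hty : ty i₀ ≠ 0 := by
    unfold ty
    rw [if_neg (by omega)]
    split_ifs <;> decide
  have h1 := hs (zY Y) (ty i₀) (d i₀) k hty hk0 (hkY.trans (Real.exp_le_exp.2 (by linarith)))
  have h2 : ‖PF (zY Y) (ty i₀) (d i₀) k‖ ≤ 50 * C * Y * (1 / (k : ℝ) ^ 2 + Real.exp (-(Y / 1000))) := by
    refine h1.trans ?_
    have h3 : 1 + (d i₀ : ℝ) ≤ 50 * Y := by linarith [hdu i₀]
    have h4 : Real.exp (-((d i₀ : ℝ) / 10)) ≤ Real.exp (-(Y / 1000)) := by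
      apply Real.exp_le_exp.2
      linarith
    calc C * (1 + (d i₀ : ℝ)) * (1 / (k : ℝ) ^ 2 + Real.exp (-((d i₀ : ℝ) / 10)))
        ≤ C * (50 * Y) * (1 / (k : ℝ) ^ 2 + Real.exp (-(Y / 1000))) := by gcongr
      _ = _ := by ring
  set P0 := ‖PF (zY Y) (ty i₀) (d i₀) k‖ with hP0
  have hb : ∀ i : Fin 10, ‖PF (zY Y) (ty i) (d i) k‖ ≤ if i = i₀ then P0 else (if i = 9 then 50 * Y else 2) := by
    intro i
    split_ifs with h3 h4
    · rw [h3]
    · rw [h4]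
      have h5 := (htri (zY Y) (ty 9) (d 9) k).1
      linarith [hdu 9]
    · apply (htri (zY Y) (ty i) (d i) k).2.1
      unfold ty
      have h6 : (i : ℕ) < 10 := i.2
      have h7 : (i : ℕ) ≠ 9 := fun h => h4 (Fin.ext h)
      split_ifs <;> first | decide | omega
  have h3 := norm_EE_le (zY Y) d k _ hb
  refine h3.trans ?_
  have h4 : ∏ i : Fin 10, (if i = i₀ then P0 else (if i = 9 then 50 * Y else 2)) ≤ P0 * (2 ^ 9 * (50 * Y)) := by
    rw [← Finset.mul_prod_erase univ _ (mem_univ i₀), if_pos rfl]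
    apply mul_le_mul_of_nonneg_left _ (norm_nonneg _)
    have h5 : ∏ i ∈ univ.erase i₀, (if i = i₀ then P0 else (if i = 9 then 50 * Y else 2)) ≤
        ∏ i ∈ univ.erase i₀, (2 * (if i = 9 then 25 * Y else 1)) := by
      apply Finset.prod_le_prod
      · intro i _
        split_ifs <;> positivity
      · intro i hi
        rw [mem_erase] at hi
        rw [if_neg hi.1]
        split_ifs <;> linarith
    refine h5.trans ?_
    rw [Finset.prod_mul_distrib, prod_const, card_erase_of_mem (mem_univ _), card_univ, Fintype.card_fin]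
    have h6 : ∏ i ∈ univ.erase i₀, (if i = (9 : Fin 10) then 25 * Y else 1) ≤ 25 * Y := by
      rw [Finset.prod_ite_eq']
      split_ifs
      · exact le_rfl
      · linarith
    have h7 : (0 : ℝ) ≤ 2 ^ (10 - 1) := by positivity
    calc (2 : ℝ) ^ (10 - 1) * ∏ i ∈ univ.erase i₀, (if i = (9 : Fin 10) then 25 * Y else 1) ≤ 2 ^ (10 - 1) * (25 * Y) :=
          mul_le_mul_of_nonneg_left h6 h7
      _ ≤ 2 ^ 9 * (50 * Y) := by norm_num; linarith
  refine h4.trans ?_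
  calc P0 * (2 ^ 9 * (50 * Y)) ≤ (50 * C * Y * (1 / (k : ℝ) ^ 2 + Real.exp (-(Y / 1000)))) * (2 ^ 9 * (50 * Y)) :=
        mul_le_mul_of_nonneg_right h2 (by positivity)
    _ = _ := by ring

end Pool.Agent.J4H33
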