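import Pool.Agent.J4H33.KT1

/-!
# Sparse sets of frequencies with weights, II
-/

set_option autoImplicit false

namespace Pool.Agent.J4H33

open Finset Filter Topology Pool.Agent.H376R2.MR Pool.Agent.Q240.KS Pool.Agent.Q211.KS

/-- **Away from the line one there is a power saving in mean square.** -/
theorem far_sq (htri : S_TRI) (h1 : S_SB1) (h2 : S_SB2) (h3 : S_SB3) (h5 : S_LVH) (c : ℝ) (hc : 0 ≤ c) (hc1 : c < 1 / 3) :
    ∀ ε₃ ε₁ : ℝ, 0 < ε₃ → 0 < ε₁ → ε₁ ≤ 1 → ∃ η : ℝ, 0 < η ∧ η ≤ 1 ∧ ∀ᶠ Y : ℝ in atTop, ∀ d ∈ DY Y, ∀ L1 : Finset ℤ,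
    (L1.card : ℝ) ≤ Real.exp (c * Y) → (∀ k ∈ L1, Real.exp (ε₃ * Y) ≤ |(k : ℝ)| ∧ |(k : ℝ)| ≤ 20 * Real.exp Y) →
    (∀ k ∈ L1, ¬ ∀ i, Real.exp (-(ε₁ * Y)) ≤ ‖PF (zY Y) (ty i) (d i) k‖) →
    ∑ k ∈ L1, ‖EE (zY Y) d k‖ ^ 2 ≤ Real.exp (-(η * Y)) := by
  classical
  intro ε₃ ε₁ hε₃0 hε₁0 hε₁1
  obtain ⟨ω, hω⟩ : ∃ ω, ω = 1 / 3 - c := ⟨_, rfl⟩
  have hω0 : 0 < ω := by rw [hω]; linarith
  have hω1 : ω ≤ 1 / 3 := by rw [hω]; linarith
  obtain ⟨ε', η, Y₀, hε'0, hε'1, hη0, hfar⟩ := farc h1 h2 h3 h5 ω hω0 hω1 ε₃ (ε₁ / 2) hε₃0 (by positivity) (by linarith)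
  obtain ⟨η₁, hη₁⟩ : ∃ η₁, η₁ = min η 1 := ⟨_, rfl⟩
  have hη₁0 : 0 < η₁ := by rw [hη₁]; exact lt_min hη0 one_pos
  have hη₁a : η₁ ≤ η := by rw [hη₁]; exact min_le_left _ _
  have hη₁b : η₁ ≤ 1 := by rw [hη₁]; exact min_le_right _ _
  obtain ⟨G, hG⟩ : ∃ G : ℕ, G = ⌊2 / ε'⌋₊ + 1 := ⟨_, rfl⟩
  obtain ⟨D, hD⟩ : ∃ D : ℝ, D = (50 : ℝ) ^ 20 * ((G : ℝ) ^ 10 + 1) := ⟨_, rfl⟩
  have hD0 : 0 < D := by rw [hD]; positivity
  refine ⟨η₁ / 2, by positivity, by linarith, ?_⟩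
  filter_upwards [eventually_ge_atTop Y₀, eventually_ge_atTop 400, ev_poly_exp 20 (η₁ / 2) D (by positivity)]
    with Y g3 g4 g5 d hd L1 hLc hL1' hnn
  have hY0 : 0 < Y := by linarith
  have hY1 : 1 ≤ Y := by linarith
  have hdu : ∀ i, (d i : ℝ) ≤ 20 * (Y + 1) := by
    intro i
    unfold DY at hd
    rw [Finset.mem_filter, Fintype.mem_piFinset] at hd
    have h1 := Finset.mem_range.1 (hd.1 i)
    have h2 : d i ≤ ⌊20 * (Y + 1)⌋₊ := by omega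
    exact (Nat.cast_le.2 h2).trans (Nat.floor_le (by linarith))
  have hPle : ∀ i k, ‖PF (zY Y) (ty i) (d i) k‖ ≤ 50 * Y := by
    intro i k
    have := (htri (zY Y) (ty i) (d i) k).1
    linarith [hdu i]
  have hB1 : (1 : ℝ) ≤ 50 * Y := by linarith
  obtain ⟨s, hs⟩ : ∃ s, s = ε' * Y := ⟨_, rfl⟩
  have hs0 : 0 < s := by rw [hs]; positivity
  -- the classes
  obtain ⟨f, hf⟩ : ∃ f : ℤ → Fin 10 → ℕ, ∀ k i, f k i = gr s ‖PF (zY Y) (ty i) (d i) k‖ := ⟨_, fun _ _ => rfl⟩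
  obtain ⟨Ls, hLs⟩ : ∃ Ls, Ls = L1.filter (fun k => ∃ i, ‖PF (zY Y) (ty i) (d i) k‖ < Real.exp (-(2 * Y))) := ⟨_, rfl⟩
  obtain ⟨GG, hGG⟩ : ∃ GG : Finset (Fin 10 → ℕ), GG = (Fintype.piFinset (fun _ : Fin 10 => range G)).filter
    (fun g => ε₁ / 2 ≤ ∑ i, ε' * (g i : ℝ)) := ⟨_, rfl⟩
  obtain ⟨Lg, hLg⟩ : ∃ Lg : (Fin 10 → ℕ) → Finset ℤ, ∀ g, Lg g = L1.filter (fun k => (∀ i, Real.exp (-(2 * Y)) ≤ ‖PF (zY Y) (ty i) (d i) k‖) ∧ f k = g) :=
    ⟨_, fun _ => rfl⟩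
  have hsub : L1 ⊆ Ls ∪ GG.biUnion Lg := by
    intro k hk
    rw [mem_union]
    by_cases c1 : ∃ i, ‖PF (zY Y) (ty i) (d i) k‖ < Real.exp (-(2 * Y))
    · left
      rw [hLs, mem_filter]; exact ⟨hk, c1⟩
    push Not at c1
    have hfle : ∀ i, f k i < G := by
      intro i
      have h6 := gr_bd hs0 (show (0 : ℝ) ≤ 2 * Y by positivity) (c1 i)
      have h7 : 2 * Y / s = 2 / ε' := by rw [hs]; field_simp
      rw [h7] at h6
      rw [hf, hG]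
      omega
    by_cases c2 : ε₁ / 2 ≤ ∑ i, ε' * (f k i : ℝ)
    · right
      rw [mem_biUnion]
      refine ⟨f k, ?_, ?_⟩
      · rw [hGG, mem_filter, Fintype.mem_piFinset]
        exact ⟨fun i => mem_range.2 (hfle i), c2⟩
      · rw [hLg, mem_filter]
        exact ⟨hk, c1, rfl⟩
    · exfalso
      push Not at c2
      apply hnn k hk
      intro i
      have hpos : 0 < ‖PF (zY Y) (ty i) (d i) k‖ := lt_of_lt_of_le (Real.exp_pos _) (c1 i)
      refine le_trans ?_ (gr_ge hs0 hpos)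
      rw [← hf]
      apply Real.exp_le_exp.2
      have h6 : ε' * (f k i : ℝ) ≤ ∑ i, ε' * (f k i : ℝ) :=
        single_le_sum (f := fun i => ε' * (f k i : ℝ)) (fun j _ => by positivity) (mem_univ i)
      have h7 : ((f k i : ℝ) + 1) * s = (ε' * (f k i : ℝ) + ε') * Y := by rw [hs]; ring
      rw [h7]
      have h8 : (ε' * (f k i : ℝ) + ε') * Y ≤ ε₁ * Y := mul_le_mul_of_nonneg_right (by linarith) hY0.le
      linarith
  have hEE : ∀ k, ‖EE (zY Y) d k‖ ≤ ∏ i, ‖PF (zY Y) (ty i) (d i) k‖ := fun k => norm_EE_le (zY Y) d k _ (fun i => le_rfl)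
  -- tiny factors
  have s2 : ∑ k ∈ Ls, ‖EE (zY Y) d k‖ ^ 2 ≤ (50 * Y) ^ 20 * Real.exp (-(η₁ * Y)) := by
    have h6 : ∀ k ∈ Ls, ‖EE (zY Y) d k‖ ^ 2 ≤ ((50 * Y) ^ 9 * Real.exp (-(2 * Y))) ^ 2 := by
      intro k hk
      rw [hLs, mem_filter] at hk
      obtain ⟨i₀, hi₀⟩ := hk.2
      apply pow_le_pow_left₀ (norm_nonneg _)
      refine (hEE k).trans ?_
      rw [← Finset.mul_prod_erase univ _ (mem_univ i₀), mul_comm]
      apply mul_le_mul _ hi₀.le (norm_nonneg _) (by positivity)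
      calc ∏ i ∈ univ.erase i₀, ‖PF (zY Y) (ty i) (d i) k‖ ≤ ∏ _i ∈ univ.erase i₀, (50 * Y) :=
            prod_le_prod (fun i _ => norm_nonneg _) fun i _ => hPle i k
        _ = _ := by rw [prod_const, card_erase_of_mem (mem_univ _), card_univ, Fintype.card_fin]
    refine (sum_le_sum h6).trans ?_
    rw [sum_const, nsmul_eq_mul]
    have h7 : (Ls.card : ℝ) ≤ Real.exp Y := by
      have q1 : Ls.card ≤ L1.card := by
        rw [hLs]
        exact card_le_card (filter_subset _ _)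
      calc (Ls.card : ℝ) ≤ L1.card := by exact_mod_cast q1
        _ ≤ Real.exp (c * Y) := hLc
        _ ≤ Real.exp Y := Real.exp_le_exp.2 (by nlinarith)
    calc (Ls.card : ℝ) * ((50 * Y) ^ 9 * Real.exp (-(2 * Y))) ^ 2 ≤ Real.exp Y * ((50 * Y) ^ 9 * Real.exp (-(2 * Y))) ^ 2 :=
          mul_le_mul_of_nonneg_right h7 (by positivity)
      _ = (50 * Y) ^ 18 * (Real.exp Y * Real.exp (-(2 * Y)) ^ 2) := by ring
      _ ≤ (50 * Y) ^ 20 * Real.exp (-(η₁ * Y)) := by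
          apply mul_le_mul
          · exact pow_le_pow_right₀ hB1 (by norm_num)
          · rw [← Real.exp_nat_mul, ← Real.exp_add]
            apply Real.exp_le_exp.2
            push_cast
            nlinarith
          · positivity
          · positivity
  -- the other classes
  have s3 : ∀ g ∈ GG, ∑ k ∈ Lg g, ‖EE (zY Y) d k‖ ^ 2 ≤ (50 * Y) ^ 20 * Real.exp (-(η₁ * Y)) := by
    intro g hg
    rw [hGG, mem_filter] at hg
    rcases (Lg g).eq_empty_or_nonempty with he | hne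
    · rw [he, sum_empty]; positivity
    obtain ⟨κ, hκ⟩ : ∃ κ : Fin 10 → ℝ, ∀ i, κ i = ε' * (g i : ℝ) := ⟨_, fun _ => rfl⟩
    have hκsum : ε₁ / 2 ≤ ∑ i, κ i := by
      simp_rw [hκ]; exact hg.2
    have hmem : ∀ k ∈ Lg g, k ∈ L1 ∧ (∀ i, Real.exp (-(2 * Y)) ≤ ‖PF (zY Y) (ty i) (d i) k‖) ∧ f k = g := by
      intro k hk
      rw [hLg, mem_filter] at hk
      exact hk
    have hcard : ((Lg g).card : ℝ) ≤ Real.exp ((2 * ∑ i, κ i - η) * Y) := by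
      apply hfar Y g3 d hd (Lg g) hne (fun k hk => hL1' k (hmem k hk).1) _ κ (fun i => by rw [hκ]; positivity) hκsum
      · intro k hk i
        obtain ⟨q1, q2, q3⟩ := hmem k hk
        have hpos : 0 < ‖PF (zY Y) (ty i) (d i) k‖ := lt_of_lt_of_le (Real.exp_pos _) (q2 i)
        refine le_trans (le_of_eq ?_) (gr_ge hs0 hpos)
        rw [← hf, q3, hκ, hs]
        congr 1; ring
      · have q1 : (Lg g).card ≤ L1.card := by
          apply card_le_card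
          intro k hk
          exact (hmem k hk).1
        calc ((Lg g).card : ℝ) ≤ L1.card := by exact_mod_cast q1
          _ ≤ Real.exp (c * Y) := hLc
          _ = Real.exp ((1 / 3 - ω) * Y) := by rw [hω]; congr 1; ring
    have hpt : ∀ k ∈ Lg g, ‖EE (zY Y) d k‖ ^ 2 ≤ ((50 * Y) ^ 10 * Real.exp (-((∑ i, κ i) * Y))) ^ 2 := by
      intro k hk
      obtain ⟨q1, q2, q3⟩ := hmem k hk
      apply pow_le_pow_left₀ (norm_nonneg _)
      refine (hEE k).trans ?_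
      calc ∏ i, ‖PF (zY Y) (ty i) (d i) k‖ ≤ ∏ i, (50 * Y * Real.exp (-(κ i * Y))) := by
            apply prod_le_prod (fun i _ => norm_nonneg _)
            intro i _
            have hpos : 0 < ‖PF (zY Y) (ty i) (d i) k‖ := lt_of_lt_of_le (Real.exp_pos _) (q2 i)
            refine (gr_le hs0 hpos hB1 (hPle i k)).trans (le_of_eq ?_)
            rw [← hf, q3, hκ, hs]
            congr 2; ring
        _ = (50 * Y) ^ 10 * Real.exp (-((∑ i, κ i) * Y)) := by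
            rw [prod_mul_distrib, prod_const, card_univ, Fintype.card_fin, ← Real.exp_sum, sum_neg_distrib, ← sum_mul]
    refine (sum_le_sum hpt).trans ?_
    rw [sum_const, nsmul_eq_mul]
    calc ((Lg g).card : ℝ) * ((50 * Y) ^ 10 * Real.exp (-((∑ i, κ i) * Y))) ^ 2
        ≤ Real.exp ((2 * ∑ i, κ i - η) * Y) * ((50 * Y) ^ 10 * Real.exp (-((∑ i, κ i) * Y))) ^ 2 :=
          mul_le_mul_of_nonneg_right hcard (by positivity)
      _ = (50 * Y) ^ 20 * (Real.exp ((2 * ∑ i, κ i - η) * Y) * Real.exp (-((∑ i, κ i) * Y)) ^ 2) := by ring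
      _ = (50 * Y) ^ 20 * Real.exp (-(η * Y)) := by
          rw [← Real.exp_nat_mul, ← Real.exp_add]
          congr 2
          push_cast; ring
      _ ≤ (50 * Y) ^ 20 * Real.exp (-(η₁ * Y)) := by
          apply mul_le_mul_of_nonneg_left _ (by positivity)
          apply Real.exp_le_exp.2
          have := mul_le_mul_of_nonneg_right hη₁a hY0.le
          linarith
  have s4 : ∑ g ∈ GG, ∑ k ∈ Lg g, ‖EE (zY Y) d k‖ ^ 2 ≤ (G : ℝ) ^ 10 * ((50 * Y) ^ 20 * Real.exp (-(η₁ * Y))) := by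
    have hcardG : (GG.card : ℝ) ≤ (G : ℝ) ^ 10 := by
      have q1 : GG.card ≤ (Fintype.piFinset (fun _ : Fin 10 => range G)).card := by
        rw [hGG]; exact card_le_card (filter_subset _ _)
      rw [Fintype.card_piFinset, prod_const, card_range, card_univ, Fintype.card_fin] at q1
      exact_mod_cast q1
    refine (sum_le_sum s3).trans ?_
    rw [sum_const, nsmul_eq_mul]
    exact mul_le_mul_of_nonneg_right hcardG (by positivity)
  -- the sum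
  have u1 := sum_le_sum_of_subset_of_nonneg (f := fun k => ‖EE (zY Y) d k‖ ^ 2) hsub (fun k _ _ => by positivity)
  have u2 : ∑ k ∈ Ls ∪ GG.biUnion Lg, ‖EE (zY Y) d k‖ ^ 2 ≤
      ∑ k ∈ Ls, ‖EE (zY Y) d k‖ ^ 2 + ∑ k ∈ GG.biUnion Lg, ‖EE (zY Y) d k‖ ^ 2 := by
    have := sum_union_inter (s₁ := Ls) (s₂ := GG.biUnion Lg) (f := fun k => ‖EE (zY Y) d k‖ ^ 2)
    have v : 0 ≤ ∑ k ∈ Ls ∩ GG.biUnion Lg, ‖EE (zY Y) d k‖ ^ 2 := sum_nonneg fun _ _ => by positivity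
    linarith
  have u4 : ∑ k ∈ GG.biUnion Lg, ‖EE (zY Y) d k‖ ^ 2 = ∑ g ∈ GG, ∑ k ∈ Lg g, ‖EE (zY Y) d k‖ ^ 2 := by
    apply sum_biUnion
    intro g _ g' _ hgg
    rw [Function.onFun, Finset.disjoint_left]
    intro k hk hk'
    rw [hLg, mem_filter] at hk hk'
    exact hgg (hk.2.2.symm.trans hk'.2.2)
  have t : ∑ k ∈ L1, ‖EE (zY Y) d k‖ ^ 2 ≤ (D * Y ^ 20) * Real.exp (-(η₁ * Y)) := by
    have e : (D * Y ^ 20) * Real.exp (-(η₁ * Y)) = (50 * Y) ^ 20 * Real.exp (-(η₁ * Y)) + (G : ℝ) ^ 10 * ((50 * Y) ^ 20 * Real.exp (-(η₁ * Y))) := by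
      rw [hD]; ring
    rw [e]
    linarith
  refine t.trans ?_
  calc (D * Y ^ 20) * Real.exp (-(η₁ * Y)) ≤ Real.exp (η₁ / 2 * Y) * Real.exp (-(η₁ * Y)) :=
        mul_le_mul_of_nonneg_right g5 (Real.exp_pos _).le
    _ = Real.exp (-(η₁ / 2 * Y)) := by rw [← Real.exp_add]; congr 1; ring

/-- sums over sparse sets of frequencies with weights, for the products of ten factors -/
def KTE (c : ℝ) : Prop := ∃ η : ℝ, 0 < η ∧ ∀ B : ℕ, ∃ b : ℕ, ∀ᶠ Y : ℝ in atTop, ∀ d ∈ DY Y, ∀ L : Finset ℤ,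
  (L.card : ℝ) ≤ Real.exp (c * Y) → (∀ k ∈ L, Y ^ b ≤ |(k : ℝ)| ∧ |(k : ℝ)| ≤ 20 * Real.exp Y) →
  ∀ (f : ℤ → ℝ) (S Q : ℝ), (∀ k, 0 ≤ f k) → 0 ≤ S → 0 ≤ Q → (∀ k ∈ L, f k ≤ S) → ∑ k ∈ L, f k ^ 2 ≤ Q ^ 2 →
  ∑ k ∈ L, f k * ‖EE (zY Y) d k‖ ≤ S / Y ^ B + Q * Real.exp (-(η * Y))

/-- the Cauchy-Schwarz inequality -/
theorem cs_w (L : Finset ℤ) (f g : ℤ → ℝ) (Q E : ℝ) (hf : ∀ k, 0 ≤ f k) (hg : ∀ k, 0 ≤ g k) (hQ : 0 ≤ Q) (hE : 0 ≤ E)
    (h1 : ∑ k ∈ L, f k ^ 2 ≤ Q ^ 2) (h2 : ∑ k ∈ L, g k ^ 2 ≤ E ^ 2) : ∑ k ∈ L, f k * g k ≤ Q * E := by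
  have h := Finset.sum_mul_sq_le_sq_mul_sq L f g
  have h0 : 0 ≤ ∑ k ∈ L, f k * g k := sum_nonneg fun k _ => mul_nonneg (hf k) (hg k)
  have h3 : (∑ k ∈ L, f k * g k) ^ 2 ≤ (Q * E) ^ 2 := by
    rw [mul_pow]
    exact h.trans (mul_le_mul h1 h2 (sum_nonneg fun k _ => sq_nonneg _) (by positivity))
  exact (pow_le_pow_iff_left₀ h0 (by positivity) (by norm_num)).1 h3

theorem kte_third (htri : S_TRI) (hsbv : S_SBV) (hkerv : S_KERV) (hhmg : S_HMG) (hmb : S_MB)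
    (h1 : S_SB1) (h2 : S_SB2) (h3 : S_SB3) (h5 : S_LVH) (c : ℝ) (hc : 0 ≤ c) (hc1 : c < 1 / 3) : KTE c := by
  classical
  obtain ⟨η₂, hη₂, hη₂1, hcm⟩ := case_mob1 htri hkerv hhmg hmb
  obtain ⟨D₁, hD₁, hls⟩ := low_smooth htri h1
  obtain ⟨ε₃, hε₃⟩ : ∃ ε₃, ε₃ = min (η₂ / 2) (1 / 4000) := ⟨_, rfl⟩
  have hε₃0 : 0 < ε₃ := by rw [hε₃]; exact lt_min (by positivity) (by norm_num)
  have hε₃a : ε₃ ≤ η₂ / 2 := by rw [hε₃]; exact min_le_left _ _
  have hε₃b : ε₃ ≤ 1 / 4000 := by rw [hε₃]; exact min_le_right _ _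
  obtain ⟨εn, hεn0, hεn1, hnear⟩ := near_card hsbv h5 ε₃ η₂ hε₃0 hη₂
  obtain ⟨εe, hεe0, hempty⟩ := near_empty hsbv ε₃ hε₃0
  obtain ⟨ε₁, hε₁⟩ : ∃ ε₁, ε₁ = min εn εe := ⟨_, rfl⟩
  have hε₁0 : 0 < ε₁ := by rw [hε₁]; exact lt_min hεn0 hεe0
  have hε₁n : ε₁ ≤ εn := by rw [hε₁]; exact min_le_left _ _
  have hε₁e : ε₁ ≤ εe := by rw [hε₁]; exact min_le_right _ _
  obtain ⟨η, hη0, hη1, hfar⟩ := far_sq htri h1 h2 h3 h5 c hc hc1 ε₃ ε₁ hε₃0 hε₁0 (hε₁n.trans hεn1)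
  refine ⟨η / 2, by positivity, fun B => ?_⟩
  obtain ⟨D₂, hD₂, hcm'⟩ := hcm (B + 2)
  refine ⟨B + 5, ?_⟩
  filter_upwards [hnear, hempty ε₁ hε₁0 hε₁e, hfar, eventually_ge_atTop 8000, eventually_ge_atTop (2 * D₂), eventually_ge_atTop (16 * D₁),
    ev_poly_exp 0 ε₃ 4 hε₃0, ev_poly_exp (B + 2) (1 / 2000) (16 * D₁) (by norm_num)]
    with Y g1 g2 g3 g4b g5 g5' g6 g7 d hd L hLc hL f S Q hf0 hS hQ hfS hfQ
  have g4 : (400 : ℝ) ≤ Y := by linarith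
  have hY0 : 0 < Y := by linarith
  have hY1 : 1 ≤ Y := by linarith
  rw [pow_zero, mul_one] at g6
  obtain ⟨L0, hL0⟩ : ∃ L0, L0 = L.filter (fun k : ℤ => ¬ Real.exp (ε₃ * Y) ≤ |(k : ℝ)|) := ⟨_, rfl⟩
  obtain ⟨L1, hL1⟩ : ∃ L1, L1 = L.filter (fun k : ℤ => Real.exp (ε₃ * Y) ≤ |(k : ℝ)|) := ⟨_, rfl⟩
  obtain ⟨Ln, hLn⟩ : ∃ Ln, Ln = L1.filter (fun k => ∀ i, Real.exp (-(ε₁ * Y)) ≤ ‖PF (zY Y) (ty i) (d i) k‖) := ⟨_, rfl⟩
  obtain ⟨Lf, hLf⟩ : ∃ Lf, Lf = L1.filter (fun k => ¬ ∀ i, Real.exp (-(ε₁ * Y)) ≤ ‖PF (zY Y) (ty i) (d i) k‖) := ⟨_, rfl⟩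
  have hL1L : L1 ⊆ L := by rw [hL1]; exact filter_subset _ _
  have hL0L : L0 ⊆ L := by rw [hL0]; exact filter_subset _ _
  have hLnL : Ln ⊆ L := by rw [hLn]; exact (filter_subset _ _).trans hL1L
  have hLfL1 : Lf ⊆ L1 := by rw [hLf]; exact filter_subset _ _
  have hL1' : ∀ k ∈ L1, Real.exp (ε₃ * Y) ≤ |(k : ℝ)| ∧ |(k : ℝ)| ≤ 20 * Real.exp Y := by
    intro k hk
    rw [hL1, mem_filter] at hk
    exact ⟨hk.2, (hL k hk.1).2⟩
  have t1 : ∑ k ∈ L, f k * ‖EE (zY Y) d k‖ = ∑ k ∈ L0, f k * ‖EE (zY Y) d k‖ + (∑ k ∈ Ln, f k * ‖EE (zY Y) d k‖ + ∑ k ∈ Lf, f k * ‖EE (zY Y) d k‖) := by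
    rw [hLn, hLf, sum_filter_add_sum_filter_not, hL1, hL0, add_comm, sum_filter_add_sum_filter_not]
  -- far frequencies
  have s1 : ∑ k ∈ Lf, f k * ‖EE (zY Y) d k‖ ≤ Q * Real.exp (-(η / 2 * Y)) := by
    apply cs_w Lf f (fun k => ‖EE (zY Y) d k‖) Q _ hf0 (fun k => norm_nonneg _) hQ (Real.exp_pos _).le
    · refine le_trans (sum_le_sum_of_subset_of_nonneg (hLfL1.trans hL1L) fun k _ _ => sq_nonneg _) hfQ
    · refine (g3 d hd Lf ?_ (fun k hk => hL1' k (hLfL1 hk)) ?_).trans (le_of_eq ?_)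
      · refine le_trans ?_ hLc
        exact_mod_cast card_le_card (hLfL1.trans hL1L)
      · intro k hk
        rw [hLf, mem_filter] at hk
        exact hk.2
      · rw [← Real.exp_nat_mul]; congr 1; push_cast; ring
  -- the supremum
  have hsup : ∀ L' ⊆ L, ∑ k ∈ L', f k * ‖EE (zY Y) d k‖ ≤ S * ∑ k ∈ L', ‖EE (zY Y) d k‖ := by
    intro L' hL'
    rw [mul_sum]
    exact sum_le_sum fun k hk => mul_le_mul_of_nonneg_right (hfS k (hL' hk)) (norm_nonneg _)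
  have hL0c : (L0.card : ℝ) ≤ 4 * Real.exp (ε₃ * Y) := by
    apply card_le_abs (Real.one_le_exp (by positivity))
    intro k hk
    rw [hL0, mem_filter] at hk
    exact (not_le.1 hk.2).le
  -- frequencies near the line one, and low frequencies
  have s2 : ∑ k ∈ L0, ‖EE (zY Y) d k‖ + ∑ k ∈ Ln, ‖EE (zY Y) d k‖ ≤ 1 / Y ^ B := by
    by_cases hc5 : ∀ i : Fin 10, 5 ≤ (i : ℕ) → (d i : ℝ) < Y / 100
    · have r0 := hcm' Y g4 d hd hc5 L0 (hL0c.trans (by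
        calc 4 * Real.exp (ε₃ * Y) ≤ Real.exp (ε₃ * Y) * Real.exp (ε₃ * Y) := mul_le_mul_of_nonneg_right g6 (Real.exp_pos _).le
          _ = Real.exp ((ε₃ + ε₃) * Y) := by rw [← Real.exp_add]; congr 1; ring
          _ ≤ Real.exp (η₂ * Y) := Real.exp_le_exp.2 (mul_le_mul_of_nonneg_right (by linarith) hY0.le))) (fun k hk => (hL k (hL0L hk)).2)
      have r1 := hcm' Y g4 d hd hc5 Ln (by
        apply g1 d hd Ln
        · intro k hk
          rw [hLn, mem_filter] at hk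
          exact hL1' k hk.1
        · intro k hk i
          rw [hLn, mem_filter] at hk
          refine le_trans ?_ (hk.2 i)
          apply Real.exp_le_exp.2
          have := mul_le_mul_of_nonneg_right hε₁n hY0.le
          linarith) (fun k hk => (hL k (hLnL hk)).2)
      have e : D₂ * (Y / Y ^ (B + 2)) = (D₂ / Y) * (1 / Y ^ B) := by
        rw [pow_add]; field_simp
      rw [e] at r0 r1
      have h6 : D₂ / Y ≤ 1 / 2 := by
        rw [div_le_iff₀ hY0]; linarith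
      have h7 : (D₂ / Y) * (1 / Y ^ B) ≤ 1 / 2 * (1 / Y ^ B) := mul_le_mul_of_nonneg_right h6 (by positivity)
      linarith
    · push Not at hc5
      obtain ⟨i₀, hi₀, hdi⟩ := hc5
      have hLne : Ln = ∅ := by
        rw [hLn, filter_eq_empty_iff]
        intro k hk
        obtain ⟨q1, q2⟩ := hL1' k hk
        exact g2 d hd ⟨i₀, hi₀, hdi⟩ k q1 q2
      rw [hLne, sum_empty, add_zero]
      have hbY2 : 2 ≤ Y ^ (B + 5) := by
        calc (2 : ℝ) ≤ Y := by linarith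
          _ = Y ^ 1 := (pow_one Y).symm
          _ ≤ Y ^ (B + 5) := pow_le_pow_right₀ hY1 (by omega)
      have h6 : ∀ k ∈ L0, ‖EE (zY Y) d k‖ ≤ D₁ * Y ^ 2 * (1 / (k : ℝ) ^ 2) + D₁ * Y ^ 2 * Real.exp (-(Y / 1000)) := by
        intro k hk
        have hk2 := hL k (hL0L hk)
        rw [hL0, mem_filter] at hk
        have h7 := not_le.1 hk.2
        have hk0 : k ≠ 0 := by
          rintro rfl
          have := hk2.1
          simp only [Int.cast_zero, abs_zero] at this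
          linarith
        rw [← mul_add]
        apply hls Y g4 d hd i₀ hi₀ hdi k hk0
        refine h7.le.trans (Real.exp_le_exp.2 ?_)
        have : ε₃ * Y ≤ 1 / 4000 * Y := mul_le_mul_of_nonneg_right hε₃b hY0.le
        have hYg : 8000 ≤ Y := g4b
        linarith
      refine (sum_le_sum h6).trans ?_
      rw [sum_add_distrib, ← mul_sum, sum_const, nsmul_eq_mul]
      obtain ⟨D', hD'⟩ : ∃ D' : ℕ, D' = ⌈Y ^ (B + 5)⌉₊ - 1 := ⟨_, rfl⟩
      have hceil1 : Y ^ (B + 5) ≤ (⌈Y ^ (B + 5)⌉₊ : ℕ) := Nat.le_ceil _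
      have hceil2 : 2 ≤ ⌈Y ^ (B + 5)⌉₊ := by
        have : (2 : ℝ) ≤ (⌈Y ^ (B + 5)⌉₊ : ℕ) := hbY2.trans hceil1
        exact_mod_cast this
      have hD'1 : 1 ≤ D' := by omega
      have hD'2 : Y ^ (B + 5) / 2 ≤ D' := by
        have h6 : ((⌈Y ^ (B + 5)⌉₊ : ℕ) : ℝ) = D' + 1 := by
          have : ⌈Y ^ (B + 5)⌉₊ = D' + 1 := by omega
          rw [this]; push_cast; ring
        linarith
      have hD'0 : (0 : ℝ) < D' := by exact_mod_cast hD'1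
      have h2' := sum_inv_sq_large L0 D' hD'1 (by
        intro k hk
        have h6 := (hL k (hL0L hk)).1
        have h7 : Y ^ (B + 5) ≤ ((k.natAbs : ℕ) : ℝ) := by
          rw [Nat.cast_natAbs]; push_cast; exact h6
        have h8 := Nat.ceil_le.2 h7
        rw [Int.abs_eq_natAbs]
        have h9 : D' < k.natAbs := by omega
        exact_mod_cast h9)
      have h3' : ∑ k ∈ L0, 1 / (k : ℝ) ^ 2 ≤ 4 / Y ^ (B + 5) := by
        refine h2'.trans ?_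
        rw [div_le_div_iff₀ hD'0 (by positivity)]
        linarith
      have h4' : D₁ * Y ^ 2 * ∑ k ∈ L0, 1 / (k : ℝ) ^ 2 ≤ 1 / 2 * (1 / Y ^ B) := by
        calc D₁ * Y ^ 2 * ∑ k ∈ L0, 1 / (k : ℝ) ^ 2 ≤ D₁ * Y ^ 2 * (4 / Y ^ (B + 5)) :=
              mul_le_mul_of_nonneg_left h3' (by positivity)
          _ = (8 * D₁) / Y * (1 / Y ^ 2) * (1 / 2 * (1 / Y ^ B)) := by
              rw [pow_add Y B 5]; field_simp; norm_num
          _ ≤ 1 * 1 * (1 / 2 * (1 / Y ^ B)) := by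
              apply mul_le_mul_of_nonneg_right _ (by positivity)
              apply mul_le_mul
              · rw [div_le_one hY0]; linarith
              · rw [div_le_one (by positivity)]; exact one_le_pow₀ hY1
              · positivity
              · norm_num
          _ = _ := by ring
      have h5'' : (L0.card : ℝ) * (D₁ * Y ^ 2 * Real.exp (-(Y / 1000))) ≤ 1 / 2 * (1 / Y ^ B) := by
        calc (L0.card : ℝ) * (D₁ * Y ^ 2 * Real.exp (-(Y / 1000))) ≤ (4 * Real.exp (ε₃ * Y)) * (D₁ * Y ^ 2 * Real.exp (-(Y / 1000))) :=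
              mul_le_mul_of_nonneg_right hL0c (by positivity)
          _ = (8 * D₁ * Y ^ (B + 2)) * (Real.exp (ε₃ * Y) * Real.exp (-(Y / 1000))) * (1 / 2 * (1 / Y ^ B)) := by
              rw [pow_add Y B 2]; field_simp; ring
          _ ≤ Real.exp (1 / 2000 * Y) * (Real.exp (1 / 4000 * Y) * Real.exp (-(Y / 1000))) * (1 / 2 * (1 / Y ^ B)) := by
              apply mul_le_mul_of_nonneg_right _ (by positivity)
              apply mul_le_mul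
              · have : 8 * D₁ * Y ^ (B + 2) ≤ 16 * D₁ * Y ^ (B + 2) := by
                  apply mul_le_mul_of_nonneg_right _ (by positivity)
                  linarith
                linarith
              · apply mul_le_mul_of_nonneg_right _ (Real.exp_pos _).le
                exact Real.exp_le_exp.2 (mul_le_mul_of_nonneg_right hε₃b hY0.le)
              · positivity
              · positivity
          _ ≤ 1 * (1 / 2 * (1 / Y ^ B)) := by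
              apply mul_le_mul_of_nonneg_right _ (by positivity)
              rw [← Real.exp_add, ← Real.exp_add, Real.exp_le_one_iff]
              linarith
          _ = _ := one_mul _
      linarith
  have s3 := hsup L0 hL0L
  have s4 := hsup Ln hLnL
  have s5 : S * (∑ k ∈ L0, ‖EE (zY Y) d k‖ + ∑ k ∈ Ln, ‖EE (zY Y) d k‖) ≤ S / Y ^ B := by
    calc S * (∑ k ∈ L0, ‖EE (zY Y) d k‖ + ∑ k ∈ Ln, ‖EE (zY Y) d k‖) ≤ S * (1 / Y ^ B) := mul_le_mul_of_nonneg_left s2 hS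
      _ = _ := by ring
  rw [t1]
  linarith

end Pool.Agent.J4H33
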