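import Pool.Agent.J4H33.KT2

/-!
# Primes at sparse sets of frequencies, weighted first moments: from Heath-Brown's identity to tent windows
-/

set_option autoImplicit false

namespace Pool.Agent.J4H33

open Finset Filter Pool.Agent.H376R2.MR Pool.Agent.Q240.KS Pool.Agent.Q211.KS
open Pool.Agent.Helper482.Stk (fc)

/-- weighted sums over sparse sets of frequencies, for the Dirichlet polynomial of Heath-Brown's identity -/
def KTA (c : ℝ) : Prop := ∃ η : ℝ, 0 < η ∧ ∀ B : ℕ, ∃ b : ℕ, ∀ᶠ Y : ℝ in atTop, ∀ L : Finset ℤ,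
  (L.card : ℝ) ≤ Real.exp (c * Y) → (∀ k ∈ L, Y ^ b ≤ |(k : ℝ)| ∧ |(k : ℝ)| ≤ 20 * Real.exp Y) →
  ∀ (f : ℤ → ℝ) (S Q : ℝ), (∀ k, 0 ≤ f k) → 0 ≤ S → 0 ≤ Q → (∀ k ∈ L, f k ≤ S) → ∑ k ∈ L, f k ^ 2 ≤ Q ^ 2 →
  ∑ k ∈ L, f k * ‖AA (zY Y) Y k‖ ≤ S / Y ^ B + Q * Real.exp (-(η * Y))

theorem AA_le1 {z : ℕ} {Y : ℝ} (k : ℤ) : ‖AA z Y k‖ ≤ 31 * ∑ d ∈ DY Y, ‖EE z d k‖ := by
  unfold AA
  rw [mul_sum]
  refine (norm_sum_le _ _).trans (sum_le_sum fun d _ => ?_)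
  rw [norm_mul]
  apply mul_le_mul_of_nonneg_right _ (norm_nonneg _)
  have h3 : ‖((ed d : ℤ) : ℂ)‖ = |((ed d : ℤ) : ℝ)| := Complex.norm_intCast _
  rw [h3]; exact ed_le d

theorem kta_of_kte {c : ℝ} (h : KTE c) : KTA c := by
  obtain ⟨η, hη, h⟩ := h
  refine ⟨η / 2, by positivity, fun B => ?_⟩
  obtain ⟨b, hb⟩ := h (B + 11)
  refine ⟨b, ?_⟩
  filter_upwards [hb, eventually_ge_atTop 1, eventually_ge_atTop (31 * 50 ^ 10), ev_poly_exp 10 (η / 2) (31 * 50 ^ 10) (by positivity)]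
    with Y h1 hY1 hY2 hY3 L hL1 hL2 f S Q hf0 hS hQ hfS hfQ
  have hY0 : 0 < Y := by linarith
  have hc := card_DY hY1
  calc ∑ k ∈ L, f k * ‖AA (zY Y) Y k‖ ≤ ∑ k ∈ L, f k * (31 * ∑ d ∈ DY Y, ‖EE (zY Y) d k‖) :=
        sum_le_sum fun k _ => mul_le_mul_of_nonneg_left (AA_le1 k) (hf0 k)
    _ = 31 * ∑ d ∈ DY Y, ∑ k ∈ L, f k * ‖EE (zY Y) d k‖ := by
        rw [sum_comm, mul_sum]
        apply sum_congr rfl
        intro k _
        rw [← mul_sum]; ring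
    _ ≤ 31 * ∑ d ∈ DY Y, (S / Y ^ (B + 11) + Q * Real.exp (-(η * Y))) := by
        apply mul_le_mul_of_nonneg_left _ (by norm_num)
        exact sum_le_sum fun d hd => h1 d hd L hL1 hL2 f S Q hf0 hS hQ hfS hfQ
    _ = 31 * (((DY Y).card : ℝ) * (S / Y ^ (B + 11) + Q * Real.exp (-(η * Y)))) := by rw [sum_const, nsmul_eq_mul]
    _ ≤ 31 * (((50 * Y) ^ 10) * (S / Y ^ (B + 11) + Q * Real.exp (-(η * Y)))) := by
        have h2 : 0 ≤ S / Y ^ (B + 11) + Q * Real.exp (-(η * Y)) := by positivity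
        gcongr
    _ = (31 * 50 ^ 10) / Y * (S / Y ^ B) + Q * ((31 * 50 ^ 10 * Y ^ 10) * Real.exp (-(η * Y))) := by
        rw [pow_add Y B 11]; field_simp
    _ ≤ 1 * (S / Y ^ B) + Q * (Real.exp (η / 2 * Y) * Real.exp (-(η * Y))) := by
        have h2 : (31 * 50 ^ 10) / Y ≤ 1 := by rw [div_le_one hY0]; exact hY2
        gcongr
    _ = _ := by
        rw [← Real.exp_add, one_mul]
        congr 3; ring

/-- `∑ 1/|k|` -/
theorem sum_inv_abs (L : Finset ℤ) (y : ℝ) (hy : 1 ≤ y) (hL : ∀ k ∈ L, k ≠ 0 ∧ |(k : ℝ)| ≤ y) :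
    ∑ k ∈ L, 1 / |(k : ℝ)| ≤ 2 * (1 + Real.log y) := by
  classical
  have hcast : ∀ k : ℤ, ((k.natAbs : ℕ) : ℝ) = |(k : ℝ)| := by
    intro k
    rw [Nat.cast_natAbs]; push_cast; rfl
  have hmaps : ∀ k ∈ L, k.natAbs ∈ Icc 1 ⌊y⌋₊ := by
    intro k hk
    rw [mem_Icc]
    obtain ⟨h1, h2⟩ := hL k hk
    refine ⟨by omega, ?_⟩
    apply Nat.le_floor
    rw [hcast]; exact h2
  rw [← Finset.sum_fiberwise_of_maps_to hmaps]
  have h1 : ∀ j ∈ Icc 1 ⌊y⌋₊, ∑ k ∈ L.filter (fun k => k.natAbs = j), 1 / |(k : ℝ)| ≤ 2 * ((j : ℝ)⁻¹) := by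
    intro j _
    have h2 : ∀ k ∈ L.filter (fun k => k.natAbs = j), 1 / |(k : ℝ)| = (j : ℝ)⁻¹ := by
      intro k hk
      rw [mem_filter] at hk
      rw [← hk.2, hcast, one_div]
    rw [sum_congr rfl h2, sum_const, nsmul_eq_mul]
    apply mul_le_mul_of_nonneg_right _ (by positivity)
    have h4 : L.filter (fun k => k.natAbs = j) ⊆ {(j : ℤ), -(j : ℤ)} := by
      intro k hk
      rw [mem_filter] at hk
      rw [mem_insert, mem_singleton]
      omega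
    have h5 := card_le_card h4
    have h6 : ({(j : ℤ), -(j : ℤ)} : Finset ℤ).card ≤ 2 := card_le_two
    exact_mod_cast h5.trans h6
  refine (sum_le_sum h1).trans ?_
  rw [← mul_sum]
  apply mul_le_mul_of_nonneg_left _ (by norm_num)
  have h2 := harmonic_floor_le_one_add_log y hy
  rw [harmonic_eq_sum_Icc] at h2
  push_cast at h2
  exact h2

/-- the tail of the Fourier expansion of the tent -/
theorem tp_tail (J : Finset ℤ) (k : ℤ) (hk : 2 ≤ |k|) :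
    ∑ j ∈ J.filter (fun j => ¬ 2 * |j| ≤ |k|), ‖fc tp j‖ ≤ 16 / |(k : ℝ)| := by
  classical
  obtain ⟨D, hD⟩ : ∃ D : ℕ, D = k.natAbs / 2 := ⟨_, rfl⟩
  have hkn : 2 ≤ k.natAbs := by
    rw [Int.abs_eq_natAbs] at hk
    exact_mod_cast hk
  have hD1 : 1 ≤ D := by omega
  have hcast : ((k.natAbs : ℕ) : ℝ) = |(k : ℝ)| := by
    rw [Nat.cast_natAbs]; push_cast; rfl
  have hkr : (0 : ℝ) < |(k : ℝ)| := by
    rw [← hcast]
    exact_mod_cast (by omega : 0 < k.natAbs)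
  have hD2 : |(k : ℝ)| / 4 ≤ D := by
    have : k.natAbs ≤ 4 * D := by omega
    have h3 : ((k.natAbs : ℕ) : ℝ) ≤ 4 * D := by exact_mod_cast this
    rw [hcast] at h3
    linarith
  have hfar : ∀ j ∈ J.filter (fun j => ¬ 2 * |j| ≤ |k|), (D : ℤ) < |j| := by
    intro j hj
    rw [mem_filter] at hj
    have h3 := hj.2
    rw [Int.abs_eq_natAbs, Int.abs_eq_natAbs] at h3
    rw [Int.abs_eq_natAbs]
    have h4 : ¬ 2 * j.natAbs ≤ k.natAbs := by exact_mod_cast h3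
    have h5 : D < j.natAbs := by omega
    exact_mod_cast h5
  have h3 := sum_inv_sq_large _ D hD1 hfar
  have hD0 : (0 : ℝ) < D := by exact_mod_cast hD1
  calc ∑ j ∈ J.filter (fun j => ¬ 2 * |j| ≤ |k|), ‖fc tp j‖
      ≤ ∑ j ∈ J.filter (fun j => ¬ 2 * |j| ≤ |k|), 2 * (1 / (j : ℝ) ^ 2) := by
        apply sum_le_sum
        intro j hj
        have h4 := hfar j hj
        have hj0 : j ≠ 0 := by
          rintro rfl
          simp at h4
          omega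
        refine (fc_tp j hj0).trans (le_of_eq ?_)
        ring
    _ = 2 * ∑ j ∈ J.filter (fun j => ¬ 2 * |j| ≤ |k|), 1 / (j : ℝ) ^ 2 := by rw [mul_sum]
    _ ≤ 2 * (2 / D) := mul_le_mul_of_nonneg_left h3 (by positivity)
    _ ≤ 2 * (2 / (|(k : ℝ)| / 4)) := by
        apply mul_le_mul_of_nonneg_left _ (by positivity)
        exact div_le_div_of_nonneg_left (by norm_num) (by positivity) hD2
    _ = _ := by field_simp; norm_num

/-- a pointwise bound for the tail: `M` is the trivial bound of `g`, `g ≤ m` for `r < |l| ≤ R`, and `|k| ≤ R/2` -/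
theorem tail_pt (g : ℤ → ℝ) (J : Finset ℤ) (k : ℤ) (M m r R : ℝ) (hg : ∀ l, 0 ≤ g l) (hM : ∀ l, g l ≤ M) (hm0 : 0 ≤ m) (hr : 1 ≤ r)
    (hm : ∀ l : ℤ, r < |(l : ℝ)| → |(l : ℝ)| ≤ R → g l ≤ m) (hk : 2 ≤ |k|) (hkR : 2 * |(k : ℝ)| ≤ R) (hR : 8 ≤ R) :
    ∑ j ∈ J.filter (fun j => ¬ 2 * |j| ≤ |k|), ‖fc tp j‖ * g (k - j) ≤
      24 * M * r * (1 / (k : ℝ) ^ 2) + m * (16 / |(k : ℝ)|) + M * (32 / R) := by
  classical
  have hM0 : 0 ≤ M := (hg 0).trans (hM 0)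
  obtain ⟨T, hT⟩ : ∃ T, T = J.filter (fun j => ¬ 2 * |j| ≤ |k|) := ⟨_, rfl⟩
  rw [← hT]
  have hkr : (2 : ℝ) ≤ |(k : ℝ)| := by
    have : ((2 : ℤ) : ℝ) ≤ ((|k| : ℤ) : ℝ) := by exact_mod_cast hk
    rw [Int.cast_abs] at this
    exact_mod_cast this
  have hTj : ∀ j ∈ T, |(k : ℝ)| < 2 * |(j : ℝ)| := by
    intro j hj
    rw [hT, mem_filter] at hj
    have := not_le.1 hj.2
    have h2 : ((|k| : ℤ) : ℝ) < ((2 * |j| : ℤ) : ℝ) := by exact_mod_cast this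
    push_cast at h2
    exact h2
  have h1 : ∀ j ∈ T, ‖fc tp j‖ * g (k - j) ≤ (if |((k - j : ℤ) : ℝ)| ≤ r then 8 / (k : ℝ) ^ 2 * M else 0) + m * ‖fc tp j‖ +
      M * (if ¬ |((k - j : ℤ) : ℝ)| ≤ R then ‖fc tp j‖ else 0) := by
    intro j hj
    have h2 := hTj j hj
    have hj0 : j ≠ 0 := by
      rintro rfl
      simp at h2
      linarith
    have hfn := norm_nonneg (fc tp j)
    have t1 : 0 ≤ (if |((k - j : ℤ) : ℝ)| ≤ r then 8 / (k : ℝ) ^ 2 * M else 0) := by split_ifs <;> positivity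
    have t2 : 0 ≤ M * (if ¬ |((k - j : ℤ) : ℝ)| ≤ R then ‖fc tp j‖ else 0) := by
      apply mul_nonneg hM0
      split_ifs <;> positivity
    have t3 : 0 ≤ m * ‖fc tp j‖ := by positivity
    by_cases hc1 : |((k - j : ℤ) : ℝ)| ≤ r
    · have h3 : ‖fc tp j‖ * g (k - j) ≤ 8 / (k : ℝ) ^ 2 * M := by
        apply mul_le_mul _ (hM _) (hg _) (by positivity)
        refine (fc_tp j hj0).trans ?_
        have hjr : 0 < |(j : ℝ)| := by linarith
        rw [div_le_div_iff₀ (by rw [← sq_abs]; positivity) (by rw [← sq_abs]; positivity), ← sq_abs (k : ℝ), ← sq_abs (j : ℝ)]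
        have h4 : |(k : ℝ)| ^ 2 ≤ (2 * |(j : ℝ)|) ^ 2 := pow_le_pow_left₀ (abs_nonneg _) h2.le 2
        nlinarith
      rw [if_pos hc1]
      linarith
    · rw [if_neg hc1, zero_add]
      by_cases hc2 : |((k - j : ℤ) : ℝ)| ≤ R
      · have h3 : ‖fc tp j‖ * g (k - j) ≤ m * ‖fc tp j‖ := by
          rw [mul_comm]
          exact mul_le_mul_of_nonneg_right (hm _ (not_le.1 hc1) hc2) hfn
        linarith
      · rw [if_pos hc2]
        have h3 : ‖fc tp j‖ * g (k - j) ≤ M * ‖fc tp j‖ := by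
          rw [mul_comm]
          exact mul_le_mul_of_nonneg_right (hM _) hfn
        linarith
  refine (sum_le_sum h1).trans ?_
  rw [sum_add_distrib, sum_add_distrib, ← mul_sum, ← mul_sum]
  have p1 : ∑ j ∈ T, (if |((k - j : ℤ) : ℝ)| ≤ r then 8 / (k : ℝ) ^ 2 * M else 0) ≤ 24 * M * r * (1 / (k : ℝ) ^ 2) := by
    rw [← sum_filter, sum_const, nsmul_eq_mul]
    have hcard : ((T.filter (fun j => |((k - j : ℤ) : ℝ)| ≤ r)).card : ℝ) ≤ 3 * r := by
      have hinj : Function.Injective (fun j : ℤ => k - j) := fun x y hxy => by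
        have : k - x = k - y := hxy
        omega
      rw [← card_image_of_injective _ hinj]
      have hsub : (T.filter (fun j => |((k - j : ℤ) : ℝ)| ≤ r)).image (fun j => k - j) ⊆ Icc (-⌊r⌋) ⌊r⌋ := by
        intro l hl
        rw [mem_image] at hl
        obtain ⟨j, hj, rfl⟩ := hl
        rw [mem_filter] at hj
        rw [mem_Icc]
        obtain ⟨q1, q2⟩ := abs_le.1 hj.2
        constructor
        · have := Int.le_floor.2 (show ((-(k - j) : ℤ) : ℝ) ≤ r by push_cast at q1 ⊢; linarith)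
          omega
        · exact Int.le_floor.2 q2
      refine (Nat.cast_le.2 (card_le_card hsub)).trans ?_
      rw [Int.card_Icc]
      have h5 : 0 ≤ ⌊r⌋ := Int.floor_nonneg.2 (by linarith)
      have h6 : (((⌊r⌋ + 1 - (-⌊r⌋)).toNat : ℕ) : ℝ) = 2 * (⌊r⌋ : ℝ) + 1 := by
        have h7 : (((⌊r⌋ + 1 - (-⌊r⌋)).toNat : ℕ) : ℤ) = ⌊r⌋ + 1 - (-⌊r⌋) := Int.toNat_of_nonneg (by omega)
        have h8 : (((⌊r⌋ + 1 - (-⌊r⌋)).toNat : ℕ) : ℝ) = ((⌊r⌋ + 1 - (-⌊r⌋) : ℤ) : ℝ) := by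
          rw [← h7]; push_cast; rfl
        rw [h8]; push_cast; ring
      rw [h6]
      have := Int.floor_le r
      linarith
    calc ((T.filter (fun j => |((k - j : ℤ) : ℝ)| ≤ r)).card : ℝ) * (8 / (k : ℝ) ^ 2 * M) ≤ 3 * r * (8 / (k : ℝ) ^ 2 * M) :=
          mul_le_mul_of_nonneg_right hcard (by positivity)
      _ = _ := by ring
  have p2 : m * ∑ j ∈ T, ‖fc tp j‖ ≤ m * (16 / |(k : ℝ)|) := by
    rw [hT]
    exact mul_le_mul_of_nonneg_left (tp_tail J k hk) hm0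
  have p3 : M * ∑ j ∈ T, (if ¬ |((k - j : ℤ) : ℝ)| ≤ R then ‖fc tp j‖ else 0) ≤ M * (32 / R) := by
    apply mul_le_mul_of_nonneg_left _ hM0
    rw [← sum_filter]
    obtain ⟨D, hD⟩ : ∃ D : ℕ, D = ⌊R / 4⌋₊ := ⟨_, rfl⟩
    have hD1 : (2 : ℕ) ≤ D := by
      rw [hD]; exact Nat.le_floor (by push_cast; linarith)
    have hD2 : (D : ℝ) ≤ R / 4 := by rw [hD]; exact Nat.floor_le (by linarith)
    have hD3 : R / 4 < D + 1 := by rw [hD]; exact Nat.lt_floor_add_one _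
    have hD4 : R / 8 ≤ D := by
      have : (2 : ℝ) ≤ D := by exact_mod_cast hD1
      linarith
    have hfar : ∀ j ∈ T.filter (fun j => ¬ |((k - j : ℤ) : ℝ)| ≤ R), (D : ℤ) < |j| := by
      intro j hj
      rw [mem_filter] at hj
      have h5 := not_le.1 hj.2
      push_cast at h5
      have h6 : |(k : ℝ) - j| ≤ |(k : ℝ)| + |(j : ℝ)| := abs_sub _ _
      have h7 : (D : ℝ) < ((|j| : ℤ) : ℝ) := by
        rw [Int.cast_abs]
        linarith
      exact_mod_cast h7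
    have hD0 : (0 : ℝ) < D := by linarith
    have h3 := sum_inv_sq_large _ D (by omega) hfar
    calc ∑ j ∈ T.filter (fun j => ¬ |((k - j : ℤ) : ℝ)| ≤ R), ‖fc tp j‖
        ≤ ∑ j ∈ T.filter (fun j => ¬ |((k - j : ℤ) : ℝ)| ≤ R), 2 * (1 / (j : ℝ) ^ 2) := by
          apply sum_le_sum
          intro j hj
          have h4 := hfar j hj
          have hj0 : j ≠ 0 := by
            rintro rfl
            simp at h4
            omega
          refine (fc_tp j hj0).trans (le_of_eq ?_)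
          ring
      _ = 2 * ∑ j ∈ T.filter (fun j => ¬ |((k - j : ℤ) : ℝ)| ≤ R), 1 / (j : ℝ) ^ 2 := by rw [mul_sum]
      _ ≤ 2 * (2 / D) := mul_le_mul_of_nonneg_left h3 (by positivity)
      _ ≤ 32 / R := by
          rw [mul_div_assoc', div_le_div_iff₀ hD0 (by linarith)]
          linarith
  linarith

end Pool.Agent.J4H33
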