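import Pool.Agent.J4H33.KT3
import Pool.Agent.J4H33.KL5

/-!
# Primes at sparse sets of frequencies, weighted first moments: tent windows and primes
-/

set_option autoImplicit false

namespace Pool.Agent.J4H33

open Finset Filter Pool.Agent.H376R2.MR Pool.Agent.Q240.KS Pool.Agent.Q211.KS
open Pool.Agent.Helper482.Stk (fc)
open Pool.Agent.Y851.PS (TF SPr xP g3 g3_nonneg g3_le mem_SPr)

/-- weighted sums over sparse sets of frequencies, for tent windows -/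
def KTP (c : ℝ) : Prop := ∃ η : ℝ, 0 < η ∧ ∀ B : ℕ, ∃ b : ℕ, ∀ᶠ Y : ℝ in atTop, ∀ L : Finset ℤ,
  (L.card : ℝ) ≤ Real.exp (c * Y) → (∀ k ∈ L, Y ^ b ≤ |(k : ℝ)| ∧ |(k : ℝ)| ≤ 10 * Real.exp Y) →
  ∀ (f : ℤ → ℝ) (S Q : ℝ), (∀ k, 0 ≤ f k) → 0 ≤ S → 0 ≤ Q → (∀ k ∈ L, f k ≤ S) → ∑ k ∈ L, f k ^ 2 ≤ Q ^ 2 →
  ∑ k ∈ L, f k * ‖Pt Y k‖ ≤ S / Y ^ B + Q * Real.exp (-(η * Y))

/-- finite partial sums -/
theorem GJ_near (Y : ℝ) (L J : Finset ℤ) (f : ℤ → ℝ) (E : ℝ) (hE : 0 ≤ E)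
    (hS : ∀ j : ℤ, ∑ k ∈ L.filter (fun k => 2 * |j| ≤ |k|), f k * ‖AA (zY Y) Y (k - j)‖ ≤ E) (hf : ∀ k, 0 ≤ f k) :
    ∑ k ∈ L, f k * ‖GJ Y J k‖ ≤ 9 * E + ∑ k ∈ L, f k * ∑ j ∈ J.filter (fun j => ¬ 2 * |j| ≤ |k|), ‖fc tp j‖ * ‖AA (zY Y) Y (k - j)‖ := by
  classical
  have h1 : ∀ k ∈ L, f k * ‖GJ Y J k‖ ≤ ∑ j ∈ J, ‖fc tp j‖ * (if 2 * |j| ≤ |k| then f k * ‖AA (zY Y) Y (k - j)‖ else 0) +
      f k * ∑ j ∈ J.filter (fun j => ¬ 2 * |j| ≤ |k|), ‖fc tp j‖ * ‖AA (zY Y) Y (k - j)‖ := by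
    intro k _
    have h2 : ‖GJ Y J k‖ ≤ ∑ j ∈ J.filter (fun j => 2 * |j| ≤ |k|), ‖fc tp j‖ * ‖AA (zY Y) Y (k - j)‖ +
        ∑ j ∈ J.filter (fun j => ¬ 2 * |j| ≤ |k|), ‖fc tp j‖ * ‖AA (zY Y) Y (k - j)‖ := by
      rw [sum_filter_add_sum_filter_not]
      unfold GJ
      refine (norm_sum_le _ _).trans (le_of_eq (sum_congr rfl fun j _ => ?_))
      rw [norm_mul, norm_mul, exp_norm1, mul_one]
    have h3 : f k * ∑ j ∈ J.filter (fun j => 2 * |j| ≤ |k|), ‖fc tp j‖ * ‖AA (zY Y) Y (k - j)‖ =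
        ∑ j ∈ J, ‖fc tp j‖ * (if 2 * |j| ≤ |k| then f k * ‖AA (zY Y) Y (k - j)‖ else 0) := by
      rw [sum_filter, mul_sum]
      apply sum_congr rfl
      intro j _
      split_ifs
      · ring
      · simp
    calc f k * ‖GJ Y J k‖ ≤ f k * (∑ j ∈ J.filter (fun j => 2 * |j| ≤ |k|), ‖fc tp j‖ * ‖AA (zY Y) Y (k - j)‖ +
        ∑ j ∈ J.filter (fun j => ¬ 2 * |j| ≤ |k|), ‖fc tp j‖ * ‖AA (zY Y) Y (k - j)‖) := mul_le_mul_of_nonneg_left h2 (hf k)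
      _ = _ := by rw [mul_add, h3]
  refine (sum_le_sum h1).trans ?_
  rw [sum_add_distrib, sum_comm]
  apply add_le_add _ le_rfl
  calc ∑ j ∈ J, ∑ k ∈ L, ‖fc tp j‖ * (if 2 * |j| ≤ |k| then f k * ‖AA (zY Y) Y (k - j)‖ else 0)
      ≤ ∑ j ∈ J, ‖fc tp j‖ * E := by
        apply sum_le_sum
        intro j _
        rw [← mul_sum, ← sum_filter]
        exact mul_le_mul_of_nonneg_left (hS j) (norm_nonneg _)
    _ = (∑ j ∈ J, ‖fc tp j‖) * E := by rw [sum_mul]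
    _ ≤ 9 * E := mul_le_mul_of_nonneg_right (fc_tp_sum J) hE

theorem ktp_of_kta (htri : S_TRI) (htup : S_TUP) {c : ℝ} (hc0 : 0 ≤ c) (hc1 : c ≤ 1 / 2) (hA : KLA c) (h : KTA c) : KTP c := by
  classical
  obtain ⟨η, hη, h⟩ := h
  refine ⟨η / 2, by positivity, fun B => ?_⟩
  obtain ⟨b₁, hb₁⟩ := h (B + 1)
  obtain ⟨b₂, hb₂⟩ := hA (2 * (B + 2))
  obtain ⟨Y₀, hY₀⟩ := htup 1 one_pos
  obtain ⟨C1, hC1⟩ : ∃ C1 : ℝ, C1 = 31 * 50 ^ 10 * (2 ^ 9 * 100) := ⟨_, rfl⟩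
  have hC10 : 1 ≤ C1 := by rw [hC1]; norm_num
  refine ⟨b₁ + b₂ + B + 25, ?_⟩
  filter_upwards [hb₁, hb₂, eventually_ge_atTop Y₀, eventually_ge_atTop 400, eventually_ge_atTop (9 + 96 * C1 + 64 + 1),
    ev_poly_exp (B + 12) (1 / 2) (2 * C1) (by norm_num), ev_poly_exp 0 (η / 2) 9 (by positivity)]
    with Y h1 h1' hY1 hY2 hY3 hY4 hY5 L hL1 hL2 f S Q hf0 hS hQ hfS hfQ
  have hY0 : 0 < Y := by linarith
  have hY11 : 1 ≤ Y := by linarith
  rw [pow_zero, mul_one] at hY5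
  obtain ⟨a, ha1, ha2, -, ha4⟩ := hY₀ Y hY1
  obtain ⟨b, hb⟩ : ∃ b, b = b₁ + b₂ + B + 25 := ⟨_, rfl⟩
  rw [← hb] at hL2
  have hpow2 : 2 * Y ^ b₁ ≤ Y ^ b := by
    have e : Y ^ b = Y ^ b₁ * Y ^ (b₂ + B + 25) := by rw [← pow_add, hb]; congr 1; ring
    rw [e]
    have h2 : 2 ≤ Y ^ (b₂ + B + 25) := by
      calc (2 : ℝ) ≤ Y := by linarith
        _ = Y ^ 1 := (pow_one Y).symm
        _ ≤ _ := pow_le_pow_right₀ hY11 (by omega)
    have h3 : 0 < Y ^ b₁ := by positivity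
    nlinarith
  have hbY2 : 2 ≤ Y ^ b := by
    calc (2 : ℝ) ≤ Y := by linarith
      _ = Y ^ 1 := (pow_one Y).symm
      _ ≤ _ := pow_le_pow_right₀ hY11 (by omega)
  have hL3 : ∀ k ∈ L, (2 : ℤ) ≤ |k| := by
    intro k hk
    have h2 := (hL2 k hk).1
    have h3 : ((2 : ℤ) : ℝ) ≤ ((|k| : ℤ) : ℝ) := by
      rw [Int.cast_abs]
      push_cast
      linarith
    exact_mod_cast h3
  have hM : ∀ k, ‖AA (zY Y) Y k‖ ≤ C1 * Y ^ 11 := by
    intro k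
    refine (AA_triv htri hY11 k).trans (le_of_eq ?_)
    rw [hC1]; ring
  have hS' : ∀ j : ℤ, ∑ k ∈ L.filter (fun k => 2 * |j| ≤ |k|), f k * ‖AA (zY Y) Y (k - j)‖ ≤ S / Y ^ (B + 1) + Q * Real.exp (-(η * Y)) := by
    intro j
    have hinj : Function.Injective (fun k : ℤ => k - j) := fun x y hxy => by simpa using hxy
    have e : ∀ F : ℤ → ℝ, ∑ k ∈ L.filter (fun k => 2 * |j| ≤ |k|), F k =
        ∑ k ∈ (L.filter (fun k => 2 * |j| ≤ |k|)).image (fun k => k - j), F (k + j) := by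
      intro F
      rw [sum_image fun x _ y _ hxy => hinj hxy]
      apply sum_congr rfl
      intro k _
      rw [sub_add_cancel]
    rw [e]
    have e2 : ∑ k ∈ (L.filter (fun k => 2 * |j| ≤ |k|)).image (fun k => k - j), f (k + j) * ‖AA (zY Y) Y (k + j - j)‖ =
        ∑ k ∈ (L.filter (fun k => 2 * |j| ≤ |k|)).image (fun k => k - j), f (k + j) * ‖AA (zY Y) Y k‖ :=
      sum_congr rfl fun k _ => by rw [add_sub_cancel_right]
    rw [e2]
    apply h1 _ _ _ (fun k => f (k + j)) S Q (fun k => hf0 _) hS hQ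
    · intro k' hk'
      rw [mem_image] at hk'
      obtain ⟨k, hk, rfl⟩ := hk'
      rw [mem_filter] at hk
      rw [sub_add_cancel]
      exact hfS k hk.1
    · have e3 := e (fun k => f k ^ 2)
      change ∑ k ∈ (L.filter (fun k => 2 * |j| ≤ |k|)).image (fun k => k - j), f (k + j) ^ 2 ≤ Q ^ 2
      rw [← e3]
      refine le_trans ?_ hfQ
      exact sum_le_sum_of_subset_of_nonneg (filter_subset _ _) fun k _ _ => sq_nonneg _
    · rw [card_image_of_injective _ hinj]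
      exact (Nat.cast_le.2 (card_filter_le _ _)).trans hL1
    · intro k' hk'
      rw [mem_image] at hk'
      obtain ⟨k, hk, rfl⟩ := hk'
      rw [mem_filter] at hk
      obtain ⟨g1, g2⟩ := hL2 k hk.1
      have g3 : 2 * |(j : ℝ)| ≤ |(k : ℝ)| := by
        have : ((2 * |j| : ℤ) : ℝ) ≤ ((|k| : ℤ) : ℝ) := by exact_mod_cast hk.2
        push_cast at this
        exact this
      have g4 : |(k : ℝ)| - |(j : ℝ)| ≤ |(((k - j : ℤ)) : ℝ)| := by
        push_cast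
        exact abs_sub_abs_le_abs_sub _ _
      have g5 : |(((k - j : ℤ)) : ℝ)| ≤ |(k : ℝ)| + |(j : ℝ)| := by
        push_cast
        exact abs_sub _ _
      constructor
      · linarith
      · linarith [Real.exp_pos Y]
  -- pointwise bound in the middle range
  have hmid : ∀ l : ℤ, Y ^ b₂ < |(l : ℝ)| → |(l : ℝ)| ≤ 20 * Real.exp Y → ‖AA (zY Y) Y l‖ ≤ 1 / Y ^ (B + 2) := by
    intro l hl1 hl2
    have h2 := h1' {l} (by
      rw [card_singleton, Nat.cast_one]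
      exact Real.one_le_exp (by positivity)) (by
      intro k hk
      rw [mem_singleton] at hk
      rw [hk]
      exact ⟨hl1.le, hl2⟩)
    rw [sum_singleton] at h2
    have h3 : (1 : ℝ) / Y ^ (2 * (B + 2)) = (1 / Y ^ (B + 2)) ^ 2 := by
      rw [div_pow, one_pow, ← pow_mul, mul_comm 2]
    rw [h3] at h2
    exact (pow_le_pow_iff_left₀ (norm_nonneg _) (by positivity) (by norm_num)).1 h2
  -- the sums over the frequencies
  obtain ⟨D', hD'⟩ : ∃ D' : ℕ, D' = ⌈Y ^ b⌉₊ - 1 := ⟨_, rfl⟩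
  have hceil1 : Y ^ b ≤ (⌈Y ^ b⌉₊ : ℕ) := Nat.le_ceil _
  have hceil2 : 2 ≤ ⌈Y ^ b⌉₊ := by
    have : (2 : ℝ) ≤ (⌈Y ^ b⌉₊ : ℕ) := hbY2.trans hceil1
    exact_mod_cast this
  have hD'1 : 1 ≤ D' := by omega
  have hD'2 : Y ^ b / 2 ≤ D' := by
    have h6 : ((⌈Y ^ b⌉₊ : ℕ) : ℝ) = D' + 1 := by
      have : ⌈Y ^ b⌉₊ = D' + 1 := by omega
      rw [this]; push_cast; ring
    linarith
  have hD'0 : (0 : ℝ) < D' := by exact_mod_cast hD'1
  have q2 := sum_inv_sq_large L D' hD'1 (by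
    intro k hk
    have h6 := (hL2 k hk).1
    have h7 : Y ^ b ≤ ((k.natAbs : ℕ) : ℝ) := by
      rw [Nat.cast_natAbs]; push_cast; exact h6
    have h8 := Nat.ceil_le.2 h7
    rw [Int.abs_eq_natAbs]
    have h9 : D' < k.natAbs := by omega
    exact_mod_cast h9)
  have q3 : ∑ k ∈ L, 1 / (k : ℝ) ^ 2 ≤ 4 / Y ^ b := by
    refine q2.trans ?_
    rw [div_le_div_iff₀ hD'0 (by positivity)]
    linarith
  have q4 : ∑ k ∈ L, 1 / |(k : ℝ)| ≤ 4 * Y := by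
    have h2 := sum_inv_abs L (10 * Real.exp Y) (by linarith [Real.one_le_exp hY0.le]) (by
      intro k hk
      refine ⟨?_, (hL2 k hk).2⟩
      rintro rfl
      have := hL3 0 hk
      simp at this)
    rw [Real.log_mul (by norm_num) (Real.exp_pos _).ne', Real.log_exp] at h2
    have h3 : Real.log 10 ≤ 3 := by
      have h4 : (10 : ℝ) ≤ Real.exp 3 := by
        have h5 := Real.exp_one_gt_d9
        have h6 : Real.exp 3 = Real.exp 1 ^ 3 := by rw [← Real.exp_nat_mul]; norm_num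
        rw [h6]
        have h7 : (2.7 : ℝ) ^ 3 ≤ Real.exp 1 ^ 3 := pow_le_pow_left₀ (by norm_num) (by linarith) 3
        norm_num at h7
        linarith
      calc Real.log 10 ≤ Real.log (Real.exp 3) := Real.log_le_log (by norm_num) h4
        _ = 3 := Real.log_exp 3
    linarith
  have hR8 : (8 : ℝ) ≤ 20 * Real.exp Y := by linarith [Real.one_le_exp hY0.le]
  -- the tail
  have htail : ∀ J : Finset ℤ, ∑ k ∈ L, f k * ∑ j ∈ J.filter (fun j => ¬ 2 * |j| ≤ |k|), ‖fc tp j‖ * ‖AA (zY Y) Y (k - j)‖ ≤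
      S * (24 * (C1 * Y ^ 11) * Y ^ b₂ * (4 / Y ^ b) + 16 * (1 / Y ^ (B + 2)) * (4 * Y) +
        Real.exp (c * Y) * ((C1 * Y ^ 11) * (32 / (20 * Real.exp Y)))) := by
    intro J
    calc ∑ k ∈ L, f k * ∑ j ∈ J.filter (fun j => ¬ 2 * |j| ≤ |k|), ‖fc tp j‖ * ‖AA (zY Y) Y (k - j)‖
        ≤ ∑ k ∈ L, S * (24 * (C1 * Y ^ 11) * Y ^ b₂ * (1 / (k : ℝ) ^ 2) + (1 / Y ^ (B + 2)) * (16 / |(k : ℝ)|) + (C1 * Y ^ 11) * (32 / (20 * Real.exp Y))) := by
          apply sum_le_sum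
          intro k hk
          have h2 := tail_pt (fun l => ‖AA (zY Y) Y l‖) J k (C1 * Y ^ 11) (1 / Y ^ (B + 2)) (Y ^ b₂) (20 * Real.exp Y)
            (fun l => norm_nonneg _) hM (by positivity) (one_le_pow₀ hY11) hmid (hL3 k hk) (by linarith [(hL2 k hk).2]) hR8
          have h3 : 0 ≤ ∑ j ∈ J.filter (fun j => ¬ 2 * |j| ≤ |k|), ‖fc tp j‖ * ‖AA (zY Y) Y (k - j)‖ :=
            sum_nonneg fun j _ => by positivity
          exact mul_le_mul (hfS k hk) h2 h3 hS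
      _ = S * (24 * (C1 * Y ^ 11) * Y ^ b₂ * (∑ k ∈ L, 1 / (k : ℝ) ^ 2) + 16 * (1 / Y ^ (B + 2)) * (∑ k ∈ L, 1 / |(k : ℝ)|) +
          (L.card : ℝ) * ((C1 * Y ^ 11) * (32 / (20 * Real.exp Y)))) := by
          rw [← mul_sum, sum_add_distrib, sum_add_distrib, sum_const, nsmul_eq_mul, ← mul_sum, ← mul_sum]
          have e5 : ∑ k ∈ L, (16 : ℝ) / |(k : ℝ)| = 16 * ∑ k ∈ L, 1 / |(k : ℝ)| := by
            rw [mul_sum]
            apply sum_congr rfl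
            intro k _
            ring
          rw [e5]; ring
      _ ≤ _ := by
          apply mul_le_mul_of_nonneg_left _ hS
          gcongr
  have hnum : 24 * (C1 * Y ^ 11) * Y ^ b₂ * (4 / Y ^ b) + 16 * (1 / Y ^ (B + 2)) * (4 * Y) +
        Real.exp (c * Y) * ((C1 * Y ^ 11) * (32 / (20 * Real.exp Y))) ≤ (96 * C1 + 64 + 1) * (1 / Y ^ (B + 1)) := by
    have t1 : 24 * (C1 * Y ^ 11) * Y ^ b₂ * (4 / Y ^ b) ≤ 96 * C1 * (1 / Y ^ (B + 1)) := by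
      have e : Y ^ b = Y ^ 11 * Y ^ b₂ * Y ^ (B + 1) * Y ^ (b₁ + 13) := by
        rw [← pow_add, ← pow_add, ← pow_add, hb]; congr 1; ring
      have h2 : 1 ≤ Y ^ (b₁ + 13) := one_le_pow₀ hY11
      rw [e]
      calc 24 * (C1 * Y ^ 11) * Y ^ b₂ * (4 / (Y ^ 11 * Y ^ b₂ * Y ^ (B + 1) * Y ^ (b₁ + 13))) =
            96 * C1 * (1 / Y ^ (B + 1)) * (1 / Y ^ (b₁ + 13)) := by field_simp; norm_num
        _ ≤ 96 * C1 * (1 / Y ^ (B + 1)) * 1 := by
            apply mul_le_mul_of_nonneg_left _ (by positivity)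
            rw [div_le_one (by positivity)]; exact h2
        _ = _ := mul_one _
    have t2 : 16 * (1 / Y ^ (B + 2)) * (4 * Y) = 64 * (1 / Y ^ (B + 1)) := by
      rw [pow_succ Y (B + 1)]; field_simp; norm_num
    have t3 : Real.exp (c * Y) * ((C1 * Y ^ 11) * (32 / (20 * Real.exp Y))) ≤ 1 * (1 / Y ^ (B + 1)) := by
      rw [one_mul, le_div_iff₀ (by positivity)]
      have h2 : Real.exp (c * Y) ≤ Real.exp (1 / 2 * Y) := Real.exp_le_exp.2 (mul_le_mul_of_nonneg_right hc1 hY0.le)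
      have h3 : Real.exp (1 / 2 * Y) * Real.exp (1 / 2 * Y) = Real.exp Y := by rw [← Real.exp_add]; congr 1; ring
      calc Real.exp (c * Y) * ((C1 * Y ^ 11) * (32 / (20 * Real.exp Y))) * Y ^ (B + 1)
          = Real.exp (c * Y) * (32 / 40) * (2 * C1 * Y ^ (B + 12)) / Real.exp Y := by
            rw [show B + 12 = 11 + (B + 1) by ring, pow_add Y 11 (B + 1)]; field_simp; norm_num
        _ ≤ Real.exp (1 / 2 * Y) * 1 * Real.exp (1 / 2 * Y) / Real.exp Y := by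
            gcongr
            norm_num
        _ = 1 := by rw [mul_one, h3, div_self (Real.exp_pos _).ne']
    linarith
  -- the bound for finite sums
  have hfin : ∀ J : Finset ℤ, ∑ k ∈ L, f k * ‖GJ Y J k‖ ≤ S / Y ^ B + Q * Real.exp (-(η / 2 * Y)) := by
    intro J
    have h2 := GJ_near Y L J f _ (by positivity) hS' hf0
    have h3 := (htail J).trans (mul_le_mul_of_nonneg_left hnum hS)
    have h4 : 9 * (S / Y ^ (B + 1)) + S * ((96 * C1 + 64 + 1) * (1 / Y ^ (B + 1))) ≤ S / Y ^ B := by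
      calc 9 * (S / Y ^ (B + 1)) + S * ((96 * C1 + 64 + 1) * (1 / Y ^ (B + 1))) = (S / Y ^ B) * ((9 + 96 * C1 + 64 + 1) / Y) := by
            rw [pow_succ]; field_simp; ring
        _ ≤ (S / Y ^ B) * 1 := by
            apply mul_le_mul_of_nonneg_left _ (by positivity)
            rw [div_le_one hY0]; exact hY3
        _ = _ := mul_one _
    have h5 : 9 * (Q * Real.exp (-(η * Y))) ≤ Q * Real.exp (-(η / 2 * Y)) := by
      calc 9 * (Q * Real.exp (-(η * Y))) = Q * (9 * Real.exp (-(η * Y))) := by ring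
        _ ≤ Q * (Real.exp (η / 2 * Y) * Real.exp (-(η * Y))) := by gcongr
        _ = _ := by
          rw [← Real.exp_add]
          congr 2; ring
    linarith
  have hlim : Tendsto (fun J : Finset ℤ => ∑ k ∈ L, f k * ‖GJ Y J k‖) atTop (nhds (∑ k ∈ L, f k * ‖Pt Y k‖)) := by
    apply tendsto_finsetSum
    intro k _
    have := Pt_hasSum Y a ha1 ha2 ha4 k
    exact (this.norm).const_mul _
  exact le_of_tendsto' hlim hfin

end Pool.Agent.J4H33
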