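import Pool.Agent.J4H33.Fac
import Pool.Agent.Results.MP_711652_nt.SparseDilates

/-!
# Dilates by integers with a large prime factor
-/

set_option autoImplicit false

namespace Pool.Agent.J4H33.LF

open Finset Filter
open Pool.Agent.Results.MP_711652_nt.SparseDilates (density)

theorem density_nonneg (H x : ℝ) (hH : 0 < H) : 0 ≤ density H x := by
  unfold density
  rcases lt_or_ge x 1 with h | h
  · have : {p : ℕ | p.Prime ∧ x - H < p ∧ (p : ℝ) < x} = ∅ := by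
      ext p
      rw [Set.mem_empty_iff_false, iff_false]
      rintro ⟨h1, _, h2⟩
      have h3 : (2 : ℝ) ≤ p := by exact_mod_cast h1.two_le
      linarith
    rw [this]
    simp
  · have : 0 ≤ Real.log x := Real.log_nonneg h
    positivity

theorem ncard_le (H x : ℝ) (hH : 0 < H) : ((Set.ncard {p : ℕ | p.Prime ∧ x - H < p ∧ (p : ℝ) < x} : ℕ) : ℝ) ≤ H + 1 := by
  have hinj : Function.Injective (fun n : ℕ => (n : ℤ)) := Nat.cast_injective
  have h1 : (fun n : ℕ => (n : ℤ)) '' {p : ℕ | p.Prime ∧ x - H < p ∧ (p : ℝ) < x} ⊆ ((Finset.Ioo ⌊x - H⌋ ⌈x⌉ : Finset ℤ) : Set ℤ) := by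
    rintro _ ⟨p, ⟨_, hp1, hp2⟩, rfl⟩
    rw [coe_Ioo, Set.mem_Ioo]
    constructor
    · rw [Int.floor_lt]; exact_mod_cast hp1
    · rw [Int.lt_ceil]; exact_mod_cast hp2
  have h2 : Set.ncard {p : ℕ | p.Prime ∧ x - H < p ∧ (p : ℝ) < x} ≤ (Finset.Ioo ⌊x - H⌋ ⌈x⌉ : Finset ℤ).card := by
    rw [← Set.ncard_image_of_injective _ hinj, ← Set.ncard_coe_finset]
    exact Set.ncard_le_ncard h1 (Finset.finite_toSet _)
  rw [Int.card_Ioo] at h2
  have h3 : (⌈x⌉ : ℝ) < x + 1 := Int.ceil_lt_add_one x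
  have h4 : x - H - 1 < (⌊x - H⌋ : ℝ) := by linarith [Int.lt_floor_add_one (x - H)]
  have h5 : (((⌈x⌉ - ⌊x - H⌋ - 1).toNat : ℕ) : ℝ) ≤ H + 1 := by
    rcases le_or_gt 0 (⌈x⌉ - ⌊x - H⌋ - 1) with h | h
    · have h6 : (((⌈x⌉ - ⌊x - H⌋ - 1).toNat : ℕ) : ℝ) = ((⌈x⌉ - ⌊x - H⌋ - 1 : ℤ) : ℝ) := by
        have := Int.toNat_of_nonneg h
        exact_mod_cast congrArg (fun z : ℤ => (z : ℝ)) this
      rw [h6]
      push_cast
      linarith
    · rw [Int.toNat_of_nonpos h.le]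
      push_cast
      linarith
  exact le_trans (by exact_mod_cast h2) h5

theorem density_le (H x X : ℝ) (hH : 1 ≤ H) (hx : x ≤ X) (hX : 1 ≤ X) : density H x ≤ 2 * Real.log X := by
  have hlX : 0 ≤ Real.log X := Real.log_nonneg hX
  rcases lt_or_ge x 1 with h | h
  · have : {p : ℕ | p.Prime ∧ x - H < p ∧ (p : ℝ) < x} = ∅ := by
      ext p
      rw [Set.mem_empty_iff_false, iff_false]
      rintro ⟨h1, _, h2⟩
      have h3 : (2 : ℝ) ≤ p := by exact_mod_cast h1.two_le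
      linarith
    unfold density
    rw [this]
    simp only [Set.ncard_empty, Nat.cast_zero, zero_mul, zero_div]
    linarith
  · unfold density
    have h0 : 0 ≤ Real.log x := Real.log_nonneg h
    have h1 : Real.log x ≤ Real.log X := Real.log_le_log (by linarith) hx
    have h2 := ncard_le H x (by linarith)
    rw [div_le_iff₀ (by linarith)]
    calc ((Set.ncard {p : ℕ | p.Prime ∧ x - H < p ∧ (p : ℝ) < x} : ℕ) : ℝ) * Real.log x ≤ (H + 1) * Real.log X :=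
          mul_le_mul h2 h1 h0 (by linarith)
      _ ≤ 2 * Real.log X * H := by nlinarith

/-- the sum of `Q_b ^ (9/10)` -/
theorem small_fibres (M η : ℝ) (hM : 1 ≤ M) (hη : 0 ≤ η) (B : Finset ℕ) (hB : ∀ b ∈ B, 0 < b ∧ M ^ η ≤ M / b) :
    ∑ b ∈ B, (M / (b : ℝ)) ^ ((1 : ℝ) - 1 / 10) ≤ M ^ (1 - η / 10) * (1 + Real.log M) := by
  have hM0 : 0 < M := by linarith
  have h1 : ∀ b ∈ B, (M / (b : ℝ)) ^ ((1 : ℝ) - 1 / 10) ≤ M ^ (1 - η / 10) * (b : ℝ)⁻¹ := by
    intro b hb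
    obtain ⟨hb0, hb1⟩ := hB b hb
    have hb0' : (0 : ℝ) < b := by exact_mod_cast hb0
    have hQ : 0 < M / b := by positivity
    have hMη : 0 < M ^ η := by positivity
    rw [Real.rpow_sub hQ, Real.rpow_one]
    have h2 : M ^ (η / 10) ≤ (M / (b : ℝ)) ^ ((1 : ℝ) / 10) := by
      have h3 : M ^ (η / 10) = (M ^ η) ^ ((1 : ℝ) / 10) := by
        rw [← Real.rpow_mul hM0.le]; congr 1; ring
      rw [h3]
      exact Real.rpow_le_rpow hMη.le hb1 (by norm_num)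
    have h4 : 0 < M ^ (η / 10) := by positivity
    calc M / b / (M / (b : ℝ)) ^ ((1 : ℝ) / 10) ≤ M / b / M ^ (η / 10) := div_le_div_of_nonneg_left hQ.le h4 h2
      _ = M ^ (1 - η / 10) * (b : ℝ)⁻¹ := by
        rw [Real.rpow_sub hM0, Real.rpow_one]
        field_simp
  have hsub : B ⊆ Icc 1 ⌊M⌋₊ := by
    intro b hb
    obtain ⟨hb0, hb1⟩ := hB b hb
    have hb0' : (0 : ℝ) < b := by exact_mod_cast hb0
    rw [mem_Icc]
    refine ⟨hb0, Nat.le_floor ?_⟩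
    by_contra hcon
    push Not at hcon
    have h5 : 0 < M ^ η := by positivity
    have h2 : M / b < 1 := by rw [div_lt_one hb0']; exact hcon
    have h3 : (1 : ℝ) ≤ M ^ η := Real.one_le_rpow hM hη
    linarith
  calc ∑ b ∈ B, (M / (b : ℝ)) ^ ((1 : ℝ) - 1 / 10) ≤ ∑ b ∈ B, M ^ (1 - η / 10) * (b : ℝ)⁻¹ := sum_le_sum h1
    _ = M ^ (1 - η / 10) * ∑ b ∈ B, (b : ℝ)⁻¹ := by rw [mul_sum]
    _ ≤ M ^ (1 - η / 10) * (1 + Real.log M) := by
        refine mul_le_mul_of_nonneg_left ?_ (by positivity)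
        have h2 := harmonic_floor_le_one_add_log M hM
        rw [harmonic_eq_sum_Icc] at h2
        push_cast at h2
        refine le_trans (sum_le_sum_of_subset_of_nonneg hsub (fun _ _ _ => by positivity)) h2

/-- growth conditions on the scale -/
theorem scale_cond (η δ : ℝ) (hη : 0 < η) (hδ : 0 < δ) : ∃ t₀ : ℝ, 1 ≤ t₀ ∧ ∀ M : ℝ, 0 < M → t₀ ≤ M ^ (η / 12) →
    1 ≤ M ∧ 24 / δ ≤ M ^ (η / 100) ∧ ∀ L : ℝ, 0 ≤ L → L ^ 2 ≤ M ^ (η / 12) →
      3 * L * (M ^ (1 - η / 10) * (1 + Real.log M)) ≤ δ / 4 * M ^ (1 - η / 24) := by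
  have e1 : ∀ᶠ t : ℝ in atTop, 24 / δ ≤ t ^ ((12 : ℝ) / 100) := (tendsto_rpow_atTop (by norm_num)).eventually_ge_atTop _
  have e2 : ∀ᶠ t : ℝ in atTop, ‖Real.log t‖ ≤ (δ / 12 / (1 + 12 / η)) * ‖t ^ ((1 : ℝ) / 5)‖ :=
    (isLittleO_log_rpow_atTop (by norm_num : (0 : ℝ) < 1 / 5)).bound (by positivity)
  obtain ⟨t₀, ht₀⟩ := eventually_atTop.1 (e1.and (e2.and (eventually_ge_atTop 3)))
  refine ⟨max t₀ 3, le_trans (by norm_num) (le_max_right _ _), fun M hM htM => ?_⟩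
  obtain ⟨t, ht⟩ : ∃ t, t = M ^ (η / 12) := ⟨_, rfl⟩
  rw [← ht] at htM
  have ht1 : t₀ ≤ t := (le_max_left _ _).trans htM
  have ht3 : 3 ≤ t := (le_max_right _ _).trans htM
  have ht0 : 0 < t := by linarith
  obtain ⟨h1, h2, _⟩ := ht₀ t ht1
  have hM1 : 1 ≤ M := by
    by_contra hcon
    push Not at hcon
    have : M ^ (η / 12) ≤ 1 := Real.rpow_le_one hM.le hcon.le (by positivity)
    rw [← ht] at this
    linarith
  have hlogt : Real.log t = η / 12 * Real.log M := by rw [ht, Real.log_rpow hM]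
  have hlogM : Real.log M = 12 / η * Real.log t := by rw [hlogt]; field_simp
  have hlogt1 : 1 ≤ Real.log t := by
    rw [Real.le_log_iff_exp_le ht0]
    linarith [Real.exp_one_lt_d9]
  refine ⟨hM1, ?_, fun L hL hLM => ?_⟩
  · have h3 : M ^ (η / 100) = t ^ ((12 : ℝ) / 100) := by
      rw [ht, ← Real.rpow_mul hM.le]; congr 1; ring
    rw [h3]; exact h1
  · rw [← ht] at hLM
    rw [Real.norm_of_nonneg (by linarith), Real.norm_of_nonneg (by positivity)] at h2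
    have h3 : 1 + Real.log M ≤ δ / 12 * t ^ ((1 : ℝ) / 5) := by
      rw [hlogM]
      have h4 : (1 + 12 / η) * Real.log t ≤ δ / 12 * t ^ ((1 : ℝ) / 5) := by
        have h5 : 0 < 1 + 12 / η := by positivity
        calc (1 + 12 / η) * Real.log t ≤ (1 + 12 / η) * (δ / 12 / (1 + 12 / η) * t ^ ((1 : ℝ) / 5)) :=
              mul_le_mul_of_nonneg_left h2 h5.le
          _ = _ := by field_simp
      nlinarith
    have h6 : L ≤ t ^ ((1 : ℝ) / 2) := by
      rw [← Real.sqrt_eq_rpow]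
      exact Real.le_sqrt_of_sq_le hLM
    have h7 : M ^ (1 - η / 24) = M ^ (1 - η / 10) * t ^ ((7 : ℝ) / 10) := by
      rw [ht, ← Real.rpow_mul hM.le, ← Real.rpow_add hM]; congr 1; ring
    rw [h7]
    have h8 : t ^ ((1 : ℝ) / 2) * t ^ ((1 : ℝ) / 5) = t ^ ((7 : ℝ) / 10) := by
      rw [← Real.rpow_add ht0]; norm_num
    have h9 : 0 < M ^ (1 - η / 10) := by positivity
    have h10 : 0 < t ^ ((1 : ℝ) / 2) := by positivity
    have h11 : 0 < t ^ ((1 : ℝ) / 5) := by positivity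
    calc 3 * L * (M ^ (1 - η / 10) * (1 + Real.log M))
        ≤ 3 * t ^ ((1 : ℝ) / 2) * (M ^ (1 - η / 10) * (δ / 12 * t ^ ((1 : ℝ) / 5))) := by
          have h12 : 0 ≤ 1 + Real.log M := by linarith [Real.log_nonneg hM1]
          gcongr
      _ = δ / 4 * (M ^ (1 - η / 10) * (t ^ ((1 : ℝ) / 2) * t ^ ((1 : ℝ) / 5))) := by ring
      _ = _ := by rw [h8]

end Pool.Agent.J4H33.LF
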