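import Pool.Agent.J4H33.LF

/-!
# Dilates by integers with a large prime factor: the main theorem
-/

set_option autoImplicit false

namespace Pool.Agent.J4H33.LF

open Finset Filter
open Pool.Agent.Results.MP_711652_nt.SparseDilates (density)

/-- the decomposition `a = q b` with a large prime `q` -/
theorem decomp (M η : ℝ) (A : Finset ℕ) (hA : ∀ a ∈ A, 0 < a ∧ ∃ q : ℕ, q.Prime ∧ q ∣ a ∧ M ^ η ≤ q) :
    ∃ (B : Finset ℕ) (F : ℕ → Finset ℕ), (∀ b ∈ B, 0 < b) ∧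
      (∀ b ∈ B, ∀ q ∈ F b, q.Prime ∧ M ^ η ≤ q ∧ q * b ∈ A) ∧ (∀ b ∈ B, (F b).Nonempty) ∧
      (∀ f : ℕ → ℝ, ∑ a ∈ A, f a = ∑ b ∈ B, ∑ q ∈ F b, f (q * b)) := by
  classical
  choose! q hq1 hq2 hq3 using fun a (ha : a ∈ A) => (hA a ha).2
  have hmul : ∀ a ∈ A, q a * (a / q a) = a := fun a ha => Nat.mul_div_cancel' (hq2 a ha)
  refine ⟨A.image (fun a => a / q a), fun b => (A.filter (fun a => a / q a = b)).image q, ?_, ?_, ?_, ?_⟩
  · intro b hb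
    obtain ⟨a, ha, rfl⟩ := mem_image.1 hb
    have h1 := hmul a ha
    rcases Nat.eq_zero_or_pos (a / q a) with h | h
    · rw [h, mul_zero] at h1
      exact absurd h1.symm (hA a ha).1.ne'
    · exact h
  · intro b _ p hp
    obtain ⟨a, ha, rfl⟩ := mem_image.1 hp
    rw [mem_filter] at ha
    obtain ⟨ha, hb⟩ := ha
    refine ⟨hq1 a ha, hq3 a ha, ?_⟩
    rw [← hb, hmul a ha]
    exact ha
  · intro b hb
    obtain ⟨a, ha, rfl⟩ := mem_image.1 hb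
    exact ⟨q a, mem_image.2 ⟨a, mem_filter.2 ⟨ha, rfl⟩, rfl⟩⟩
  · intro f
    rw [← sum_fiberwise_of_maps_to (t := A.image (fun a => a / q a)) (g := fun a => a / q a)
      (fun a ha => mem_image_of_mem _ ha)]
    apply sum_congr rfl
    intro b _
    rw [sum_image]
    · apply sum_congr rfl
      intro a ha
      rw [mem_filter] at ha
      rw [← ha.2, hmul a ha.1]
    · intro a ha a' ha' h
      have ha := mem_filter.1 (mem_coe.1 ha)
      have ha' := mem_filter.1 (mem_coe.1 ha')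
      rw [← hmul a ha.1, ← hmul a' ha'.1, ha.2, ha'.2, h]

theorem largeFactor (θ₁ ρ β δ η : ℝ) (hθ₁ : 0 < θ₁) (hθ₁' : θ₁ < 1) (hρ : 0 < ρ) (hβ : 0 < β) (hδ : 0 < δ) (hδ1 : δ ≤ 1)
    (hη : 0 < η) :
    ∃ s H₁ X₀ : ℝ, 0 < s ∧ 1 ≤ H₁ ∧ ∀ X : ℝ, X₀ ≤ X → ∀ M D H₀ : ℝ, 1 ≤ D → D ≤ X ^ s → H₁ ≤ H₀ →
      D * Real.log X ^ 2 * max 1 (Real.log X / H₀) ≤ M ^ (η / 12) → 0 < M → M ≤ X ^ θ₁ →
      ∀ A : Finset ℕ, (∀ a ∈ A, β * M ≤ (a : ℝ) ∧ (a : ℝ) ≤ M ∧ ∃ q : ℕ, q.Prime ∧ q ∣ a ∧ M ^ η ≤ q) →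
      M ^ (1 - η / 24) ≤ (A.card : ℝ) →
      ∃ U : Finset ℝ, (U.card : ℝ) ≤ X / (H₀ * D) ∧ ∀ y : ℝ, 0 < y → y ≤ X / M →
        (∀ u ∈ U, ¬ (u ≤ y ∧ y ≤ u + H₀ / M)) →
        ∀ H : ℝ, H₀ ≤ H → H ≤ X ^ (1 - ρ) →
          |∑ a ∈ A, density H (a * y) - A.card| ≤ δ * A.card := by
  classical
  obtain ⟨s', H₁', X₀', hs', hmain⟩ := Pool.Agent.Results.MP_711652_nt.SparseDilates.result (1 / 12 + 1 / 100) (1 / 10) θ₁ ρ β
    (δ / 4) (by norm_num) (by norm_num) hθ₁ hθ₁' (by nlinarith) hρ hβ (by positivity)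
  obtain ⟨t₀, ht₀1, ht₀⟩ := scale_cond η δ hη hδ
  have e1 : ∀ᶠ X : ℝ in atTop, t₀ ≤ Real.log X := Real.tendsto_log_atTop.eventually_ge_atTop _
  have e2 : ∀ᶠ X : ℝ in atTop, ‖Real.log X‖ ≤ (δ / 24) * ‖X ^ (s' / 2)‖ :=
    (isLittleO_log_rpow_atTop (by positivity : 0 < s' / 2)).bound (by positivity)
  obtain ⟨X₁, hX₁⟩ := eventually_atTop.1 (e1.and (e2.and (eventually_ge_atTop 3)))
  refine ⟨s' / 2, max 1 H₁', max X₀' X₁, by positivity, le_max_left _ _, fun X hX M D H₀ hD1 hDs hH₀ hM hM0 hMX A hA1 hA2 => ?_⟩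
  obtain ⟨hx1, hx2, hx3⟩ := hX₁ X ((le_max_right _ _).trans hX)
  have hXX₀ : X₀' ≤ X := (le_max_left _ _).trans hX
  have hX0 : 0 < X := by linarith
  have hX1 : 1 ≤ X := by linarith
  have hH₀1 : 1 ≤ H₀ := (le_max_left _ _).trans hH₀
  have hH₀0 : 0 < H₀ := by linarith
  have hH₀' : H₁' ≤ H₀ := (le_max_right _ _).trans hH₀
  have hD0 : 0 < D := by linarith
  obtain ⟨L, hL⟩ : ∃ L, L = Real.log X := ⟨_, rfl⟩
  rw [← hL] at hx1 hx2 hM
  have hL1 : 1 ≤ L := ht₀1.trans hx1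
  have hL0 : 0 < L := by linarith
  obtain ⟨R, hR⟩ : ∃ R, R = max 1 (L / H₀) := ⟨_, rfl⟩
  have hR1 : 1 ≤ R := by rw [hR]; exact le_max_left _ _
  rw [← hR] at hM
  have hLsq : L ^ 2 ≤ M ^ (η / 12) := by
    refine le_trans ?_ hM
    have h1 : L ^ 2 ≤ D * L ^ 2 := le_mul_of_one_le_left (by positivity) hD1
    exact h1.trans (le_mul_of_one_le_right (by positivity) hR1)
  have htM : t₀ ≤ M ^ (η / 12) := by
    exact hx1.trans ((le_self_pow₀ hL1 (by norm_num)).trans hLsq)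
  obtain ⟨hM1, hM24, hMR⟩ := ht₀ M hM0 htM
  have hMRL := hMR L hL0.le hLsq
  rw [Real.norm_of_nonneg hL0.le, Real.norm_of_nonneg (by positivity)] at hx2
  obtain ⟨D₂, hD₂⟩ : ∃ D₂, D₂ = D * (24 * L / δ) := ⟨_, rfl⟩
  have h24 : 1 ≤ 24 * L / δ := by
    rw [le_div_iff₀ hδ]; linarith
  have hD₂1 : 1 ≤ D₂ := by rw [hD₂]; exact one_le_mul_of_one_le_of_one_le hD1 h24
  have hD₂0 : 0 < D₂ := by linarith
  have hD₂s : D₂ ≤ X ^ s' := by
    have h1 : 24 * L / δ ≤ X ^ (s' / 2) := by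
      rw [div_le_iff₀ hδ]; linarith
    calc D₂ = D * (24 * L / δ) := hD₂
      _ ≤ X ^ (s' / 2) * X ^ (s' / 2) := mul_le_mul hDs h1 (by positivity) (by positivity)
      _ = X ^ s' := by rw [← Real.rpow_add hX0]; congr 1; ring
  -- decomposition
  have hApos : ∀ a ∈ A, 0 < a ∧ ∃ q : ℕ, q.Prime ∧ q ∣ a ∧ M ^ η ≤ q := by
    intro a ha
    obtain ⟨h1, _, h3⟩ := hA1 a ha
    refine ⟨?_, h3⟩
    have h4 : (0 : ℝ) < a := lt_of_lt_of_le (by positivity) h1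
    exact_mod_cast h4
  obtain ⟨B, F, hB0, hF, hFne, hsum⟩ := decomp M η A hApos
  have hMη : 0 < M ^ η := by positivity
  have hQ : ∀ b ∈ B, 0 < (b : ℝ) ∧ M ^ η ≤ M / b ∧ M / b ≤ M := by
    intro b hb
    have hb0 : (0 : ℝ) < b := by exact_mod_cast hB0 b hb
    obtain ⟨q, hq⟩ := hFne b hb
    obtain ⟨_, h2, h3⟩ := hF b hb q hq
    have h4 := (hA1 _ h3).2.1
    push_cast at h4
    refine ⟨hb0, ?_, ?_⟩
    · rw [le_div_iff₀ hb0]
      exact (mul_le_mul_of_nonneg_right h2 hb0.le).trans h4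
    · apply div_le_self hM0.le
      exact_mod_cast hB0 b hb
  have hcardA : (A.card : ℝ) = ∑ b ∈ B, ((F b).card : ℝ) := by
    have h1 := hsum (fun _ => 1)
    simpa using h1
  -- the good fibres
  obtain ⟨G, hG⟩ : ∃ G : Finset ℕ, G = B.filter (fun b : ℕ => (M / (b : ℝ)) ^ ((1 : ℝ) - 1 / 10) ≤ ((F b).card : ℝ)) := ⟨_, rfl⟩
  have hGB : G ⊆ B := by rw [hG]; exact filter_subset _ _
  have hbad : ∑ b ∈ B \ G, ((F b).card : ℝ) ≤ M ^ (1 - η / 10) * (1 + Real.log M) := by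
    refine le_trans ?_ (small_fibres M η hM1 hη.le (B \ G) (fun b hb => ?_))
    · apply sum_le_sum
      intro b hb
      rw [Finset.mem_sdiff, hG, mem_filter] at hb
      have h1 : ¬ (M / (b : ℝ)) ^ ((1 : ℝ) - 1 / 10) ≤ ((F b).card : ℝ) := fun h => hb.2 ⟨hb.1, h⟩
      exact (not_le.1 h1).le
    · have hb' : b ∈ B := (Finset.mem_sdiff.1 hb).1
      exact ⟨hB0 b hb', (hQ b hb').2.1⟩
  have hU : ∀ b ∈ G, ∃ U : Finset ℝ, (U.card : ℝ) ≤ X / (H₀ * D₂) ∧ ∀ y : ℝ, 0 < y → y ≤ X / (M / b) →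
        (∀ u ∈ U, ¬ (u ≤ y ∧ y ≤ u + H₀ / (M / b))) →
        ∀ H : ℝ, H₀ ≤ H → H ≤ X ^ (1 - ρ) →
          |∑ a ∈ F b, density H (a * y) - (F b).card| ≤ δ / 4 * (F b).card := by
    intro b hb
    have hbB := hGB hb
    rw [hG, mem_filter] at hb
    obtain ⟨hb0, hQ1, hQ2⟩ := hQ b hbB
    have hQ0 : 0 < M / b := by positivity
    apply hmain X hXX₀ (M / b) D₂ H₀ hD₂1 hD₂s hH₀' _ hQ0 (hQ2.trans hMX) (F b) _ hb.2
    · rw [← hL, ← hR]
      have h1 : D₂ * L * R = (24 / δ) * (D * L ^ 2 * R) := by rw [hD₂]; field_simp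
      rw [h1]
      have h2 : (M ^ η) ^ ((1 : ℝ) / 12 + 1 / 100) ≤ (M / b) ^ ((1 : ℝ) / 12 + 1 / 100) :=
        Real.rpow_le_rpow hMη.le hQ1 (by norm_num)
      refine le_trans ?_ h2
      have h3 : (M ^ η) ^ ((1 : ℝ) / 12 + 1 / 100) = M ^ (η / 100) * M ^ (η / 12) := by
        rw [← Real.rpow_mul hM0.le, ← Real.rpow_add hM0]; congr 1; ring
      rw [h3]
      exact mul_le_mul hM24 hM (by positivity) (by positivity)
    · intro q hq
      obtain ⟨h1, h2, h3⟩ := hF b hbB q hq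
      obtain ⟨h4, h5, _⟩ := hA1 _ h3
      push_cast at h4 h5
      refine ⟨h1, ?_, ?_⟩
      · rw [← mul_div_assoc, div_le_iff₀ hb0]; exact h4
      · rw [le_div_iff₀ hb0]; exact h5
  choose! U hU1 hU2 using hU
  obtain ⟨W, hW⟩ : ∃ W, W = ∑ b ∈ G, ((F b).card : ℝ) := ⟨_, rfl⟩
  have hWA : W ≤ A.card := by
    rw [hW, hcardA]
    exact sum_le_sum_of_subset_of_nonneg hGB (fun _ _ _ => Nat.cast_nonneg _)
  have hcardA0 : (0 : ℝ) < A.card := lt_of_lt_of_le (by positivity) hA2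
  have hrest : 3 * L * ∑ b ∈ B \ G, ((F b).card : ℝ) ≤ δ / 4 * A.card := by
    calc 3 * L * ∑ b ∈ B \ G, ((F b).card : ℝ) ≤ 3 * L * (M ^ (1 - η / 10) * (1 + Real.log M)) :=
          mul_le_mul_of_nonneg_left hbad (by positivity)
      _ ≤ δ / 4 * M ^ (1 - η / 24) := hMRL
      _ ≤ _ := mul_le_mul_of_nonneg_left hA2 (by positivity)
  have hWpos : 0 < W := by
    have h1 : (A.card : ℝ) = W + ∑ b ∈ B \ G, ((F b).card : ℝ) := by
      rw [hcardA, hW, add_comm, sum_sdiff hGB]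
    have h2 : 0 ≤ ∑ b ∈ B \ G, ((F b).card : ℝ) := sum_nonneg (fun _ _ => Nat.cast_nonneg _)
    have h3 : ∑ b ∈ B \ G, ((F b).card : ℝ) ≤ 3 * L * ∑ b ∈ B \ G, ((F b).card : ℝ) :=
      le_mul_of_one_le_left h2 (by linarith only [hL1])
    have h4 : δ / 4 * (A.card : ℝ) ≤ 1 / 4 * A.card := mul_le_mul_of_nonneg_right (by linarith only [hδ1]) hcardA0.le
    linarith only [h1, h2, h3, h4, hrest, hcardA0]
  have hℓ : 0 < H₀ / M := by positivity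
  obtain ⟨κ, hκ⟩ : ∃ κ, κ = δ / (12 * L) := ⟨_, rfl⟩
  have hκ0 : 0 < κ := by rw [hκ]; positivity
  obtain ⟨V, hV1, hV2⟩ := Pool.Agent.J4H33.Fac.weighted_union G (fun b hb => hB0 b (hGB hb)) (fun b => ((F b).card : ℝ))
    (fun _ _ => Nat.cast_nonneg _) U (H₀ / M) (X / (H₀ * D₂)) κ hℓ hκ0 hU1 (by rw [← hW]; exact hWpos)
  rw [← hW] at hV2
  refine ⟨V, hV1.trans (le_of_eq ?_), fun y hy0 hy1 hyV H hH1 hH2 => ?_⟩
  · rw [hκ, hD₂]
    field_simp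
    ring
  have hbound := hV2 y hyV
  obtain ⟨E, hE⟩ : ∃ E : Finset ℕ, E = G.filter (fun b : ℕ => ∃ u ∈ U b, u ≤ (b : ℝ) * y ∧ (b : ℝ) * y ≤ u + b * (H₀ / M)) := ⟨_, rfl⟩
  have hE' : ∑ b ∈ E, ((F b).card : ℝ) ≤ κ * W := by rw [hE]; convert hbound
  have hEG : E ⊆ G := by rw [hE]; exact filter_subset _ _
  have hHge1 : 1 ≤ H := hH₀1.trans hH1
  obtain ⟨g, hg⟩ : ∃ g : ℕ → ℝ, g = fun b => ∑ q ∈ F b, density H (q * (b * y)) - ((F b).card : ℝ) := ⟨_, rfl⟩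
  have hgood : ∀ b ∈ G \ E, |g b| ≤ δ / 4 * ((F b).card : ℝ) := by
    intro b hb
    rw [Finset.mem_sdiff] at hb
    obtain ⟨hbG, hbE⟩ := hb
    obtain ⟨hb0, _, _⟩ := hQ b (hGB hbG)
    rw [hg]
    have hMb : X / (M / b) = b * (X / M) := by field_simp
    have hMb' : H₀ / (M / b) = b * (H₀ / M) := by field_simp
    apply hU2 b hbG (b * y) (by positivity) (by rw [hMb]; exact mul_le_mul_of_nonneg_left hy1 hb0.le) _ H hH1 hH2
    intro u hu h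
    apply hbE
    rw [hE, mem_filter]
    exact ⟨hbG, u, hu, h.1, by rw [hMb'] at h; exact h.2⟩
  have htriv : ∀ b ∈ B, |g b| ≤ 3 * L * ((F b).card : ℝ) := by
    intro b hb
    rw [hg]
    have hdens : ∀ q ∈ F b, 0 ≤ density H (q * (b * y)) ∧ density H (q * (b * y)) ≤ 2 * L := by
      intro q hq
      refine ⟨density_nonneg _ _ (by linarith), ?_⟩
      rw [hL]
      apply density_le _ _ _ hHge1 _ hX1
      obtain ⟨_, _, h3⟩ := hF b hb q hq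
      have h4 := (hA1 _ h3).2.1
      push_cast at h4
      calc (q : ℝ) * (b * y) = q * b * y := by ring
        _ ≤ M * (X / M) := mul_le_mul h4 hy1 hy0.le hM0.le
        _ = X := by field_simp
    have h1 : 0 ≤ ∑ q ∈ F b, density H (q * (b * y)) := sum_nonneg (fun q hq => (hdens q hq).1)
    have h2 : ∑ q ∈ F b, density H (q * (b * y)) ≤ 2 * L * ((F b).card : ℝ) := by
      calc ∑ q ∈ F b, density H (q * (b * y)) ≤ ∑ _q ∈ F b, 2 * L := sum_le_sum (fun q hq => (hdens q hq).2)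
        _ = _ := by rw [sum_const, nsmul_eq_mul]; ring
    have h3 : (0 : ℝ) ≤ ((F b).card : ℝ) := Nat.cast_nonneg _
    have h5 : ((F b).card : ℝ) ≤ L * ((F b).card : ℝ) := le_mul_of_one_le_left h3 hL1
    rw [abs_le]
    constructor
    · linarith only [h1, h3, h5]
    · linarith only [h2, h3, h5]
  have hdiff : ∑ a ∈ A, density H (a * y) - A.card = ∑ b ∈ B, g b := by
    rw [hsum (fun a => density H (a * y)), hcardA, ← sum_sub_distrib]
    apply sum_congr rfl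
    intro b _
    rw [hg]
    congr 1
    apply sum_congr rfl
    intro q _
    congr 1
    push_cast
    ring
  rw [hdiff]
  have hsplit : ∑ b ∈ B, |g b| = ∑ b ∈ G \ E, |g b| + ∑ b ∈ E, |g b| + ∑ b ∈ B \ G, |g b| := by
    rw [← sum_sdiff hGB, ← sum_sdiff hEG]
    ring
  calc |∑ b ∈ B, g b| ≤ ∑ b ∈ B, |g b| := abs_sum_le_sum_abs _ _
    _ = ∑ b ∈ G \ E, |g b| + ∑ b ∈ E, |g b| + ∑ b ∈ B \ G, |g b| := hsplit
    _ ≤ δ / 4 * A.card + δ / 4 * A.card + δ / 4 * A.card := by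
        refine add_le_add (add_le_add ?_ ?_) ?_
        · calc ∑ b ∈ G \ E, |g b| ≤ ∑ b ∈ G \ E, δ / 4 * ((F b).card : ℝ) := sum_le_sum hgood
            _ = δ / 4 * ∑ b ∈ G \ E, ((F b).card : ℝ) := by rw [mul_sum]
            _ ≤ δ / 4 * W := by
                refine mul_le_mul_of_nonneg_left ?_ (by positivity)
                rw [hW]
                exact sum_le_sum_of_subset_of_nonneg sdiff_subset (fun _ _ _ => Nat.cast_nonneg _)
            _ ≤ _ := mul_le_mul_of_nonneg_left hWA (by positivity)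
        · calc ∑ b ∈ E, |g b| ≤ ∑ b ∈ E, 3 * L * ((F b).card : ℝ) := sum_le_sum (fun b hb => htriv b (hGB (hEG hb)))
            _ = 3 * L * ∑ b ∈ E, ((F b).card : ℝ) := by rw [mul_sum]
            _ ≤ 3 * L * (κ * W) := mul_le_mul_of_nonneg_left hE' (by positivity)
            _ = δ / 4 * W := by rw [hκ]; field_simp; ring
            _ ≤ _ := mul_le_mul_of_nonneg_left hWA (by positivity)
        · calc ∑ b ∈ B \ G, |g b| ≤ ∑ b ∈ B \ G, 3 * L * ((F b).card : ℝ) :=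
                sum_le_sum (fun b hb => htriv b (Finset.mem_sdiff.1 hb).1)
            _ = 3 * L * ∑ b ∈ B \ G, ((F b).card : ℝ) := by rw [mul_sum]
            _ ≤ _ := hrest
    _ ≤ δ * A.card := by
        have h1 : 0 ≤ δ * (A.card : ℝ) := by positivity
        linarith only [h1]

end Pool.Agent.J4H33.LF
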