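import Pool.Agent.Helper112.Lp.MertensLog

/-!
# Few integers have only small prime factors
-/

set_option autoImplicit false

namespace Pool.Agent.J4H33.SmB

open Finset

theorem log_eq (a Z : ℕ) (ha : 0 < a) (h : ∀ p : ℕ, p.Prime → p ∣ a → p ≤ Z) :
    Real.log a = ∑ p ∈ (Icc 1 Z).filter Nat.Prime, (a.factorization p : ℝ) * Real.log p := by
  have h1 : (a : ℝ) = ∏ p ∈ a.primeFactors, (p : ℝ) ^ (a.factorization p) := by
    have h2 := Nat.prod_factorization_pow_eq_self ha.ne'
    rw [Finsupp.prod, Nat.support_factorization] at h2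
    exact_mod_cast h2.symm
  have h3 : Real.log a = ∑ p ∈ a.primeFactors, (a.factorization p : ℝ) * Real.log p := by
    conv_lhs => rw [h1]
    rw [Real.log_prod]
    · apply sum_congr rfl
      intro p _
      rw [Real.log_pow]
    · intro p hp
      have : (p : ℝ) ≠ 0 := by exact_mod_cast (Nat.prime_of_mem_primeFactors hp).ne_zero
      positivity
  rw [h3]
  apply sum_subset
  · intro p hp
    have hpp := Nat.prime_of_mem_primeFactors hp
    rw [mem_filter, mem_Icc]
    exact ⟨⟨hpp.one_le, h p hpp (Nat.dvd_of_mem_primeFactors hp)⟩, hpp⟩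
  · intro p _ hp
    have : a.factorization p = 0 := by
      rw [← Finsupp.notMem_support_iff, Nat.support_factorization]
      exact hp
    rw [this]
    simp

theorem sum_factorization (N p : ℕ) (hp : p.Prime) : ∑ a ∈ Icc 1 N, (a.factorization p : ℝ) ≤ N / ((p : ℝ) - 1) := by
  have h1 : (N.factorial).factorization p = ∑ a ∈ Icc 1 N, a.factorization p := by
    have h0 : ∑ a ∈ Icc 1 N, a.factorization p = ∑ i ∈ range N, (i + 1).factorization p := by
      symm
      apply sum_bij (fun i _ => i + 1)
      · intro i hi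
        rw [mem_range] at hi
        rw [mem_Icc]
        omega
      · intro i _ j _ h
        omega
      · intro a ha
        rw [mem_Icc] at ha
        exact ⟨a - 1, by rw [mem_range]; omega, by omega⟩
      · intro i _
        rfl
    rw [h0, ← Finset.prod_range_add_one_eq_factorial, Nat.factorization_prod]
    · rw [Finset.sum_apply']
    · intro a _
      omega
  have h2 : (p - 1) * (N.factorial).factorization p ≤ N := by
    have := Fact.mk hp
    rw [Nat.factorization_def _ hp, sub_one_mul_padicValNat_factorial]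
    exact Nat.sub_le _ _
  have hp1 : (0 : ℝ) < (p : ℝ) - 1 := by
    have : (2 : ℝ) ≤ p := by exact_mod_cast hp.two_le
    linarith
  rw [le_div_iff₀ hp1]
  have h3 : (((p - 1) * (N.factorial).factorization p : ℕ) : ℝ) ≤ N := by exact_mod_cast h2
  rw [h1] at h3
  push_cast [Nat.cast_sub hp.one_le] at h3
  linarith

theorem smooth : ∃ C : ℝ, 0 < C ∧ ∀ (N Z : ℕ) (S : Finset ℕ), 1 ≤ Z → S ⊆ Icc 1 N →
    (∀ a ∈ S, ∀ p : ℕ, p.Prime → p ∣ a → p ≤ Z) → ∑ a ∈ S, Real.log a ≤ N * (2 * Real.log Z + C) := by
  obtain ⟨C, hC0, hC⟩ := Pool.Agent.Helper112.LP.mertens_log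
  refine ⟨2 * C, by positivity, fun N Z S hZ hS h => ?_⟩
  calc ∑ a ∈ S, Real.log a = ∑ a ∈ S, ∑ p ∈ (Icc 1 Z).filter Nat.Prime, (a.factorization p : ℝ) * Real.log p := by
        apply sum_congr rfl
        intro a ha
        exact log_eq a Z (by have := mem_Icc.1 (hS ha); omega) (h a ha)
    _ ≤ ∑ a ∈ Icc 1 N, ∑ p ∈ (Icc 1 Z).filter Nat.Prime, (a.factorization p : ℝ) * Real.log p := by
        apply sum_le_sum_of_subset_of_nonneg hS
        intro a _ _
        apply sum_nonneg
        intro p hp
        have hp1 := (mem_filter.1 hp).2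
        have : 0 ≤ Real.log p := Real.log_nonneg (by exact_mod_cast hp1.one_le)
        positivity
    _ = ∑ p ∈ (Icc 1 Z).filter Nat.Prime, (∑ a ∈ Icc 1 N, (a.factorization p : ℝ)) * Real.log p := by
        rw [sum_comm]
        apply sum_congr rfl
        intro p _
        rw [sum_mul]
    _ ≤ ∑ p ∈ (Icc 1 Z).filter Nat.Prime, 2 * N * (Real.log p / p) := by
        apply sum_le_sum
        intro p hp
        have hp1 := (mem_filter.1 hp).2
        have h0 : 0 ≤ Real.log p := Real.log_nonneg (by exact_mod_cast hp1.one_le)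
        have h2 : (2 : ℝ) ≤ p := by exact_mod_cast hp1.two_le
        have h3 : (N : ℝ) / ((p : ℝ) - 1) ≤ 2 * N / p := by
          rw [div_le_div_iff₀ (by linarith) (by linarith)]
          have : (0 : ℝ) ≤ N := Nat.cast_nonneg N
          nlinarith
        calc (∑ a ∈ Icc 1 N, (a.factorization p : ℝ)) * Real.log p ≤ 2 * N / p * Real.log p :=
              mul_le_mul_of_nonneg_right ((sum_factorization N p hp1).trans h3) h0
          _ = _ := by ring
    _ = 2 * N * ∑ p ∈ (Icc 1 Z).filter Nat.Prime, (Real.log p / p) := by rw [mul_sum]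
    _ ≤ 2 * N * (Real.log Z + C) := by
        have h4 := (abs_le.1 (hC Z hZ)).2
        exact mul_le_mul_of_nonneg_left (by linarith) (by positivity)
    _ = _ := by ring

end Pool.Agent.J4H33.SmB
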