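import Pool.Agent.J4H33.LF2
import Pool.Agent.J4H33.SmB

/-!
# Dilates by arbitrary dense sets of integers
-/

set_option autoImplicit false

namespace Pool.Agent.J4H33.LF

open Finset Filter
open Pool.Agent.Results.MP_711652_nt.SparseDilates (density)

theorem dense_scale (α δ η : ℝ) (hα : 0 < α) (hδ : 0 < δ) (hη : η = α * δ / 32) :
    ∃ M₀ : ℝ, 1 ≤ M₀ ∧ ∀ M : ℝ, M₀ ≤ M → 2 / α ≤ M ^ (η / 24) ∧
      ∀ S : Finset ℕ, (∀ a ∈ S, α * δ / 4 * M ≤ (a : ℝ) ∧ (a : ℝ) ≤ M ∧ ∀ q : ℕ, q.Prime → q ∣ a → (q : ℝ) < M ^ η) →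
        (S.card : ℝ) ≤ α * δ / 4 * M := by
  have hη0 : 0 < η := by rw [hη]; positivity
  obtain ⟨C, hC0, hC⟩ := Pool.Agent.J4H33.SmB.smooth
  have e1 : ∀ᶠ M : ℝ in atTop, 2 / α ≤ M ^ (η / 24) := (tendsto_rpow_atTop (by positivity)).eventually_ge_atTop _
  have e2 : ∀ᶠ M : ℝ in atTop, (C + α * δ / 4 * |Real.log (α * δ / 4)| + 1) / (α * δ / 8) ≤ Real.log M :=
    Real.tendsto_log_atTop.eventually_ge_atTop _
  obtain ⟨M₀, hM₀⟩ := eventually_atTop.1 (e1.and e2)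
  refine ⟨max 1 M₀, le_max_left _ _, fun M hM => ?_⟩
  obtain ⟨h1, h2⟩ := hM₀ M ((le_max_right _ _).trans hM)
  have hM1 : 1 ≤ M := (le_max_left _ _).trans hM
  have hM0 : 0 < M := by linarith
  refine ⟨h1, fun S hS => ?_⟩
  have hαδ : 0 < α * δ / 4 := by positivity
  rw [div_le_iff₀ (by positivity)] at h2
  have hlogM : 0 ≤ Real.log M := Real.log_nonneg hM1
  have habs := neg_abs_le (Real.log (α * δ / 4))
  have hlogβ : Real.log (α * δ / 4 * M) = Real.log (α * δ / 4) + Real.log M := Real.log_mul hαδ.ne' hM0.ne'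
  have hMη : 1 ≤ M ^ η := Real.one_le_rpow hM1 hη0.le
  have hpos : ∀ a ∈ S, 0 < a := by
    intro a ha
    have h3 : (0 : ℝ) < a := lt_of_lt_of_le (by positivity) (hS a ha).1
    exact_mod_cast h3
  have h3 := hC ⌊M⌋₊ ⌊M ^ η⌋₊ S ((Nat.one_le_floor_iff _).2 hMη) (fun a ha => by
    rw [mem_Icc]
    exact ⟨hpos a ha, Nat.le_floor (hS a ha).2.1⟩) (fun a ha p hp hpa => Nat.le_floor ((hS a ha).2.2 p hp hpa).le)
  have h4 : Real.log ((⌊M ^ η⌋₊ : ℕ) : ℝ) ≤ η * Real.log M := by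
    rw [← Real.log_rpow hM0]
    apply Real.log_le_log
    · have : 1 ≤ ⌊M ^ η⌋₊ := (Nat.one_le_floor_iff _).2 hMη
      exact_mod_cast this
    · exact Nat.floor_le (by positivity)
  have h5 : (S.card : ℝ) * Real.log (α * δ / 4 * M) ≤ ∑ a ∈ S, Real.log a := by
    rw [← nsmul_eq_mul, ← sum_const]
    apply sum_le_sum
    intro a ha
    exact Real.log_le_log (by positivity) (hS a ha).1
  have h6 : ((⌊M⌋₊ : ℕ) : ℝ) * (2 * Real.log ((⌊M ^ η⌋₊ : ℕ) : ℝ) + C) ≤ M * (2 * (η * Real.log M) + C) := by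
    have h7 : ((⌊M⌋₊ : ℕ) : ℝ) ≤ M := Nat.floor_le hM0.le
    have h8 : 0 ≤ Real.log ((⌊M ^ η⌋₊ : ℕ) : ℝ) := by
      apply Real.log_nonneg
      have : 1 ≤ ⌊M ^ η⌋₊ := (Nat.one_le_floor_iff _).2 hMη
      exact_mod_cast this
    exact mul_le_mul h7 (by linarith) (by positivity) hM0.le
  have h7 : (S.card : ℝ) * Real.log (α * δ / 4 * M) ≤ M * (2 * (η * Real.log M) + C) := h5.trans (h3.trans h6)
  have h8 : 2 * (η * Real.log M) + C ≤ α * δ / 4 * Real.log (α * δ / 4 * M) := by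
    rw [hlogβ, hη]
    have h9 : α * δ / 4 * (-|Real.log (α * δ / 4)|) ≤ α * δ / 4 * Real.log (α * δ / 4) :=
      mul_le_mul_of_nonneg_left habs hαδ.le
    nlinarith
  have h10 : 0 < Real.log (α * δ / 4 * M) := by
    have h11 : 0 < α * δ / 4 * Real.log (α * δ / 4 * M) := by
      refine lt_of_lt_of_le ?_ h8
      have : 0 ≤ η * Real.log M := by positivity
      linarith
    exact (mul_pos_iff_of_pos_left hαδ).1 h11
  have h12 : (S.card : ℝ) * Real.log (α * δ / 4 * M) ≤ α * δ / 4 * M * Real.log (α * δ / 4 * M) := by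
    refine h7.trans ?_
    calc M * (2 * (η * Real.log M) + C) ≤ M * (α * δ / 4 * Real.log (α * δ / 4 * M)) := mul_le_mul_of_nonneg_left h8 hM0.le
      _ = _ := by ring
  exact le_of_mul_le_mul_right h12 h10

theorem dense (θ₁ ρ α δ : ℝ) (hθ₁ : 0 < θ₁) (hθ₁' : θ₁ < 1) (hρ : 0 < ρ) (hα : 0 < α) (hδ : 0 < δ) (hδ1 : δ ≤ 1) :
    ∃ c s H₁ X₀ : ℝ, 0 < c ∧ 0 < s ∧ ∀ X : ℝ, X₀ ≤ X → ∀ M D H₀ : ℝ, 1 ≤ D → D ≤ X ^ s → H₁ ≤ H₀ →
      D * Real.log X ^ 2 * max 1 (Real.log X / H₀) ≤ M ^ c → 0 < M → M ≤ X ^ θ₁ →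
      ∀ A : Finset ℕ, (∀ a ∈ A, 1 ≤ a ∧ (a : ℝ) ≤ M) → α * M ≤ (A.card : ℝ) →
      ∃ U : Finset ℝ, (U.card : ℝ) ≤ X / (H₀ * D) ∧ ∀ y : ℝ, 0 < y → y ≤ X / M →
        (∀ u ∈ U, ¬ (u ≤ y ∧ y ≤ u + H₀ / M)) →
        ∀ H : ℝ, H₀ ≤ H → H ≤ X ^ (1 - ρ) → (1 - δ) * A.card ≤ ∑ a ∈ A, density H (a * y) := by
  classical
  obtain ⟨η, hη⟩ : ∃ η, η = α * δ / 32 := ⟨_, rfl⟩
  have hη0 : 0 < η := by rw [hη]; positivity
  obtain ⟨M₀, hM₀1, hM₀⟩ := dense_scale α δ η hα hδ hη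
  obtain ⟨s, H₁, X₀, hs, hH₁, hmain⟩ := largeFactor θ₁ ρ (α * δ / 4) (δ / 2) η hθ₁ hθ₁' hρ (by positivity) (by positivity)
    (by linarith) hη0
  have e1 : ∀ᶠ X : ℝ in atTop, max 1 (M₀ ^ (η / 12)) ≤ Real.log X := Real.tendsto_log_atTop.eventually_ge_atTop _
  obtain ⟨X₁, hX₁⟩ := eventually_atTop.1 e1
  refine ⟨η / 12, s, H₁, max X₀ X₁, by positivity, hs, fun X hX M D H₀ hD1 hDs hH₀ hM hM0 hMX A hA1 hA2 => ?_⟩
  have hx1 := hX₁ X ((le_max_right _ _).trans hX)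
  have hL1 : 1 ≤ Real.log X := (le_max_left _ _).trans hx1
  have hL2 : M₀ ^ (η / 12) ≤ Real.log X := (le_max_right _ _).trans hx1
  have hMge : M₀ ≤ M := by
    by_contra hcon
    push Not at hcon
    have h1 : M ^ (η / 12) < M₀ ^ (η / 12) := Real.rpow_lt_rpow hM0.le hcon (by positivity)
    have h2 : Real.log X ≤ M ^ (η / 12) := by
      refine le_trans ?_ hM
      have h3 : Real.log X ≤ D * Real.log X ^ 2 := by nlinarith
      exact h3.trans (le_mul_of_one_le_right (by positivity) (le_max_left _ _))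
    linarith
  obtain ⟨hm1, hm2⟩ := hM₀ M hMge
  have hM1 : 1 ≤ M := hM₀1.trans hMge
  obtain ⟨A₁, hA₁⟩ : ∃ A₁ : Finset ℕ, A₁ = A.filter (fun a : ℕ => α * δ / 4 * M ≤ (a : ℝ) ∧
    ∃ q : ℕ, q.Prime ∧ q ∣ a ∧ M ^ η ≤ q) := ⟨_, rfl⟩
  obtain ⟨S, hS⟩ : ∃ S : Finset ℕ, S = A.filter (fun a : ℕ => α * δ / 4 * M ≤ (a : ℝ) ∧
    ∀ q : ℕ, q.Prime → q ∣ a → (q : ℝ) < M ^ η) := ⟨_, rfl⟩
  obtain ⟨T, hT⟩ : ∃ T : Finset ℕ, T = A.filter (fun a : ℕ => (a : ℝ) < α * δ / 4 * M) := ⟨_, rfl⟩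
  have hsub : A ⊆ A₁ ∪ S ∪ T := by
    intro a ha
    rw [mem_union, mem_union, hA₁, hS, hT, mem_filter, mem_filter, mem_filter]
    rcases lt_or_ge (a : ℝ) (α * δ / 4 * M) with h | h
    · right; exact ⟨ha, h⟩
    · left
      by_cases hq : ∃ q : ℕ, q.Prime ∧ q ∣ a ∧ M ^ η ≤ q
      · left; exact ⟨ha, h, hq⟩
      · right
        push Not at hq
        exact ⟨ha, h, hq⟩
  have hScard : (S.card : ℝ) ≤ α * δ / 4 * M := by
    apply hm2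
    intro a ha
    rw [hS, mem_filter] at ha
    exact ⟨ha.2.1, (hA1 a ha.1).2, ha.2.2⟩
  have hTcard : (T.card : ℝ) ≤ α * δ / 4 * M := by
    have h1 : T ⊆ Icc 1 ⌊α * δ / 4 * M⌋₊ := by
      intro a ha
      rw [hT, mem_filter] at ha
      rw [mem_Icc]
      exact ⟨(hA1 a ha.1).1, Nat.le_floor ha.2.le⟩
    have h2 := card_le_card h1
    rw [Nat.card_Icc, Nat.add_sub_cancel] at h2
    calc (T.card : ℝ) ≤ ((⌊α * δ / 4 * M⌋₊ : ℕ) : ℝ) := by exact_mod_cast h2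
      _ ≤ _ := Nat.floor_le (by positivity)
  have hAcard : (A.card : ℝ) ≤ A₁.card + S.card + T.card := by
    have h1 := (card_le_card hsub).trans ((card_union_le _ _).trans (Nat.add_le_add_right (card_union_le _ _) _))
    exact_mod_cast h1
  have hA₁card : (1 - δ / 2) * A.card ≤ (A₁.card : ℝ) := by
    have h1 : α * δ / 4 * M ≤ δ / 4 * A.card := by
      calc α * δ / 4 * M = δ / 4 * (α * M) := by ring
        _ ≤ _ := mul_le_mul_of_nonneg_left hA2 (by positivity)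
    linarith
  have hcardA0 : 0 ≤ (A.card : ℝ) := Nat.cast_nonneg _
  have hA₁big : M ^ (1 - η / 24) ≤ (A₁.card : ℝ) := by
    have h1 : (1 / 2 : ℝ) * (α * M) ≤ (A₁.card : ℝ) := by
      refine le_trans ?_ hA₁card
      nlinarith
    refine le_trans ?_ h1
    rw [Real.rpow_sub hM0, Real.rpow_one, div_le_iff₀ (by positivity)]
    rw [div_le_iff₀ hα] at hm1
    have h2 : (1 / 2 : ℝ) * (α * M) * M ^ (η / 24) = M * (M ^ (η / 24) * α / 2) := by ring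
    rw [h2]
    exact le_mul_of_one_le_right hM0.le (by linarith)
  obtain ⟨U, hU1, hU2⟩ := hmain X ((le_max_left _ _).trans hX) M D H₀ hD1 hDs hH₀ hM hM0 hMX A₁ (fun a ha => by
    rw [hA₁, mem_filter] at ha
    exact ⟨ha.2.1, (hA1 a ha.1).2, ha.2.2⟩) hA₁big
  refine ⟨U, hU1, fun y hy0 hy1 hyU H hH1 hH2 => ?_⟩
  have h1 := (abs_le.1 (hU2 y hy0 hy1 hyU H hH1 hH2)).1
  have hH0 : 0 < H := by linarith
  have h2 : ∑ a ∈ A₁, density H (a * y) ≤ ∑ a ∈ A, density H (a * y) :=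
    sum_le_sum_of_subset_of_nonneg (by rw [hA₁]; exact filter_subset _ _) (fun _ _ _ => density_nonneg _ _ hH0)
  have h3 : (1 - δ / 2) * (A₁.card : ℝ) ≤ ∑ a ∈ A₁, density H (a * y) := by linarith
  have h4 : (1 - δ / 2) * ((1 - δ / 2) * A.card) ≤ (1 - δ / 2) * (A₁.card : ℝ) :=
    mul_le_mul_of_nonneg_left hA₁card (by linarith)
  have h5 : (1 - δ) * (A.card : ℝ) ≤ (1 - δ / 2) * ((1 - δ / 2) * A.card) := by nlinarith [sq_nonneg δ]
  linarith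

end Pool.Agent.J4H33.LF
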