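import Pool.Agent.Q240.KS.Stm1
import Pool.Agent.Q278.KS.Far

/-!
# Large values: the classes of frequencies on which the ten factors have given sizes, heights up to `e^Y`

If a class has at most `e^{cY}` elements for some `c < 1/3`, then it has at most `e^{(2κ - η) Y}` elements, where `e^{-κY}` is the size
of the product of the factors (density hypothesis for `σ > 5/6`).
-/

set_option autoImplicit false

namespace Pool.Agent.J4H33

open Finset Filter Topology Pool.Agent.H376R2.MR Pool.Agent.Q240.KS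
open Pool.Agent.Q278.KS (exp_cmp div_exp_neg ev_poly' DY_le DY_sum moe_short ty_small ty_big sup_const)

/-- the optimisation of exponents -/
theorem optc {ω ν e c α lam ki κ : ℝ} (hω : 0 < ω) (hω1 : ω ≤ 1 / 3) (hν : ν = ω / 20) (he0 : 0 < e) (he : e ≤ ω / 20)
    (heκ : e ≤ 2 * ν * κ) (hc : c ≤ 1 / 3 - ω) (hα : 0 < α) (hki : ki ≤ (1 + ν) * κ * α)
    (hlam : lam ≤ 1 + e) (hκ : 0 < κ) (hs : α ≤ 1 / 2 - ν ∨ α / 2 - lam / 6 - e ≤ ki) :
    c + e ≤ 2 * κ ∨ ∃ m : ℕ, 1 ≤ m ∧ m * α ≤ 1 ∧ max (2 * m * ki) (lam - 2 * m * α + 6 * m * ki) + e ≤ 2 * κ := by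
  by_cases hκc : c + e ≤ 2 * κ
  · exact Or.inl hκc
  push Not at hκc
  right
  have hκ2 : κ ≤ 1 / 6 - ω / 2 + e / 2 := by linarith
  have hν0 : 0 < ν := by rw [hν]; positivity
  have hνω : ν ≤ 1 / 60 := by rw [hν]; linarith
  -- the case of a short factor
  have key : ∀ m : ℕ, 1 ≤ m → 2 / 3 - ω / 4 ≤ m * α → m * α ≤ 1 - 2 * ν →
      ∃ m : ℕ, 1 ≤ m ∧ m * α ≤ 1 ∧ max (2 * m * ki) (lam - 2 * m * α + 6 * m * ki) + e ≤ 2 * κ := by
    intro m hm h1 h2
    refine ⟨m, hm, by linarith, ?_⟩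
    obtain ⟨s, hs⟩ : ∃ s, s = (m : ℝ) * α := ⟨_, rfl⟩
    rw [← hs] at h1 h2
    have hm0 : (0 : ℝ) < m := by exact_mod_cast hm
    have hmk : (m : ℝ) * ki ≤ s * ((1 + ν) * κ) := by
      calc (m : ℝ) * ki ≤ m * ((1 + ν) * κ * α) := mul_le_mul_of_nonneg_left hki hm0.le
        _ = _ := by rw [hs]; ring
    have hs0 : 0 < s := by rw [hs]; positivity
    rw [← le_sub_iff_add_le]
    apply max_le
    · have h3 : s * (1 + ν) ≤ 1 - ν := by nlinarith
      have h4 : s * ((1 + ν) * κ) ≤ (1 - ν) * κ := by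
        calc s * ((1 + ν) * κ) = (s * (1 + ν)) * κ := by ring
          _ ≤ _ := mul_le_mul_of_nonneg_right h3 hκ.le
      nlinarith
    · have h5 : 2 * (m : ℝ) * α = 2 * s := by rw [hs]; ring
      have h6 : 6 * (m : ℝ) * ki ≤ 6 * (s * ((1 + ν) * κ)) := by nlinarith
      rw [h5]
      have h7 : 0 ≤ 6 * s * (1 + ν) - 2 := by nlinarith
      have h8 : κ * (6 * s * (1 + ν) - 2) ≤ (1 / 6 - ω / 2 + e / 2) * (6 * s * (1 + ν) - 2) :=
        mul_le_mul_of_nonneg_right hκ2 h7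
      have h9 : (1 + ν) * (1 - 3 * ω + 3 * e) ≤ 1 - 3 * ω + 3 * e + 2 * ν := by nlinarith
      have h10 : 0 ≤ 1 + 3 * ω - 3 * e - 2 * ν := by nlinarith
      have h11 : (2 / 3 - ω / 4) * (1 + 3 * ω - 3 * e - 2 * ν) ≤ s * (1 + 3 * ω - 3 * e - 2 * ν) :=
        mul_le_mul_of_nonneg_right h1 h10
      have h12 : s * ((1 + ν) * (1 - 3 * ω + 3 * e)) ≤ s * (1 - 3 * ω + 3 * e + 2 * ν) :=
        mul_le_mul_of_nonneg_left h9 hs0.le
      have h13 : 2 / 3 + 1.5 * ω - 2 * e - 4 / 3 * ν ≤ (2 / 3 - ω / 4) * (1 + 3 * ω - 3 * e - 2 * ν) := by nlinarith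
      have h14 : 4 / 3 * ν ≤ ω / 15 := by rw [hν]; linarith
      nlinarith
  rcases le_or_gt α (1 / 2 - ν) with h | h
  · rcases le_or_gt α (1 / 3) with h3 | h3
    · obtain ⟨m, hm⟩ : ∃ m, m = ⌈(2 / 3 - ω / 4) / α⌉₊ := ⟨_, rfl⟩
      have hpos : 0 < (2 / 3 - ω / 4) / α := by
        apply div_pos _ hα
        linarith
      have h4 : 1 ≤ m := by
        rw [hm]
        exact Nat.one_le_ceil_iff.2 hpos
      have h5 : (2 / 3 - ω / 4) / α ≤ m := by rw [hm]; exact Nat.le_ceil _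
      have h6 : (m : ℝ) < (2 / 3 - ω / 4) / α + 1 := by rw [hm]; exact Nat.ceil_lt_add_one hpos.le
      rw [div_le_iff₀ hα] at h5
      have h7 : (m : ℝ) * α < (2 / 3 - ω / 4) + α := by
        calc (m : ℝ) * α < ((2 / 3 - ω / 4) / α + 1) * α := mul_lt_mul_of_pos_right h6 hα
          _ = _ := by field_simp
      exact key m h4 h5 (by rw [hν]; linarith)
    · apply key 2 (by norm_num)
      · push_cast; linarith
      · push_cast; linarith
  · exfalso
    rcases hs with hs | hs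
    · linarith
    · have h1 : α / 2 - (1 + e) / 6 - e ≤ (1 + ν) * κ * α := by linarith
      have h2 : (1 + ν) * κ ≤ 1 / 6 - ω / 2 + e / 2 + ν := by nlinarith
      have h3 : (1 + ν) * κ * α ≤ (1 / 6 - ω / 2 + e / 2 + ν) * α := mul_le_mul_of_nonneg_right h2 hα.le
      have h4 : α * (1 / 3 + ω / 2 - e / 2 - ν) ≤ 1 / 6 + 7 / 6 * e := by nlinarith
      have h5 : 0 ≤ 1 / 3 + ω / 2 - e / 2 - ν := by nlinarith
      have h6 : (1 / 2 - ν) * (1 / 3 + ω / 2 - e / 2 - ν) ≤ α * (1 / 3 + ω / 2 - e / 2 - ν) :=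
        mul_le_mul_of_nonneg_right h.le h5
      have h7 : (1 / 2 - ν) * (1 / 3 + ω / 2 - e / 2 - ν) ≥ 1 / 6 + ω / 4 - e / 4 - ν / 2 - ν * (1 / 3 + ω / 2) := by nlinarith
      have h8 : ν * (1 / 3 + ω / 2) ≤ ν / 2 := by nlinarith
      rw [hν] at h7 h8
      nlinarith

/-- an index with a long and large factor -/
theorem pickc {Y kap ν : ℝ} {a κ : Fin 10 → ℝ} (hν : 0 < ν) (hν1 : ν ≤ 1 / 10) (hY : 4 / ν ≤ Y) (hκ : ∀ i, 0 ≤ κ i)
    (hk : kap = ∑ i, κ i) (hk0 : 0 < kap) (hs : 1 - 1 / Y ≤ ∑ i, a i) :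
    ∃ i, ν / 20 ≤ a i ∧ κ i ≤ (1 + ν) * kap * a i := by
  by_contra hcon
  push Not at hcon
  have hA : 0 < (1 + ν) * kap := by positivity
  have h1 : ∀ i, (1 + ν) * kap * (a i - ν / 20) ≤ κ i := by
    intro i
    by_cases h : ν / 20 ≤ a i
    · have h2 := hcon i h
      have h3 : (1 + ν) * kap * (a i - ν / 20) ≤ (1 + ν) * kap * a i := mul_le_mul_of_nonneg_left (by linarith) hA.le
      linarith
    · push Not at h
      have : (1 + ν) * kap * (a i - ν / 20) ≤ 0 := mul_nonpos_of_nonneg_of_nonpos hA.le (by linarith)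
      linarith [hκ i]
  have h2 : ∑ i, (1 + ν) * kap * (a i - ν / 20) ≤ kap := by
    rw [hk]; exact Finset.sum_le_sum fun i _ => by rw [← hk]; exact h1 i
  rw [← Finset.mul_sum, Finset.sum_sub_distrib] at h2
  simp only [Finset.sum_const, Finset.card_univ, Fintype.card_fin, nsmul_eq_mul] at h2
  have hY0 : 0 < Y := lt_of_lt_of_le (by positivity) hY
  have h3 : 1 / Y ≤ ν / 4 := by
    rw [div_le_iff₀ hY0]
    rw [div_le_iff₀ hν] at hY
    linarith
  have h4 : 1 - 3 / 4 * ν ≤ ∑ i, a i - ((10 : ℕ) : ℝ) * (ν / 20) := by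
    push_cast; linarith
  have h5 : (1 + ν) * kap * (1 - 3 / 4 * ν) ≤ kap := (mul_le_mul_of_nonneg_left h4 hA.le).trans h2
  have h6 : 1 < (1 + ν) * (1 - 3 / 4 * ν) := by nlinarith
  have h7 : kap * 1 < kap * ((1 + ν) * (1 - 3 / 4 * ν)) := mul_lt_mul_of_pos_left h6 hk0
  linarith

/-- bound of the number of elements, Huxley -/
theorem bndc {c C5 e ε' Y κ lam al d : ℝ} {m : ℕ} {K : ℝ} (hY : 0 < Y) (he : 0 < e)
    (hmε : 6 * (m : ℝ) * ε' ≤ e / 10) (hε' : 0 ≤ ε') (hd : d ≤ 40 * Y) (hal : d / 20 = al * Y)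
    (hK0 : 0 ≤ K) (hK : K ≤ 30 * Real.exp (lam * Y)) (hC0 : 0 ≤ C5) (hC : C5 * 31 ≤ Real.exp (e / 10 * Y))
    (h : c ≤ C5 * Real.exp (e / 400 * d) * (1 / Real.exp (-((κ + ε') * Y)) ^ (2 * m) +
      K * Real.exp (-(m * d / 10 : ℝ)) / Real.exp (-((κ + ε') * Y)) ^ (6 * m))) :
    c ≤ Real.exp ((max (2 * m * κ) (lam - 2 * m * al + 6 * m * κ) + e / 2) * Y) := by
  have hm0 : (0:ℝ) ≤ m := Nat.cast_nonneg m
  set M : ℝ := max (2 * m * κ) (lam - 2 * m * al + 6 * m * κ) with hM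
  have e1 : Real.exp (-((κ + ε') * Y)) ^ (2 * m) = Real.exp (-(2 * m * (κ + ε') * Y)) := by
    rw [← Real.exp_nat_mul]; congr 1; push_cast; ring
  have e1' : Real.exp (-((κ + ε') * Y)) ^ (6 * m) = Real.exp (-(6 * m * (κ + ε') * Y)) := by
    rw [← Real.exp_nat_mul]; congr 1; push_cast; ring
  rw [e1, e1', div_exp_neg, div_exp_neg, one_mul] at h
  refine h.trans ?_
  have e2 : K * Real.exp (-(m * d / 10 : ℝ)) ≤ 30 * Real.exp ((lam - 2 * m * al) * Y) := by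
    calc K * Real.exp (-(m * d / 10 : ℝ)) ≤ 30 * Real.exp (lam * Y) * Real.exp (-(m * d / 10 : ℝ)) := by gcongr
      _ = 30 * Real.exp ((lam - 2 * m * al) * Y) := by
        rw [mul_assoc, ← Real.exp_add]; congr 2
        have : (m:ℝ) * d / 10 = 2 * m * (al * Y) := by rw [← hal]; ring
        rw [this]; ring
  have hme : (m : ℝ) * ε' ≤ e / 60 := by linarith
  have hme0 : 0 ≤ (m : ℝ) * ε' := by positivity
  have a1 : Real.exp (2 * m * (κ + ε') * Y) ≤ Real.exp ((M + e / 10) * Y) := by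
    apply Real.exp_le_exp.2; apply mul_le_mul_of_nonneg_right _ hY.le
    have := le_max_left (2 * m * κ) (lam - 2 * m * al + 6 * m * κ)
    nlinarith
  have a2 : K * Real.exp (-(m * d / 10 : ℝ)) * Real.exp (6 * m * (κ + ε') * Y) ≤
      30 * Real.exp ((M + e / 10) * Y) := by
    calc K * Real.exp (-(m * d / 10 : ℝ)) * Real.exp (6 * m * (κ + ε') * Y)
        ≤ 30 * Real.exp ((lam - 2 * m * al) * Y) * Real.exp (6 * m * (κ + ε') * Y) := by gcongr
      _ = 30 * Real.exp ((lam - 2 * m * al + 6 * m * (κ + ε')) * Y) := by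
        rw [mul_assoc, ← Real.exp_add]; congr 2; ring
      _ ≤ 30 * Real.exp ((M + e / 10) * Y) := by
        apply mul_le_mul_of_nonneg_left _ (by norm_num)
        apply Real.exp_le_exp.2; apply mul_le_mul_of_nonneg_right _ hY.le
        have := le_max_right (2 * m * κ) (lam - 2 * m * al + 6 * m * κ)
        nlinarith
  have e4 : Real.exp (e / 400 * d) ≤ Real.exp (e / 10 * Y) := by
    apply Real.exp_le_exp.2; nlinarith
  calc C5 * Real.exp (e / 400 * d) * (Real.exp (2 * m * (κ + ε') * Y) +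
        K * Real.exp (-(m * d / 10 : ℝ)) * Real.exp (6 * m * (κ + ε') * Y))
      ≤ C5 * Real.exp (e / 10 * Y) * (Real.exp ((M + e / 10) * Y) + 30 * Real.exp ((M + e / 10) * Y)) := by
        gcongr
    _ = (C5 * 31) * (Real.exp (e / 10 * Y) * Real.exp ((M + e / 10) * Y)) := by ring
    _ ≤ Real.exp (e / 10 * Y) * (Real.exp (e / 10 * Y) * Real.exp ((M + e / 10) * Y)) := by gcongr
    _ = Real.exp ((M + 3 * (e / 10)) * Y) := by
        rw [← Real.exp_add, ← Real.exp_add]; congr 1; ring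
    _ ≤ Real.exp ((M + e / 2) * Y) := by
        apply Real.exp_le_exp.2; apply mul_le_mul_of_nonneg_right _ hY.le; linarith

/-- the number of integers up to a given absolute value -/
theorem card_le_abs {T : ℝ} (hT : 1 ≤ T) {L : Finset ℤ} (hL : ∀ k ∈ L, |(k : ℝ)| ≤ T) : (L.card : ℝ) ≤ 4 * T := by
  have h1 : L ⊆ Icc (-(⌊T⌋₊ : ℤ)) (⌊T⌋₊ : ℤ) := by
    intro k hk
    have h2 := hL k hk
    have h3 : ((k.natAbs : ℕ) : ℝ) ≤ T := by
      rw [Nat.cast_natAbs]; push_cast; exact h2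
    have h4 : k.natAbs ≤ ⌊T⌋₊ := Nat.le_floor h3
    rw [mem_Icc]
    omega
  have h2 := card_le_card h1
  rw [Int.card_Icc] at h2
  have h3 : L.card ≤ 2 * ⌊T⌋₊ + 1 := by omega
  have h4 : (L.card : ℝ) ≤ 2 * (⌊T⌋₊ : ℝ) + 1 := by exact_mod_cast h3
  have h5 := Nat.floor_le (show 0 ≤ T by linarith)
  linarith

end Pool.Agent.J4H33
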