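import Pool.Agent.J4H33.LX1

/-!
# Large values: the classes of frequencies away from the line one
-/

set_option autoImplicit false

namespace Pool.Agent.J4H33

open Finset Filter Topology Pool.Agent.H376R2.MR Pool.Agent.Q240.KS
open Pool.Agent.Q278.KS (exp_cmp div_exp_neg ev_poly' DY_le DY_sum moe_short ty_small ty_big sup_const)

/-- **Few frequencies away from the line one.** -/
theorem farc (h1 : S_SB1) (h2 : S_SB2) (h3 : S_SB3) (h5 : S_LVH) (ω : ℝ) (hω : 0 < ω) (hω1 : ω ≤ 1 / 3) :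
    ∀ ε₃ ε₀ : ℝ, 0 < ε₃ → 0 < ε₀ → ε₀ ≤ 1 → ∃ ε' η Y₀ : ℝ, 0 < ε' ∧ ε' ≤ ε₀ ∧ 0 < η ∧
    ∀ Y : ℝ, Y₀ ≤ Y → ∀ d ∈ DY Y, ∀ L : Finset ℤ, L.Nonempty →
    (∀ k ∈ L, Real.exp (ε₃ * Y) ≤ |(k : ℝ)| ∧ |(k : ℝ)| ≤ 20 * Real.exp Y) →
    (L.card : ℝ) ≤ Real.exp ((1 / 3 - ω) * Y) → ∀ κ : Fin 10 → ℝ, (∀ i, 0 ≤ κ i) →
    ε₀ ≤ ∑ i, κ i → (∀ k ∈ L, ∀ i, Real.exp (-((κ i + ε') * Y)) ≤ ‖PF (zY Y) (ty i) (d i) k‖) →
    (L.card : ℝ) ≤ Real.exp ((2 * ∑ i, κ i - η) * Y) := by
  intro ε₃ ε₀ hε₃ hε₀ hε₀'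
  obtain ⟨ν, hν⟩ : ∃ ν, ν = ω / 20 := ⟨_, rfl⟩
  have hν0 : 0 < ν := by rw [hν]; positivity
  obtain ⟨e, he⟩ : ∃ e, e = min (ω / 20) (min (2 * ν * ε₀) (ε₀ / 10)) := ⟨_, rfl⟩
  have hepos : 0 < e := by rw [he]; exact lt_min (by positivity) (lt_min (by positivity) (by positivity))
  have heω : e ≤ ω / 20 := by rw [he]; exact min_le_left _ _
  have heκ : e ≤ 2 * ν * ε₀ := by rw [he]; exact (min_le_right _ _).trans (min_le_left _ _)
  have heε₀ : e ≤ ε₀ / 10 := by rw [he]; exact (min_le_right _ _).trans (min_le_right _ _)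
  obtain ⟨N₀, hN₀⟩ : ∃ N₀ : ℕ, N₀ = ⌈20 / ν⌉₊ + 1 := ⟨_, rfl⟩
  have hN₀1 : 20 / ν ≤ N₀ := by rw [hN₀]; push_cast; linarith [Nat.le_ceil (20 / ν)]
  have hN₀pos : (0 : ℝ) < N₀ := lt_of_lt_of_le (by positivity) hN₀1
  set ε' : ℝ := min (e / (60 * N₀)) (min (e / 60) (ε₃ / 8)) with hε'
  have hε'pos : 0 < ε' := lt_min (by positivity) (lt_min (by positivity) (by positivity))
  have hε'e : ε' ≤ e / (60 * N₀) := min_le_left _ _
  have hε'e2 : ε' ≤ e / 60 := (min_le_right _ _).trans (min_le_left _ _)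
  have hε'3 : ε' ≤ ε₃ / 8 := (min_le_right _ _).trans (min_le_right _ _)
  set η : ℝ := min (e / 2) (ε₃ / 2) with hη
  have hηpos : 0 < η := lt_min (by positivity) (by positivity)
  have hηe : η ≤ e / 2 := min_le_left _ _
  have hη3 : η ≤ ε₃ / 2 := min_le_right _ _
  obtain ⟨C1, hC1, H1⟩ := h1
  obtain ⟨C2, hC2, H2⟩ := h2
  obtain ⟨C3, hC3, H3⟩ := h3 (ε' / 40) (by positivity)
  obtain ⟨C5, hC5, H5⟩ := sup_const (P := fun m C => 1 ≤ m → ∀ (z : ℕ) (t : Fin 3) (d K : ℕ) (V : ℝ)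
      (L : Finset ℤ), 1 ≤ K → 0 < V → (∀ k ∈ L, k ∈ FK K ∧ V ≤ ‖PF z t d k‖) →
      (L.card : ℝ) ≤ C * Real.exp (e / 400 * d) * (1 / V ^ (2 * m) + K * Real.exp (-(m * d / 10 : ℝ)) / V ^ (6 * m)))
    (by
      intro m x y hxy hx hm z t d K V L hK hV hL
      refine (hx hm z t d K V L hK hV hL).trans ?_
      gcongr)
    (by
      intro m
      by_cases hm : 1 ≤ m
      · obtain ⟨C, hC, H⟩ := h5 m (e / 400) hm (by positivity)
        exact ⟨C, hC, fun _ => H⟩
      · exact ⟨1, le_refl _, fun h => absurd h hm⟩) N₀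
  have hev : ∀ᶠ Y : ℝ in atTop, 1000 ≤ Y ∧ 4 / ν ≤ Y ∧ 10 ≤ e * Y ∧ 2 * C1 * (1 + 50 * Y) ^ 1 ≤ Real.exp (ε' * Y) ∧
      10 * C2 * (1 + 50 * Y) ^ 2 ≤ Real.exp (ε' * Y) ∧ 3 * C3 * (1 + 50 * Y) ^ 0 ≤ Real.exp (ε' * Y) ∧
      4 * (1 + 50 * Y) ^ 0 ≤ Real.exp (ε' * Y) ∧
      C5 * 31 * (1 + 50 * Y) ^ 0 ≤ Real.exp (e / 10 * Y) := by
    refine (eventually_ge_atTop 1000).and ((eventually_ge_atTop (4 / ν)).and (((eventually_ge_atTop (10 / e)).mono ?_).and
      ((ev_poly' _ (by linarith) 1 hε'pos).and ((ev_poly' _ (by linarith) 2 hε'pos).and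
      ((ev_poly' _ (by linarith) 0 hε'pos).and ((ev_poly' _ (by norm_num) 0 hε'pos).and
      (ev_poly' _ (by linarith) 0 (by positivity))))))))
    intro Y hY
    rw [div_le_iff₀ hepos] at hY
    linarith
  obtain ⟨Y₀, hY₀⟩ := eventually_atTop.1 hev
  refine ⟨ε', η, Y₀, hε'pos, by linarith, hηpos, ?_⟩
  intro Y hYY d hd L hLne hL hLcard κ hκ hsum hPF
  obtain ⟨hY, hYν, hYe, g1, g2, g3, g4, g6⟩ := hY₀ Y hYY
  simp only [pow_zero, pow_one, mul_one] at g1 g3 g4 g6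
  have hYpos : 0 < Y := by linarith
  obtain ⟨k₁, hk₁, hmax⟩ := L.exists_max_image (fun k : ℤ => |(k : ℝ)|) hLne
  obtain ⟨T₁, hT₁⟩ : ∃ T₁, T₁ = |(k₁ : ℝ)| := ⟨_, rfl⟩
  have hk := hL k₁ hk₁
  rw [← hT₁] at hk
  have hT0 : 0 < T₁ := lt_of_lt_of_le (Real.exp_pos _) hk.1
  have hT1' : 1 ≤ T₁ := le_trans (by rw [Real.one_le_exp_iff]; positivity) hk.1
  have hkne : k₁ ≠ 0 := by
    intro h0; rw [h0] at hT₁; simp at hT₁; linarith
  set lam : ℝ := Real.log T₁ / Y with hlam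
  have hTlam : T₁ = Real.exp (lam * Y) := by
    rw [hlam, div_mul_cancel₀ _ hYpos.ne', Real.exp_log hT0]
  have hlam1 : ε₃ ≤ lam := by
    have h := hk.1
    rw [hTlam] at h
    exact le_of_mul_le_mul_right (Real.exp_le_exp.1 h) hYpos
  have hlam2 : lam ≤ 1 + e := by
    have h := hk.2
    have h20 : (20 : ℝ) ≤ Real.exp 3 := by
      have h0 := Real.exp_one_gt_d9
      have h2 : Real.exp 3 = Real.exp 1 ^ 3 := by rw [← Real.exp_nat_mul]; norm_num
      rw [h2]
      calc (20 : ℝ) ≤ 2.7182818283 ^ 3 := by norm_num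
        _ ≤ Real.exp 1 ^ 3 := pow_le_pow_left₀ (by norm_num) h0.le 3
    have h' : T₁ ≤ Real.exp (3 + Y) := by
      rw [Real.exp_add]
      exact h.trans (mul_le_mul_of_nonneg_right h20 (Real.exp_pos _).le)
    rw [hTlam] at h'
    have h4 := Real.exp_le_exp.1 h'
    have h5 : lam * Y ≤ (1 + e) * Y := by linarith
    exact le_of_mul_le_mul_right h5 hYpos
  set kap : ℝ := ∑ i, κ i with hkap
  set al : Fin 10 → ℝ := fun i => (d i : ℝ) / 20 / Y with hal
  have halY : ∀ i, (d i : ℝ) / 20 = al i * Y := by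
    intro i; simp only [hal]; rw [div_mul_cancel₀ _ hYpos.ne']
  have hd40 : ∀ i, (d i : ℝ) ≤ 40 * Y := by
    intro i
    have := DY_le (by linarith) hd i
    linarith
  have hd50 : ∀ i, 1 + (d i : ℝ) ≤ 1 + 50 * Y := by
    intro i
    have := hd40 i
    linarith
  have hal0 : ∀ i, 0 ≤ al i := fun i => by simp only [hal]; positivity
  have hkle : ∀ i, κ i ≤ kap := fun i => Finset.single_le_sum (fun j _ => hκ j) (mem_univ i)
  have hLc : (L.card : ℝ) ≤ 4 * T₁ := card_le_abs hT1' (fun k hk' => by rw [hT₁]; exact hmax k hk')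
  have b6 : (L.card : ℝ) ≤ Real.exp ((lam + ε') * Y) := by
    refine hLc.trans ?_
    rw [hTlam, add_mul, Real.exp_add, mul_comm (Real.exp (lam * Y))]
    exact mul_le_mul_of_nonneg_right g4 (Real.exp_pos _).le
  by_cases hA : ∃ i : Fin 10, ¬ ((i : ℕ) < 5) ∧ T₁ ≤ Real.exp ((d i : ℝ) / 20 - 1)
  · obtain ⟨i, hi, hTi⟩ := hA
    have b1 := H1 (zY Y) (ty i) (d i) k₁ (ty_big hi) hkne (by rw [← hT₁]; exact hTi)
    have b2 := (hPF k₁ hk₁ i).trans b1
    have b3 : 1 / (k₁ : ℝ) ^ 2 + Real.exp (-((d i : ℝ) / 10)) ≤ 2 * Real.exp (-2 * lam * Y) := by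
      have c1 : 1 / (k₁ : ℝ) ^ 2 ≤ Real.exp (-2 * lam * Y) := by
        have c2 : Real.exp (2 * lam * Y) = (k₁ : ℝ) ^ 2 := by
          rw [← sq_abs, ← hT₁, hTlam, ← Real.exp_nat_mul]; congr 1; push_cast; ring
        have c3 : Real.exp (-2 * lam * Y) = 1 / Real.exp (2 * lam * Y) := by
          rw [one_div, ← Real.exp_neg]; congr 1; ring
        rw [c3, c2]
      have c4 : Real.exp (-((d i : ℝ) / 10)) ≤ Real.exp (-2 * lam * Y) := by
        apply Real.exp_le_exp.2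
        have c5 : Real.exp (lam * Y) ≤ Real.exp ((d i : ℝ) / 20 - 1) := by
          rw [← hTlam]; exact hTi
        have c6 := Real.exp_le_exp.1 c5
        linarith
      linarith
    have b4 : Real.exp (-((κ i + ε') * Y)) ≤ (2 * C1 * (1 + 50 * Y)) * Real.exp (-2 * lam * Y) := by
      refine b2.trans ?_
      calc C1 * (1 + (d i : ℝ)) * (1 / (k₁ : ℝ) ^ 2 + Real.exp (-((d i : ℝ) / 10)))
          ≤ C1 * (1 + 50 * Y) * (2 * Real.exp (-2 * lam * Y)) := by
            have := hd50 i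
            gcongr
        _ = _ := by ring
    have b5 := exp_cmp hYpos g1 b4
    refine b6.trans ?_
    apply Real.exp_le_exp.2
    apply mul_le_mul_of_nonneg_right _ hYpos.le
    have b8 := hkle i
    linarith
  · push Not at hA
    have hS : ∀ i : Fin 10, ¬ ((i : ℕ) < 5) → al i / 2 - lam / 6 - e ≤ κ i := by
      intro i hi
      have c1 := hA i (by omega)
      have c1a : (d i : ℝ) / 20 - 1 < lam * Y := by
        rw [hTlam] at c1
        exact Real.exp_lt_exp.1 c1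
      have c1b : al i * Y ≤ lam * Y + 2 := by rw [← halY i]; linarith
      -- second derivative
      have b1 := (hPF k₁ hk₁ i).trans (H2 (zY Y) (ty i) (d i) k₁ (ty_big hi) hkne)
      rw [← hT₁] at b1
      have e8 : Real.exp 2 ≤ 8 := by
        have h27 : Real.exp 1 < 2.7182818286 := Real.exp_one_lt_d9
        have : Real.exp 2 = Real.exp 1 * Real.exp 1 := by rw [← Real.exp_add]; norm_num
        rw [this]
        have h0 := Real.exp_pos 1
        nlinarith
      have b2 : T₁ ^ (1 / 2 : ℝ) * Real.exp (-((d i : ℝ) / 20)) + T₁ ^ (-(1 / 2) : ℝ) ≤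
          10 * Real.exp ((lam / 2 - al i) * Y) := by
        have c3 : T₁ ^ (1 / 2 : ℝ) = Real.exp (lam / 2 * Y) := by
          rw [hTlam, ← Real.exp_mul]; congr 1; ring
        have c4 : T₁ ^ (-(1 / 2) : ℝ) ≤ 8 * Real.exp ((lam / 2 - al i) * Y) := by
          calc T₁ ^ (-(1 / 2) : ℝ) = Real.exp (-(lam / 2 * Y)) := by
                rw [hTlam, ← Real.exp_mul]; congr 1; ring
            _ ≤ Real.exp (2 + (lam / 2 - al i) * Y) := by
                apply Real.exp_le_exp.2; linarith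
            _ = Real.exp 2 * Real.exp ((lam / 2 - al i) * Y) := Real.exp_add _ _
            _ ≤ _ := by gcongr
        have c5 : T₁ ^ (1 / 2 : ℝ) * Real.exp (-((d i : ℝ) / 20)) = Real.exp ((lam / 2 - al i) * Y) := by
          rw [c3, ← Real.exp_add, halY i]; congr 1; ring
        rw [c5]
        linarith [Real.exp_pos ((lam / 2 - al i) * Y)]
      have b3 : Real.exp (-((κ i + ε') * Y)) ≤ (10 * C2 * (1 + 50 * Y) ^ 2) * Real.exp ((lam / 2 - al i) * Y) := by
        refine b1.trans ?_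
        calc C2 * (1 + (d i : ℝ)) ^ 2 * (T₁ ^ (1 / 2 : ℝ) * Real.exp (-((d i : ℝ) / 20)) + T₁ ^ (-(1 / 2) : ℝ))
            ≤ C2 * (1 + 50 * Y) ^ 2 * (10 * Real.exp ((lam / 2 - al i) * Y)) := by
              have := hd50 i
              gcongr
          _ = _ := by ring
      have b4 := exp_cmp hYpos g2 b3
      by_cases hc : al i ≤ 2 * lam / 3
      · have b5 := (hPF k₁ hk₁ i).trans (H3 (zY Y) (ty i) (d i) k₁ (ty_big hi) hkne)
        rw [← hT₁] at b5
        have b6' : T₁ ^ (1 / 6 : ℝ) * Real.exp (-((d i : ℝ) / 40)) + T₁ ^ (-(1 / 6) : ℝ) ≤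
            3 * Real.exp ((lam / 6 - al i / 2) * Y) := by
          have c3 : T₁ ^ (1 / 6 : ℝ) = Real.exp (lam / 6 * Y) := by
            rw [hTlam, ← Real.exp_mul]; congr 1; ring
          have c4 : T₁ ^ (-(1 / 6) : ℝ) ≤ Real.exp ((lam / 6 - al i / 2) * Y) := by
            calc T₁ ^ (-(1 / 6) : ℝ) = Real.exp (-(lam / 6) * Y) := by
                  rw [hTlam, ← Real.exp_mul]; congr 1; ring
              _ ≤ Real.exp ((lam / 6 - al i / 2) * Y) := by
                  apply Real.exp_le_exp.2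
                  apply mul_le_mul_of_nonneg_right _ hYpos.le
                  linarith
          have c5 : T₁ ^ (1 / 6 : ℝ) * Real.exp (-((d i : ℝ) / 40)) = Real.exp ((lam / 6 - al i / 2) * Y) := by
            have : (d i : ℝ) / 40 = al i * Y / 2 := by rw [← halY i]; ring
            rw [c3, ← Real.exp_add, this]; congr 1; ring
          rw [c5]
          linarith [Real.exp_pos ((lam / 6 - al i / 2) * Y)]
        have b7 : Real.exp (ε' / 40 * (d i : ℝ)) ≤ Real.exp (ε' * Y) := by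
          apply Real.exp_le_exp.2
          have := hd40 i
          nlinarith
        have b8 : Real.exp (-((κ i + ε') * Y)) ≤ (3 * C3) * Real.exp ((ε' + (lam / 6 - al i / 2)) * Y) := by
          refine b5.trans ?_
          calc C3 * Real.exp (ε' / 40 * (d i : ℝ)) * (T₁ ^ (1 / 6 : ℝ) * Real.exp (-((d i : ℝ) / 40)) +
                T₁ ^ (-(1 / 6) : ℝ))
              ≤ C3 * Real.exp (ε' * Y) * (3 * Real.exp ((lam / 6 - al i / 2) * Y)) := by
                gcongr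
            _ = _ := by rw [add_mul ε', Real.exp_add]; ring
        have b9 := exp_cmp hYpos g3 b8
        linarith
      · push Not at hc
        linarith
    have hM : ∀ i : Fin 10, (i : ℕ) < 5 → al i ≤ 0.21 := by
      intro i hi
      have c1 : PF (zY Y) 0 (d i) k₁ ≠ 0 := by
        intro h0
        have c2 := hPF k₁ hk₁ i
        rw [ty_small hi, h0, norm_zero] at c2
        linarith [Real.exp_pos (-((κ i + ε') * Y))]
      have c3 := moe_short hYpos.le c1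
      have c4 := halY i
      have c5 : al i * Y ≤ 0.21 * Y := by rw [← c4]; linarith
      exact le_of_mul_le_mul_right c5 hYpos
    have hsumal : 1 - 1 / Y ≤ ∑ i, al i := by
      have c1 := DY_sum hd
      have c2 : ∑ i, al i = (∑ i, (d i : ℝ)) / 20 / Y := by
        simp only [hal]; rw [Finset.sum_div, Finset.sum_div]
      rw [c2, le_div_iff₀ hYpos]
      have c3 := (abs_le.1 c1).1
      have : (1 - 1 / Y) * Y = Y - 1 := by field_simp
      rw [this]; linarith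
    have hkap0 : 0 < kap := lt_of_lt_of_le hε₀ hsum
    obtain ⟨i, hi1, hi2⟩ := pickc hν0 (by rw [hν]; linarith) hYν hκ hkap hkap0 hsumal
    have hi0 : 0 < al i := lt_of_lt_of_le (by positivity) hi1
    have hO := optc (c := 1 / 3 - ω) (lam := lam) hω hω1 hν hepos heω (heκ.trans (by gcongr)) le_rfl hi0 hi2 hlam2 hkap0 (by
      by_cases hi5 : (i : ℕ) < 5
      · left
        have := hM i hi5
        rw [hν]; linarith
      · right
        exact hS i hi5)
    rcases hO with hO | ⟨m, hm1, hm2, hO⟩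
    · refine hLcard.trans ?_
      apply Real.exp_le_exp.2
      apply mul_le_mul_of_nonneg_right _ hYpos.le
      linarith
    · obtain ⟨K, hKdef⟩ : ∃ K : ℕ, K = ⌈20 * Real.exp Y⌉₊ + 1 := ⟨_, rfl⟩
      have hmN : m ≤ N₀ := by
        have q1 : (m : ℝ) ≤ N₀ := by
          refine le_trans ?_ hN₀1
          rw [le_div_iff₀ hν0]
          have q2 : (m : ℝ) * (ν / 20) ≤ m * al i := mul_le_mul_of_nonneg_left hi1 (Nat.cast_nonneg m)
          linarith
        exact_mod_cast q1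
      have hmε : 6 * (m : ℝ) * ε' ≤ e / 10 := by
        have q1 : (m : ℝ) ≤ N₀ := by exact_mod_cast hmN
        calc 6 * (m : ℝ) * ε' ≤ 6 * (N₀ : ℝ) * (e / (60 * N₀)) := by gcongr
          _ = e / 10 := by field_simp; norm_num
      obtain ⟨lam', hlam'⟩ : ∃ lam' : ℝ, lam' = 1 := ⟨_, rfl⟩
      have hK1 : 1 ≤ K := by rw [hKdef]; omega
      have hK3 : (K : ℝ) ≤ 4 * T₁ + 1 ∨ True := Or.inr trivial
      -- the height is `T₁ + 1`
      obtain ⟨K₂, hK₂def⟩ : ∃ K₂ : ℕ, K₂ = ⌊T₁⌋₊ + 1 := ⟨_, rfl⟩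
      have hK₂1 : 1 ≤ K₂ := by rw [hK₂def]; omega
      have hK₂2 : (K₂ : ℝ) ≤ 30 * Real.exp (lam * Y) := by
        rw [hK₂def]
        push_cast
        have := Nat.floor_le hT0.le
        rw [← hTlam]; linarith
      have hLK : ∀ k ∈ L, k ∈ FK K₂ ∧ Real.exp (-((κ i + ε') * Y)) ≤ ‖PF (zY Y) (ty i) (d i) k‖ := by
        intro k hk'
        refine ⟨?_, hPF k hk' i⟩
        have h2 : |(k : ℝ)| ≤ T₁ := by rw [hT₁]; exact hmax k hk'
        have h3 : |(k : ℝ)| < (K₂ : ℝ) := by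
          rw [hK₂def]; push_cast
          exact lt_of_le_of_lt h2 (Nat.lt_floor_add_one _)
        unfold FK
        rw [mem_Ioo]
        have h4 := abs_lt.1 h3
        constructor
        · exact_mod_cast h4.1
        · exact_mod_cast h4.2
      have q2 := bndc hYpos hepos hmε hε'pos.le (hd40 i) (halY i) (Nat.cast_nonneg K₂) hK₂2
        (by linarith) g6 (H5 m hmN hm1 (zY Y) (ty i) (d i) K₂ _ L hK₂1 (Real.exp_pos _) hLK)
      refine q2.trans ?_
      apply Real.exp_le_exp.2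
      apply mul_le_mul_of_nonneg_right _ hYpos.le
      linarith

end Pool.Agent.J4H33
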