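import Pool.Agent.J4H33.LX2
import Pool.Agent.J4H33.KL5

/-!
# Sparse sets of frequencies for all exponents `c < 1/3`
-/

set_option autoImplicit false

namespace Pool.Agent.J4H33

open Finset Filter Topology Pool.Agent.H376R2.MR Pool.Agent.Q240.KS Pool.Agent.Q211.KS

/-- few frequencies near the line one -/
theorem near_card (hsbv : S_SBV) (hlvh : S_LVH) : ∀ ε₃ c : ℝ, 0 < ε₃ → 0 < c → ∃ ε₀ : ℝ, 0 < ε₀ ∧ ε₀ ≤ 1 ∧ ∀ᶠ Y : ℝ in atTop,
    ∀ d ∈ DY Y, ∀ L : Finset ℤ, (∀ k ∈ L, Real.exp (ε₃ * Y) ≤ |(k : ℝ)| ∧ |(k : ℝ)| ≤ 20 * Real.exp Y) →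
    (∀ k ∈ L, ∀ i, Real.exp (-(ε₀ * Y)) ≤ ‖PF (zY Y) (ty i) (d i) k‖) → (L.card : ℝ) ≤ Real.exp (c * Y) := by
  intro ε₃ c hε₃ hc
  obtain ⟨C, η, hC, hη, hη2, hs⟩ := hsbv 4000
  obtain ⟨C', hC', hl⟩ := hlvh 6 (c / 20) (by norm_num) (by positivity)
  obtain ⟨ε₀, hε₀⟩ : ∃ ε₀, ε₀ = min (min (ε₃ / 3) (η / 6000)) (min (c / 100) (1 / 100)) := ⟨_, rfl⟩
  have hε₀0 : 0 < ε₀ := by rw [hε₀]; exact lt_min (lt_min (by positivity) (by positivity)) (lt_min (by positivity) (by norm_num))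
  have e1 : ε₀ ≤ ε₃ / 3 := by rw [hε₀]; exact (min_le_left _ _).trans (min_le_left _ _)
  have e2 : ε₀ ≤ η / 6000 := by rw [hε₀]; exact (min_le_left _ _).trans (min_le_right _ _)
  have e3 : ε₀ ≤ c / 100 := by rw [hε₀]; exact (min_le_right _ _).trans (min_le_left _ _)
  have e4 : ε₀ ≤ 1 / 100 := by rw [hε₀]; exact (min_le_right _ _).trans (min_le_right _ _)
  refine ⟨ε₀, hε₀0, by linarith, ?_⟩
  filter_upwards [eventually_ge_atTop 400, ev_poly_exp 1 ε₀ (200 * C) hε₀0, ev_poly_exp 0 (c / 4) (C' * 31) (by positivity)]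
    with Y hY hp1 hp2 d hd L hL hPF
  have hY0 : 0 < Y := by linarith
  rw [pow_zero, mul_one] at hp2
  rw [pow_one] at hp1
  rcases L.eq_empty_or_nonempty with hLe | ⟨k₁, hk₁⟩
  · rw [hLe]; simp; positivity
  unfold DY at hd
  rw [Finset.mem_filter, Fintype.mem_piFinset] at hd
  obtain ⟨hd1, hd2⟩ := hd
  have hdu : ∀ i, (d i : ℝ) ≤ 20 * (Y + 1) := by
    intro i
    have h1 := Finset.mem_range.1 (hd1 i)
    have h2 : d i ≤ ⌊20 * (Y + 1)⌋₊ := by omega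
    exact (Nat.cast_le.2 h2).trans (Nat.floor_le (by linarith))
  have h20 : (20 : ℝ) ≤ Real.exp 3 := by
    have h0 := Real.exp_one_gt_d9
    have h2 : Real.exp 3 = Real.exp 1 ^ 3 := by rw [← Real.exp_nat_mul]; norm_num
    rw [h2]
    calc (20 : ℝ) ≤ 2.7182818283 ^ 3 := by norm_num
      _ ≤ Real.exp 1 ^ 3 := pow_le_pow_left₀ (by norm_num) h0.le 3
  -- smooth factors are short
  have h5 : ∀ i : Fin 10, 5 ≤ (i : ℕ) → (d i : ℝ) < Y / 100 := by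
    intro i hi
    by_contra hcon
    push Not at hcon
    have hty : ty i ≠ 0 := by
      unfold ty
      rw [if_neg (by omega)]
      split_ifs <;> decide
    obtain ⟨g1, g2⟩ := hL k₁ hk₁
    have hk1 : 0 < |(k₁ : ℝ)| := lt_of_lt_of_le (Real.exp_pos _) g1
    have hk0 : k₁ ≠ 0 := by
      rintro rfl
      simp at hk1
    have hkle : |(k₁ : ℝ)| ≤ Real.exp ((4000 : ℕ) * (d i : ℝ) / 20) := by
      refine g2.trans ?_
      calc 20 * Real.exp Y ≤ Real.exp 3 * Real.exp Y := mul_le_mul_of_nonneg_right h20 (Real.exp_pos _).le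
        _ = Real.exp (3 + Y) := (Real.exp_add _ _).symm
        _ ≤ _ := by
          apply Real.exp_le_exp.2
          push_cast
          linarith
    have h1 := (hPF k₁ hk₁ i).trans (hs (zY Y) (ty i) (d i) k₁ hty hk0 hkle)
    have h2 : 1 / |(k₁ : ℝ)| ≤ Real.exp (-(3 * ε₀ * Y)) := by
      rw [div_le_iff₀ hk1]
      calc (1 : ℝ) = Real.exp (-(3 * ε₀ * Y)) * Real.exp (3 * ε₀ * Y) := by rw [← Real.exp_add]; simp
        _ ≤ Real.exp (-(3 * ε₀ * Y)) * |(k₁ : ℝ)| := by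
          apply mul_le_mul_of_nonneg_left _ (Real.exp_pos _).le
          refine le_trans (Real.exp_le_exp.2 ?_) g1
          apply mul_le_mul_of_nonneg_right _ hY0.le
          linarith
    have h3 : Real.exp (-(η * d i / 20)) ≤ Real.exp (-(3 * ε₀ * Y)) := by
      apply Real.exp_le_exp.2
      have h7 : η * (Y / 100) ≤ η * d i := mul_le_mul_of_nonneg_left hcon hη.le
      have h8 : 3 * ε₀ * Y ≤ η / 2000 * Y := mul_le_mul_of_nonneg_right (by linarith) hY0.le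
      linarith
    have h4 : Real.exp (-(ε₀ * Y)) ≤ C * (50 * Y) * (2 * Real.exp (-(3 * ε₀ * Y))) := by
      refine h1.trans ?_
      have h6 : 1 + (d i : ℝ) ≤ 50 * Y := by linarith [hdu i]
      have h7 : 1 / |(k₁ : ℝ)| + Real.exp (-(η * d i / 20)) ≤ 2 * Real.exp (-(3 * ε₀ * Y)) := by linarith
      gcongr
    have h6 : C * (50 * Y) * (2 * Real.exp (-(3 * ε₀ * Y))) ≤ 1 / 2 * Real.exp (-(2 * ε₀ * Y)) := by
      calc C * (50 * Y) * (2 * Real.exp (-(3 * ε₀ * Y))) = 1 / 2 * ((200 * C * Y) * Real.exp (-(3 * ε₀ * Y))) := by ring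
        _ ≤ 1 / 2 * (Real.exp (ε₀ * Y) * Real.exp (-(3 * ε₀ * Y))) := by gcongr
        _ = _ := by rw [← Real.exp_add]; congr 2; ring
    have h7 : Real.exp (-(2 * ε₀ * Y)) ≤ Real.exp (-(ε₀ * Y)) := by
      apply Real.exp_le_exp.2
      have : 0 < ε₀ * Y := by positivity
      linarith
    linarith [Real.exp_pos (-(ε₀ * Y)), Real.exp_pos (-(2 * ε₀ * Y))]
  have h4 : ∀ i : Fin 10, (i : ℕ) < 5 → (d i : ℝ) < 4 * Y + 9 := by
    intro i hi
    have hty : ty i = 0 := by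
      unfold ty
      rw [if_pos hi]
    have h6 := hPF k₁ hk₁ i
    rw [hty] at h6
    have h7 : PF (zY Y) 0 (d i) k₁ ≠ 0 := by
      intro h8
      rw [h8, norm_zero] at h6
      linarith [Real.exp_pos (-(ε₀ * Y))]
    have := mob_short h7
    linarith
  have h3 : ∀ j : Fin 10, (j : ℕ) < 5 → 3.8 * Y ≤ (d j : ℝ) := by
    intro j hj
    have h1 : ∑ i, (d i : ℝ) = d j + ∑ i ∈ univ.erase j, (d i : ℝ) :=
      (Finset.add_sum_erase univ (fun i => (d i : ℝ)) (Finset.mem_univ j)).symm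
    have h2 : ∑ i ∈ univ.erase j, (d i : ℝ) ≤
        ∑ i ∈ univ.erase j, (if (i : ℕ) < 5 then 4 * Y + 9 else Y / 100) := by
      refine Finset.sum_le_sum fun i _ => ?_
      split_ifs with hi
      · exact (h4 i hi).le
      · exact (h5 i (by omega)).le
    have h6 : ∑ i : Fin 10, (if (i : ℕ) < 5 then 4 * Y + 9 else Y / 100) =
        (4 * Y + 9) + ∑ i ∈ univ.erase j, (if (i : ℕ) < 5 then 4 * Y + 9 else Y / 100) := by
      rw [← Finset.add_sum_erase univ _ (Finset.mem_univ j), if_pos hj]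
    have h7 : ∑ i : Fin 10, (if (i : ℕ) < 5 then 4 * Y + 9 else Y / 100) =
        5 * (4 * Y + 9) + 5 * (Y / 100) := by
      simp only [Fin.sum_univ_succ, Fin.val_succ, Fin.val_zero]
      norm_num
      ring
    have h8 := (abs_le.1 hd2).1
    linarith
  -- large values of the first factor
  obtain ⟨K, hK⟩ : ∃ K : ℕ, K = ⌊20 * Real.exp Y⌋₊ + 1 := ⟨_, rfl⟩
  have hK1 : 1 ≤ K := by rw [hK]; omega
  have hK2 : (K : ℝ) ≤ 30 * Real.exp Y := by
    rw [hK]; push_cast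
    have g1 := Nat.floor_le (show 0 ≤ 20 * Real.exp Y by positivity)
    have g2 := Real.one_le_exp hY0.le
    linarith
  have h6 := hl (zY Y) (ty 0) (d 0) K (Real.exp (-(ε₀ * Y))) L hK1 (Real.exp_pos _) (by
    intro k hk
    refine ⟨?_, hPF k hk 0⟩
    have h2 := (hL k hk).2
    have h3 : |(k : ℝ)| < (K : ℝ) := by
      rw [hK]; push_cast
      exact lt_of_le_of_lt h2 (Nat.lt_floor_add_one _)
    unfold FK
    rw [mem_Ioo]
    have h4 := abs_lt.1 h3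
    constructor
    · exact_mod_cast h4.1
    · exact_mod_cast h4.2)
  refine h6.trans ?_
  have hd0 := h3 0 (by norm_num)
  have hd0' := h4 0 (by norm_num)
  have p1 : Real.exp (c / 20 * (d 0 : ℝ)) ≤ Real.exp (c / 4 * Y) := by
    apply Real.exp_le_exp.2
    have : (d 0 : ℝ) ≤ 5 * Y := by linarith
    nlinarith
  have p2 : 1 / Real.exp (-(ε₀ * Y)) ^ (2 * 6) ≤ Real.exp (c / 2 * Y) := by
    rw [← Real.exp_nat_mul, one_div, ← Real.exp_neg]
    apply Real.exp_le_exp.2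
    push_cast
    have : ε₀ * Y ≤ c / 100 * Y := mul_le_mul_of_nonneg_right e3 hY0.le
    have h0 : 0 < c * Y := by positivity
    linarith
  have p3 : (K : ℝ) * Real.exp (-(((6 : ℕ) : ℝ) * (d 0 : ℝ) / 10)) / Real.exp (-(ε₀ * Y)) ^ (6 * 6) ≤ 30 * Real.exp (c / 2 * Y) := by
    calc (K : ℝ) * Real.exp (-(((6 : ℕ) : ℝ) * (d 0 : ℝ) / 10)) / Real.exp (-(ε₀ * Y)) ^ (6 * 6)
        ≤ (30 * Real.exp Y) * Real.exp (-(2 * Y)) / Real.exp (-(ε₀ * Y)) ^ (6 * 6) := by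
          apply div_le_div_of_nonneg_right _ (by positivity)
          apply mul_le_mul hK2 _ (Real.exp_pos _).le (by positivity)
          apply Real.exp_le_exp.2
          push_cast
          linarith
      _ = 30 * Real.exp (Y + (-(2 * Y)) + 36 * (ε₀ * Y)) := by
          rw [← Real.exp_nat_mul, div_eq_mul_inv, ← Real.exp_neg, Real.exp_add, Real.exp_add]
          have : -(((6 * 6 : ℕ) : ℝ) * -(ε₀ * Y)) = 36 * (ε₀ * Y) := by push_cast; ring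
          rw [this]; ring
      _ ≤ 30 * Real.exp (c / 2 * Y) := by
          apply mul_le_mul_of_nonneg_left _ (by norm_num)
          apply Real.exp_le_exp.2
          have : ε₀ * Y ≤ 1 / 100 * Y := mul_le_mul_of_nonneg_right e4 hY0.le
          have h0 : 0 < c * Y := by positivity
          linarith
  calc C' * Real.exp (c / 20 * (d 0 : ℝ)) * (1 / Real.exp (-(ε₀ * Y)) ^ (2 * 6) +
        (K : ℝ) * Real.exp (-(((6 : ℕ) : ℝ) * (d 0 : ℝ) / 10)) / Real.exp (-(ε₀ * Y)) ^ (6 * 6))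
      ≤ C' * Real.exp (c / 4 * Y) * (Real.exp (c / 2 * Y) + 30 * Real.exp (c / 2 * Y)) := by gcongr
    _ = (C' * 31) * (Real.exp (c / 4 * Y) * Real.exp (c / 2 * Y)) := by ring
    _ ≤ Real.exp (c / 4 * Y) * (Real.exp (c / 4 * Y) * Real.exp (c / 2 * Y)) := by gcongr
    _ = Real.exp (c * Y) := by rw [← Real.exp_add, ← Real.exp_add]; congr 1; ring

/-- the grid class of a number -/
noncomputable def gr (s x : ℝ) : ℕ := ⌊(-Real.log x) / s⌋₊

theorem gr_le {s x B : ℝ} (hs : 0 < s) (hx : 0 < x) (hB : 1 ≤ B) (hxB : x ≤ B) : x ≤ B * Real.exp (-(gr s x * s)) := by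
  unfold gr
  rcases le_total 0 ((-Real.log x) / s) with h | h
  · have h1 := Nat.floor_le h
    rw [le_div_iff₀ hs] at h1
    calc x = Real.exp (Real.log x) := (Real.exp_log hx).symm
      _ ≤ Real.exp (-((⌊(-Real.log x) / s⌋₊ : ℝ) * s)) := Real.exp_le_exp.2 (by linarith)
      _ ≤ B * Real.exp (-((⌊(-Real.log x) / s⌋₊ : ℝ) * s)) := by
        have := Real.exp_pos (-((⌊(-Real.log x) / s⌋₊ : ℝ) * s))
        nlinarith
  · rw [Nat.floor_of_nonpos h]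
    simpa using hxB

theorem gr_ge {s x : ℝ} (hs : 0 < s) (hx : 0 < x) : Real.exp (-((gr s x + 1) * s)) ≤ x := by
  unfold gr
  have h1 := Nat.lt_floor_add_one ((-Real.log x) / s)
  rw [div_lt_iff₀ hs] at h1
  calc Real.exp (-(((⌊(-Real.log x) / s⌋₊ : ℝ) + 1) * s)) ≤ Real.exp (Real.log x) := Real.exp_le_exp.2 (by linarith)
    _ = x := Real.exp_log hx

theorem gr_bd {s x T : ℝ} (hs : 0 < s) (hT : 0 ≤ T) (hx : Real.exp (-T) ≤ x) : gr s x ≤ ⌊T / s⌋₊ := by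
  unfold gr
  apply Nat.floor_mono
  apply div_le_div_of_nonneg_right _ hs.le
  have h1 := Real.log_le_log (Real.exp_pos _) hx
  rw [Real.log_exp] at h1
  linarith

/-- **The products of ten factors at sets of `e^{cY}` frequencies, `c < 1/3`.** -/
theorem kle_third (htri : S_TRI) (hsbv : S_SBV) (hkerv : S_KERV) (hhmg : S_HMG) (hmb : S_MB)
    (h1 : S_SB1) (h2 : S_SB2) (h3 : S_SB3) (h5 : S_LVH) (c : ℝ) (hc : 0 ≤ c) (hc1 : c < 1 / 3) : KLE c := by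
  classical
  obtain ⟨c₀, hc₀, hc₀1, hkl⟩ := kl1 htri hsbv hkerv hhmg hmb
  obtain ⟨ω, hω⟩ : ∃ ω, ω = 1 / 3 - c := ⟨_, rfl⟩
  have hω0 : 0 < ω := by rw [hω]; linarith
  have hω1 : ω ≤ 1 / 3 := by rw [hω]; linarith
  obtain ⟨ε₃, hε₃⟩ : ∃ ε₃, ε₃ = c₀ / 2 := ⟨_, rfl⟩
  have hε₃0 : 0 < ε₃ := by rw [hε₃]; positivity
  obtain ⟨ε₁, hε₁0, hε₁1, hnear⟩ := near_card hsbv h5 ε₃ c₀ hε₃0 hc₀
  obtain ⟨ε', η, Y₀, hε'0, hε'1, hη0, hfar⟩ := farc h1 h2 h3 h5 ω hω0 hω1 ε₃ (ε₁ / 2) hε₃0 (by positivity) (by linarith)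
  obtain ⟨η₁, hη₁⟩ : ∃ η₁, η₁ = min η 1 := ⟨_, rfl⟩
  have hη₁0 : 0 < η₁ := by rw [hη₁]; exact lt_min hη0 one_pos
  have hη₁a : η₁ ≤ η := by rw [hη₁]; exact min_le_left _ _
  have hη₁b : η₁ ≤ 1 := by rw [hη₁]; exact min_le_right _ _
  obtain ⟨G, hG⟩ : ∃ G : ℕ, G = ⌊2 / ε'⌋₊ + 1 := ⟨_, rfl⟩
  intro B
  obtain ⟨b, hb⟩ := hkl (B + 1)
  refine ⟨b, ?_⟩
  obtain ⟨D, hD⟩ : ∃ D : ℝ, D = (50 : ℝ) ^ 20 * ((G : ℝ) ^ 10 + 1) := ⟨_, rfl⟩
  have hD0 : 0 < D := by rw [hD]; positivity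
  filter_upwards [hb, hnear, eventually_ge_atTop Y₀, eventually_ge_atTop 400, ev_poly_exp (B + 21) η₁ D hη₁0,
    ev_poly_exp 0 ε₃ 4 hε₃0] with Y g1 g2 g3 g4 g5 g6 d hd L hLc hL
  have hY0 : 0 < Y := by linarith
  have hY1 : 1 ≤ Y := by linarith
  rw [pow_zero, mul_one] at g6
  have hdu : ∀ i, (d i : ℝ) ≤ 20 * (Y + 1) := by
    intro i
    unfold DY at hd
    rw [Finset.mem_filter, Fintype.mem_piFinset] at hd
    have h1 := Finset.mem_range.1 (hd.1 i)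
    have h2 : d i ≤ ⌊20 * (Y + 1)⌋₊ := by omega
    exact (Nat.cast_le.2 h2).trans (Nat.floor_le (by linarith))
  have hPle : ∀ i k, ‖PF (zY Y) (ty i) (d i) k‖ ≤ 50 * Y := by
    intro i k
    have := (htri (zY Y) (ty i) (d i) k).1
    linarith [hdu i]
  have hB1 : (1 : ℝ) ≤ 50 * Y := by linarith
  obtain ⟨s, hs⟩ : ∃ s, s = ε' * Y := ⟨_, rfl⟩
  have hs0 : 0 < s := by rw [hs]; positivity
  -- the classes
  obtain ⟨f, hf⟩ : ∃ f : ℤ → Fin 10 → ℕ, ∀ k i, f k i = gr s ‖PF (zY Y) (ty i) (d i) k‖ := ⟨_, fun _ _ => rfl⟩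
  obtain ⟨L0, hL0⟩ : ∃ L0, L0 = L.filter (fun k : ℤ => ¬ Real.exp (ε₃ * Y) ≤ |(k : ℝ)|) := ⟨_, rfl⟩
  obtain ⟨L1, hL1⟩ : ∃ L1, L1 = L.filter (fun k : ℤ => Real.exp (ε₃ * Y) ≤ |(k : ℝ)|) := ⟨_, rfl⟩
  obtain ⟨Ln, hLn⟩ : ∃ Ln, Ln = L1.filter (fun k => ∀ i, Real.exp (-(ε₁ * Y)) ≤ ‖PF (zY Y) (ty i) (d i) k‖) := ⟨_, rfl⟩
  obtain ⟨Ls, hLs⟩ : ∃ Ls, Ls = L1.filter (fun k => ∃ i, ‖PF (zY Y) (ty i) (d i) k‖ < Real.exp (-(2 * Y))) := ⟨_, rfl⟩
  obtain ⟨GG, hGG⟩ : ∃ GG : Finset (Fin 10 → ℕ), GG = (Fintype.piFinset (fun _ : Fin 10 => range G)).filter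
    (fun g => ε₁ / 2 ≤ ∑ i, ε' * (g i : ℝ)) := ⟨_, rfl⟩
  obtain ⟨Lg, hLg⟩ : ∃ Lg : (Fin 10 → ℕ) → Finset ℤ, ∀ g, Lg g = L1.filter (fun k => (∀ i, Real.exp (-(2 * Y)) ≤ ‖PF (zY Y) (ty i) (d i) k‖) ∧ f k = g) :=
    ⟨_, fun _ => rfl⟩
  have hsub : L1 ⊆ (Ln ∪ Ls) ∪ GG.biUnion Lg := by
    intro k hk
    rw [mem_union, mem_union]
    by_cases c1 : ∃ i, ‖PF (zY Y) (ty i) (d i) k‖ < Real.exp (-(2 * Y))
    · left; right
      rw [hLs, mem_filter]; exact ⟨hk, c1⟩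
    push Not at c1
    have hfle : ∀ i, f k i < G := by
      intro i
      have h6 := gr_bd hs0 (show (0 : ℝ) ≤ 2 * Y by positivity) (c1 i)
      have h7 : 2 * Y / s = 2 / ε' := by rw [hs]; field_simp
      rw [h7] at h6
      rw [hf, hG]
      omega
    by_cases c2 : ε₁ / 2 ≤ ∑ i, ε' * (f k i : ℝ)
    · right
      rw [mem_biUnion]
      refine ⟨f k, ?_, ?_⟩
      · rw [hGG, mem_filter, Fintype.mem_piFinset]
        exact ⟨fun i => mem_range.2 (hfle i), c2⟩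
      · rw [hLg, mem_filter]
        exact ⟨hk, c1, rfl⟩
    · left; left
      push Not at c2
      rw [hLn, mem_filter]
      refine ⟨hk, fun i => ?_⟩
      have hpos : 0 < ‖PF (zY Y) (ty i) (d i) k‖ := lt_of_lt_of_le (Real.exp_pos _) (c1 i)
      refine le_trans ?_ (gr_ge hs0 hpos)
      rw [← hf]
      apply Real.exp_le_exp.2
      have h6 : ε' * (f k i : ℝ) ≤ ∑ i, ε' * (f k i : ℝ) :=
        single_le_sum (f := fun i => ε' * (f k i : ℝ)) (fun j _ => by positivity) (mem_univ i)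
      have h7 : ((f k i : ℝ) + 1) * s = (ε' * (f k i : ℝ) + ε') * Y := by rw [hs]; ring
      rw [h7]
      have h8 : (ε' * (f k i : ℝ) + ε') * Y ≤ ε₁ * Y := mul_le_mul_of_nonneg_right (by linarith) hY0.le
      linarith
  -- small frequencies
  have s0 : ∑ k ∈ L0, ‖EE (zY Y) d k‖ ^ 2 ≤ 1 / Y ^ (B + 1) := by
    apply g1 d hd L0
    · have h6 : (L0.card : ℝ) ≤ 4 * Real.exp (ε₃ * Y) := by
        apply card_le_abs (Real.one_le_exp (by positivity))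
        intro k hk
        rw [hL0, mem_filter] at hk
        exact (not_le.1 hk.2).le
      refine h6.trans ?_
      calc 4 * Real.exp (ε₃ * Y) ≤ Real.exp (ε₃ * Y) * Real.exp (ε₃ * Y) := mul_le_mul_of_nonneg_right g6 (Real.exp_pos _).le
        _ = Real.exp (c₀ * Y) := by rw [← Real.exp_add, hε₃]; congr 1; ring
    · intro k hk
      rw [hL0, mem_filter] at hk
      exact hL k hk.1
  have hL1' : ∀ k ∈ L1, Real.exp (ε₃ * Y) ≤ |(k : ℝ)| ∧ |(k : ℝ)| ≤ 20 * Real.exp Y := by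
    intro k hk
    rw [hL1, mem_filter] at hk
    exact ⟨hk.2, (hL k hk.1).2⟩
  -- the neighbourhood of the line one
  have s1 : ∑ k ∈ Ln, ‖EE (zY Y) d k‖ ^ 2 ≤ 1 / Y ^ (B + 1) := by
    apply g1 d hd Ln
    · apply g2 d hd Ln
      · intro k hk
        rw [hLn, mem_filter] at hk
        exact hL1' k hk.1
      · intro k hk
        rw [hLn, mem_filter] at hk
        exact hk.2
    · intro k hk
      rw [hLn, mem_filter, hL1, mem_filter] at hk
      exact hL k hk.1.1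
  have hsmall : ∀ D' : ℝ, 0 ≤ D' → D' ≤ (50 : ℝ) ^ 20 * ((G : ℝ) ^ 10 + 1) → D' * Y ^ 20 * Real.exp (-(η₁ * Y)) ≤ 1 / Y ^ (B + 1) := by
    intro D' hD'0 hD'
    rw [le_div_iff₀ (by positivity)]
    calc D' * Y ^ 20 * Real.exp (-(η₁ * Y)) * Y ^ (B + 1) = (D' * Y ^ (B + 21)) * Real.exp (-(η₁ * Y)) := by
          rw [show B + 21 = 20 + (B + 1) by ring, pow_add]; ring
      _ ≤ (D * Y ^ (B + 21)) * Real.exp (-(η₁ * Y)) := by
          rw [hD]
          gcongr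
      _ ≤ Real.exp (η₁ * Y) * Real.exp (-(η₁ * Y)) := mul_le_mul_of_nonneg_right g5 (Real.exp_pos _).le
      _ = 1 := by rw [← Real.exp_add]; simp
  have hEE : ∀ k, ‖EE (zY Y) d k‖ ≤ ∏ i, ‖PF (zY Y) (ty i) (d i) k‖ := fun k => norm_EE_le (zY Y) d k _ (fun i => le_rfl)
  -- tiny factors
  have s2 : ∑ k ∈ Ls, ‖EE (zY Y) d k‖ ^ 2 ≤ 1 / Y ^ (B + 1) := by
    have h6 : ∀ k ∈ Ls, ‖EE (zY Y) d k‖ ^ 2 ≤ ((50 * Y) ^ 9 * Real.exp (-(2 * Y))) ^ 2 := by
      intro k hk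
      rw [hLs, mem_filter] at hk
      obtain ⟨i₀, hi₀⟩ := hk.2
      apply pow_le_pow_left₀ (norm_nonneg _)
      refine (hEE k).trans ?_
      rw [← Finset.mul_prod_erase univ _ (mem_univ i₀), mul_comm]
      apply mul_le_mul _ hi₀.le (norm_nonneg _) (by positivity)
      calc ∏ i ∈ univ.erase i₀, ‖PF (zY Y) (ty i) (d i) k‖ ≤ ∏ _i ∈ univ.erase i₀, (50 * Y) :=
            prod_le_prod (fun i _ => norm_nonneg _) fun i _ => hPle i k
        _ = _ := by rw [prod_const, card_erase_of_mem (mem_univ _), card_univ, Fintype.card_fin]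
    refine (sum_le_sum h6).trans ?_
    rw [sum_const, nsmul_eq_mul]
    have h7 : (Ls.card : ℝ) ≤ Real.exp Y := by
      have q1 : Ls.card ≤ L.card := by
        rw [hLs, hL1]
        exact (card_le_card (filter_subset _ _)).trans (card_le_card (filter_subset _ _))
      calc (Ls.card : ℝ) ≤ L.card := by exact_mod_cast q1
        _ ≤ Real.exp (c * Y) := hLc
        _ ≤ Real.exp Y := Real.exp_le_exp.2 (by nlinarith)
    have h8 := hsmall ((50 : ℝ) ^ 20) (by positivity) (by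
      have : (0 : ℝ) ≤ (G : ℝ) ^ 10 := by positivity
      nlinarith [show (0 : ℝ) < (50 : ℝ) ^ 20 by positivity])
    refine le_trans ?_ h8
    calc (Ls.card : ℝ) * ((50 * Y) ^ 9 * Real.exp (-(2 * Y))) ^ 2 ≤ Real.exp Y * ((50 * Y) ^ 9 * Real.exp (-(2 * Y))) ^ 2 :=
          mul_le_mul_of_nonneg_right h7 (by positivity)
      _ = (50 * Y) ^ 18 * (Real.exp Y * Real.exp (-(2 * Y)) ^ 2) := by ring
      _ ≤ (50 * Y) ^ 20 * Real.exp (-(η₁ * Y)) := by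
          apply mul_le_mul
          · exact pow_le_pow_right₀ hB1 (by norm_num)
          · rw [← Real.exp_nat_mul, ← Real.exp_add]
            apply Real.exp_le_exp.2
            push_cast
            nlinarith
          · positivity
          · positivity
      _ = (50 : ℝ) ^ 20 * Y ^ 20 * Real.exp (-(η₁ * Y)) := by rw [mul_pow]
  -- the other classes
  have s3 : ∀ g ∈ GG, ∑ k ∈ Lg g, ‖EE (zY Y) d k‖ ^ 2 ≤ (50 * Y) ^ 20 * Real.exp (-(η₁ * Y)) := by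
    intro g hg
    rw [hGG, mem_filter] at hg
    rcases (Lg g).eq_empty_or_nonempty with he | hne
    · rw [he, sum_empty]; positivity
    obtain ⟨κ, hκ⟩ : ∃ κ : Fin 10 → ℝ, ∀ i, κ i = ε' * (g i : ℝ) := ⟨_, fun _ => rfl⟩
    have hκsum : ε₁ / 2 ≤ ∑ i, κ i := by
      simp_rw [hκ]; exact hg.2
    have hmem : ∀ k ∈ Lg g, k ∈ L1 ∧ (∀ i, Real.exp (-(2 * Y)) ≤ ‖PF (zY Y) (ty i) (d i) k‖) ∧ f k = g := by
      intro k hk
      rw [hLg, mem_filter] at hk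
      exact hk
    have hcard : ((Lg g).card : ℝ) ≤ Real.exp ((2 * ∑ i, κ i - η) * Y) := by
      apply hfar Y g3 d hd (Lg g) hne (fun k hk => hL1' k (hmem k hk).1) _ κ (fun i => by rw [hκ]; positivity) hκsum
      · intro k hk i
        obtain ⟨q1, q2, q3⟩ := hmem k hk
        have hpos : 0 < ‖PF (zY Y) (ty i) (d i) k‖ := lt_of_lt_of_le (Real.exp_pos _) (q2 i)
        refine le_trans (le_of_eq ?_) (gr_ge hs0 hpos)
        rw [← hf, q3, hκ, hs]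
        congr 1; ring
      · have q1 : (Lg g).card ≤ L.card := by
          apply card_le_card
          intro k hk
          have := (hmem k hk).1
          rw [hL1, mem_filter] at this
          exact this.1
        calc ((Lg g).card : ℝ) ≤ L.card := by exact_mod_cast q1
          _ ≤ Real.exp (c * Y) := hLc
          _ = Real.exp ((1 / 3 - ω) * Y) := by rw [hω]; congr 1; ring
    have hpt : ∀ k ∈ Lg g, ‖EE (zY Y) d k‖ ^ 2 ≤ ((50 * Y) ^ 10 * Real.exp (-((∑ i, κ i) * Y))) ^ 2 := by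
      intro k hk
      obtain ⟨q1, q2, q3⟩ := hmem k hk
      apply pow_le_pow_left₀ (norm_nonneg _)
      refine (hEE k).trans ?_
      calc ∏ i, ‖PF (zY Y) (ty i) (d i) k‖ ≤ ∏ i, (50 * Y * Real.exp (-(κ i * Y))) := by
            apply prod_le_prod (fun i _ => norm_nonneg _)
            intro i _
            have hpos : 0 < ‖PF (zY Y) (ty i) (d i) k‖ := lt_of_lt_of_le (Real.exp_pos _) (q2 i)
            refine (gr_le hs0 hpos hB1 (hPle i k)).trans (le_of_eq ?_)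
            rw [← hf, q3, hκ, hs]
            congr 2; ring
        _ = (50 * Y) ^ 10 * Real.exp (-((∑ i, κ i) * Y)) := by
            rw [prod_mul_distrib, prod_const, card_univ, Fintype.card_fin, ← Real.exp_sum, sum_neg_distrib, ← sum_mul]
    refine (sum_le_sum hpt).trans ?_
    rw [sum_const, nsmul_eq_mul]
    calc ((Lg g).card : ℝ) * ((50 * Y) ^ 10 * Real.exp (-((∑ i, κ i) * Y))) ^ 2
        ≤ Real.exp ((2 * ∑ i, κ i - η) * Y) * ((50 * Y) ^ 10 * Real.exp (-((∑ i, κ i) * Y))) ^ 2 :=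
          mul_le_mul_of_nonneg_right hcard (by positivity)
      _ = (50 * Y) ^ 20 * (Real.exp ((2 * ∑ i, κ i - η) * Y) * Real.exp (-((∑ i, κ i) * Y)) ^ 2) := by ring
      _ = (50 * Y) ^ 20 * Real.exp (-(η * Y)) := by
          rw [← Real.exp_nat_mul, ← Real.exp_add]
          congr 2
          push_cast; ring
      _ ≤ (50 * Y) ^ 20 * Real.exp (-(η₁ * Y)) := by
          apply mul_le_mul_of_nonneg_left _ (by positivity)
          apply Real.exp_le_exp.2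
          have := mul_le_mul_of_nonneg_right hη₁a hY0.le
          linarith
  have s4 : ∑ g ∈ GG, ∑ k ∈ Lg g, ‖EE (zY Y) d k‖ ^ 2 ≤ 1 / Y ^ (B + 1) := by
    have hcardG : (GG.card : ℝ) ≤ (G : ℝ) ^ 10 := by
      have q1 : GG.card ≤ (Fintype.piFinset (fun _ : Fin 10 => range G)).card := by
        rw [hGG]; exact card_le_card (filter_subset _ _)
      rw [Fintype.card_piFinset, prod_const, card_range, card_univ, Fintype.card_fin] at q1
      exact_mod_cast q1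
    refine (sum_le_sum s3).trans ?_
    rw [sum_const, nsmul_eq_mul]
    have h8 := hsmall ((50 : ℝ) ^ 20 * (G : ℝ) ^ 10) (by positivity) (by
      have : (0 : ℝ) < (50 : ℝ) ^ 20 := by positivity
      nlinarith)
    refine le_trans ?_ h8
    calc (GG.card : ℝ) * ((50 * Y) ^ 20 * Real.exp (-(η₁ * Y))) ≤ (G : ℝ) ^ 10 * ((50 * Y) ^ 20 * Real.exp (-(η₁ * Y))) :=
          mul_le_mul_of_nonneg_right hcardG (by positivity)
      _ = _ := by rw [mul_pow]; ring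
  -- the sum
  have t1 : ∑ k ∈ L, ‖EE (zY Y) d k‖ ^ 2 = ∑ k ∈ L1, ‖EE (zY Y) d k‖ ^ 2 + ∑ k ∈ L0, ‖EE (zY Y) d k‖ ^ 2 := by
    rw [hL1, hL0, sum_filter_add_sum_filter_not]
  have t2 : ∑ k ∈ L1, ‖EE (zY Y) d k‖ ^ 2 ≤ ∑ k ∈ Ln, ‖EE (zY Y) d k‖ ^ 2 + ∑ k ∈ Ls, ‖EE (zY Y) d k‖ ^ 2 +
      ∑ g ∈ GG, ∑ k ∈ Lg g, ‖EE (zY Y) d k‖ ^ 2 := by
    have u1 := sum_le_sum_of_subset_of_nonneg (f := fun k => ‖EE (zY Y) d k‖ ^ 2) hsub (fun k _ _ => by positivity)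
    have u2 : ∑ k ∈ (Ln ∪ Ls) ∪ GG.biUnion Lg, ‖EE (zY Y) d k‖ ^ 2 ≤
        ∑ k ∈ (Ln ∪ Ls), ‖EE (zY Y) d k‖ ^ 2 + ∑ k ∈ GG.biUnion Lg, ‖EE (zY Y) d k‖ ^ 2 := by
      have := sum_union_inter (s₁ := Ln ∪ Ls) (s₂ := GG.biUnion Lg) (f := fun k => ‖EE (zY Y) d k‖ ^ 2)
      have v : 0 ≤ ∑ k ∈ (Ln ∪ Ls) ∩ GG.biUnion Lg, ‖EE (zY Y) d k‖ ^ 2 := sum_nonneg fun _ _ => by positivity
      linarith
    have u3 : ∑ k ∈ Ln ∪ Ls, ‖EE (zY Y) d k‖ ^ 2 ≤ ∑ k ∈ Ln, ‖EE (zY Y) d k‖ ^ 2 + ∑ k ∈ Ls, ‖EE (zY Y) d k‖ ^ 2 := by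
      have := sum_union_inter (s₁ := Ln) (s₂ := Ls) (f := fun k => ‖EE (zY Y) d k‖ ^ 2)
      have v : 0 ≤ ∑ k ∈ Ln ∩ Ls, ‖EE (zY Y) d k‖ ^ 2 := sum_nonneg fun _ _ => by positivity
      linarith
    have u4 : ∑ k ∈ GG.biUnion Lg, ‖EE (zY Y) d k‖ ^ 2 = ∑ g ∈ GG, ∑ k ∈ Lg g, ‖EE (zY Y) d k‖ ^ 2 := by
      apply sum_biUnion
      intro g _ g' _ hgg
      rw [Function.onFun, Finset.disjoint_left]
      intro k hk hk'
      rw [hLg, mem_filter] at hk hk'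
      exact hgg (hk.2.2.symm.trans hk'.2.2)
    linarith
  have t3 : 4 * (1 / Y ^ (B + 1)) ≤ 1 / Y ^ B := by
    rw [pow_succ]
    calc 4 * (1 / (Y ^ B * Y)) = (4 / Y) * (1 / Y ^ B) := by field_simp
      _ ≤ 1 * (1 / Y ^ B) := by
        apply mul_le_mul_of_nonneg_right _ (by positivity)
        rw [div_le_one hY0]; linarith
      _ = _ := one_mul _
  linarith

/-- **Primes at sparse sets of frequencies**, all exponents `c < 1/3`. -/
theorem kls_third (htri : S_TRI) (hsbv : S_SBV) (hkerv : S_KERV) (hhmg : S_HMG) (hmb : S_MB) (htup : S_TUP)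
    (h1 : S_SB1) (h2 : S_SB2) (h3 : S_SB3) (h5 : S_LVH) (c : ℝ) (hc1 : c < 1 / 3) : KLS c := by
  obtain ⟨c', hc'1, hc'2⟩ : ∃ c', max c 0 < c' ∧ c' < 1 / 3 := exists_between (max_lt hc1 (by norm_num))
  have hc'0 : 0 < c' := lt_of_le_of_lt (le_max_right _ _) hc'1
  have hcc' : c < c' := lt_of_le_of_lt (le_max_left _ _) hc'1
  exact kls_of_klp hc'0 (by linarith) (klp_of_kla htri htup (kla_of_kle (kle_third htri hsbv hkerv hhmg hmb h1 h2 h3 h5 c' hc'0.le hc'2))) c hcc'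

end Pool.Agent.J4H33
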