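import Mathlib

/-!
# Random translations of the blocks of a set: combinatorics
-/

set_option autoImplicit false

namespace Pool.Agent.J4H33.PS

open Finset

/-- `U` and shifts below `m` give `K` representations of one integer -/
def GoodP (K m : ℕ) (U : Finset ℕ) : Prop :=
  ∃ x : ℕ → ℕ, (∀ a ∈ U, x a < m) ∧ ∃ (n : ℕ) (Q : Finset ℕ), K ≤ Q.card ∧
    ∀ q ∈ Q, ∃ a ∈ U, ∃ b ∈ U, a + x a = q ∧ q + (b + x b) = n

/-- greedy choice of disjoint pairs and of the shifts -/
theorem greedy (T : Finset ℕ) (K m n : ℕ)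
    (h : ∀ V : Finset ℕ, V.card + 2 ≤ 2 * K → ∃ a ∈ T \ V, ∃ b ∈ T \ V, a ≠ b ∧ a + b + K ≤ n ∧ n < a + b + m) :
    ∀ k ≤ K, ∃ (U : Finset ℕ) (x : ℕ → ℕ) (Q : Finset ℕ), U ⊆ T ∧ U.card ≤ 2 * k ∧ (∀ a ∈ U, x a < m) ∧ Q.card = k ∧
      ∀ q ∈ Q, ∃ a ∈ U, ∃ b ∈ U, a + x a = q ∧ q + (b + x b) = n := by
  intro k
  induction k with
  | zero => intro _; exact ⟨∅, fun _ => 0, ∅, by simp, by simp, by simp, by simp, by simp⟩
  | succ k ih =>
    intro hk
    obtain ⟨U, x, Q, hU, hUc, hx, hQ, hQ'⟩ := ih (by omega)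
    obtain ⟨a, ha, b, hb, hab, h1, h2⟩ := h U (by omega)
    rw [mem_sdiff] at ha hb
    obtain ⟨s, hs⟩ : ∃ s, s = n - (a + b) := ⟨_, rfl⟩
    -- a new value
    have hnew : ∃ y ∈ range (K + 1), a + y ∉ Q := by
      by_contra hcon
      push Not at hcon
      have h3 : (range (K + 1)).image (fun y => a + y) ⊆ Q := by
        intro z hz
        rw [mem_image] at hz
        obtain ⟨y, hy, e⟩ := hz
        rw [← e]
        exact hcon y hy
      have h4 := card_le_card h3
      rw [card_image_of_injective _ (fun y z hyz => by simpa using hyz), card_range] at h4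
      omega
    obtain ⟨y, hy, hyQ⟩ := hnew
    rw [mem_range] at hy
    refine ⟨insert a (insert b U), Function.update (Function.update x b (s - y)) a y, insert (a + y) Q, ?_, ?_, ?_, ?_, ?_⟩
    · intro z hz
      rw [mem_insert, mem_insert] at hz
      rcases hz with rfl | rfl | hz
      · exact ha.1
      · exact hb.1
      · exact hU hz
    · have h3 := card_insert_le a (insert b U)
      have h4 := card_insert_le b U
      omega
    · intro z hz
      rw [mem_insert, mem_insert] at hz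
      by_cases hza : z = a
      · subst hza
        rw [Function.update_self]
        omega
      · rw [Function.update_of_ne hza]
        by_cases hzb : z = b
        · subst hzb
          rw [Function.update_self]
          omega
        · rw [Function.update_of_ne hzb]
          exact hx z (by tauto)
    · rw [card_insert_of_notMem hyQ, hQ]
    · intro q hq
      rw [mem_insert] at hq
      rcases hq with rfl | hq
      · refine ⟨a, by simp, b, by simp, by rw [Function.update_self], ?_⟩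
        rw [Function.update_of_ne (Ne.symm hab), Function.update_self]
        omega
      · obtain ⟨a', ha', b', hb', e1, e2⟩ := hQ' q hq
        have n1 : a' ≠ a := fun e => ha.2 (e ▸ ha')
        have n2 : a' ≠ b := fun e => hb.2 (e ▸ ha')
        have n3 : b' ≠ a := fun e => ha.2 (e ▸ hb')
        have n4 : b' ≠ b := fun e => hb.2 (e ▸ hb')
        refine ⟨a', by simp [ha'], b', by simp [hb'], ?_, ?_⟩
        · rw [Function.update_of_ne n1, Function.update_of_ne n2]; exact e1
        · rw [Function.update_of_ne n3, Function.update_of_ne n4]; exact e2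

/-- a window of sums with many disjoint pairs -/
theorem window (T : Finset ℕ) (N K W : ℕ) (hK : 1 ≤ K) (hW : 1 ≤ W) (hT : ∀ a ∈ T, a ≤ N)
    (hR : (2 * N / W + 1) * (24 * K ^ 2) ≤ T.card * T.card - T.card) :
    ∃ w : ℕ, ∀ V : Finset ℕ, V.card + 2 ≤ 2 * K → ∃ a ∈ T \ V, ∃ b ∈ T \ V, a ≠ b ∧ w ≤ a + b ∧ a + b < w + W := by
  classical
  obtain ⟨h, hh⟩ : ∃ h, h = (W + 1) / 2 := ⟨_, rfl⟩
  have hh1 : 1 ≤ h := by omega
  have hh2 : 2 * h ≤ W + 1 := by omega
  have hh3 : W ≤ 2 * h := by omega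
  by_cases hcell : ∃ j, 2 * K ≤ (T.filter (fun a => a / h = j)).card
  · obtain ⟨j, hj⟩ := hcell
    refine ⟨2 * (j * h), fun V hV => ?_⟩
    have h1 : 2 ≤ (T.filter (fun a => a / h = j) \ V).card := by
      have := le_card_sdiff V (T.filter (fun a => a / h = j))
      omega
    obtain ⟨a, ha, b, hb, hab⟩ := one_lt_card.1 (show 1 < (T.filter (fun a => a / h = j) \ V).card by omega)
    rw [mem_sdiff, mem_filter] at ha hb
    obtain ⟨⟨ha1, ha2⟩, ha3⟩ := ha
    obtain ⟨⟨hb1, hb2⟩, hb3⟩ := hb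
    refine ⟨a, mem_sdiff.2 ⟨ha1, ha3⟩, b, mem_sdiff.2 ⟨hb1, hb3⟩, hab, ?_, ?_⟩
    · have a1 : j * h ≤ a := by rw [← ha2]; exact Nat.div_mul_le_self a h
      have b1 : j * h ≤ b := by rw [← hb2]; exact Nat.div_mul_le_self b h
      omega
    · have a1 : a < j * h + h := by rw [← ha2]; exact Nat.lt_div_mul_add (by omega)
      have b1 : b < j * h + h := by rw [← hb2]; exact Nat.lt_div_mul_add (by omega)
      omega
  · push Not at hcell
    -- an interval of length `W` has less than `6 K` elements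
    have hint : ∀ u : ℕ, (T.filter (fun b => u ≤ b ∧ b < u + W)).card ≤ 6 * K := by
      intro u
      have hsub : T.filter (fun b => u ≤ b ∧ b < u + W) ⊆ (range 3).biUnion (fun i => T.filter (fun a => a / h = u / h + i)) := by
        intro b hb
        rw [mem_filter] at hb
        rw [mem_biUnion]
        obtain ⟨hb1, hb2, hb3⟩ := hb
        have h1 : u / h ≤ b / h := Nat.div_le_div_right hb2
        have h2 : b / h < u / h + 3 := by
          rw [Nat.div_lt_iff_lt_mul (by omega)]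
          have h3 : u < u / h * h + h := Nat.lt_div_mul_add (by omega)
          have e : (u / h + 3) * h = u / h * h + 3 * h := by ring
          rw [e]
          omega
        refine ⟨b / h - u / h, mem_range.2 (by omega), mem_filter.2 ⟨hb1, by omega⟩⟩
      refine (card_le_card hsub).trans (card_biUnion_le.trans ?_)
      calc ∑ i ∈ range 3, (T.filter (fun a => a / h = u / h + i)).card ≤ ∑ _i ∈ range 3, 2 * K := sum_le_sum fun i _ => (hcell _).le
        _ = 6 * K := by rw [sum_const, card_range, smul_eq_mul]; ring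
    -- pigeonhole
    have hmap : ∀ e ∈ T.offDiag, (e.1 + e.2) / W ∈ range (2 * N / W + 1) := by
      intro e he
      rw [mem_offDiag] at he
      rw [mem_range, Nat.lt_succ_iff]
      apply Nat.div_le_div_right
      have h1 := hT e.1 he.1
      have h2 := hT e.2 he.2.1
      omega
    obtain ⟨i, _, hi⟩ := exists_le_card_fiber_of_mul_le_card_of_maps_to (n := 24 * K ^ 2) hmap ⟨0, by simp⟩
      (by rw [card_range, offDiag_card]; exact hR)
    refine ⟨i * W, fun V hV => ?_⟩
    by_contra hcon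
    push Not at hcon
    -- all edges meet `V`
    have hsub : T.offDiag.filter (fun e => (e.1 + e.2) / W = i) ⊆
        V.biUnion (fun v => (T.filter (fun b => i * W - v ≤ b ∧ b < i * W - v + W)).image (fun b => (v, b))) ∪
        V.biUnion (fun v => (T.filter (fun b => i * W - v ≤ b ∧ b < i * W - v + W)).image (fun b => (b, v))) := by
      intro e he
      rw [mem_filter, mem_offDiag] at he
      obtain ⟨⟨he1, he2, he3⟩, he4⟩ := he
      have h1 : i * W ≤ e.1 + e.2 := by rw [← he4]; exact Nat.div_mul_le_self _ _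
      have h2 : e.1 + e.2 < i * W + W := by rw [← he4]; exact Nat.lt_div_mul_add (by omega)
      rw [mem_union, mem_biUnion, mem_biUnion]
      by_cases hv1 : e.1 ∈ V
      · left
        exact ⟨e.1, hv1, mem_image.2 ⟨e.2, mem_filter.2 ⟨he2, by omega, by omega⟩, rfl⟩⟩
      · right
        by_cases hv2 : e.2 ∈ V
        · exact ⟨e.2, hv2, mem_image.2 ⟨e.1, mem_filter.2 ⟨he1, by omega, by omega⟩, rfl⟩⟩
        · exact absurd h2 (not_lt.2 (hcon e.1 (mem_sdiff.2 ⟨he1, hv1⟩) e.2 (mem_sdiff.2 ⟨he2, hv2⟩) he3 h1))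
    have h1 := card_le_card hsub
    have h2 := card_union_le (V.biUnion (fun v => (T.filter (fun b => i * W - v ≤ b ∧ b < i * W - v + W)).image (fun b => (v, b))))
      (V.biUnion (fun v => (T.filter (fun b => i * W - v ≤ b ∧ b < i * W - v + W)).image (fun b => (b, v))))
    have h3 : (V.biUnion (fun v => (T.filter (fun b => i * W - v ≤ b ∧ b < i * W - v + W)).image (fun b => (v, b)))).card ≤ V.card * (6 * K) := by
      refine card_biUnion_le.trans ?_
      calc ∑ v ∈ V, ((T.filter (fun b => i * W - v ≤ b ∧ b < i * W - v + W)).image (fun b => (v, b))).card ≤ ∑ _v ∈ V, 6 * K :=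
            sum_le_sum fun v _ => card_image_le.trans (hint _)
        _ = V.card * (6 * K) := by rw [sum_const, smul_eq_mul]
    have h4 : (V.biUnion (fun v => (T.filter (fun b => i * W - v ≤ b ∧ b < i * W - v + W)).image (fun b => (b, v)))).card ≤ V.card * (6 * K) := by
      refine card_biUnion_le.trans ?_
      calc ∑ v ∈ V, ((T.filter (fun b => i * W - v ≤ b ∧ b < i * W - v + W)).image (fun b => (b, v))).card ≤ ∑ _v ∈ V, 6 * K :=
            sum_le_sum fun v _ => card_image_le.trans (hint _)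
        _ = V.card * (6 * K) := by rw [sum_const, smul_eq_mul]
    have h5 : 24 * K ^ 2 ≤ 2 * (V.card * (6 * K)) := by omega
    have h6 : V.card * (6 * K) ≤ (2 * K - 2) * (6 * K) := Nat.mul_le_mul_right _ (by omega)
    have h7 : 2 * ((2 * K - 2) * (6 * K)) < 24 * K ^ 2 := by
      obtain ⟨k, rfl⟩ : ∃ k, K = k + 1 := ⟨K - 1, by omega⟩
      have : 2 * (k + 1) - 2 = 2 * k := by omega
      rw [this]
      nlinarith
    omega

/-- one group -/
theorem one_group (T : Finset ℕ) (N K m : ℕ) (hK : 1 ≤ K) (hm : 2 * K ≤ m) (hT : ∀ a ∈ T, a ≤ N)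
    (hR : (2 * N / (m / 2) + 1) * (24 * K ^ 2) ≤ T.card * T.card - T.card) :
    ∃ U ⊆ T, U.card ≤ 2 * K ∧ GoodP K m U := by
  obtain ⟨w, hw⟩ := window T N K (m / 2) hK (by omega) hT hR
  obtain ⟨U, x, Q, h1, h2, h3, h4, h5⟩ := greedy T K m (w + (m / 2 - 1) + K) (by
    intro V hV
    obtain ⟨a, ha, b, hb, hab, e1, e2⟩ := hw V hV
    exact ⟨a, ha, b, hb, hab, by omega, by omega⟩) K le_rfl
  exact ⟨U, h1, h2, x, h3, _, Q, h4.ge, h5⟩

/-- many disjoint groups -/
theorem many_groups (T : Finset ℕ) (N K m : ℕ) (hK : 1 ≤ K) (hm : 2 * K ≤ m) (hT : ∀ a ∈ T, a ≤ N) (G : ℕ)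
    (hG : ∀ R : ℕ, T.card ≤ R + 2 * K * G → (2 * N / (m / 2) + 1) * (24 * K ^ 2) ≤ R * R - R) :
    ∀ g ≤ G, ∃ 𝒰 : Finset (Finset ℕ), 𝒰.card = g ∧ (∀ U ∈ 𝒰, U ⊆ T ∧ U.card ≤ 2 * K ∧ GoodP K m U) ∧
      ∀ U ∈ 𝒰, ∀ V ∈ 𝒰, U ≠ V → Disjoint U V := by
  classical
  intro g
  induction g with
  | zero => intro _; exact ⟨∅, by simp, by simp, by simp⟩
  | succ g ih =>
    intro hg
    obtain ⟨𝒰, h1, h2, h3⟩ := ih (by omega)
    have hc : (𝒰.biUnion id).card ≤ 2 * K * g := by
      refine card_biUnion_le.trans ?_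
      calc ∑ U ∈ 𝒰, (id U).card ≤ ∑ _U ∈ 𝒰, 2 * K := sum_le_sum fun U hU => (h2 U hU).2.1
        _ = 2 * K * g := by rw [sum_const, h1, smul_eq_mul, mul_comm]
    have hc2 : T.card ≤ (T \ 𝒰.biUnion id).card + 2 * K * G := by
      have h4 := le_card_sdiff (𝒰.biUnion id) T
      have h5 : 2 * K * g ≤ 2 * K * G := Nat.mul_le_mul_left _ (by omega)
      omega
    obtain ⟨U, hU1, hU2, hU3⟩ := one_group (T \ 𝒰.biUnion id) N K m hK hm (fun a ha => hT a (mem_sdiff.1 ha).1) (hG _ hc2)
    have hUd : ∀ V ∈ 𝒰, Disjoint U V := by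
      intro V hV
      rw [disjoint_left]
      intro a ha haV
      exact (mem_sdiff.1 (hU1 ha)).2 (mem_biUnion.2 ⟨V, hV, haV⟩)
    have hUne : U.Nonempty := by
      obtain ⟨x, _, n, Q, hQ, hQ'⟩ := hU3
      obtain ⟨q, hq⟩ := card_pos.1 (show 0 < Q.card by omega)
      obtain ⟨a, ha, _⟩ := hQ' q hq
      exact ⟨a, ha⟩
    have hUn : U ∉ 𝒰 := by
      intro hcon
      have := hUd U hcon
      rw [disjoint_self, bot_eq_empty] at this
      rw [this] at hUne
      exact not_nonempty_empty hUne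
    refine ⟨insert U 𝒰, by rw [card_insert_of_notMem hUn, h1], ?_, ?_⟩
    · intro V hV
      rw [mem_insert] at hV
      rcases hV with rfl | hV
      · exact ⟨hU1.trans sdiff_subset, hU2, hU3⟩
      · exact h2 V hV
    · intro V hV V' hV' hne
      rw [mem_insert] at hV hV'
      rcases hV with rfl | hV
      · rcases hV' with rfl | hV'
        · exact absurd rfl hne
        · exact hUd V' hV'
      · rcases hV' with rfl | hV'
        · exact (hUd V hV).symm
        · exact h3 V hV V' hV' hne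

/-- the number of ordered representations of `n` as a sum of two elements of `B` -/
noncomputable def rep (B : Set ℕ) (n : ℕ) : ℕ := Set.ncard {p : ℕ × ℕ | p.1 ∈ B ∧ p.2 ∈ B ∧ p.1 + p.2 = n}

theorem rep_finite (B : Set ℕ) (n : ℕ) : {p : ℕ × ℕ | p.1 ∈ B ∧ p.2 ∈ B ∧ p.1 + p.2 = n}.Finite := by
  apply ((antidiagonal n).finite_toSet).subset
  intro p hp
  rw [mem_coe, HasAntidiagonal.mem_antidiagonal]
  exact hp.2.2

theorem rep_of_good {K : ℕ} {U : Finset ℕ} {x : ℕ → ℕ} {n : ℕ} {Q : Finset ℕ} (hQ : K ≤ Q.card)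
    (h : ∀ q ∈ Q, ∃ a ∈ U, ∃ b ∈ U, a + x a = q ∧ q + (b + x b) = n) (B : Set ℕ) (hB : ∀ a ∈ U, a + x a ∈ B) : K ≤ rep B n := by
  classical
  unfold rep
  have h1 : ((Q.image (fun q => (q, n - q)) : Finset (ℕ × ℕ)) : Set (ℕ × ℕ)) ⊆ {p : ℕ × ℕ | p.1 ∈ B ∧ p.2 ∈ B ∧ p.1 + p.2 = n} := by
    intro p hp
    rw [mem_coe, mem_image] at hp
    obtain ⟨q, hq, e⟩ := hp
    obtain ⟨a, ha, b, hb, e1, e2⟩ := h q hq
    rw [← e]
    refine ⟨?_, ?_, ?_⟩
    · rw [← e1]; exact hB a ha
    · have : n - q = b + x b := by omega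
      show n - q ∈ B
      rw [this]
      exact hB b hb
    · show q + (n - q) = n
      omega
  have h2 := Set.ncard_le_ncard h1 (rep_finite B n)
  rw [Set.ncard_coe_finset, card_image_of_injective _ (fun q q' e => (Prod.mk.inj e).1)] at h2
  omega

/-- a dense block -/
theorem rep_of_block {K L : ℕ} (u t : ℕ) (S : Finset ℕ) (hS : ∀ a ∈ S, u ≤ a ∧ a < u + L) (hL : 1 ≤ L) (hK : 2 * L * K ≤ S.card ^ 2)
    (B : Set ℕ) (hB : ∀ a ∈ S, a + t ∈ B) : ∃ n, K ≤ rep B n := by
  classical
  have hmap : ∀ e ∈ S ×ˢ S, e.1 + e.2 - 2 * u ∈ range (2 * L) := by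
    intro e he
    rw [mem_product] at he
    have h1 := hS e.1 he.1
    have h2 := hS e.2 he.2
    rw [mem_range]
    omega
  obtain ⟨s, _, hs⟩ := exists_le_card_fiber_of_mul_le_card_of_maps_to (n := K) hmap ⟨0, by rw [mem_range]; omega⟩
    (by rw [card_range, card_product, ← sq]; exact hK)
  refine ⟨s + 2 * u + 2 * t, hs.trans ?_⟩
  unfold rep
  have h1 : ((((S ×ˢ S).filter (fun e => e.1 + e.2 - 2 * u = s)).image (fun e => (e.1 + t, e.2 + t)) : Finset (ℕ × ℕ)) : Set (ℕ × ℕ)) ⊆
      {p : ℕ × ℕ | p.1 ∈ B ∧ p.2 ∈ B ∧ p.1 + p.2 = s + 2 * u + 2 * t} := by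
    intro p hp
    rw [mem_coe, mem_image] at hp
    obtain ⟨e, he, e1⟩ := hp
    rw [mem_filter, mem_product] at he
    have h1 := hS e.1 he.1.1
    have h2 := hS e.2 he.1.2
    rw [← e1]
    exact ⟨hB _ he.1.1, hB _ he.1.2, by show e.1 + t + (e.2 + t) = _; omega⟩
  have h2 := Set.ncard_le_ncard h1 (rep_finite B _)
  rw [Set.ncard_coe_finset, card_image_of_injective _ (fun e f h => by
    have := Prod.mk.inj h
    exact Prod.ext (by omega) (by omega))] at h2
  exact h2

end Pool.Agent.J4H33.PS
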