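import Pool.Agent.J4H33.P1

/-!
# Random translations of the blocks of a set: independence of disjoint groups
-/

set_option autoImplicit false

namespace Pool.Agent.J4H33.PS

open Finset MeasureTheory ProbabilityTheory

universe u

/-- the event that `X i = y i` for all `i ∈ I` -/
def Ev {Ω : Type u} (X : ℕ → Ω → ℕ) (I : Finset ℕ) (y : ℕ → ℕ) : Set Ω := {ω | ∀ i ∈ I, X i ω = y i}

theorem groups {Ω : Type u} [MeasurableSpace Ω] (μ : Measure Ω) [IsProbabilityMeasure μ] (X : ℕ → Ω → ℕ)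
    (hX : ∀ j, Measurable (X j)) (hind : iIndepFun X μ) (y : Finset ℕ → ℕ → ℕ) (p : ENNReal) (𝒢 : Finset (Finset ℕ))
    (hdis : ∀ I ∈ 𝒢, ∀ J ∈ 𝒢, I ≠ J → Disjoint I J) (hp : ∀ I ∈ 𝒢, p ≤ ∏ i ∈ I, μ (X i ⁻¹' {y I i})) :
    μ (⋂ I ∈ 𝒢, (Ev X I (y I))ᶜ) ≤ (1 - p) ^ 𝒢.card := by
  classical
  induction 𝒢 using Finset.induction_on with
  | empty => simp
  | insert I 𝒢 hI ih =>
    have ih' := ih (fun J hJ J' hJ' => hdis J (mem_insert_of_mem hJ) J' (mem_insert_of_mem hJ')) (fun J hJ => hp J (mem_insert_of_mem hJ))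
    obtain ⟨S, hS⟩ : ∃ S, S = 𝒢.biUnion id := ⟨_, rfl⟩
    have hd : Disjoint S I := by
      rw [hS, disjoint_biUnion_left]
      intro J hJ
      exact hdis J (mem_insert_of_mem hJ) I (mem_insert_self _ _) (fun e => hI (e ▸ hJ))
    have hi := hind.indepFun_finset S I hd hX
    have hF : (⋂ J ∈ 𝒢, (Ev X J (y J))ᶜ) = (fun ω (i : S) => X i ω) ⁻¹' {z | ∀ J ∈ 𝒢, ∃ i : S, (i : ℕ) ∈ J ∧ z i ≠ y J i} := by
      ext ω
      simp only [Set.mem_iInter, Set.mem_compl_iff, Set.mem_preimage, Set.mem_ofPred_eq, Ev]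
      constructor
      · intro h J hJ
        have h1 := h J hJ
        push Not at h1
        obtain ⟨i, hi1, hi2⟩ := h1
        exact ⟨⟨i, by rw [hS, mem_biUnion]; exact ⟨J, hJ, hi1⟩⟩, hi1, hi2⟩
      · intro h J hJ hcon
        obtain ⟨i, hi1, hi2⟩ := h J hJ
        exact hi2 (hcon i hi1)
    have hE : (Ev X I (y I))ᶜ = (fun ω (i : I) => X i ω) ⁻¹' {z | ∀ i : I, z i = y I i}ᶜ := by
      ext ω
      simp only [Set.mem_compl_iff, Set.mem_preimage, Set.mem_ofPred_eq, Ev]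
      constructor
      · intro h h1
        exact h fun i hi => h1 ⟨i, hi⟩
      · intro h h1
        exact h fun i => h1 i i.2
    have hmeasE : MeasurableSet (Ev X I (y I)) := by
      have : Ev X I (y I) = ⋂ i ∈ I, X i ⁻¹' {y I i} := by
        ext ω; simp [Ev]
      rw [this]
      exact I.measurableSet_biInter fun i _ => hX i (measurableSet_singleton _)
    have hEm : μ (Ev X I (y I)) = ∏ i ∈ I, μ (X i ⁻¹' {y I i}) := by
      have : Ev X I (y I) = ⋂ i ∈ I, X i ⁻¹' {y I i} := by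
        ext ω; simp [Ev]
      rw [this]
      exact hind.measure_inter_preimage_eq_mul I (fun i _ => measurableSet_singleton _)
    have hEc : μ (Ev X I (y I))ᶜ ≤ 1 - p := by
      rw [prob_compl_eq_one_sub hmeasE]
      apply tsub_le_tsub_left
      rw [hEm]
      exact hp I (mem_insert_self _ _)
    have hsplit : (⋂ J ∈ insert I 𝒢, (Ev X J (y J))ᶜ) = (⋂ J ∈ 𝒢, (Ev X J (y J))ᶜ) ∩ (Ev X I (y I))ᶜ := by
      rw [Finset.set_biInter_insert, Set.inter_comm]
    rw [hsplit, card_insert_of_notMem hI, pow_succ]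
    have hmul : μ ((⋂ J ∈ 𝒢, (Ev X J (y J))ᶜ) ∩ (Ev X I (y I))ᶜ) = μ (⋂ J ∈ 𝒢, (Ev X J (y J))ᶜ) * μ (Ev X I (y I))ᶜ := by
      rw [hF, hE]
      exact hi.measure_inter_preimage_eq_mul _ _ MeasurableSet.of_discrete MeasurableSet.of_discrete
    rw [hmul]
    exact mul_le_mul' ih' hEc

end Pool.Agent.J4H33.PS
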