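import Pool.Agent.J4H33.P2

/-!
# Random translations of the blocks of a set: one scale
-/

set_option autoImplicit false

namespace Pool.Agent.J4H33.PS

open Finset MeasureTheory ProbabilityTheory Filter

universe u

/-- the set of the translated elements -/
def shift {Ω : Type u} (A : Set ℕ) (β : ℕ → ℕ) (X : ℕ → Ω → ℕ) (ω : Ω) : Set ℕ := {b | ∃ a ∈ A, b = a + X (β a) ω}

/-- one scale -/
theorem one_scale {Ω : Type u} [MeasurableSpace Ω] (μ : Measure Ω) [IsProbabilityMeasure μ] (X : ℕ → Ω → ℕ)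
    (hX : ∀ j, Measurable (X j)) (hind : iIndepFun X μ) (β : ℕ → ℕ)
    (A : Set ℕ) (S : Finset ℕ) (hS : ∀ a ∈ S, a ∈ A) (N K L m G : ℕ) (q : ENNReal) (hK : 1 ≤ K) (hm : 2 * K ≤ m) (hL : 1 ≤ L) (hq : q ≤ 1)
    (hSN : ∀ a ∈ S, a ≤ N) (hblock : ∀ a ∈ S, ∀ b ∈ S, β a = β b → b < a + L)
    (hlaw : ∀ a ∈ S, ∀ r < m, q ≤ μ (X (β a) ⁻¹' {r}))
    (hG : ∀ R : ℕ, S.card ^ 2 ≤ 2 * L * K * (R + 2 * K * G) ^ 2 → (2 * N / (m / 2) + 1) * (24 * K ^ 2) ≤ R * R - R) :
    μ {ω | ∀ n, rep (shift A β X ω) n < K} ≤ (1 - q ^ (2 * K)) ^ G := by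
  classical
  by_cases hbig : ∃ j, 2 * L * K ≤ (S.filter (fun a => β a = j)).card ^ 2
  · obtain ⟨j, hj⟩ := hbig
    have hempty : {ω | ∀ n, rep (shift A β X ω) n < K} = ∅ := by
      rw [Set.eq_empty_iff_forall_notMem]
      intro ω hω
      have hne : (S.filter (fun a => β a = j)).Nonempty := by
        rw [← card_pos]
        by_contra hcon
        have h0 : (S.filter (fun a => β a = j)).card = 0 := by omega
        rw [h0] at hj
        have : 0 < 2 * L * K := by positivity
        omega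
      obtain ⟨n, hn⟩ := rep_of_block (K := K) (L := L) ((S.filter (fun a => β a = j)).min' hne) (X j ω) (S.filter (fun a => β a = j)) (by
        intro a ha
        refine ⟨min'_le _ _ ha, ?_⟩
        have h1 := min'_mem _ hne
        rw [mem_filter] at h1 ha
        exact hblock _ h1.1 a ha.1 (h1.2.trans ha.2.symm)) hL hj (shift A β X ω) (by
        intro a ha
        rw [mem_filter] at ha
        exact ⟨a, hS a ha.1, by rw [ha.2]⟩)
      have := hω n
      omega
    rw [hempty, measure_empty]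
    exact zero_le
  · push Not at hbig
    obtain ⟨J, hJ⟩ : ∃ J, J = S.image β := ⟨_, rfl⟩
    have hcard : S.card ^ 2 ≤ 2 * L * K * J.card ^ 2 := by
      have h1 : S.card = ∑ j ∈ J, (S.filter (fun a => β a = j)).card := by rw [hJ]; exact card_eq_sum_card_image β S
      rw [h1]
      have h2 : (∑ j ∈ J, (S.filter (fun a => β a = j)).card) ^ 2 ≤ J.card * ∑ j ∈ J, (S.filter (fun a => β a = j)).card ^ 2 := sq_sum_le_card_mul_sum_sq
      have h3 : ∑ j ∈ J, (S.filter (fun a => β a = j)).card ^ 2 ≤ J.card * (2 * L * K) := by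
        calc ∑ j ∈ J, (S.filter (fun a => β a = j)).card ^ 2 ≤ ∑ _j ∈ J, 2 * L * K := sum_le_sum fun j _ => (hbig j).le
          _ = _ := by rw [sum_const, smul_eq_mul]
      calc (∑ j ∈ J, (S.filter (fun a => β a = j)).card) ^ 2 ≤ J.card * (J.card * (2 * L * K)) := h2.trans (Nat.mul_le_mul_left _ h3)
        _ = 2 * L * K * J.card ^ 2 := by ring
    have hr : ∀ j : ℕ, ∃ a : ℕ, j ∈ J → a ∈ S ∧ β a = j := by
      intro j
      by_cases hj : j ∈ J
      · have h1 := hj
        rw [hJ, mem_image] at h1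
        obtain ⟨a, ha1, ha2⟩ := h1
        exact ⟨a, fun _ => ⟨ha1, ha2⟩⟩
      · exact ⟨0, fun h => absurd h hj⟩
    choose r hr using hr
    obtain ⟨T, hT⟩ : ∃ T, T = J.image r := ⟨_, rfl⟩
    have hTS : ∀ a ∈ T, a ∈ S := by
      intro a ha
      rw [hT, mem_image] at ha
      obtain ⟨j, hj, e⟩ := ha
      rw [← e]
      exact (hr j hj).1
    have hrβ : ∀ a ∈ T, r (β a) = a := by
      intro a ha
      rw [hT, mem_image] at ha
      obtain ⟨j, hj, e⟩ := ha
      rw [← e, (hr j hj).2]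
    have hTc : T.card = J.card := by
      rw [hT]
      apply card_image_of_injOn
      intro j hj j' hj' e
      have h1 := (hr j hj).2
      have h2 := (hr j' hj').2
      rw [← h1, ← h2, e]
    obtain ⟨𝒰, u1, u2, u3⟩ := many_groups T N K m hK hm (fun a ha => hSN a (hTS a ha)) G (by
      intro R hR
      apply hG R
      refine hcard.trans (Nat.mul_le_mul_left _ ?_)
      rw [← hTc]
      exact Nat.pow_le_pow_left hR 2) G le_rfl
    have hgood : ∀ U ∈ 𝒰, ∃ x : ℕ → ℕ, (∀ a ∈ U, x a < m) ∧ ∃ (n : ℕ) (Q : Finset ℕ), K ≤ Q.card ∧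
        ∀ q ∈ Q, ∃ a ∈ U, ∃ b ∈ U, a + x a = q ∧ q + (b + x b) = n := fun U hU => (u2 U hU).2.2
    choose! x hx1 hx2 using hgood
    have hUβ : ∀ U ∈ 𝒰, (U.image β).image r = U := by
      intro U hU
      rw [image_image]
      have h1 : ∀ a ∈ U, (r ∘ β) a = id a := fun a ha => hrβ a ((u2 U hU).1 ha)
      rw [image_congr (fun a ha => h1 a ha), image_id]
    obtain ⟨𝒢, h𝒢⟩ : ∃ 𝒢, 𝒢 = 𝒰.image (fun U => U.image β) := ⟨_, rfl⟩
    obtain ⟨y, hy⟩ : ∃ y : Finset ℕ → ℕ → ℕ, y = fun I i => x (I.image r) (r i) := ⟨_, rfl⟩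
    have h𝒢c : 𝒢.card = G := by
      rw [h𝒢, ← u1]
      apply card_image_of_injOn
      intro U hU V hV e
      simp only at e
      rw [← hUβ U hU, ← hUβ V hV, e]
    rw [← h𝒢c]
    refine le_trans (measure_mono ?_) (groups μ X hX hind y _ 𝒢 ?_ ?_)
    · intro ω hω
      rw [Set.mem_iInter₂]
      intro I hI hcon
      rw [h𝒢, mem_image] at hI
      obtain ⟨U, hU, e⟩ := hI
      obtain ⟨n, Q, hQ1, hQ2⟩ := hx2 U hU
      have h1 := rep_of_good hQ1 hQ2 (shift A β X ω) (by
        intro a ha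
        have haT := (u2 U hU).1 ha
        refine ⟨a, hS a (hTS a haT), ?_⟩
        have h2 : X (β a) ω = y I (β a) := hcon (β a) (by rw [← e]; exact mem_image_of_mem _ ha)
        rw [h2, hy]
        simp only
        rw [← e, hUβ U hU, hrβ a haT])
      have h2 := hω n
      omega
    · intro I hI J' hJ' hne
      rw [h𝒢, mem_image] at hI hJ'
      obtain ⟨U, hU, e⟩ := hI
      obtain ⟨V, hV, e'⟩ := hJ'
      have hUV : U ≠ V := by
        intro h
        apply hne
        rw [← e, ← e', h]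
      rw [disjoint_left]
      intro i hi hi'
      rw [← e, mem_image] at hi
      rw [← e', mem_image] at hi'
      obtain ⟨a, ha, ea⟩ := hi
      obtain ⟨b, hb, eb⟩ := hi'
      have h1 := hrβ a ((u2 U hU).1 ha)
      have h2 := hrβ b ((u2 V hV).1 hb)
      have hab : a = b := by rw [← h1, ← h2, ea, eb]
      rw [← hab] at hb
      exact disjoint_left.1 (u3 U hU V hV hUV) ha hb
    · intro I hI
      rw [h𝒢, mem_image] at hI
      obtain ⟨U, hU, e⟩ := hI
      have hIc : I.card ≤ 2 * K := by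
        rw [← e]
        exact card_image_le.trans (u2 U hU).2.1
      calc q ^ (2 * K) ≤ q ^ I.card := pow_le_pow_right_of_le_one' hq hIc
        _ = ∏ _i ∈ I, q := by rw [prod_const]
        _ ≤ ∏ i ∈ I, μ (X i ⁻¹' {y I i}) := by
          apply prod_le_prod' 
          intro i hi
          rw [← e, mem_image] at hi
          obtain ⟨a, ha, ea⟩ := hi
          have haT := (u2 U hU).1 ha
          have h1 : y I i = x U a := by
            rw [hy]
            simp only
            rw [← e, hUβ U hU, ← ea, hrβ a haT]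
          have h2 := hlaw a (hTS a haT) (x U a) (hx1 U hU a ha)
          rw [ea] at h2
          rw [h1]
          exact h2

end Pool.Agent.J4H33.PS
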