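import Pool.Agent.J4H33.P3

/-!
# Random translations of the blocks of a set: almost surely unbounded representation functions
-/

set_option autoImplicit false

namespace Pool.Agent.J4H33.PS

open Finset MeasureTheory ProbabilityTheory Filter

universe u

theorem pow_small_bound {δ : ℝ} (hδ : 0 < δ) {p : ℝ} {G : ℕ} (hp0 : 0 < p) (hp1 : p ≤ 1) (h : 1 / δ ≤ p * G) : (1 - p) ^ G ≤ δ := by
  have hpG : 0 < p * G := lt_of_lt_of_le (by positivity) h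
  have h1 : (1 - p) ^ G ≤ Real.exp (-(p * G)) := by
    calc (1 - p) ^ G ≤ (Real.exp (-p)) ^ G := by
          apply pow_le_pow_left₀ (by linarith)
          have := Real.add_one_le_exp (-p)
          linarith
      _ = Real.exp (-(p * G)) := by rw [← Real.exp_nat_mul]; congr 1; ring
  have h2 : p * G ≤ Real.exp (p * G) := by
    have := Real.add_one_le_exp (p * G)
    linarith
  refine h1.trans ?_
  rw [Real.exp_neg, inv_le_comm₀ (Real.exp_pos _) hδ]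
  calc δ⁻¹ = 1 / δ := (one_div δ).symm
    _ ≤ p * G := h
    _ ≤ _ := h2

/-- the real inequality behind one scale -/
theorem scale_ineq (K : ℕ) (hK : 1 ≤ K) (c η g L m N s : ℝ) (L₀ m₀ n S G : ℕ) (hc : 0 < c) (hη : η = c ^ 2 / (20000 * K ^ 3)) (hg : 0 < g) (hL : 1 ≤ L)
    (hm : 1 ≤ m) (hN : 0 < N) (hn : (n : ℝ) = N) (hgL : g ^ 2 * L ≤ η * m) (hL₀ : (L₀ : ℝ) ≤ 2 * L) (hL₀1 : 1 ≤ L₀) (hm₀ : m ≤ m₀) (hm₀N : (m₀ : ℝ) ≤ N) (hm₀2 : 2 ≤ m₀)
    (hS : c * Real.sqrt N / (2 * g) ≤ S) (hs : s = Real.sqrt (2 * L₀ * K)) (hG : (G : ℝ) ≤ S / (8 * K * s)) (hY : 4 ≤ S / s)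
    (R : ℕ) (hR : S ^ 2 ≤ 2 * L₀ * K * (R + 2 * K * G) ^ 2) : (2 * n / (m₀ / 2) + 1) * (24 * K ^ 2) ≤ R * R - R := by
  have hKr : (1 : ℝ) ≤ K := by exact_mod_cast hK
  have hL₀r : (1 : ℝ) ≤ L₀ := by exact_mod_cast hL₀1
  have hs0 : 0 < s := by rw [hs]; positivity
  have hs2 : s ^ 2 = 2 * L₀ * K := by rw [hs, Real.sq_sqrt (by positivity)]
  obtain ⟨Y, hYd⟩ : ∃ Y, Y = (S : ℝ) / s := ⟨_, rfl⟩
  rw [← hYd] at hY
  have hSY : (S : ℝ) = Y * s := by rw [hYd]; field_simp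
  -- `R ≥ 3 Y / 4`
  have hR1 : Y ≤ R + 2 * K * G := by
    have h1 : ((S : ℝ)) ^ 2 ≤ (s * (R + 2 * K * G)) ^ 2 := by
      rw [mul_pow, hs2]; exact_mod_cast hR
    have h2 := abs_le_of_sq_le_sq h1 (by positivity)
    have h3 : (S : ℝ) ≤ s * (R + 2 * K * G) := (abs_le.1 h2).2
    rw [hYd, div_le_iff₀ hs0]
    linarith
  have hG2 : 2 * K * (G : ℝ) ≤ Y / 4 := by
    calc 2 * K * (G : ℝ) ≤ 2 * K * (S / (8 * K * s)) := mul_le_mul_of_nonneg_left hG (by positivity)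
      _ = Y / 4 := by rw [hYd]; field_simp; ring
  have hR2 : 3 / 4 * Y ≤ R := by linarith
  have hR3 : (2 : ℝ) ≤ R := by linarith
  -- the left side
  have hm₀r : (2 : ℝ) ≤ m₀ := by exact_mod_cast hm₀2
  have hm₀0 : (0 : ℝ) < m₀ := by linarith
  have hdiv : (m₀ : ℝ) / 4 ≤ ((m₀ / 2 : ℕ) : ℝ) := by
    have h1 : m₀ ≤ 4 * (m₀ / 2) := by omega
    have h2 : (m₀ : ℝ) ≤ 4 * ((m₀ / 2 : ℕ) : ℝ) := by exact_mod_cast h1
    linarith
  have hleft : (((2 * n / (m₀ / 2) + 1 : ℕ)) : ℝ) ≤ 9 * N / m₀ := by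
    push_cast
    have h1 : ((2 * n / (m₀ / 2) : ℕ) : ℝ) ≤ ((2 * n : ℕ) : ℝ) / ((m₀ / 2 : ℕ) : ℝ) := Nat.cast_div_le
    have h2 : ((2 * n : ℕ) : ℝ) / ((m₀ / 2 : ℕ) : ℝ) ≤ (2 * N) / (m₀ / 4) := by
      push_cast
      rw [hn]
      exact div_le_div_of_nonneg_left (by positivity) (by positivity) hdiv
    have h3 : (2 * N) / ((m₀ : ℝ) / 4) = 8 * N / m₀ := by field_simp; ring
    have h4 : 1 ≤ N / m₀ := by rw [one_le_div hm₀0]; exact hm₀N
    have h5 : 9 * N / m₀ = 8 * N / m₀ + N / m₀ := by ring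
    rw [h5]
    linarith
  -- the right side
  have hYsq : c ^ 2 * N / (16 * K * (g ^ 2 * L)) ≤ Y ^ 2 := by
    have h1 : (c * Real.sqrt N / (2 * g)) ^ 2 ≤ (S : ℝ) ^ 2 := pow_le_pow_left₀ (by positivity) hS 2
    have h2 : (c * Real.sqrt N / (2 * g)) ^ 2 = c ^ 2 * N / (4 * g ^ 2) := by
      rw [div_pow, mul_pow, Real.sq_sqrt hN.le, mul_pow]; norm_num
    rw [h2] at h1
    have h3 : Y ^ 2 = (S : ℝ) ^ 2 / (2 * L₀ * K) := by rw [hYd, div_pow, hs2]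
    rw [h3]
    calc c ^ 2 * N / (16 * K * (g ^ 2 * L)) = c ^ 2 * N / (4 * g ^ 2) / (2 * (2 * L) * K) := by field_simp; ring
      _ ≤ (S : ℝ) ^ 2 / (2 * (2 * L) * K) := div_le_div_of_nonneg_right h1 (by positivity)
      _ ≤ (S : ℝ) ^ 2 / (2 * L₀ * K) := by
        apply div_le_div_of_nonneg_left (by positivity) (by positivity)
        gcongr
  have hη0 : 0 < η := by rw [hη]; positivity
  have hbig : 1250 * K ^ 2 * N / m ≤ Y ^ 2 := by
    refine le_trans ?_ hYsq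
    have h1 : c ^ 2 * N / (16 * K * (η * m)) ≤ c ^ 2 * N / (16 * K * (g ^ 2 * L)) := by
      apply div_le_div_of_nonneg_left (by positivity) (by positivity)
      gcongr
    refine le_trans (le_of_eq ?_) h1
    rw [hη]
    field_simp
    ring
  have hfin : 9 * N / m₀ * (24 * K ^ 2) ≤ (R : ℝ) * R - R := by
    have h1 : 9 * N / m₀ ≤ 9 * N / m := div_le_div_of_nonneg_left (by positivity) (by linarith) hm₀
    have h2 : (R : ℝ) ^ 2 / 2 ≤ R * R - R := by nlinarith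
    have h3 : (3 / 4 * Y) ^ 2 ≤ (R : ℝ) ^ 2 := pow_le_pow_left₀ (by linarith) hR2 2
    have h4 : 9 * N / m * (24 * K ^ 2) = 216 * (K ^ 2 * N / m) := by ring
    have h5 : 1250 * K ^ 2 * N / m = 1250 * (K ^ 2 * N / m) := by ring
    rw [h5] at hbig
    have h6 : 0 ≤ K ^ 2 * N / m := by positivity
    calc 9 * N / m₀ * (24 * K ^ 2) ≤ 9 * N / m * (24 * K ^ 2) := mul_le_mul_of_nonneg_right h1 (by positivity)
      _ = 216 * (K ^ 2 * N / m) := h4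
      _ ≤ (R : ℝ) ^ 2 / 2 := by nlinarith
      _ ≤ _ := h2
  have hRR : R ≤ R * R := by
    have : 2 ≤ R := by exact_mod_cast hR3
    nlinarith
  have : (((2 * n / (m₀ / 2) + 1) * (24 * K ^ 2) : ℕ) : ℝ) ≤ ((R * R - R : ℕ) : ℝ) := by
    rw [Nat.cast_sub hRR]
    push_cast
    push_cast at hleft
    refine le_trans ?_ hfin
    exact mul_le_mul_of_nonneg_right hleft (by positivity)
  exact_mod_cast this

end Pool.Agent.J4H33.PS
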