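import Pool.Agent.J4H33.P4

/-!
# Random translations of the blocks of a set: the theorem
-/

set_option autoImplicit false

namespace Pool.Agent.J4H33.PS

open Finset MeasureTheory ProbabilityTheory Filter

universe u

theorem tendsto_fourth_root : Tendsto (fun n : ℕ => Nat.sqrt (Nat.sqrt n) + 1) atTop atTop := by
  have h : Tendsto Nat.sqrt atTop atTop := by
    apply tendsto_atTop.2
    intro b
    filter_upwards [eventually_ge_atTop (b * b)] with n hn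
    exact Nat.le_sqrt.2 hn
  apply tendsto_atTop_mono (fun n => Nat.le_succ _) (h.comp h)

/-- the power estimate -/
theorem power_bound (K : ℕ) (hK : 1 ≤ K) (δ : ℝ) (hδ : 0 < δ) : ∀ᶠ N : ℕ in atTop, 1 / δ ≤ (N : ℝ) ^ (3 / 16 : ℝ) / (16 * K) := by
  have h1 : Tendsto (fun N : ℕ => (N : ℝ) ^ (3 / 16 : ℝ)) atTop atTop := (tendsto_rpow_atTop (by norm_num)).comp tendsto_natCast_atTop_atTop
  have hKr : (1 : ℝ) ≤ K := by exact_mod_cast hK
  filter_upwards [h1.eventually_ge_atTop (1 / δ * (16 * K))] with N hN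
  rw [le_div_iff₀ (by positivity)]
  exact hN

/-- a law that charges each `r < m` with probability at least `1 / M` -/
theorem m_le_M {Ω : Type u} [MeasurableSpace Ω] (μ : Measure Ω) [IsProbabilityMeasure μ] (X : Ω → ℕ) (hX : Measurable X) (m M : ℝ)
    (hm : 1 ≤ m) (hM : 0 < M) (h : ∀ r : ℕ, (r : ℝ) < m → 1 / M ≤ (μ (X ⁻¹' {r})).toReal) : m ≤ M := by
  classical
  have h1 : μ (⋃ r ∈ range ⌈m⌉₊, X ⁻¹' {r}) = ∑ r ∈ range ⌈m⌉₊, μ (X ⁻¹' {r}) := by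
    apply measure_biUnion_finset
    · intro i _ j _ hij
      rw [Function.onFun, Set.disjoint_left]
      intro ω h1 h2
      rw [Set.mem_preimage, Set.mem_singleton_iff] at h1 h2
      exact hij (h1.symm.trans h2)
    · intro i _
      exact hX (measurableSet_singleton _)
  have h2 : (∑ r ∈ range ⌈m⌉₊, μ (X ⁻¹' {r})).toReal ≤ 1 := by
    rw [← h1]
    have : μ (⋃ r ∈ range ⌈m⌉₊, X ⁻¹' {r}) ≤ 1 := prob_le_one
    exact ENNReal.toReal_le_of_le_ofReal zero_le_one (by simpa using this)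
  rw [ENNReal.toReal_sum (fun r _ => measure_ne_top _ _)] at h2
  have h3 : ∑ _r ∈ range ⌈m⌉₊, 1 / M ≤ ∑ r ∈ range ⌈m⌉₊, (μ (X ⁻¹' {r})).toReal := by
    apply sum_le_sum
    intro r hr
    rw [mem_range, Nat.lt_ceil] at hr
    exact h r hr
  rw [sum_const, card_range, nsmul_eq_mul] at h3
  have h4 : (⌈m⌉₊ : ℝ) * (1 / M) ≤ 1 := h3.trans h2
  rw [mul_one_div, div_le_one hM] at h4
  exact (Nat.le_ceil m).trans h4

theorem random_shift {Ω : Type u} [MeasurableSpace Ω] (μ : Measure Ω) [IsProbabilityMeasure μ] (X : ℕ → Ω → ℕ)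
    (hX : ∀ j, Measurable (X j)) (hind : iIndepFun X μ) (β : ℕ → ℕ)
    (g L m M : ℕ → ℝ) (hg0 : ∀ N, 0 < g N) (hgm : Monotone g) (hL1 : ∀ N, 1 ≤ L N) (hLm : Monotone L) (hm1 : ∀ N, 1 ≤ m N)
    (hmm : Monotone m) (hM0 : ∀ N, 0 < M N) (hMm : Monotone M)
    (h1 : Tendsto (fun N : ℕ => g (N ^ 4) ^ 2 * L (N ^ 4) / m N) atTop (nhds 0))
    (h2 : ∀ ε : ℝ, 0 < ε → ∀ᶠ N : ℕ in atTop, M N ≤ (N : ℝ) ^ ε)
    (hblock : ∀ a b : ℕ, a ≤ b → β a = β b → (b : ℝ) - a ≤ L b)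
    (hlaw : ∀ a r : ℕ, (r : ℝ) < m a → 1 / M a ≤ (μ (X (β a) ⁻¹' {r})).toReal)
    (A : Set ℕ) (c : ℝ) (hc : 0 < c) (hA : ∃ᶠ N : ℕ in atTop, c * Real.sqrt N / g N ≤ ((A ∩ Set.Icc 1 N).ncard : ℝ)) :
    ∀ᵐ ω ∂μ, ∀ K, ∃ n, K ≤ rep (shift A β X ω) n := by
  classical
  rw [ae_all_iff]
  intro K
  rcases Nat.eq_zero_or_pos K with hK0 | hK
  · subst hK0
    exact Eventually.of_forall fun ω => ⟨0, Nat.zero_le _⟩
  have hKr : (1 : ℝ) ≤ K := by exact_mod_cast hK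
  rw [ae_iff]
  have hset : {ω | ¬ ∃ n, K ≤ rep (shift A β X ω) n} = {ω | ∀ n, rep (shift A β X ω) n < K} := by
    ext ω
    simp only [Set.mem_ofPred_eq]
    push Not
    rfl
  rw [hset]
  -- constants
  obtain ⟨η, hη⟩ : ∃ η : ℝ, η = c ^ 2 / (20000 * K ^ 3) := ⟨_, rfl⟩
  have hη0 : 0 < η := by rw [hη]; positivity
  obtain ⟨η₁, hη₁⟩ : ∃ η₁, η₁ = min η (g 0 ^ 2 / (2 * K + 2)) := ⟨_, rfl⟩
  have hg00 := hg0 0
  have hη₁0 : 0 < η₁ := by rw [hη₁]; exact lt_min hη0 (by positivity)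
  have hη₁1 : η₁ ≤ η := by rw [hη₁]; exact min_le_left _ _
  have hη₁2 : η₁ ≤ g 0 ^ 2 / (2 * K + 2) := by rw [hη₁]; exact min_le_right _ _
  -- the measure is smaller than every positive number
  have key : ∀ δ : ℝ, 0 < δ → μ {ω | ∀ n, rep (shift A β X ω) n < K} ≤ ENNReal.ofReal δ := by
    intro δ hδ
    -- eventual conditions
    have e1 : ∀ᶠ N : ℕ in atTop, g (N ^ 4) ^ 2 * L (N ^ 4) / m N ≤ η₁ := by
      have := h1.eventually (gt_mem_nhds hη₁0)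
      exact this.mono fun N h => h.le
    have e1' := tendsto_fourth_root.eventually e1
    have e2 : ∀ᶠ N : ℕ in atTop, M N ≤ (N : ℝ) ^ (1 / (8 * K : ℝ)) := h2 _ (by positivity)
    have e3 : ∀ᶠ N : ℕ in atTop, (N : ℝ) ^ (1 / 2 : ℝ) * (η * (N : ℝ) ^ (1 / 8 : ℝ)) ≤ c ^ 2 * N / 4 := by
      have t1 : Tendsto (fun N : ℕ => (N : ℝ) ^ (3 / 8 : ℝ)) atTop atTop := (tendsto_rpow_atTop (by norm_num)).comp tendsto_natCast_atTop_atTop
      filter_upwards [t1.eventually_ge_atTop (4 * η / c ^ 2), eventually_gt_atTop 0] with N hN hN0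
      have hN0' : (0 : ℝ) < N := by exact_mod_cast hN0
      rw [div_le_iff₀ (by positivity)] at hN
      have e : (N : ℝ) = (N : ℝ) ^ (1 / 2 : ℝ) * (N : ℝ) ^ (1 / 8 : ℝ) * (N : ℝ) ^ (3 / 8 : ℝ) := by
        rw [← Real.rpow_add hN0', ← Real.rpow_add hN0']; norm_num
      have hq : 0 ≤ (N : ℝ) ^ (1 / 2 : ℝ) * (N : ℝ) ^ (1 / 8 : ℝ) := by positivity
      calc (N : ℝ) ^ (1 / 2 : ℝ) * (η * (N : ℝ) ^ (1 / 8 : ℝ)) = ((N : ℝ) ^ (1 / 2 : ℝ) * (N : ℝ) ^ (1 / 8 : ℝ)) * (4 * η) / 4 := by ring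
        _ ≤ ((N : ℝ) ^ (1 / 2 : ℝ) * (N : ℝ) ^ (1 / 8 : ℝ)) * ((N : ℝ) ^ (3 / 8 : ℝ) * c ^ 2) / 4 := by gcongr
        _ = c ^ 2 * ((N : ℝ) ^ (1 / 2 : ℝ) * (N : ℝ) ^ (1 / 8 : ℝ) * (N : ℝ) ^ (3 / 8 : ℝ)) / 4 := by ring
        _ = c ^ 2 * N / 4 := by rw [← e]
    have e4 : ∀ᶠ N : ℕ in atTop, 16 * (K : ℝ) ≤ (N : ℝ) ^ (7 / 16 : ℝ) := by
      have t1 : Tendsto (fun N : ℕ => (N : ℝ) ^ (7 / 16 : ℝ)) atTop atTop := (tendsto_rpow_atTop (by norm_num)).comp tendsto_natCast_atTop_atTop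
      exact t1.eventually_ge_atTop _
    have e5 := power_bound K hK δ hδ
    have e6 : ∀ᶠ N : ℕ in atTop, (N : ℝ) ^ (1 / 8 : ℝ) + 1 ≤ N := by
      have t1 : Tendsto (fun N : ℕ => (N : ℝ) ^ (7 / 8 : ℝ)) atTop atTop := (tendsto_rpow_atTop (by norm_num)).comp tendsto_natCast_atTop_atTop
      filter_upwards [t1.eventually_ge_atTop 2, eventually_ge_atTop 2] with N hN hN0
      have hN1 : (1 : ℝ) ≤ N := by exact_mod_cast (by omega : 1 ≤ N)
      have hN0' : (0 : ℝ) < N := by linarith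
      have e : (N : ℝ) = (N : ℝ) ^ (1 / 8 : ℝ) * (N : ℝ) ^ (7 / 8 : ℝ) := by
        rw [← Real.rpow_add hN0']; norm_num
      have h3 : (1 : ℝ) ≤ (N : ℝ) ^ (1 / 8 : ℝ) := Real.one_le_rpow hN1 (by norm_num)
      calc (N : ℝ) ^ (1 / 8 : ℝ) + 1 ≤ (N : ℝ) ^ (1 / 8 : ℝ) * 2 := by linarith
        _ ≤ (N : ℝ) ^ (1 / 8 : ℝ) * (N : ℝ) ^ (7 / 8 : ℝ) := mul_le_mul_of_nonneg_left hN (by linarith)
        _ = N := e.symm
    obtain ⟨N, hAN, ⟨c1, c2, c3, c4, c5, c6, c7⟩⟩ := (hA.and_eventually (e1'.and (e2.and (e3.and (e4.and (e5.and (e6.and (eventually_ge_atTop 1)))))))).exists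
    -- the parameters
    have hN0 : (0 : ℝ) < N := by exact_mod_cast c7
    have hN1 : (1 : ℝ) ≤ N := by exact_mod_cast c7
    obtain ⟨N₁, hN₁⟩ : ∃ N₁, N₁ = Nat.sqrt (Nat.sqrt N) := ⟨_, rfl⟩
    rw [← hN₁] at c1
    have hN₁4 : N₁ ^ 4 ≤ N := by
      have a1 : N₁ * N₁ ≤ Nat.sqrt N := by rw [hN₁]; exact Nat.sqrt_le _
      have a2 : Nat.sqrt N * Nat.sqrt N ≤ N := Nat.sqrt_le _
      calc N₁ ^ 4 = (N₁ * N₁) * (N₁ * N₁) := by ring
        _ ≤ Nat.sqrt N * Nat.sqrt N := Nat.mul_le_mul a1 a1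
        _ ≤ N := a2
    have hN₂4 : N ≤ (N₁ + 1) ^ 4 := by
      have a1 : Nat.sqrt N < (N₁ + 1) * (N₁ + 1) := by rw [hN₁]; exact Nat.lt_succ_sqrt _
      have a2 : N < (Nat.sqrt N + 1) * (Nat.sqrt N + 1) := Nat.lt_succ_sqrt _
      have a3 : Nat.sqrt N + 1 ≤ (N₁ + 1) * (N₁ + 1) := a1
      calc N ≤ (Nat.sqrt N + 1) * (Nat.sqrt N + 1) := a2.le
        _ ≤ ((N₁ + 1) * (N₁ + 1)) * ((N₁ + 1) * (N₁ + 1)) := Nat.mul_le_mul a3 a3
        _ = (N₁ + 1) ^ 4 := by ring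
    obtain ⟨m', hm'⟩ : ∃ m', m' = m (N₁ + 1) := ⟨_, rfl⟩
    have hm'1 : 1 ≤ m' := by rw [hm']; exact hm1 _
    rw [← hm', div_le_iff₀ (by linarith)] at c1
    have hgN := hg0 N
    have hgg : g N ≤ g ((N₁ + 1) ^ 4) := hgm hN₂4
    have hLL : L N ≤ L ((N₁ + 1) ^ 4) := hLm hN₂4
    have hLN := hL1 N
    have hgL : g N ^ 2 * L N ≤ η₁ * m' := by
      refine le_trans ?_ c1
      gcongr
    have hgL' : g N ^ 2 * L N ≤ η * m' := hgL.trans (mul_le_mul_of_nonneg_right hη₁1 (by linarith))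
    have hm'K : 2 * (K : ℝ) + 2 ≤ m' := by
      have a1 : g 0 ^ 2 ≤ g N ^ 2 * L N := by
        have : g 0 ≤ g N := hgm (Nat.zero_le _)
        calc g 0 ^ 2 ≤ g N ^ 2 := pow_le_pow_left₀ hg00.le this 2
          _ ≤ g N ^ 2 * L N := le_mul_of_one_le_right (by positivity) hLN
      have a2 : g 0 ^ 2 ≤ g 0 ^ 2 / (2 * K + 2) * m' := a1.trans (hgL.trans (mul_le_mul_of_nonneg_right hη₁2 (by linarith)))
      rw [div_mul_eq_mul_div, le_div_iff₀ (by positivity)] at a2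
      exact le_of_mul_le_mul_left a2 (by positivity)
    -- `N₁ < N`
    have hN₁N : N₁ + 1 ≤ N := by
      have h16 : (16 : ℝ) ≤ (N : ℝ) ^ (7 / 16 : ℝ) := by linarith
      have hle : (N : ℝ) ^ (7 / 16 : ℝ) ≤ N := by
        calc (N : ℝ) ^ (7 / 16 : ℝ) ≤ (N : ℝ) ^ (1 : ℝ) := Real.rpow_le_rpow_of_exponent_le hN1 (by norm_num)
          _ = N := Real.rpow_one _
      have hN16 : 16 ≤ N := by
        have : (16 : ℝ) ≤ N := h16.trans hle
        exact_mod_cast this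
      rcases Nat.lt_or_ge N₁ 2 with h | h
      · omega
      · have : N₁ + 1 ≤ N₁ ^ 4 := by nlinarith [Nat.pow_le_pow_left h 3]
        omega
    have hm'M : m' ≤ M N := by
      calc m' ≤ m N := by rw [hm']; exact hmm hN₁N
        _ ≤ M N := m_le_M μ (X (β N)) (hX _) (m N) (M N) (hm1 N) (hM0 N) fun r hr => hlaw N r hr
    have hMN : M N ≤ (N : ℝ) ^ (1 / 8 : ℝ) := by
      refine c2.trans (Real.rpow_le_rpow_of_exponent_le hN1 ?_)
      apply div_le_div_of_nonneg_left (by norm_num) (by norm_num)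
      linarith
    -- the set
    obtain ⟨S, hS⟩ : ∃ S : Finset ℕ, S = (Icc (N₁ + 1) N).filter (fun a => a ∈ A) := ⟨_, rfl⟩
    have hScard : ((A ∩ Set.Icc 1 N).ncard : ℝ) ≤ S.card + N₁ := by
      have a1 : A ∩ Set.Icc 1 N ⊆ ((S ∪ Icc 1 N₁ : Finset ℕ) : Set ℕ) := by
        intro a ha
        rw [coe_union, Set.mem_union, mem_coe, mem_coe, hS, mem_filter, mem_Icc, mem_Icc]
        have := ha.2.1
        have := ha.2.2
        rcases Nat.lt_or_ge N₁ a with h | h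
        · left; exact ⟨⟨h, ha.2.2⟩, ha.1⟩
        · right; exact ⟨ha.2.1, h⟩
      have a2 := Set.ncard_le_ncard a1 (finite_toSet _)
      rw [Set.ncard_coe_finset] at a2
      have a3 := card_union_le S (Icc 1 N₁)
      rw [Nat.card_Icc] at a3
      have a4 : (A ∩ Set.Icc 1 N).ncard ≤ S.card + N₁ := by omega
      exact_mod_cast a4
    have hN₁r : (N₁ : ℝ) ≤ (N : ℝ) ^ (1 / 4 : ℝ) := by
      have a1 : ((N₁ : ℝ)) ^ 4 ≤ N := by exact_mod_cast hN₁4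
      calc (N₁ : ℝ) = ((N₁ : ℝ) ^ 4) ^ (1 / 4 : ℝ) := by
            rw [← Real.rpow_natCast, ← Real.rpow_mul (Nat.cast_nonneg _)]; norm_num
        _ ≤ (N : ℝ) ^ (1 / 4 : ℝ) := Real.rpow_le_rpow (by positivity) a1 (by norm_num)
    have hsmall : (N₁ : ℝ) ≤ c * Real.sqrt N / (2 * g N) := by
      rw [le_div_iff₀ (by positivity)]
      have a1 : ((N₁ : ℝ) * g N) ^ 2 ≤ (c * Real.sqrt N / 2) ^ 2 := by
        have b1 : (N₁ : ℝ) ^ 2 ≤ (N : ℝ) ^ (1 / 2 : ℝ) := by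
          calc (N₁ : ℝ) ^ 2 ≤ ((N : ℝ) ^ (1 / 4 : ℝ)) ^ 2 := pow_le_pow_left₀ (Nat.cast_nonneg _) hN₁r 2
            _ = (N : ℝ) ^ (1 / 2 : ℝ) := by rw [← Real.rpow_natCast, ← Real.rpow_mul hN0.le]; norm_num
        have b2 : g N ^ 2 ≤ η * (N : ℝ) ^ (1 / 8 : ℝ) := by
          calc g N ^ 2 ≤ g N ^ 2 * L N := le_mul_of_one_le_right (by positivity) hLN
            _ ≤ η * m' := hgL'
            _ ≤ η * (N : ℝ) ^ (1 / 8 : ℝ) := mul_le_mul_of_nonneg_left (hm'M.trans hMN) hη0.le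
        calc ((N₁ : ℝ) * g N) ^ 2 = (N₁ : ℝ) ^ 2 * g N ^ 2 := by ring
          _ ≤ (N : ℝ) ^ (1 / 2 : ℝ) * (η * (N : ℝ) ^ (1 / 8 : ℝ)) := mul_le_mul b1 b2 (by positivity) (by positivity)
          _ ≤ c ^ 2 * N / 4 := c3
          _ = (c * Real.sqrt N / 2) ^ 2 := by rw [div_pow, mul_pow, Real.sq_sqrt hN0.le]; norm_num
      have a2 := (abs_le.1 (abs_le_of_sq_le_sq a1 (by positivity))).2
      linarith
    have hSlow : c * Real.sqrt N / (2 * g N) ≤ S.card := by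
      have a1 : c * Real.sqrt N / g N = c * Real.sqrt N / (2 * g N) + c * Real.sqrt N / (2 * g N) := by field_simp; ring
      rw [a1] at hAN
      linarith
    -- the natural numbers
    obtain ⟨L₀, hL₀⟩ : ∃ L₀, L₀ = ⌊L N⌋₊ + 1 := ⟨_, rfl⟩
    have hL₀1 : 1 ≤ L₀ := by omega
    have hL₀2 : (L₀ : ℝ) ≤ 2 * L N := by
      have : (⌊L N⌋₊ : ℝ) ≤ L N := Nat.floor_le (by linarith)
      rw [hL₀]; push_cast; linarith
    obtain ⟨m₀, hm₀⟩ : ∃ m₀, m₀ = ⌈m'⌉₊ := ⟨_, rfl⟩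
    have hm₀1 : m' ≤ m₀ := by rw [hm₀]; exact Nat.le_ceil _
    have hm₀2 : (m₀ : ℝ) < m' + 1 := by rw [hm₀]; exact Nat.ceil_lt_add_one (by linarith)
    have hm₀K : 2 * K + 2 ≤ m₀ := by
      have : (2 * (K : ℝ) + 2) ≤ m₀ := hm'K.trans hm₀1
      exact_mod_cast this
    have hMN1 : 1 ≤ M N := by linarith
    have hMN0 : 0 < M N := by linarith
    obtain ⟨s, hs⟩ : ∃ s : ℝ, s = Real.sqrt (2 * L₀ * K) := ⟨_, rfl⟩
    have hL₀r : (1 : ℝ) ≤ L₀ := by exact_mod_cast hL₀1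
    have hs0 : 0 < s := by rw [hs]; positivity
    have hs2 : s ^ 2 = 2 * L₀ * K := by rw [hs, Real.sq_sqrt (by positivity)]
    obtain ⟨Y, hYd⟩ : ∃ Y, Y = (S.card : ℝ) / s := ⟨_, rfl⟩
    -- `Y` is large
    have hYsq : (N : ℝ) ^ (7 / 8 : ℝ) ≤ Y ^ 2 := by
      have a1 : (c * Real.sqrt N / (2 * g N)) ^ 2 ≤ (S.card : ℝ) ^ 2 := pow_le_pow_left₀ (by positivity) hSlow 2
      have a2 : (c * Real.sqrt N / (2 * g N)) ^ 2 = c ^ 2 * N / (4 * g N ^ 2) := by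
        rw [div_pow, mul_pow, Real.sq_sqrt hN0.le, mul_pow]; norm_num
      rw [a2] at a1
      have a3 : Y ^ 2 = (S.card : ℝ) ^ 2 / (2 * L₀ * K) := by rw [hYd, div_pow, hs2]
      have a4 : c ^ 2 * N / (16 * K * (g N ^ 2 * L N)) ≤ Y ^ 2 := by
        rw [a3]
        calc c ^ 2 * N / (16 * K * (g N ^ 2 * L N)) = c ^ 2 * N / (4 * g N ^ 2) / (2 * (2 * L N) * K) := by field_simp; ring
          _ ≤ (S.card : ℝ) ^ 2 / (2 * (2 * L N) * K) := div_le_div_of_nonneg_right a1 (by positivity)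
          _ ≤ (S.card : ℝ) ^ 2 / (2 * L₀ * K) := by
            apply div_le_div_of_nonneg_left (by positivity) (by positivity)
            gcongr
      refine le_trans ?_ a4
      have a5 : c ^ 2 * N / (16 * K * (η * (N : ℝ) ^ (1 / 8 : ℝ))) ≤ c ^ 2 * N / (16 * K * (g N ^ 2 * L N)) := by
        apply div_le_div_of_nonneg_left (by positivity) (by positivity)
        apply mul_le_mul_of_nonneg_left _ (by positivity)
        exact hgL'.trans (mul_le_mul_of_nonneg_left (hm'M.trans hMN) hη0.le)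
      refine le_trans ?_ a5
      rw [le_div_iff₀ (by positivity)]
      have a6 : (N : ℝ) ^ (7 / 8 : ℝ) * (N : ℝ) ^ (1 / 8 : ℝ) = N := by
        rw [← Real.rpow_add hN0]; norm_num
      have a7 : 16 * K * η ≤ c ^ 2 := by
        rw [hη]
        rw [← mul_div_assoc, div_le_iff₀ (by positivity)]
        have : (K : ℝ) ≤ K ^ 3 := by
          calc (K : ℝ) = K ^ 1 := (pow_one _).symm
            _ ≤ K ^ 3 := pow_le_pow_right₀ hKr (by norm_num)
        have hc2 : 0 < c ^ 2 := by positivity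
        nlinarith
      calc (N : ℝ) ^ (7 / 8 : ℝ) * (16 * K * (η * (N : ℝ) ^ (1 / 8 : ℝ))) = (16 * K * η) * ((N : ℝ) ^ (7 / 8 : ℝ) * (N : ℝ) ^ (1 / 8 : ℝ)) := by ring
        _ = (16 * K * η) * N := by rw [a6]
        _ ≤ c ^ 2 * N := mul_le_mul_of_nonneg_right a7 hN0.le
    have hY0 : 0 ≤ Y := by rw [hYd]; positivity
    have hY : (N : ℝ) ^ (7 / 16 : ℝ) ≤ Y := by
      have a1 : ((N : ℝ) ^ (7 / 16 : ℝ)) ^ 2 ≤ Y ^ 2 := by
        rw [← Real.rpow_natCast, ← Real.rpow_mul hN0.le]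
        refine le_trans (le_of_eq ?_) hYsq
        norm_num
      exact (abs_le.1 (abs_le_of_sq_le_sq a1 hY0)).2
    obtain ⟨G, hG⟩ : ∃ G, G = ⌊Y / (8 * K)⌋₊ := ⟨_, rfl⟩
    have hG1 : (G : ℝ) ≤ Y / (8 * K) := by rw [hG]; exact Nat.floor_le (by positivity)
    have hG2 : Y / (16 * K) ≤ G := by
      have a1 : Y / (8 * K) < G + 1 := by rw [hG]; exact Nat.lt_floor_add_one _
      have a2 : 1 ≤ Y / (16 * K) := by
        rw [one_le_div (by positivity)]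
        exact c4.trans hY
      have a3 : Y / (8 * K) = 2 * (Y / (16 * K)) := by field_simp; ring
      linarith
    have hmain := one_scale μ X hX hind β A S (by intro a ha; rw [hS, mem_filter] at ha; exact ha.2) N K L₀ m₀ G
      (ENNReal.ofReal (1 / M N)) hK (by omega) hL₀1 (by
        rw [← ENNReal.ofReal_one]
        apply ENNReal.ofReal_le_ofReal
        rw [div_le_one hMN0]; exact hMN1) (by intro a ha; rw [hS, mem_filter, mem_Icc] at ha; exact ha.1.2) (by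
        intro a ha b hb hab
        rw [hS, mem_filter, mem_Icc] at ha hb
        rcases Nat.lt_or_ge b a with h | h
        · omega
        · have a1 := hblock a b h hab
          have a2 : L b ≤ L N := hLm hb.1.2
          have a3 : b - a ≤ ⌊L N⌋₊ := by
            apply Nat.le_floor
            rw [Nat.cast_sub h]
            linarith
          omega) (by
        intro a ha r hr
        rw [hS, mem_filter, mem_Icc] at ha
        have a1 : (r : ℝ) < m a := by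
          rw [hm₀, Nat.lt_ceil, hm'] at hr
          exact hr.trans_le (hmm ha.1.1)
        have a2 := hlaw a r a1
        have a3 : 1 / M N ≤ 1 / M a := div_le_div_of_nonneg_left one_pos.le (hM0 a) (hMm ha.1.2)
        calc ENNReal.ofReal (1 / M N) ≤ ENNReal.ofReal ((μ (X (β a) ⁻¹' {r})).toReal) := ENNReal.ofReal_le_ofReal (a3.trans a2)
          _ = μ (X (β a) ⁻¹' {r}) := ENNReal.ofReal_toReal (measure_ne_top _ _)) (by
        intro R hR
        exact scale_ineq K hK c η (g N) (L N) m' N s L₀ m₀ N S.card G hc hη hgN hLN hm'1 hN0 rfl hgL' hL₀2 hL₀1 hm₀1 (by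
          have := hm'M.trans hMN
          linarith) (by omega) hSlow hs (by
          refine hG1.trans (le_of_eq ?_)
          rw [hYd]; field_simp) (by
          rw [← hYd]
          linarith) R hR)
    refine hmain.trans ?_
    -- convert
    obtain ⟨p, hp⟩ : ∃ p : ℝ, p = ((M N)⁻¹) ^ (2 * K) := ⟨_, rfl⟩
    have hp0 : 0 < p := by rw [hp]; positivity
    have hp1 : p ≤ 1 := by rw [hp]; exact pow_le_one₀ (by positivity) (inv_le_one_of_one_le₀ hMN1)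
    have hpe : (ENNReal.ofReal (1 / M N)) ^ (2 * K) = ENNReal.ofReal p := by
      rw [hp, ENNReal.ofReal_pow (by positivity), one_div]
    rw [hpe, ← ENNReal.ofReal_one, ← ENNReal.ofReal_sub _ hp0.le, ← ENNReal.ofReal_pow (by linarith)]
    apply ENNReal.ofReal_le_ofReal
    apply pow_small_bound hδ hp0 hp1
    -- `1 / δ ≤ p G`
    have hplow : (N : ℝ) ^ (-(1 / 4) : ℝ) ≤ p := by
      rw [hp, inv_pow, Real.rpow_neg hN0.le]
      apply inv_anti₀ (by positivity)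
      calc (M N) ^ (2 * K) ≤ ((N : ℝ) ^ (1 / (8 * K : ℝ))) ^ (2 * K) := pow_le_pow_left₀ hMN0.le c2 _
        _ = (N : ℝ) ^ (1 / 4 : ℝ) := by
          rw [← Real.rpow_natCast, ← Real.rpow_mul hN0.le]
          congr 1
          push_cast
          field_simp
          norm_num
    calc 1 / δ ≤ (N : ℝ) ^ (3 / 16 : ℝ) / (16 * K) := c5
      _ = (N : ℝ) ^ (-(1 / 4) : ℝ) * ((N : ℝ) ^ (7 / 16 : ℝ) / (16 * K)) := by
        rw [← mul_div_assoc, ← Real.rpow_add hN0]; norm_num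
      _ ≤ p * G := by
        apply mul_le_mul hplow _ (by positivity) hp0.le
        refine le_trans ?_ hG2
        exact div_le_div_of_nonneg_right hY (by positivity)
  -- conclusion
  apply le_antisymm _ zero_le
  apply ENNReal.le_of_forall_pos_le_add
  intro δ hδ _
  rw [zero_add]
  have h3 := key δ (by exact_mod_cast hδ)
  rwa [ENNReal.ofReal_coe_nnreal] at h3

end Pool.Agent.J4H33.PS
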