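import Pool.Agent.J4H33.W9

/-!
# Prime pairs near the dilates: windows of any length
-/

set_option autoImplicit false

namespace Pool.Agent.J4H33.W

open Finset Filter

/-- **prime pairs near the dilates, one scale, any length** -/
theorem pairs_any (θ₁ : ℝ) (hθ₁ : 0 < θ₁) (hθ₁' : θ₁ < 1) : ∃ C₂ τ : ℝ, 0 < C₂ ∧ 0 < τ ∧ τ ≤ 1 / 2 ∧ ∀ β : ℝ, 0 < β → β ≤ 1 →
    ∀ᶠ X : ℝ in atTop, ∀ M H ℓ D : ℝ, 1 ≤ D → D ≤ X ^ ((1 - θ₁) / 4) → 1 ≤ H → 0 < ℓ → M * ℓ ≤ H →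
      ℓ ≤ X / M → 1 ≤ M → M ≤ X ^ θ₁ → ∀ A : Finset ℕ, (∀ a ∈ A, a.Prime ∧ β * M ≤ (a : ℝ) ∧ (a : ℝ) ≤ M) →
      D * Real.log X ^ 14 ≤ (A.card : ℝ) →
      ∃ U : Finset ℝ, (U.card : ℝ) ≤ X / (M * ℓ * D * Real.log X) ∧ ∀ y : ℝ, 0 < y → y ≤ X / M →
        (∀ a ∈ A, X ^ τ ≤ a * y - H) → (∀ u ∈ U, ¬ (u ≤ y ∧ y ≤ u + ℓ)) →
        npairs A y H ≤ 2 * (C₂ * A.card * (H / Real.log X) ^ 2) := by
  obtain ⟨b0, C, hb0, hC, hmt⟩ := main_term
  obtain ⟨Cm, hCm, hratio⟩ := ratio_sum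
  obtain ⟨CQ, hCQ, hPR⟩ := PR_prod
  obtain ⟨K', hK'⟩ : ∃ K' : ℕ, K' = 5 * (2 * b0 + 6) := ⟨_, rfl⟩
  have hK'1 : (30 : ℝ) ≤ K' := by
    have : 30 ≤ K' := by omega
    exact_mod_cast this
  obtain ⟨τ, hτ⟩ : ∃ τ : ℝ, τ = (1 - θ₁) / (8 * K') := ⟨_, rfl⟩
  have hτ0 : 0 < τ := by rw [hτ]; apply div_pos <;> linarith
  have hτ1 : τ ≤ 1 / 2 := by
    rw [hτ, div_le_iff₀ (by linarith)]
    linarith
  have hτK : 2 * τ * K' = (1 - θ₁) / 4 := by
    rw [hτ]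
    field_simp
    ring
  obtain ⟨C₂, hC₂⟩ : ∃ C₂ : ℝ, C₂ = 4 * C * Cm / (τ / 2) ^ 2 := ⟨_, rfl⟩
  have hC₂0 : 0 < C₂ := by rw [hC₂]; positivity
  refine ⟨C₂, τ, hC₂0, hτ0, hτ1, fun β hβ hβ1 => ?_⟩
  have e1 := exists_J τ hτ0 hτ1
  have e2 : ∀ᶠ X : ℝ in atTop, 2 * (520 * CQ / (β * C₂ ^ 2)) + 1 ≤ Real.log X := Real.tendsto_log_atTop.eventually_ge_atTop _
  have e3 : ∀ᶠ X : ℝ in atTop, 160 / C₂ ^ 2 * Real.log X ^ 5 ≤ X ^ ((1 - θ₁) / 2) := by
    have h1 : (fun X : ℝ => Real.log X ^ 5) =o[atTop] fun X => X ^ ((1 - θ₁) / 2) := by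
      have := isLittleO_log_rpow_rpow_atTop 5 (by linarith : 0 < (1 - θ₁) / 2)
      refine this.congr_left (fun X => ?_)
      norm_cast
    have h2 := h1.bound (by positivity : 0 < C₂ ^ 2 / 160)
    filter_upwards [h2, eventually_gt_atTop 1] with X h3 h4
    have hL : 0 < Real.log X := Real.log_pos h4
    rw [Real.norm_of_nonneg (by positivity), Real.norm_of_nonneg (by positivity)] at h3
    have h5 : 160 / C₂ ^ 2 * Real.log X ^ 5 ≤ 160 / C₂ ^ 2 * (C₂ ^ 2 / 160 * X ^ ((1 - θ₁) / 2)) :=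
      mul_le_mul_of_nonneg_left h3 (by positivity)
    refine h5.trans (le_of_eq ?_)
    field_simp
  filter_upwards [e1, e2, e3, eventually_gt_atTop 1] with X hJ h2 h3 hX1 M H ℓ D hD1 hDX hH1 hℓ hMℓ hℓY hM1 hMX A hA hAcard
  obtain ⟨J, hJ1, hJ2, hJ3⟩ := hJ
  have hX0 : 0 < X := by linarith
  have hM0 : 0 < M := by linarith
  have hD0 : 0 < D := by linarith
  have hH0 : 0 < H := by linarith
  obtain ⟨L, hL⟩ : ∃ L, L = Real.log X := ⟨_, rfl⟩
  rw [← hL] at h2 h3 hJ2 hJ3 hAcard ⊢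
  have hL1 : 1 ≤ L := by
    have : 0 ≤ 520 * CQ / (β * C₂ ^ 2) := by positivity
    linarith
  have hL0 : 0 < L := by linarith
  obtain ⟨α, hα⟩ : ∃ α : ℝ, α = (A.card : ℝ) := ⟨_, rfl⟩
  rw [← hα] at hAcard ⊢
  have hα0 : 0 < α := lt_of_lt_of_le (by positivity) hAcard
  obtain ⟨Y, hY⟩ : ∃ Y, Y = X / M := ⟨_, rfl⟩
  rw [← hY] at hℓY ⊢
  have hY0 : 0 < Y := by rw [hY]; positivity
  obtain ⟨K, hK⟩ : ∃ K : ℝ, K = C₂ * α * (H / L) ^ 2 := ⟨_, rfl⟩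
  have hK0 : 0 < K := by rw [hK]; positivity
  obtain ⟨z, hz⟩ : ∃ z : ℝ, z = (2 : ℝ) ^ 2 ^ J := ⟨_, rfl⟩
  have hzX : z ≤ X ^ τ := by
    rw [hz]
    push_cast at hJ1
    exact hJ1
  have hz0 : 0 < z := by rw [hz]; positivity
  have hzK : (z ^ K') ^ 2 ≤ X ^ ((1 - θ₁) / 4) := by
    calc (z ^ K') ^ 2 = z ^ (K' * 2) := by rw [pow_mul]
      _ ≤ (X ^ τ) ^ (K' * 2) := pow_le_pow_left₀ hz0.le hzX _
      _ = X ^ ((1 - θ₁) / 4) := by
        rw [← Real.rpow_natCast, ← Real.rpow_mul hX0.le, ← hτK]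
        congr 1
        push_cast
        ring
  -- the mean
  have hmean : ∑ h ∈ Icc 1 ⌊H⌋₊, (A.card : ℝ) * (2 * (2 * H) * mt b0 h J) ≤ K := by
    have h4J : (τ / 2 * L) ^ 2 ≤ (4 : ℝ) ^ J := by
      have : (4 : ℝ) ^ J = (2 ^ J) ^ 2 := by rw [← pow_mul, mul_comm, pow_mul]; norm_num
      rw [this]
      exact pow_le_pow_left₀ (by positivity) hJ2 2
    calc ∑ h ∈ Icc 1 ⌊H⌋₊, (A.card : ℝ) * (2 * (2 * H) * mt b0 h J)
        ≤ ∑ h ∈ Icc 1 ⌊H⌋₊, α * (4 * H) * (C / (τ / 2 * L) ^ 2) * ((h : ℝ) / Nat.totient h) ^ 2 := by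
          apply sum_le_sum
          intro h hh
          rw [mem_Icc] at hh
          have h5 := hmt h J hh.1
          have h6 : mt b0 h J ≤ C / (τ / 2 * L) ^ 2 * ((h : ℝ) / Nat.totient h) ^ 2 := by
            unfold mt
            refine h5.trans ?_
            rw [div_mul_eq_mul_div]
            exact div_le_div_of_nonneg_left (by positivity) (by positivity) h4J
          rw [← hα]
          calc α * (2 * (2 * H) * mt b0 h J) = α * (4 * H) * mt b0 h J := by ring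
            _ ≤ α * (4 * H) * (C / (τ / 2 * L) ^ 2 * ((h : ℝ) / Nat.totient h) ^ 2) :=
              mul_le_mul_of_nonneg_left h6 (by positivity)
            _ = _ := by ring
      _ = α * (4 * H) * (C / (τ / 2 * L) ^ 2) * ∑ h ∈ Icc 1 ⌊H⌋₊, ((h : ℝ) / Nat.totient h) ^ 2 := by rw [mul_sum]
      _ ≤ α * (4 * H) * (C / (τ / 2 * L) ^ 2) * (Cm * H) := by
          apply mul_le_mul_of_nonneg_left _ (by positivity)
          refine (hratio _).trans ?_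
          exact mul_le_mul_of_nonneg_left (Nat.floor_le hH0.le) hCm.le
      _ = K := by
          rw [hK, hC₂]
          field_simp
  -- the variance
  obtain ⟨V, hV⟩ : ∃ V : ℝ, V = 2 * (2 * H) * (2 * Y) * (CQ * L ^ 8 * α * (65 / β)) + 20 * (2 * H) ^ 2 * (α ^ 2 * X ^ ((1 - θ₁) / 4)) :=
    ⟨_, rfl⟩
  have hV0 : 0 ≤ V := by rw [hV]; positivity
  have hαM : α ≤ M := by
    have h5 : A ⊆ Icc 1 ⌊M⌋₊ := by
      intro a ha
      rw [mem_Icc]
      exact ⟨(hA a ha).1.one_le, Nat.le_floor (hA a ha).2.2⟩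
    have h6 := card_le_card h5
    rw [Nat.card_Icc, Nat.add_sub_cancel] at h6
    rw [hα]
    exact (Nat.cast_le.2 h6).trans (Nat.floor_le hM0.le)
  have hvar : ∀ h ∈ Icc 1 ⌊H⌋₊, ∫ y in Set.Icc 0 (Y + ℓ), (∑ a ∈ A, Gam b0 h J (2 * H) (a * y) -
      A.card * (2 * (2 * H) * mt b0 h J)) ^ 2 ≤ V := by
    intro h _
    have h5 := var_h b0 h J A (2 * H) (Y + ℓ) (β * M) (by linarith) (by positivity) (by positivity)
      (fun a ha => ⟨(hA a ha).1, (hA a ha).2.1⟩)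
    refine h5.trans ?_
    rw [← hα, ← hz, ← hK', hV]
    have h6 : ∏ l ∈ PR J, (1 + 8 / (l : ℝ)) ≤ CQ * L ^ 8 := by
      refine (hPR J).trans ?_
      apply mul_le_mul_of_nonneg_left _ hCQ.le
      have : (256 : ℝ) ^ J = (2 ^ J) ^ 8 := by rw [← pow_mul, mul_comm, pow_mul]; norm_num
      rw [this]
      exact pow_le_pow_left₀ (by positivity) hJ3 8
    have h7 : 1 + 64 * α / (β * M) ≤ 65 / β := by
      rw [le_div_iff₀ hβ]
      have h8 : 64 * α / (β * M) * β = 64 * α / M := by field_simp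
      rw [add_mul, h8, one_mul]
      have h9 : 64 * α / M ≤ 64 := by rw [div_le_iff₀ hM0]; linarith
      linarith
    have h10 : 0 ≤ ∏ l ∈ PR J, (1 + 8 / (l : ℝ)) := prod_nonneg (fun l _ => by positivity)
    apply add_le_add
    · apply mul_le_mul
      · apply mul_le_mul_of_nonneg_left _ (by positivity)
        linarith
      · apply mul_le_mul _ h7 (by positivity) (by positivity)
        exact mul_le_mul_of_nonneg_right h6 hα0.le
      · positivity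
      · positivity
    · apply mul_le_mul_of_nonneg_left _ (by positivity)
      rw [mul_pow]
      exact mul_le_mul_of_nonneg_left hzK (by positivity)
  obtain ⟨U, hU1, hU2⟩ := badcells b0 J hb0 A H ℓ Y M K (fun _ => V) hH1 hℓ hMℓ (fun a ha => (hA a ha).2.2) hK0 hY0.le hmean hvar
  refine ⟨U, ?_, fun y hy0 hy1 hy2 hyU => ?_⟩
  · rw [sum_const, Nat.card_Icc, Nat.add_sub_cancel, nsmul_eq_mul] at hU1
    have hfl : ((⌊H⌋₊ : ℕ) : ℝ) ≤ H := Nat.floor_le hH0.le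
    have h5 : (U.card : ℝ) * ℓ * K ^ 2 ≤ H * (H * V) := by
      refine hU1.trans ?_
      exact mul_le_mul hfl (mul_le_mul_of_nonneg_right hfl hV0) (by positivity) hH0.le
    have h6 : (U.card : ℝ) ≤ V * L ^ 4 / (ℓ * C₂ ^ 2 * α ^ 2 * H ^ 2) := by
      rw [le_div_iff₀ (by positivity)]
      have h7 : (U.card : ℝ) * (ℓ * C₂ ^ 2 * α ^ 2 * H ^ 2) = (U.card * ℓ * K ^ 2) * (L ^ 4 / H ^ 2) := by
        rw [hK]
        field_simp
      rw [h7]
      calc (U.card * ℓ * K ^ 2) * (L ^ 4 / H ^ 2) ≤ (H * (H * V)) * (L ^ 4 / H ^ 2) :=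
            mul_le_mul_of_nonneg_right h5 (by positivity)
        _ = V * L ^ 4 := by field_simp
    refine h6.trans ?_
    have hsplit : V * L ^ 4 / (ℓ * C₂ ^ 2 * α ^ 2 * H ^ 2) =
        (520 * CQ / (β * C₂ ^ 2)) * (Y * L ^ 12 / (ℓ * α * H)) + 80 * X ^ ((1 - θ₁) / 4) * L ^ 4 / (ℓ * C₂ ^ 2) := by
      rw [hV]
      field_simp
      ring
    rw [hsplit]
    have hgoal : X / (M * ℓ * D * L) = Y / (ℓ * D * L) := by rw [hY]; field_simp
    rw [hgoal]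
    have hfirst : (520 * CQ / (β * C₂ ^ 2)) * (Y * L ^ 12 / (ℓ * α * H)) ≤ 1 / 2 * (Y / (ℓ * D * L)) := by
      obtain ⟨κ, hκ⟩ : ∃ κ : ℝ, κ = 520 * CQ / (β * C₂ ^ 2) := ⟨_, rfl⟩
      rw [← hκ] at h2 ⊢
      have hκ0 : 0 < κ := by rw [hκ]; positivity
      have h7 : D * L ^ 14 ≤ α * H := hAcard.trans (le_mul_of_one_le_right hα0.le hH1)
      have h8 : Y * L ^ 12 / (ℓ * α * H) ≤ Y * L ^ 12 / (ℓ * (D * L ^ 14)) := by
        apply div_le_div_of_nonneg_left (by positivity) (by positivity)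
        rw [mul_assoc]
        exact mul_le_mul_of_nonneg_left h7 hℓ.le
      have h9 : Y * L ^ 12 / (ℓ * (D * L ^ 14)) = (Y / (ℓ * D * L)) * (1 / L) := by field_simp
      have h10 : κ * (1 / L) ≤ 1 / 2 := by
        rw [mul_one_div, div_le_iff₀ hL0]
        linarith
      calc κ * (Y * L ^ 12 / (ℓ * α * H)) ≤ κ * ((Y / (ℓ * D * L)) * (1 / L)) := by
            apply mul_le_mul_of_nonneg_left _ hκ0.le
            rw [← h9]
            exact h8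
        _ = κ * (1 / L) * (Y / (ℓ * D * L)) := by ring
        _ ≤ 1 / 2 * (Y / (ℓ * D * L)) := mul_le_mul_of_nonneg_right h10 (by positivity)
    have hsecond : 80 * X ^ ((1 - θ₁) / 4) * L ^ 4 / (ℓ * C₂ ^ 2) ≤ 1 / 2 * (Y / (ℓ * D * L)) := by
      have h7 : X ^ ((1 - θ₁) / 4) * X ^ ((1 - θ₁) / 2) * D * M ≤ X := by
        calc X ^ ((1 - θ₁) / 4) * X ^ ((1 - θ₁) / 2) * D * M
            ≤ X ^ ((1 - θ₁) / 4) * X ^ ((1 - θ₁) / 2) * X ^ ((1 - θ₁) / 4) * X ^ θ₁ := by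
              apply mul_le_mul _ hMX hM0.le (by positivity)
              exact mul_le_mul_of_nonneg_left hDX (by positivity)
          _ = X := by
              rw [← Real.rpow_add hX0, ← Real.rpow_add hX0, ← Real.rpow_add hX0]
              have : (1 - θ₁) / 4 + (1 - θ₁) / 2 + (1 - θ₁) / 4 + θ₁ = 1 := by ring
              rw [this, Real.rpow_one]
      have h8 : X ^ ((1 - θ₁) / 4) * (160 / C₂ ^ 2 * L ^ 5) * D * M ≤ X := by
        refine le_trans ?_ h7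
        apply mul_le_mul_of_nonneg_right _ hM0.le
        apply mul_le_mul_of_nonneg_right _ hD0.le
        exact mul_le_mul_of_nonneg_left h3 (by positivity)
      rw [hY, div_le_iff₀ (by positivity)]
      have h9 : 1 / 2 * (X / M / (ℓ * D * L)) * (ℓ * C₂ ^ 2) = X * (C₂ ^ 2 / (2 * M * D * L)) := by field_simp
      rw [h9]
      calc 80 * X ^ ((1 - θ₁) / 4) * L ^ 4 = (X ^ ((1 - θ₁) / 4) * (160 / C₂ ^ 2 * L ^ 5) * D * M) * (C₂ ^ 2 / (2 * M * D * L)) := by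
            field_simp
            norm_num
        _ ≤ X * (C₂ ^ 2 / (2 * M * D * L)) := mul_le_mul_of_nonneg_right h8 (by positivity)
    linarith
  · have h5 := hU2 y hy0 hy1 (fun a ha => by
      refine le_trans ?_ (hy2 a ha)
      push_cast
      rw [← hz]
      exact hzX) hyU
    rw [hK] at h5
    exact h5

end Pool.Agent.J4H33.W
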