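import Pool.Agent.J4H33.Q1

/-!
# Long windows: a positive proportion of the dilates has a prime nearby
-/

set_option autoImplicit false

namespace Pool.Agent.J4H33.W

open Finset Filter
open Pool.Agent.Results.MP_711652_nt.SparseDilates (density)

/-- from the two moments to the number of dilates with a prime nearby, long windows -/
theorem from_moments_big (A : Finset ℕ) (y H L C₂ : ℝ) (hL : 0 < L) (hHL : L ≤ H) (hC₂ : 0 < C₂)
    (h1 : (A.card : ℝ) * (H / (2 * L)) ≤ ∑ a ∈ A, ((win (a * y) H).card : ℝ))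
    (h2 : npairs A y H ≤ 2 * (C₂ * A.card * (H / L) ^ 2)) :
    (A.card : ℝ) / (2 * (1 + 8 * C₂)) ≤ ((A.filter (fun a : ℕ => (win (a * y) H).Nonempty)).card : ℝ) := by
  classical
  obtain ⟨S, hS⟩ : ∃ S, S = ∑ a ∈ A, ((win (a * y) H).card : ℝ) := ⟨_, rfl⟩
  obtain ⟨N, hN⟩ : ∃ N : ℝ, N = ((A.filter (fun a : ℕ => (win (a * y) H).Nonempty)).card : ℝ) := ⟨_, rfl⟩
  rw [← hS] at h1
  rw [← hN]
  have hS0 : 0 ≤ S := by rw [hS]; exact sum_nonneg (fun _ _ => Nat.cast_nonneg _)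
  have hN0 : 0 ≤ N := by rw [hN]; exact Nat.cast_nonneg _
  have hsq : ∑ a ∈ A, ((win (a * y) H).card : ℝ) ^ 2 ≤ S + 2 * npairs A y H := by
    calc ∑ a ∈ A, ((win (a * y) H).card : ℝ) ^ 2 ≤ ∑ a ∈ A, (((win (a * y) H).card : ℝ) +
          2 * ∑ h ∈ Icc 1 ⌊H⌋₊, (((win (a * y) H).filter (fun p => p + h ∈ win (a * y) H)).card : ℝ)) :=
          sum_le_sum (fun a _ => win_sq _ _)
      _ = S + 2 * npairs A y H := by
          rw [sum_add_distrib, ← hS, ← mul_sum]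
          unfold npairs
          rw [sum_comm]
  have hCS : S ^ 2 ≤ N * ∑ a ∈ A, ((win (a * y) H).card : ℝ) ^ 2 := by
    have e1 : S = ∑ a ∈ A.filter (fun a : ℕ => (win (a * y) H).Nonempty), ((win (a * y) H).card : ℝ) := by
      rw [hS, sum_filter]
      apply sum_congr rfl
      intro a _
      split_ifs with h
      · rfl
      · rw [not_nonempty_iff_eq_empty] at h
        rw [h]
        simp
    have e2 := sq_sum_le_card_mul_sum_sq (s := A.filter (fun a : ℕ => (win (a * y) H).Nonempty))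
      (f := fun a : ℕ => ((win (a * y) H).card : ℝ))
    rw [← e1, ← hN] at e2
    refine e2.trans (mul_le_mul_of_nonneg_left ?_ hN0)
    exact sum_le_sum_of_subset_of_nonneg (filter_subset _ _) (fun _ _ _ => sq_nonneg _)
  obtain ⟨q, hq⟩ : ∃ q, q = H / L := ⟨_, rfl⟩
  have hq1 : 1 ≤ q := by rw [hq, one_le_div hL]; exact hHL
  rw [← hq] at h2
  have e0 : (A.card : ℝ) * (H / (2 * L)) = A.card * q / 2 := by rw [hq]; field_simp
  rw [e0] at h1
  have hpairs : 2 * npairs A y H ≤ 8 * C₂ * q * S := by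
    calc 2 * npairs A y H ≤ 2 * (2 * (C₂ * A.card * q ^ 2)) := by linarith
      _ = 8 * C₂ * q * (A.card * q / 2) := by ring
      _ ≤ 8 * C₂ * q * S := mul_le_mul_of_nonneg_left h1 (by positivity)
  have hfin : S ^ 2 ≤ N * ((1 + 8 * C₂) * q * S) := by
    refine hCS.trans (mul_le_mul_of_nonneg_left ?_ hN0)
    have : S ≤ q * S := le_mul_of_one_le_left hS0 hq1
    nlinarith
  rw [div_le_iff₀ (by positivity)]
  rcases hS0.eq_or_lt with h | h
  · rw [← h] at h1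
    have h3 : (A.card : ℝ) ≤ 0 := by
      by_contra hcon
      push Not at hcon
      have : 0 < (A.card : ℝ) * q / 2 := by positivity
      linarith
    refine h3.trans (by positivity)
  · have h3 : S ≤ N * (1 + 8 * C₂) * q := by
      have h4 : S * S ≤ (N * (1 + 8 * C₂) * q) * S := by
        calc S * S = S ^ 2 := by ring
          _ ≤ N * ((1 + 8 * C₂) * q * S) := hfin
          _ = _ := by ring
      exact le_of_mul_le_mul_right h4 h
    have h5 : (A.card : ℝ) * q / 2 ≤ N * (1 + 8 * C₂) * q := h1.trans h3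
    have h6 : (A.card : ℝ) / 2 * q ≤ N * (1 + 8 * C₂) * q := by linarith
    have h7 := le_of_mul_le_mul_right h6 (by linarith)
    linarith

theorem positive_big (θ₁ : ℝ) (hθ₁ : 0 < θ₁) (hθ₁' : θ₁ < 1) : ∃ c₀ : ℝ, 0 < c₀ ∧ c₀ ≤ 1 / 2 ∧ ∀ γ ε ρ β : ℝ, 0 < γ → 0 < ε →
    γ + (1 + θ₁) * ε < 1 / 3 → 0 < ρ → 0 < β →
    ∃ s X₀ : ℝ, 0 < s ∧ ∀ X : ℝ, X₀ ≤ X → ∀ M D H : ℝ, 1 ≤ D → D ≤ X ^ s → D * Real.log X ^ 5 ≤ M ^ γ → 0 < M →
      M ≤ X ^ θ₁ → Real.log X ≤ H → H ≤ X ^ (1 - ρ) →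
      ∀ A : Finset ℕ, (∀ a ∈ A, a.Prime ∧ β * M ≤ (a : ℝ) ∧ (a : ℝ) ≤ M) → M ^ (1 - ε) ≤ (A.card : ℝ) →
      ∃ U : Finset ℝ, (U.card : ℝ) ≤ X / (H * D) ∧ ∀ y : ℝ, 0 < y → y ≤ X / M →
        (∀ u ∈ U, ¬ (u ≤ y ∧ y ≤ u + H / M)) →
        c₀ * A.card ≤ ((A.filter (fun a : ℕ => (win (a * y) H).Nonempty)).card : ℝ) := by
  classical
  obtain ⟨C₂, τ, hC₂, hτ, hτ1, hpairs⟩ := pairs_any θ₁ hθ₁ hθ₁'
  refine ⟨1 / (2 * (1 + 8 * C₂)), by positivity, ?_, fun γ ε ρ β hγ hε hcond hρ hβ => ?_⟩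
  · rw [div_le_div_iff₀ (by positivity) (by norm_num)]
    linarith
  obtain ⟨β₁, hβ₁⟩ : ∃ β₁, β₁ = min β 1 := ⟨_, rfl⟩
  have hβ₁0 : 0 < β₁ := by rw [hβ₁]; exact lt_min hβ one_pos
  have hβ₁1 : β₁ ≤ β := by rw [hβ₁]; exact min_le_left _ _
  have hβ₁2 : β₁ ≤ 1 := by rw [hβ₁]; exact min_le_right _ _
  obtain ⟨s₁, H₁, X₁, hs₁, hfirst⟩ := Pool.Agent.Results.MP_711652_nt.SparseDilates.result γ ε θ₁ ρ β₁ (1 / 2) hγ hε hθ₁
    hθ₁' hcond hρ hβ₁0 (by norm_num)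
  obtain ⟨s, hs⟩ : ∃ s, s = min (s₁ / 2) (min ((1 - θ₁) / 8) (min ρ 1 / 4)) := ⟨_, rfl⟩
  have hρ1 : 0 < min ρ 1 := lt_min hρ one_pos
  have hs0 : 0 < s := by rw [hs]; apply lt_min <;> [positivity; apply lt_min <;> [linarith; positivity]]
  have hs1 : s ≤ s₁ / 2 := by rw [hs]; exact min_le_left _ _
  have hs2 : s ≤ (1 - θ₁) / 8 := by rw [hs]; exact (min_le_right _ _).trans (min_le_left _ _)
  have hs3 : s ≤ min ρ 1 / 4 := by rw [hs]; exact (min_le_right _ _).trans (min_le_right _ _)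
  have hs4 : s ≤ ρ / 4 := hs3.trans (by have := min_le_left ρ 1; linarith)
  have hs5 : s ≤ 1 / 4 := hs3.trans (by have := min_le_right ρ 1; linarith)
  have e1 := hpairs β₁ hβ₁0 hβ₁2
  have e2 : ∀ᶠ X : ℝ in atTop, max 8 H₁ ≤ Real.log X := Real.tendsto_log_atTop.eventually_ge_atTop _
  have e3 : ∀ᶠ X : ℝ in atTop, 8 ≤ X ^ (s₁ / 2) := (tendsto_rpow_atTop (by positivity)).eventually_ge_atTop _
  have e4 : ∀ᶠ X : ℝ in atTop, 8 ≤ X ^ ((1 - θ₁) / 8) := (tendsto_rpow_atTop (by linarith)).eventually_ge_atTop _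
  have e5 : ∀ᶠ X : ℝ in atTop, 8 * (1 / β₁ + 1) ≤ X ^ (ρ / 4) := (tendsto_rpow_atTop (by positivity)).eventually_ge_atTop _
  have e6 : ∀ᶠ X : ℝ in atTop, 8 / β₁ ≤ X ^ ((1 : ℝ) / 4) := (tendsto_rpow_atTop (by norm_num)).eventually_ge_atTop _
  obtain ⟨X₂, hX₂⟩ := eventually_atTop.1 (e1.and (e2.and (e3.and (e4.and (e5.and (e6.and (eventually_ge_atTop 3)))))))
  refine ⟨s, max X₁ X₂, hs0, fun X hX M D H hD1 hDs hM hM0 hMX hLH hHX A hA hAcard => ?_⟩
  obtain ⟨hpX, hLX, h8a, h8b, h5, h6, h3⟩ := hX₂ X ((le_max_right _ _).trans hX)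
  have hXX₁ : X₁ ≤ X := (le_max_left _ _).trans hX
  have hX0 : 0 < X := by linarith
  have hX1 : 1 < X := by linarith
  have hD0 : 0 < D := by linarith
  obtain ⟨L, hL⟩ : ∃ L, L = Real.log X := ⟨_, rfl⟩
  rw [← hL] at hLX hM hLH
  have hL8 : 8 ≤ L := (le_max_left _ _).trans hLX
  have hLH₁ : H₁ ≤ L := (le_max_right _ _).trans hLX
  have hL0 : 0 < L := by linarith
  have hH0 : 0 < H := by linarith
  have hMγ : 1 ≤ M ^ γ := by
    refine le_trans ?_ hM
    have : (1 : ℝ) ≤ L ^ 5 := one_le_pow₀ (by linarith)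
    exact one_le_mul_of_one_le_of_one_le hD1 this
  have hM1 : 1 ≤ M := by
    by_contra hcon
    push Not at hcon
    have : M ^ γ < 1 := Real.rpow_lt_one hM0.le hcon hγ
    linarith
  have hA₁ : ∀ a ∈ A, a.Prime ∧ β₁ * M ≤ (a : ℝ) ∧ (a : ℝ) ≤ M := fun a ha =>
    ⟨(hA a ha).1, (mul_le_mul_of_nonneg_right hβ₁1 hM0.le).trans (hA a ha).2.1, (hA a ha).2.2⟩
  have hcard14 : (8 * D) * L ^ 14 ≤ (A.card : ℝ) := by
    refine le_trans ?_ hAcard
    have h7 : M ^ (3 * γ) ≤ M ^ (1 - ε) := Real.rpow_le_rpow_of_exponent_le hM1 (by nlinarith)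
    refine le_trans ?_ h7
    have h8 : M ^ (3 * γ) = (M ^ γ) ^ 3 := by
      rw [← Real.rpow_natCast, ← Real.rpow_mul hM0.le]
      congr 1
      push_cast
      ring
    rw [h8]
    calc (8 * D) * L ^ 14 ≤ (L * D ^ 3) * L ^ 14 := by
          apply mul_le_mul_of_nonneg_right _ (by positivity)
          have h9 : D ≤ D ^ 3 := le_self_pow₀ hD1 (by norm_num)
          exact mul_le_mul hL8 h9 hD0.le hL0.le
      _ = (D * L ^ 5) ^ 3 := by ring
      _ ≤ (M ^ γ) ^ 3 := pow_le_pow_left₀ (by positivity) hM 3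
  obtain ⟨ℓ, hℓ⟩ : ∃ ℓ, ℓ = H / M := ⟨_, rfl⟩
  have hℓ0 : 0 < ℓ := by rw [hℓ]; positivity
  have hMℓ : M * ℓ = H := by rw [hℓ]; field_simp
  have hHX1 : H ≤ X := by
    refine hHX.trans ?_
    calc X ^ (1 - ρ) ≤ X ^ (1 : ℝ) := Real.rpow_le_rpow_of_exponent_le hX1.le (by linarith)
      _ = X := Real.rpow_one X
  -- first moment
  obtain ⟨U₁, hU₁a, hU₁b⟩ := hfirst X hXX₁ M (8 * D) H (by linarith) (by
    calc 8 * D ≤ X ^ (s₁ / 2) * X ^ s := mul_le_mul h8a hDs hD0.le (by positivity)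
      _ = X ^ (s₁ / 2 + s) := by rw [← Real.rpow_add hX0]
      _ ≤ X ^ s₁ := Real.rpow_le_rpow_of_exponent_le hX1.le (by linarith)) (by linarith) (by
    rw [← hL]
    have h7 : max 1 (L / H) = 1 := max_eq_left (by rw [div_le_one hH0]; exact hLH)
    rw [h7, mul_one]
    calc 8 * D * L ≤ L ^ 4 * D * L := by
          apply mul_le_mul_of_nonneg_right _ hL0.le
          apply mul_le_mul_of_nonneg_right _ hD0.le
          calc (8 : ℝ) ≤ L := hL8
            _ = L ^ 1 := (pow_one L).symm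
            _ ≤ L ^ 4 := pow_le_pow_right₀ (by linarith) (by norm_num)
      _ = D * L ^ 5 := by ring
      _ ≤ M ^ γ := hM) hM0 hMX A hA₁ hAcard
  -- pairs
  obtain ⟨U₂, hU₂a, hU₂b⟩ := hpX M H ℓ (8 * D) (by linarith) (by
    calc 8 * D ≤ X ^ ((1 - θ₁) / 8) * X ^ s := mul_le_mul h8b hDs hD0.le (by positivity)
      _ = X ^ ((1 - θ₁) / 8 + s) := by rw [← Real.rpow_add hX0]
      _ ≤ X ^ ((1 - θ₁) / 4) := Real.rpow_le_rpow_of_exponent_le hX1.le (by linarith)) (by linarith) hℓ0 hMℓ.le (by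
    rw [hℓ]; exact div_le_div_of_nonneg_right hHX1 hM0.le) hM1 hMX A hA₁ (by rw [← hL]; exact hcard14)
  rw [← hL] at hU₂a hU₂b
  -- small y
  obtain ⟨y₀, hy₀⟩ : ∃ y₀, y₀ = (X ^ τ + H) / (β₁ * M) := ⟨_, rfl⟩
  have hy₀0 : 0 < y₀ := by rw [hy₀]; positivity
  obtain ⟨U₀, hU₀⟩ : ∃ U₀ : Finset ℝ, U₀ = (range (⌊y₀ / ℓ⌋₊ + 1)).image (fun k : ℕ => (k : ℝ) * ℓ) := ⟨_, rfl⟩
  have hU₀card : (U₀.card : ℝ) ≤ X / (4 * (H * D)) := by
    have h7 : (U₀.card : ℝ) ≤ y₀ / ℓ + 1 := by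
      have h8 : U₀.card ≤ ⌊y₀ / ℓ⌋₊ + 1 := by
        rw [hU₀]
        exact card_image_le.trans (by rw [card_range])
      have h9 : ((⌊y₀ / ℓ⌋₊ : ℕ) : ℝ) ≤ y₀ / ℓ := Nat.floor_le (by positivity)
      have h10 : (U₀.card : ℝ) ≤ ((⌊y₀ / ℓ⌋₊ : ℕ) : ℝ) + 1 := by exact_mod_cast h8
      linarith
    refine h7.trans ?_
    have h8 : y₀ / ℓ = X ^ τ / (β₁ * H) + 1 / β₁ := by rw [hy₀, hℓ]; field_simp
    rw [h8]
    -- both parts are small
    have h9 : X ^ τ / (β₁ * H) ≤ X / (8 * (H * D)) := by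
      rw [div_le_div_iff₀ (by positivity) (by positivity)]
      have h10 : X ^ τ * (8 / β₁) * D ≤ X := by
        calc X ^ τ * (8 / β₁) * D ≤ X ^ ((1 : ℝ) / 2) * X ^ ((1 : ℝ) / 4) * X ^ ((1 : ℝ) / 4) := by
              apply mul_le_mul _ (hDs.trans (Real.rpow_le_rpow_of_exponent_le hX1.le hs5)) hD0.le (by positivity)
              apply mul_le_mul _ h6 (by positivity) (by positivity)
              exact Real.rpow_le_rpow_of_exponent_le hX1.le hτ1
          _ = X := by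
            rw [← Real.rpow_add hX0, ← Real.rpow_add hX0]
            norm_num
      calc X ^ τ * (8 * (H * D)) = (X ^ τ * (8 / β₁) * D) * (β₁ * H) := by field_simp
        _ ≤ X * (β₁ * H) := mul_le_mul_of_nonneg_right h10 (by positivity)
    have h11 : 1 / β₁ + 1 ≤ X / (8 * (H * D)) := by
      rw [le_div_iff₀ (by positivity)]
      calc (1 / β₁ + 1) * (8 * (H * D)) = (8 * (1 / β₁ + 1)) * H * D := by ring
        _ ≤ X ^ (ρ / 4) * X ^ (1 - ρ) * X ^ (ρ / 4) := by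
            apply mul_le_mul _ (hDs.trans (Real.rpow_le_rpow_of_exponent_le hX1.le hs4)) hD0.le (by positivity)
            exact mul_le_mul h5 hHX hH0.le (by positivity)
        _ = X ^ (1 - ρ / 2) := by
            rw [← Real.rpow_add hX0, ← Real.rpow_add hX0]
            congr 1
            ring
        _ ≤ X ^ (1 : ℝ) := Real.rpow_le_rpow_of_exponent_le hX1.le (by linarith)
        _ = X := Real.rpow_one X
    have h12 : X / (4 * (H * D)) = X / (8 * (H * D)) + X / (8 * (H * D)) := by field_simp; norm_num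
    linarith
  refine ⟨U₁ ∪ U₂ ∪ U₀, ?_, fun y hy0 hy1 hyU => ?_⟩
  · have h7 : (((U₁ ∪ U₂ ∪ U₀).card : ℕ) : ℝ) ≤ U₁.card + U₂.card + U₀.card := by
      have := (card_union_le (U₁ ∪ U₂) U₀).trans (Nat.add_le_add_right (card_union_le _ _) _)
      exact_mod_cast this
    refine h7.trans ?_
    have h8 : X / (H * (8 * D)) = X / (H * D) / 8 := by field_simp
    have h9 : X / (4 * (H * D)) = X / (H * D) / 4 := by field_simp
    have h11 : X / (M * ℓ * (8 * D) * L) ≤ X / (H * D) / 8 := by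
      rw [hMℓ, ← h8]
      apply div_le_div_of_nonneg_left hX0.le (by positivity)
      exact le_mul_of_one_le_right (by positivity) (by linarith)
    rw [h8] at hU₁a
    rw [h9] at hU₀card
    have h10 : 0 ≤ X / (H * D) := by positivity
    linarith
  · have hyU₁ : ∀ u ∈ U₁, ¬ (u ≤ y ∧ y ≤ u + H / M) := fun u hu =>
      hyU u (mem_union_left _ (mem_union_left _ hu))
    have hyU₂ : ∀ u ∈ U₂, ¬ (u ≤ y ∧ y ≤ u + ℓ) := fun u hu => by
      rw [hℓ]
      exact hyU u (mem_union_left _ (mem_union_right _ hu))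
    have hyU₀ : ∀ u ∈ U₀, ¬ (u ≤ y ∧ y ≤ u + ℓ) := fun u hu => by
      rw [hℓ]
      exact hyU u (mem_union_right _ hu)
    have hylarge : y₀ ≤ y := by
      by_contra hcon
      push Not at hcon
      have hfl := Nat.floor_le (by positivity : 0 ≤ y / ℓ)
      have hfl2 := Nat.lt_floor_add_one (y / ℓ)
      rw [le_div_iff₀ hℓ0] at hfl
      rw [div_lt_iff₀ hℓ0] at hfl2
      refine hyU₀ ((⌊y / ℓ⌋₊ : ℝ) * ℓ) ?_ ⟨hfl, by linarith⟩
      rw [hU₀, mem_image]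
      refine ⟨⌊y / ℓ⌋₊, ?_, rfl⟩
      rw [mem_range]
      exact Nat.lt_succ_of_le (Nat.floor_le_floor (div_le_div_of_nonneg_right hcon.le hℓ0.le))
    have hpr := hU₂b y hy0 hy1 (fun a ha => by
      have h7 : y₀ * (β₁ * M) ≤ y * a := by
        apply mul_le_mul hylarge (hA₁ a ha).2.1 (by positivity) hy0.le
      rw [hy₀, div_mul_cancel₀ _ (by positivity)] at h7
      linarith) hyU₂
    -- first moment
    have hfm := hU₁b y hy0 hy1 hyU₁ H le_rfl hHX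
    have hfm1 := (abs_le.1 hfm).1
    have hfm2 : (A.card : ℝ) * (H / (2 * L)) ≤ ∑ a ∈ A, ((win (a * y) H).card : ℝ) := by
      have h7 : ∑ a ∈ A, density H (a * y) ≤ ∑ a ∈ A, ((win (a * y) H).card : ℝ) * (L / H) := by
        apply sum_le_sum
        intro a ha
        unfold Pool.Agent.Results.MP_711652_nt.SparseDilates.density
        rw [ncard_win, mul_div_assoc]
        apply mul_le_mul_of_nonneg_left _ (Nat.cast_nonneg _)
        apply div_le_div_of_nonneg_right _ hH0.le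
        have ha0 : (0 : ℝ) < a := by exact_mod_cast (hA a ha).1.pos
        rw [hL]
        apply Real.log_le_log (by positivity)
        calc (a : ℝ) * y ≤ M * (X / M) := mul_le_mul (hA a ha).2.2 hy1 hy0.le hM0.le
          _ = X := by field_simp
      rw [← sum_mul] at h7
      have h8 : (A.card : ℝ) / 2 ≤ (∑ a ∈ A, ((win (a * y) H).card : ℝ)) * (L / H) := by linarith
      rw [← div_le_iff₀ (by positivity)] at h8
      refine le_trans (le_of_eq ?_) h8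
      field_simp
    have hfinal := from_moments_big A y H L C₂ hL0 hLH hC₂ hfm2 hpr
    refine le_trans (le_of_eq ?_) hfinal
    ring

end Pool.Agent.J4H33.W
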