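import Pool.Agent.J4H33.Q2
import Pool.Agent.J4H33.H7

/-!
# A positive proportion of the multiples of any set, for almost all tuples of prime multipliers
-/

set_option autoImplicit false

namespace Pool.Agent.J4H33.W

open Finset Filter
open Pool.Agent.J4H33.DU (int_points lsts mem_lsts card_lsts)

/-- the primes in `[β M, M]` -/
noncomputable def PP (β M : ℝ) : Finset ℕ := (Icc 1 ⌊M⌋₊).filter (fun a : ℕ => a.Prime ∧ β * M ≤ (a : ℝ))

theorem mem_PP (β M : ℝ) (hM : 0 < M) (a : ℕ) : a ∈ PP β M ↔ a.Prime ∧ β * M ≤ (a : ℝ) ∧ (a : ℝ) ≤ M := by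
  unfold PP
  rw [mem_filter, mem_Icc]
  constructor
  · rintro ⟨h1, h2, h3⟩
    exact ⟨h2, h3, (Nat.le_floor_iff hM.le).1 h1.2⟩
  · rintro ⟨h1, h2, h3⟩
    exact ⟨⟨h1.one_lt.le, Nat.le_floor h3⟩, h1, h2⟩

theorem card_PP (β M : ℝ) (hM : 0 < M) : ((PP β M).card : ℝ) ≤ M := by
  have h1 : (PP β M).card ≤ ⌊M⌋₊ := by
    unfold PP
    refine (card_filter_le _ _).trans ?_
    rw [Nat.card_Icc, Nat.add_sub_cancel]
  have h2 : (⌊M⌋₊ : ℝ) ≤ M := Nat.floor_le hM.le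
  have h3 : ((PP β M).card : ℝ) ≤ (⌊M⌋₊ : ℝ) := by exact_mod_cast h1
  linarith

/-- the elements `n` of `Q` for which `(a n - H, a n)` contains a prime -/
noncomputable def GQ (Q : Finset ℕ) (H : ℝ) (a : ℕ) : Finset ℕ := Q.filter (fun n : ℕ => (win ((a : ℝ) * n) H).Nonempty)

theorem double_count (A Q : Finset ℕ) (H : ℝ) :
    ∑ n ∈ Q, ((A.filter (fun a : ℕ => (win ((a : ℝ) * n) H).Nonempty)).card : ℝ) = ∑ a ∈ A, ((GQ Q H a).card : ℝ) := by
  classical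
  unfold GQ
  have e1 : ∀ n ∈ Q, ((A.filter (fun a : ℕ => (win ((a : ℝ) * n) H).Nonempty)).card : ℝ) =
      ∑ a ∈ A, if (win ((a : ℝ) * n) H).Nonempty then (1 : ℝ) else 0 := by
    intro n _
    rw [card_filter]
    push_cast
    rfl
  have e2 : ∀ a ∈ A, ((Q.filter (fun n : ℕ => (win ((a : ℝ) * n) H).Nonempty)).card : ℝ) =
      ∑ n ∈ Q, if (win ((a : ℝ) * n) H).Nonempty then (1 : ℝ) else 0 := by
    intro n _
    rw [card_filter]
    push_cast
    rfl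
  rw [sum_congr rfl e1, sum_congr rfl e2, sum_comm]

/-- **One multiplier.** -/
theorem dual_pos (θ : ℝ) (hθ : 0 < θ) : ∃ c : ℝ, 0 < c ∧ c ≤ 1 / 4 ∧ ∀ γ ε ρ β : ℝ, 0 < γ → 0 < ε →
    γ + (1 + θ) * ε < 1 / 3 → 0 < ρ → 0 < β →
    ∃ s N₀ : ℝ, 0 < s ∧ ∀ N : ℝ, N₀ ≤ N → ∀ M D H : ℝ, 1 ≤ D → 0 < H → 0 < M → M ≤ N ^ θ → H ≤ N ^ (1 - ρ) →
      D * max 1 (M / H) ≤ N ^ s → D * max 1 (M / H) * Real.log N ^ 5 ≤ M ^ γ →
      ∀ Q : Finset ℕ, (∀ n ∈ Q, 1 ≤ n ∧ (n : ℝ) ≤ N) → N / D ≤ (Q.card : ℝ) →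
      (((PP β M).filter (fun a => ¬ c * Q.card ≤ ((GQ Q H a).card : ℝ))).card : ℝ) ≤ M ^ (1 - ε) := by
  classical
  obtain ⟨θ₁, hθ₁⟩ : ∃ θ₁, θ₁ = θ / (1 + θ) := ⟨_, rfl⟩
  have hθ₁0 : 0 < θ₁ := by rw [hθ₁]; positivity
  have hθ₁1 : θ₁ < 1 := by rw [hθ₁, div_lt_one (by positivity)]; linarith
  have hθ₁θ : θ₁ ≤ θ := by rw [hθ₁]; exact div_le_self hθ.le (by linarith)
  obtain ⟨c₀, hc₀, hc₀2, hbig⟩ := positive_big θ₁ hθ₁0 hθ₁1
  refine ⟨c₀ / 2, by positivity, by linarith, fun γ ε ρ β hγ hε hcond hρ hβ => ?_⟩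
  obtain ⟨κ, hκ⟩ : ∃ κ, κ = (1 / 3 - γ - (1 + θ) * ε) / 2 := ⟨_, rfl⟩
  have hκ0 : 0 < κ := by rw [hκ]; linarith
  have hcond2 : (γ + κ) + (1 + θ₁) * ε < 1 / 3 := by
    have : (1 + θ₁) * ε ≤ (1 + θ) * ε := mul_le_mul_of_nonneg_right (by linarith) hε.le
    rw [hκ]; linarith
  obtain ⟨ρ', hρ'⟩ : ∃ ρ', ρ' = min ρ 1 := ⟨_, rfl⟩
  have hρ'0 : 0 < ρ' := by rw [hρ']; exact lt_min hρ one_pos
  have hρ'1 : ρ' ≤ ρ := by rw [hρ']; exact min_le_left _ _
  have hρ'2 : ρ' ≤ 1 := by rw [hρ']; exact min_le_right _ _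
  obtain ⟨s₀, X₀, hs₀, hB⟩ := hbig (γ + κ) ε ρ' β (by linarith) hε hcond2 hρ'0 hβ
  obtain ⟨Cc, hCc⟩ : ∃ Cc : ℝ, Cc = 4 * (1 + θ) ^ 5 := ⟨_, rfl⟩
  have ev1 : ∀ᶠ N : ℝ in atTop, 4 ≤ N ^ (s₀ / 2) := (tendsto_rpow_atTop (by positivity)).eventually_ge_atTop 4
  have ev2 : ∀ᶠ N : ℝ in atTop, Cc ≤ (Real.log N ^ 5) ^ (κ / γ) := by
    have h1 : Tendsto (fun N : ℝ => (Real.log N ^ 5) ^ (κ / γ)) atTop atTop :=
      (tendsto_rpow_atTop (div_pos hκ0 hγ)).comp ((tendsto_pow_atTop (by norm_num)).comp Real.tendsto_log_atTop)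
    exact h1.eventually_ge_atTop _
  obtain ⟨N₀, hN₀⟩ := eventually_atTop.1 (ev1.and (ev2.and ((eventually_ge_atTop (max X₀ 3)).and
    (Real.tendsto_log_atTop.eventually_ge_atTop (1 + θ)))))
  refine ⟨s₀ / 2, N₀, by positivity, fun N hN M D H hD1 hH0 hM0 hMN hHN hR1 hR2 Q hQ hQc => ?_⟩
  obtain ⟨g1, g2, g3, g4⟩ := hN₀ N hN
  have g3a := (le_max_left _ _).trans g3
  have g3b := (le_max_right _ _).trans g3
  have hN0 : 0 < N := by linarith
  have hN1 : 1 < N := by linarith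
  obtain ⟨l, hl⟩ : ∃ l, l = Real.log N := ⟨_, rfl⟩
  rw [← hl] at g2 g4 hR2
  have hl1 : 1 ≤ l := by linarith
  have hl0 : 0 < l := by linarith
  obtain ⟨K, hK⟩ : ∃ K, K = max 1 (M / H) := ⟨_, rfl⟩
  rw [← hK] at hR1 hR2
  have hK1 : 1 ≤ K := by rw [hK]; exact le_max_left _ _
  have hK2 : M / H ≤ K := by rw [hK]; exact le_max_right _ _
  have hD0 : 0 < D := by linarith
  have hR0 : 1 ≤ D * K := one_le_mul_of_one_le_of_one_le hD1 hK1
  have hl5 : 1 ≤ l ^ 5 := one_le_pow₀ hl1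
  have hMγ1 : l ^ 5 ≤ M ^ γ := by
    calc l ^ 5 = 1 * l ^ 5 := (one_mul _).symm
      _ ≤ D * K * l ^ 5 := mul_le_mul_of_nonneg_right hR0 (by positivity)
      _ ≤ M ^ γ := hR2
  have hM1 : 1 ≤ M := by
    by_contra hcon
    push Not at hcon
    have := Real.rpow_lt_one hM0.le hcon hγ
    linarith
  have hMM : M ^ γ ≤ M := by
    calc M ^ γ ≤ M ^ (1 : ℝ) := Real.rpow_le_rpow_of_exponent_le hM1 (by nlinarith)
      _ = M := Real.rpow_one M
  -- `H` is large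
  have hHl : l ^ 5 ≤ H := by
    have h1 : M / H * l ^ 5 ≤ M ^ γ := by
      calc M / H * l ^ 5 ≤ K * l ^ 5 := mul_le_mul_of_nonneg_right hK2 (by positivity)
        _ = 1 * K * l ^ 5 := by ring
        _ ≤ D * K * l ^ 5 := by gcongr
        _ ≤ M ^ γ := hR2
    have h2 : M / H * l ^ 5 ≤ M := h1.trans hMM
    rw [div_mul_eq_mul_div, div_le_iff₀ hH0] at h2
    exact le_of_mul_le_mul_left h2 hM0
  -- `X`
  obtain ⟨X, hX⟩ : ∃ X, X = N * M := ⟨_, rfl⟩
  have hNX : N ≤ X := by rw [hX]; exact le_mul_of_one_le_right hN0.le hM1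
  have hX0 : 0 < X := by linarith
  have hX1 : 1 < X := by linarith
  have hlogX2 : Real.log X ≤ (1 + θ) * l := by
    rw [hX, Real.log_mul hN0.ne' hM0.ne', ← hl]
    have h1 : Real.log M ≤ θ * l := by
      have := Real.log_le_log hM0 hMN
      rwa [Real.log_rpow hN0, ← hl] at this
    linarith
  have hlogX0 : 0 < Real.log X := Real.log_pos hX1
  have hXM : X / M = N := by rw [hX]; field_simp
  have hMX : M ≤ X ^ θ₁ := by
    have h1 : M ^ (1 - θ₁) ≤ N ^ θ₁ := by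
      have e : θ * (1 - θ₁) = θ₁ := by rw [hθ₁]; field_simp; ring
      calc M ^ (1 - θ₁) ≤ (N ^ θ) ^ (1 - θ₁) := Real.rpow_le_rpow hM0.le hMN (by linarith)
        _ = N ^ θ₁ := by rw [← Real.rpow_mul hN0.le, e]
    calc M = M ^ ((1 - θ₁) + θ₁) := by rw [show (1 - θ₁) + θ₁ = 1 by ring, Real.rpow_one]
      _ = M ^ (1 - θ₁) * M ^ θ₁ := Real.rpow_add hM0 _ _
      _ ≤ N ^ θ₁ * M ^ θ₁ := mul_le_mul_of_nonneg_right h1 (by positivity)
      _ = X ^ θ₁ := by rw [hX, Real.mul_rpow hN0.le hM0.le]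
  obtain ⟨D', hD'⟩ : ∃ D', D' = 4 * (D * K) := ⟨_, rfl⟩
  have hD'1 : 1 ≤ D' := by rw [hD']; linarith
  have hD'0 : 0 < D' := by linarith
  have hD's : D' ≤ X ^ s₀ := by
    calc D' ≤ N ^ (s₀ / 2) * N ^ (s₀ / 2) := by
          rw [hD']
          exact mul_le_mul g1 hR1 (by positivity) (by positivity)
      _ = N ^ s₀ := by rw [← Real.rpow_add hN0]; congr 1; ring
      _ ≤ X ^ s₀ := Real.rpow_le_rpow hN0.le hNX hs₀.le
  have hmain : D' * Real.log X ^ 5 ≤ M ^ (γ + κ) := by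
    calc D' * Real.log X ^ 5 ≤ D' * ((1 + θ) * l) ^ 5 := by gcongr
      _ = (D * K * l ^ 5) * Cc := by rw [hD', hCc]; ring
      _ ≤ M ^ γ * M ^ κ := by
          apply mul_le_mul hR2 _ (by rw [hCc]; positivity) (by positivity)
          refine g2.trans ?_
          calc (l ^ 5) ^ (κ / γ) ≤ (M ^ γ) ^ (κ / γ) := Real.rpow_le_rpow (by positivity) hMγ1 (by positivity)
            _ = M ^ κ := by rw [← Real.rpow_mul hM0.le]; congr 1; field_simp
      _ = M ^ (γ + κ) := by rw [← Real.rpow_add hM0]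
  have hLH : Real.log X ≤ H := by
    calc Real.log X ≤ (1 + θ) * l := hlogX2
      _ ≤ l * l := mul_le_mul_of_nonneg_right g4 hl0.le
      _ = l ^ 2 := by ring
      _ ≤ l ^ 5 := pow_le_pow_right₀ hl1 (by norm_num)
      _ ≤ H := hHl
  have hHX : H ≤ X ^ (1 - ρ') := by
    calc H ≤ N ^ (1 - ρ) := hHN
      _ ≤ N ^ (1 - ρ') := Real.rpow_le_rpow_of_exponent_le hN1.le (by linarith)
      _ ≤ X ^ (1 - ρ') := Real.rpow_le_rpow hN0.le hNX (by linarith)
  -- the bad multipliers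
  by_contra hcon
  rw [not_le] at hcon
  obtain ⟨A, hA⟩ : ∃ A, A = (PP β M).filter (fun a => ¬ c₀ / 2 * Q.card ≤ ((GQ Q H a).card : ℝ)) := ⟨_, rfl⟩
  rw [← hA] at hcon
  obtain ⟨U, hU1, hU2⟩ := hB X (g3a.trans hNX) M D' H hD'1 hD's hmain hM0 hMX hLH hHX A (fun a ha => by
    rw [hA, mem_filter] at ha
    exact (mem_PP β M hM0 a).1 ha.1) hcon.le
  rw [hXM] at hU2
  obtain ⟨E, hE⟩ : ∃ E, E = (Icc 1 ⌊N⌋₊).filter (fun n : ℕ => ∃ u ∈ U, u ≤ (n : ℝ) ∧ (n : ℝ) ≤ u + H / M) := ⟨_, rfl⟩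
  have hQ0 : 0 < (Q.card : ℝ) := lt_of_lt_of_le (by positivity) hQc
  have hEc : (E.card : ℝ) ≤ Q.card / 2 := by
    have h1 : (E.card : ℝ) ≤ U.card * (H / M + 1) := by rw [hE]; exact int_points U (H / M) (by positivity) N
    have h2 : (U.card : ℝ) * (H / M + 1) ≤ X / (H * D') * (H / M + 1) := mul_le_mul_of_nonneg_right hU1 (by positivity)
    have h3 : X / (H * D') * (H / M + 1) = N * (1 + M / H) / D' := by rw [hX]; field_simp
    have h4 : N * (1 + M / H) / D' ≤ 2 * N * K / D' := by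
      apply div_le_div_of_nonneg_right _ hD'0.le
      calc N * (1 + M / H) ≤ N * (K + K) := by gcongr
        _ = 2 * N * K := by ring
    have h5 : 2 * N * K / D' = N / D / 2 := by rw [hD']; field_simp; norm_num
    rw [h3] at h2
    linarith
  have hA0 : 0 < (A.card : ℝ) := lt_of_le_of_lt (by positivity) hcon
  have hlow : c₀ / 2 * Q.card * A.card ≤ ∑ n ∈ Q, ((A.filter (fun a : ℕ => (win ((a : ℝ) * n) H).Nonempty)).card : ℝ) := by
    have h1 : ∀ n ∈ Q.filter (fun n => n ∉ E), c₀ * A.card ≤ ((A.filter (fun a : ℕ => (win ((a : ℝ) * n) H).Nonempty)).card : ℝ) := by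
      intro n hn
      rw [mem_filter] at hn
      obtain ⟨hn1, hn2⟩ := hn
      obtain ⟨hn3, hn4⟩ := hQ n hn1
      apply hU2 n (by exact_mod_cast hn3) hn4
      intro u hu hcon2
      apply hn2
      rw [hE, mem_filter, mem_Icc]
      exact ⟨⟨hn3, Nat.le_floor hn4⟩, u, hu, hcon2⟩
    have h2 : (Q.card : ℝ) / 2 ≤ ((Q.filter (fun n => n ∉ E)).card : ℝ) := by
      have h3 : Q.card ≤ (Q.filter (fun n => n ∉ E)).card + E.card := by
        have h4 : Q ⊆ Q.filter (fun n => n ∉ E) ∪ E := by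
          intro n hn
          rw [mem_union, mem_filter]
          by_cases h : n ∈ E
          · exact Or.inr h
          · exact Or.inl ⟨hn, h⟩
        exact (card_le_card h4).trans (card_union_le _ _)
      have h5 : (Q.card : ℝ) ≤ ((Q.filter (fun n => n ∉ E)).card : ℝ) + E.card := by exact_mod_cast h3
      linarith
    calc c₀ / 2 * Q.card * A.card = (Q.card : ℝ) / 2 * (c₀ * A.card) := by ring
      _ ≤ ((Q.filter (fun n => n ∉ E)).card : ℝ) * (c₀ * A.card) := mul_le_mul_of_nonneg_right h2 (by positivity)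
      _ = ∑ _n ∈ Q.filter (fun n => n ∉ E), c₀ * A.card := by rw [sum_const, nsmul_eq_mul]
      _ ≤ ∑ n ∈ Q.filter (fun n => n ∉ E), ((A.filter (fun a : ℕ => (win ((a : ℝ) * n) H).Nonempty)).card : ℝ) := sum_le_sum h1
      _ ≤ _ := sum_le_sum_of_subset_of_nonneg (filter_subset _ _) (fun _ _ _ => Nat.cast_nonneg _)
  have hhigh : ∑ a ∈ A, ((GQ Q H a).card : ℝ) < ∑ _a ∈ A, c₀ / 2 * Q.card := by
    apply sum_lt_sum_of_nonempty
    · rw [← card_pos]; exact_mod_cast hA0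
    · intro a ha
      rw [hA, mem_filter, not_le] at ha
      exact ha.2
  rw [sum_const, nsmul_eq_mul] at hhigh
  rw [double_count A Q H] at hlow
  linarith

/-- the elements `n` of `Q` for which all the intervals `(a n - H, a n)`, `a` in the list, contain primes -/
noncomputable def Gall (Q : Finset ℕ) (H : ℝ) (A : List ℕ) : Finset ℕ :=
  Q.filter (fun n : ℕ => ∀ a ∈ A, (win ((a : ℝ) * n) H).Nonempty)

/-- **Tuples of multipliers.** -/
theorem tuples_pos (θ : ℝ) (hθ : 0 < θ) : ∃ c : ℝ, 0 < c ∧ c ≤ 1 / 4 ∧ ∀ γ ε ρ β : ℝ, 0 < γ → 0 < ε →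
    γ + (1 + θ) * ε < 1 / 3 → 0 < ρ → 0 < β →
    ∃ s N₀ : ℝ, 0 < s ∧ ∀ N : ℝ, N₀ ≤ N → ∀ (M H : ℝ), 0 < H → 0 < M → M ≤ N ^ θ → H ≤ N ^ (1 - ρ) →
      ∀ (k : ℕ) (D : ℝ), 1 ≤ D → D * (1 / c) ^ k * max 1 (M / H) ≤ N ^ s → D * (1 / c) ^ k * max 1 (M / H) * Real.log N ^ 5 ≤ M ^ γ →
      ∀ Q : Finset ℕ, (∀ n ∈ Q, 1 ≤ n ∧ (n : ℝ) ≤ N) → N / D ≤ (Q.card : ℝ) →
      ∃ B : Finset (List ℕ), (B.card : ℝ) ≤ k * M ^ (k - ε) ∧
        ∀ A : List ℕ, A.length = k → (∀ a ∈ A, a.Prime ∧ β * M ≤ (a : ℝ) ∧ (a : ℝ) ≤ M) → A ∉ B →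
          c ^ k * Q.card ≤ ((Gall Q H A).card : ℝ) := by
  classical
  obtain ⟨c, hc0, hc1, hdual⟩ := dual_pos θ hθ
  refine ⟨c, hc0, hc1, fun γ ε ρ β hγ hε hcond hρ hβ => ?_⟩
  obtain ⟨s, N₀, hs, hdual⟩ := hdual γ ε ρ β hγ hε hcond hρ hβ
  refine ⟨s, max N₀ 3, hs, fun N hN M H hH0 hM0 hMN hHN => ?_⟩
  have hN3 : 3 ≤ N := (le_max_right _ _).trans hN
  have hNN₀ : N₀ ≤ N := (le_max_left _ _).trans hN
  have hN0 : 0 < N := by linarith
  have hlN : 0 < Real.log N := Real.log_pos (by linarith)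
  have hc' : 1 ≤ 1 / c := by rw [one_le_div hc0]; linarith
  intro k
  induction k with
  | zero =>
    intro D _ _ _ Q _ _
    refine ⟨∅, by simp, fun A hA _ _ => ?_⟩
    rw [List.length_eq_zero_iff] at hA
    subst hA
    unfold Gall
    simp
  | succ k ih =>
    intro D hD1 hR1 hR2 Q hQ hQc
    have hD0 : 0 < D := by linarith
    have hKmax : 1 ≤ max 1 (M / H) := le_max_left _ _
    have hpk : 1 ≤ (1 / c) ^ (k + 1) := one_le_pow₀ hc'
    have hmono : D * max 1 (M / H) ≤ D * (1 / c) ^ (k + 1) * max 1 (M / H) := by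
      apply mul_le_mul_of_nonneg_right _ (by linarith)
      exact le_mul_of_one_le_right hD0.le hpk
    have hbad := hdual N hNN₀ M D H hD1 hH0 hM0 hMN hHN (hmono.trans hR1)
      ((mul_le_mul_of_nonneg_right hmono (by positivity)).trans hR2) Q hQ hQc
    obtain ⟨B₁, hB₁⟩ : ∃ B₁, B₁ = (PP β M).filter (fun a => ¬ c * Q.card ≤ ((GQ Q H a).card : ℝ)) := ⟨_, rfl⟩
    rw [← hB₁] at hbad
    have hfam : ∀ a : ℕ, ∃ B : Finset (List ℕ), (B.card : ℝ) ≤ k * M ^ (k - ε) ∧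
        (a ∈ PP β M → a ∉ B₁ → ∀ A : List ℕ, A.length = k → (∀ a ∈ A, a.Prime ∧ β * M ≤ (a : ℝ) ∧ (a : ℝ) ≤ M) → A ∉ B →
          c ^ k * (GQ Q H a).card ≤ ((Gall (GQ Q H a) H A).card : ℝ)) := by
      intro a
      by_cases ha : a ∈ PP β M ∧ a ∉ B₁
      · obtain ⟨ha1, ha2⟩ := ha
        have hga : c * Q.card ≤ ((GQ Q H a).card : ℝ) := by
          by_contra hcon
          exact ha2 (by rw [hB₁, mem_filter]; exact ⟨ha1, hcon⟩)
        have e1 : D / c * (1 / c) ^ k = D * (1 / c) ^ (k + 1) := by rw [pow_succ]; ring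
        obtain ⟨B, hB, hB'⟩ := ih (D / c) (by rw [one_le_div hc0]; linarith) (by rw [e1]; exact hR1) (by rw [e1]; exact hR2)
          (GQ Q H a) (fun n hn => hQ n (by unfold GQ at hn; exact (mem_filter.1 hn).1)) (by
            refine le_trans (le_of_eq ?_) ((mul_le_mul_of_nonneg_left hQc hc0.le).trans hga)
            field_simp)
        exact ⟨B, hB, fun _ _ => hB'⟩
      · exact ⟨∅, by rw [card_empty, Nat.cast_zero]; positivity, fun h1 h2 => absurd ⟨h1, h2⟩ ha⟩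
    choose Bf hBf hBf' using hfam
    refine ⟨(B₁ ×ˢ lsts (PP β M) k).image (fun x => x.1 :: x.2) ∪ (PP β M).biUnion (fun a => (Bf a).image (fun A => a :: A)), ?_, ?_⟩
    · have h1 : (((B₁ ×ˢ lsts (PP β M) k).image (fun x => x.1 :: x.2) ∪ (PP β M).biUnion (fun a => (Bf a).image (fun A => a :: A))).card : ℝ) ≤
          (B₁.card : ℝ) * ((PP β M).card : ℝ) ^ k + ∑ a ∈ PP β M, ((Bf a).card : ℝ) := by
        have a1 := card_union_le ((B₁ ×ˢ lsts (PP β M) k).image (fun x => x.1 :: x.2)) ((PP β M).biUnion (fun a => (Bf a).image (fun A => a :: A)))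
        have a2 : ((B₁ ×ˢ lsts (PP β M) k).image (fun x => x.1 :: x.2)).card ≤ B₁.card * (PP β M).card ^ k := by
          refine card_image_le.trans ?_
          rw [card_product]
          exact Nat.mul_le_mul_left _ (card_lsts (PP β M) k)
        have a3 : ((PP β M).biUnion (fun a => (Bf a).image (fun A => a :: A))).card ≤ ∑ a ∈ PP β M, (Bf a).card :=
          card_biUnion_le.trans (sum_le_sum fun a _ => card_image_le)
        exact_mod_cast a1.trans (Nat.add_le_add a2 a3)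
      refine h1.trans ?_
      have h2 : (B₁.card : ℝ) * ((PP β M).card : ℝ) ^ k ≤ M ^ (1 - ε) * M ^ k := by
        apply mul_le_mul hbad _ (by positivity) (by positivity)
        exact pow_le_pow_left₀ (Nat.cast_nonneg _) (card_PP β M hM0) k
      have h3 : ∑ a ∈ PP β M, ((Bf a).card : ℝ) ≤ M * (k * M ^ (k - ε)) := by
        calc ∑ a ∈ PP β M, ((Bf a).card : ℝ) ≤ ∑ _a ∈ PP β M, k * M ^ (k - ε) := sum_le_sum fun a _ => hBf a
          _ = (PP β M).card * (k * M ^ (k - ε)) := by rw [sum_const, nsmul_eq_mul]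
          _ ≤ _ := mul_le_mul_of_nonneg_right (card_PP β M hM0) (by positivity)
      have e1 : M ^ (1 - ε) * M ^ k = M ^ (((k + 1 : ℕ) : ℝ) - ε) := by
        rw [← Real.rpow_natCast, ← Real.rpow_add hM0]
        congr 1
        push_cast
        ring
      have e2 : M * (k * M ^ (k - ε)) = k * M ^ (((k + 1 : ℕ) : ℝ) - ε) := by
        have : M ^ (((k + 1 : ℕ) : ℝ) - ε) = M * M ^ (k - ε) := by
          have h5 : ((k + 1 : ℕ) : ℝ) - ε = 1 + (k - ε) := by push_cast; ring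
          rw [h5, Real.rpow_add hM0, Real.rpow_one]
        rw [this]; ring
      rw [e1] at h2
      rw [e2] at h3
      push_cast at h2 h3 ⊢
      linarith
    · intro A hA hAP hAB
      obtain _ | ⟨a, A⟩ := A
      · simp at hA
      rw [List.length_cons] at hA
      have hAk : A.length = k := by omega
      have ha := hAP a List.mem_cons_self
      have haP : a ∈ PP β M := (mem_PP β M hM0 a).2 ha
      have hAP' : ∀ a ∈ A, a.Prime ∧ β * M ≤ (a : ℝ) ∧ (a : ℝ) ≤ M := fun b hb => hAP b (List.mem_cons_of_mem _ hb)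
      rw [mem_union, not_or] at hAB
      have haB : a ∉ B₁ := by
        intro hcon
        apply hAB.1
        rw [mem_image]
        exact ⟨(a, A), mem_product.2 ⟨hcon, mem_lsts (PP β M) k A hAk fun b hb => (mem_PP β M hM0 b).2 (hAP' b hb)⟩, rfl⟩
      have hAB' : A ∉ Bf a := by
        intro hcon
        apply hAB.2
        rw [mem_biUnion]
        exact ⟨a, haP, mem_image.2 ⟨A, hcon, rfl⟩⟩
      have hT := hBf' a haP haB A hAk hAP' hAB'
      have hga : c * Q.card ≤ ((GQ Q H a).card : ℝ) := by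
        by_contra hcon
        exact haB (by rw [hB₁, mem_filter]; exact ⟨haP, hcon⟩)
      have e : Gall Q H (a :: A) = Gall (GQ Q H a) H A := by
        unfold Gall GQ
        ext n
        simp only [mem_filter, List.mem_cons, forall_eq_or_imp]
        tauto
      rw [e]
      calc c ^ (k + 1) * Q.card = c ^ k * (c * Q.card) := by ring
        _ ≤ c ^ k * (GQ Q H a).card := mul_le_mul_of_nonneg_left hga (by positivity)
        _ ≤ _ := hT

end Pool.Agent.J4H33.W
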