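import Pool.Agent.J4H33.H8

/-!
# Several multiples of the same integers: joint moments of the numbers of primes, fixed lengths of the windows
-/

set_option autoImplicit false

namespace Pool.Agent.J4H33.DU

open Finset Filter
open Pool.Agent.Y851.PT

/-- the product of the numbers of primes near the multiples `a_i n` -/
noncomputable def sm : List ℕ → List ℝ → ℕ → ℝ
  | (a :: A), (H :: L), n => ((PH H ((a : ℝ) * n)).card : ℝ) * sm A L n
  | _, _, _ => 1

theorem sm_nonneg : ∀ (A : List ℕ) (L : List ℝ) (n : ℕ), 0 ≤ sm A L n := by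
  intro A
  induction A with
  | nil => intro L n; unfold sm; exact zero_le_one
  | cons a A ih =>
    intro L n
    obtain _ | ⟨H, L⟩ := L
    · unfold sm; exact zero_le_one
    · unfold sm
      exact mul_nonneg (Nat.cast_nonneg _) (ih L n)

theorem sm_mono : ∀ (A : List ℕ) (L L' : List ℝ), List.Forall₂ (fun a b => a ≤ b) L L' → ∀ n, sm A L n ≤ sm A L' n := by
  intro A
  induction A with
  | nil => intro L L' _ n; unfold sm; exact le_rfl
  | cons a A ih =>
    intro L L' h n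
    obtain _ | ⟨h1, h2⟩ := h
    · unfold sm; exact le_rfl
    · rename_i H H' L L'
      unfold sm
      apply mul_le_mul _ (ih L L' h2 n) (sm_nonneg A L n) (Nat.cast_nonneg _)
      exact_mod_cast card_le_card (PH_mono' (by positivity) h1)

/-- **Joint moments, fixed lengths of the windows.** -/
theorem tuplesS (k : ℕ) : ∀ (γ ε ρ β δ : ℝ), 0 < γ → 0 < ε → γ + ε < 1 / 3 → 0 < ρ → 0 < β → 0 < δ → δ ≤ 1 →
    ∃ t N₀ : ℝ, 0 < t ∧ ∀ N : ℝ, N₀ ≤ N → ∀ M D : ℝ, 1 ≤ D → 0 < M → D * (4 * Real.log N) ^ (k + 2) ≤ M ^ γ → M ≤ N ^ t →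
      ∀ w : ℕ → ℝ, (∀ n, 0 ≤ w n) → (∀ n, w n ≤ 1) → N / D ≤ SW w N →
      ∀ L : List ℝ, L.length = k → (∀ H ∈ L, M ≤ H ∧ H ≤ N ^ (1 - ρ)) →
      ∃ B : Finset (List ℕ), (B.card : ℝ) ≤ k * (M ^ (k - ε) * Real.log N) ∧
        ∀ A : List ℕ, A.length = k → (∀ a ∈ A, a.Prime ∧ β * M ≤ (a : ℝ) ∧ (a : ℝ) ≤ M) → A ∉ B →
          |∑ n ∈ Icc 1 ⌊N⌋₊, w n * sm A L n - SW w N * pex (Real.log N) L| ≤ δ * (SW w N * pex (Real.log N) L) := by
  classical
  induction k with
  | zero =>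
    intro γ ε ρ β δ hγ hε hcond hρ hβ hδ hδ1
    refine ⟨1, 3, one_pos, fun N hN M D hD1 hM0 hMD hMN w hw0 hw1 hwS L hL _ => ⟨∅, by simp, fun A hA _ _ => ?_⟩⟩
    rw [List.length_eq_zero_iff] at hA hL
    subst hA hL
    have hS0 : 0 ≤ SW w N := sum_nonneg fun n _ => hw0 n
    have e : ∑ n ∈ Icc 1 ⌊N⌋₊, w n * sm [] [] n = SW w N := by
      unfold SW
      apply sum_congr rfl
      intro n _
      unfold sm
      rw [mul_one]
    unfold pex
    rw [List.map_nil, List.prod_nil, mul_one, e, sub_self, abs_zero]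
    positivity
  | succ k ih =>
    intro γ ε ρ β δ hγ hε hcond hρ hβ hδ hδ1
    obtain ⟨x, hx⟩ : ∃ x, x = δ / 4 := ⟨_, rfl⟩
    have hx0 : 0 < x := by rw [hx]; positivity
    have hx1 : x ≤ 1 / 4 := by rw [hx]; linarith
    obtain ⟨t₁, N₁, ht₁, hcount⟩ := dual_count γ ε ρ β x hγ hε hcond hρ hβ hx0 (by linarith)
    obtain ⟨t₂, N₂, ht₂, hih⟩ := ih γ ε ρ β x hγ hε hcond hρ hβ hx0 (by linarith)
    obtain ⟨t, ht⟩ : ∃ t, t = min t₁ t₂ := ⟨_, rfl⟩
    have ht0 : 0 < t := by rw [ht]; exact lt_min ht₁ ht₂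
    have ht1 : t ≤ t₁ := by rw [ht]; exact min_le_left _ _
    have ht2 : t ≤ t₂ := by rw [ht]; exact min_le_right _ _
    obtain ⟨N₀, hN₀⟩ := eventually_atTop.1 ((Real.tendsto_log_atTop.eventually_ge_atTop 2).and (eventually_ge_atTop (max (max N₁ N₂) 3)))
    refine ⟨t, N₀, ht0, fun N hN M D hD1 hM0 hMD hMN w hw0 hw1 hwS L hL hLH => ?_⟩
    obtain ⟨g2, g3⟩ := hN₀ N hN
    have g3a := (le_max_left _ _).trans ((le_max_left _ _).trans g3)
    have g3b := (le_max_right _ _).trans ((le_max_left _ _).trans g3)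
    have g3c := (le_max_right _ _).trans g3
    have hN0 : 0 < N := by linarith
    have hN1 : 1 < N := by linarith
    obtain ⟨l, hl⟩ : ∃ l, l = Real.log N := ⟨_, rfl⟩
    rw [← hl] at hMD g2 ⊢
    have hl0 : 0 < l := by linarith
    have hD0 : 0 < D := by linarith
    have h8l : 1 ≤ 4 * l := by linarith
    have hbase : D * l ^ 3 ≤ M ^ γ := by
      refine le_trans ?_ hMD
      apply mul_le_mul_of_nonneg_left _ hD0.le
      calc l ^ 3 ≤ (4 * l) ^ 3 := by
            apply pow_le_pow_left₀ hl0.le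
            linarith
        _ ≤ (4 * l) ^ (k + 1 + 2) := pow_le_pow_right₀ h8l (by omega)
    have hl3 : 1 ≤ l ^ 3 := one_le_pow₀ (by linarith)
    have hMγ1 : 1 ≤ M ^ γ := by
      calc (1 : ℝ) ≤ D * l ^ 3 := one_le_mul_of_one_le_of_one_le hD1 hl3
        _ ≤ _ := hbase
    have hM1 : 1 ≤ M := by
      by_contra hcon
      push Not at hcon
      have := Real.rpow_lt_one hM0.le hcon hγ
      linarith
    -- the first multiplier
    obtain _ | ⟨H, L⟩ := L
    · simp at hL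
    rw [List.length_cons] at hL
    have hLk : L.length = k := by omega
    have hH1 := hLH H List.mem_cons_self
    have hLH' : ∀ H' ∈ L, M ≤ H' ∧ H' ≤ N ^ (1 - ρ) := fun H' hH' => hLH H' (List.mem_cons_of_mem _ hH')
    have hH0 : 0 < H := by linarith [hH1.1]
    obtain ⟨B₁, hB₁, hB₁'⟩ := hcount N g3a M D hD1 hM0 (by rw [← hl]; exact hbase) (hMN.trans (Real.rpow_le_rpow_of_exponent_le hN1.le ht1)) w hw0 hw1 hwS
    rw [← hl] at hB₁ hB₁'
    obtain ⟨S, hS⟩ : ∃ S, S = SW w N := ⟨_, rfl⟩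
    rw [← hS] at hwS hB₁' ⊢
    have hS0 : 0 < S := lt_of_lt_of_le (by positivity) hwS
    obtain ⟨G, hG⟩ : ∃ G, G = 2 * H := ⟨_, rfl⟩
    have hG0 : 0 < G := by rw [hG]; positivity
    obtain ⟨D', hD'⟩ : ∃ D', D' = 4 * l * D := ⟨_, rfl⟩
    have hD'1 : 1 ≤ D' := by
      rw [hD']
      exact one_le_mul_of_one_le_of_one_le h8l hD1
    have hcondk : D' * (4 * l) ^ (k + 2) ≤ M ^ γ := by
      calc D' * (4 * l) ^ (k + 2) = D * (4 * l) ^ (k + 1 + 2) := by rw [hD']; ring
        _ ≤ M ^ γ := hMD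
    have hMN' : M ≤ N ^ t₂ := hMN.trans (Real.rpow_le_rpow_of_exponent_le hN1.le ht2)
    have hfam : ∀ a : ℕ, ∃ B : Finset (List ℕ), (B.card : ℝ) ≤ k * (M ^ (k - ε) * l) ∧
        (a.Prime → β * M ≤ (a : ℝ) → (a : ℝ) ≤ M → a ∉ B₁ → ∀ A : List ℕ, A.length = k → (∀ a ∈ A, a.Prime ∧ β * M ≤ (a : ℝ) ∧ (a : ℝ) ≤ M) → A ∉ B →
          |∑ n ∈ Icc 1 ⌊N⌋₊, w n * (((PH H ((a : ℝ) * n)).card : ℝ) * sm A L n) - CW w N H a * pex l L| ≤ x * (CW w N H a * pex l L)) := by
      intro a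
      by_cases ha : a.Prime ∧ β * M ≤ (a : ℝ) ∧ (a : ℝ) ≤ M ∧ a ∉ B₁
      · obtain ⟨ha1, ha2, ha3, ha4⟩ := ha
        have hc := hB₁' a ha1 ha2 ha3 ha4 H hH1.1 hH1.2
        have hSWd : SW (fun n => w n * ((PH H ((a : ℝ) * n)).card : ℝ) / G) N = CW w N H a / G := by
          unfold SW CW; rw [sum_div]
        obtain ⟨B, hB, hB'⟩ := hih N g3b M D' hD'1 hM0 (by rw [← hl]; exact hcondk) hMN' (fun n => w n * ((PH H ((a : ℝ) * n)).card : ℝ) / G)
          (fun n => div_nonneg (mul_nonneg (hw0 n) (Nat.cast_nonneg _)) hG0.le)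
          (fun n => by
            rw [div_le_one hG0, hG]
            have h1 : ((PH H ((a : ℝ) * n)).card : ℝ) ≤ H + 1 := PH_card_le hH0.le (by positivity)
            calc w n * ((PH H ((a : ℝ) * n)).card : ℝ) ≤ 1 * ((PH H ((a : ℝ) * n)).card : ℝ) := mul_le_mul_of_nonneg_right (hw1 n) (Nat.cast_nonneg _)
              _ ≤ 2 * H := by linarith [hH1.1])
          (by
            rw [hSWd]
            have h1 : (1 - x) * (H / l * S) ≤ CW w N H a := by linarith [(abs_le.1 hc).1]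
            have h2 : 1 / 2 * (H / l * (N / D)) ≤ CW w N H a := by
              refine le_trans ?_ h1
              apply mul_le_mul (by linarith) _ (by positivity) (by linarith)
              gcongr
            rw [le_div_iff₀ hG0]
            refine le_trans (le_of_eq ?_) h2
            rw [hD', hG]
            field_simp
            ring) L hLk hLH'
        rw [← hl] at hB hB'
        refine ⟨B, hB, fun _ _ _ _ A hA1 hA2 hA3 => ?_⟩
        have h1 := hB' A hA1 hA2 hA3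
        rw [hSWd] at h1
        have e1 : ∑ n ∈ Icc 1 ⌊N⌋₊, w n * ((PH H ((a : ℝ) * n)).card : ℝ) / G * sm A L n =
            (∑ n ∈ Icc 1 ⌊N⌋₊, w n * (((PH H ((a : ℝ) * n)).card : ℝ) * sm A L n)) / G := by
          rw [sum_div]
          apply sum_congr rfl
          intro n _
          ring
        rw [e1] at h1
        have e2 : (∑ n ∈ Icc 1 ⌊N⌋₊, w n * (((PH H ((a : ℝ) * n)).card : ℝ) * sm A L n)) / G - CW w N H a / G * pex l L =
            (∑ n ∈ Icc 1 ⌊N⌋₊, w n * (((PH H ((a : ℝ) * n)).card : ℝ) * sm A L n) - CW w N H a * pex l L) / G := by ring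
        have e3 : x * (CW w N H a / G * pex l L) = x * (CW w N H a * pex l L) / G := by ring
        rw [e2, e3, abs_div, abs_of_pos hG0, div_le_div_iff_of_pos_right hG0] at h1
        exact h1
      · refine ⟨∅, by rw [card_empty, Nat.cast_zero]; positivity, fun h1 h2 h3 h4 => absurd ⟨h1, h2, h3, h4⟩ ha⟩
    choose Bf hBf hBf' using hfam
    obtain ⟨P, hP⟩ : ∃ P : Finset ℕ, P = (Icc 1 ⌊M⌋₊).filter (fun a : ℕ => a.Prime ∧ β * M ≤ (a : ℝ)) := ⟨_, rfl⟩
    have hPc : (P.card : ℝ) ≤ M := by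
      have h1 : P.card ≤ ⌊M⌋₊ := by
        rw [hP]
        refine (card_filter_le _ _).trans ?_
        rw [Nat.card_Icc, Nat.add_sub_cancel]
      have h2 : (⌊M⌋₊ : ℝ) ≤ M := Nat.floor_le hM0.le
      have h3 : (P.card : ℝ) ≤ (⌊M⌋₊ : ℝ) := by exact_mod_cast h1
      linarith
    refine ⟨(B₁ ×ˢ lsts P k).image (fun x => x.1 :: x.2) ∪ P.biUnion (fun a => (Bf a).image (fun A => a :: A)), ?_, ?_⟩
    · have h1 : (((B₁ ×ˢ lsts P k).image (fun x => x.1 :: x.2) ∪ P.biUnion (fun a => (Bf a).image (fun A => a :: A))).card : ℝ) ≤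
          (B₁.card : ℝ) * (P.card : ℝ) ^ k + ∑ a ∈ P, ((Bf a).card : ℝ) := by
        have a1 := card_union_le ((B₁ ×ˢ lsts P k).image (fun x => x.1 :: x.2)) (P.biUnion (fun a => (Bf a).image (fun A => a :: A)))
        have a2 : ((B₁ ×ˢ lsts P k).image (fun x => x.1 :: x.2)).card ≤ B₁.card * P.card ^ k := by
          refine card_image_le.trans ?_
          rw [card_product]
          exact Nat.mul_le_mul_left _ (card_lsts P k)
        have a3 : (P.biUnion (fun a => (Bf a).image (fun A => a :: A))).card ≤ ∑ a ∈ P, (Bf a).card :=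
          card_biUnion_le.trans (sum_le_sum fun a _ => card_image_le)
        exact_mod_cast a1.trans (Nat.add_le_add a2 a3)
      refine h1.trans ?_
      have h2 : (B₁.card : ℝ) * (P.card : ℝ) ^ k ≤ M ^ (1 - ε) * l * M ^ k := by
        apply mul_le_mul hB₁ _ (by positivity) (by positivity)
        exact pow_le_pow_left₀ (Nat.cast_nonneg _) hPc k
      have h3 : ∑ a ∈ P, ((Bf a).card : ℝ) ≤ M * (k * (M ^ (k - ε) * l)) := by
        calc ∑ a ∈ P, ((Bf a).card : ℝ) ≤ ∑ _a ∈ P, k * (M ^ (k - ε) * l) := sum_le_sum fun a _ => hBf a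
          _ = P.card * (k * (M ^ (k - ε) * l)) := by rw [sum_const, nsmul_eq_mul]
          _ ≤ _ := mul_le_mul_of_nonneg_right hPc (by positivity)
      have e1 : M ^ (1 - ε) * l * M ^ k = M ^ (((k + 1 : ℕ) : ℝ) - ε) * l := by
        rw [← Real.rpow_natCast, mul_right_comm, ← Real.rpow_add hM0]
        congr 2
        push_cast
        ring
      have e2 : M * (k * (M ^ (k - ε) * l)) = k * (M ^ (((k + 1 : ℕ) : ℝ) - ε) * l) := by
        have : M ^ (((k + 1 : ℕ) : ℝ) - ε) = M * M ^ (k - ε) := by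
          have h5 : ((k + 1 : ℕ) : ℝ) - ε = 1 + (k - ε) := by push_cast; ring
          rw [h5, Real.rpow_add hM0, Real.rpow_one]
        rw [this]; ring
      rw [e1] at h2
      rw [e2] at h3
      have e3 : ((k + 1 : ℕ) : ℝ) * (M ^ (((k + 1 : ℕ) : ℝ) - ε) * l) =
          M ^ (((k + 1 : ℕ) : ℝ) - ε) * l + k * (M ^ (((k + 1 : ℕ) : ℝ) - ε) * l) := by
        push_cast; ring
      rw [e3]
      linarith
    · intro A hA hAP hAB
      obtain _ | ⟨a, A⟩ := A
      · simp at hA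
      rw [List.length_cons] at hA
      have hAk : A.length = k := by omega
      obtain ⟨ha1, ha2, ha3⟩ := hAP a List.mem_cons_self
      have hAP' : ∀ b ∈ A, b.Prime ∧ β * M ≤ (b : ℝ) ∧ (b : ℝ) ≤ M := fun b hb => hAP b (List.mem_cons_of_mem _ hb)
      have haP : ∀ b : ℕ, b.Prime → β * M ≤ (b : ℝ) → (b : ℝ) ≤ M → b ∈ P := by
        intro b h1 h2 h3
        rw [hP, mem_filter, mem_Icc]
        exact ⟨⟨h1.one_lt.le, Nat.le_floor h3⟩, h1, h2⟩
      rw [mem_union, not_or] at hAB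
      have haB : a ∉ B₁ := by
        intro hcon
        apply hAB.1
        rw [mem_image]
        exact ⟨(a, A), mem_product.2 ⟨hcon, mem_lsts P k A hAk fun b hb => haP b (hAP' b hb).1 (hAP' b hb).2.1 (hAP' b hb).2.2⟩, rfl⟩
      have hAB' : A ∉ Bf a := by
        intro hcon
        apply hAB.2
        rw [mem_biUnion]
        exact ⟨a, haP a ha1 ha2 ha3, mem_image.2 ⟨A, hcon, rfl⟩⟩
      have hT := hBf' a ha1 ha2 ha3 haB A hAk hAP' hAB'
      have hc := hB₁' a ha1 ha2 ha3 haB H hH1.1 hH1.2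
      have esm : ∀ n, sm (a :: A) (H :: L) n = ((PH H ((a : ℝ) * n)).card : ℝ) * sm A L n := fun n => by
        conv_lhs => unfold sm
      simp only [esm]
      obtain ⟨T, hTT⟩ : ∃ T, T = ∑ n ∈ Icc 1 ⌊N⌋₊, w n * (((PH H ((a : ℝ) * n)).card : ℝ) * sm A L n) := ⟨_, rfl⟩
      rw [← hTT] at hT ⊢
      obtain ⟨C, hC⟩ : ∃ C, C = CW w N H a := ⟨_, rfl⟩
      rw [← hC] at hT hc
      have hp0 : 0 ≤ pex l L := pex_nonneg hl0 L fun H' hH' => by linarith [(hLH' H' hH').1]
      rw [pex_cons]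
      obtain ⟨E, hE⟩ : ∃ E, E = pex l L := ⟨_, rfl⟩
      rw [← hE] at hT hp0 ⊢
      obtain ⟨F, hF⟩ : ∃ F, F = H / l * S := ⟨_, rfl⟩
      rw [← hF] at hc
      have hF0 : 0 ≤ F := by rw [hF]; positivity
      have eF : S * (H / l * E) = F * E := by rw [hF]; ring
      rw [eF]
      have u1 := abs_le.1 hT
      have u2 := abs_le.1 hc
      have hδx : δ = 4 * x := by rw [hx]; ring
      rw [hδx, abs_le]
      have hx2 : x ^ 2 ≤ 1 / 4 * x := by rw [sq]; exact mul_le_mul_of_nonneg_right hx1 hx0.le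
      have hFE0 : 0 ≤ F * E := mul_nonneg hF0 hp0
      constructor
      · have q1 : (1 - x) * (C * E) ≤ T := by linarith [u1.1]
        have q2 : (1 - x) * F ≤ C := by linarith [u2.1]
        have q3 : (1 - x) * ((1 - x) * F * E) ≤ T := by
          refine le_trans ?_ q1
          apply mul_le_mul_of_nonneg_left _ (by linarith)
          exact mul_le_mul_of_nonneg_right q2 hp0
        have q6 : (1 - 4 * x) * (F * E) ≤ (1 - x) * ((1 - x) * F * E) := by
          have h1 : 1 - 4 * x ≤ (1 - x) * (1 - x) := by nlinarith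
          calc (1 - 4 * x) * (F * E) ≤ ((1 - x) * (1 - x)) * (F * E) := mul_le_mul_of_nonneg_right h1 hFE0
            _ = _ := by ring
        linarith
      · have q1 : T ≤ (1 + x) * (C * E) := by linarith [u1.2]
        have q2 : C ≤ (1 + x) * F := by linarith [u2.2]
        have q3 : T ≤ (1 + x) * ((1 + x) * F * E) := by
          refine q1.trans ?_
          apply mul_le_mul_of_nonneg_left _ (by linarith)
          exact mul_le_mul_of_nonneg_right q2 hp0
        have q6 : (1 + x) * ((1 + x) * F * E) ≤ (1 + 4 * x) * (F * E) := by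
          have h1 : (1 + x) * (1 + x) ≤ 1 + 4 * x := by nlinarith
          calc (1 + x) * ((1 + x) * F * E) = ((1 + x) * (1 + x)) * (F * E) := by ring
            _ ≤ _ := mul_le_mul_of_nonneg_right h1 hFE0
        linarith

end Pool.Agent.J4H33.DU
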