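import Pool.Agent.J4H33.R2
import Pool.Agent.J4H33.Q3

/-!
# Second moments of the numbers of primes near the multiples of an arbitrary set
-/

set_option autoImplicit false

namespace Pool.Agent.J4H33.DU

open Finset Filter
open Pool.Agent.Y851.PT
open Pool.Agent.J4H33.W (win mem_win win_sq npairs pairs_any PP mem_PP card_PP)

theorem win_eq_PH {H x : ℝ} (hx : 0 ≤ x) : win x H = PH H x := by
  ext p
  rw [mem_win, mem_PH hx]

theorem win_card_le {H x : ℝ} (hH : 0 ≤ H) (hx : 0 ≤ x) : ((win x H).card : ℝ) ≤ H + 1 := by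
  rw [win_eq_PH hx]
  exact PH_card_le hH hx

theorem npairs_sum (A : Finset ℕ) (y H : ℝ) : npairs A y H = ∑ a ∈ A, npairs {a} y H := by
  unfold npairs
  simp only [sum_singleton]
  rw [sum_comm]

theorem npairs_nonneg (A : Finset ℕ) (y H : ℝ) : 0 ≤ npairs A y H :=
  sum_nonneg fun _ _ => sum_nonneg fun _ _ => Nat.cast_nonneg _

theorem npairs_one_le (a : ℕ) {y H : ℝ} (hH : 1 ≤ H) (hy : 0 ≤ y) : npairs {a} y H ≤ 2 * H ^ 2 := by
  unfold npairs
  simp only [sum_singleton]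
  have hay : 0 ≤ (a : ℝ) * y := by positivity
  calc ∑ h ∈ Icc 1 ⌊H⌋₊, (((win (a * y) H).filter (fun p => p + h ∈ win (a * y) H)).card : ℝ)
      ≤ ∑ _h ∈ Icc 1 ⌊H⌋₊, (H + 1) := by
        apply sum_le_sum
        intro h _
        refine le_trans ?_ (win_card_le (by linarith : 0 ≤ H) hay)
        exact_mod_cast card_filter_le _ _
    _ = (⌊H⌋₊ : ℝ) * (H + 1) := by rw [sum_const, Nat.card_Icc, Nat.add_sub_cancel, nsmul_eq_mul]
    _ ≤ H * (2 * H) := mul_le_mul (Nat.floor_le (by linarith)) (by linarith) (by linarith) (by linarith)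
    _ = 2 * H ^ 2 := by ring

theorem npairs_mono (A : Finset ℕ) (y : ℝ) {H H' : ℝ} (h : H ≤ H') : npairs A y H ≤ npairs A y H' := by
  unfold npairs
  have h1 : Icc 1 ⌊H⌋₊ ⊆ Icc 1 ⌊H'⌋₊ := Icc_subset_Icc_right (Nat.floor_le_floor h)
  refine (sum_le_sum_of_subset_of_nonneg h1 fun _ _ _ => sum_nonneg fun _ _ => Nat.cast_nonneg _).trans ?_
  apply sum_le_sum
  intro j _
  apply sum_le_sum
  intro a _
  have h2 : (win (a * y) H).filter (fun p => p + j ∈ win (a * y) H) ⊆ (win (a * y) H').filter (fun p => p + j ∈ win (a * y) H') := by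
    intro p hp
    rw [mem_filter] at hp ⊢
    exact ⟨Pool.Agent.J4H33.W.win_mono _ _ _ h hp.1, Pool.Agent.J4H33.W.win_mono _ _ _ h hp.2⟩
  exact_mod_cast card_le_card h2

/-- the weighted number of prime pairs -/
noncomputable def NW (w : ℕ → ℝ) (N H : ℝ) (a : ℕ) : ℝ := ∑ n ∈ Icc 1 ⌊N⌋₊, w n * npairs {a} n H

theorem NW_mono (w : ℕ → ℝ) (hw0 : ∀ n, 0 ≤ w n) (N : ℝ) {H H' : ℝ} (h : H ≤ H') (a : ℕ) : NW w N H a ≤ NW w N H' a :=
  sum_le_sum fun n _ => mul_le_mul_of_nonneg_left (npairs_mono _ _ h) (hw0 n)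

/-- **Prime pairs near the multiples, one length.** -/
theorem second_one : ∃ C₂ : ℝ, 0 < C₂ ∧ ∀ γ ε ρ β : ℝ, 0 < γ → 0 < ε → γ + ε < 1 / 3 → 0 < ρ → 0 < β →
    ∃ t N₀ : ℝ, 0 < t ∧ ∀ N : ℝ, N₀ ≤ N → ∀ M D H : ℝ, 1 ≤ D → 0 < M → D * Real.log N ^ 6 ≤ M ^ γ → M ≤ N ^ t →
      M ≤ H → H ≤ N ^ (1 - ρ) →
      ∀ w : ℕ → ℝ, (∀ n, 0 ≤ w n) → (∀ n, w n ≤ 1) → N / D ≤ SW w N →
      (((PP β M).filter (fun a => 4 * C₂ * (H / Real.log N) ^ 2 * SW w N < NW w N H a)).card : ℝ) ≤ M ^ (1 - ε) := by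
  classical
  obtain ⟨C₂, τ, hC₂, hτ, hτ1, hpairs⟩ := pairs_any (1 / 2) (by norm_num) (by norm_num)
  refine ⟨C₂, hC₂, fun γ ε ρ β hγ hε hcond hρ hβ => ?_⟩
  obtain ⟨β₁, hβ₁⟩ : ∃ β₁, β₁ = min β 1 := ⟨_, rfl⟩
  have hβ₁0 : 0 < β₁ := by rw [hβ₁]; exact lt_min hβ one_pos
  have hβ₁1 : β₁ ≤ β := by rw [hβ₁]; exact min_le_left _ _
  have hβ₁2 : β₁ ≤ 1 := by rw [hβ₁]; exact min_le_right _ _
  obtain ⟨ρ', hρ'⟩ : ∃ ρ', ρ' = min ρ (1 / 4) := ⟨_, rfl⟩
  have hρ'0 : 0 < ρ' := by rw [hρ']; exact lt_min hρ (by norm_num)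
  have hρ'1 : ρ' ≤ ρ := by rw [hρ']; exact min_le_left _ _
  have hρ'2 : ρ' ≤ 1 / 4 := by rw [hρ']; exact min_le_right _ _
  obtain ⟨t, ht⟩ : ∃ t, t = ρ' / 2 := ⟨_, rfl⟩
  have ht0 : 0 < t := by rw [ht]; positivity
  have ht1 : t ≤ 1 / 8 := by rw [ht]; linarith
  have e1 := hpairs β₁ hβ₁0 hβ₁2
  obtain ⟨X₀, hX₀⟩ := eventually_atTop.1 e1
  have ev2 : ∀ᶠ N : ℝ in atTop, 8 / (β₁ * C₂) * Real.log N ^ 2 ≤ N ^ t := by
    have h1 := (isLittleO_log_rpow_atTop (r := t / 4) (by positivity)).bound (show (0 : ℝ) < 1 by norm_num)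
    have h2 : ∀ᶠ N : ℝ in atTop, 8 / (β₁ * C₂) ≤ N ^ (t / 2) := (tendsto_rpow_atTop (by positivity)).eventually_ge_atTop _
    filter_upwards [h1, h2, eventually_gt_atTop 1] with N h3 h4 h5
    have hlog : 0 ≤ Real.log N := Real.log_nonneg h5.le
    rw [Real.norm_of_nonneg hlog, one_mul, Real.norm_of_nonneg (by positivity)] at h3
    calc 8 / (β₁ * C₂) * Real.log N ^ 2 ≤ N ^ (t / 2) * (N ^ (t / 4)) ^ 2 := by
          apply mul_le_mul h4 (pow_le_pow_left₀ hlog h3 2) (by positivity) (by positivity)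
      _ = N ^ t := by
          rw [← Real.rpow_natCast, ← Real.rpow_mul (by linarith), ← Real.rpow_add (by linarith)]
          congr 1
          push_cast
          ring
  obtain ⟨N₀, hN₀⟩ := eventually_atTop.1 (ev2.and ((eventually_ge_atTop (max X₀ 3)).and
    (Real.tendsto_log_atTop.eventually_ge_atTop (max (2 ^ 14) (8 / C₂)))))
  refine ⟨t, N₀, ht0, fun N hN M D H hD1 hM0 hMD hMN hMH hHN w hw0 hw1 hwS => ?_⟩
  obtain ⟨g1, g2, g3⟩ := hN₀ N hN
  have g2a := (le_max_left _ _).trans g2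
  have g2b := (le_max_right _ _).trans g2
  have g3a := (le_max_left _ _).trans g3
  have g3b := (le_max_right _ _).trans g3
  have hN0 : 0 < N := by linarith
  have hN1 : 1 < N := by linarith
  obtain ⟨l, hl⟩ : ∃ l, l = Real.log N := ⟨_, rfl⟩
  rw [← hl] at g1 g3a g3b hMD ⊢
  have hl1 : 1 ≤ l := by linarith
  have hl0 : 0 < l := by linarith
  have hD0 : 0 < D := by linarith
  have hl6 : 1 ≤ l ^ 6 := one_le_pow₀ hl1
  have hDl : D ≤ D * l ^ 6 := le_mul_of_one_le_right hD0.le hl6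
  have hMγ1 : 1 ≤ M ^ γ := by linarith
  have hM1 : 1 ≤ M := by
    by_contra hcon
    push Not at hcon
    have := Real.rpow_lt_one hM0.le hcon hγ
    linarith
  have hMM : M ^ γ ≤ M := by
    calc M ^ γ ≤ M ^ (1 : ℝ) := Real.rpow_le_rpow_of_exponent_le hM1 (by linarith)
      _ = M := Real.rpow_one M
  have hH1 : 1 ≤ H := hM1.trans hMH
  have hH0 : 0 < H := by linarith
  obtain ⟨X, hX⟩ : ∃ X, X = N * M := ⟨_, rfl⟩
  have hNX : N ≤ X := by rw [hX]; exact le_mul_of_one_le_right hN0.le hM1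
  have hX0 : 0 < X := by linarith
  have hX1 : 1 < X := by linarith
  have hXM : X / M = N := by rw [hX]; field_simp
  obtain ⟨L, hL⟩ : ∃ L, L = Real.log X := ⟨_, rfl⟩
  have hlL : l ≤ L := by rw [hl, hL]; exact Real.log_le_log hN0 hNX
  have hL2 : L ≤ 2 * l := by
    rw [hL, hX, Real.log_mul hN0.ne' hM0.ne', ← hl]
    have h1 : Real.log M ≤ t * l := by
      have := Real.log_le_log hM0 hMN
      rwa [Real.log_rpow hN0, ← hl] at this
    have h2 : t * l ≤ 1 * l := mul_le_mul_of_nonneg_right (by linarith) hl0.le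
    linarith
  have hL0 : 0 < L := by linarith
  obtain ⟨S, hS⟩ : ∃ S, S = SW w N := ⟨_, rfl⟩
  rw [← hS] at hwS ⊢
  have hS0 : 0 < S := lt_of_lt_of_le (by positivity) hwS
  by_contra hcon
  rw [not_le] at hcon
  obtain ⟨A, hA⟩ : ∃ A, A = (PP β M).filter (fun a => 4 * C₂ * (H / l) ^ 2 * S < NW w N H a) := ⟨_, rfl⟩
  rw [← hA] at hcon
  have hA0 : 0 < (A.card : ℝ) := lt_of_le_of_lt (by positivity) hcon
  have hA₁ : ∀ a ∈ A, a.Prime ∧ β₁ * M ≤ (a : ℝ) ∧ (a : ℝ) ≤ M := by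
    intro a ha
    rw [hA, mem_filter] at ha
    obtain ⟨h1, h2, h3⟩ := (mem_PP β M hM0 a).1 ha.1
    exact ⟨h1, (mul_le_mul_of_nonneg_right hβ₁1 hM0.le).trans h2, h3⟩
  obtain ⟨D', hD'⟩ : ∃ D', D' = D * l ^ 3 := ⟨_, rfl⟩
  have hl3 : 1 ≤ l ^ 3 := one_le_pow₀ hl1
  have hD'1 : 1 ≤ D' := by rw [hD']; exact one_le_mul_of_one_le_of_one_le hD1 hl3
  have hD'0 : 0 < D' := by linarith
  have hD'M : D' ≤ M := by
    refine le_trans ?_ (hMD.trans hMM)
    rw [hD']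
    exact mul_le_mul_of_nonneg_left (pow_le_pow_right₀ hl1 (by norm_num)) hD0.le
  have hD'X : D' ≤ X ^ ((1 - (1 / 2 : ℝ)) / 4) := by
    calc D' ≤ N ^ t := hD'M.trans hMN
      _ ≤ X ^ t := Real.rpow_le_rpow hN0.le hNX ht0.le
      _ ≤ _ := Real.rpow_le_rpow_of_exponent_le hX1.le (by linarith)
  have hMX : M ≤ X ^ (1 / 2 : ℝ) := by
    calc M ≤ N ^ t := hMN
      _ ≤ X ^ t := Real.rpow_le_rpow hN0.le hNX ht0.le
      _ ≤ _ := Real.rpow_le_rpow_of_exponent_le hX1.le (by linarith)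
  have hcard14 : D' * L ^ 14 ≤ (A.card : ℝ) := by
    refine le_trans ?_ hcon.le
    have h7 : M ^ (3 * γ) ≤ M ^ (1 - ε) := Real.rpow_le_rpow_of_exponent_le hM1 (by linarith)
    refine le_trans ?_ h7
    have h8 : M ^ (3 * γ) = (M ^ γ) ^ 3 := by
      rw [← Real.rpow_natCast, ← Real.rpow_mul hM0.le]
      congr 1
      push_cast
      ring
    rw [h8]
    calc D' * L ^ 14 ≤ D' * (2 * l) ^ 14 := by gcongr
      _ = 2 ^ 14 * (D * l ^ 17) := by rw [hD']; ring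
      _ ≤ l * (D ^ 3 * l ^ 17) := by
          apply mul_le_mul g3a _ (by positivity) hl0.le
          apply mul_le_mul_of_nonneg_right _ (by positivity)
          exact le_self_pow₀ hD1 (by norm_num)
      _ = (D * l ^ 6) ^ 3 := by ring
      _ ≤ (M ^ γ) ^ 3 := pow_le_pow_left₀ (by positivity) hMD 3
  obtain ⟨ℓ, hℓ⟩ : ∃ ℓ, ℓ = H / M := ⟨_, rfl⟩
  have hℓ0 : 0 < ℓ := by rw [hℓ]; positivity
  have hMℓ : M * ℓ = H := by rw [hℓ]; field_simp
  have hHN1 : H ≤ N := by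
    refine hHN.trans ?_
    calc N ^ (1 - ρ) ≤ N ^ (1 : ℝ) := Real.rpow_le_rpow_of_exponent_le hN1.le (by linarith)
      _ = N := Real.rpow_one N
  have hℓN : ℓ ≤ X / M := by
    rw [hXM, hℓ]
    exact (div_le_self hH0.le hM1).trans hHN1
  obtain ⟨U, hU1, hU2⟩ := hX₀ X (g2a.trans hNX) M H ℓ D' hD'1 hD'X hH1 hℓ0 hMℓ.le hℓN hM1 hMX A hA₁ (by rw [← hL]; exact hcard14)
  rw [← hL, hMℓ] at hU1
  rw [hXM, ← hL] at hU2
  obtain ⟨E, hE⟩ : ∃ E, E = (Icc 1 ⌊N⌋₊).filter (fun n : ℕ => ∃ u ∈ U, u ≤ (n : ℝ) ∧ (n : ℝ) ≤ u + ℓ) := ⟨_, rfl⟩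
  obtain ⟨y₀, hy₀⟩ : ∃ y₀, y₀ = (X ^ τ + H) / (β₁ * M) := ⟨_, rfl⟩
  have hy₀0 : 0 < y₀ := by rw [hy₀]; positivity
  obtain ⟨E₀, hE₀⟩ : ∃ E₀, E₀ = (Icc 1 ⌊N⌋₊).filter (fun n : ℕ => (n : ℝ) < y₀) := ⟨_, rfl⟩
  have hEc : (E.card : ℝ) ≤ 2 * N / (D * l ^ 4) := by
    have h1 : (E.card : ℝ) ≤ U.card * (ℓ + 1) := by rw [hE]; exact int_points U ℓ hℓ0.le N
    have h2 : (U.card : ℝ) * (ℓ + 1) ≤ X / (H * D' * L) * (ℓ + 1) := mul_le_mul_of_nonneg_right hU1 (by positivity)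
    have h3 : X / (H * D' * L) * (ℓ + 1) = N * (1 + M / H) / (D' * L) := by rw [hX, hℓ]; field_simp
    have h4 : N * (1 + M / H) / (D' * L) ≤ N * 2 / (D' * l) := by
      apply div_le_div₀ (by positivity) _ (by positivity) (mul_le_mul_of_nonneg_left hlL hD'0.le)
      apply mul_le_mul_of_nonneg_left _ hN0.le
      have : M / H ≤ 1 := by rw [div_le_one hH0]; exact hMH
      linarith
    have h5 : N * 2 / (D' * l) = 2 * N / (D * l ^ 4) := by
      rw [hD']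
      congr 1 <;> ring
    linarith
  have hE₀c : (E₀.card : ℝ) ≤ y₀ := by
    have h1 : E₀ ⊆ Icc 1 ⌊y₀⌋₊ := by
      intro n hn
      rw [hE₀, mem_filter, mem_Icc] at hn
      rw [mem_Icc]
      exact ⟨hn.1.1, Nat.le_floor hn.2.le⟩
    have h2 := card_le_card h1
    rw [Nat.card_Icc, Nat.add_sub_cancel] at h2
    have h3 : (E₀.card : ℝ) ≤ (⌊y₀⌋₊ : ℝ) := by exact_mod_cast h2
    exact h3.trans (Nat.floor_le hy₀0.le)
  have hy₀2 : y₀ ≤ 2 * N ^ (1 - ρ') / β₁ := by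
    rw [hy₀]
    have h1 : X ^ τ ≤ N ^ (1 - ρ') := by
      have hXN : X ≤ N ^ (1 + t) := by
        rw [hX, Real.rpow_add hN0, Real.rpow_one]
        exact mul_le_mul_of_nonneg_left hMN hN0.le
      calc X ^ τ ≤ X ^ ((1 : ℝ) / 2) := Real.rpow_le_rpow_of_exponent_le hX1.le hτ1
        _ ≤ (N ^ (1 + t)) ^ ((1 : ℝ) / 2) := Real.rpow_le_rpow hX0.le hXN (by norm_num)
        _ = N ^ ((1 + t) * (1 / 2)) := by rw [← Real.rpow_mul hN0.le]
        _ ≤ N ^ (1 - ρ') := Real.rpow_le_rpow_of_exponent_le hN1.le (by linarith)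
    have h2 : H ≤ N ^ (1 - ρ') := hHN.trans (Real.rpow_le_rpow_of_exponent_le hN1.le (by linarith))
    have h3 : X ^ τ + H ≤ 2 * N ^ (1 - ρ') := by linarith
    calc (X ^ τ + H) / (β₁ * M) ≤ (2 * N ^ (1 - ρ')) / (β₁ * M) := div_le_div_of_nonneg_right h3 (by positivity)
      _ ≤ (2 * N ^ (1 - ρ')) / β₁ := div_le_div_of_nonneg_left (by positivity) hβ₁0 (le_mul_of_one_le_right hβ₁0.le hM1)
  -- the bad `n`
  have hbadn : ((E.card : ℝ) + E₀.card) * (2 * H ^ 2) ≤ C₂ * (H / l) ^ 2 * S := by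
    have h1 : (E.card : ℝ) * (2 * l ^ 2) ≤ C₂ * (N / D) / 2 := by
      calc (E.card : ℝ) * (2 * l ^ 2) ≤ 2 * N / (D * l ^ 4) * (2 * l ^ 2) := mul_le_mul_of_nonneg_right hEc (by positivity)
        _ = 4 / l ^ 2 * (N / D) := by field_simp; norm_num
        _ ≤ C₂ / 2 * (N / D) := by
            apply mul_le_mul_of_nonneg_right _ (by positivity)
            rw [div_le_iff₀ (by positivity)]
            have h2 : 8 ≤ C₂ * l := by
              rw [div_le_iff₀ hC₂] at g3b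
              linarith
            have h3 : C₂ * l ≤ C₂ * l ^ 2 := mul_le_mul_of_nonneg_left (by nlinarith) hC₂.le
            linarith
        _ = C₂ * (N / D) / 2 := by ring
    have h2 : (E₀.card : ℝ) * (2 * l ^ 2) ≤ C₂ * (N / D) / 2 := by
      have h3 : D ≤ N ^ t := by
        refine le_trans ?_ (hMN)
        exact hDl.trans (hMD.trans hMM)
      calc (E₀.card : ℝ) * (2 * l ^ 2) ≤ 2 * N ^ (1 - ρ') / β₁ * (2 * l ^ 2) := mul_le_mul_of_nonneg_right (hE₀c.trans hy₀2) (by positivity)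
        _ = (8 / (β₁ * C₂) * l ^ 2) * (C₂ / 2 * N ^ (1 - ρ')) := by field_simp; norm_num
        _ ≤ N ^ t * (C₂ / 2 * N ^ (1 - ρ')) := mul_le_mul_of_nonneg_right g1 (by positivity)
        _ = C₂ / 2 * (N ^ (1 - ρ' + t)) := by rw [Real.rpow_add hN0]; ring
        _ ≤ C₂ / 2 * (N / D) := by
            apply mul_le_mul_of_nonneg_left _ (by positivity)
            rw [le_div_iff₀ hD0]
            calc N ^ (1 - ρ' + t) * D ≤ N ^ (1 - ρ' + t) * N ^ t := mul_le_mul_of_nonneg_left h3 (by positivity)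
              _ = N := by
                rw [← Real.rpow_add hN0]
                have : 1 - ρ' + t + t = 1 := by rw [ht]; ring
                rw [this, Real.rpow_one]
        _ = C₂ * (N / D) / 2 := by ring
    have h3 : ((E.card : ℝ) + E₀.card) * (2 * l ^ 2) ≤ C₂ * S := by
      calc ((E.card : ℝ) + E₀.card) * (2 * l ^ 2) ≤ C₂ * (N / D) := by linarith
        _ ≤ C₂ * S := mul_le_mul_of_nonneg_left hwS hC₂.le
    calc ((E.card : ℝ) + E₀.card) * (2 * H ^ 2) = (((E.card : ℝ) + E₀.card) * (2 * l ^ 2)) * (H / l) ^ 2 := by field_simp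
      _ ≤ (C₂ * S) * (H / l) ^ 2 := mul_le_mul_of_nonneg_right h3 (by positivity)
      _ = C₂ * (H / l) ^ 2 * S := by ring
  -- the sum over `n`
  have hup : ∑ n ∈ Icc 1 ⌊N⌋₊, w n * npairs A n H ≤ 3 * (A.card * (C₂ * (H / l) ^ 2 * S)) := by
    have hpt : ∀ n ∈ Icc 1 ⌊N⌋₊, w n * npairs A n H ≤ w n * (2 * (C₂ * A.card * (H / l) ^ 2)) +
        ((if n ∈ E then (A.card : ℝ) * (2 * H ^ 2) else 0) + (if n ∈ E₀ then (A.card : ℝ) * (2 * H ^ 2) else 0)) := by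
      intro n hn
      have hn1 := (mem_Icc.1 hn).1
      have hnN : (n : ℝ) ≤ N := (Nat.le_floor_iff hN0.le).1 (mem_Icc.1 hn).2
      have hn0 : (0 : ℝ) < n := by exact_mod_cast hn1
      have htriv : w n * npairs A n H ≤ A.card * (2 * H ^ 2) := by
        calc w n * npairs A n H ≤ 1 * npairs A n H := mul_le_mul_of_nonneg_right (hw1 n) (npairs_nonneg _ _ _)
          _ = ∑ a ∈ A, npairs {a} n H := by rw [one_mul]; exact npairs_sum A n H
          _ ≤ ∑ _a ∈ A, 2 * H ^ 2 := sum_le_sum fun a _ => npairs_one_le a hH1 hn0.le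
          _ = _ := by rw [sum_const, nsmul_eq_mul]
      have hp0 : 0 ≤ w n * (2 * (C₂ * A.card * (H / l) ^ 2)) := mul_nonneg (hw0 n) (by positivity)
      have hq0 : 0 ≤ (A.card : ℝ) * (2 * H ^ 2) := by positivity
      by_cases h1 : n ∈ E
      · rw [if_pos h1]
        have : 0 ≤ (if n ∈ E₀ then (A.card : ℝ) * (2 * H ^ 2) else 0) := by split_ifs <;> [exact hq0; exact le_rfl]
        linarith
      · by_cases h2 : n ∈ E₀
        · rw [if_pos h2, if_neg h1]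
          linarith
        · rw [if_neg h1, if_neg h2, add_zero, add_zero]
          apply mul_le_mul_of_nonneg_left _ (hw0 n)
          have hny : y₀ ≤ n := by
            by_contra hcon2
            push Not at hcon2
            exact h2 (by rw [hE₀, mem_filter]; exact ⟨hn, hcon2⟩)
          have h3 := hU2 n hn0 hnN (fun a ha => by
            have h7 : y₀ * (β₁ * M) ≤ n * a := mul_le_mul hny (hA₁ a ha).2.1 (by positivity) hn0.le
            rw [hy₀, div_mul_cancel₀ _ (by positivity)] at h7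
            linarith) (fun u hu hcon2 => h1 (by rw [hE, mem_filter]; exact ⟨hn, u, hu, hcon2⟩))
          refine h3.trans ?_
          have h4 : H / L ≤ H / l := div_le_div_of_nonneg_left hH0.le hl0 hlL
          have h5 : (H / L) ^ 2 ≤ (H / l) ^ 2 := pow_le_pow_left₀ (by positivity) h4 2
          have h6 : C₂ * A.card * (H / L) ^ 2 ≤ C₂ * A.card * (H / l) ^ 2 := mul_le_mul_of_nonneg_left h5 (by positivity)
          linarith
    refine (sum_le_sum hpt).trans ?_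
    rw [sum_add_distrib, sum_add_distrib, ← sum_mul]
    have hEs : ∑ n ∈ Icc 1 ⌊N⌋₊, (if n ∈ E then (A.card : ℝ) * (2 * H ^ 2) else 0) ≤ E.card * (A.card * (2 * H ^ 2)) := by
      rw [← sum_filter, sum_const, nsmul_eq_mul]
      apply mul_le_mul_of_nonneg_right _ (by positivity)
      have : (Icc 1 ⌊N⌋₊).filter (fun n => n ∈ E) ⊆ E := fun n hn => (mem_filter.1 hn).2
      exact_mod_cast card_le_card this
    have hE₀s : ∑ n ∈ Icc 1 ⌊N⌋₊, (if n ∈ E₀ then (A.card : ℝ) * (2 * H ^ 2) else 0) ≤ E₀.card * (A.card * (2 * H ^ 2)) := by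
      rw [← sum_filter, sum_const, nsmul_eq_mul]
      apply mul_le_mul_of_nonneg_right _ (by positivity)
      have : (Icc 1 ⌊N⌋₊).filter (fun n => n ∈ E₀) ⊆ E₀ := fun n hn => (mem_filter.1 hn).2
      exact_mod_cast card_le_card this
    have e5 : ∑ n ∈ Icc 1 ⌊N⌋₊, w n = S := by rw [hS]; rfl
    rw [e5]
    have h6 := mul_le_mul_of_nonneg_left hbadn hA0.le
    linarith
  have hlow : ∑ _a ∈ A, 4 * C₂ * (H / l) ^ 2 * S ≤ ∑ a ∈ A, NW w N H a := sum_le_sum fun a ha => by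
    rw [hA, mem_filter] at ha
    exact ha.2.le
  rw [sum_const, nsmul_eq_mul] at hlow
  have hswap : ∑ a ∈ A, NW w N H a = ∑ n ∈ Icc 1 ⌊N⌋₊, w n * npairs A n H := by
    unfold NW
    rw [sum_comm]
    apply sum_congr rfl
    intro n _
    rw [npairs_sum A, mul_sum]
  rw [hswap] at hlow
  have hpos : 0 < (A.card : ℝ) * (C₂ * (H / l) ^ 2 * S) := by positivity
  linarith

end Pool.Agent.J4H33.DU
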