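import Pool.Agent.J4H33.R3

/-!
# The law of large numbers at few multiples of an arbitrary set
-/

set_option autoImplicit false

namespace Pool.Agent.J4H33.DU

open Finset Filter
open Pool.Agent.Y851.PT
open Pool.Agent.J4H33.W (win mem_win win_sq npairs PP mem_PP card_PP)

theorem dyadic {M H : ℝ} (hM : 0 < M) (hMH : M ≤ H) : ∀ J : ℕ, H ≤ M * 2 ^ J → ∃ j : ℕ, j ≤ J ∧ H ≤ M * 2 ^ j ∧ M * 2 ^ j ≤ 2 * H := by
  intro J
  induction J with
  | zero =>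
    intro h
    refine ⟨0, le_rfl, h, ?_⟩
    rw [pow_zero, mul_one]
    linarith
  | succ J ih =>
    intro h
    by_cases h1 : H ≤ M * 2 ^ J
    · obtain ⟨j, h2, h3, h4⟩ := ih h1
      exact ⟨j, by omega, h3, h4⟩
    · push Not at h1
      refine ⟨J + 1, le_rfl, h, ?_⟩
      rw [pow_succ]
      linarith

/-- **Prime pairs near the multiples, all lengths.** -/
theorem second_all : ∃ C : ℝ, 0 < C ∧ ∀ γ ε ρ β : ℝ, 0 < γ → 0 < ε → γ + ε < 1 / 3 → 0 < ρ → 0 < β →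
    ∃ t N₀ : ℝ, 0 < t ∧ ∀ N : ℝ, N₀ ≤ N → ∀ M D : ℝ, 1 ≤ D → 0 < M → D * Real.log N ^ 6 ≤ M ^ γ → M ≤ N ^ t →
      ∀ w : ℕ → ℝ, (∀ n, 0 ≤ w n) → (∀ n, w n ≤ 1) → N / D ≤ SW w N →
      ∃ B : Finset ℕ, (B.card : ℝ) ≤ M ^ (1 - ε) * Real.log N ^ 2 ∧
        ∀ a : ℕ, a.Prime → β * M ≤ (a : ℝ) → (a : ℝ) ≤ M → a ∉ B → ∀ H : ℝ, M ≤ H → H ≤ N ^ (1 - ρ) →
          NW w N H a ≤ C * (H / Real.log N) ^ 2 * SW w N := by
  classical
  obtain ⟨C₂, hC₂, hone⟩ := second_one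
  refine ⟨16 * C₂, by positivity, fun γ ε ρ β hγ hε hcond hρ hβ => ?_⟩
  obtain ⟨ρ', hρ'⟩ : ∃ ρ', ρ' = min ρ 1 / 2 := ⟨_, rfl⟩
  have hρ'0 : 0 < ρ' := by rw [hρ']; have : 0 < min ρ 1 := lt_min hρ one_pos; positivity
  have hρ'1 : 2 * ρ' ≤ ρ := by rw [hρ']; have := min_le_left ρ 1; linarith
  have hρ'2 : ρ' ≤ 1 / 2 := by rw [hρ']; have := min_le_right ρ 1; linarith
  obtain ⟨t, N₁, ht, hone⟩ := hone γ ε ρ' β hγ hε hcond hρ'0 hβ
  have ev : ∀ᶠ N : ℝ in atTop, 2 ≤ N ^ ρ' := (tendsto_rpow_atTop hρ'0).eventually_ge_atTop 2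
  obtain ⟨N₀, hN₀⟩ := eventually_atTop.1 (ev.and ((Real.tendsto_log_atTop.eventually_ge_atTop 4).and (eventually_ge_atTop (max N₁ 3))))
  refine ⟨t, N₀, ht, fun N hN M D hD1 hM0 hMD hMN w hw0 hw1 hwS => ?_⟩
  obtain ⟨g1, g2, g3⟩ := hN₀ N hN
  have g3a := (le_max_left _ _).trans g3
  have g3b := (le_max_right _ _).trans g3
  have hN0 : 0 < N := by linarith
  have hN1 : 1 < N := by linarith
  obtain ⟨l, hl⟩ : ∃ l, l = Real.log N := ⟨_, rfl⟩
  rw [← hl] at g2 ⊢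
  have hl0 : 0 < l := by linarith
  have hl1 : 1 ≤ l := by linarith
  have hM1 : 1 ≤ M := by
    have h1 : 1 ≤ M ^ γ := by
      refine le_trans ?_ hMD
      rw [← hl]
      exact one_le_mul_of_one_le_of_one_le hD1 (one_le_pow₀ hl1)
    by_contra hcon
    push Not at hcon
    have := Real.rpow_lt_one hM0.le hcon hγ
    linarith
  obtain ⟨S, hS⟩ : ∃ S, S = SW w N := ⟨_, rfl⟩
  have hS0 : 0 ≤ S := by rw [hS]; exact sum_nonneg fun n _ => hw0 n
  obtain ⟨J, hJ⟩ : ∃ J : ℕ, J = ⌈2 * l⌉₊ := ⟨_, rfl⟩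
  have hJN : N ≤ 2 ^ J := by
    have h1 : 2 * l ≤ J := by rw [hJ]; exact Nat.le_ceil _
    have h2 : (2 : ℝ) ^ J = Real.exp (J * Real.log 2) := by
      rw [mul_comm, Real.exp_mul, Real.exp_log (by norm_num), Real.rpow_natCast]
    rw [h2, ← Real.exp_log hN0, ← hl]
    apply Real.exp_le_exp.2
    have h3 : (1 / 2 : ℝ) ≤ Real.log 2 := by have := Real.log_two_gt_d9; linarith
    calc l = 2 * l * (1 / 2) := by ring
      _ ≤ J * Real.log 2 := mul_le_mul h1 h3 (by norm_num) (Nat.cast_nonneg _)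
  obtain ⟨Bj, hBj⟩ : ∃ Bj : ℕ → Finset ℕ, Bj = fun j => if M * 2 ^ j ≤ N ^ (1 - ρ') then
      (PP β M).filter (fun a => 4 * C₂ * (M * 2 ^ j / l) ^ 2 * S < NW w N (M * 2 ^ j) a) else ∅ := ⟨_, rfl⟩
  have hBjc : ∀ j, ((Bj j).card : ℝ) ≤ M ^ (1 - ε) := by
    intro j
    rw [hBj]
    simp only
    split_ifs with h
    · rw [hS, hl]
      exact hone N g3a M D (M * 2 ^ j) hD1 hM0 hMD hMN (le_mul_of_one_le_right hM0.le (one_le_pow₀ (by norm_num))) h w hw0 hw1 hwS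
    · rw [card_empty, Nat.cast_zero]; positivity
  refine ⟨(range (J + 1)).biUnion Bj, ?_, fun a ha1 ha2 ha3 haB H hH1 hH2 => ?_⟩
  · calc (((range (J + 1)).biUnion Bj).card : ℝ) ≤ ∑ j ∈ range (J + 1), ((Bj j).card : ℝ) := by exact_mod_cast card_biUnion_le
      _ ≤ ∑ _j ∈ range (J + 1), M ^ (1 - ε) := sum_le_sum fun j _ => hBjc j
      _ = ((J + 1 : ℕ) : ℝ) * M ^ (1 - ε) := by rw [sum_const, card_range, nsmul_eq_mul]
      _ ≤ l ^ 2 * M ^ (1 - ε) := by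
        apply mul_le_mul_of_nonneg_right _ (by positivity)
        have h1 : (J : ℝ) < 2 * l + 1 := by rw [hJ]; exact Nat.ceil_lt_add_one (by positivity)
        push_cast
        nlinarith
      _ = M ^ (1 - ε) * l ^ 2 := by ring
  · have hH0 : 0 < H := by linarith
    have hHJ : H ≤ M * 2 ^ J := by
      calc H ≤ N ^ (1 - ρ) := hH2
        _ ≤ N ^ (1 : ℝ) := Real.rpow_le_rpow_of_exponent_le hN1.le (by linarith)
        _ = N := Real.rpow_one N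
        _ ≤ 2 ^ J := hJN
        _ ≤ M * 2 ^ J := le_mul_of_one_le_left (by positivity) hM1
    obtain ⟨j, hj1, hj2, hj3⟩ := dyadic hM0 hH1 J hHJ
    have hjN : M * 2 ^ j ≤ N ^ (1 - ρ') := by
      calc M * 2 ^ j ≤ 2 * H := hj3
        _ ≤ N ^ ρ' * N ^ (1 - 2 * ρ') := by
            apply mul_le_mul g1 _ hH0.le (by positivity)
            exact hH2.trans (Real.rpow_le_rpow_of_exponent_le hN1.le (by linarith))
        _ = N ^ (1 - ρ') := by rw [← Real.rpow_add hN0]; congr 1; ring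
    have haj : a ∉ Bj j := fun hcon => haB (mem_biUnion.2 ⟨j, mem_range.2 (by omega), hcon⟩)
    rw [hBj] at haj
    simp only at haj
    rw [if_pos hjN, mem_filter, not_and, not_lt] at haj
    have h1 := haj ((mem_PP β M hM0 a).2 ⟨ha1, ha2, ha3⟩)
    rw [← hS]
    calc NW w N H a ≤ NW w N (M * 2 ^ j) a := NW_mono w hw0 N hj2 a
      _ ≤ 4 * C₂ * (M * 2 ^ j / l) ^ 2 * S := h1
      _ ≤ 4 * C₂ * (2 * H / l) ^ 2 * S := by gcongr
      _ = 16 * C₂ * (H / l) ^ 2 * S := by ring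

/-- the second moment -/
theorem QW_le (w : ℕ → ℝ) (hw0 : ∀ n, 0 ≤ w n) (N H : ℝ) (a : ℕ) :
    ∑ n ∈ Icc 1 ⌊N⌋₊, w n * ((PH H ((a : ℝ) * n)).card : ℝ) ^ 2 ≤ CW w N H a + 2 * NW w N H a := by
  unfold CW NW
  rw [mul_sum, ← sum_add_distrib]
  apply sum_le_sum
  intro n _
  have h1 := win_sq ((a : ℝ) * n) H
  rw [win_eq_PH (show (0 : ℝ) ≤ (a : ℝ) * n by positivity)] at h1
  have h2 : npairs {a} n H = ∑ h ∈ Icc 1 ⌊H⌋₊, (((PH H ((a : ℝ) * n)).filter (fun p => p + h ∈ PH H ((a : ℝ) * n))).card : ℝ) := by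
    unfold npairs
    simp only [sum_singleton]
    rw [win_eq_PH (show (0 : ℝ) ≤ (a : ℝ) * n by positivity)]
  rw [← h2] at h1
  calc w n * ((PH H ((a : ℝ) * n)).card : ℝ) ^ 2 ≤ w n * (((PH H ((a : ℝ) * n)).card : ℝ) + 2 * npairs {a} n H) :=
        mul_le_mul_of_nonneg_left h1 (hw0 n)
    _ = _ := by ring

/-- **The law of large numbers at few multiples.** -/
theorem lln : ∃ C : ℝ, 0 < C ∧ ∀ γ ε ρ β δ : ℝ, 0 < γ → 0 < ε → γ + ε < 1 / 3 → 0 < ρ → 0 < β → 0 < δ →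
    ∃ t N₀ : ℝ, 0 < t ∧ ∀ N : ℝ, N₀ ≤ N → ∀ M D : ℝ, 1 ≤ D → 0 < M → D * Real.log N ^ 6 ≤ M ^ γ → M ≤ N ^ t →
      ∀ w : ℕ → ℝ, (∀ n, 0 ≤ w n) → (∀ n, w n ≤ 1) → N / D ≤ SW w N →
      ∃ (B₁ : Finset ℕ) (B₂ : Finset (ℕ × ℕ)), (B₁.card : ℝ) ≤ M ^ (1 - ε) * Real.log N ^ 3 ∧
        (B₂.card : ℝ) ≤ M ^ (2 - ε) * Real.log N ^ 3 ∧
        ∀ A : Finset ℕ, A.Nonempty → (∀ a ∈ A, a.Prime ∧ β * M ≤ (a : ℝ) ∧ (a : ℝ) ≤ M ∧ a ∉ B₁) →
          (∀ a ∈ A, ∀ b ∈ A, a ≠ b → (a, b) ∉ B₂) → ∀ H : ℝ, M ≤ H → H ≤ N ^ (1 - ρ) →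
          ∑ n ∈ Icc 1 ⌊N⌋₊, w n * ((∑ a ∈ A, ((PH H ((a : ℝ) * n)).card : ℝ)) / (A.card * (H / Real.log N)) - 1) ^ 2 ≤
            (δ + C / A.card) * SW w N := by
  classical
  obtain ⟨C₂, hC₂, hsec⟩ := second_all
  refine ⟨2 + 2 * C₂, by positivity, fun γ ε ρ β δ hγ hε hcond hρ hβ hδ => ?_⟩
  obtain ⟨x, hx⟩ : ∃ x, x = min δ 1 / 3 := ⟨_, rfl⟩
  have hx0 : 0 < x := by rw [hx]; have : 0 < min δ 1 := lt_min hδ one_pos; positivity
  have hx1 : 3 * x ≤ δ := by rw [hx]; have := min_le_left δ 1; linarith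
  have hx2 : x ≤ 1 / 3 := by rw [hx]; have := min_le_right δ 1; linarith
  obtain ⟨t₁, N₁, ht₁, hfirst⟩ := dual_count γ ε ρ β x hγ hε hcond hρ hβ hx0 (by linarith)
  obtain ⟨t₂, N₂, ht₂, hsec⟩ := hsec γ ε ρ β hγ hε hcond hρ hβ
  obtain ⟨t₃, N₃, ht₃, hpair⟩ := allHS 2 γ ε ρ β x hγ hε hcond hρ hβ hx0
  obtain ⟨t, ht⟩ : ∃ t, t = min t₁ (min t₂ t₃) := ⟨_, rfl⟩
  have ht0 : 0 < t := by rw [ht]; exact lt_min ht₁ (lt_min ht₂ ht₃)
  have ht1 : t ≤ t₁ := by rw [ht]; exact min_le_left _ _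
  have ht2 : t ≤ t₂ := by rw [ht]; exact (min_le_right _ _).trans (min_le_left _ _)
  have ht3 : t ≤ t₃ := by rw [ht]; exact (min_le_right _ _).trans (min_le_right _ _)
  obtain ⟨N₀, hN₀⟩ := eventually_atTop.1 ((Real.tendsto_log_atTop.eventually_ge_atTop 4).and
    (eventually_ge_atTop (max (max N₁ N₂) (max N₃ 3))))
  refine ⟨t, N₀, ht0, fun N hN M D hD1 hM0 hMD hMN w hw0 hw1 hwS => ?_⟩
  obtain ⟨g2, g3⟩ := hN₀ N hN
  have g3a := (le_max_left _ _).trans ((le_max_left _ _).trans g3)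
  have g3b := (le_max_right _ _).trans ((le_max_left _ _).trans g3)
  have g3c := (le_max_left _ _).trans ((le_max_right _ _).trans g3)
  have g3d := (le_max_right _ _).trans ((le_max_right _ _).trans g3)
  have hN0 : 0 < N := by linarith
  have hN1 : 1 < N := by linarith
  obtain ⟨l, hl⟩ : ∃ l, l = Real.log N := ⟨_, rfl⟩
  have hl0 : 0 < l := by rw [hl]; linarith
  have hl1 : 1 ≤ l := by rw [hl]; linarith
  have hl4 : 4 ≤ l := by rw [hl]; linarith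
  have hD0 : 0 < D := by linarith
  have hpw : ∀ j : ℕ, j ≤ 6 → D * Real.log N ^ j ≤ M ^ γ := by
    intro j hj
    refine le_trans ?_ hMD
    rw [← hl]
    exact mul_le_mul_of_nonneg_left (pow_le_pow_right₀ hl1 hj) hD0.le
  have hM1 : 1 ≤ M := by
    have h1 : 1 ≤ M ^ γ := by
      refine le_trans hD1 ?_
      have := hpw 0 (by omega)
      rwa [pow_zero, mul_one] at this
    by_contra hcon
    push Not at hcon
    have := Real.rpow_lt_one hM0.le hcon hγ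
    linarith
  have hlM : l ≤ M := by
    calc l = 1 * l ^ 1 := by ring
      _ ≤ D * l ^ 1 := mul_le_mul_of_nonneg_right hD1 (by positivity)
      _ ≤ M ^ γ := by rw [hl]; exact hpw 1 (by omega)
      _ ≤ M ^ (1 : ℝ) := Real.rpow_le_rpow_of_exponent_le hM1 (by linarith)
      _ = M := Real.rpow_one M
  obtain ⟨Ba, hBa, hBa'⟩ := hfirst N g3a M D hD1 hM0 (hpw 3 (by omega)) (hMN.trans (Real.rpow_le_rpow_of_exponent_le hN1.le ht1)) w hw0 hw1 hwS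
  obtain ⟨Bb, hBb, hBb'⟩ := hsec N g3b M D hD1 hM0 hMD (hMN.trans (Real.rpow_le_rpow_of_exponent_le hN1.le ht2)) w hw0 hw1 hwS
  obtain ⟨Bc, hBc, hBc'⟩ := hpair N g3c M D hD1 hM0 (hpw 4 (by omega)) (hMN.trans (Real.rpow_le_rpow_of_exponent_le hN1.le ht3)) w hw0 hw1 hwS
  rw [← hl] at hBa hBa' hBb hBb' hBc hBc' ⊢
  obtain ⟨S, hS⟩ : ∃ S, S = SW w N := ⟨_, rfl⟩
  rw [← hS] at hBa' hBb' hBc' hwS ⊢
  have hS0 : 0 < S := lt_of_lt_of_le (by positivity) hwS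
  refine ⟨Ba ∪ Bb, Bc.image (fun L => (L.getD 0 0, L.getD 1 0)), ?_, ?_, ?_⟩
  · have h1 : ((Ba ∪ Bb).card : ℝ) ≤ Ba.card + Bb.card := by exact_mod_cast card_union_le _ _
    have hQ : 0 < M ^ (1 - ε) := by positivity
    have h2 : l + l ^ 2 ≤ l ^ 3 := by
      have h3 : l ^ 3 = l * l ^ 2 := by ring
      have h4 : l ^ 2 = l * l := by ring
      have h5 : 4 * l ^ 2 ≤ l * l ^ 2 := mul_le_mul_of_nonneg_right hl4 (by positivity)
      have h6 : l ≤ l * l := le_mul_of_one_le_left hl0.le hl1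
      rw [h3]
      linarith [sq_nonneg l]
    calc ((Ba ∪ Bb).card : ℝ) ≤ M ^ (1 - ε) * l + M ^ (1 - ε) * l ^ 2 := by linarith
      _ = M ^ (1 - ε) * (l + l ^ 2) := by ring
      _ ≤ M ^ (1 - ε) * l ^ 3 := mul_le_mul_of_nonneg_left h2 hQ.le
  · refine le_trans ?_ (hBc.trans (le_of_eq ?_))
    · exact_mod_cast card_image_le
    · norm_num
  · intro A hAne hA1 hA2 H hH1 hH2
    have hH0 : 0 < H := by linarith
    obtain ⟨m, hm⟩ : ∃ m, m = H / l := ⟨_, rfl⟩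
    have hm0 : 0 < m := by rw [hm]; positivity
    have hm1 : 1 ≤ m := by rw [hm, one_le_div hl0]; linarith
    rw [← hm]
    obtain ⟨c, hc⟩ : ∃ c : ℕ → ℕ → ℝ, c = fun (a n : ℕ) => ((PH H ((a : ℝ) * (n : ℝ))).card : ℝ) := ⟨_, rfl⟩
    have hk0 : (0 : ℝ) < A.card := by exact_mod_cast card_pos.2 hAne
    obtain ⟨k, hk⟩ : ∃ k : ℝ, k = (A.card : ℝ) := ⟨_, rfl⟩
    rw [← hk] at hk0 ⊢
    obtain ⟨P, hP⟩ : ∃ P : ℕ → ℕ → ℝ, P = fun a b => ∑ n ∈ Icc 1 ⌊N⌋₊, w n * (c a n * c b n) := ⟨_, rfl⟩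
    -- the moments
    have hlow : ∀ a ∈ A, (1 - x) * (m * S) ≤ CW w N H a := by
      intro a ha
      obtain ⟨q1, q2, q3, q4⟩ := hA1 a ha
      rw [mem_union, not_or] at q4
      have h1 := hBa' a q1 q2 q3 q4.1 H hH1 hH2
      rw [← hm] at h1
      linarith [(abs_le.1 h1).1]
    have hupp : ∀ a ∈ A, CW w N H a ≤ 2 * (m ^ 2 * S) := by
      intro a ha
      obtain ⟨q1, q2, q3, q4⟩ := hA1 a ha
      rw [mem_union, not_or] at q4
      have h1 := hBa' a q1 q2 q3 q4.1 H hH1 hH2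
      rw [← hm] at h1
      have h2 := (abs_le.1 h1).2
      have h3 : m * S ≤ m ^ 2 * S := mul_le_mul_of_nonneg_right (by nlinarith) hS0.le
      have h4 : 0 ≤ m * S := by positivity
      nlinarith
    have hdiag : ∀ a ∈ A, P a a ≤ (2 + 2 * C₂) * (m ^ 2 * S) := by
      intro a ha
      obtain ⟨q1, q2, q3, q4⟩ := hA1 a ha
      rw [mem_union, not_or] at q4
      have h1 := hBb' a q1 q2 q3 q4.2 H hH1 hH2
      rw [← hm] at h1
      have h2 := QW_le w hw0 N H a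
      have e : P a a = ∑ n ∈ Icc 1 ⌊N⌋₊, w n * ((PH H ((a : ℝ) * n)).card : ℝ) ^ 2 := by
        rw [hP, hc]
        apply sum_congr rfl
        intro n _
        simp only
        ring
      rw [e]
      have h3 := hupp a ha
      have h4 : C₂ * m ^ 2 * S = C₂ * (m ^ 2 * S) := by ring
      rw [h4] at h1
      linarith
    have hoff : ∀ a ∈ A, ∀ b ∈ A, a ≠ b → P a b ≤ (1 + x) * (m ^ 2 * S) := by
      intro a ha b hb hab
      obtain ⟨q1, q2, q3, q4⟩ := hA1 a ha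
      obtain ⟨r1, r2, r3, r4⟩ := hA1 b hb
      have hn : [a, b] ∉ Bc := by
        intro hcon
        apply hA2 a ha b hb hab
        rw [mem_image]
        exact ⟨[a, b], hcon, rfl⟩
      have h1 := hBc' [a, b] [H, H] rfl rfl (by
        intro z hz
        simp only [List.mem_cons, List.not_mem_nil, or_false] at hz
        rcases hz with h | h <;> rw [h]
        · exact ⟨q1, q2, q3⟩
        · exact ⟨r1, r2, r3⟩) (by
        intro z hz
        simp only [List.mem_cons, List.not_mem_nil, or_false] at hz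
        rcases hz with h | h <;> rw [h] <;> exact ⟨hH1, hH2⟩) hn
      have e1 : pex l [H, H] = m ^ 2 := by
        unfold pex
        simp only [List.map_cons, List.map_nil, List.prod_cons, List.prod_nil, mul_one]
        rw [hm]
        ring
      have e2 : ∑ n ∈ Icc 1 ⌊N⌋₊, w n * sm [a, b] [H, H] n = P a b := by
        rw [hP, hc]
        apply sum_congr rfl
        intro n _
        simp only [sm, mul_one]
      rw [e1, e2] at h1
      have h2 := (abs_le.1 h1).2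
      have e3 : S * m ^ 2 = m ^ 2 * S := by ring
      rw [e3] at h2
      linarith
    -- expansion
    have hexp : ∑ n ∈ Icc 1 ⌊N⌋₊, w n * ((∑ a ∈ A, c a n) / (k * m) - 1) ^ 2 =
        (∑ a ∈ A, ∑ b ∈ A, P a b) / (k * m) ^ 2 - 2 * (∑ a ∈ A, CW w N H a) / (k * m) + S := by
      have e1 : ∑ a ∈ A, ∑ b ∈ A, P a b = ∑ n ∈ Icc 1 ⌊N⌋₊, w n * (∑ a ∈ A, c a n) ^ 2 := by
        rw [hP]
        simp only
        have : ∀ a ∈ A, ∑ b ∈ A, ∑ n ∈ Icc 1 ⌊N⌋₊, w n * (c a n * c b n) = ∑ n ∈ Icc 1 ⌊N⌋₊, w n * (c a n * ∑ b ∈ A, c b n) := by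
          intro a _
          rw [sum_comm]
          apply sum_congr rfl
          intro n _
          rw [mul_sum, mul_sum]
        rw [sum_congr rfl this, sum_comm]
        apply sum_congr rfl
        intro n _
        rw [← mul_sum, ← sum_mul]
        ring
      have e2 : ∑ a ∈ A, CW w N H a = ∑ n ∈ Icc 1 ⌊N⌋₊, w n * ∑ a ∈ A, c a n := by
        unfold CW
        rw [sum_comm]
        apply sum_congr rfl
        intro n _
        rw [mul_sum, hc]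
      have e3 : S = ∑ n ∈ Icc 1 ⌊N⌋₊, w n := by rw [hS]; rfl
      rw [e1, e2, e3, sum_div, mul_sum, sum_div, ← sum_sub_distrib, ← sum_add_distrib]
      apply sum_congr rfl
      intro n _
      field_simp
      ring
    have hgoal : ∑ n ∈ Icc 1 ⌊N⌋₊, w n * ((∑ a ∈ A, ((PH H ((a : ℝ) * n)).card : ℝ)) / (k * m) - 1) ^ 2 =
        ∑ n ∈ Icc 1 ⌊N⌋₊, w n * ((∑ a ∈ A, c a n) / (k * m) - 1) ^ 2 := by rw [hc]
    rw [hgoal, hexp]
    have hsum2 : ∑ a ∈ A, ∑ b ∈ A, P a b ≤ k * ((2 + 2 * C₂) * (m ^ 2 * S)) + k * k * ((1 + x) * (m ^ 2 * S)) := by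
      have h1 : ∀ a ∈ A, ∑ b ∈ A, P a b ≤ (2 + 2 * C₂) * (m ^ 2 * S) + k * ((1 + x) * (m ^ 2 * S)) := by
        intro a ha
        have h2 : ∀ b ∈ A, P a b ≤ (if b = a then (2 + 2 * C₂) * (m ^ 2 * S) else 0) + (1 + x) * (m ^ 2 * S) := by
          intro b hb
          by_cases hab : b = a
          · rw [if_pos hab, hab]
            have := hdiag a ha
            have h3 : 0 ≤ (1 + x) * (m ^ 2 * S) := by positivity
            linarith
          · rw [if_neg hab, zero_add]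
            exact hoff a ha b hb (fun h => hab h.symm)
        refine (sum_le_sum h2).trans (le_of_eq ?_)
        rw [sum_add_distrib, sum_ite_eq' A a, if_pos ha, sum_const, nsmul_eq_mul, hk]
      refine (sum_le_sum h1).trans (le_of_eq ?_)
      rw [sum_const, nsmul_eq_mul, ← hk]
      ring
    have hsum1 : k * ((1 - x) * (m * S)) ≤ ∑ a ∈ A, CW w N H a := by
      have h1 : ∑ _a ∈ A, (1 - x) * (m * S) ≤ ∑ a ∈ A, CW w N H a := sum_le_sum hlow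
      rwa [sum_const, nsmul_eq_mul, ← hk] at h1
    have i1 : (∑ a ∈ A, ∑ b ∈ A, P a b) / (k * m) ^ 2 ≤ (2 + 2 * C₂) / k * S + (1 + x) * S := by
      rw [div_le_iff₀ (by positivity)]
      refine hsum2.trans (le_of_eq ?_)
      field_simp
    have i2 : 2 * ((1 - x) * S) ≤ 2 * (∑ a ∈ A, CW w N H a) / (k * m) := by
      rw [le_div_iff₀ (by positivity)]
      calc 2 * ((1 - x) * S) * (k * m) = 2 * (k * ((1 - x) * (m * S))) := by ring
        _ ≤ 2 * ∑ a ∈ A, CW w N H a := by linarith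
    calc (∑ a ∈ A, ∑ b ∈ A, P a b) / (k * m) ^ 2 - 2 * (∑ a ∈ A, CW w N H a) / (k * m) + S
        ≤ ((2 + 2 * C₂) / k * S + (1 + x) * S) - 2 * ((1 - x) * S) + S := by linarith
      _ = (3 * x + (2 + 2 * C₂) / k) * S := by ring
      _ ≤ (δ + (2 + 2 * C₂) / k) * S := by
          apply mul_le_mul_of_nonneg_right _ hS0.le
          linarith

end Pool.Agent.J4H33.DU
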