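import Pool.Agent.J4H33.Uni4

/-!
# Boundedly many dilations
-/

set_option autoImplicit false

namespace Pool.Agent.J4H33

open Finset Filter
open Pool.Agent.Y851.PS
open Pool.Agent.Y851.PT
open Pool.Agent.Y851.PU

theorem ev_large (a b ρ : ℝ) (ha : 0 < a) (hρ : 0 < ρ) (hρ1 : ρ < 1) : ∀ᶠ X : ℝ in atTop, b ≤ a * Real.log X ∧ a * Real.log X ≤ X ^ (1 - ρ) := by
  have h := (isLittleO_log_rpow_atTop (show (0 : ℝ) < 1 - ρ by linarith)).bound (show 0 < 1 / a by positivity)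
  filter_upwards [h, eventually_ge_atTop 1, Real.tendsto_log_atTop.eventually_ge_atTop (b / a)] with X hX hX1 hX2
  have h1 := Real.log_nonneg hX1
  rw [Real.norm_eq_abs, Real.norm_eq_abs, abs_of_nonneg h1, abs_of_nonneg (by positivity)] at hX
  constructor
  · rw [div_le_iff₀ ha] at hX2
    linarith
  · calc a * Real.log X ≤ a * (1 / a * X ^ (1 - ρ)) := mul_le_mul_of_nonneg_left hX ha.le
      _ = _ := by field_simp

/-- **the facts at the net** -/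
theorem netR (c c₂ ε lam ρ θ₁ β₀ η : ℝ) (hCR : PCR c) (hc1 : c ≤ 1) (hε : 0 < ε) (hc₂ : 0 < c₂) (hθ₁ : 0 ≤ θ₁) (hθ₁1 : θ₁ ≤ 1 - ρ)
    (hcond : c₂ + (1 + θ₁) * ε < c) (hlam : 0 < lam) (hρ : 0 < ρ) (hρ1 : ρ < 1) (hβ₀ : 0 < β₀) (hβ₀1 : β₀ ≤ 1) (hη : 0 < η) (hη1 : η ≤ 1 / 4) :
    ∃ M : ℝ, 1 ≤ M ∧ ∀ δ' : ℝ, 0 < δ' → ∀ᶠ X : ℝ in atTop, ∀ θ : ℝ, Real.log X ≤ (X ^ θ) ^ c₂ → θ ≤ θ₁ →
    ∀ A : Finset ℕ, Am β₀ ε θ X A →
    0 < η * (lam * Real.log X) ∧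
    Cut A (Icc 1 ⌊X / (η * (η * (lam * Real.log X)))⌋₊)
      (fun (a k : ℕ) => ZH (η * (lam * Real.log X)) (a * (k * (η * (η * (lam * Real.log X) / X ^ θ))))) δ' ∧
    ∑ a ∈ A, ∑ k ∈ Icc 1 ⌊X / (η * (η * (lam * Real.log X)))⌋₊,
      ZH (η * (lam * Real.log X)) (a * (k * (η * (η * (lam * Real.log X) / X ^ θ)))) ^ 2 ≤
      M * (A.card * (Icc 1 ⌊X / (η * (η * (lam * Real.log X)))⌋₊).card) := by
  obtain ⟨C1, X₀, hC1, hsm⟩ := sm (η * lam) β₀ (by positivity) hβ₀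
  refine ⟨C1 * 12, by linarith, fun δ' hδ' => ?_⟩
  obtain ⟨lam₁, hlam₁⟩ : ∃ lam₁, lam₁ = min lam 1 := ⟨_, rfl⟩
  have hl0 : 0 < lam₁ := by rw [hlam₁]; exact lt_min hlam one_pos
  have hl1 : lam₁ ≤ lam := by rw [hlam₁]; exact min_le_left _ _
  have hl2 : lam₁ ≤ 1 := by rw [hlam₁]; exact min_le_right _ _
  obtain ⟨s, H₁, hs, hH₁, hcs⟩ := cutSub3 c c₂ ε lam₁ ρ θ₁ β₀ η 1 δ' hCR hc1 hε hc₂ hθ₁ hθ₁1 hcond hl0 hl2 hρ hβ₀ hβ₀1 hη hη1 le_rfl hδ'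
  filter_upwards [hcs, ev_large lam H₁ ρ hlam hρ hρ1, eventually_ge_atTop 3, eventually_ge_atTop X₀] with X h1 h3 h4' h5 θ hθ1 hθ2 A hA
  have h4 : 1 < X := by linarith only [h4']
  have hX0 : 0 < X := by linarith only [h4]
  have hlog1 : 1 ≤ Real.log X := by
    rw [Real.le_log_iff_exp_le hX0]
    linarith [Real.exp_one_lt_d9]
  have hlog : 0 < Real.log X := Real.log_pos h4
  have hh0 : 0 < η * (lam * Real.log X) := by positivity
  have hcardK : ((Icc 1 ⌊X / (η * (η * (lam * Real.log X)))⌋₊).card : ℝ) = ⌊X / (η * (η * (lam * Real.log X)))⌋₊ := by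
    rw [Nat.card_Icc]; simp
  refine ⟨hh0, h1 1 le_rfl (Real.one_le_rpow h4.le hs.le) 1 le_rfl hlog1 (lam * Real.log X) h3.1
    (by rw [one_mul]; exact mul_le_mul_of_nonneg_right hl1 hlog.le) h3.2 θ (by rw [one_mul, one_mul]; exact hθ1) hθ2 A hA _ (subset_refl _)
    (by rw [one_mul, one_mul, hcardK]), ?_⟩
  have hXρ : X ^ (1 - ρ) ≤ X := by
    calc X ^ (1 - ρ) ≤ X ^ (1 : ℝ) := Real.rpow_le_rpow_of_exponent_le h4.le (by linarith only [hρ])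
      _ = X := Real.rpow_one X
  have hH₀0 : 0 < lam * Real.log X := by positivity
  have hηH : η * (lam * Real.log X) ≤ lam * Real.log X := by nlinarith only [hη1, hH₀0]
  have h3' : 2 * (η * (η * (lam * Real.log X))) ≤ X := by
    have h5 : η * (η * (lam * Real.log X)) ≤ 1 / 4 * (lam * Real.log X) := mul_le_mul hη1 hηH hh0.le (by norm_num)
    linarith only [h5, h3.2, hXρ, hH₀0]
  have hsp := net_spread X (η * (lam * Real.log X)) θ η 1 hX0 hh0 hη (by linarith only [hη1]) (by linarith only [hη]) (by norm_num)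
    (by rw [le_div_iff₀ (by positivity)]; exact h3')
  rw [one_mul] at hsp
  have hinj : Function.Injective (fun k : ℕ => (k : ℝ) * (η * (η * (lam * Real.log X) / X ^ θ))) := by
    intro k k' h
    have h5 : (k : ℝ) * (η * (η * (lam * Real.log X) / X ^ θ)) = k' * (η * (η * (lam * Real.log X) / X ^ θ)) := h
    have h6 : 0 < η * (η * (lam * Real.log X) / X ^ θ) := by positivity
    exact_mod_cast mul_right_cancel₀ h6.ne' h5
  have h6 : ∀ a ∈ A, ∑ k ∈ Icc 1 ⌊X / (η * (η * (lam * Real.log X)))⌋₊,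
      ZH (η * (lam * Real.log X)) (a * (k * (η * (η * (lam * Real.log X) / X ^ θ)))) ^ 2 ≤
      C1 * 12 * (Icc 1 ⌊X / (η * (η * (lam * Real.log X)))⌋₊).card := by
    intro a ha
    have h7 := hsm X h5 12 (η * (lam * Real.log X)) θ (by
      have : η * lam * Real.log X = η * (lam * Real.log X) := by ring
      rw [this]) (by norm_num) _ hsp a (hA.prime a ha).one_lt.le (hA.ge a ha) (hA.le a ha)
    rw [card_image_of_injective _ hinj] at h7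
    refine le_trans (le_of_eq ?_) h7
    rw [sum_image fun x _ y _ hxy => hinj hxy]
  refine (sum_le_sum h6).trans (le_of_eq ?_)
  rw [sum_const, nsmul_eq_mul]
  ring

open Classical in
/-- **All lengths at once**: a positive proportion of the dilations. -/
theorem unifA5 (c c₂ ε lam ρ θ₁ β δ : ℝ) (hCR : PCR c) (hc1 : c ≤ 1) (hε : 0 < ε) (hc₂ : 0 < c₂) (hθ₁ : 0 ≤ θ₁) (hθ₁1 : θ₁ ≤ 1 - ρ)
    (hcond : c₂ + (1 + θ₁) * ε < c)
    (hlam : 0 < lam) (hρ : 0 < ρ) (hρ1 : ρ < 1) (hβ : 0 < β) (hβ1 : β ≤ 1) (hδ : 0 < δ)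
    (hδ1 : δ ≤ 1) : ∃ κ : ℝ, 0 < κ ∧ ∀ᶠ X : ℝ in atTop, ∀ θ : ℝ, Real.log X ≤ (X ^ θ) ^ c₂ → θ ≤ θ₁ → ∀ A : Finset ℕ, Am β ε θ X A →
    ∃ U : Finset ℝ, (U.card : ℝ) ≤ δ * (X / (lam * Real.log X)) ∧ ∀ y : ℝ, 0 < y → y ≤ X ^ (1 - θ) →
      (∀ u ∈ U, ¬ (u ≤ y ∧ y ≤ u + lam * Real.log X / X ^ θ)) → ∀ H : ℝ, lam * Real.log X ≤ H → H ≤ X ^ (1 - ρ) →
      |∑ a ∈ A, ZH H (a * y) - A.card| ≤ δ * A.card ∧
      κ * A.card ≤ ((A.filter (fun a : ℕ => 1 - δ ≤ ZH H (a * y))).card : ℝ) := by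
  obtain ⟨σ, hσ⟩ : ∃ σ, σ = δ / 4 := ⟨_, rfl⟩
  have hσ0 : 0 < σ := by rw [hσ]; positivity
  obtain ⟨η, ζ, Q, hη, hη1, hζ, hζ1, hQ0, hQ, hQl, hF1, hF2, hF3⟩ := params β σ lam hβ hβ1 hσ0 (by rw [hσ]; linarith only [hδ1]) hlam
  obtain ⟨J, hJ⟩ : ∃ J, J = ⌊Real.log (1 / β) / Real.log (1 + η)⌋₊ + 1 := ⟨_, rfl⟩
  have hJ0 : (0 : ℝ) < J := by rw [hJ]; push_cast; positivity
  obtain ⟨M, hM, hnet⟩ := netR c c₂ ε lam ρ θ₁ β η hCR hc1 hε hc₂ hθ₁ hθ₁1 hcond hlam hρ hρ1 hβ hβ1 hη hη1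
  have hM0 : 0 < M := by linarith only [hM]
  obtain ⟨M', hM'⟩ : ∃ M', M' = 4 * M / (δ * η ^ 2) := ⟨_, rfl⟩
  have hM'0 : 0 < M' := by rw [hM']; positivity
  obtain ⟨V, hV⟩ : ∃ V, V = 16 / β ^ 2 * M' := ⟨_, rfl⟩
  have hV0 : 0 < V := by rw [hV]; positivity
  obtain ⟨δ', hδ'⟩ : ∃ δ', δ' = δ * σ * η ^ 2 / (16 * J ^ 2) := ⟨_, rfl⟩
  have hδ'0 : 0 < δ' := by rw [hδ']; positivity
  refine ⟨δ ^ 2 / (4 * V), by positivity, ?_⟩
  filter_upwards [hnet δ' hδ'0, geo_coverR ρ β η ζ δ Q hρ hρ1.le hβ hη hη1 hζ hζ1 hδ hQ0 hQ, eventually_gt_atTop 1, ev_large lam 0 ρ hlam hρ hρ1]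
    with X h1 h2' h3 hlX θ hθ1 hθ2 A hA
  have hX0 : 0 < X := by linarith only [h3]
  have hlog : 0 < Real.log X := Real.log_pos h3
  have hA0 := hA.pos h3
  have hAβ := hA.ge
  have hH₀0 : 0 < lam * Real.log X := by positivity
  have h2 := h2' 1 le_rfl (Real.one_le_rpow h3.le (by positivity)) (lam * Real.log X) hH₀0 hlX.2 θ
  simp only [mul_one] at h2
  obtain ⟨hh0, hcut, hM2⟩ := h1 θ hθ1 hθ2 A hA
  obtain ⟨K, hK⟩ : ∃ K, K = ⌊X / (η * (η * (lam * Real.log X)))⌋₊ := ⟨_, rfl⟩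
  obtain ⟨l, hl⟩ : ∃ l, l = η * (η * (lam * Real.log X) / X ^ θ) := ⟨_, rfl⟩
  obtain ⟨h, hh⟩ : ∃ h, h = η * (lam * Real.log X) := ⟨_, rfl⟩
  rw [← hK, ← hl, ← hh] at hcut hM2
  simp_rw [← hl, ← hh] at h2
  have hKle : (K : ℝ) ≤ X / (lam * Real.log X) / η ^ 2 := by
    have h4 : (K : ℝ) ≤ X / (η * (η * (lam * Real.log X))) := by rw [hK]; exact Nat.floor_le (by positivity)
    refine h4.trans (le_of_eq ?_)
    field_simp
  have hcardK : ((Icc 1 K).card : ℝ) = K := by rw [Nat.card_Icc]; simp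
  rw [hcardK] at hM2
  -- bad points
  obtain ⟨t, ht⟩ : ∃ t, t = σ * A.card / (2 * J) := ⟨_, rfl⟩
  have ht0 : 0 < t := by rw [ht]; positivity
  obtain ⟨E, hE⟩ : ∃ E : ℕ → ℕ → ℝ, ∀ i k, E i k = |∑ a ∈ A.filter (fun a : ℕ => cls (X ^ θ) β η (a : ℝ) = i), (ZH h (a * (k * l)) - 1)| :=
    ⟨_, fun _ _ => rfl⟩
  obtain ⟨G, hG⟩ : ∃ G : ℕ → ℝ, ∀ k, G k = ∑ a ∈ A, ZH h (a * (k * l)) ^ 2 := ⟨_, fun _ => rfl⟩
  have hB1 : ∀ i, (((Icc 1 K).filter (Ld (E i) t)).card : ℝ) ≤ 4 * J * δ' / σ * K := by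
    intro i
    have h4 := maximal (E i) (fun k => by rw [hE]; exact abs_nonneg _) t ht0 K (2 * (δ' * (A.card * K))) (by
      simp_rw [hE]
      have := cut_class hcut (fun a : ℕ => cls (X ^ θ) β η (a : ℝ) = i)
      rw [hcardK] at this
      exact this)
    refine h4.trans (le_of_eq ?_)
    rw [ht]
    field_simp
    ring
  have hB2 : (((Icc 1 K).filter (Ld G (M' * A.card))).card : ℝ) ≤ M / M' * K := by
    have h4 := maximal G (fun k => by rw [hG]; exact sum_nonneg fun a _ => sq_nonneg _) (M' * A.card) (by positivity) K (M * (A.card * K)) (by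
      simp_rw [hG]
      rw [sum_comm]
      exact hM2)
    refine h4.trans (le_of_eq ?_)
    field_simp
  obtain ⟨Bad, hBad⟩ : ∃ Bad : Finset ℕ, Bad = (range J).biUnion (fun i => (Icc 1 K).filter (Ld (E i) t)) ∪ (Icc 1 K).filter (Ld G (M' * A.card)) :=
    ⟨_, rfl⟩
  have hBadc : (Bad.card : ℝ) ≤ δ / 2 * (X / (lam * Real.log X)) := by
    have g1 : (Bad.card : ℝ) ≤ ∑ i ∈ range J, (((Icc 1 K).filter (Ld (E i) t)).card : ℝ) + (((Icc 1 K).filter (Ld G (M' * A.card))).card : ℝ) := by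
      rw [hBad]
      have := (card_union_le ((range J).biUnion (fun i => (Icc 1 K).filter (Ld (E i) t))) ((Icc 1 K).filter (Ld G (M' * A.card)))).trans
        (Nat.add_le_add_right card_biUnion_le _)
      exact_mod_cast this
    have g2 : ∑ i ∈ range J, (((Icc 1 K).filter (Ld (E i) t)).card : ℝ) ≤ J * (4 * J * δ' / σ * K) := by
      refine (sum_le_sum fun i _ => hB1 i).trans (le_of_eq ?_)
      rw [sum_const, card_range, nsmul_eq_mul]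
    have g3 : J * (4 * J * δ' / σ * K) ≤ δ / 4 * (X / (lam * Real.log X)) := by
      calc J * (4 * J * δ' / σ * K) = 4 * J ^ 2 * δ' / σ * K := by ring
        _ ≤ 4 * J ^ 2 * δ' / σ * (X / (lam * Real.log X) / η ^ 2) := mul_le_mul_of_nonneg_left hKle (by positivity)
        _ = δ / 4 * (X / (lam * Real.log X)) := by rw [hδ']; field_simp; norm_num
    have g4 : M / M' * K ≤ δ / 4 * (X / (lam * Real.log X)) := by
      calc M / M' * K ≤ M / M' * (X / (lam * Real.log X) / η ^ 2) := mul_le_mul_of_nonneg_left hKle (by positivity)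
        _ = δ / 4 * (X / (lam * Real.log X)) := by rw [hM']; field_simp
    linarith only [g1, g2, g3, g4, hB2]
  obtain ⟨U, hU1, hU2⟩ := h2 Bad hBadc
  refine ⟨U, hU1, fun y hy0 hyT hyU => ?_⟩
  obtain ⟨k1, hk1, hk1K, hk1B, hgeo⟩ := hU2 y hy0 hyT hyU
  have hK' : K = ⌊X / (η * h)⌋₊ := by rw [hK, hh]
  rw [← hK'] at hk1K
  have hmem : k1 ∈ Icc 1 K := mem_Icc.2 ⟨hk1, hk1K⟩
  rw [hBad, mem_union, not_or, mem_biUnion, mem_filter] at hk1B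
  have hn1 : ∀ i < J, ¬ Ld (E i) t k1 := fun i hi hcon =>
    hk1B.1 ⟨i, mem_range.2 hi, mem_filter.2 ⟨hmem, hcon⟩⟩
  have hn2 : ¬ Ld G (M' * A.card) k1 := fun hcon => hk1B.2 ⟨hmem, hcon⟩
  intro H hH1 hH2
  have g := hgeo H hH1 hH2
  have hm1 := family g A (fun a : ℕ => (a : ℝ)) σ t J hJ hAβ (fun a ha => hA.le a ha) ht0.le (by
    intro i hi m hm1 hm2
    have := not_Ld (hn1 i hi) hm1 hm2
    simp_rw [hE] at this
    exact this) hF1 hF2 hF3 hζ1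
  have hm2 := second g A (fun a : ℕ => (a : ℝ)) (M' * A.card) hAβ (fun a ha => hA.le a ha) hβ1 (by positivity) (by
    intro m hm1 hm2
    have := not_Ld hn2 hm1 hm2
    simp_rw [hG] at this
    exact this) hζ1
  have e1 : σ * (A.card : ℝ) + 2 * J * t = δ / 2 * A.card := by
    rw [ht, hσ]
    field_simp
    norm_num
  rw [e1] at hm1
  constructor
  · refine hm1.trans ?_
    apply mul_le_mul_of_nonneg_right _ hA0.le
    linarith only [hδ]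
  · apply pz A (fun a : ℕ => ZH H (a * y)) V δ hV0 hδ hδ1
    · have h5 := (abs_le.1 hm1).1
      have e2 : (1 - δ / 2) * (A.card : ℝ) = A.card - δ / 2 * A.card := by ring
      rw [e2]
      linarith only [h5]
    · refine hm2.trans (le_of_eq ?_)
      rw [hV]; ring

open Classical in
/-- **All lengths at once**: boundedly many multiples. -/
theorem unifB5 (c c₂ ε lam ρ θ₁ β δ : ℝ) (hCR : PCR c) (hc1 : c ≤ 1) (hε : 0 < ε) (hc₂ : 0 < c₂) (hθ₁ : 0 ≤ θ₁) (hθ₁1 : θ₁ ≤ 1 - ρ)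
    (hcond : c₂ + (1 + θ₁) * ε < c)
    (hlam : 0 < lam) (hρ : 0 < ρ) (hρ1 : ρ < 1) (hβ : 0 < β) (hβ1 : β ≤ 1) (hδ : 0 < δ)
    (hδ1 : δ ≤ 1) : ∃ n₀ : ℕ, 1 ≤ n₀ ∧ ∀ n : ℕ, n₀ ≤ n → ∀ᶠ X : ℝ in atTop, ∀ θ : ℝ, Real.log X ≤ (X ^ θ) ^ c₂ → θ ≤ θ₁ →
    ∀ A : Finset ℕ, Am β ε θ X A →
    (((Fintype.piFinset (fun _ : Fin n => A)).filter (fun a => ¬ ∃ U : Finset ℝ, (U.card : ℝ) ≤ δ * (X / (lam * Real.log X)) ∧
      ∀ y : ℝ, 0 < y → y ≤ X ^ (1 - θ) → (∀ u ∈ U, ¬ (u ≤ y ∧ y ≤ u + lam * Real.log X / X ^ θ)) →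
      ∀ H : ℝ, lam * Real.log X ≤ H → H ≤ X ^ (1 - ρ) → |∑ j, ZH H (a j * y) - n| ≤ δ * n)).card : ℝ) ≤ δ * (A.card : ℝ) ^ n := by
  obtain ⟨σ, hσ⟩ : ∃ σ, σ = δ / 4 := ⟨_, rfl⟩
  have hσ0 : 0 < σ := by rw [hσ]; positivity
  obtain ⟨η, ζ, Q, hη, hη1, hζ, hζ1, hQ0, hQ, hQl, hF1, hF2, hF3⟩ := params β σ lam hβ hβ1 hσ0 (by rw [hσ]; linarith only [hδ1]) hlam
  obtain ⟨J, hJ⟩ : ∃ J, J = ⌊Real.log (1 / β) / Real.log (1 + η)⌋₊ + 1 := ⟨_, rfl⟩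
  have hJ0 : (0 : ℝ) < J := by rw [hJ]; push_cast; positivity
  obtain ⟨M, hM, hnet⟩ := netR c c₂ ε lam ρ θ₁ β η hCR hc1 hε hc₂ hθ₁ hθ₁1 hcond hlam hρ hρ1 hβ hβ1 hη hη1
  have hM0 : 0 < M := by linarith only [hM]
  obtain ⟨ε', hε'⟩ : ∃ ε', ε' = δ * σ * η ^ 2 / (4 * J ^ 2) := ⟨_, rfl⟩
  have hε'0 : 0 < ε' := by rw [hε']; positivity
  obtain ⟨δ₅, hδ₅⟩ : ∃ δ₅, δ₅ = ε' * δ / J := ⟨_, rfl⟩
  have hδ₅0 : 0 < δ₅ := by rw [hδ₅]; positivity
  refine ⟨⌈4 * (M + 1) / δ₅ ^ 2⌉₊ + 1, by omega, fun n hn => ?_⟩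
  have hn1 : 1 ≤ n := by omega
  have hn0 : (0 : ℝ) < n := by exact_mod_cast hn1
  have hnM : 4 * (M + 1) / δ₅ ^ 2 ≤ n := by
    have h1 := Nat.le_ceil (4 * (M + 1) / δ₅ ^ 2)
    have h2 : ((⌈4 * (M + 1) / δ₅ ^ 2⌉₊ : ℕ) : ℝ) ≤ n := by exact_mod_cast (by omega : ⌈4 * (M + 1) / δ₅ ^ 2⌉₊ ≤ n)
    exact h1.trans h2
  filter_upwards [hnet (δ₅ / 4) (by positivity), geo_coverR ρ β η ζ δ Q hρ hρ1.le hβ hη hη1 hζ hζ1 hδ hQ0 hQ, eventually_gt_atTop 1,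
    ev_large lam 0 ρ hlam hρ hρ1]
    with X h1 h2' h3 hlX θ hθ1 hθ2 A hA
  have hX0 : 0 < X := by linarith only [h3]
  have hlog : 0 < Real.log X := Real.log_pos h3
  have hA0 := hA.pos h3
  have hAβ := hA.ge
  have hH₀0 : 0 < lam * Real.log X := by positivity
  have h2 := h2' 1 le_rfl (Real.one_le_rpow h3.le (by positivity)) (lam * Real.log X) hH₀0 hlX.2 θ
  simp only [mul_one] at h2
  obtain ⟨hh0, hcut, hM2⟩ := h1 θ hθ1 hθ2 A hA
  obtain ⟨K, hK⟩ : ∃ K, K = ⌊X / (η * (η * (lam * Real.log X)))⌋₊ := ⟨_, rfl⟩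
  have hK1 : 1 ≤ K := by
    rw [hK]
    apply Nat.le_floor
    rw [Nat.cast_one, le_div_iff₀ (by positivity), one_mul]
    have hXρ : X ^ (1 - ρ) ≤ X := by
      calc X ^ (1 - ρ) ≤ X ^ (1 : ℝ) := Real.rpow_le_rpow_of_exponent_le h3.le (by linarith only [hρ])
        _ = X := Real.rpow_one X
    have h5 : η * (lam * Real.log X) ≤ lam * Real.log X := by nlinarith only [hη1, hH₀0]
    have h6 : η * (η * (lam * Real.log X)) ≤ η * (lam * Real.log X) := mul_le_mul_of_nonneg_left h5 hη.le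
    linarith only [h5, h6, hlX.2, hXρ]
  have hK0 : (0 : ℝ) < K := by exact_mod_cast hK1
  obtain ⟨l, hl⟩ : ∃ l, l = η * (η * (lam * Real.log X) / X ^ θ) := ⟨_, rfl⟩
  obtain ⟨h, hh⟩ : ∃ h, h = η * (lam * Real.log X) := ⟨_, rfl⟩
  rw [← hK, ← hl, ← hh] at hcut hM2
  simp_rw [← hl, ← hh] at h2
  rw [← hh] at hh0
  have hKle : (K : ℝ) ≤ X / (lam * Real.log X) / η ^ 2 := by
    have h4 : (K : ℝ) ≤ X / (η * (η * (lam * Real.log X))) := by rw [hK]; exact Nat.floor_le (by positivity)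
    refine h4.trans (le_of_eq ?_)
    field_simp
  have hcardK : ((Icc 1 K).card : ℝ) = K := by rw [Nat.card_Icc]; simp
  obtain ⟨t, ht⟩ : ∃ t, t = σ * (n : ℝ) / (2 * J) := ⟨_, rfl⟩
  have ht0 : 0 < t := by rw [ht]; positivity
  obtain ⟨F, hF⟩ : ∃ F : ℕ → (Fin n → ℕ) → ℝ, ∀ i y, F i y = ∑ k ∈ Icc 1 K,
      |∑ j ∈ univ.filter (fun j => cls (X ^ θ) β η ((y j : ℕ) : ℝ) = i), (ZH h (y j * (k * l)) - 1)| := ⟨_, fun _ _ => rfl⟩
  -- few tuples are bad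
  have hbad : ∀ i, (((Fintype.piFinset (fun _ : Fin n => A)).filter (fun y => ε' * n * K < F i y)).card : ℝ) ≤ δ / J * (A.card : ℝ) ^ n := by
    intro i
    have h4 := lln M δ₅ hM hδ₅0 n hn1 hnM A (Icc 1 K) (fun (a k : ℕ) => ZH h (a * (k * l))) (fun a _ k _ => ZH_nonneg hh0.le _) hcut hM2
      (fun a : ℕ => cls (X ^ θ) β η (a : ℝ) = i)
    rw [hcardK] at h4
    have h5 := markov (Fintype.piFinset (fun _ : Fin n => A)) (F i) (fun y _ => by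
      rw [hF]; exact sum_nonneg fun k _ => abs_nonneg _) (δ₅ * n * (K * (A.card : ℝ) ^ n)) (ε' * n * K) (by positivity) (by
        simp_rw [hF]; exact h4) (fun y => ε' * n * K < F i y) (fun y _ h => h.le)
    refine h5.trans (le_of_eq ?_)
    rw [hδ₅]
    field_simp
  have hsub : (Fintype.piFinset (fun _ : Fin n => A)).filter (fun a => ¬ ∃ U : Finset ℝ, (U.card : ℝ) ≤ δ * (X / (lam * Real.log X)) ∧
      ∀ y : ℝ, 0 < y → y ≤ X ^ (1 - θ) → (∀ u ∈ U, ¬ (u ≤ y ∧ y ≤ u + lam * Real.log X / X ^ θ)) →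
      ∀ H : ℝ, lam * Real.log X ≤ H → H ≤ X ^ (1 - ρ) → |∑ j, ZH H (a j * y) - n| ≤ δ * n) ⊆
      (range J).biUnion (fun i => (Fintype.piFinset (fun _ : Fin n => A)).filter (fun y => ε' * n * K < F i y)) := by
    intro a ha
    rw [mem_filter] at ha
    obtain ⟨haA, hbd⟩ := ha
    rw [mem_biUnion]
    by_contra hcon
    apply hbd
    have hgood : ∀ i < J, F i a ≤ ε' * n * K := by
      intro i hi
      by_contra h4
      push Not at h4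
      exact hcon ⟨i, mem_range.2 hi, mem_filter.2 ⟨haA, h4⟩⟩
    rw [Fintype.mem_piFinset] at haA
    obtain ⟨E, hE⟩ : ∃ E : ℕ → ℕ → ℝ, ∀ i k, E i k = |∑ j ∈ univ.filter (fun j => cls (X ^ θ) β η ((a j : ℕ) : ℝ) = i), (ZH h (a j * (k * l)) - 1)| :=
      ⟨_, fun _ _ => rfl⟩
    have hB1 : ∀ i < J, (((Icc 1 K).filter (Ld (E i) t)).card : ℝ) ≤ 2 * J * ε' / σ * K := by
      intro i hi
      have h4 := maximal (E i) (fun k => by rw [hE]; exact abs_nonneg _) t ht0 K (ε' * n * K) (by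
        simp_rw [hE]
        have := hgood i hi
        rw [hF] at this
        exact this)
      refine h4.trans (le_of_eq ?_)
      rw [ht]
      field_simp
    obtain ⟨Bad, hBad⟩ : ∃ Bad : Finset ℕ, Bad = (range J).biUnion (fun i => (Icc 1 K).filter (Ld (E i) t)) := ⟨_, rfl⟩
    have hBadc : (Bad.card : ℝ) ≤ δ / 2 * (X / (lam * Real.log X)) := by
      have g1 : (Bad.card : ℝ) ≤ ∑ i ∈ range J, (((Icc 1 K).filter (Ld (E i) t)).card : ℝ) := by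
        rw [hBad]
        exact_mod_cast card_biUnion_le
      have g2 : ∑ i ∈ range J, (((Icc 1 K).filter (Ld (E i) t)).card : ℝ) ≤ J * (2 * J * ε' / σ * K) := by
        refine (sum_le_sum fun i hi => hB1 i (mem_range.1 hi)).trans (le_of_eq ?_)
        rw [sum_const, card_range, nsmul_eq_mul]
      have g3 : J * (2 * J * ε' / σ * K) ≤ δ / 2 * (X / (lam * Real.log X)) := by
        calc J * (2 * J * ε' / σ * K) = 2 * J ^ 2 * ε' / σ * K := by ring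
          _ ≤ 2 * J ^ 2 * ε' / σ * (X / (lam * Real.log X) / η ^ 2) := mul_le_mul_of_nonneg_left hKle (by positivity)
          _ = δ / 2 * (X / (lam * Real.log X)) := by rw [hε']; field_simp; norm_num
      linarith only [g1, g2, g3]
    obtain ⟨U, hU1, hU2⟩ := h2 Bad hBadc
    refine ⟨U, hU1, fun y hy0 hyT hyU => ?_⟩
    obtain ⟨k1, hk1, hk1K, hk1B, hgeo⟩ := hU2 y hy0 hyT hyU
    have hK' : K = ⌊X / (η * h)⌋₊ := by rw [hK, hh]
    rw [← hK'] at hk1K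
    have hmem : k1 ∈ Icc 1 K := mem_Icc.2 ⟨hk1, hk1K⟩
    rw [hBad, mem_biUnion] at hk1B
    have hn1 : ∀ i < J, ¬ Ld (E i) t k1 := fun i hi hcon =>
      hk1B ⟨i, mem_range.2 hi, mem_filter.2 ⟨hmem, hcon⟩⟩
    intro H hH1 hH2
    have g := hgeo H hH1 hH2
    have hm1 := family g (univ : Finset (Fin n)) (fun j => ((a j : ℕ) : ℝ)) σ t J hJ (fun j _ => hAβ _ (haA j)) (fun j _ => hA.le _ (haA j))
      ht0.le (by
      intro i hi m hm1 hm2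
      have := not_Ld (hn1 i hi) hm1 hm2
      simp_rw [hE] at this
      exact this) hF1 hF2 hF3 hζ1
    rw [Finset.card_univ, Fintype.card_fin] at hm1
    refine hm1.trans ?_
    have e1 : σ * (n : ℝ) + 2 * J * t = δ / 2 * n := by
      rw [ht, hσ]
      field_simp
      norm_num
    rw [e1]
    apply mul_le_mul_of_nonneg_right _ hn0.le
    linarith only [hδ]
  have h5 : (((Fintype.piFinset (fun _ : Fin n => A)).filter (fun a => ¬ ∃ U : Finset ℝ, (U.card : ℝ) ≤ δ * (X / (lam * Real.log X)) ∧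
      ∀ y : ℝ, 0 < y → y ≤ X ^ (1 - θ) → (∀ u ∈ U, ¬ (u ≤ y ∧ y ≤ u + lam * Real.log X / X ^ θ)) →
      ∀ H : ℝ, lam * Real.log X ≤ H → H ≤ X ^ (1 - ρ) → |∑ j, ZH H (a j * y) - n| ≤ δ * n)).card : ℝ) ≤
      ∑ i ∈ range J, (((Fintype.piFinset (fun _ : Fin n => A)).filter (fun y => ε' * n * K < F i y)).card : ℝ) := by
    exact_mod_cast (card_le_card hsub).trans card_biUnion_le
  refine h5.trans ((sum_le_sum fun i _ => hbad i).trans (le_of_eq ?_))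
  rw [sum_const, card_range, nsmul_eq_mul]
  field_simp

end Pool.Agent.J4H33
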