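import Mathlib

/-!
# Lattice point counts for the second moment of a window function at two dilates
-/

set_option autoImplicit false

namespace Pool.Agent.J4H33.V

open Finset

/-- the integers `m` with `|u - d m| < R` -/
noncomputable def lat (R u d : ℝ) : Finset ℤ := Finset.Ioo ⌊(u - R) / d⌋ ⌈(u + R) / d⌉

theorem mem_lat (R u d : ℝ) (hd : 0 < d) (m : ℤ) : m ∈ lat R u d ↔ |u - d * m| < R := by
  unfold lat
  rw [mem_Ioo, Int.floor_lt, Int.lt_ceil, div_lt_iff₀ hd, lt_div_iff₀ hd, abs_lt]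
  constructor
  · rintro ⟨h1, h2⟩; constructor <;> linarith
  · rintro ⟨h1, h2⟩; constructor <;> linarith

theorem card_lat (R u d : ℝ) (hR : 0 < R) (hd : 0 < d) :
    ((lat R u d).card : ℝ) = (⌈(u + R) / d⌉ : ℝ) - (⌊(u - R) / d⌋ : ℝ) - 1 := by
  unfold lat
  rw [Int.card_Ioo]
  have h1 : (⌊(u - R) / d⌋ : ℝ) ≤ (u - R) / d := Int.floor_le _
  have h2 : (u + R) / d ≤ (⌈(u + R) / d⌉ : ℝ) := Int.le_ceil _
  have h3 : (u - R) / d < (u + R) / d := div_lt_div_of_pos_right (by linarith) hd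
  have h4 : (⌊(u - R) / d⌋ : ℝ) < (⌈(u + R) / d⌉ : ℝ) := by linarith
  have h5 : ⌊(u - R) / d⌋ < ⌈(u + R) / d⌉ := by exact_mod_cast h4
  have h6 : 0 ≤ ⌈(u + R) / d⌉ - ⌊(u - R) / d⌋ - 1 := by omega
  have h7 := Int.toNat_of_nonneg h6
  have h8 := congrArg (fun z : ℤ => (z : ℝ)) h7
  push_cast at h8
  exact h8

theorem card_lat_bd (R u d : ℝ) (hR : 0 < R) (hd : 0 < d) : |((lat R u d).card : ℝ) - 2 * R / d| ≤ 1 := by
  rw [card_lat R u d hR hd]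
  have h1 : (⌊(u - R) / d⌋ : ℝ) ≤ (u - R) / d := Int.floor_le _
  have h2 : (u + R) / d ≤ (⌈(u + R) / d⌉ : ℝ) := Int.le_ceil _
  have h3 : (u - R) / d - 1 < (⌊(u - R) / d⌋ : ℝ) := Int.sub_one_lt_floor _
  have h4 : (⌈(u + R) / d⌉ : ℝ) < (u + R) / d + 1 := Int.ceil_lt_add_one _
  have h5 : (u + R) / d - (u - R) / d = 2 * R / d := by field_simp; ring
  rw [abs_le]
  constructor <;> linarith

/-- the number of solutions of a linear congruence in an interval -/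
theorem cong_count (p₁ p₂ : ℕ) (hp₁ : 0 < p₁) (hcop : Nat.Coprime p₂ p₁) (j k₀ k₁ : ℤ) :
    |(((Icc k₀ k₁).filter (fun k : ℤ => (p₁ : ℤ) ∣ p₂ * k - j)).card : ℝ) - ((Icc k₀ k₁).card : ℝ) / p₁| ≤ 1 := by
  have hp : (0 : ℝ) < p₁ := by exact_mod_cast hp₁
  -- a solution
  obtain ⟨x, hx⟩ : ∃ x : ℤ, (p₁ : ℤ) ∣ p₂ * x - j := by
    have h1 : IsCoprime (p₂ : ℤ) (p₁ : ℤ) := Nat.isCoprime_iff_coprime.2 hcop
    obtain ⟨u, v, huv⟩ := h1
    refine ⟨u * j, ?_⟩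
    refine ⟨-(v * j), ?_⟩
    have : (u * p₂ + v * p₁) * j = j := by rw [huv, one_mul]
    linear_combination this
  have hiff : ∀ k : ℤ, (p₁ : ℤ) ∣ p₂ * k - j ↔ k ≡ x [ZMOD (p₁ : ℤ)] := by
    intro k
    rw [Int.modEq_comm, Int.modEq_iff_dvd]
    constructor
    · intro h
      have h1 : (p₁ : ℤ) ∣ p₂ * (k - x) := by
        have h2 := dvd_sub h hx
        have h3 : (p₂ : ℤ) * k - j - (p₂ * x - j) = p₂ * (k - x) := by ring
        rwa [h3] at h2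
      exact (Nat.isCoprime_iff_coprime.2 hcop.symm).dvd_of_dvd_mul_left h1
    · intro h
      have h1 : (p₁ : ℤ) ∣ p₂ * (k - x) := Dvd.dvd.mul_left h _
      have h2 := dvd_add h1 hx
      have h3 : (p₂ : ℤ) * (k - x) + (p₂ * x - j) = p₂ * k - j := by ring
      rwa [h3] at h2
  have hfil : (Icc k₀ k₁).filter (fun k : ℤ => (p₁ : ℤ) ∣ p₂ * k - j) =
      (Ioc (k₀ - 1) k₁).filter (fun k : ℤ => k ≡ x [ZMOD (p₁ : ℤ)]) := by
    ext k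
    rw [mem_filter, mem_filter, mem_Icc, mem_Ioc, hiff]
    constructor
    · rintro ⟨⟨h1, h2⟩, h3⟩; exact ⟨⟨by omega, h2⟩, h3⟩
    · rintro ⟨⟨h1, h2⟩, h3⟩; exact ⟨⟨by omega, h2⟩, h3⟩
  rw [hfil]
  have hp₁' : (0 : ℤ) < (p₁ : ℤ) := by exact_mod_cast hp₁
  have hcount := Int.Ioc_filter_modEq_card (k₀ - 1) k₁ hp₁' x
  have hcard : ((Icc k₀ k₁).card : ℝ) = max ((k₁ : ℝ) + 1 - k₀) 0 := by
    rw [Int.card_Icc]
    rcases le_or_gt k₀ (k₁ + 1) with h | h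
    · have h1 : 0 ≤ k₁ + 1 - k₀ := by omega
      have h2 := congrArg (fun z : ℤ => (z : ℝ)) (Int.toNat_of_nonneg h1)
      push_cast at h2
      rw [h2, max_eq_left]
      exact_mod_cast h1
    · rw [Int.toNat_of_nonpos (by omega), max_eq_right]
      · simp
      · have : (k₁ : ℝ) + 1 < k₀ := by exact_mod_cast h
        linarith
  rw [hcard]
  obtain ⟨c, hc⟩ : ∃ c, c = ((Ioc (k₀ - 1) k₁).filter (fun k : ℤ => k ≡ x [ZMOD (p₁ : ℤ)])).card := ⟨_, rfl⟩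
  rw [← hc] at hcount ⊢
  obtain ⟨α, hα⟩ : ∃ α : ℚ, α = ((k₁ - x : ℤ) : ℚ) / (p₁ : ℤ) := ⟨_, rfl⟩
  obtain ⟨α', hα'⟩ : ∃ α' : ℚ, α' = ((k₀ - 1 - x : ℤ) : ℚ) / (p₁ : ℤ) := ⟨_, rfl⟩
  have hcR : (c : ℝ) = max ((⌊α⌋ : ℝ) - (⌊α'⌋ : ℝ)) 0 := by
    have h1 : ((c : ℤ) : ℝ) = ((max (⌊α⌋ - ⌊α'⌋) 0 : ℤ) : ℝ) := by
      rw [hα, hα']
      push_cast at hcount ⊢
      exact_mod_cast hcount
    push_cast at h1
    exact h1
  have hαR : ((⌊α⌋ : ℤ) : ℝ) ≤ ((k₁ : ℝ) - x) / p₁ ∧ ((k₁ : ℝ) - x) / p₁ < ((⌊α⌋ : ℤ) : ℝ) + 1 := by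
    have h1 := Int.floor_le α
    have h2 := Int.lt_floor_add_one α
    have h3 : ((α : ℚ) : ℝ) = ((k₁ : ℝ) - x) / p₁ := by rw [hα]; push_cast; ring
    rw [← h3]
    constructor
    · exact_mod_cast h1
    · exact_mod_cast h2
  have hαR' : ((⌊α'⌋ : ℤ) : ℝ) ≤ ((k₀ : ℝ) - 1 - x) / p₁ ∧ ((k₀ : ℝ) - 1 - x) / p₁ < ((⌊α'⌋ : ℤ) : ℝ) + 1 := by
    have h1 := Int.floor_le α'
    have h2 := Int.lt_floor_add_one α'
    have h3 : ((α' : ℚ) : ℝ) = ((k₀ : ℝ) - 1 - x) / p₁ := by rw [hα']; push_cast; ring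
    rw [← h3]
    constructor
    · exact_mod_cast h1
    · exact_mod_cast h2
  rw [hcR]
  have hdiff : ((k₁ : ℝ) - x) / p₁ - ((k₀ : ℝ) - 1 - x) / p₁ = ((k₁ : ℝ) + 1 - k₀) / p₁ := by ring
  rcases le_total ((k₁ : ℝ) + 1 - k₀) 0 with h | h
  · rw [max_eq_right h, zero_div, sub_zero]
    have h1 : ((k₁ : ℝ) + 1 - k₀) / p₁ ≤ 0 := div_nonpos_of_nonpos_of_nonneg h hp.le
    have h2 : (⌊α⌋ : ℝ) - (⌊α'⌋ : ℝ) ≤ 1 := by linarith [hαR.1, hαR'.2]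
    rw [abs_of_nonneg (le_max_right _ _)]
    exact max_le h2 zero_le_one
  · rw [max_eq_left h]
    have h1 : 0 ≤ ((k₁ : ℝ) + 1 - k₀) / p₁ := div_nonneg h hp.le
    rw [abs_le]
    constructor
    · have := le_max_left ((⌊α⌋ : ℝ) - (⌊α'⌋ : ℝ)) 0
      linarith [hαR.2, hαR'.1]
    · have h2 : (⌊α⌋ : ℝ) - (⌊α'⌋ : ℝ) ≤ ((k₁ : ℝ) + 1 - k₀) / p₁ + 1 := by linarith [hαR.1, hαR'.2]
      have h3 : max ((⌊α⌋ : ℝ) - (⌊α'⌋ : ℝ)) 0 ≤ ((k₁ : ℝ) + 1 - k₀) / p₁ + 1 := max_le h2 (by linarith)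
      linarith

/-- the sum over an interval of the counts for one dilate at the points of a class for the other one -/
theorem block (R z w : ℝ) (hR : 0 < R) (hw : 0 < w) (p₁ p₂ : ℕ) (hp₁ : 0 < p₁) (hcop : Nat.Coprime p₂ p₁) (k₀ k₁ : ℤ) :
    |∑ k ∈ Icc k₀ k₁, ((lat R (z + w * p₂ * k) (w * p₁)).card : ℝ) - ((Icc k₀ k₁).card : ℝ) * (2 * R / (w * p₁))| ≤
      ((Icc k₀ k₁).card : ℝ) / p₁ + 2 * R / w + 1 := by
  classical
  have hp : (0 : ℝ) < p₁ := by exact_mod_cast hp₁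
  have hwp : 0 < w * p₁ := by positivity
  obtain ⟨T, hT⟩ : ∃ T, T = lat R (-z) w := ⟨_, rfl⟩
  have hTmem : ∀ j : ℤ, j ∈ T ↔ |z + w * j| < R := by
    intro j
    rw [hT, mem_lat R (-z) w hw, ← abs_neg]
    congr! 2
    ring
  have hk : ∀ k : ℤ, (lat R (z + w * p₂ * k) (w * p₁)).card = (T.filter (fun j : ℤ => (p₁ : ℤ) ∣ p₂ * k - j)).card := by
    intro k
    apply card_bij (fun (m : ℤ) _ => (p₂ : ℤ) * k - p₁ * m)
    · intro m hm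
      rw [mem_lat _ _ _ hwp] at hm
      rw [mem_filter, hTmem]
      constructor
      · push_cast
        have h1 : z + w * ((p₂ : ℝ) * k - p₁ * m) = z + w * p₂ * k - w * p₁ * m := by ring
        rw [h1]
        exact hm
      · exact ⟨m, by ring⟩
    · intro m _ m' _ h
      have h1 : (p₁ : ℤ) * m = p₁ * m' := by linarith
      have h2 : (p₁ : ℤ) ≠ 0 := by exact_mod_cast hp₁.ne'
      exact mul_left_cancel₀ h2 h1
    · intro j hj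
      rw [mem_filter, hTmem] at hj
      obtain ⟨hj1, m, hm⟩ := hj
      refine ⟨m, ?_, by linarith⟩
      rw [mem_lat _ _ _ hwp]
      have h2 : (j : ℝ) = p₂ * k - p₁ * m := by
        have h3 : j = p₂ * k - p₁ * m := by linarith
        exact_mod_cast h3
      rw [h2] at hj1
      have h1 : z + w * ((p₂ : ℝ) * k - p₁ * m) = z + w * p₂ * k - w * p₁ * m := by ring
      rw [h1] at hj1
      exact hj1
  have hsum : ∑ k ∈ Icc k₀ k₁, ((lat R (z + w * p₂ * k) (w * p₁)).card : ℝ) =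
      ∑ j ∈ T, (((Icc k₀ k₁).filter (fun k : ℤ => (p₁ : ℤ) ∣ p₂ * k - j)).card : ℝ) := by
    have h1 : ∑ k ∈ Icc k₀ k₁, (lat R (z + w * p₂ * k) (w * p₁)).card =
        ∑ j ∈ T, ((Icc k₀ k₁).filter (fun k : ℤ => (p₁ : ℤ) ∣ p₂ * k - j)).card := by
      calc ∑ k ∈ Icc k₀ k₁, (lat R (z + w * p₂ * k) (w * p₁)).card
          = ∑ k ∈ Icc k₀ k₁, (T.filter (fun j : ℤ => (p₁ : ℤ) ∣ p₂ * k - j)).card := sum_congr rfl (fun k _ => hk k)
        _ = ∑ k ∈ Icc k₀ k₁, ∑ j ∈ T, if (p₁ : ℤ) ∣ p₂ * k - j then 1 else 0 := by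
            apply sum_congr rfl
            intro k _
            rw [card_filter]
        _ = ∑ j ∈ T, ∑ k ∈ Icc k₀ k₁, if (p₁ : ℤ) ∣ p₂ * k - j then 1 else 0 := sum_comm
        _ = _ := by
            apply sum_congr rfl
            intro j _
            rw [card_filter]
    exact_mod_cast h1
  rw [hsum]
  obtain ⟨K, hK⟩ : ∃ K : ℝ, K = ((Icc k₀ k₁).card : ℝ) := ⟨_, rfl⟩
  rw [← hK]
  have hK0 : 0 ≤ K := by rw [hK]; positivity
  have h1 : |∑ j ∈ T, (((Icc k₀ k₁).filter (fun k : ℤ => (p₁ : ℤ) ∣ p₂ * k - j)).card : ℝ) - (T.card : ℝ) * (K / p₁)| ≤ T.card := by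
    have h2 : (T.card : ℝ) * (K / p₁) = ∑ _j ∈ T, K / p₁ := by rw [sum_const, nsmul_eq_mul]
    rw [h2, ← sum_sub_distrib]
    refine (abs_sum_le_sum_abs _ _).trans ?_
    calc ∑ j ∈ T, |(((Icc k₀ k₁).filter (fun k : ℤ => (p₁ : ℤ) ∣ p₂ * k - j)).card : ℝ) - K / p₁|
        ≤ ∑ _j ∈ T, (1 : ℝ) := sum_le_sum (fun j _ => by rw [hK]; exact cong_count p₁ p₂ hp₁ hcop j k₀ k₁)
      _ = T.card := by simp
  have hTc := card_lat_bd R (-z) w hR hw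
  rw [← hT] at hTc
  rw [abs_le] at h1 hTc ⊢
  have h3 : K * (2 * R / (w * p₁)) = (2 * R / w) * (K / p₁) := by field_simp
  rw [h3]
  have hKp : 0 ≤ K / p₁ := by positivity
  constructor
  · have h4 : (2 * R / w - 1) * (K / p₁) ≤ (T.card : ℝ) * (K / p₁) := mul_le_mul_of_nonneg_right (by linarith [hTc.1]) hKp
    linarith [h1.1, hTc.2]
  · have h4 : (T.card : ℝ) * (K / p₁) ≤ (2 * R / w + 1) * (K / p₁) := mul_le_mul_of_nonneg_right (by linarith [hTc.2]) hKp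
    linarith [h1.2, hTc.2]

end Pool.Agent.J4H33.V
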