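import Pool.Agent.J4H33.V1

/-!
# Integrals of window functions along dilates
-/

set_option autoImplicit false

namespace Pool.Agent.J4H33.V

open Finset MeasureTheory

theorem int_window (a d R Y m e B ρ : ℝ) (ha : 0 < a) (hd : 0 < d) (hR : 0 < R) (φ : ℝ → ℝ)
    (hφ : Measurable φ) (hB : ∀ y, |φ y| ≤ B)
    (h : ∀ t, |t| < R → |(∑ k ∈ Icc ⌈-(t + ρ) / d⌉ ⌊(a * Y - t - ρ) / d⌋, φ ((t + ρ + d * k) / a)) - m| ≤ e) :
    |(∫ y in Set.Icc 0 Y, ((lat R (a * y - ρ) d).card : ℝ) * φ y) - 2 * R * m / a| ≤ 2 * R * e / a := by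
  classical
  obtain ⟨K₀, hK₀⟩ : ∃ K₀ : ℤ, K₀ = ⌈(a * |Y| + |ρ| + R) / d⌉ := ⟨_, rfl⟩
  have hK₀' : (a * |Y| + |ρ| + R) / d ≤ K₀ := by rw [hK₀]; exact Int.le_ceil _
  rw [div_le_iff₀ hd] at hK₀'
  obtain ⟨Kf, hKf⟩ : ∃ Kf, Kf = Icc (-K₀) K₀ := ⟨_, rfl⟩
  have hbig : ∀ t : ℝ, |t| < R → ∀ k : ℤ, 0 ≤ t + ρ + d * k → t + ρ + d * k ≤ a * Y → k ∈ Kf := by
    intro t ht k h1 h2
    have ht' := abs_lt.1 ht
    have hρ1 := neg_abs_le ρ
    have hρ2 := le_abs_self ρ
    have hY : a * Y ≤ a * |Y| := mul_le_mul_of_nonneg_left (le_abs_self Y) ha.le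
    have haY : 0 ≤ a * |Y| := by positivity
    rw [hKf, mem_Icc]
    constructor
    · have h3 : -(K₀ : ℝ) * d ≤ k * d := by linarith
      have h4 : -(K₀ : ℝ) ≤ k := le_of_mul_le_mul_right h3 hd
      exact_mod_cast h4
    · have h3 : (k : ℝ) * d ≤ K₀ * d := by linarith
      have h4 : (k : ℝ) ≤ K₀ := le_of_mul_le_mul_right h3 hd
      exact_mod_cast h4
  -- the functions
  obtain ⟨G, hG⟩ : ∃ G : ℤ → ℝ → ℝ, G = fun (k : ℤ) (t : ℝ) =>
      (Set.Ioo (-R) R ∩ Set.Icc (-(ρ + d * k)) (a * Y - (ρ + d * k))).indicator (fun t => φ ((t + ρ + d * k) / a)) t := ⟨_, rfl⟩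
  have hGint : ∀ k, Integrable (G k) := by
    intro k
    rw [hG]
    rw [integrable_indicator_iff (measurableSet_Ioo.inter measurableSet_Icc)]
    apply Measure.integrableOn_of_bounded (M := B)
    · have : volume (Set.Ioo (-R) R ∩ Set.Icc (-(ρ + d * k)) (a * Y - (ρ + d * k))) ≤ volume (Set.Ioo (-R) R) :=
        measure_mono Set.inter_subset_left
      exact ne_top_of_le_ne_top (by rw [Real.volume_Ioo]; exact ENNReal.ofReal_ne_top) this
    · apply Measurable.aestronglyMeasurable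
      apply hφ.comp
      fun_prop
    · exact Filter.Eventually.of_forall (fun t => by rw [Real.norm_eq_abs]; exact hB _)
  have hGval : ∀ k t, G k t = if (|t| < R ∧ 0 ≤ t + ρ + d * k ∧ t + ρ + d * k ≤ a * Y) then φ ((t + ρ + d * k) / a) else 0 := by
    intro k t
    rw [hG]
    simp only [Set.indicator_apply, Set.mem_inter_iff, Set.mem_Ioo, Set.mem_Icc]
    congr 1
    rw [abs_lt]
    apply propext
    constructor
    · rintro ⟨h1, h2, h3⟩; exact ⟨h1, by linarith, by linarith⟩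
    · rintro ⟨h1, h2, h3⟩; exact ⟨h1, by linarith, by linarith⟩
  -- the integrand
  have hpt : ∀ y, (Set.Icc 0 Y).indicator (fun y => ((lat R (a * y - ρ) d).card : ℝ) * φ y) y =
      ∑ k ∈ Kf, G k (a * y - (ρ + d * k)) := by
    intro y
    by_cases hy : y ∈ Set.Icc 0 Y
    · rw [Set.indicator_of_mem hy]
      obtain ⟨hy0, hy1⟩ := hy
      have hay0 : 0 ≤ a * y := by positivity
      have hay1 : a * y ≤ a * Y := mul_le_mul_of_nonneg_left hy1 ha.le
      have h1 : ∀ k ∈ Kf, G k (a * y - (ρ + d * k)) = if k ∈ lat R (a * y - ρ) d then φ y else 0 := by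
        intro k _
        rw [hGval]
        have e1 : a * y - (ρ + d * k) + ρ + d * k = a * y := by ring
        have e2 : a * y - (ρ + d * k) = a * y - ρ - d * k := by ring
        rw [e1, e2, mul_div_cancel_left₀ y ha.ne']
        by_cases hk : k ∈ lat R (a * y - ρ) d
        · rw [if_pos hk]
          rw [mem_lat _ _ _ hd] at hk
          rw [if_pos ⟨hk, hay0, hay1⟩]
        · rw [if_neg hk]
          rw [mem_lat _ _ _ hd] at hk
          rw [if_neg (fun h => hk h.1)]
      rw [sum_congr rfl h1, ← sum_filter, sum_const, nsmul_eq_mul]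
      congr 2
      congr 1
      ext k
      rw [mem_filter]
      constructor
      · intro hk
        refine ⟨?_, hk⟩
        rw [mem_lat _ _ _ hd] at hk
        have e2 : a * y - ρ - d * k + ρ + d * k = a * y := by ring
        exact hbig (a * y - ρ - d * k) hk k (by rw [e2]; exact hay0) (by rw [e2]; exact hay1)
      · exact fun hk => hk.2
    · rw [Set.indicator_of_notMem hy]
      symm
      apply sum_eq_zero
      intro k _
      rw [hGval, if_neg]
      rintro ⟨_, h2, h3⟩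
      have e1 : a * y - (ρ + d * k) + ρ + d * k = a * y := by ring
      rw [e1] at h2 h3
      exact hy ⟨le_of_mul_le_mul_left (by linarith) ha, le_of_mul_le_mul_left h3 ha⟩
  have hint : ∫ y in Set.Icc 0 Y, ((lat R (a * y - ρ) d).card : ℝ) * φ y = a⁻¹ * ∫ t in Set.Ioo (-R) R, ∑ k ∈ Kf, G k t := by
    rw [← integral_indicator measurableSet_Icc]
    have h1 : (fun y => (Set.Icc 0 Y).indicator (fun y => ((lat R (a * y - ρ) d).card : ℝ) * φ y) y) =
        fun y => ∑ k ∈ Kf, G k (a * y - (ρ + d * k)) := funext hpt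
    rw [h1, integral_finsetSum]
    · have h2 : ∀ k ∈ Kf, ∫ y, G k (a * y - (ρ + d * k)) = a⁻¹ * ∫ t, G k t := by
        intro k _
        have h3 := Measure.integral_comp_mul_left (fun u => G k (u - (ρ + d * k))) a
        rw [h3, integral_sub_right_eq_self (G k), abs_of_pos (inv_pos.2 ha), smul_eq_mul]
      rw [sum_congr rfl h2, ← mul_sum, ← integral_finsetSum _ (fun k _ => hGint k)]
      congr 1
      symm
      apply setIntegral_eq_integral_of_forall_compl_eq_zero
      intro t ht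
      apply sum_eq_zero
      intro k _
      rw [hGval, if_neg]
      rintro ⟨h4, _⟩
      exact ht (Set.mem_Ioo.2 (abs_lt.1 h4))
    · intro k _
      exact ((hGint k).comp_sub_right _).comp_mul_left' ha.ne'
  have hsum : ∀ t ∈ Set.Ioo (-R) R, |(∑ k ∈ Kf, G k t) - m| ≤ e := by
    intro t ht
    have ht' : |t| < R := abs_lt.2 ht
    have h1 : ∑ k ∈ Kf, G k t = ∑ k ∈ Icc ⌈-(t + ρ) / d⌉ ⌊(a * Y - t - ρ) / d⌋, φ ((t + ρ + d * k) / a) := by
      have h2 : ∀ k ∈ Kf, G k t = if (0 ≤ t + ρ + d * k ∧ t + ρ + d * k ≤ a * Y) then φ ((t + ρ + d * k) / a) else 0 := by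
        intro k _
        rw [hGval]
        congr 1
        apply propext
        exact ⟨fun h => h.2, fun h => ⟨ht', h⟩⟩
      rw [sum_congr rfl h2, ← sum_filter]
      apply sum_congr _ (fun _ _ => rfl)
      ext k
      rw [mem_filter, mem_Icc, Int.ceil_le, Int.le_floor, div_le_iff₀ hd, le_div_iff₀ hd]
      constructor
      · rintro ⟨_, h3, h4⟩
        exact ⟨by linarith, by linarith⟩
      · rintro ⟨h3, h4⟩
        have h5 : 0 ≤ t + ρ + d * k := by linarith
        have h6 : t + ρ + d * k ≤ a * Y := by linarith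
        exact ⟨hbig t ht' k h5 h6, h5, h6⟩
    rw [h1]
    exact h t ht'
  have hvol : (volume (Set.Ioo (-R) R)).toReal = 2 * R := by
    rw [Real.volume_Ioo, ENNReal.toReal_ofReal (by linarith)]
    ring
  have hmain : |(∫ t in Set.Ioo (-R) R, ∑ k ∈ Kf, G k t) - 2 * R * m| ≤ e * (2 * R) := by
    have hsumint : Integrable (fun t => ∑ k ∈ Kf, G k t) := integrable_finsetSum _ (fun k _ => hGint k)
    have hconst : IntegrableOn (fun _ : ℝ => m) (Set.Ioo (-R) R) := by
      exact integrableOn_const (by rw [Real.volume_Ioo]; exact ENNReal.ofReal_ne_top)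
    have h1 : ∫ t in Set.Ioo (-R) R, ((∑ k ∈ Kf, G k t) - m) = (∫ t in Set.Ioo (-R) R, ∑ k ∈ Kf, G k t) - 2 * R * m := by
      rw [integral_sub hsumint.integrableOn hconst, setIntegral_const, smul_eq_mul]
      rw [Measure.real, hvol]
    rw [← h1, ← Real.norm_eq_abs]
    have h2 := norm_setIntegral_le_of_norm_le_const (μ := volume) (s := Set.Ioo (-R) R) (C := e)
      (f := fun t => (∑ k ∈ Kf, G k t) - m) (by rw [Real.volume_Ioo]; exact ENNReal.ofReal_lt_top)
      (fun t ht => by rw [Real.norm_eq_abs]; exact hsum t ht)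
    rw [Measure.real, hvol] at h2
    exact h2
  rw [hint]
  obtain ⟨J, hJ⟩ : ∃ J, J = ∫ t in Set.Ioo (-R) R, ∑ k ∈ Kf, G k t := ⟨_, rfl⟩
  rw [← hJ] at hmain ⊢
  have h5 : a⁻¹ * J - 2 * R * m / a = a⁻¹ * (J - 2 * R * m) := by
    field_simp
  have h6 : |a⁻¹ * J - 2 * R * m / a| ≤ a⁻¹ * (e * (2 * R)) := by
    rw [h5, abs_mul, abs_of_pos (inv_pos.2 ha)]
    exact mul_le_mul_of_nonneg_left hmain (inv_pos.2 ha).le
  refine h6.trans (le_of_eq ?_)
  field_simp

end Pool.Agent.J4H33.V
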