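import Pool.Agent.J4H33.V2

/-!
# The correlation of two window functions along two dilates
-/

set_option autoImplicit false

namespace Pool.Agent.J4H33.V

open Finset MeasureTheory

theorem card_Icc_bd (α β : ℝ) (h : α ≤ β) : |((Icc ⌈α⌉ ⌊β⌋).card : ℝ) - (β - α)| ≤ 1 := by
  rw [Int.card_Icc]
  have h1 : (⌊β⌋ : ℝ) ≤ β := Int.floor_le _
  have h2 : β < (⌊β⌋ : ℝ) + 1 := Int.lt_floor_add_one _
  have h3 : α ≤ (⌈α⌉ : ℝ) := Int.le_ceil _
  have h4 : (⌈α⌉ : ℝ) < α + 1 := Int.ceil_lt_add_one _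
  have h5 : (⌈α⌉ : ℝ) < (⌊β⌋ : ℝ) + 2 := by linarith
  have h5' : ⌈α⌉ < ⌊β⌋ + 2 := by exact_mod_cast h5
  have h6 : 0 ≤ ⌊β⌋ + 1 - ⌈α⌉ := by omega
  have h7 := congrArg (fun z : ℤ => (z : ℝ)) (Int.toNat_of_nonneg h6)
  push_cast at h7
  rw [h7, abs_le]
  constructor <;> linarith

theorem measurable_lat (R b ρ d : ℝ) (hR : 0 < R) (hd : 0 < d) : Measurable (fun y : ℝ => ((lat R (b * y - ρ) d).card : ℝ)) := by
  have h1 : (fun y : ℝ => ((lat R (b * y - ρ) d).card : ℝ)) =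
      fun y : ℝ => (⌈(b * y - ρ + R) / d⌉ : ℝ) - (⌊(b * y - ρ - R) / d⌋ : ℝ) - 1 := by
    funext y
    exact card_lat R (b * y - ρ) d hR hd
  rw [h1]
  have m1 : Measurable (fun y : ℝ => (⌈(b * y - ρ + R) / d⌉ : ℝ)) := by
    have e1 : Measurable (fun y : ℝ => ⌈(b * y - ρ + R) / d⌉) := Int.measurable_ceil.comp (by fun_prop)
    exact (measurable_of_countable (fun z : ℤ => (z : ℝ))).comp e1
  have m2 : Measurable (fun y : ℝ => (⌊(b * y - ρ - R) / d⌋ : ℝ)) := by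
    have e1 : Measurable (fun y : ℝ => ⌊(b * y - ρ - R) / d⌋) := Int.measurable_floor.comp (by fun_prop)
    exact (measurable_of_countable (fun z : ℤ => (z : ℝ))).comp e1
  exact (m1.sub m2).sub_const 1

theorem lat_le (R u d : ℝ) (hR : 0 < R) (hd : 1 ≤ d) : ((lat R u d).card : ℝ) ≤ 2 * R + 1 := by
  have h1 := (abs_le.1 (card_lat_bd R u d hR (by linarith))).2
  have h2 : 2 * R / d ≤ 2 * R := div_le_self (by linarith) hd
  linarith

theorem int_single (a d : ℕ) (ha : 0 < a) (hd : 0 < d) (R Y : ℝ) (ρ : ℤ) (hR : 0 < R) (hY : 0 ≤ Y) :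
    |(∫ y in Set.Icc 0 Y, ((lat R (a * y - ρ) d).card : ℝ)) - 2 * R * Y / d| ≤ 2 * R := by
  have ha0 : (0 : ℝ) < a := by exact_mod_cast ha
  have ha1 : (1 : ℝ) ≤ a := by exact_mod_cast ha
  have hd0 : (0 : ℝ) < d := by exact_mod_cast hd
  have h1 := int_window a d R Y (a * Y / d) 1 1 ρ ha0 hd0 hR (fun _ => 1) measurable_const (fun _ => by simp) (fun t _ => by
    rw [sum_const, nsmul_eq_mul, mul_one]
    have h2 := card_Icc_bd (-(t + ρ) / d) ((a * Y - t - ρ) / d) (by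
      apply div_le_div_of_nonneg_right _ hd0.le
      have : 0 ≤ (a : ℝ) * Y := by positivity
      linarith)
    have h3 : (a * Y - t - ρ) / d - -(t + ρ) / d = a * Y / d := by ring
    rw [h3] at h2
    exact h2)
  simp only [mul_one] at h1
  have h4 : 2 * R * (a * Y / d) / a = 2 * R * Y / d := by field_simp
  rw [h4] at h1
  exact h1.trans (div_le_self (by linarith) ha1)

theorem int_pair (a b d d' : ℕ) (ha : 0 < a) (hb : 0 < b) (hd : 0 < d) (hd' : 0 < d') (R Y : ℝ) (ρ ρ' : ℤ) (hR : 1 ≤ R)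
    (hY : 0 ≤ Y) :
    |(∫ y in Set.Icc 0 Y, ((lat R (a * y - ρ) d).card : ℝ) * ((lat R (b * y - ρ') d').card : ℝ)) - 4 * R ^ 2 * Y / (d * d')| ≤
      2 * R * Y * ((Nat.gcd (b * d) (a * d') : ℕ) : ℝ) / (a * (d * d')) + 12 * R ^ 2 := by
  have hR0 : 0 < R := by linarith
  have ha0 : (0 : ℝ) < a := by exact_mod_cast ha
  have ha1 : (1 : ℝ) ≤ a := by exact_mod_cast ha
  have hb0 : (0 : ℝ) < b := by exact_mod_cast hb
  have hd0 : (0 : ℝ) < d := by exact_mod_cast hd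
  have hd0' : (0 : ℝ) < d' := by exact_mod_cast hd'
  have hd1' : (1 : ℝ) ≤ d' := by exact_mod_cast hd'
  obtain ⟨G, hG⟩ : ∃ G, G = Nat.gcd (b * d) (a * d') := ⟨_, rfl⟩
  have hG0 : 0 < G := by rw [hG]; exact Nat.gcd_pos_of_pos_left _ (by positivity)
  obtain ⟨p₂, hp₂⟩ : G ∣ b * d := by rw [hG]; exact Nat.gcd_dvd_left _ _
  obtain ⟨p₁, hp₁⟩ : G ∣ a * d' := by rw [hG]; exact Nat.gcd_dvd_right _ _
  have hp₁0 : 0 < p₁ := by
    rcases Nat.eq_zero_or_pos p₁ with h | h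
    · rw [h, mul_zero] at hp₁
      have : 0 < a * d' := by positivity
      omega
    · exact h
  have hcop : Nat.Coprime p₂ p₁ := by
    have h1 : Nat.gcd (G * p₂) (G * p₁) = G := by rw [← hp₂, ← hp₁, ← hG]
    rw [Nat.gcd_mul_left] at h1
    exact Nat.eq_of_mul_eq_mul_left hG0 (by rw [h1, mul_one])
  rw [← hG]
  have hGr : (1 : ℝ) ≤ G := by exact_mod_cast hG0
  have hG0r : (0 : ℝ) < G := by linarith
  have hp₁r : (1 : ℝ) ≤ p₁ := by exact_mod_cast hp₁0
  have hp₁0r : (0 : ℝ) < p₁ := by linarith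
  have e2 : (b : ℝ) * d = G * p₂ := by exact_mod_cast hp₂
  have e1 : (a : ℝ) * d' = G * p₁ := by exact_mod_cast hp₁
  obtain ⟨w, hw⟩ : ∃ w : ℝ, w = G / a := ⟨_, rfl⟩
  have hw0 : 0 < w := by rw [hw]; positivity
  have hwp₁ : w * p₁ = d' := by
    rw [hw]; field_simp; linarith
  obtain ⟨e, he⟩ : ∃ e : ℝ, e = Y * G / (d * d') + 2 + 2 * R * a + 2 * R := ⟨_, rfl⟩
  have h1 := int_window a d R Y (a * Y / d * (2 * R / d')) e (2 * R + 1) ρ ha0 hd0 hR0
    (fun y => ((lat R (b * y - ρ') d').card : ℝ)) (measurable_lat R b ρ' d' hR0 hd0')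
    (fun y => by rw [abs_of_nonneg (Nat.cast_nonneg _)]; exact lat_le R _ _ hR0 hd1') (fun t _ => by
      obtain ⟨z, hz⟩ : ∃ z : ℝ, z = b * (t + ρ) / a - ρ' := ⟨_, rfl⟩
      have h2 := block R z w hR0 hw0 p₁ p₂ hp₁0 hcop ⌈-(t + ρ) / d⌉ ⌊(a * Y - t - ρ) / d⌋
      rw [hwp₁] at h2
      have h3 : ∀ k : ℤ, (b : ℝ) * ((t + ρ + d * k) / a) - ρ' = z + w * p₂ * k := by
        intro k
        rw [hz, hw]
        have h4 : (G : ℝ) / a * p₂ * k = (b * d) * k / a := by rw [e2]; ring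
        rw [h4]
        ring
      have h5 : ∑ k ∈ Icc ⌈-(t + ρ) / d⌉ ⌊(a * Y - t - ρ) / d⌋, ((lat R (b * ((t + ρ + d * k) / a) - ρ') d').card : ℝ) =
          ∑ k ∈ Icc ⌈-(t + ρ) / d⌉ ⌊(a * Y - t - ρ) / d⌋, ((lat R (z + w * p₂ * k) d').card : ℝ) := by
        apply sum_congr rfl
        intro k _
        rw [h3 k]
      rw [h5]
      have h6 := card_Icc_bd (-(t + ρ) / d) ((a * Y - t - ρ) / d) (by
        apply div_le_div_of_nonneg_right _ hd0.le
        have : 0 ≤ (a : ℝ) * Y := by positivity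
        linarith)
      have h7 : (a * Y - t - ρ) / d - -(t + ρ) / d = a * Y / d := by ring
      rw [h7] at h6
      obtain ⟨K, hK⟩ : ∃ K : ℝ, K = ((Icc ⌈-(t + ρ) / d⌉ ⌊(a * Y - t - ρ) / d⌋).card : ℝ) := ⟨_, rfl⟩
      rw [← hK] at h2 h6
      obtain ⟨S, hS⟩ : ∃ S : ℝ, S = ∑ k ∈ Icc ⌈-(t + ρ) / d⌉ ⌊(a * Y - t - ρ) / d⌋, ((lat R (z + w * p₂ * k) d').card : ℝ) :=
        ⟨_, rfl⟩
      rw [← hS] at h2 ⊢
      have h8 : 2 * R / d' ≤ 2 * R := div_le_self (by linarith) hd1'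
      have h8' : 0 ≤ 2 * R / d' := by positivity
      have h9 : K / p₁ ≤ Y * G / (d * d') + 1 := by
        have h10 : K ≤ a * Y / d + 1 := by linarith [(abs_le.1 h6).2]
        calc K / p₁ ≤ (a * Y / d + 1) / p₁ := div_le_div_of_nonneg_right h10 hp₁0r.le
          _ = a * Y / d / p₁ + 1 / p₁ := by ring
          _ ≤ Y * G / (d * d') + 1 := by
            refine add_le_add (le_of_eq ?_) ?_
            · rw [div_div, div_eq_div_iff (by positivity) (by positivity)]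
              have : (d : ℝ) * d' * a = d * (G * p₁) := by rw [← e1]; ring
              calc a * Y * (d * d') = Y * (d * d' * a) := by ring
                _ = Y * (d * (G * p₁)) := by rw [this]
                _ = _ := by ring
            · rw [div_le_one hp₁0r]; exact hp₁r
      have h11 : 2 * R / w ≤ 2 * R * a := by
        rw [hw, div_div_eq_mul_div]
        exact div_le_self (by positivity) hGr
      have h12 : |K * (2 * R / d') - a * Y / d * (2 * R / d')| ≤ 2 * R := by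
        rw [← sub_mul, abs_mul, abs_of_nonneg h8']
        calc |K - a * Y / d| * (2 * R / d') ≤ 1 * (2 * R) := mul_le_mul h6 h8 h8' zero_le_one
          _ = 2 * R := one_mul _
      have h13 := abs_sub_le S (K * (2 * R / d')) (a * Y / d * (2 * R / d'))
      rw [he]
      linarith)
  have h14 : 2 * R * (a * Y / d * (2 * R / d')) / a = 4 * R ^ 2 * Y / (d * d') := by field_simp; ring
  rw [h14] at h1
  refine h1.trans ?_
  rw [he]
  have h15 : 2 * R * (Y * G / (d * d') + 2 + 2 * R * a + 2 * R) / a =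
      2 * R * Y * G / (a * (d * d')) + (4 * R + 4 * R ^ 2) / a + 4 * R ^ 2 := by field_simp; ring
  rw [h15]
  have h16 : (4 * R + 4 * R ^ 2) / a ≤ 4 * R + 4 * R ^ 2 := div_le_self (by positivity) ha1
  nlinarith

end Pool.Agent.J4H33.V
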