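import Pool.Agent.J4H33.V3

/-!
# The variance of a sum of window functions over dilates
-/

set_option autoImplicit false

namespace Pool.Agent.J4H33.V

open Finset MeasureTheory

/-- abstract second moment -/
theorem second_moment {ι : Type} (T : Finset ι) (c m : ι → ℝ) (N : ι → ℝ → ℝ) (Y B e₁ : ℝ) (e₂ : ι → ι → ℝ) (hY : 0 ≤ Y)
    (hN : ∀ p ∈ T, Measurable (N p)) (hB : ∀ p ∈ T, ∀ y, |N p y| ≤ B)
    (h1 : ∀ p ∈ T, |(∫ y in Set.Icc 0 Y, N p y) - m p * Y| ≤ e₁)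
    (h2 : ∀ p ∈ T, ∀ q ∈ T, |(∫ y in Set.Icc 0 Y, N p y * N q y) - m p * m q * Y| ≤ e₂ p q) :
    ∫ y in Set.Icc 0 Y, (∑ p ∈ T, c p * N p y - ∑ p ∈ T, c p * m p) ^ 2 ≤
      ∑ p ∈ T, ∑ q ∈ T, |c p| * |c q| * e₂ p q + 2 * |∑ p ∈ T, c p * m p| * ((∑ p ∈ T, |c p|) * e₁) := by
  obtain ⟨ν, hν⟩ : ∃ ν, ν = ∑ p ∈ T, c p * m p := ⟨_, rfl⟩
  rw [← hν]
  have hB' : ∀ p ∈ T, 0 ≤ B := fun p hp => (abs_nonneg _).trans (hB p hp 0)
  have hfin : volume (Set.Icc 0 Y) ≠ ⊤ := by rw [Real.volume_Icc]; exact ENNReal.ofReal_ne_top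
  have hint1 : ∀ p ∈ T, IntegrableOn (N p) (Set.Icc 0 Y) := by
    intro p hp
    exact Measure.integrableOn_of_bounded (M := B) hfin (hN p hp).aestronglyMeasurable
      (Filter.Eventually.of_forall (fun y => by rw [Real.norm_eq_abs]; exact hB p hp y))
  have hint2 : ∀ p ∈ T, ∀ q ∈ T, IntegrableOn (fun y => N p y * N q y) (Set.Icc 0 Y) := by
    intro p hp q hq
    refine Measure.integrableOn_of_bounded (M := B * B) hfin ((hN p hp).mul (hN q hq)).aestronglyMeasurable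
      (Filter.Eventually.of_forall (fun y => ?_))
    rw [Real.norm_eq_abs, abs_mul]
    exact mul_le_mul (hB p hp y) (hB q hq y) (abs_nonneg _) (hB' p hp)
  have hexp : ∀ y, (∑ p ∈ T, c p * N p y - ν) ^ 2 =
      (∑ p ∈ T, ∑ q ∈ T, (c p * c q) * (N p y * N q y)) + (∑ p ∈ T, (-(2 * ν * c p)) * N p y) + ν ^ 2 := by
    intro y
    have e1 : ∑ p ∈ T, ∑ q ∈ T, (c p * c q) * (N p y * N q y) = (∑ p ∈ T, c p * N p y) * (∑ p ∈ T, c p * N p y) := by
      rw [sum_mul_sum]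
      apply sum_congr rfl
      intro p _
      apply sum_congr rfl
      intro q _
      ring
    have e2 : ∑ p ∈ T, (-(2 * ν * c p)) * N p y = -(2 * ν) * ∑ p ∈ T, c p * N p y := by
      rw [mul_sum]
      apply sum_congr rfl
      intro p _
      ring
    rw [e1, e2]
    ring
  have hI : ∫ y in Set.Icc 0 Y, (∑ p ∈ T, c p * N p y - ν) ^ 2 =
      (∑ p ∈ T, ∑ q ∈ T, (c p * c q) * ∫ y in Set.Icc 0 Y, N p y * N q y) +
      (∑ p ∈ T, (-(2 * ν * c p)) * ∫ y in Set.Icc 0 Y, N p y) + ν ^ 2 * Y := by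
    simp_rw [hexp]
    have i2 : IntegrableOn (fun y => ∑ p ∈ T, ∑ q ∈ T, (c p * c q) * (N p y * N q y)) (Set.Icc 0 Y) := by
      apply integrable_finsetSum
      intro p hp
      apply integrable_finsetSum
      intro q hq
      exact (hint2 p hp q hq).const_mul _
    have i1 : IntegrableOn (fun y => ∑ p ∈ T, (-(2 * ν * c p)) * N p y) (Set.Icc 0 Y) := by
      apply integrable_finsetSum
      intro p hp
      exact (hint1 p hp).const_mul _
    have i0 : IntegrableOn (fun _ : ℝ => ν ^ 2) (Set.Icc 0 Y) := integrableOn_const hfin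
    refine (integral_add (f := fun y => (∑ p ∈ T, ∑ q ∈ T, (c p * c q) * (N p y * N q y)) + ∑ p ∈ T, (-(2 * ν * c p)) * N p y)
      (g := fun _ => ν ^ 2) (i2.add i1) i0).trans ?_
    rw [integral_add i2 i1]
    congr 1
    · congr 1
      · rw [integral_finsetSum]
        · apply sum_congr rfl
          intro p hp
          rw [integral_finsetSum]
          · apply sum_congr rfl
            intro q hq
            rw [integral_const_mul]
          · intro q hq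
            exact (hint2 p hp q hq).const_mul _
        · intro p hp
          apply integrable_finsetSum
          intro q hq
          exact (hint2 p hp q hq).const_mul _
      · rw [integral_finsetSum]
        · apply sum_congr rfl
          intro p hp
          rw [integral_const_mul]
        · intro p hp
          exact (hint1 p hp).const_mul _
    · rw [setIntegral_const, smul_eq_mul, Measure.real, Real.volume_Icc, ENNReal.toReal_ofReal (by linarith)]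
      ring
  rw [hI]
  have hm2 : ∑ p ∈ T, ∑ q ∈ T, (c p * c q) * (m p * m q * Y) = ν ^ 2 * Y := by
    have e1 : ∑ p ∈ T, ∑ q ∈ T, (c p * c q) * (m p * m q * Y) = (∑ p ∈ T, c p * m p) * (∑ p ∈ T, c p * m p) * Y := by
      rw [sum_mul_sum, sum_mul]
      apply sum_congr rfl
      intro p _
      rw [sum_mul]
      apply sum_congr rfl
      intro q _
      ring
    rw [e1, ← hν]
    ring
  have hm1 : ∑ p ∈ T, (-(2 * ν * c p)) * (m p * Y) = -(2 * ν ^ 2 * Y) := by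
    have e1 : ∑ p ∈ T, (-(2 * ν * c p)) * (m p * Y) = -(2 * ν * Y) * ∑ p ∈ T, c p * m p := by
      rw [mul_sum]
      apply sum_congr rfl
      intro p _
      ring
    rw [e1, ← hν]
    ring
  have hs2 : ∑ p ∈ T, ∑ q ∈ T, (c p * c q) * ∫ y in Set.Icc 0 Y, N p y * N q y ≤
      ν ^ 2 * Y + ∑ p ∈ T, ∑ q ∈ T, |c p| * |c q| * e₂ p q := by
    rw [← hm2, ← sum_add_distrib]
    apply sum_le_sum
    intro p hp
    rw [← sum_add_distrib]
    apply sum_le_sum
    intro q hq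
    have h3 := h2 p hp q hq
    have h4 : (c p * c q) * ((∫ y in Set.Icc 0 Y, N p y * N q y) - m p * m q * Y) ≤ |c p| * |c q| * e₂ p q := by
      refine (le_abs_self _).trans ?_
      rw [abs_mul, abs_mul]
      exact mul_le_mul_of_nonneg_left h3 (by positivity)
    linarith
  have hs1 : ∑ p ∈ T, (-(2 * ν * c p)) * ∫ y in Set.Icc 0 Y, N p y ≤ -(2 * ν ^ 2 * Y) + 2 * |ν| * ((∑ p ∈ T, |c p|) * e₁) := by
    have e1 : 2 * |ν| * ((∑ p ∈ T, |c p|) * e₁) = ∑ p ∈ T, 2 * |ν| * |c p| * e₁ := by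
      rw [sum_mul, mul_sum]
      apply sum_congr rfl
      intro p _
      ring
    rw [e1, ← hm1, ← sum_add_distrib]
    apply sum_le_sum
    intro p hp
    have h3 := h1 p hp
    have h4 : (-(2 * ν * c p)) * ((∫ y in Set.Icc 0 Y, N p y) - m p * Y) ≤ 2 * |ν| * |c p| * e₁ := by
      refine (le_abs_self _).trans ?_
      rw [abs_mul, abs_neg, abs_mul, abs_mul, abs_of_pos (by norm_num : (0 : ℝ) < 2)]
      exact mul_le_mul_of_nonneg_left h3 (by positivity)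
    linarith
  linarith

theorem variance {ι : Type} (T : Finset ι) (c : ι → ℝ) (d : ι → ℕ) (ρ : ι → ℤ) (R Y : ℝ) (A : Finset ℕ) (hR : 1 ≤ R) (hY : 0 ≤ Y)
    (hd : ∀ τ ∈ T, 0 < d τ) (hA : ∀ a ∈ A, 0 < a) (hc : ∀ τ ∈ T, |c τ| ≤ 1) :
    ∫ y in Set.Icc 0 Y, (∑ a ∈ A, ∑ τ ∈ T, c τ * ((lat R (a * y - ρ τ) (d τ)).card : ℝ) -
        A.card * (2 * R * ∑ τ ∈ T, c τ / d τ)) ^ 2 ≤
      2 * R * Y * ∑ a ∈ A, ∑ b ∈ A, (∑ τ ∈ T, ∑ τ' ∈ T, ((Nat.gcd (b * d τ) (a * d τ') : ℕ) : ℝ) / (d τ * d τ')) / a +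
      20 * R ^ 2 * (A.card * T.card) ^ 2 := by
  have hR0 : 0 < R := by linarith
  have hbase := second_moment (A ×ˢ T) (fun p => c p.2) (fun p => 2 * R / d p.2)
    (fun p y => ((lat R (p.1 * y - ρ p.2) (d p.2)).card : ℝ)) Y (2 * R + 1) (2 * R)
    (fun p q => 2 * R * Y * ((Nat.gcd (q.1 * d p.2) (p.1 * d q.2) : ℕ) : ℝ) / (p.1 * (d p.2 * d q.2)) + 12 * R ^ 2) hY
    (fun p hp => measurable_lat R _ _ _ hR0 (by
      rw [mem_product] at hp
      exact_mod_cast hd _ hp.2))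
    (fun p hp y => by
      rw [mem_product] at hp
      rw [abs_of_nonneg (Nat.cast_nonneg _)]
      exact lat_le R _ _ hR0 (by exact_mod_cast hd _ hp.2))
    (fun p hp => by
      rw [mem_product] at hp
      have h := int_single p.1 (d p.2) (hA _ hp.1) (hd _ hp.2) R Y (ρ p.2) hR0 hY
      have e : 2 * R * Y / (d p.2 : ℝ) = 2 * R / d p.2 * Y := by ring
      rw [← e]
      exact h)
    (fun p hp q hq => by
      rw [mem_product] at hp hq
      have h := int_pair p.1 q.1 (d p.2) (d q.2) (hA _ hp.1) (hA _ hq.1) (hd _ hp.2) (hd _ hq.2) R Y (ρ p.2) (ρ q.2) hR hY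
      have e : 4 * R ^ 2 * Y / ((d p.2 : ℝ) * d q.2) = 2 * R / d p.2 * (2 * R / d q.2) * Y := by
        field_simp
        ring
      rw [← e]
      exact h)
  have hleft : ∀ y : ℝ, ∑ p ∈ A ×ˢ T, c p.2 * ((lat R (p.1 * y - ρ p.2) (d p.2)).card : ℝ) - ∑ p ∈ A ×ˢ T, c p.2 * (2 * R / d p.2) =
      ∑ a ∈ A, ∑ τ ∈ T, c τ * ((lat R (a * y - ρ τ) (d τ)).card : ℝ) - A.card * (2 * R * ∑ τ ∈ T, c τ / d τ) := by
    intro y
    have e2 : ∑ p ∈ A ×ˢ T, c p.2 * (2 * R / (d p.2 : ℝ)) = A.card * (2 * R * ∑ τ ∈ T, c τ / d τ) := by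
      rw [sum_product]
      dsimp only
      rw [sum_const, nsmul_eq_mul]
      congr 1
      rw [mul_sum]
      apply sum_congr rfl
      intro τ _
      ring
    rw [e2, sum_product]
  simp_rw [hleft] at hbase
  refine hbase.trans ?_
  obtain ⟨C₁, hC₁⟩ : ∃ C₁ : ℝ, C₁ = A.card * T.card := ⟨_, rfl⟩
  have hsumc : ∑ p ∈ A ×ˢ T, |c p.2| ≤ C₁ := by
    calc ∑ p ∈ A ×ˢ T, |c p.2| ≤ ∑ _p ∈ A ×ˢ T, (1 : ℝ) := sum_le_sum (fun p hp => hc _ (mem_product.1 hp).2)
      _ = C₁ := by rw [sum_const, card_product, nsmul_eq_mul, mul_one, hC₁]; push_cast; ring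
  have hsumc0 : 0 ≤ ∑ p ∈ A ×ˢ T, |c p.2| := sum_nonneg (fun _ _ => abs_nonneg _)
  have hC₁0 : 0 ≤ C₁ := hsumc0.trans hsumc
  have hν : |∑ p ∈ A ×ˢ T, c p.2 * (2 * R / d p.2)| ≤ 2 * R * C₁ := by
    refine (abs_sum_le_sum_abs _ _).trans ?_
    calc ∑ p ∈ A ×ˢ T, |c p.2 * (2 * R / d p.2)| ≤ ∑ p ∈ A ×ˢ T, |c p.2| * (2 * R) := by
          apply sum_le_sum
          intro p hp
          have hd1 : (1 : ℝ) ≤ d p.2 := by exact_mod_cast hd _ (mem_product.1 hp).2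
          rw [abs_mul, abs_of_nonneg (by positivity : 0 ≤ 2 * R / (d p.2 : ℝ))]
          exact mul_le_mul_of_nonneg_left (div_le_self (by positivity) hd1) (abs_nonneg _)
      _ = 2 * R * ∑ p ∈ A ×ˢ T, |c p.2| := by rw [← sum_mul]; ring
      _ ≤ 2 * R * C₁ := mul_le_mul_of_nonneg_left hsumc (by positivity)
  have hpart2 : 2 * |∑ p ∈ A ×ˢ T, c p.2 * (2 * R / d p.2)| * ((∑ p ∈ A ×ˢ T, |c p.2|) * (2 * R)) ≤ 8 * R ^ 2 * C₁ ^ 2 := by
    calc 2 * |∑ p ∈ A ×ˢ T, c p.2 * (2 * R / d p.2)| * ((∑ p ∈ A ×ˢ T, |c p.2|) * (2 * R))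
        ≤ 2 * (2 * R * C₁) * (C₁ * (2 * R)) := by
          apply mul_le_mul
          · exact mul_le_mul_of_nonneg_left hν (by norm_num)
          · exact mul_le_mul_of_nonneg_right hsumc (by positivity)
          · positivity
          · positivity
      _ = _ := by ring
  have hpart1 : ∑ p ∈ A ×ˢ T, ∑ q ∈ A ×ˢ T, |c p.2| * |c q.2| *
      (2 * R * Y * ((Nat.gcd (q.1 * d p.2) (p.1 * d q.2) : ℕ) : ℝ) / (p.1 * (d p.2 * d q.2)) + 12 * R ^ 2) ≤
      2 * R * Y * ∑ a ∈ A, ∑ b ∈ A, (∑ τ ∈ T, ∑ τ' ∈ T, ((Nat.gcd (b * d τ) (a * d τ') : ℕ) : ℝ) / (d τ * d τ')) / a +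
      12 * R ^ 2 * C₁ ^ 2 := by
    have e1 : 2 * R * Y * ∑ a ∈ A, ∑ b ∈ A, (∑ τ ∈ T, ∑ τ' ∈ T, ((Nat.gcd (b * d τ) (a * d τ') : ℕ) : ℝ) / (d τ * d τ')) / a +
      12 * R ^ 2 * C₁ ^ 2 = ∑ p ∈ A ×ˢ T, ∑ q ∈ A ×ˢ T,
      (2 * R * Y * ((Nat.gcd (q.1 * d p.2) (p.1 * d q.2) : ℕ) : ℝ) / (p.1 * (d p.2 * d q.2)) + 12 * R ^ 2) := by
      simp_rw [sum_add_distrib]
      congr 1
      · rw [sum_product, mul_sum]
        apply sum_congr rfl
        intro a _
        simp_rw [sum_product]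
        rw [sum_comm, mul_sum]
        apply sum_congr rfl
        intro b _
        rw [sum_div, mul_sum]
        apply sum_congr rfl
        intro τ _
        rw [sum_div, mul_sum]
        apply sum_congr rfl
        intro τ' _
        rw [mul_div_assoc, div_div]
        congr 2
        ring
      · simp only [sum_const, nsmul_eq_mul, card_product]
        rw [hC₁]
        push_cast
        ring
    rw [e1]
    apply sum_le_sum
    intro p hp
    apply sum_le_sum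
    intro q hq
    have h1 : |c p.2| * |c q.2| ≤ 1 := by
      calc |c p.2| * |c q.2| ≤ 1 * 1 := mul_le_mul (hc _ (mem_product.1 hp).2) (hc _ (mem_product.1 hq).2) (abs_nonneg _) zero_le_one
        _ = 1 := one_mul _
    exact mul_le_of_le_one_left (by positivity) h1
  rw [← hC₁]
  linarith

end Pool.Agent.J4H33.V
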