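import Pool.Agent.Helper112.Lp.Kbh

/-!
# Upper bound sieve weights for `n (n + h)` (Brun-Hooley)
-/

set_option autoImplicit false

namespace Pool.Agent.J4H33.W

open Finset
open Pool.Agent.Helper112.LP
open Pool.Agent.Helper112.LP.Kbh (bhU bhA bhE bh_Gj_mem bh_Gj_disj bh_cover bh_pT_eq bh_card bh_mem bh_primeFactors
  bh_bonf bhE_nonneg bhE_le bh_tail bh_err bh_sum_aux)

/-- the sieving primes of a block -/
def Ph (h J : ℕ) (i : Fin J) : Finset ℕ := (Gj ((i : ℕ) + 1)).filter (fun l => 2 < l ∧ ¬ l ∣ h)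

/-- the admissible subsets of a block -/
def Fh (b0 h J : ℕ) (i : Fin J) : Finset (Finset ℕ) :=
  (Ph h J i).powerset.filter (fun U => U.card ≤ b0 + 2 * (J - 1 - (i : ℕ)))

/-- the sets of primes of the weights -/
noncomputable def UU (b0 h J : ℕ) : Finset (Finset ℕ) := by
  classical
  exact (Fintype.piFinset (Fh b0 h J)).image bhU

theorem Fh_sub {b0 h J : ℕ} {T : Fin J → Finset ℕ} (hT : T ∈ Fintype.piFinset (Fh b0 h J)) (i : Fin J) :
    T i ⊆ Ph h J i ∧ (T i).card ≤ b0 + 2 * (J - 1 - (i : ℕ)) := by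
  rw [Fintype.mem_piFinset] at hT
  have h1 := hT i
  unfold Fh at h1
  rw [mem_filter, mem_powerset] at h1
  exact h1

theorem Fh_sub' {b0 h J : ℕ} {T : Fin J → Finset ℕ} (hT : T ∈ Fintype.piFinset (Fh b0 h J)) (i : Fin J) :
    T i ⊆ Gj ((i : ℕ) + 1) := (Fh_sub hT i).1.trans (filter_subset _ _)

theorem bhU_inj (b0 h J : ℕ) : Set.InjOn (bhU : (Fin J → Finset ℕ) → Finset ℕ) (Fintype.piFinset (Fh b0 h J) : Set _) := by
  intro T hT T' hT' hU
  have h1 := fun i => Fh_sub' (mem_coe.1 hT) i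
  have h1' := fun i => Fh_sub' (mem_coe.1 hT') i
  funext i
  ext l
  have aux : ∀ T T' : Fin J → Finset ℕ, (∀ i, T i ⊆ Gj ((i : ℕ) + 1)) →
      (∀ i, T' i ⊆ Gj ((i : ℕ) + 1)) → bhU T = bhU T' → l ∈ T i → l ∈ T' i := by
    intro T T' h1 h1' hU hl
    have hlU : l ∈ bhU T' := by
      rw [← hU]; unfold bhU; exact mem_biUnion.2 ⟨i, mem_univ _, hl⟩
    unfold bhU at hlU
    obtain ⟨j, _, hj⟩ := mem_biUnion.1 hlU
    have := bh_Gj_disj (h1 i hl) (h1' j hj)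
    have hij : i = j := Fin.ext this
    rw [hij]; exact hj
  exact ⟨aux T T' h1 h1' hU, aux T' T h1' h1 hU.symm⟩

theorem sum_UU (b0 h J : ℕ) (f : Finset ℕ → ℝ) : ∑ U ∈ UU b0 h J, f U = ∑ T ∈ Fintype.piFinset (Fh b0 h J), f (bhU T) := by
  classical
  unfold UU
  rw [sum_image (bhU_inj b0 h J)]

theorem mem_UU {b0 h J : ℕ} {U : Finset ℕ} (hU : U ∈ UU b0 h J) : ∀ l ∈ U, l.Prime ∧ 2 < l ∧ ¬ l ∣ h ∧ l < 2 ^ 2 ^ J := by
  classical
  unfold UU at hU
  rw [mem_image] at hU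
  obtain ⟨T, hT, rfl⟩ := hU
  intro l hl
  have h1 := bh_mem T (fun i => Fh_sub' hT i) hl
  unfold bhU at hl
  rw [mem_biUnion] at hl
  obtain ⟨i, _, hi⟩ := hl
  have h2 := (Fh_sub hT i).1 hi
  unfold Ph at h2
  rw [mem_filter] at h2
  exact ⟨h1.1, h2.2.1, h2.2.2, h1.2⟩

/-- the weight -/
noncomputable def theta (b0 h J N : ℕ) : ℝ := ∑ U ∈ UU b0 h J, if (∀ l ∈ U, l ∣ N) then ((-1 : ℝ)) ^ U.card else 0

theorem theta_eq (b0 h J N : ℕ) : theta b0 h J N = ∏ i : Fin J, ∑ U ∈ Fh b0 h J i, if (∀ l ∈ U, l ∣ N) then ((-1 : ℝ)) ^ U.card else 0 := by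
  unfold theta
  rw [sum_UU, prod_univ_sum]
  apply sum_congr rfl
  intro T hT
  rw [Fintype.prod_ite_zero]
  have h1 : (∀ l ∈ bhU T, l ∣ N) ↔ ∀ i, ∀ l ∈ T i, l ∣ N := by
    unfold bhU
    constructor
    · intro h i l hl
      exact h l (mem_biUnion.2 ⟨i, mem_univ _, hl⟩)
    · intro h l hl
      obtain ⟨i, _, hi⟩ := mem_biUnion.1 hl
      exact h i l hi
  by_cases h2 : ∀ i, ∀ l ∈ T i, l ∣ N
  · rw [if_pos (h1.2 h2), if_pos h2, bh_card T (fun i => Fh_sub' hT i), prod_pow_eq_pow_sum]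
  · rw [if_neg (fun h => h2 (h1.1 h)), if_neg h2]

theorem theta_nonneg (b0 h J N : ℕ) (hb0 : Even b0) : 0 ≤ theta b0 h J N := by
  rw [theta_eq]
  apply prod_nonneg
  intro i _
  have h1 := Kba.bh_local (Ph h J i) (b0 + 2 * (J - 1 - (i : ℕ))) (hb0.add (even_two_mul _)) N
  exact h1.1.trans h1.2.1

theorem theta_ge (b0 h J N : ℕ) (hb0 : Even b0) (hN : ∀ l : ℕ, l.Prime → 2 < l → ¬ l ∣ h → l < 2 ^ 2 ^ J → ¬ l ∣ N) :
    1 ≤ theta b0 h J N := by
  rw [theta_eq]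
  refine le_trans (le_of_eq (prod_const_one (s := (univ : Finset (Fin J))) (M := ℝ)).symm) ?_
  apply prod_le_prod (fun _ _ => zero_le_one)
  intro i _
  have h1 := Kba.bh_local (Ph h J i) (b0 + 2 * (J - 1 - (i : ℕ))) (hb0.add (even_two_mul _)) N
  have h2 : ∀ l ∈ Ph h J i, ¬ l ∣ N := by
    intro l hl
    unfold Ph at hl
    rw [mem_filter] at hl
    have h3 := bh_Gj_mem hl.1
    exact hN l h3.1 hl.2.1 hl.2.2 (lt_of_lt_of_le h3.2.2
      (Nat.pow_le_pow_right (by norm_num) (Nat.pow_le_pow_right (by norm_num) (by omega))))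
  have h3 := h1.2.1
  rw [if_pos h2] at h3
  exact h3

theorem count_UU (b0 h J : ℕ) : ∑ U ∈ UU b0 h J, (2 : ℝ) ^ U.card ≤ ((2 : ℝ) ^ 2 ^ J) ^ (5 * (2 * b0 + 6)) := by
  rw [sum_UU]
  have h1 := bh_err J b0
  have h2 : ∑ T ∈ Fintype.piFinset (Fh b0 h J), (2 : ℝ) ^ (bhU T).card = ∏ i : Fin J, ∑ U ∈ Fh b0 h J i, (2 : ℝ) ^ U.card := by
    rw [prod_univ_sum]
    apply sum_congr rfl
    intro T hT
    rw [bh_card T (fun i => Fh_sub' hT i), prod_pow_eq_pow_sum]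
  rw [h2]
  refine le_trans ?_ h1
  have h3 : ∏ i : Fin J, ∑ U ∈ Fh b0 h J i, (2 : ℝ) ^ U.card ≤ ∏ i : Fin J,
      ∑ U ∈ (Gj ((i : ℕ) + 1)).powerset.filter (fun U => U.card ≤ b0 + 2 * (J - 1 - i) + 1), (3 : ℝ) ^ U.card := by
    apply prod_le_prod
    · intro i _
      exact sum_nonneg (fun _ _ => by positivity)
    · intro i _
      calc ∑ U ∈ Fh b0 h J i, (2 : ℝ) ^ U.card ≤ ∑ U ∈ Fh b0 h J i, (3 : ℝ) ^ U.card := by
            apply sum_le_sum
            intro U _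
            exact pow_le_pow_left₀ (by norm_num) (by norm_num) _
        _ ≤ _ := by
            apply sum_le_sum_of_subset_of_nonneg
            · intro U hU
              unfold Fh Ph at hU
              rw [mem_filter, mem_powerset] at hU
              rw [mem_filter, mem_powerset]
              exact ⟨hU.1.trans (filter_subset _ _), by omega⟩
            · intro _ _ _; positivity
  have h4 : (1 : ℝ) ≤ (J : ℝ) + 1 := by
    have : (0 : ℝ) ≤ J := Nat.cast_nonneg J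
    linarith
  have h5 : 0 ≤ ∏ i : Fin J, ∑ U ∈ (Gj ((i : ℕ) + 1)).powerset.filter (fun U => U.card ≤ b0 + 2 * (J - 1 - i) + 1), (3 : ℝ) ^ U.card :=
    prod_nonneg (fun i _ => sum_nonneg (fun _ _ => by positivity))
  exact h3.trans (le_mul_of_one_le_left h5 h4)

end Pool.Agent.J4H33.W
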