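import Pool.Agent.J4H33.W1

/-!
# The main term of the weights
-/

set_option autoImplicit false

namespace Pool.Agent.J4H33.W

open Finset
open Pool.Agent.Helper112.LP
open Pool.Agent.Helper112.LP.Kbh (bhU bhA bhE bh_Gj_mem bh_Gj_disj bh_cover bh_pT_eq bh_card bh_mem bh_primeFactors
  bh_bonf bhE_nonneg bhE_le bh_tail bh_err bh_sum_aux)

theorem exp_le_one_sub {x : ℝ} (h0 : 0 ≤ x) (h1 : x ≤ 2 / 3) : Real.exp (-(2 * x)) ≤ 1 - x := by
  have h2 := Real.quadratic_le_exp_of_nonneg (x := 2 * x) (by linarith)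
  rw [Real.exp_neg, inv_le_comm₀ (Real.exp_pos _) (by linarith)]
  refine le_trans ?_ h2
  rw [inv_le_iff_one_le_mul₀ (by linarith)]
  nlinarith [mul_nonneg h0 h0, mul_nonneg h0 (by linarith : (0 : ℝ) ≤ 2 / 3 - x)]

theorem prod_compl (h J : ℕ) (hh : 1 ≤ h) :
    ∏ l ∈ ((range (2 ^ 2 ^ J)).filter Nat.Prime).filter (fun l => 2 < l ∧ ¬ l ∣ h), (1 - (1 : ℝ) / l) ≤
      2 * ((h : ℝ) / Nat.totient h) * ∏ l ∈ (range (2 ^ 2 ^ J)).filter Nat.Prime, (1 - (1 : ℝ) / l) := by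
  classical
  obtain ⟨P, hP⟩ : ∃ P, P = (range (2 ^ 2 ^ J)).filter Nat.Prime := ⟨_, rfl⟩
  rw [← hP]
  have hPp : ∀ l ∈ P, l.Prime := by intro l hl; rw [hP, mem_filter] at hl; exact hl.2
  have hfac : ∀ l : ℕ, l.Prime → 0 < 1 - (1 : ℝ) / l ∧ 1 - (1 : ℝ) / l ≤ 1 := by
    intro l hl
    have h2 : (2 : ℝ) ≤ l := by exact_mod_cast hl.two_le
    have h3 : (1 : ℝ) / l ≤ 1 / 2 := one_div_le_one_div_of_le (by norm_num) h2
    have h4 : 0 < (1 : ℝ) / l := by positivity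
    constructor <;> linarith
  obtain ⟨S, hS⟩ : ∃ S, S = P.filter (fun l => 2 < l ∧ ¬ l ∣ h) := ⟨_, rfl⟩
  obtain ⟨S', hS'⟩ : ∃ S', S' = P.filter (fun l => ¬ (2 < l ∧ ¬ l ∣ h)) := ⟨_, rfl⟩
  have hsplit : ∏ l ∈ P, (1 - (1 : ℝ) / l) = (∏ l ∈ S, (1 - (1 : ℝ) / l)) * ∏ l ∈ S', (1 - (1 : ℝ) / l) := by
    rw [hS, hS', prod_filter_mul_prod_filter_not]
  rw [← hS, hsplit]
  have hSpos : 0 < ∏ l ∈ S, (1 - (1 : ℝ) / l) := by
    apply prod_pos
    intro l hl
    rw [hS, mem_filter] at hl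
    exact (hfac l (hPp l hl.1)).1
  have hφ : (Nat.totient h : ℝ) = h * ∏ l ∈ h.primeFactors, (1 - (1 : ℝ) / l) := by
    have h1 := Nat.totient_eq_mul_prod_factors h
    have h2 := congrArg (fun q : ℚ => (q : ℝ)) h1
    push_cast at h2
    rw [h2]
    congr 1
    apply prod_congr rfl
    intro l _
    rw [one_div]
  have hh0 : (0 : ℝ) < h := by exact_mod_cast hh
  have hφ0 : (0 : ℝ) < Nat.totient h := by exact_mod_cast Nat.totient_pos.2 hh
  have hkey : (1 / 2 : ℝ) * ((Nat.totient h : ℝ) / h) ≤ ∏ l ∈ S', (1 - (1 : ℝ) / l) := by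
    have h1 : (Nat.totient h : ℝ) / h = ∏ l ∈ h.primeFactors, (1 - (1 : ℝ) / l) := by
      rw [hφ]; field_simp
    rw [h1]
    have hsub : S' ⊆ insert 2 h.primeFactors := by
      intro l hl
      rw [hS', mem_filter] at hl
      have hlp := hPp l hl.1
      rw [mem_insert]
      by_cases h2 : 2 < l
      · right
        rw [Nat.mem_primeFactors]
        refine ⟨hlp, ?_, by omega⟩
        by_contra h3
        exact hl.2 ⟨h2, h3⟩
      · left
        have := hlp.two_le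
        omega
    have h3 : ∏ l ∈ insert 2 h.primeFactors, (1 - (1 : ℝ) / l) ≤ ∏ l ∈ S', (1 - (1 : ℝ) / l) := by
      apply prod_le_prod_of_subset_of_le_one hsub
      · intro l hl
        rw [mem_insert] at hl
        rcases hl with rfl | hl
        · norm_num
        · exact (hfac l (Nat.prime_of_mem_primeFactors hl)).1.le
      · intro l hl _
        rw [mem_insert] at hl
        rcases hl with rfl | hl
        · norm_num
        · exact (hfac l (Nat.prime_of_mem_primeFactors hl)).2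
    refine le_trans ?_ h3
    by_cases h4 : 2 ∈ h.primeFactors
    · rw [insert_eq_self.2 h4]
      have h5 : 0 ≤ ∏ l ∈ h.primeFactors, (1 - (1 : ℝ) / l) :=
        prod_nonneg (fun l hl => (hfac l (Nat.prime_of_mem_primeFactors hl)).1.le)
      linarith
    · rw [prod_insert h4]
      norm_num
  have h6 : 1 ≤ 2 * ((h : ℝ) / Nat.totient h) * ∏ l ∈ S', (1 - (1 : ℝ) / l) := by
    have h7 : 2 * ((h : ℝ) / Nat.totient h) * ((1 / 2 : ℝ) * ((Nat.totient h : ℝ) / h)) = 1 := by field_simp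
    have h8 := mul_le_mul_of_nonneg_left hkey (by positivity : 0 ≤ 2 * ((h : ℝ) / Nat.totient h))
    rwa [h7] at h8
  calc ∏ l ∈ S, (1 - (1 : ℝ) / l) ≤ (∏ l ∈ S, (1 - (1 : ℝ) / l)) * (2 * ((h : ℝ) / Nat.totient h) * ∏ l ∈ S', (1 - (1 : ℝ) / l)) :=
        le_mul_of_one_le_right hSpos.le h6
    _ = _ := by ring

/-- the main term of the weights -/
theorem main_term : ∃ (b0 : ℕ) (C : ℝ), Even b0 ∧ 0 < C ∧ ∀ h J : ℕ, 1 ≤ h →
    ∑ U ∈ UU b0 h J, (-1 : ℝ) ^ U.card * ∏ l ∈ U, (2 / (l : ℝ)) ≤ C * ((h : ℝ) / Nat.totient h) ^ 2 / 4 ^ J := by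
  classical
  obtain ⟨CM, hCM, hM⟩ := mertens_group
  obtain ⟨c1, C1, hc1, hC1, hP⟩ := mertens_prod
  obtain ⟨L, hLdef⟩ : ∃ L : ℝ, L = Real.log 2 + CM := ⟨_, rfl⟩
  have hlog2 : 0 < Real.log 2 := Real.log_pos (by norm_num)
  have hL0 : 0 < L := by rw [hLdef]; linarith
  have hLs : ∀ i : ℕ, ∑ l ∈ Gj (i + 1), (1 : ℝ) / l ≤ L := by
    intro i
    have h1 := (abs_le.1 (hM (i + 1) (by omega))).2
    have h2 : CM / 2 ^ (i + 1) ≤ CM := div_le_self hCM.le (one_le_pow₀ (by norm_num))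
    rw [hLdef]; linarith
  obtain ⟨v, hv⟩ : ∃ v : ℝ, v = Real.exp (-(4 * L)) := ⟨_, rfl⟩
  have hv0 : 0 < v := by rw [hv]; exact Real.exp_pos _
  obtain ⟨b0, hb0, htail⟩ := bh_tail (2 * L) (v / 2) (by linarith) (by linarith)
  refine ⟨b0, 4 * C1 ^ 2 * Real.exp (1 / 2), hb0, by positivity, fun h J hh => ?_⟩
  obtain ⟨g, hg⟩ : ∃ g : ℕ → ℝ, g = fun (l : ℕ) => 2 / (l : ℝ) := ⟨_, rfl⟩
  obtain ⟨b, hbdef⟩ : ∃ b : Fin J → ℕ, b = fun (i : Fin J) => b0 + 2 * (J - 1 - (i : ℕ)) := ⟨_, rfl⟩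
  have hb : ∀ i, Even (b i) := fun i => by rw [hbdef]; exact hb0.add (even_two_mul _)
  have hPp : ∀ i : Fin J, ∀ l ∈ Ph h J i, l.Prime ∧ (3 : ℝ) ≤ l := by
    intro i l hl
    unfold Ph at hl
    rw [mem_filter] at hl
    exact ⟨(bh_Gj_mem hl.1).1, by exact_mod_cast hl.2.1⟩
  have hgb : ∀ i : Fin J, ∀ l ∈ Ph h J i, 0 ≤ g l ∧ g l ≤ 2 / 3 := by
    intro i l hl
    have h3 := (hPp i l hl).2
    rw [hg]
    refine ⟨by positivity, ?_⟩
    exact div_le_div_of_nonneg_left (by norm_num) (by norm_num) h3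
  obtain ⟨V, hV⟩ : ∃ V : Fin J → ℝ, V = fun i => ∏ l ∈ Ph h J i, (1 - g l) := ⟨_, rfl⟩
  obtain ⟨Tr, hTr⟩ : ∃ Tr : Fin J → ℝ, Tr = fun i => bhA g (b i) (Ph h J i) := ⟨_, rfl⟩
  obtain ⟨Er, hEr⟩ : ∃ Er : Fin J → ℝ, Er = fun i => bhE g (b i + 1) (Ph h J i) := ⟨_, rfl⟩
  have hlhs : ∑ U ∈ UU b0 h J, (-1 : ℝ) ^ U.card * ∏ l ∈ U, (2 / (l : ℝ)) = ∏ i, Tr i := by
    rw [sum_UU]
    have h1 : ∏ i, Tr i = ∏ i : Fin J, ∑ U ∈ Fh b0 h J i, (-1 : ℝ) ^ U.card * ∏ l ∈ U, g l := by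
      apply prod_congr rfl
      intro i _
      rw [hTr, hbdef]
      rfl
    rw [h1, prod_univ_sum]
    apply sum_congr rfl
    intro T hT
    rw [prod_mul_distrib, bh_pT_eq T (fun i => Fh_sub' hT i) g, bh_card T (fun i => Fh_sub' hT i), prod_pow_eq_pow_sum, hg]
  rw [hlhs]
  have hbonf : ∀ i, V i ≤ Tr i ∧ Tr i ≤ V i + Er i := by
    intro i
    have h1 := bh_bonf g (Ph h J i) (fun l hl => ⟨(hgb i l hl).1, by linarith [(hgb i l hl).2]⟩) (b i)
    rw [(hb i).neg_one_pow, one_mul] at h1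
    rw [hV, hTr, hEr]
    constructor
    · have := h1.1; dsimp only; linarith
    · have := h1.2; dsimp only; linarith
  have hsumg : ∀ i : Fin J, ∑ l ∈ Ph h J i, g l ≤ 2 * L := by
    intro i
    calc ∑ l ∈ Ph h J i, g l ≤ ∑ l ∈ Gj ((i : ℕ) + 1), 2 * (1 / (l : ℝ)) := by
          have h1 : ∑ l ∈ Ph h J i, g l = ∑ l ∈ Ph h J i, 2 * (1 / (l : ℝ)) := by
            apply sum_congr rfl
            intro l _
            rw [hg]
            dsimp only
            ring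
          rw [h1]
          apply sum_le_sum_of_subset_of_nonneg
          · unfold Ph; exact filter_subset _ _
          · intro l _ _; positivity
      _ = 2 * ∑ l ∈ Gj ((i : ℕ) + 1), 1 / (l : ℝ) := by rw [mul_sum]
      _ ≤ 2 * L := by linarith [hLs i]
  have hVv : ∀ i, v ≤ V i := by
    intro i
    rw [hV, hv]
    have h1 : Real.exp (-(4 * L)) ≤ Real.exp (∑ l ∈ Ph h J i, (-(2 * g l))) := by
      apply Real.exp_le_exp.2
      rw [sum_neg_distrib, ← mul_sum]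
      linarith [hsumg i]
    refine h1.trans ?_
    rw [Real.exp_sum]
    apply prod_le_prod (fun _ _ => (Real.exp_pos _).le)
    intro l hl
    exact exp_le_one_sub (hgb i l hl).1 (hgb i l hl).2
  have hEr0 : ∀ i, 0 ≤ Er i := fun i => by rw [hEr]; exact bhE_nonneg _ _ _ fun l hl => (hgb i l hl).1
  have hErle : ∀ i : Fin J, Er i ≤ (2 * L) ^ (b0 + 2 * (J - 1 - (i : ℕ)) + 1) / (b0 + 2 * (J - 1 - (i : ℕ)) + 1).factorial := by
    intro i
    rw [hEr, hbdef]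
    refine (bhE_le g (Ph h J i) (fun l hl => (hgb i l hl).1) _).trans ?_
    have h0 : 0 ≤ ∑ l ∈ Ph h J i, g l := sum_nonneg fun l hl => (hgb i l hl).1
    have h1 := hsumg i
    gcongr
  have hErsum : ∑ i, Er i ≤ v / 2 := (sum_le_sum fun i _ => hErle i).trans (htail J)
  have hV0 : ∀ i, 0 < V i := fun i => lt_of_lt_of_le hv0 (hVv i)
  have hTr0 : ∀ i, 0 < Tr i := fun i => lt_of_lt_of_le (hV0 i) (hbonf i).1
  have hVprod : ∏ i, V i ≤ (C1 / 2 ^ J * (2 * ((h : ℝ) / Nat.totient h))) ^ 2 := by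
    have h1 : ∏ i, V i ≤ ∏ i : Fin J, ∏ l ∈ Ph h J i, (1 - (1 : ℝ) / l) ^ 2 := by
      apply prod_le_prod (fun i _ => (hV0 i).le)
      intro i _
      rw [hV]
      apply prod_le_prod
      · intro l hl; linarith [(hgb i l hl).2]
      · intro l hl
        rw [hg]
        dsimp only
        have h3 : 0 ≤ ((1 : ℝ) / l) ^ 2 := by positivity
        have h4 : (2 : ℝ) / l = 2 * (1 / l) := by ring
        rw [h4]
        nlinarith
    have h2 : ∏ i : Fin J, ∏ l ∈ Ph h J i, (1 - (1 : ℝ) / l) ^ 2 =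
        (∏ l ∈ ((range (2 ^ 2 ^ J)).filter Nat.Prime).filter (fun l => 2 < l ∧ ¬ l ∣ h), (1 - (1 : ℝ) / l)) ^ 2 := by
      rw [bh_pT_eq (fun i : Fin J => Ph h J i) (fun i => filter_subset _ _) (fun l => (1 - (1 : ℝ) / l) ^ 2), ← prod_pow]
      apply prod_congr _ (fun _ _ => rfl)
      ext l
      constructor
      · intro hl
        have h3 := bh_mem (fun i : Fin J => Ph h J i) (fun i => filter_subset _ _) hl
        unfold bhU at hl
        rw [mem_biUnion] at hl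
        obtain ⟨i, _, hi⟩ := hl
        unfold Ph at hi
        rw [mem_filter] at hi
        rw [mem_filter, mem_filter, mem_range]
        exact ⟨⟨h3.2, h3.1⟩, hi.2⟩
      · intro hl
        rw [mem_filter, mem_filter, mem_range] at hl
        obtain ⟨i, hi⟩ := bh_cover hl.1.2 hl.1.1
        unfold bhU
        rw [mem_biUnion]
        refine ⟨i, mem_univ _, ?_⟩
        unfold Ph
        rw [mem_filter]
        exact ⟨hi, hl.2⟩
    have h5 := prod_compl h J hh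
    have h6 := (hP J).2
    have h7 : 0 ≤ ∏ l ∈ ((range (2 ^ 2 ^ J)).filter Nat.Prime).filter (fun l => 2 < l ∧ ¬ l ∣ h), (1 - (1 : ℝ) / l) := by
      apply prod_nonneg
      intro l hl
      rw [mem_filter, mem_filter] at hl
      have h8 : (1 : ℝ) ≤ l := by exact_mod_cast hl.1.2.one_le
      have h9 : (1 : ℝ) / l ≤ 1 := by rw [div_le_one (by linarith)]; exact h8
      linarith
    rw [h2] at h1
    refine h1.trans (pow_le_pow_left₀ h7 ?_ 2)
    refine h5.trans ?_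
    rw [mul_comm (C1 / 2 ^ J)]
    exact mul_le_mul_of_nonneg_left h6 (by positivity)
  have hA : ∏ i, Tr i ≤ (∏ i, V i) * Real.exp (1 / 2) := by
    have h1 : ∏ i, Tr i ≤ ∏ i, V i * Real.exp (Er i / v) := by
      refine prod_le_prod (fun i _ => (hTr0 i).le) fun i _ => ?_
      refine (hbonf i).2.trans ?_
      have h2 := Real.add_one_le_exp (Er i / v)
      have h3 : V i * (Er i / v + 1) ≤ V i * Real.exp (Er i / v) := mul_le_mul_of_nonneg_left h2 (hV0 i).le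
      refine le_trans ?_ h3
      have h4 : Er i ≤ V i * (Er i / v) := by
        rw [← mul_div_assoc, le_div_iff₀ hv0, mul_comm (V i)]
        exact mul_le_mul_of_nonneg_left (hVv i) (hEr0 i)
      linarith
    rw [prod_mul_distrib, ← Real.exp_sum, ← sum_div] at h1
    have h5 : (∑ i, Er i) / v ≤ 1 / 2 := by rw [div_le_iff₀ hv0]; linarith
    have h6 : Real.exp ((∑ i, Er i) / v) ≤ Real.exp (1 / 2) := Real.exp_le_exp.2 h5
    exact h1.trans (mul_le_mul_of_nonneg_left h6 (prod_nonneg (fun i _ => (hV0 i).le)))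
  refine hA.trans ?_
  have h8 := mul_le_mul_of_nonneg_right hVprod (Real.exp_pos (1 / 2)).le
  refine h8.trans (le_of_eq ?_)
  have h4 : (4 : ℝ) ^ J = (2 ^ J) ^ 2 := by rw [← pow_mul, mul_comm, pow_mul]; norm_num
  rw [h4]
  field_simp
  ring

end Pool.Agent.J4H33.W
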