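import Pool.Agent.J4H33.W1

/-!
# The sums with greatest common divisors
-/

set_option autoImplicit false

namespace Pool.Agent.J4H33.W

open Finset
open Pool.Agent.Helper112.LP

theorem pair_sum (P : Finset ℕ) (f f' k : ℕ → ℝ) :
    ∑ U ∈ P.powerset, ∑ U' ∈ P.powerset, (∏ l ∈ U, f l) * (∏ l ∈ U', f' l) * (∏ l ∈ U ∩ U', k l) =
      ∏ l ∈ P, (1 + f l + f' l + k l * f l * f' l) := by
  classical
  induction P using Finset.induction_on with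
  | empty => simp
  | insert q P hq ih =>
    rw [prod_insert hq, ← ih, sum_powerset_insert hq]
    simp_rw [sum_powerset_insert hq]
    rw [sum_add_distrib, sum_add_distrib]
    obtain ⟨S, hS⟩ : ∃ S, S = ∑ U ∈ P.powerset, ∑ U' ∈ P.powerset, (∏ l ∈ U, f l) * (∏ l ∈ U', f' l) * (∏ l ∈ U ∩ U', k l) :=
      ⟨_, rfl⟩
    have hmem : ∀ U ∈ P.powerset, q ∉ U := fun U hU h => hq (mem_powerset.1 hU h)
    have h1 : ∑ U ∈ P.powerset, ∑ U' ∈ P.powerset, (∏ l ∈ U, f l) * (∏ l ∈ insert q U', f' l) * (∏ l ∈ U ∩ insert q U', k l) =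
        f' q * S := by
      rw [hS, mul_sum]
      apply sum_congr rfl
      intro U hU
      rw [mul_sum]
      apply sum_congr rfl
      intro U' hU'
      rw [prod_insert (hmem U' hU'), inter_insert_of_notMem (hmem U hU)]
      ring
    have h2 : ∑ U ∈ P.powerset, ∑ U' ∈ P.powerset, (∏ l ∈ insert q U, f l) * (∏ l ∈ U', f' l) * (∏ l ∈ insert q U ∩ U', k l) =
        f q * S := by
      rw [hS, mul_sum]
      apply sum_congr rfl
      intro U hU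
      rw [mul_sum]
      apply sum_congr rfl
      intro U' hU'
      rw [prod_insert (hmem U hU), insert_inter_of_notMem (hmem U' hU')]
      ring
    have h3 : ∑ U ∈ P.powerset, ∑ U' ∈ P.powerset, (∏ l ∈ insert q U, f l) * (∏ l ∈ insert q U', f' l) *
        (∏ l ∈ insert q U ∩ insert q U', k l) = k q * f q * f' q * S := by
      rw [hS, mul_sum]
      apply sum_congr rfl
      intro U hU
      rw [mul_sum]
      apply sum_congr rfl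
      intro U' hU'
      have h4 : q ∉ U ∩ U' := fun h => hmem U hU (mem_inter.1 h).1
      rw [prod_insert (hmem U hU), prod_insert (hmem U' hU'), ← insert_inter_distrib, prod_insert h4]
      ring
    rw [h1, h2, h3, ← hS]
    ring

theorem gcd_prod_primes (U U' : Finset ℕ) (hU : ∀ l ∈ U, l.Prime) (hU' : ∀ l ∈ U', l.Prime) :
    Nat.gcd (∏ l ∈ U, l) (∏ l ∈ U', l) ∣ ∏ l ∈ U ∩ U', l := by
  classical
  have h1 : ∏ l ∈ U, l = (∏ l ∈ U ∩ U', l) * ∏ l ∈ U \ U', l := by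
    rw [← prod_inter_mul_prod_sdiff]
  rw [h1]
  have h2 : Nat.Coprime (∏ l ∈ U \ U', l) (∏ l ∈ U', l) := by
    rw [Nat.coprime_prod_left_iff]
    intro l hl
    rw [Nat.coprime_prod_right_iff]
    intro l' hl'
    rw [mem_sdiff] at hl
    exact (Nat.coprime_primes (hU l hl.1) (hU' l' hl')).2 (fun h => hl.2 (h ▸ hl'))
  rw [Nat.Coprime.gcd_mul_right_cancel _ h2]
  exact Nat.gcd_dvd_left _ _

theorem gcd_prime (a : ℕ) (ha : a.Prime) (U : Finset ℕ) (hU : ∀ l ∈ U, l.Prime) :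
    Nat.gcd a (∏ l ∈ U, l) ≤ ∏ l ∈ U, (if l = a then l else 1) := by
  classical
  by_cases h : a ∈ U
  · have h1 : ∏ l ∈ U, (if l = a then l else 1) = a := by
      rw [prod_ite_eq' U a (fun l => l), if_pos h]
    rw [h1]
    exact Nat.gcd_le_left _ ha.pos
  · have h1 : Nat.Coprime a (∏ l ∈ U, l) := by
      rw [Nat.coprime_prod_right_iff]
      intro l hl
      exact (Nat.coprime_primes ha (hU l hl)).2 (fun h2 => h (h2 ▸ hl))
    rw [h1.gcd_eq_one]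
    apply Nat.one_le_iff_ne_zero.2
    rw [prod_ne_zero_iff]
    intro l hl
    split_ifs
    · exact (hU l hl).ne_zero
    · exact one_ne_zero

theorem gcd_split (a b d d' : ℕ) (ha : a.Prime) (hb : b.Prime) (hab : a ≠ b) (hd : 0 < d) (hd' : 0 < d') :
    Nat.gcd (b * d) (a * d') ≤ Nat.gcd a d * Nat.gcd b d' * Nat.gcd d d' := by
  have h1 : Nat.gcd (b * d) (a * d') ∣ Nat.gcd (b * d) a * Nat.gcd (b * d) d' := Nat.gcd_mul_right_dvd_mul_gcd _ _ _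
  have h2 : Nat.gcd (b * d) a ∣ Nat.gcd a d := by
    rw [Nat.gcd_comm (b * d) a]
    have h3 := Nat.gcd_mul_right_dvd_mul_gcd a b d
    rw [((Nat.coprime_primes ha hb).2 hab).gcd_eq_one, one_mul] at h3
    exact h3
  have h4 : Nat.gcd (b * d) d' ∣ Nat.gcd b d' * Nat.gcd d d' := by
    rw [Nat.gcd_comm (b * d) d', Nat.gcd_comm b d', Nat.gcd_comm d d']
    exact Nat.gcd_mul_right_dvd_mul_gcd _ _ _
  have h5 : Nat.gcd (b * d) (a * d') ∣ Nat.gcd a d * Nat.gcd b d' * Nat.gcd d d' := by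
    rw [mul_assoc]
    exact h1.trans (mul_dvd_mul h2 h4)
  apply Nat.le_of_dvd _ h5
  have e1 : 0 < Nat.gcd a d := Nat.gcd_pos_of_pos_right _ hd
  have e2 : 0 < Nat.gcd b d' := Nat.gcd_pos_of_pos_right _ hd'
  have e3 : 0 < Nat.gcd d d' := Nat.gcd_pos_of_pos_left _ hd
  positivity

/-- the primes below `2 ^ 2 ^ J` -/
noncomputable def PR (J : ℕ) : Finset ℕ := (range (2 ^ 2 ^ J)).filter Nat.Prime

theorem UU_sub (b0 h J : ℕ) : UU b0 h J ⊆ (PR J).powerset := by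
  intro U hU
  rw [mem_powerset]
  intro l hl
  have h1 := mem_UU hU l hl
  unfold PR
  rw [mem_filter, mem_range]
  exact ⟨h1.2.2.2, h1.1⟩

theorem PR_prime {J l : ℕ} (hl : l ∈ PR J) : l.Prime := by
  unfold PR at hl
  exact (mem_filter.1 hl).2

theorem local_ne (a b J : ℕ) (hab : a ≠ b) :
    ∏ l ∈ PR J, (1 + 2 / (l : ℝ) * (if l = a then (l : ℝ) else 1) + 2 / (l : ℝ) * (if l = b then (l : ℝ) else 1) +
      (l : ℝ) * (2 / (l : ℝ) * (if l = a then (l : ℝ) else 1)) * (2 / (l : ℝ) * (if l = b then (l : ℝ) else 1))) ≤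
      64 * ∏ l ∈ PR J, (1 + 8 / (l : ℝ)) := by
  classical
  have h1 : ∏ l ∈ PR J, (1 + 2 / (l : ℝ) * (if l = a then (l : ℝ) else 1) + 2 / (l : ℝ) * (if l = b then (l : ℝ) else 1) +
      (l : ℝ) * (2 / (l : ℝ) * (if l = a then (l : ℝ) else 1)) * (2 / (l : ℝ) * (if l = b then (l : ℝ) else 1))) ≤
      ∏ l ∈ PR J, ((1 + 8 / (l : ℝ)) * ((if l = a then (8 : ℝ) else 1) * (if l = b then (8 : ℝ) else 1))) := by
    apply prod_le_prod
    · intro l _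
      split_ifs <;> positivity
    · intro l hl
      have hl2 : (2 : ℝ) ≤ l := by exact_mod_cast (PR_prime hl).two_le
      have hl0 : (0 : ℝ) < l := by linarith
      have h8 : 0 ≤ 8 / (l : ℝ) := by positivity
      have h2 : 2 / (l : ℝ) ≤ 1 := by rw [div_le_one hl0]; exact hl2
      have h3 : 8 / (l : ℝ) = 4 * (2 / (l : ℝ)) := by ring
      have h4 : (l : ℝ) * (2 / (l : ℝ)) = 2 := by field_simp
      by_cases hla : l = a
      · by_cases hlb : l = b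
        · exact absurd (hla.symm.trans hlb) hab
        · simp only [if_pos hla, if_neg hlb]
          have e1 : 2 / (l : ℝ) * (l : ℝ) = 2 := by field_simp
          have e2 : (l : ℝ) * (2 / (l : ℝ) * (l : ℝ)) * (2 / (l : ℝ) * 1) = 4 := by field_simp; norm_num
          rw [e2, e1]
          nlinarith
      · by_cases hlb : l = b
        · simp only [if_neg hla, if_pos hlb]
          have e1 : 2 / (l : ℝ) * (l : ℝ) = 2 := by field_simp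
          have e2 : (l : ℝ) * (2 / (l : ℝ) * 1) * (2 / (l : ℝ) * (l : ℝ)) = 4 := by field_simp; norm_num
          rw [e2, e1]
          nlinarith
        · simp only [if_neg hla, if_neg hlb]
          have e2 : (l : ℝ) * (2 / (l : ℝ) * 1) * (2 / (l : ℝ) * 1) = 2 * (2 / (l : ℝ)) := by field_simp
          rw [e2]
          linarith
  refine h1.trans ?_
  rw [prod_mul_distrib, prod_mul_distrib, mul_comm]
  have h5 : ∀ c : ℕ, ∏ l ∈ PR J, (if l = c then (8 : ℝ) else 1) ≤ 8 := by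
    intro c
    rw [prod_ite_eq' (PR J) c (fun _ => (8 : ℝ))]
    split_ifs <;> norm_num
  have h6 : ∀ c : ℕ, 0 ≤ ∏ l ∈ PR J, (if l = c then (8 : ℝ) else 1) := fun c => prod_nonneg (fun l _ => by split_ifs <;> norm_num)
  have h7 : (∏ l ∈ PR J, (if l = a then (8 : ℝ) else 1)) * ∏ l ∈ PR J, (if l = b then (8 : ℝ) else 1) ≤ 64 := by
    calc (∏ l ∈ PR J, (if l = a then (8 : ℝ) else 1)) * ∏ l ∈ PR J, (if l = b then (8 : ℝ) else 1) ≤ 8 * 8 :=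
          mul_le_mul (h5 a) (h5 b) (h6 b) (by norm_num)
      _ = 64 := by norm_num
  exact mul_le_mul_of_nonneg_right h7 (prod_nonneg (fun l _ => by positivity))

theorem pair_bound_ne (b0 h J a b : ℕ) (ha : a.Prime) (hb : b.Prime) (hab : a ≠ b) :
    ∑ U ∈ UU b0 h J, ∑ U' ∈ UU b0 h J, (2 : ℝ) ^ U.card * (2 : ℝ) ^ U'.card *
      (((Nat.gcd (b * ∏ l ∈ U, l) (a * ∏ l ∈ U', l) : ℕ) : ℝ) / (((∏ l ∈ U, l : ℕ) : ℝ) * ((∏ l ∈ U', l : ℕ) : ℝ))) ≤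
      64 * ∏ l ∈ PR J, (1 + 8 / (l : ℝ)) := by
  classical
  refine le_trans ?_ (local_ne a b J hab)
  rw [← pair_sum]
  have hterm : ∀ U ∈ UU b0 h J, ∀ U' ∈ UU b0 h J, (2 : ℝ) ^ U.card * (2 : ℝ) ^ U'.card *
      (((Nat.gcd (b * ∏ l ∈ U, l) (a * ∏ l ∈ U', l) : ℕ) : ℝ) / (((∏ l ∈ U, l : ℕ) : ℝ) * ((∏ l ∈ U', l : ℕ) : ℝ))) ≤
      (∏ l ∈ U, (2 / (l : ℝ) * (if l = a then (l : ℝ) else 1))) * (∏ l ∈ U', (2 / (l : ℝ) * (if l = b then (l : ℝ) else 1))) *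
        ∏ l ∈ U ∩ U', (l : ℝ) := by
    intro U hU U' hU'
    have hUp : ∀ l ∈ U, l.Prime := fun l hl => (mem_UU hU l hl).1
    have hUp' : ∀ l ∈ U', l.Prime := fun l hl => (mem_UU hU' l hl).1
    have hd : 0 < ∏ l ∈ U, l := prod_pos (fun l hl => (hUp l hl).pos)
    have hd' : 0 < ∏ l ∈ U', l := prod_pos (fun l hl => (hUp' l hl).pos)
    have h1 := gcd_split a b _ _ ha hb hab hd hd'
    have h2 := gcd_prime a ha U hUp
    have h3 := gcd_prime b hb U' hUp'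
    have h4 : Nat.gcd (∏ l ∈ U, l) (∏ l ∈ U', l) ≤ ∏ l ∈ U ∩ U', l := by
      apply Nat.le_of_dvd _ (gcd_prod_primes U U' hUp hUp')
      exact prod_pos (fun l hl => (hUp l (mem_inter.1 hl).1).pos)
    have h5 : Nat.gcd (b * ∏ l ∈ U, l) (a * ∏ l ∈ U', l) ≤
        (∏ l ∈ U, (if l = a then l else 1)) * (∏ l ∈ U', (if l = b then l else 1)) * ∏ l ∈ U ∩ U', l :=
      h1.trans (Nat.mul_le_mul (Nat.mul_le_mul h2 h3) h4)
    have h6 : ((Nat.gcd (b * ∏ l ∈ U, l) (a * ∏ l ∈ U', l) : ℕ) : ℝ) ≤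
        (∏ l ∈ U, (if l = a then (l : ℝ) else 1)) * (∏ l ∈ U', (if l = b then (l : ℝ) else 1)) * ∏ l ∈ U ∩ U', (l : ℝ) := by
      have h7 : ((Nat.gcd (b * ∏ l ∈ U, l) (a * ∏ l ∈ U', l) : ℕ) : ℝ) ≤
        (((∏ l ∈ U, (if l = a then l else 1)) * (∏ l ∈ U', (if l = b then l else 1)) * ∏ l ∈ U ∩ U', l : ℕ) : ℝ) := by
        exact_mod_cast h5
      push_cast at h7
      exact h7
    have h8 : (0 : ℝ) < ((∏ l ∈ U, l : ℕ) : ℝ) := by exact_mod_cast hd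
    have h9 : (0 : ℝ) < ((∏ l ∈ U', l : ℕ) : ℝ) := by exact_mod_cast hd'
    rw [prod_mul_distrib, prod_mul_distrib, prod_div_distrib, prod_div_distrib, prod_const, prod_const]
    have e1 : ((∏ l ∈ U, l : ℕ) : ℝ) = ∏ l ∈ U, (l : ℝ) := by push_cast; rfl
    have e2 : ((∏ l ∈ U', l : ℕ) : ℝ) = ∏ l ∈ U', (l : ℝ) := by push_cast; rfl
    rw [e1] at h8 ⊢
    rw [e2] at h9 ⊢
    calc (2 : ℝ) ^ U.card * (2 : ℝ) ^ U'.card * (((Nat.gcd (b * ∏ l ∈ U, l) (a * ∏ l ∈ U', l) : ℕ) : ℝ) /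
          ((∏ l ∈ U, (l : ℝ)) * ∏ l ∈ U', (l : ℝ)))
        ≤ (2 : ℝ) ^ U.card * (2 : ℝ) ^ U'.card * (((∏ l ∈ U, (if l = a then (l : ℝ) else 1)) *
          (∏ l ∈ U', (if l = b then (l : ℝ) else 1)) * ∏ l ∈ U ∩ U', (l : ℝ)) / ((∏ l ∈ U, (l : ℝ)) * ∏ l ∈ U', (l : ℝ))) := by
          apply mul_le_mul_of_nonneg_left _ (by positivity)
          exact div_le_div_of_nonneg_right h6 (by positivity)
      _ = _ := by
          field_simp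
  have hnn : ∀ U U' : Finset ℕ, 0 ≤ (∏ l ∈ U, (2 / (l : ℝ) * (if l = a then (l : ℝ) else 1))) *
      (∏ l ∈ U', (2 / (l : ℝ) * (if l = b then (l : ℝ) else 1))) * ∏ l ∈ U ∩ U', (l : ℝ) := by
    intro U U'
    apply mul_nonneg (mul_nonneg _ _) _
    · exact prod_nonneg (fun l _ => by split_ifs <;> positivity)
    · exact prod_nonneg (fun l _ => by split_ifs <;> positivity)
    · exact prod_nonneg (fun l _ => by positivity)
  calc ∑ U ∈ UU b0 h J, ∑ U' ∈ UU b0 h J, (2 : ℝ) ^ U.card * (2 : ℝ) ^ U'.card *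
      (((Nat.gcd (b * ∏ l ∈ U, l) (a * ∏ l ∈ U', l) : ℕ) : ℝ) / (((∏ l ∈ U, l : ℕ) : ℝ) * ((∏ l ∈ U', l : ℕ) : ℝ)))
      ≤ ∑ U ∈ UU b0 h J, ∑ U' ∈ UU b0 h J, (∏ l ∈ U, (2 / (l : ℝ) * (if l = a then (l : ℝ) else 1))) *
      (∏ l ∈ U', (2 / (l : ℝ) * (if l = b then (l : ℝ) else 1))) * ∏ l ∈ U ∩ U', (l : ℝ) :=
        sum_le_sum (fun U hU => sum_le_sum (fun U' hU' => hterm U hU U' hU'))
    _ ≤ ∑ U ∈ UU b0 h J, ∑ U' ∈ (PR J).powerset, (∏ l ∈ U, (2 / (l : ℝ) * (if l = a then (l : ℝ) else 1))) *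
      (∏ l ∈ U', (2 / (l : ℝ) * (if l = b then (l : ℝ) else 1))) * ∏ l ∈ U ∩ U', (l : ℝ) :=
        sum_le_sum (fun U _ => sum_le_sum_of_subset_of_nonneg (UU_sub b0 h J) (fun U' _ _ => hnn U U'))
    _ ≤ _ := sum_le_sum_of_subset_of_nonneg (UU_sub b0 h J) (fun U _ _ => sum_nonneg (fun U' _ => hnn U U'))

theorem pair_bound_eq (b0 h J a : ℕ) :
    ∑ U ∈ UU b0 h J, ∑ U' ∈ UU b0 h J, (2 : ℝ) ^ U.card * (2 : ℝ) ^ U'.card *
      (((Nat.gcd (a * ∏ l ∈ U, l) (a * ∏ l ∈ U', l) : ℕ) : ℝ) / (((∏ l ∈ U, l : ℕ) : ℝ) * ((∏ l ∈ U', l : ℕ) : ℝ))) ≤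
      a * ∏ l ∈ PR J, (1 + 8 / (l : ℝ)) := by
  classical
  have hloc : ∏ l ∈ PR J, (1 + 8 / (l : ℝ)) = ∏ l ∈ PR J, (1 + 2 / (l : ℝ) + 2 / (l : ℝ) + (l : ℝ) * (2 / (l : ℝ)) * (2 / (l : ℝ))) := by
    apply prod_congr rfl
    intro l hl
    have hl0 : (0 : ℝ) < l := by exact_mod_cast (PR_prime hl).pos
    field_simp
    ring
  rw [hloc, ← pair_sum, mul_sum]
  have hterm : ∀ U ∈ UU b0 h J, ∀ U' ∈ UU b0 h J, (2 : ℝ) ^ U.card * (2 : ℝ) ^ U'.card *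
      (((Nat.gcd (a * ∏ l ∈ U, l) (a * ∏ l ∈ U', l) : ℕ) : ℝ) / (((∏ l ∈ U, l : ℕ) : ℝ) * ((∏ l ∈ U', l : ℕ) : ℝ))) ≤
      a * ((∏ l ∈ U, (2 / (l : ℝ))) * (∏ l ∈ U', (2 / (l : ℝ))) * ∏ l ∈ U ∩ U', (l : ℝ)) := by
    intro U hU U' hU'
    have hUp : ∀ l ∈ U, l.Prime := fun l hl => (mem_UU hU l hl).1
    have hUp' : ∀ l ∈ U', l.Prime := fun l hl => (mem_UU hU' l hl).1
    have hd : 0 < ∏ l ∈ U, l := prod_pos (fun l hl => (hUp l hl).pos)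
    have hd' : 0 < ∏ l ∈ U', l := prod_pos (fun l hl => (hUp' l hl).pos)
    have h4 : Nat.gcd (∏ l ∈ U, l) (∏ l ∈ U', l) ≤ ∏ l ∈ U ∩ U', l := by
      apply Nat.le_of_dvd _ (gcd_prod_primes U U' hUp hUp')
      exact prod_pos (fun l hl => (hUp l (mem_inter.1 hl).1).pos)
    have h6 : ((Nat.gcd (a * ∏ l ∈ U, l) (a * ∏ l ∈ U', l) : ℕ) : ℝ) ≤ a * ∏ l ∈ U ∩ U', (l : ℝ) := by
      rw [Nat.gcd_mul_left]
      push_cast
      apply mul_le_mul_of_nonneg_left _ (Nat.cast_nonneg _)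
      have h7 : ((Nat.gcd (∏ l ∈ U, l) (∏ l ∈ U', l) : ℕ) : ℝ) ≤ ((∏ l ∈ U ∩ U', l : ℕ) : ℝ) := by exact_mod_cast h4
      push_cast at h7
      exact h7
    have h8 : (0 : ℝ) < ((∏ l ∈ U, l : ℕ) : ℝ) := by exact_mod_cast hd
    have h9 : (0 : ℝ) < ((∏ l ∈ U', l : ℕ) : ℝ) := by exact_mod_cast hd'
    rw [prod_div_distrib, prod_div_distrib, prod_const, prod_const]
    have e1 : ((∏ l ∈ U, l : ℕ) : ℝ) = ∏ l ∈ U, (l : ℝ) := by push_cast; rfl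
    have e2 : ((∏ l ∈ U', l : ℕ) : ℝ) = ∏ l ∈ U', (l : ℝ) := by push_cast; rfl
    rw [e1] at h8 ⊢
    rw [e2] at h9 ⊢
    calc (2 : ℝ) ^ U.card * (2 : ℝ) ^ U'.card * (((Nat.gcd (a * ∏ l ∈ U, l) (a * ∏ l ∈ U', l) : ℕ) : ℝ) /
          ((∏ l ∈ U, (l : ℝ)) * ∏ l ∈ U', (l : ℝ)))
        ≤ (2 : ℝ) ^ U.card * (2 : ℝ) ^ U'.card * ((a * ∏ l ∈ U ∩ U', (l : ℝ)) / ((∏ l ∈ U, (l : ℝ)) * ∏ l ∈ U', (l : ℝ))) := by
          apply mul_le_mul_of_nonneg_left _ (by positivity)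
          exact div_le_div_of_nonneg_right h6 (by positivity)
      _ = _ := by
          field_simp
  have hnn : ∀ U U' : Finset ℕ, 0 ≤ (∏ l ∈ U, (2 / (l : ℝ))) * (∏ l ∈ U', (2 / (l : ℝ))) * ∏ l ∈ U ∩ U', (l : ℝ) := by
    intro U U'
    positivity
  calc ∑ U ∈ UU b0 h J, ∑ U' ∈ UU b0 h J, (2 : ℝ) ^ U.card * (2 : ℝ) ^ U'.card *
      (((Nat.gcd (a * ∏ l ∈ U, l) (a * ∏ l ∈ U', l) : ℕ) : ℝ) / (((∏ l ∈ U, l : ℕ) : ℝ) * ((∏ l ∈ U', l : ℕ) : ℝ)))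
      ≤ ∑ U ∈ UU b0 h J, ∑ U' ∈ UU b0 h J, a * ((∏ l ∈ U, (2 / (l : ℝ))) * (∏ l ∈ U', (2 / (l : ℝ))) * ∏ l ∈ U ∩ U', (l : ℝ)) :=
        sum_le_sum (fun U hU => sum_le_sum (fun U' hU' => hterm U hU U' hU'))
    _ ≤ ∑ U ∈ UU b0 h J, ∑ U' ∈ (PR J).powerset, a * ((∏ l ∈ U, (2 / (l : ℝ))) * (∏ l ∈ U', (2 / (l : ℝ))) * ∏ l ∈ U ∩ U', (l : ℝ)) :=
        sum_le_sum (fun U _ => sum_le_sum_of_subset_of_nonneg (UU_sub b0 h J)
          (fun U' _ _ => mul_nonneg (Nat.cast_nonneg _) (hnn U U')))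
    _ ≤ ∑ U ∈ (PR J).powerset, ∑ U' ∈ (PR J).powerset, a * ((∏ l ∈ U, (2 / (l : ℝ))) * (∏ l ∈ U', (2 / (l : ℝ))) * ∏ l ∈ U ∩ U', (l : ℝ)) :=
        sum_le_sum_of_subset_of_nonneg (UU_sub b0 h J)
          (fun U _ _ => sum_nonneg (fun U' _ => mul_nonneg (Nat.cast_nonneg _) (hnn U U')))
    _ = _ := by
        apply sum_congr rfl
        intro U _
        rw [mul_sum]

/-- the size of the product -/
theorem PR_prod : ∃ C : ℝ, 0 < C ∧ ∀ J : ℕ, ∏ l ∈ PR J, (1 + 8 / (l : ℝ)) ≤ C * 256 ^ J := by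
  obtain ⟨c1, C1, hc1, hC1, hP⟩ := mertens_prod
  refine ⟨(1 / c1) ^ 8, by positivity, fun J => ?_⟩
  obtain ⟨V, hV⟩ : ∃ V : ℝ, V = ∏ l ∈ PR J, (1 - (1 : ℝ) / l) := ⟨_, rfl⟩
  have h1 : c1 / 2 ^ J ≤ V := by rw [hV]; exact (hP J).1
  have hV0 : 0 < V := lt_of_lt_of_le (by positivity) h1
  have h2 : (∏ l ∈ PR J, (1 + 8 / (l : ℝ))) * V ^ 8 ≤ 1 := by
    rw [hV, ← prod_pow, ← prod_mul_distrib]
    apply prod_le_one
    · intro l hl
      positivity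
    · intro l hl
      have hl2 : (2 : ℝ) ≤ l := by exact_mod_cast (PR_prime hl).two_le
      obtain ⟨x, hx⟩ : ∃ x : ℝ, x = 1 / (l : ℝ) := ⟨_, rfl⟩
      have hx0 : 0 < x := by rw [hx]; positivity
      have hx1 : x ≤ 1 / 2 := by rw [hx]; exact one_div_le_one_div_of_le (by norm_num) hl2
      have e1 : 8 / (l : ℝ) = 8 * x := by rw [hx]; ring
      rw [e1, ← hx]
      have h3 : 1 + 8 * x ≤ (1 + x) ^ 8 := by
        have := one_add_mul_le_pow (by linarith : (-2 : ℝ) ≤ x) 8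
        exact_mod_cast this
      have h4 : 0 ≤ (1 - x) ^ 8 := by positivity
      calc (1 + 8 * x) * (1 - x) ^ 8 ≤ (1 + x) ^ 8 * (1 - x) ^ 8 := mul_le_mul_of_nonneg_right h3 h4
        _ = (1 - x ^ 2) ^ 8 := by rw [← mul_pow]; ring
        _ ≤ 1 := pow_le_one₀ (by nlinarith) (by nlinarith)
  have h3 : (c1 / 2 ^ J) ^ 8 ≤ V ^ 8 := pow_le_pow_left₀ (by positivity) h1 8
  have h4 : 0 ≤ ∏ l ∈ PR J, (1 + 8 / (l : ℝ)) := prod_nonneg (fun l _ => by positivity)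
  have h5 : (∏ l ∈ PR J, (1 + 8 / (l : ℝ))) * (c1 / 2 ^ J) ^ 8 ≤ 1 := (mul_le_mul_of_nonneg_left h3 h4).trans h2
  have h6 : (256 : ℝ) ^ J = (2 ^ J) ^ 8 := by rw [← pow_mul, mul_comm, pow_mul]; norm_num
  have h7 : 0 < (c1 / 2 ^ J) ^ 8 := by positivity
  rw [← le_div_iff₀ h7] at h5
  refine h5.trans (le_of_eq ?_)
  rw [h6]
  field_simp

end Pool.Agent.J4H33.W
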