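import Pool.Agent.J4H33.W2
import Pool.Agent.J4H33.W3
import Pool.Agent.J4H33.V4

/-!
# The sieve majorant on windows, and its variance over dilates
-/

set_option autoImplicit false

namespace Pool.Agent.J4H33.W

open Finset
open Pool.Agent.J4H33.V (lat mem_lat card_lat)

theorem crt (h : ℕ) (U S : Finset ℕ) (hU : ∀ l ∈ U, l.Prime) (hS : S ⊆ U) :
    ∃ ρ : ℤ, ∀ n : ℤ, ((∀ l ∈ S, (l : ℤ) ∣ n) ∧ (∀ l ∈ U \ S, (l : ℤ) ∣ n + h)) ↔ ((∏ l ∈ U, l : ℕ) : ℤ) ∣ n - ρ := by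
  classical
  obtain ⟨k, hk⟩ := Nat.chineseRemainderOfFinset (fun l => if l ∈ S then 0 else l * h - h) (fun l => l) U
    (fun l hl => (hU l hl).ne_zero) (fun l hl l' hl' hne =>
      (Nat.coprime_primes (hU l (mem_coe.1 hl)) (hU l' (mem_coe.1 hl'))).2 hne)
  refine ⟨k, fun n => ?_⟩
  have hl : ∀ l ∈ U, ((l : ℤ) ∣ n - k ↔ if l ∈ S then (l : ℤ) ∣ n else (l : ℤ) ∣ n + h) := by
    intro l hlU
    have h1 := hk l hlU
    have h2 : (l : ℤ) ∣ (k : ℤ) - ((if l ∈ S then 0 else l * h - h : ℕ) : ℤ) := by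
      have h3 := (Nat.modEq_iff_dvd.1 h1)
      have h4 := (dvd_neg.2 h3)
      rw [neg_sub] at h4
      exact h4
    by_cases hlS : l ∈ S
    · rw [if_pos hlS] at h2 ⊢
      rw [Nat.cast_zero, sub_zero] at h2
      exact ⟨fun h3 => by have := dvd_add h3 h2; rwa [sub_add_cancel] at this, fun h3 => dvd_sub h3 h2⟩
    · rw [if_neg hlS] at h2 ⊢
      have h3 : ((l * h - h : ℕ) : ℤ) = (l : ℤ) * h - h := by
        have : h ≤ l * h := Nat.le_mul_of_pos_left _ (hU l hlU).pos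
        push_cast [Nat.cast_sub this]
        ring
      rw [h3] at h2
      have h5 : (l : ℤ) ∣ (k : ℤ) + h := by
        have h6 := dvd_add h2 (Dvd.intro (h : ℤ) rfl : (l : ℤ) ∣ (l : ℤ) * h)
        have h7 : (k : ℤ) - ((l : ℤ) * h - h) + (l : ℤ) * h = k + h := by ring
        rwa [h7] at h6
      constructor
      · intro h6
        have h7 := dvd_add h6 h5
        have h8 : n - (k : ℤ) + (k + h) = n + h := by ring
        rwa [h8] at h7
      · intro h6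
        have h7 := dvd_sub h6 h5
        have h8 : n + (h : ℤ) - (k + h) = n - k := by ring
        rwa [h8] at h7
  have hprod : ((∏ l ∈ U, l : ℕ) : ℤ) ∣ n - k ↔ ∀ l ∈ U, (l : ℤ) ∣ n - k := by
    constructor
    · intro h1 l hlU
      have h2 : ((l : ℕ) : ℤ) ∣ ((∏ l ∈ U, l : ℕ) : ℤ) := by
        exact_mod_cast dvd_prod_of_mem (fun l => l) hlU
      exact h2.trans h1
    · intro h1
      rw [Int.natCast_dvd]
      apply Finset.prod_primes_dvd
      · intro l hlU; exact (hU l hlU).prime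
      · intro l hlU
        exact Int.natCast_dvd.1 (h1 l hlU)
  rw [hprod]
  constructor
  · rintro ⟨h1, h2⟩ l hlU
    rw [hl l hlU]
    split_ifs with h3
    · exact h1 l h3
    · exact h2 l (mem_sdiff.2 ⟨hlU, h3⟩)
  · intro h1
    constructor
    · intro l hlS
      have h2 := (hl l (hS hlS)).1 (h1 l (hS hlS))
      rwa [if_pos hlS] at h2
    · intro l hlU
      rw [mem_sdiff] at hlU
      have h2 := (hl l hlU.1).1 (h1 l hlU.1)
      rwa [if_neg hlU.2] at h2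

theorem split_roots (h : ℕ) (U : Finset ℕ) (hU : ∀ l ∈ U, l.Prime ∧ ¬ l ∣ h) (n : ℤ) :
    (if (∀ l ∈ U, l ∣ (n * (n + h)).natAbs) then (1 : ℝ) else 0) =
      ∑ S ∈ U.powerset, if ((∀ l ∈ S, (l : ℤ) ∣ n) ∧ ∀ l ∈ U \ S, (l : ℤ) ∣ n + h) then (1 : ℝ) else 0 := by
  classical
  by_cases hall : ∀ l ∈ U, l ∣ (n * (n + h)).natAbs
  · rw [if_pos hall]
    obtain ⟨S₀, hS₀⟩ : ∃ S₀ : Finset ℕ, S₀ = U.filter (fun l : ℕ => (l : ℤ) ∣ n) := ⟨_, rfl⟩
    rw [sum_eq_single_of_mem S₀ (by rw [mem_powerset, hS₀]; exact filter_subset _ _)]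
    · rw [if_pos]
      constructor
      · intro l hl
        rw [hS₀, mem_filter] at hl
        exact hl.2
      · intro l hl
        rw [mem_sdiff, hS₀, mem_filter] at hl
        have h1 : (l : ℤ) ∣ n * (n + h) := Int.natCast_dvd.2 (hall l hl.1)
        have hp : Prime (l : ℤ) := Nat.prime_iff_prime_int.1 (hU l hl.1).1
        rcases hp.dvd_or_dvd h1 with h2 | h2
        · exact absurd ⟨hl.1, h2⟩ hl.2
        · exact h2
    · intro S hS hne
      rw [if_neg]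
      rintro ⟨h1, h2⟩
      apply hne
      rw [mem_powerset] at hS
      ext l
      rw [hS₀, mem_filter]
      constructor
      · intro hl; exact ⟨hS hl, h1 l hl⟩
      · rintro ⟨hlU, hln⟩
        by_contra hlS
        have h3 := h2 l (mem_sdiff.2 ⟨hlU, hlS⟩)
        have h4 : (l : ℤ) ∣ (h : ℤ) := by
          have := dvd_sub h3 hln
          rwa [add_sub_cancel_left] at this
        exact (hU l hlU).2 (Int.natCast_dvd_natCast.1 h4)
  · rw [if_neg hall]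
    symm
    apply sum_eq_zero
    intro S hS
    rw [if_neg]
    rintro ⟨h1, h2⟩
    apply hall
    intro l hl
    rw [← Int.natCast_dvd]
    by_cases hlS : l ∈ S
    · exact Dvd.dvd.mul_right (h1 l hlS) _
    · exact Dvd.dvd.mul_left (h2 l (mem_sdiff.2 ⟨hl, hlS⟩)) _

theorem lat_shift (R x : ℝ) (ρ : ℤ) (d : ℕ) (hd : 0 < d) :
    ((lat R (x - ρ) d).card : ℝ) = ∑ n ∈ lat R x 1, if ((d : ℤ) ∣ n - ρ) then (1 : ℝ) else 0 := by
  classical
  rw [← sum_filter, sum_const, nsmul_eq_mul, mul_one]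
  congr 1
  have hd0 : (0 : ℝ) < d := by exact_mod_cast hd
  apply card_bij (fun (m : ℤ) _ => ρ + d * m)
  · intro m hm
    rw [mem_lat _ _ _ hd0] at hm
    rw [mem_filter, mem_lat _ _ _ one_pos]
    refine ⟨?_, ⟨m, by ring⟩⟩
    push_cast
    have e : x - 1 * ((ρ : ℝ) + d * m) = x - ρ - d * m := by ring
    rw [e]
    exact hm
  · intro m _ m' _ h
    have h1 : (d : ℤ) * m = d * m' := by linarith
    exact mul_left_cancel₀ (by exact_mod_cast hd.ne') h1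
  · intro n hn
    rw [mem_filter, mem_lat _ _ _ one_pos] at hn
    obtain ⟨h1, m, hm⟩ := hn
    refine ⟨m, ?_, by linarith⟩
    rw [mem_lat _ _ _ hd0]
    have h2 : (n : ℝ) = ρ + d * m := by
      have h3 : n = ρ + d * m := by linarith
      exact_mod_cast h3
    rw [h2] at h1
    have e : x - 1 * ((ρ : ℝ) + d * m) = x - ρ - d * m := by ring
    rw [e] at h1
    exact h1

/-- the majorant on a window -/
noncomputable def Gam (b0 h J : ℕ) (R x : ℝ) : ℝ := ∑ n ∈ lat R x 1, theta b0 h J (n * (n + h)).natAbs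

theorem majorant (b0 h J : ℕ) : ∃ ρ : (Σ _ : Finset ℕ, Finset ℕ) → ℤ, ∀ R x : ℝ,
    Gam b0 h J R x = ∑ τ ∈ (UU b0 h J).sigma (fun U => U.powerset),
      (-1 : ℝ) ^ τ.1.card * ((lat R (x - ρ τ) ((∏ l ∈ τ.1, l : ℕ) : ℝ)).card : ℝ) := by
  classical
  have hex : ∀ τ ∈ (UU b0 h J).sigma (fun U => U.powerset), ∃ ρ : ℤ, ∀ n : ℤ,
      ((∀ l ∈ τ.2, (l : ℤ) ∣ n) ∧ (∀ l ∈ τ.1 \ τ.2, (l : ℤ) ∣ n + h)) ↔ ((∏ l ∈ τ.1, l : ℕ) : ℤ) ∣ n - ρ := by
    intro τ hτ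
    rw [mem_sigma] at hτ
    exact crt h τ.1 τ.2 (fun l hl => (mem_UU hτ.1 l hl).1) (mem_powerset.1 hτ.2)
  choose! ρ hρ using hex
  refine ⟨ρ, fun R x => ?_⟩
  unfold Gam theta
  rw [sum_comm, sum_sigma]
  apply sum_congr rfl
  intro U hU
  have hUp : ∀ l ∈ U, l.Prime ∧ ¬ l ∣ h := fun l hl => ⟨(mem_UU hU l hl).1, (mem_UU hU l hl).2.2.1⟩
  have hd : 0 < ∏ l ∈ U, l := prod_pos (fun l hl => (hUp l hl).1.pos)
  have h1 : ∀ n : ℤ, (if (∀ l ∈ U, l ∣ (n * (n + h)).natAbs) then ((-1 : ℝ)) ^ U.card else 0) =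
      ∑ S ∈ U.powerset, (-1 : ℝ) ^ U.card * if (((∏ l ∈ U, l : ℕ) : ℤ) ∣ n - ρ ⟨U, S⟩) then (1 : ℝ) else 0 := by
    intro n
    have h2 := split_roots h U hUp n
    have h3 : (if (∀ l ∈ U, l ∣ (n * (n + h)).natAbs) then ((-1 : ℝ)) ^ U.card else 0) =
        (-1 : ℝ) ^ U.card * (if (∀ l ∈ U, l ∣ (n * (n + h)).natAbs) then (1 : ℝ) else 0) := by
      split_ifs <;> simp
    rw [h3, h2, mul_sum]
    apply sum_congr rfl
    intro S hS
    have h4 := hρ ⟨U, S⟩ (mem_sigma.2 ⟨hU, hS⟩) n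
    dsimp only at h4
    congr 1
    by_cases h5 : ((∏ l ∈ U, l : ℕ) : ℤ) ∣ n - ρ ⟨U, S⟩
    · rw [if_pos h5, if_pos (h4.2 h5)]
    · rw [if_neg h5, if_neg (fun h6 => h5 (h4.1 h6))]
  rw [sum_congr rfl (fun n _ => h1 n), sum_comm]
  apply sum_congr rfl
  intro S _
  dsimp only
  rw [lat_shift R x _ _ hd, mul_sum]

theorem Gam_nonneg (b0 h J : ℕ) (hb0 : Even b0) (R x : ℝ) : 0 ≤ Gam b0 h J R x :=
  sum_nonneg (fun _ _ => theta_nonneg _ _ _ _ hb0)

/-- the majorant counts the prime pairs -/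
theorem Gam_ge (b0 h J : ℕ) (hb0 : Even b0) (R x : ℝ) (P : Finset ℕ)
    (hP : ∀ p ∈ P, p.Prime ∧ (p + h).Prime ∧ 2 ^ 2 ^ J ≤ p ∧ |x - p| < R) : (P.card : ℝ) ≤ Gam b0 h J R x := by
  classical
  have hinj : Function.Injective (fun n : ℕ => (n : ℤ)) := Nat.cast_injective
  have h1 : (P.card : ℝ) = ∑ n ∈ P.image (fun n : ℕ => (n : ℤ)), (1 : ℝ) := by
    rw [sum_const, nsmul_eq_mul, mul_one, card_image_of_injective _ hinj]
  rw [h1]
  unfold Gam
  have hsub : P.image (fun n : ℕ => (n : ℤ)) ⊆ lat R x 1 := by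
    intro n hn
    obtain ⟨p, hp, rfl⟩ := mem_image.1 hn
    rw [mem_lat _ _ _ one_pos]
    push_cast
    rw [one_mul]
    exact (hP p hp).2.2.2
  refine le_trans (sum_le_sum (fun n hn => ?_)) (sum_le_sum_of_subset_of_nonneg hsub (fun n _ _ => theta_nonneg _ _ _ _ hb0))
  obtain ⟨p, hp, rfl⟩ := mem_image.1 hn
  obtain ⟨h2, h3, h4, _⟩ := hP p hp
  apply theta_ge _ _ _ _ hb0
  intro l hl _ hlh hlJ hdvd
  have h5 : ((p : ℤ) * ((p : ℤ) + h)).natAbs = p * (p + h) := by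
    have : ((p : ℤ) * ((p : ℤ) + h)) = ((p * (p + h) : ℕ) : ℤ) := by push_cast; ring
    rw [this, Int.natAbs_natCast]
  rw [h5] at hdvd
  rcases (Nat.Prime.dvd_mul hl).1 hdvd with h6 | h6
  · have h7 := (Nat.prime_dvd_prime_iff_eq hl h2).1 h6
    omega
  · have h7 := (Nat.prime_dvd_prime_iff_eq hl h3).1 h6
    omega

end Pool.Agent.J4H33.W
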