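import Pool.Agent.J4H33.W4

/-!
# The variance of the sieve majorant over dilates
-/

set_option autoImplicit false

namespace Pool.Agent.J4H33.W

open Finset MeasureTheory
open Pool.Agent.J4H33.V (lat mem_lat card_lat)

/-- the main term -/
noncomputable def mt (b0 h J : ℕ) : ℝ := ∑ U ∈ UU b0 h J, (-1 : ℝ) ^ U.card * ∏ l ∈ U, (2 / (l : ℝ))

theorem var_h (b0 h J : ℕ) (A : Finset ℕ) (R Y m₀ : ℝ) (hR : 1 ≤ R) (hY : 0 ≤ Y) (hm₀ : 0 < m₀)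
    (hA : ∀ a ∈ A, a.Prime ∧ m₀ ≤ (a : ℝ)) :
    ∫ y in Set.Icc 0 Y, (∑ a ∈ A, Gam b0 h J R (a * y) - A.card * (2 * R * mt b0 h J)) ^ 2 ≤
      2 * R * Y * ((∏ l ∈ PR J, (1 + 8 / (l : ℝ))) * A.card * (1 + 64 * A.card / m₀)) +
      20 * R ^ 2 * (A.card * ((2 : ℝ) ^ 2 ^ J) ^ (5 * (2 * b0 + 6))) ^ 2 := by
  classical
  obtain ⟨ρ, hρ⟩ := majorant b0 h J
  obtain ⟨T, hT⟩ : ∃ T, T = (UU b0 h J).sigma (fun U => U.powerset) := ⟨_, rfl⟩
  obtain ⟨Q, hQ⟩ : ∃ Q, Q = ∏ l ∈ PR J, (1 + 8 / (l : ℝ)) := ⟨_, rfl⟩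
  have hQ0 : 0 ≤ Q := by rw [hQ]; exact prod_nonneg (fun l _ => by positivity)
  have hdpos : ∀ τ ∈ T, 0 < ∏ l ∈ τ.1, l := by
    intro τ hτ
    rw [hT, mem_sigma] at hτ
    exact prod_pos (fun l hl => (mem_UU hτ.1 l hl).1.pos)
  have hvar := Pool.Agent.J4H33.V.variance T (fun τ => (-1 : ℝ) ^ τ.1.card) (fun τ => ∏ l ∈ τ.1, l) ρ R Y A hR hY hdpos
    (fun a ha => (hA a ha).1.pos) (fun τ _ => by rw [abs_neg_one_pow])
  have hsum : ∀ y : ℝ, ∑ a ∈ A, ∑ τ ∈ T, (-1 : ℝ) ^ τ.1.card * ((lat R (a * y - ρ τ) ((∏ l ∈ τ.1, l : ℕ) : ℝ)).card : ℝ) =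
      ∑ a ∈ A, Gam b0 h J R (a * y) := by
    intro y
    apply sum_congr rfl
    intro a _
    rw [hρ R (a * y), hT]
  have hmt : ∑ τ ∈ T, (-1 : ℝ) ^ τ.1.card / ((∏ l ∈ τ.1, l : ℕ) : ℝ) = mt b0 h J := by
    unfold mt
    rw [hT, sum_sigma]
    apply sum_congr rfl
    intro U _
    dsimp only
    rw [sum_const, card_powerset, nsmul_eq_mul, prod_div_distrib, prod_const]
    push_cast
    ring
  simp_rw [hsum, hmt] at hvar
  refine hvar.trans ?_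
  have hTcard : (T.card : ℝ) ≤ ((2 : ℝ) ^ 2 ^ J) ^ (5 * (2 * b0 + 6)) := by
    refine le_trans (le_of_eq ?_) (count_UU b0 h J)
    rw [hT, card_sigma]
    push_cast
    apply sum_congr rfl
    intro U _
    rw [card_powerset]
    push_cast
    rfl
  have hpair : ∀ a b : ℕ, ∑ τ ∈ T, ∑ τ' ∈ T, ((Nat.gcd (b * ∏ l ∈ τ.1, l) (a * ∏ l ∈ τ'.1, l) : ℕ) : ℝ) /
      (((∏ l ∈ τ.1, l : ℕ) : ℝ) * ((∏ l ∈ τ'.1, l : ℕ) : ℝ)) =
      ∑ U ∈ UU b0 h J, ∑ U' ∈ UU b0 h J, (2 : ℝ) ^ U.card * (2 : ℝ) ^ U'.card *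
      (((Nat.gcd (b * ∏ l ∈ U, l) (a * ∏ l ∈ U', l) : ℕ) : ℝ) / (((∏ l ∈ U, l : ℕ) : ℝ) * ((∏ l ∈ U', l : ℕ) : ℝ))) := by
    intro a b
    rw [hT, sum_sigma]
    apply sum_congr rfl
    intro U _
    dsimp only
    rw [sum_const, card_powerset, nsmul_eq_mul, sum_sigma, mul_sum]
    apply sum_congr rfl
    intro U' _
    dsimp only
    rw [sum_const, card_powerset, nsmul_eq_mul]
    push_cast
    ring
  have hAA : ∑ a ∈ A, ∑ b ∈ A, (∑ τ ∈ T, ∑ τ' ∈ T, ((Nat.gcd (b * ∏ l ∈ τ.1, l) (a * ∏ l ∈ τ'.1, l) : ℕ) : ℝ) /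
      (((∏ l ∈ τ.1, l : ℕ) : ℝ) * ((∏ l ∈ τ'.1, l : ℕ) : ℝ))) / a ≤ Q * A.card * (1 + 64 * A.card / m₀) := by
    have h1 : ∀ a ∈ A, ∑ b ∈ A, (∑ τ ∈ T, ∑ τ' ∈ T, ((Nat.gcd (b * ∏ l ∈ τ.1, l) (a * ∏ l ∈ τ'.1, l) : ℕ) : ℝ) /
      (((∏ l ∈ τ.1, l : ℕ) : ℝ) * ((∏ l ∈ τ'.1, l : ℕ) : ℝ))) / a ≤ Q + 64 * A.card / m₀ * Q := by
      intro a ha
      obtain ⟨hap, ham⟩ := hA a ha
      have ha0 : (0 : ℝ) < a := by linarith
      rw [← add_sum_erase A _ ha]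
      apply add_le_add
      · rw [hpair a a]
        have h2 := pair_bound_eq b0 h J a
        rw [← hQ] at h2
        rw [div_le_iff₀ ha0]
        linarith
      · calc ∑ b ∈ A.erase a, (∑ τ ∈ T, ∑ τ' ∈ T, ((Nat.gcd (b * ∏ l ∈ τ.1, l) (a * ∏ l ∈ τ'.1, l) : ℕ) : ℝ) /
              (((∏ l ∈ τ.1, l : ℕ) : ℝ) * ((∏ l ∈ τ'.1, l : ℕ) : ℝ))) / a
            ≤ ∑ b ∈ A.erase a, 64 * Q / m₀ := by
              apply sum_le_sum
              intro b hb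
              rw [mem_erase] at hb
              rw [hpair a b]
              have h2 := pair_bound_ne b0 h J a b hap (hA b hb.2).1 (fun h => hb.1 h.symm)
              rw [← hQ] at h2
              have h3 : 0 ≤ 64 * Q := by positivity
              calc _ ≤ 64 * Q / a := div_le_div_of_nonneg_right h2 ha0.le
                _ ≤ 64 * Q / m₀ := div_le_div_of_nonneg_left h3 hm₀ ham
          _ = ((A.erase a).card : ℝ) * (64 * Q / m₀) := by rw [sum_const, nsmul_eq_mul]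
          _ ≤ (A.card : ℝ) * (64 * Q / m₀) := by
              apply mul_le_mul_of_nonneg_right _ (by positivity)
              exact_mod_cast card_le_card (erase_subset _ _)
          _ = _ := by ring
    calc _ ≤ ∑ _a ∈ A, (Q + 64 * A.card / m₀ * Q) := sum_le_sum h1
      _ = _ := by rw [sum_const, nsmul_eq_mul]; ring
  rw [← hQ]
  have h5 : (A.card * T.card : ℝ) ≤ A.card * ((2 : ℝ) ^ 2 ^ J) ^ (5 * (2 * b0 + 6)) :=
    mul_le_mul_of_nonneg_left hTcard (Nat.cast_nonneg _)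
  have h6 : (A.card * T.card : ℝ) ^ 2 ≤ (A.card * ((2 : ℝ) ^ 2 ^ J) ^ (5 * (2 * b0 + 6))) ^ 2 :=
    pow_le_pow_left₀ (by positivity) h5 2
  exact add_le_add (mul_le_mul_of_nonneg_left hAA (by positivity)) (mul_le_mul_of_nonneg_left h6 (by positivity))

/-- integrability -/
theorem Gam_int (b0 h J : ℕ) (A : Finset ℕ) (R Y c : ℝ) (hR : 0 < R) :
    IntegrableOn (fun y : ℝ => (∑ a ∈ A, Gam b0 h J R (a * y) - c) ^ 2) (Set.Icc 0 Y) := by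
  classical
  obtain ⟨ρ, hρ⟩ := majorant b0 h J
  obtain ⟨T, hT⟩ : ∃ T, T = (UU b0 h J).sigma (fun U => U.powerset) := ⟨_, rfl⟩
  have hdpos : ∀ τ ∈ T, 0 < ∏ l ∈ τ.1, l := by
    intro τ hτ
    rw [hT, mem_sigma] at hτ
    exact prod_pos (fun l hl => (mem_UU hτ.1 l hl).1.pos)
  have hfun : (fun y : ℝ => (∑ a ∈ A, Gam b0 h J R (a * y) - c) ^ 2) = fun y : ℝ =>
      (∑ a ∈ A, ∑ τ ∈ T, (-1 : ℝ) ^ τ.1.card * ((lat R (a * y - ρ τ) ((∏ l ∈ τ.1, l : ℕ) : ℝ)).card : ℝ) - c) ^ 2 := by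
    funext y
    congr 2
    apply sum_congr rfl
    intro a _
    rw [hρ R (a * y), hT]
  rw [hfun]
  have hmeas : Measurable (fun y : ℝ => ∑ a ∈ A, ∑ τ ∈ T, (-1 : ℝ) ^ τ.1.card *
      ((lat R (a * y - ρ τ) ((∏ l ∈ τ.1, l : ℕ) : ℝ)).card : ℝ)) := by
    apply Finset.measurable_sum
    intro a _
    apply Finset.measurable_sum
    intro τ hτ
    apply Measurable.const_mul
    exact Pool.Agent.J4H33.V.measurable_lat R _ _ _ hR (by exact_mod_cast hdpos τ hτ)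
  have hbd : ∀ y : ℝ, |∑ a ∈ A, ∑ τ ∈ T, (-1 : ℝ) ^ τ.1.card *
      ((lat R (a * y - ρ τ) ((∏ l ∈ τ.1, l : ℕ) : ℝ)).card : ℝ)| ≤ A.card * (T.card * (2 * R + 1)) := by
    intro y
    refine (abs_sum_le_sum_abs _ _).trans ?_
    calc ∑ a ∈ A, |∑ τ ∈ T, (-1 : ℝ) ^ τ.1.card * ((lat R (a * y - ρ τ) ((∏ l ∈ τ.1, l : ℕ) : ℝ)).card : ℝ)|
        ≤ ∑ _a ∈ A, (T.card : ℝ) * (2 * R + 1) := by
          apply sum_le_sum
          intro a _
          refine (abs_sum_le_sum_abs _ _).trans ?_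
          calc ∑ τ ∈ T, |(-1 : ℝ) ^ τ.1.card * ((lat R (a * y - ρ τ) ((∏ l ∈ τ.1, l : ℕ) : ℝ)).card : ℝ)|
              ≤ ∑ _τ ∈ T, (2 * R + 1) := by
                apply sum_le_sum
                intro τ hτ
                rw [abs_mul, abs_neg_one_pow, one_mul, abs_of_nonneg (Nat.cast_nonneg _)]
                exact Pool.Agent.J4H33.V.lat_le R _ _ hR (by exact_mod_cast hdpos τ hτ)
            _ = _ := by rw [sum_const, nsmul_eq_mul]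
      _ = _ := by rw [sum_const, nsmul_eq_mul]
  have hfin : volume (Set.Icc 0 Y) ≠ ⊤ := by rw [Real.volume_Icc]; exact ENNReal.ofReal_ne_top
  refine Measure.integrableOn_of_bounded (M := (A.card * (T.card * (2 * R + 1)) + |c|) ^ 2) hfin
    ((hmeas.sub_const c).pow_const 2).aestronglyMeasurable (Filter.Eventually.of_forall (fun y => ?_))
  rw [Real.norm_eq_abs, abs_pow]
  apply pow_le_pow_left₀ (abs_nonneg _)
  exact (abs_sub _ _).trans (add_le_add (hbd y) le_rfl)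

end Pool.Agent.J4H33.W
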