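import Pool.Agent.J4H33.W5

/-!
# Few cells contain many prime pairs near the dilates
-/

set_option autoImplicit false

namespace Pool.Agent.J4H33.W

open Finset MeasureTheory

/-- the primes in `(x - H, x)` -/
noncomputable def win (x H : ℝ) : Finset ℕ := (range ⌈x⌉₊).filter (fun p => p.Prime ∧ x - H < (p : ℝ))

theorem mem_win (x H : ℝ) (p : ℕ) : p ∈ win x H ↔ p.Prime ∧ x - H < (p : ℝ) ∧ (p : ℝ) < x := by
  unfold win
  rw [mem_filter, mem_range, Nat.lt_ceil]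
  tauto

theorem win_sq (x H : ℝ) : ((win x H).card : ℝ) ^ 2 ≤ (win x H).card +
    2 * ∑ h ∈ Icc 1 ⌊H⌋₊, (((win x H).filter (fun p => p + h ∈ win x H)).card : ℝ) := by
  classical
  obtain ⟨W, hW⟩ : ∃ W, W = win x H := ⟨_, rfl⟩
  rw [← hW]
  have hmem : ∀ p ∈ W, x - H < (p : ℝ) ∧ (p : ℝ) < x := by
    intro p hp
    rw [hW, mem_win] at hp
    exact hp.2
  have hsub : W ×ˢ W ⊆ W.image (fun p => (p, p)) ∪
      ((Icc 1 ⌊H⌋₊).biUnion (fun h => (W.filter (fun p => p + h ∈ W)).image (fun p => (p, p + h)))) ∪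
      ((Icc 1 ⌊H⌋₊).biUnion (fun h => (W.filter (fun p => p + h ∈ W)).image (fun p => (p + h, p)))) := by
    rintro ⟨p, q⟩ hpq
    rw [mem_product] at hpq
    obtain ⟨hp, hq⟩ := hpq
    dsimp only at hp hq
    have hp1 := hmem p hp
    have hq1 := hmem q hq
    rw [mem_union, mem_union]
    rcases lt_trichotomy p q with h | h | h
    · left; right
      rw [mem_biUnion]
      refine ⟨q - p, ?_, ?_⟩
      · rw [mem_Icc]
        refine ⟨by omega, Nat.le_floor ?_⟩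
        rw [Nat.cast_sub h.le]
        linarith
      · rw [mem_image]
        refine ⟨p, ?_, ?_⟩
        · rw [mem_filter]
          refine ⟨hp, ?_⟩
          rw [Nat.add_sub_cancel' h.le]
          exact hq
        · rw [Nat.add_sub_cancel' h.le]
    · left; left
      rw [mem_image]
      exact ⟨p, hp, by rw [h]⟩
    · right
      rw [mem_biUnion]
      refine ⟨p - q, ?_, ?_⟩
      · rw [mem_Icc]
        refine ⟨by omega, Nat.le_floor ?_⟩
        rw [Nat.cast_sub h.le]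
        linarith
      · rw [mem_image]
        refine ⟨q, ?_, ?_⟩
        · rw [mem_filter]
          refine ⟨hq, ?_⟩
          rw [Nat.add_sub_cancel' h.le]
          exact hp
        · rw [Nat.add_sub_cancel' h.le]
  have h1 := card_le_card hsub
  rw [card_product] at h1
  have h2 : (W.image (fun p => (p, p))).card ≤ W.card := card_image_le
  have h3 : ((Icc 1 ⌊H⌋₊).biUnion (fun h => (W.filter (fun p => p + h ∈ W)).image (fun p => (p, p + h)))).card ≤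
      ∑ h ∈ Icc 1 ⌊H⌋₊, (W.filter (fun p => p + h ∈ W)).card :=
    card_biUnion_le.trans (sum_le_sum (fun h _ => card_image_le))
  have h4 : ((Icc 1 ⌊H⌋₊).biUnion (fun h => (W.filter (fun p => p + h ∈ W)).image (fun p => (p + h, p)))).card ≤
      ∑ h ∈ Icc 1 ⌊H⌋₊, (W.filter (fun p => p + h ∈ W)).card :=
    card_biUnion_le.trans (sum_le_sum (fun h _ => card_image_le))
  have h5 : W.card * W.card ≤ W.card + 2 * ∑ h ∈ Icc 1 ⌊H⌋₊, (W.filter (fun p => p + h ∈ W)).card := by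
    have h6 := card_union_le (W.image (fun p => (p, p)) ∪
      ((Icc 1 ⌊H⌋₊).biUnion (fun h => (W.filter (fun p => p + h ∈ W)).image (fun p => (p, p + h)))))
      ((Icc 1 ⌊H⌋₊).biUnion (fun h => (W.filter (fun p => p + h ∈ W)).image (fun p => (p + h, p))))
    have h7 := card_union_le (W.image (fun p => (p, p)))
      ((Icc 1 ⌊H⌋₊).biUnion (fun h => (W.filter (fun p => p + h ∈ W)).image (fun p => (p, p + h))))
    omega
  have h8 : ((W.card * W.card : ℕ) : ℝ) ≤ ((W.card + 2 * ∑ h ∈ Icc 1 ⌊H⌋₊, (W.filter (fun p => p + h ∈ W)).card : ℕ) : ℝ) := by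
    exact_mod_cast h5
  push_cast at h8
  rw [sq]
  exact h8

/-- the number of prime pairs near the dilates -/
noncomputable def npairs (A : Finset ℕ) (y H : ℝ) : ℝ :=
  ∑ h ∈ Icc 1 ⌊H⌋₊, ∑ a ∈ A, (((win (a * y) H).filter (fun p => p + h ∈ win (a * y) H)).card : ℝ)

theorem badcells (b0 J : ℕ) (hb0 : Even b0) (A : Finset ℕ) (H ℓ Y M K : ℝ) (V : ℕ → ℝ) (hH : 1 ≤ H) (hℓ : 0 < ℓ) (hMℓ : M * ℓ ≤ H)
    (hM : ∀ a ∈ A, (a : ℝ) ≤ M) (hK : 0 < K) (hY : 0 ≤ Y)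
    (hmean : ∑ h ∈ Icc 1 ⌊H⌋₊, A.card * (2 * (2 * H) * mt b0 h J) ≤ K)
    (hV : ∀ h ∈ Icc 1 ⌊H⌋₊, ∫ y in Set.Icc 0 (Y + ℓ), (∑ a ∈ A, Gam b0 h J (2 * H) (a * y) -
      A.card * (2 * (2 * H) * mt b0 h J)) ^ 2 ≤ V h) :
    ∃ U : Finset ℝ, (U.card : ℝ) * ℓ * K ^ 2 ≤ ⌊H⌋₊ * ∑ h ∈ Icc 1 ⌊H⌋₊, V h ∧ ∀ y : ℝ, 0 < y → y ≤ Y →
      (∀ a ∈ A, ((2 ^ 2 ^ J : ℕ) : ℝ) ≤ a * y - H) → (∀ u ∈ U, ¬ (u ≤ y ∧ y ≤ u + ℓ)) → npairs A y H ≤ 2 * K := by
  classical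
  obtain ⟨n, hn⟩ : ∃ n, n = ⌊H⌋₊ := ⟨_, rfl⟩
  have hn1 : 1 ≤ n := by rw [hn]; exact (Nat.one_le_floor_iff _).2 hH
  have hn0 : (0 : ℝ) < n := by exact_mod_cast hn1
  obtain ⟨G, hG⟩ : ∃ G : ℕ → ℝ → ℝ, G = fun h y => ∑ a ∈ A, Gam b0 h J (2 * H) (a * y) - A.card * (2 * (2 * H) * mt b0 h J) :=
    ⟨_, rfl⟩
  obtain ⟨Bad, hBad⟩ : ∃ Bad : Finset ℕ, Bad = (range (⌊Y / ℓ⌋₊ + 1)).filter (fun m : ℕ => ∃ y : ℝ, (m : ℝ) * ℓ ≤ y ∧
    y ≤ (m + 1) * ℓ ∧ (∀ a ∈ A, ((2 ^ 2 ^ J : ℕ) : ℝ) ≤ a * y - H) ∧ 2 * K < npairs A y H) := ⟨_, rfl⟩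
  -- on a bad cell
  have hcell : ∀ m ∈ Bad, ∀ y' ∈ Set.Ico ((m : ℝ) * ℓ) ((m + 1) * ℓ), K ^ 2 / n ≤ ∑ h ∈ Icc 1 n, G h y' ^ 2 := by
    intro m hm y' hy'
    rw [hBad, mem_filter] at hm
    obtain ⟨_, y, hy1, hy2, hy3, hy4⟩ := hm
    have hyy : |y - y'| ≤ ℓ := by
      rw [abs_le]
      constructor <;> [linarith [hy'.2]; linarith [hy'.1]]
    have h1 : npairs A y H ≤ ∑ h ∈ Icc 1 n, ∑ a ∈ A, Gam b0 h J (2 * H) (a * y') := by
      unfold npairs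
      rw [← hn]
      apply sum_le_sum
      intro h _
      apply sum_le_sum
      intro a ha
      apply Gam_ge b0 h J hb0
      intro p hp
      rw [mem_filter, mem_win, mem_win] at hp
      obtain ⟨⟨hp1, hp2, hp3⟩, hp4, _, _⟩ := hp
      refine ⟨hp1, hp4, ?_, ?_⟩
      · have h2 := hy3 a ha
        have h3 : ((2 ^ 2 ^ J : ℕ) : ℝ) ≤ p := by linarith
        exact_mod_cast h3
      · have h2 : |(a : ℝ) * y' - a * y| ≤ H := by
          rw [← mul_sub, abs_mul, Nat.abs_cast, abs_sub_comm]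
          calc (a : ℝ) * |y - y'| ≤ M * ℓ := mul_le_mul (hM a ha) hyy (abs_nonneg _) ((Nat.cast_nonneg _).trans (hM a ha))
            _ ≤ H := hMℓ
        have h3 := abs_le.1 h2
        rw [abs_lt]
        constructor <;> linarith
    have h2 : K ≤ ∑ h ∈ Icc 1 n, G h y' := by
      rw [hG]
      dsimp only
      rw [sum_sub_distrib]
      rw [← hn] at hmean
      linarith
    have h3 : (∑ h ∈ Icc 1 n, G h y') ^ 2 ≤ n * ∑ h ∈ Icc 1 n, G h y' ^ 2 := by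
      have h4 := sq_sum_le_card_mul_sum_sq (s := Icc 1 n) (f := fun h => G h y')
      rw [Nat.card_Icc, Nat.add_sub_cancel] at h4
      exact h4
    rw [div_le_iff₀ hn0]
    have h5 : K ^ 2 ≤ (∑ h ∈ Icc 1 n, G h y') ^ 2 := pow_le_pow_left₀ hK.le h2 2
    linarith
  have hFint : IntegrableOn (fun y => ∑ h ∈ Icc 1 n, G h y ^ 2) (Set.Icc 0 (Y + ℓ)) := by
    apply integrable_finsetSum
    intro h _
    rw [hG]
    exact Gam_int b0 h J A (2 * H) (Y + ℓ) _ (by linarith)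
  have hFle : ∫ y in Set.Icc 0 (Y + ℓ), ∑ h ∈ Icc 1 n, G h y ^ 2 ≤ ∑ h ∈ Icc 1 n, V h := by
    rw [integral_finsetSum]
    · apply sum_le_sum
      intro h hh
      rw [hG]
      exact hV h (by rw [← hn]; exact hh)
    · intro h _
      rw [hG]
      exact Gam_int b0 h J A (2 * H) (Y + ℓ) _ (by linarith)
  have hsub : (⋃ m ∈ Bad, Set.Ico ((m : ℝ) * ℓ) ((m + 1) * ℓ)) ⊆ Set.Icc 0 (Y + ℓ) := by
    intro y hy
    rw [Set.mem_iUnion₂] at hy
    obtain ⟨m, hm, hy1, hy2⟩ := hy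
    rw [hBad, mem_filter, mem_range] at hm
    have h1 : (m : ℝ) ≤ Y / ℓ := by
      have h2 : m ≤ ⌊Y / ℓ⌋₊ := by omega
      exact (Nat.cast_le.2 h2).trans (Nat.floor_le (by positivity))
    rw [le_div_iff₀ hℓ] at h1
    constructor
    · have : 0 ≤ (m : ℝ) * ℓ := by positivity
      linarith
    · linarith
  have hdisj : Set.Pairwise (Bad : Set ℕ) (Function.onFun Disjoint (fun m : ℕ => Set.Ico ((m : ℝ) * ℓ) ((m + 1) * ℓ))) := by
    intro m _ m' _ hne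
    rw [Function.onFun, Set.disjoint_left]
    rintro y ⟨h1, h2⟩ ⟨h3, h4⟩
    rcases lt_or_gt_of_ne hne with h | h
    · have h5 : ((m : ℝ) + 1) * ℓ ≤ m' * ℓ := by
        apply mul_le_mul_of_nonneg_right _ hℓ.le
        exact_mod_cast h
      linarith
    · have h5 : ((m' : ℝ) + 1) * ℓ ≤ m * ℓ := by
        apply mul_le_mul_of_nonneg_right _ hℓ.le
        exact_mod_cast h
      linarith
  have hlow : (Bad.card : ℝ) * (K ^ 2 / n * ℓ) ≤ ∫ y in Set.Icc 0 (Y + ℓ), ∑ h ∈ Icc 1 n, G h y ^ 2 := by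
    have h1 : ∫ y in (⋃ m ∈ Bad, Set.Ico ((m : ℝ) * ℓ) ((m + 1) * ℓ)), ∑ h ∈ Icc 1 n, G h y ^ 2 ≤
        ∫ y in Set.Icc 0 (Y + ℓ), ∑ h ∈ Icc 1 n, G h y ^ 2 := by
      apply setIntegral_mono_set hFint
      · exact Filter.Eventually.of_forall (fun y => sum_nonneg (fun h _ => sq_nonneg _))
      · exact Filter.Eventually.of_forall (fun y hy => hsub hy)
    refine le_trans ?_ h1
    rw [integral_biUnion_finset Bad (fun m _ => measurableSet_Ico) hdisj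
      (fun m hm => hFint.mono_set ((Set.subset_biUnion_of_mem (u := fun m : ℕ => Set.Ico ((m : ℝ) * ℓ) ((m + 1) * ℓ)) hm).trans hsub))]
    rw [← nsmul_eq_mul, ← sum_const]
    apply sum_le_sum
    intro m hm
    have h2 := setIntegral_ge_of_const_le (μ := volume) (s := Set.Ico ((m : ℝ) * ℓ) ((m + 1) * ℓ)) (c := K ^ 2 / n)
      (f := fun y => ∑ h ∈ Icc 1 n, G h y ^ 2) measurableSet_Ico (by rw [Real.volume_Ico]; exact ENNReal.ofReal_ne_top)
      (fun y hy => hcell m hm y hy)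
      (hFint.mono_set ((Set.subset_biUnion_of_mem (u := fun m : ℕ => Set.Ico ((m : ℝ) * ℓ) ((m + 1) * ℓ)) hm).trans hsub))
    rw [Measure.real, Real.volume_Ico] at h2
    have h3 : ((m : ℝ) + 1) * ℓ - m * ℓ = ℓ := by ring
    rw [h3, ENNReal.toReal_ofReal hℓ.le, smul_eq_mul, mul_comm] at h2
    exact h2
  refine ⟨Bad.image (fun m : ℕ => (m : ℝ) * ℓ), ?_, fun y hy0 hy1 hy2 hyU => ?_⟩
  · have h1 : (((Bad.image (fun m : ℕ => (m : ℝ) * ℓ)).card : ℕ) : ℝ) ≤ Bad.card := by exact_mod_cast card_image_le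
    have h2 := hlow.trans hFle
    have h3 : (Bad.card : ℝ) * (K ^ 2 / n * ℓ) * n = Bad.card * ℓ * K ^ 2 := by field_simp
    rw [← hn]
    calc (((Bad.image (fun m : ℕ => (m : ℝ) * ℓ)).card : ℕ) : ℝ) * ℓ * K ^ 2 ≤ Bad.card * ℓ * K ^ 2 := by
          apply mul_le_mul_of_nonneg_right _ (sq_nonneg _)
          exact mul_le_mul_of_nonneg_right h1 hℓ.le
      _ = (Bad.card : ℝ) * (K ^ 2 / n * ℓ) * n := h3.symm
      _ ≤ (∑ h ∈ Icc 1 n, V h) * n := mul_le_mul_of_nonneg_right h2 hn0.le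
      _ = _ := by ring
  · by_contra hcon
    push Not at hcon
    have hfl := Nat.floor_le (by positivity : 0 ≤ y / ℓ)
    have hfl2 := Nat.lt_floor_add_one (y / ℓ)
    rw [le_div_iff₀ hℓ] at hfl
    rw [div_lt_iff₀ hℓ] at hfl2
    have hm : ⌊y / ℓ⌋₊ ∈ Bad := by
      rw [hBad, mem_filter, mem_range]
      refine ⟨?_, y, hfl, hfl2.le, hy2, hcon⟩
      exact Nat.lt_succ_of_le (Nat.floor_le_floor (div_le_div_of_nonneg_right hy1 hℓ.le))
    refine hyU _ (mem_image.2 ⟨_, hm, rfl⟩) ⟨hfl, ?_⟩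
    linarith

end Pool.Agent.J4H33.W
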