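import Pool.Agent.J4H33.W7
import Pool.Agent.J4H33.LF

/-!
# A positive proportion of the dilates has a prime nearby
-/

set_option autoImplicit false

namespace Pool.Agent.J4H33.W

open Finset Filter
open Pool.Agent.Results.MP_711652_nt.SparseDilates (density)

theorem ncard_win (x H : ℝ) : Set.ncard {p : ℕ | p.Prime ∧ x - H < p ∧ (p : ℝ) < x} = (win x H).card := by
  have : {p : ℕ | p.Prime ∧ x - H < p ∧ (p : ℝ) < x} = ((win x H : Finset ℕ) : Set ℕ) := by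
    ext p
    rw [mem_coe, mem_win]
    rfl
  rw [this, Set.ncard_coe_finset]

theorem win_mono (x H H' : ℝ) (h : H ≤ H') : win x H ⊆ win x H' := by
  intro p hp
  rw [mem_win] at hp ⊢
  exact ⟨hp.1, by linarith [hp.2.1], hp.2.2⟩

/-- from the two moments to the number of dilates with a prime nearby -/
theorem from_moments (A : Finset ℕ) (y H L C₂ : ℝ) (hH : 0 < H) (hHL : H ≤ L) (hC₂ : 0 < C₂)
    (h1 : (A.card : ℝ) * (H / (2 * L)) ≤ ∑ a ∈ A, ((win (a * y) H).card : ℝ))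
    (h2 : npairs A y H ≤ 2 * (C₂ * A.card * (H / L) ^ 2)) :
    (A.card : ℝ) * (H / (2 * L)) / (1 + 8 * C₂) ≤ ((A.filter (fun a : ℕ => (win (a * y) H).Nonempty)).card : ℝ) := by
  classical
  have hL : 0 < L := by linarith
  obtain ⟨S, hS⟩ : ∃ S, S = ∑ a ∈ A, ((win (a * y) H).card : ℝ) := ⟨_, rfl⟩
  obtain ⟨N, hN⟩ : ∃ N : ℝ, N = ((A.filter (fun a : ℕ => (win (a * y) H).Nonempty)).card : ℝ) := ⟨_, rfl⟩
  rw [← hS] at h1
  rw [← hN]
  have hS0 : 0 ≤ S := by rw [hS]; exact sum_nonneg (fun _ _ => Nat.cast_nonneg _)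
  have hN0 : 0 ≤ N := by rw [hN]; exact Nat.cast_nonneg _
  have hsq : ∑ a ∈ A, ((win (a * y) H).card : ℝ) ^ 2 ≤ S + 2 * npairs A y H := by
    calc ∑ a ∈ A, ((win (a * y) H).card : ℝ) ^ 2 ≤ ∑ a ∈ A, (((win (a * y) H).card : ℝ) +
          2 * ∑ h ∈ Icc 1 ⌊H⌋₊, (((win (a * y) H).filter (fun p => p + h ∈ win (a * y) H)).card : ℝ)) :=
          sum_le_sum (fun a _ => win_sq _ _)
      _ = S + 2 * npairs A y H := by
          rw [sum_add_distrib, ← hS, ← mul_sum]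
          unfold npairs
          rw [sum_comm]
  have hCS : S ^ 2 ≤ N * ∑ a ∈ A, ((win (a * y) H).card : ℝ) ^ 2 := by
    have e1 : S = ∑ a ∈ A.filter (fun a : ℕ => (win (a * y) H).Nonempty), ((win (a * y) H).card : ℝ) := by
      rw [hS, sum_filter]
      apply sum_congr rfl
      intro a _
      split_ifs with h
      · rfl
      · rw [not_nonempty_iff_eq_empty] at h
        rw [h]
        simp
    have e2 := sq_sum_le_card_mul_sum_sq (s := A.filter (fun a : ℕ => (win (a * y) H).Nonempty))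
      (f := fun a : ℕ => ((win (a * y) H).card : ℝ))
    rw [← e1, ← hN] at e2
    refine e2.trans (mul_le_mul_of_nonneg_left ?_ hN0)
    exact sum_le_sum_of_subset_of_nonneg (filter_subset _ _) (fun _ _ _ => sq_nonneg _)
  have hx : H / L ≤ 1 := by rw [div_le_one hL]; exact hHL
  have hx0 : 0 < H / L := by positivity
  have hpairs : 2 * npairs A y H ≤ 8 * C₂ * S := by
    have e1 : (H / L) ^ 2 ≤ H / L := by nlinarith
    have e2 : (A.card : ℝ) * (H / (2 * L)) = A.card * (H / L) / 2 := by field_simp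
    rw [e2] at h1
    have e3 : C₂ * A.card * (H / L) ^ 2 ≤ C₂ * A.card * (H / L) := mul_le_mul_of_nonneg_left e1 (by positivity)
    have e4 : C₂ * (A.card * (H / L) / 2) ≤ C₂ * S := mul_le_mul_of_nonneg_left h1 hC₂.le
    linarith
  have hfin : S ^ 2 ≤ N * ((1 + 8 * C₂) * S) := by
    refine hCS.trans (mul_le_mul_of_nonneg_left ?_ hN0)
    linarith
  rw [div_le_iff₀ (by positivity)]
  refine h1.trans ?_
  rcases hS0.eq_or_lt with h | h
  · rw [← h]; positivity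
  · have h3 : S * S ≤ (N * (1 + 8 * C₂)) * S := by
      calc S * S = S ^ 2 := by ring
        _ ≤ N * ((1 + 8 * C₂) * S) := hfin
        _ = _ := by ring
    exact le_of_mul_le_mul_right h3 h

theorem dyadic (H₁ q : ℝ) (hH₁ : 0 < H₁) (hq : H₁ ≤ q) : ∃ i : ℕ, (2 : ℝ) ^ i * H₁ ≤ q ∧ q ≤ 2 * ((2 : ℝ) ^ i * H₁) := by
  have h1 : 1 ≤ q / H₁ := by rw [one_le_div hH₁]; exact hq
  have hfl : ⌊q / H₁⌋₊ ≠ 0 := by
    have : 1 ≤ ⌊q / H₁⌋₊ := (Nat.one_le_floor_iff _).2 h1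
    omega
  refine ⟨Nat.log 2 ⌊q / H₁⌋₊, ?_, ?_⟩
  · have h3 : 2 ^ Nat.log 2 ⌊q / H₁⌋₊ ≤ ⌊q / H₁⌋₊ := Nat.pow_log_le_self 2 hfl
    have h4 : ((2 ^ Nat.log 2 ⌊q / H₁⌋₊ : ℕ) : ℝ) ≤ q / H₁ := (Nat.cast_le.2 h3).trans (Nat.floor_le (by linarith))
    push_cast at h4
    rwa [le_div_iff₀ hH₁] at h4
  · have h3 : ⌊q / H₁⌋₊ < 2 ^ (Nat.log 2 ⌊q / H₁⌋₊ + 1) := Nat.lt_pow_succ_log_self (by norm_num) _
    have h4 : q / H₁ < (2 : ℝ) ^ (Nat.log 2 ⌊q / H₁⌋₊ + 1) := by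
      have h5 : ((⌊q / H₁⌋₊ : ℕ) : ℝ) + 1 ≤ (2 : ℝ) ^ (Nat.log 2 ⌊q / H₁⌋₊ + 1) := by exact_mod_cast h3
      linarith [Nat.lt_floor_add_one (q / H₁)]
    rw [pow_succ, div_lt_iff₀ hH₁] at h4
    linarith

theorem positive (θ₁ : ℝ) (hθ₁ : 0 < θ₁) (hθ₁' : θ₁ < 1) : ∃ c₀ : ℝ, 0 < c₀ ∧ ∀ γ ε β : ℝ, 0 < γ → 0 < ε →
    γ + (1 + θ₁) * ε < 1 / 3 → 0 < β →
    ∃ s H₁ X₀ : ℝ, 0 < s ∧ 1 ≤ H₁ ∧ ∀ X : ℝ, X₀ ≤ X → ∀ M D : ℝ, 1 ≤ D → D ≤ X ^ s → D * Real.log X ^ 5 ≤ M ^ γ → 0 < M →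
      M ≤ X ^ θ₁ → ∀ A : Finset ℕ, (∀ a ∈ A, a.Prime ∧ β * M ≤ (a : ℝ) ∧ (a : ℝ) ≤ M) → M ^ (1 - ε) ≤ (A.card : ℝ) →
      ∃ U : Finset ℝ, (U.card : ℝ) ≤ X / (H₁ * D) ∧ ∀ y : ℝ, 0 < y → y ≤ X / M →
        (∀ u ∈ U, ¬ (u ≤ y ∧ y ≤ u + H₁ / M)) →
        ∀ H : ℝ, H₁ ≤ H → c₀ * min 1 (H / Real.log X) * A.card ≤
          ((A.filter (fun a : ℕ => (win (a * y) H).Nonempty)).card : ℝ) := by
  classical
  obtain ⟨C₂, τ, hC₂, hτ, hτ1, hpairs⟩ := pairs_scale θ₁ hθ₁ hθ₁'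
  refine ⟨1 / (4 * (1 + 8 * C₂)), by positivity, fun γ ε β hγ hε hcond hβ => ?_⟩
  obtain ⟨β₁, hβ₁⟩ : ∃ β₁, β₁ = min β 1 := ⟨_, rfl⟩
  have hβ₁0 : 0 < β₁ := by rw [hβ₁]; exact lt_min hβ one_pos
  have hβ₁1 : β₁ ≤ β := by rw [hβ₁]; exact min_le_left _ _
  have hβ₁2 : β₁ ≤ 1 := by rw [hβ₁]; exact min_le_right _ _
  obtain ⟨s₁, H₁', X₁, hs₁, hfirst⟩ := Pool.Agent.Results.MP_711652_nt.SparseDilates.result γ ε θ₁ (1 / 2) β₁ (1 / 2) hγ hε hθ₁
    hθ₁' hcond (by norm_num) hβ₁0 (by norm_num)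
  obtain ⟨H₁, hH₁⟩ : ∃ H₁, H₁ = max 1 H₁' := ⟨_, rfl⟩
  have hH₁1 : 1 ≤ H₁ := by rw [hH₁]; exact le_max_left _ _
  have hH₁2 : H₁' ≤ H₁ := by rw [hH₁]; exact le_max_right _ _
  have hH₁0 : 0 < H₁ := by linarith
  obtain ⟨s, hs⟩ : ∃ s, s = min (s₁ / 2) ((1 - θ₁) / 8) := ⟨_, rfl⟩
  have hs0 : 0 < s := by rw [hs]; apply lt_min <;> [positivity; linarith]
  have hs1 : s ≤ s₁ / 2 := by rw [hs]; exact min_le_left _ _
  have hs2 : s ≤ (1 - θ₁) / 8 := by rw [hs]; exact min_le_right _ _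
  have hs3 : s ≤ 1 / 8 := by linarith
  have e1 := hpairs β₁ hβ₁0 hβ₁2
  have e2 : ∀ᶠ X : ℝ in atTop, max 8 H₁ ≤ Real.log X := Real.tendsto_log_atTop.eventually_ge_atTop _
  have e3 : ∀ᶠ X : ℝ in atTop, 8 ≤ X ^ (s₁ / 2) := (tendsto_rpow_atTop (by positivity)).eventually_ge_atTop _
  have e4 : ∀ᶠ X : ℝ in atTop, 8 ≤ X ^ ((1 - θ₁) / 8) := (tendsto_rpow_atTop (by linarith)).eventually_ge_atTop _
  have e5 : ∀ᶠ X : ℝ in atTop, 4 * (2 / β₁ + H₁) ≤ X ^ ((3 : ℝ) / 8) := (tendsto_rpow_atTop (by norm_num)).eventually_ge_atTop _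
  have e6 : ∀ᶠ X : ℝ in atTop, ‖Real.log X‖ ≤ 1 * ‖X ^ ((1 : ℝ) / 2)‖ :=
    (isLittleO_log_rpow_atTop (by norm_num : (0 : ℝ) < 1 / 2)).bound one_pos
  obtain ⟨X₂, hX₂⟩ := eventually_atTop.1 (e1.and (e2.and (e3.and (e4.and (e5.and (e6.and (eventually_ge_atTop 3)))))))
  refine ⟨s, H₁, max X₁ X₂, hs0, hH₁1, fun X hX M D hD1 hDs hM hM0 hMX A hA hAcard => ?_⟩
  obtain ⟨hpX, hLX, h8a, h8b, h5, h6, h3⟩ := hX₂ X ((le_max_right _ _).trans hX)
  have hXX₁ : X₁ ≤ X := (le_max_left _ _).trans hX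
  have hX0 : 0 < X := by linarith
  have hX1 : 1 < X := by linarith
  have hD0 : 0 < D := by linarith
  obtain ⟨L, hL⟩ : ∃ L, L = Real.log X := ⟨_, rfl⟩
  rw [← hL] at hLX h6 hM
  have hL8 : 8 ≤ L := (le_max_left _ _).trans hLX
  have hLH : H₁ ≤ L := (le_max_right _ _).trans hLX
  have hL0 : 0 < L := by linarith
  rw [Real.norm_of_nonneg hL0.le, Real.norm_of_nonneg (by positivity), one_mul] at h6
  have hMγ : 1 ≤ M ^ γ := by
    refine le_trans ?_ hM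
    have : (1 : ℝ) ≤ L ^ 5 := one_le_pow₀ (by linarith)
    exact one_le_mul_of_one_le_of_one_le hD1 this
  have hM1 : 1 ≤ M := by
    by_contra hcon
    push Not at hcon
    have : M ^ γ < 1 := Real.rpow_lt_one hM0.le hcon hγ
    linarith
  have hA₁ : ∀ a ∈ A, a.Prime ∧ β₁ * M ≤ (a : ℝ) ∧ (a : ℝ) ≤ M := fun a ha =>
    ⟨(hA a ha).1, (mul_le_mul_of_nonneg_right hβ₁1 hM0.le).trans (hA a ha).2.1, (hA a ha).2.2⟩
  have hcard14 : (8 * D) * L ^ 14 ≤ (A.card : ℝ) := by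
    refine le_trans ?_ hAcard
    have h7 : M ^ (3 * γ) ≤ M ^ (1 - ε) := Real.rpow_le_rpow_of_exponent_le hM1 (by nlinarith)
    refine le_trans ?_ h7
    have h8 : M ^ (3 * γ) = (M ^ γ) ^ 3 := by
      rw [← Real.rpow_natCast, ← Real.rpow_mul hM0.le]
      congr 1
      push_cast
      ring
    rw [h8]
    calc (8 * D) * L ^ 14 ≤ (L * D ^ 3) * L ^ 14 := by
          apply mul_le_mul_of_nonneg_right _ (by positivity)
          have h9 : D ≤ D ^ 3 := le_self_pow₀ hD1 (by norm_num)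
          exact mul_le_mul hL8 h9 hD0.le hL0.le
      _ = (D * L ^ 5) ^ 3 := by ring
      _ ≤ (M ^ γ) ^ 3 := pow_le_pow_left₀ (by positivity) hM 3
  obtain ⟨ℓ, hℓ⟩ : ∃ ℓ, ℓ = H₁ / M := ⟨_, rfl⟩
  have hℓ0 : 0 < ℓ := by rw [hℓ]; positivity
  have hMℓ : M * ℓ = H₁ := by rw [hℓ]; field_simp
  have hHX : H₁ ≤ X := by
    refine hLH.trans ?_
    rw [hL]
    exact (Real.log_le_sub_one_of_pos hX0).trans (by linarith)
  -- first moment
  obtain ⟨U₁, hU₁a, hU₁b⟩ := hfirst X hXX₁ M (8 * D) H₁ (by linarith) (by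
    calc 8 * D ≤ X ^ (s₁ / 2) * X ^ s := mul_le_mul h8a hDs hD0.le (by positivity)
      _ = X ^ (s₁ / 2 + s) := by rw [← Real.rpow_add hX0]
      _ ≤ X ^ s₁ := Real.rpow_le_rpow_of_exponent_le hX1.le (by linarith)) hH₁2 (by
    rw [← hL]
    have h7 : max 1 (L / H₁) ≤ L := max_le (by linarith) (div_le_self hL0.le hH₁1)
    calc 8 * D * L * max 1 (L / H₁) ≤ 8 * D * L * L := mul_le_mul_of_nonneg_left h7 (by positivity)
      _ ≤ D * L ^ 5 := by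
        have h9 : (8 : ℝ) ≤ L ^ 3 := by nlinarith [mul_self_nonneg L]
        calc 8 * D * L * L = 8 * (D * L ^ 2) := by ring
          _ ≤ L ^ 3 * (D * L ^ 2) := mul_le_mul_of_nonneg_right h9 (by positivity)
          _ = D * L ^ 5 := by ring
      _ ≤ M ^ γ := hM) hM0 hMX A hA₁ hAcard
  -- pairs
  have hsc : ∀ i ∈ (range ⌈L⌉₊).filter (fun i : ℕ => (2 : ℝ) ^ i * H₁ ≤ L), ∃ U : Finset ℝ,
      (U.card : ℝ) ≤ X / (M * ℓ * (8 * D) * L) ∧ ∀ y : ℝ, 0 < y → y ≤ X / M →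
        (∀ a ∈ A, X ^ τ ≤ a * y - (2 : ℝ) ^ i * H₁) → (∀ u ∈ U, ¬ (u ≤ y ∧ y ≤ u + ℓ)) →
        npairs A y ((2 : ℝ) ^ i * H₁) ≤ 2 * (C₂ * A.card * ((2 : ℝ) ^ i * H₁ / L) ^ 2) := by
    intro i hi
    rw [mem_filter] at hi
    have h2i : (1 : ℝ) ≤ 2 ^ i := one_le_pow₀ (by norm_num)
    have h2H : H₁ ≤ (2 : ℝ) ^ i * H₁ := le_mul_of_one_le_left hH₁0.le h2i
    rw [hL]
    apply hpX M ((2 : ℝ) ^ i * H₁) ℓ (8 * D) (by linarith) _ (by linarith) (by rw [← hL]; exact hi.2) hℓ0 (by rw [hMℓ]; exact h2H) _ hM1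
      hMX A hA₁ (by rw [← hL]; exact hcard14)
    · calc 8 * D ≤ X ^ ((1 - θ₁) / 8) * X ^ s := mul_le_mul h8b hDs hD0.le (by positivity)
        _ = X ^ ((1 - θ₁) / 8 + s) := by rw [← Real.rpow_add hX0]
        _ ≤ X ^ ((1 - θ₁) / 4) := Real.rpow_le_rpow_of_exponent_le hX1.le (by linarith)
    · rw [hℓ]
      exact div_le_div_of_nonneg_right hHX hM0.le
  choose! Ui hUia hUib using hsc
  obtain ⟨Ix, hIx⟩ : ∃ Ix : Finset ℕ, Ix = (range ⌈L⌉₊).filter (fun i : ℕ => (2 : ℝ) ^ i * H₁ ≤ L) := ⟨_, rfl⟩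
  rw [← hIx] at hUia hUib
  -- small y
  obtain ⟨y₀, hy₀⟩ : ∃ y₀, y₀ = (X ^ τ + L) / (β₁ * M) := ⟨_, rfl⟩
  have hy₀0 : 0 < y₀ := by rw [hy₀]; positivity
  obtain ⟨U₀, hU₀⟩ : ∃ U₀ : Finset ℝ, U₀ = (range (⌊y₀ / ℓ⌋₊ + 1)).image (fun k : ℕ => (k : ℝ) * ℓ) := ⟨_, rfl⟩
  have hXD : X ^ ((7 : ℝ) / 8) ≤ X / D := by
    rw [le_div_iff₀ hD0]
    calc X ^ ((7 : ℝ) / 8) * D ≤ X ^ ((7 : ℝ) / 8) * X ^ ((1 : ℝ) / 8) := by
          apply mul_le_mul_of_nonneg_left _ (by positivity)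
          exact hDs.trans (Real.rpow_le_rpow_of_exponent_le hX1.le hs3)
      _ = X := by rw [← Real.rpow_add hX0]; norm_num
  have hU₀card : (U₀.card : ℝ) ≤ X / (4 * (H₁ * D)) := by
    have h7 : (U₀.card : ℝ) ≤ y₀ / ℓ + 1 := by
      have h8 : U₀.card ≤ ⌊y₀ / ℓ⌋₊ + 1 := by
        rw [hU₀]
        exact card_image_le.trans (by rw [card_range])
      have h9 : ((⌊y₀ / ℓ⌋₊ : ℕ) : ℝ) ≤ y₀ / ℓ := Nat.floor_le (by positivity)
      have h10 : (U₀.card : ℝ) ≤ ((⌊y₀ / ℓ⌋₊ : ℕ) : ℝ) + 1 := by exact_mod_cast h8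
      linarith
    refine h7.trans ?_
    have h8 : y₀ / ℓ = (X ^ τ + L) / (β₁ * H₁) := by rw [hy₀, hℓ]; field_simp
    rw [h8]
    have h9 : X ^ τ ≤ X ^ ((1 : ℝ) / 2) := Real.rpow_le_rpow_of_exponent_le hX1.le hτ1
    have h10 : 1 ≤ X ^ ((1 : ℝ) / 2) := Real.one_le_rpow hX1.le (by norm_num)
    have h11 : X / (4 * (H₁ * D)) = X / D / 4 / H₁ := by field_simp
    rw [h11]
    calc (X ^ τ + L) / (β₁ * H₁) + 1 ≤ (2 * X ^ ((1 : ℝ) / 2)) / (β₁ * H₁) + 1 * X ^ ((1 : ℝ) / 2) := by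
          apply add_le_add
          · apply div_le_div_of_nonneg_right _ (by positivity)
            linarith
          · linarith
      _ = X ^ ((1 : ℝ) / 2) * (2 / β₁ + H₁) / H₁ := by field_simp
      _ ≤ X ^ ((1 : ℝ) / 2) * (X ^ ((3 : ℝ) / 8) / 4) / H₁ := by
          apply div_le_div_of_nonneg_right _ hH₁0.le
          apply mul_le_mul_of_nonneg_left _ (by positivity)
          linarith
      _ = X ^ ((7 : ℝ) / 8) / 4 / H₁ := by
          have : X ^ ((1 : ℝ) / 2) * X ^ ((3 : ℝ) / 8) = X ^ ((7 : ℝ) / 8) := by rw [← Real.rpow_add hX0]; norm_num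
          rw [← mul_div_assoc, this]
      _ ≤ X / D / 4 / H₁ := by
          apply div_le_div_of_nonneg_right _ hH₁0.le
          apply div_le_div_of_nonneg_right hXD (by norm_num)
  have hUicard : (((Ix.biUnion Ui).card : ℕ) : ℝ) ≤ X / (4 * (H₁ * D)) := by
    have h7 : (((Ix.biUnion Ui).card : ℕ) : ℝ) ≤ ∑ i ∈ Ix, ((Ui i).card : ℝ) := by exact_mod_cast card_biUnion_le
    refine h7.trans ?_
    calc ∑ i ∈ Ix, ((Ui i).card : ℝ) ≤ ∑ _i ∈ Ix, X / (M * ℓ * (8 * D) * L) := sum_le_sum (fun i hi => hUia i hi)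
      _ = Ix.card * (X / (M * ℓ * (8 * D) * L)) := by rw [sum_const, nsmul_eq_mul]
      _ ≤ (2 * L) * (X / (M * ℓ * (8 * D) * L)) := by
          apply mul_le_mul_of_nonneg_right _ (by positivity)
          have h8 : Ix.card ≤ ⌈L⌉₊ := by
            rw [hIx]
            exact (card_filter_le _ _).trans (by rw [card_range])
          have h9 : ((⌈L⌉₊ : ℕ) : ℝ) < L + 1 := Nat.ceil_lt_add_one hL0.le
          have h10 : (Ix.card : ℝ) ≤ ((⌈L⌉₊ : ℕ) : ℝ) := by exact_mod_cast h8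
          linarith
      _ = X / (4 * (H₁ * D)) := by rw [hMℓ]; field_simp; norm_num
  refine ⟨U₁ ∪ Ix.biUnion Ui ∪ U₀, ?_, fun y hy0 hy1 hyU H hH => ?_⟩
  · have h7 : (((U₁ ∪ Ix.biUnion Ui ∪ U₀).card : ℕ) : ℝ) ≤ U₁.card + (Ix.biUnion Ui).card + U₀.card := by
      have := (card_union_le (U₁ ∪ Ix.biUnion Ui) U₀).trans (Nat.add_le_add_right (card_union_le _ _) _)
      exact_mod_cast this
    refine h7.trans ?_
    have h8 : X / (H₁ * (8 * D)) = X / (H₁ * D) / 8 := by field_simp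
    have h9 : X / (4 * (H₁ * D)) = X / (H₁ * D) / 4 := by field_simp
    rw [h8] at hU₁a
    rw [h9] at hU₀card hUicard
    have h10 : 0 ≤ X / (H₁ * D) := by positivity
    linarith
  · have hyU₁ : ∀ u ∈ U₁, ¬ (u ≤ y ∧ y ≤ u + H₁ / M) := fun u hu =>
      hyU u (mem_union_left _ (mem_union_left _ hu))
    have hyUi : ∀ i ∈ Ix, ∀ u ∈ Ui i, ¬ (u ≤ y ∧ y ≤ u + ℓ) := fun i hi u hu => by
      rw [hℓ]
      exact hyU u (mem_union_left _ (mem_union_right _ (mem_biUnion.2 ⟨i, hi, hu⟩)))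
    have hyU₀ : ∀ u ∈ U₀, ¬ (u ≤ y ∧ y ≤ u + ℓ) := fun u hu => by
      rw [hℓ]
      exact hyU u (mem_union_right _ hu)
    have hylarge : y₀ ≤ y := by
      by_contra hcon
      push Not at hcon
      have hfl := Nat.floor_le (by positivity : 0 ≤ y / ℓ)
      have hfl2 := Nat.lt_floor_add_one (y / ℓ)
      rw [le_div_iff₀ hℓ0] at hfl
      rw [div_lt_iff₀ hℓ0] at hfl2
      refine hyU₀ ((⌊y / ℓ⌋₊ : ℝ) * ℓ) ?_ ⟨hfl, by linarith⟩
      rw [hU₀, mem_image]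
      refine ⟨⌊y / ℓ⌋₊, ?_, rfl⟩
      rw [mem_range]
      exact Nat.lt_succ_of_le (Nat.floor_le_floor (div_le_div_of_nonneg_right hcon.le hℓ0.le))
    obtain ⟨q, hq⟩ : ∃ q, q = min H L := ⟨_, rfl⟩
    have hqH : q ≤ H := by rw [hq]; exact min_le_left _ _
    have hqL : q ≤ L := by rw [hq]; exact min_le_right _ _
    obtain ⟨i, hi1, hi2⟩ := dyadic H₁ q hH₁0 (by rw [hq]; exact le_min hH hLH)
    have hiIx : i ∈ Ix := by
      rw [hIx, mem_filter, mem_range]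
      refine ⟨?_, hi1.trans hqL⟩
      have h7 : (i : ℝ) < 2 ^ i := by exact_mod_cast Nat.lt_two_pow_self (n := i)
      have h8 : (2 : ℝ) ^ i ≤ L := (le_mul_of_one_le_right (by positivity) hH₁1).trans (hi1.trans hqL)
      have h9 : (i : ℝ) < L := by linarith
      have h10 : (i : ℝ) < ((⌈L⌉₊ : ℕ) : ℝ) := lt_of_lt_of_le h9 (Nat.le_ceil L)
      exact_mod_cast h10
    obtain ⟨Hi, hHi⟩ : ∃ Hi, Hi = (2 : ℝ) ^ i * H₁ := ⟨_, rfl⟩
    rw [← hHi] at hi1 hi2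
    have hHi1 : H₁ ≤ Hi := by
      rw [hHi]
      exact le_mul_of_one_le_left hH₁0.le (one_le_pow₀ (by norm_num))
    have hHiL : Hi ≤ L := hi1.trans hqL
    have hHi0 : 0 < Hi := by linarith
    have hpr := hUib i hiIx y hy0 hy1 (fun a ha => by
      rw [← hHi]
      have h7 : y₀ * (β₁ * M) ≤ y * a := by
        apply mul_le_mul hylarge (hA₁ a ha).2.1 (by positivity) hy0.le
      rw [hy₀, div_mul_cancel₀ _ (by positivity)] at h7
      linarith) (hyUi i hiIx)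
    rw [← hHi] at hpr
    -- first moment at this scale
    have hfm := hU₁b y hy0 hy1 hyU₁ Hi hHi1 (by
      have h7 : (1 : ℝ) - 1 / 2 = 1 / 2 := by norm_num
      rw [h7]
      linarith)
    have hfm1 := (abs_le.1 hfm).1
    have hfm2 : (A.card : ℝ) * (Hi / (2 * L)) ≤ ∑ a ∈ A, ((win (a * y) Hi).card : ℝ) := by
      have h7 : ∑ a ∈ A, density Hi (a * y) ≤ ∑ a ∈ A, ((win (a * y) Hi).card : ℝ) * (L / Hi) := by
        apply sum_le_sum
        intro a ha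
        unfold Pool.Agent.Results.MP_711652_nt.SparseDilates.density
        rw [ncard_win, mul_div_assoc]
        apply mul_le_mul_of_nonneg_left _ (Nat.cast_nonneg _)
        apply div_le_div_of_nonneg_right _ hHi0.le
        have ha0 : (0 : ℝ) < a := by exact_mod_cast (hA a ha).1.pos
        rw [hL]
        apply Real.log_le_log (by positivity)
        calc (a : ℝ) * y ≤ M * (X / M) := mul_le_mul (hA a ha).2.2 hy1 hy0.le hM0.le
          _ = X := by field_simp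
      rw [← sum_mul] at h7
      have h8 : (A.card : ℝ) / 2 ≤ (∑ a ∈ A, ((win (a * y) Hi).card : ℝ)) * (L / Hi) := by linarith
      rw [← div_le_iff₀ (by positivity)] at h8
      refine le_trans (le_of_eq ?_) h8
      field_simp
    have hfinal := from_moments A y Hi L C₂ hHi0 hHiL hC₂ hfm2 hpr
    have hsub : ((A.filter (fun a : ℕ => (win (a * y) Hi).Nonempty)).card : ℝ) ≤
        ((A.filter (fun a : ℕ => (win (a * y) H).Nonempty)).card : ℝ) := by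
      have : A.filter (fun a : ℕ => (win (a * y) Hi).Nonempty) ⊆ A.filter (fun a : ℕ => (win (a * y) H).Nonempty) := by
        intro a ha
        rw [mem_filter] at ha ⊢
        exact ⟨ha.1, ha.2.mono (win_mono _ _ _ (hi1.trans hqH))⟩
      exact_mod_cast card_le_card this
    refine le_trans ?_ (hfinal.trans hsub)
    rw [← hL]
    have hmin : min 1 (H / L) ≤ 2 * Hi / L := by
      have h7 : min 1 (H / L) ≤ q / L := by
        rcases le_total H L with h | h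
        · rw [hq, min_eq_left h]
          exact min_le_right _ _
        · rw [hq, min_eq_right h, div_self hL0.ne']
          exact min_le_left _ _
      exact h7.trans (div_le_div_of_nonneg_right hi2 hL0.le)
    calc 1 / (4 * (1 + 8 * C₂)) * min 1 (H / L) * (A.card : ℝ) ≤ 1 / (4 * (1 + 8 * C₂)) * (2 * Hi / L) * A.card := by
          apply mul_le_mul_of_nonneg_right _ (Nat.cast_nonneg _)
          exact mul_le_mul_of_nonneg_left hmin (by positivity)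
      _ = (A.card : ℝ) * (Hi / (2 * L)) / (1 + 8 * C₂) := by field_simp; ring

end Pool.Agent.J4H33.W
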