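import Pool.Agent.J4H33.W8
import Pool.Agent.J4H33.LF3

/-!
# A positive proportion of the dilates by dense sets of integers has a prime nearby
-/

set_option autoImplicit false

namespace Pool.Agent.J4H33.W

open Finset Filter

theorem posLF (θ₁ : ℝ) (hθ₁ : 0 < θ₁) (hθ₁' : θ₁ < 1) : ∃ c₀ : ℝ, 0 < c₀ ∧ ∀ β η : ℝ, 0 < β → 0 < η →
    ∃ s H₁ X₀ : ℝ, 0 < s ∧ 1 ≤ H₁ ∧ ∀ X : ℝ, X₀ ≤ X → ∀ M D : ℝ, 1 ≤ D → D ≤ X ^ s →
      D * Real.log X ^ 5 ≤ M ^ (η / 12) → 0 < M → M ≤ X ^ θ₁ →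
      ∀ A : Finset ℕ, (∀ a ∈ A, β * M ≤ (a : ℝ) ∧ (a : ℝ) ≤ M ∧ ∃ q : ℕ, q.Prime ∧ q ∣ a ∧ M ^ η ≤ q) →
      M ^ (1 - η / 24) ≤ (A.card : ℝ) →
      ∃ U : Finset ℝ, (U.card : ℝ) ≤ X / (H₁ * D) ∧ ∀ y : ℝ, 0 < y → y ≤ X / M →
        (∀ u ∈ U, ¬ (u ≤ y ∧ y ≤ u + H₁ / M)) →
        ∀ H : ℝ, H₁ ≤ H → c₀ * min 1 (H / Real.log X) * A.card ≤
          ((A.filter (fun a : ℕ => (win (a * y) H).Nonempty)).card : ℝ) := by
  classical
  obtain ⟨c₁, hc₁, hpos⟩ := positive θ₁ hθ₁ hθ₁'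
  refine ⟨c₁ / 2, by positivity, fun β η hβ hη => ?_⟩
  obtain ⟨s', H₁, X₀', hs', hH₁, hmain⟩ := hpos (1 / 12 + 1 / 100) (1 / 10) β (by norm_num) (by norm_num) (by nlinarith) hβ
  obtain ⟨t₀, ht₀1, ht₀⟩ := Pool.Agent.J4H33.LF.scale_cond η 1 hη one_pos
  have e1 : ∀ᶠ X : ℝ in atTop, t₀ ≤ Real.log X := Real.tendsto_log_atTop.eventually_ge_atTop _
  have e2 : ∀ᶠ X : ℝ in atTop, 8 ≤ X ^ (s' / 2) := (tendsto_rpow_atTop (by positivity)).eventually_ge_atTop _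
  obtain ⟨X₁, hX₁⟩ := eventually_atTop.1 (e1.and (e2.and (eventually_ge_atTop 3)))
  refine ⟨s' / 2, H₁, max X₀' X₁, by positivity, hH₁, fun X hX M D hD1 hDs hM hM0 hMX A hA1 hA2 => ?_⟩
  obtain ⟨hx1, hx2, hx3⟩ := hX₁ X ((le_max_right _ _).trans hX)
  have hXX₀ : X₀' ≤ X := (le_max_left _ _).trans hX
  have hX0 : 0 < X := by linarith
  have hH₁0 : 0 < H₁ := by linarith
  have hD0 : 0 < D := by linarith
  obtain ⟨L, hL⟩ : ∃ L, L = Real.log X := ⟨_, rfl⟩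
  rw [← hL] at hx1 hM
  have hL1 : 1 ≤ L := ht₀1.trans hx1
  have hL0 : 0 < L := by linarith
  have htM : t₀ ≤ M ^ (η / 12) := by
    refine hx1.trans (le_trans ?_ hM)
    exact (le_self_pow₀ hL1 (by norm_num)).trans (le_mul_of_one_le_left (by positivity) hD1)
  obtain ⟨hM1, hM24, hMR⟩ := ht₀ M hM0 htM
  have hMRL := hMR 1 zero_le_one (by rw [one_pow]; exact ht₀1.trans htM)
  have hD₂s : 8 * D ≤ X ^ s' := by
    calc 8 * D ≤ X ^ (s' / 2) * X ^ (s' / 2) := mul_le_mul hx2 hDs hD0.le (by positivity)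
      _ = X ^ s' := by rw [← Real.rpow_add hX0]; congr 1; ring
  -- decomposition
  have hApos : ∀ a ∈ A, 0 < a ∧ ∃ q : ℕ, q.Prime ∧ q ∣ a ∧ M ^ η ≤ q := by
    intro a ha
    obtain ⟨h1, _, h3⟩ := hA1 a ha
    refine ⟨?_, h3⟩
    have h4 : (0 : ℝ) < a := lt_of_lt_of_le (by positivity) h1
    exact_mod_cast h4
  obtain ⟨B, F, hB0, hF, hFne, hsum⟩ := Pool.Agent.J4H33.LF.decomp M η A hApos
  have hMη : 0 < M ^ η := by positivity
  have hQ : ∀ b ∈ B, 0 < (b : ℝ) ∧ M ^ η ≤ M / b ∧ M / b ≤ M := by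
    intro b hb
    have hb0 : (0 : ℝ) < b := by exact_mod_cast hB0 b hb
    obtain ⟨q, hq⟩ := hFne b hb
    obtain ⟨_, h2, h3⟩ := hF b hb q hq
    have h4 := (hA1 _ h3).2.1
    push_cast at h4
    refine ⟨hb0, ?_, ?_⟩
    · rw [le_div_iff₀ hb0]
      exact (mul_le_mul_of_nonneg_right h2 hb0.le).trans h4
    · apply div_le_self hM0.le
      exact_mod_cast hB0 b hb
  have hcardA : (A.card : ℝ) = ∑ b ∈ B, ((F b).card : ℝ) := by
    have h1 := hsum (fun _ => 1)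
    simpa using h1
  -- the good fibres
  obtain ⟨G, hG⟩ : ∃ G : Finset ℕ, G = B.filter (fun b : ℕ => (M / (b : ℝ)) ^ ((1 : ℝ) - 1 / 10) ≤ ((F b).card : ℝ)) := ⟨_, rfl⟩
  have hGB : G ⊆ B := by rw [hG]; exact filter_subset _ _
  have hbad : ∑ b ∈ B \ G, ((F b).card : ℝ) ≤ M ^ (1 - η / 10) * (1 + Real.log M) := by
    refine le_trans ?_ (Pool.Agent.J4H33.LF.small_fibres M η hM1 hη.le (B \ G) (fun b hb => ?_))
    · apply sum_le_sum
      intro b hb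
      rw [Finset.mem_sdiff, hG, mem_filter] at hb
      have h1 : ¬ (M / (b : ℝ)) ^ ((1 : ℝ) - 1 / 10) ≤ ((F b).card : ℝ) := fun h => hb.2 ⟨hb.1, h⟩
      exact (not_le.1 h1).le
    · have hb' : b ∈ B := (Finset.mem_sdiff.1 hb).1
      exact ⟨hB0 b hb', (hQ b hb').2.1⟩
  have hU : ∀ b ∈ G, ∃ U : Finset ℝ, (U.card : ℝ) ≤ X / (H₁ * (8 * D)) ∧ ∀ y : ℝ, 0 < y → y ≤ X / (M / b) →
        (∀ u ∈ U, ¬ (u ≤ y ∧ y ≤ u + H₁ / (M / b))) →
        ∀ H : ℝ, H₁ ≤ H → c₁ * min 1 (H / L) * (F b).card ≤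
          (((F b).filter (fun a : ℕ => (win (a * y) H).Nonempty)).card : ℝ) := by
    intro b hb
    have hbB := hGB hb
    rw [hG, mem_filter] at hb
    obtain ⟨hb0, hQ1, hQ2⟩ := hQ b hbB
    have hQ0 : 0 < M / b := by positivity
    rw [hL]
    apply hmain X hXX₀ (M / b) (8 * D) (by linarith) hD₂s _ hQ0 (hQ2.trans hMX) (F b) _ hb.2
    · rw [← hL]
      have h2 : (M ^ η) ^ ((1 : ℝ) / 12 + 1 / 100) ≤ (M / b) ^ ((1 : ℝ) / 12 + 1 / 100) :=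
        Real.rpow_le_rpow hMη.le hQ1 (by norm_num)
      refine le_trans ?_ h2
      have h3 : (M ^ η) ^ ((1 : ℝ) / 12 + 1 / 100) = M ^ (η / 100) * M ^ (η / 12) := by
        rw [← Real.rpow_mul hM0.le, ← Real.rpow_add hM0]; congr 1; ring
      rw [h3, mul_assoc]
      exact mul_le_mul (by linarith) hM (by positivity) (by positivity)
    · intro q hq
      obtain ⟨h1, h2, h3⟩ := hF b hbB q hq
      obtain ⟨h4, h5, _⟩ := hA1 _ h3
      push_cast at h4 h5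
      refine ⟨h1, ?_, ?_⟩
      · rw [← mul_div_assoc, div_le_iff₀ hb0]; exact h4
      · rw [le_div_iff₀ hb0]; exact h5
  choose! U hU1 hU2 using hU
  obtain ⟨W, hW⟩ : ∃ W, W = ∑ b ∈ G, ((F b).card : ℝ) := ⟨_, rfl⟩
  have hcardA0 : (0 : ℝ) < A.card := lt_of_lt_of_le (by positivity) hA2
  have hWA : 3 / 4 * (A.card : ℝ) ≤ W := by
    have h1 : (A.card : ℝ) = W + ∑ b ∈ B \ G, ((F b).card : ℝ) := by
      rw [hcardA, hW, add_comm, sum_sdiff hGB]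
    have h2 : M ^ (1 - η / 10) * (1 + Real.log M) ≤ 1 / 4 * (A.card : ℝ) := by
      have h3 : 0 ≤ M ^ (1 - η / 10) * (1 + Real.log M) := by
        have := Real.log_nonneg hM1
        positivity
      linarith
    linarith
  have hWpos : 0 < W := lt_of_lt_of_le (by positivity) hWA
  have hℓ : 0 < H₁ / M := by positivity
  obtain ⟨V, hV1, hV2⟩ := Pool.Agent.J4H33.Fac.weighted_union G (fun b hb => hB0 b (hGB hb)) (fun b => ((F b).card : ℝ))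
    (fun _ _ => Nat.cast_nonneg _) U (H₁ / M) (X / (H₁ * (8 * D))) (1 / 4) hℓ (by norm_num) hU1 (by rw [← hW]; exact hWpos)
  rw [← hW] at hV2
  refine ⟨V, hV1.trans (le_of_eq ?_), fun y hy0 hy1 hyV H hH1 => ?_⟩
  · field_simp
    norm_num
  have hbound := hV2 y hyV
  obtain ⟨E, hE⟩ : ∃ E : Finset ℕ, E = G.filter (fun b : ℕ => ∃ u ∈ U b, u ≤ (b : ℝ) * y ∧ (b : ℝ) * y ≤ u + b * (H₁ / M)) := ⟨_, rfl⟩
  have hE' : ∑ b ∈ E, ((F b).card : ℝ) ≤ 1 / 4 * W := by rw [hE]; convert hbound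
  have hEG : E ⊆ G := by rw [hE]; exact filter_subset _ _
  obtain ⟨g, hg⟩ : ∃ g : ℕ → ℝ, g = fun b => (((F b).filter (fun q : ℕ => (win (q * (b * y)) H).Nonempty)).card : ℝ) := ⟨_, rfl⟩
  have hgood : ∀ b ∈ G \ E, c₁ * min 1 (H / L) * ((F b).card : ℝ) ≤ g b := by
    intro b hb
    rw [Finset.mem_sdiff] at hb
    obtain ⟨hbG, hbE⟩ := hb
    obtain ⟨hb0, _, _⟩ := hQ b (hGB hbG)
    rw [hg]
    have hMb : X / (M / b) = b * (X / M) := by field_simp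
    have hMb' : H₁ / (M / b) = b * (H₁ / M) := by field_simp
    apply hU2 b hbG (b * y) (by positivity) (by rw [hMb]; exact mul_le_mul_of_nonneg_left hy1 hb0.le) _ H hH1
    intro u hu h
    apply hbE
    rw [hE, mem_filter]
    exact ⟨hbG, u, hu, h.1, by rw [hMb'] at h; exact h.2⟩
  have hsum' : ((A.filter (fun a : ℕ => (win (a * y) H).Nonempty)).card : ℝ) = ∑ b ∈ B, g b := by
    have h1 := hsum (fun a : ℕ => if (win (a * y) H).Nonempty then (1 : ℝ) else 0)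
    rw [← sum_filter, sum_const, nsmul_eq_mul, mul_one] at h1
    rw [h1, hg]
    apply sum_congr rfl
    intro b _
    have h2 : ∀ q ∈ F b, (if (win (((q * b : ℕ) : ℝ) * y) H).Nonempty then (1 : ℝ) else 0) =
        if (win ((q : ℝ) * ((b : ℝ) * y)) H).Nonempty then (1 : ℝ) else 0 := by
      intro q _
      have h3 : ((q * b : ℕ) : ℝ) * y = (q : ℝ) * ((b : ℝ) * y) := by push_cast; ring
      rw [h3]
    rw [sum_congr rfl h2, ← sum_filter, sum_const, nsmul_eq_mul, mul_one]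
  rw [hsum', ← hL]
  have hH0 : 0 < H := by linarith
  have hmin0 : 0 ≤ min 1 (H / L) := le_min zero_le_one (by positivity)
  have hGE : 1 / 2 * (A.card : ℝ) ≤ ∑ b ∈ G \ E, ((F b).card : ℝ) := by
    have h1 : ∑ b ∈ G \ E, ((F b).card : ℝ) + ∑ b ∈ E, ((F b).card : ℝ) = W := by
      rw [hW, sum_sdiff hEG]
    linarith
  calc c₁ / 2 * min 1 (H / L) * (A.card : ℝ) = c₁ * min 1 (H / L) * (1 / 2 * A.card) := by ring
    _ ≤ c₁ * min 1 (H / L) * ∑ b ∈ G \ E, ((F b).card : ℝ) := mul_le_mul_of_nonneg_left hGE (by positivity)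
    _ = ∑ b ∈ G \ E, c₁ * min 1 (H / L) * ((F b).card : ℝ) := by rw [mul_sum]
    _ ≤ ∑ b ∈ G \ E, g b := sum_le_sum hgood
    _ ≤ ∑ b ∈ B, g b := by
        apply sum_le_sum_of_subset_of_nonneg (sdiff_subset.trans hGB)
        intro b _ _
        rw [hg]
        exact Nat.cast_nonneg _

theorem posDense (θ₁ : ℝ) (hθ₁ : 0 < θ₁) (hθ₁' : θ₁ < 1) : ∃ c₀ : ℝ, 0 < c₀ ∧ ∀ α : ℝ, 0 < α →
    ∃ c s H₁ X₀ : ℝ, 0 < c ∧ 0 < s ∧ 1 ≤ H₁ ∧ ∀ X : ℝ, X₀ ≤ X → ∀ M D : ℝ, 1 ≤ D → D ≤ X ^ s →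
      D * Real.log X ^ 5 ≤ M ^ c → 0 < M → M ≤ X ^ θ₁ →
      ∀ A : Finset ℕ, (∀ a ∈ A, 1 ≤ a ∧ (a : ℝ) ≤ M) → α * M ≤ (A.card : ℝ) →
      ∃ U : Finset ℝ, (U.card : ℝ) ≤ X / (H₁ * D) ∧ ∀ y : ℝ, 0 < y → y ≤ X / M →
        (∀ u ∈ U, ¬ (u ≤ y ∧ y ≤ u + H₁ / M)) →
        ∀ H : ℝ, H₁ ≤ H → c₀ * min 1 (H / Real.log X) * A.card ≤
          ((A.filter (fun a : ℕ => (win (a * y) H).Nonempty)).card : ℝ) := by
  classical
  obtain ⟨c₁, hc₁, hpos⟩ := posLF θ₁ hθ₁ hθ₁'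
  refine ⟨c₁ / 2, by positivity, fun α hα => ?_⟩
  obtain ⟨η, hη⟩ : ∃ η, η = α * 1 / 32 := ⟨_, rfl⟩
  have hη0 : 0 < η := by rw [hη]; positivity
  obtain ⟨M₀, hM₀1, hM₀⟩ := Pool.Agent.J4H33.LF.dense_scale α 1 η hα one_pos hη
  obtain ⟨s, H₁, X₀, hs, hH₁, hmain⟩ := hpos (α * 1 / 4) η (by positivity) hη0
  have e1 : ∀ᶠ X : ℝ in atTop, max 1 (M₀ ^ (η / 12)) ≤ Real.log X := Real.tendsto_log_atTop.eventually_ge_atTop _
  obtain ⟨X₁, hX₁⟩ := eventually_atTop.1 e1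
  refine ⟨η / 12, s, H₁, max X₀ X₁, by positivity, hs, hH₁, fun X hX M D hD1 hDs hM hM0 hMX A hA1 hA2 => ?_⟩
  have hx1 := hX₁ X ((le_max_right _ _).trans hX)
  have hL1 : 1 ≤ Real.log X := (le_max_left _ _).trans hx1
  have hL2 : M₀ ^ (η / 12) ≤ Real.log X := (le_max_right _ _).trans hx1
  have hMge : M₀ ≤ M := by
    by_contra hcon
    push Not at hcon
    have h1 : M ^ (η / 12) < M₀ ^ (η / 12) := Real.rpow_lt_rpow hM0.le hcon (by positivity)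
    have h2 : Real.log X ≤ M ^ (η / 12) := by
      refine le_trans ?_ hM
      exact (le_self_pow₀ hL1 (by norm_num)).trans (le_mul_of_one_le_left (by positivity) hD1)
    linarith
  obtain ⟨hm1, hm2⟩ := hM₀ M hMge
  obtain ⟨A₁, hA₁⟩ : ∃ A₁ : Finset ℕ, A₁ = A.filter (fun a : ℕ => α * 1 / 4 * M ≤ (a : ℝ) ∧
    ∃ q : ℕ, q.Prime ∧ q ∣ a ∧ M ^ η ≤ q) := ⟨_, rfl⟩
  obtain ⟨S, hS⟩ : ∃ S : Finset ℕ, S = A.filter (fun a : ℕ => α * 1 / 4 * M ≤ (a : ℝ) ∧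
    ∀ q : ℕ, q.Prime → q ∣ a → (q : ℝ) < M ^ η) := ⟨_, rfl⟩
  obtain ⟨T, hT⟩ : ∃ T : Finset ℕ, T = A.filter (fun a : ℕ => (a : ℝ) < α * 1 / 4 * M) := ⟨_, rfl⟩
  have hsub : A ⊆ A₁ ∪ S ∪ T := by
    intro a ha
    rw [mem_union, mem_union, hA₁, hS, hT, mem_filter, mem_filter, mem_filter]
    rcases lt_or_ge (a : ℝ) (α * 1 / 4 * M) with h | h
    · right; exact ⟨ha, h⟩
    · left
      by_cases hq : ∃ q : ℕ, q.Prime ∧ q ∣ a ∧ M ^ η ≤ q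
      · left; exact ⟨ha, h, hq⟩
      · right
        push Not at hq
        exact ⟨ha, h, hq⟩
  have hScard : (S.card : ℝ) ≤ α * 1 / 4 * M := by
    apply hm2
    intro a ha
    rw [hS, mem_filter] at ha
    exact ⟨ha.2.1, (hA1 a ha.1).2, ha.2.2⟩
  have hTcard : (T.card : ℝ) ≤ α * 1 / 4 * M := by
    have h1 : T ⊆ Icc 1 ⌊α * 1 / 4 * M⌋₊ := by
      intro a ha
      rw [hT, mem_filter] at ha
      rw [mem_Icc]
      exact ⟨(hA1 a ha.1).1, Nat.le_floor ha.2.le⟩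
    have h2 := card_le_card h1
    rw [Nat.card_Icc, Nat.add_sub_cancel] at h2
    calc (T.card : ℝ) ≤ ((⌊α * 1 / 4 * M⌋₊ : ℕ) : ℝ) := by exact_mod_cast h2
      _ ≤ _ := Nat.floor_le (by positivity)
  have hAcard : (A.card : ℝ) ≤ A₁.card + S.card + T.card := by
    have h1 := (card_le_card hsub).trans ((card_union_le _ _).trans (Nat.add_le_add_right (card_union_le _ _) _))
    exact_mod_cast h1
  have hA₁card : 1 / 2 * (A.card : ℝ) ≤ (A₁.card : ℝ) := by linarith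
  have hA₁big : M ^ (1 - η / 24) ≤ (A₁.card : ℝ) := by
    have h1 : (1 / 2 : ℝ) * (α * M) ≤ (A₁.card : ℝ) := by linarith
    refine le_trans ?_ h1
    rw [Real.rpow_sub hM0, Real.rpow_one, div_le_iff₀ (by positivity)]
    rw [div_le_iff₀ hα] at hm1
    have h2 : (1 / 2 : ℝ) * (α * M) * M ^ (η / 24) = M * (M ^ (η / 24) * α / 2) := by ring
    rw [h2]
    exact le_mul_of_one_le_right hM0.le (by linarith)
  obtain ⟨U, hU1, hU2⟩ := hmain X ((le_max_left _ _).trans hX) M D hD1 hDs hM hM0 hMX A₁ (fun a ha => by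
    rw [hA₁, mem_filter] at ha
    exact ⟨ha.2.1, (hA1 a ha.1).2, ha.2.2⟩) hA₁big
  refine ⟨U, hU1, fun y hy0 hy1 hyU H hH1 => ?_⟩
  have h1 := hU2 y hy0 hy1 hyU H hH1
  have hH0 : 0 < H := by linarith
  have hmin0 : 0 ≤ min 1 (H / Real.log X) := le_min zero_le_one (by positivity)
  have h2 : ((A₁.filter (fun a : ℕ => (win (a * y) H).Nonempty)).card : ℝ) ≤
      ((A.filter (fun a : ℕ => (win (a * y) H).Nonempty)).card : ℝ) := by
    have h3 : A₁.filter (fun a : ℕ => (win (a * y) H).Nonempty) ⊆ A.filter (fun a : ℕ => (win (a * y) H).Nonempty) := by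
      apply filter_subset_filter
      rw [hA₁]
      exact filter_subset _ _
    exact_mod_cast card_le_card h3
  refine le_trans ?_ (h1.trans h2)
  calc c₁ / 2 * min 1 (H / Real.log X) * (A.card : ℝ) = c₁ * min 1 (H / Real.log X) * (1 / 2 * A.card) := by ring
    _ ≤ _ := mul_le_mul_of_nonneg_left hA₁card (by positivity)

end Pool.Agent.J4H33.W
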